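import Pool.Agent.H566.BohrLin

/-!
The theorems of `BohrLin` for the exponent `2 / 3` in place of `4 / 5`, for an arbitrary property of the members of the
residue classes.
-/

set_option autoImplicit false

namespace Pool.Agent.H566

open Finset Real

/-- few exceptions in all the residue classes of the moduli `q ≤ x ^ η` which are not divisible by a member of a small set
of large integers -/
def ClassFew (G : ℕ → Prop) (η : ℝ) (A : ℕ) : Prop :=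
  ∃ c : ℕ, ∀ A₀ : ℕ, ∃ x₀ : ℝ, ∀ x : ℝ, x₀ ≤ x →
    ∃ D : Finset ℕ, (D.card : ℝ) ≤ Real.log x ^ c ∧ (∀ d ∈ D, Real.log x ^ A₀ < (d : ℝ)) ∧
    ∀ q : ℕ, 1 ≤ q → (q : ℝ) ≤ x ^ η → (∀ d ∈ D, ¬ d ∣ q) → ∀ a : ℤ,
      (badClass G x q a).Finite ∧ ((badClass G x q a).ncard : ℝ) ≤ x / (q * Real.log x ^ A)

/-- the main theorem on Bohr sets: few exceptions for all real `α` which are not too close to fractions with
small denominators -/
theorem bohr_main2 (G : ℕ → Prop) (ρ : ℝ) (hρ : 0 < ρ) (A : ℕ) (hG : ClassFew G (2 / 3 - ρ / 2) (A + 1)) :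
    ∃ X₀ : ℝ, ∀ X : ℝ, X₀ ≤ X → ∀ α β δ : ℝ, 0 < δ → δ ≤ 1 →
      (∀ q : ℕ, 1 ≤ q → (q : ℝ) ≤ X ^ (1 / 3 + ρ) / δ → X ^ (ρ - 2 / 3) < dist1 (α * q)) →
      ((badBohr G X α β δ).ncard : ℝ) ≤ δ * X / Real.log X ^ A := by
  obtain ⟨c, hc⟩ := hG
  obtain ⟨x₀, hx₀⟩ := hc (c + 1)
  obtain ⟨x₁, -, hx₁⟩ := log_pow_le (c + 1) (ρ / 2) (by linarith) 24
  obtain ⟨x₂, -, hx₂⟩ := log_pow_le (c + 1) (1 / 3) (by norm_num) 24
  refine ⟨max (max x₀ x₁) (max x₂ (Real.exp 5)), fun X hX α β δ hδ hδ1 hα => ?_⟩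
  have hX0 : x₀ ≤ X := (le_max_left _ _).trans ((le_max_left _ _).trans hX)
  have hX1 : x₁ ≤ X := (le_max_right _ _).trans ((le_max_left _ _).trans hX)
  have hX2 : x₂ ≤ X := (le_max_left _ _).trans ((le_max_right _ _).trans hX)
  have hX3 : Real.exp 5 ≤ X := (le_max_right _ _).trans ((le_max_right _ _).trans hX)
  have hXpos : 0 < X := (Real.exp_pos 5).trans_le hX3
  have hl5 : 5 ≤ Real.log X := (Real.le_log_iff_exp_le hXpos).2 hX3
  have g1 := hx₁ X hX1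
  have g2 := hx₂ X hX2
  obtain ⟨D, hDc, hD, hcl⟩ := hx₀ X hX0
  obtain ⟨l, hl⟩ : ∃ l, l = Real.log X := ⟨_, rfl⟩
  rw [← hl] at hl5 g1 g2 hDc hD hcl ⊢
  have hlc : 0 < l ^ (c + 1) := by positivity
  have hlc1 : 1 ≤ l ^ (c + 1) := one_le_pow₀ (by linarith)
  obtain ⟨L, hL⟩ : ∃ L : ℕ, L = ⌈l ^ (c + 1)⌉₊ := ⟨_, rfl⟩
  have hL1 : l ^ (c + 1) ≤ L := by rw [hL]; exact Nat.le_ceil _
  have hL2 : (L : ℝ) < l ^ (c + 1) + 1 := by rw [hL]; exact Nat.ceil_lt_add_one hlc.le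
  have hL0 : (0 : ℝ) < L := hlc.trans_le hL1
  have hL3 : (L : ℝ) + 1 ≤ 3 * l ^ (c + 1) := by linarith
  -- the number of the integers to avoid
  have hcond : (D.card : ℝ) * (L / l ^ (c + 1) + 1) < L := by
    have e1 : (L : ℝ) / l ^ (c + 1) + 1 ≤ 3 := by
      have : (L : ℝ) / l ^ (c + 1) ≤ 2 := by
        rw [div_le_iff₀ hlc]; linarith
      linarith
    have e2 : (D.card : ℝ) * (L / l ^ (c + 1) + 1) ≤ l ^ c * 3 :=
      mul_le_mul hDc e1 (by positivity) (by positivity)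
    have e3 : l ^ c * 3 < l ^ (c + 1) := by
      rw [pow_succ]
      have : 0 < l ^ c := by positivity
      nlinarith
    linarith
  -- the case of a large `ρ`
  rcases le_or_gt (2 / 3) ρ with hρ1 | hρ1
  · exfalso
    have hX1' : 1 ≤ X := by
      have : (1 : ℝ) ≤ Real.exp 5 := Real.one_le_exp (by norm_num)
      linarith
    have h1 := hα 1 le_rfl (by
      rw [le_div_iff₀ hδ]
      have : 1 ≤ X ^ (1 / 3 + ρ) := Real.one_le_rpow hX1' (by linarith)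
      push_cast
      linarith)
    have h2 : 1 ≤ X ^ (ρ - 2 / 3) := Real.one_le_rpow hX1' (by linarith)
    have h3 := dist1_le_half (α * (1 : ℕ))
    linarith
  -- the size of `Q`
  have hX1' : 1 ≤ X := by
    have : (1 : ℝ) ≤ Real.exp 5 := Real.one_le_exp (by norm_num)
    linarith
  obtain ⟨Y, hY⟩ : ∃ Y : ℝ, Y = X ^ (2 / 3 - ρ / 2) := ⟨_, rfl⟩
  have hY0 : 0 < Y := by rw [hY]; exact Real.rpow_pos_of_pos hXpos _
  have hYX : X ^ (1 / 3 : ℝ) ≤ Y := by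
    rw [hY]; exact Real.rpow_le_rpow_of_exponent_le hX1' (by linarith)
  obtain ⟨Q, hQ⟩ : ∃ Q : ℕ, Q = ⌊Y / (L + 1)⌋₊ := ⟨_, rfl⟩
  have hYL : 8 ≤ Y / (L + 1) := by
    rw [le_div_iff₀ (by linarith)]
    linarith
  have hQ1 : Y / (L + 1) < (Q : ℝ) + 1 := by rw [hQ]; exact Nat.lt_floor_add_one _
  have hQ2 : (Q : ℝ) ≤ Y / (L + 1) := by rw [hQ]; exact Nat.floor_le (by positivity)
  have hQ3 : Y / (L + 1) ≤ 2 * Q := by linarith
  have hQ4 : 1 ≤ Q := by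
    have : (1 : ℝ) ≤ Q := by linarith
    exact_mod_cast this
  have hQ0 : (0 : ℝ) < Q := by exact_mod_cast hQ4
  obtain ⟨q, q₀, a₀, hq1, hqQ, hqd, hq₀Q, hq₀1, hq₀L, hcop, happ, hav⟩ :=
    choose_modulus α Q L hQ4 D (l ^ (c + 1)) hlc hD hcond
  have hq0 : (0 : ℝ) < q := by exact_mod_cast hq1
  have hq₀0 : (0 : ℝ) < q₀ := by exact_mod_cast hq₀1
  have hqQ' : (q : ℝ) ≤ Q := by exact_mod_cast hqQ
  -- the denominator is large
  have hqlarge : X ^ (1 / 3 + ρ) / δ < q := by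
    by_contra hcon
    push Not at hcon
    have h1 := hα q hq1 hcon
    have h2 : 1 / ((Q : ℝ) + 1) ≤ X ^ (ρ - 2 / 3) := by
      have h3 : 1 / ((Q : ℝ) + 1) ≤ (L + 1) / Y := by
        rw [div_le_div_iff₀ (by linarith) hY0]
        rw [div_lt_iff₀ (by linarith)] at hQ1
        nlinarith
      refine h3.trans ?_
      rw [div_le_iff₀ hY0, hY, ← Real.rpow_add hXpos]
      have : ρ - 2 / 3 + (2 / 3 - ρ / 2) = ρ / 2 := by ring
      rw [this]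
      linarith
    linarith
  -- the modulus is admissible
  have hq₀Y : (q₀ : ℝ) ≤ X ^ (2 / 3 - ρ / 2) := by
    rw [← hY]
    refine hq₀L.trans ?_
    rw [le_div_iff₀ (by linarith)] at hQ2
    linarith
  have hcl' := hcl q₀ hq₀1 hq₀Y hav
  -- the approximation
  have happ' : X * |α - a₀ / q₀| ≤ δ := by
    have hZ0 : 0 < X ^ (1 / 3 + ρ) := Real.rpow_pos_of_pos hXpos _
    have h1 : X ^ (1 / 3 + ρ) < q * δ := by rwa [div_lt_iff₀ hδ] at hqlarge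
    have h2 : X * |α - a₀ / q₀| ≤ X * (3 / (q * Q)) := mul_le_mul_of_nonneg_left happ hXpos.le
    refine h2.trans ?_
    rw [mul_div_assoc', div_le_iff₀ (by positivity)]
    have h3 : X * 3 ≤ X ^ (1 / 3 + ρ) * Q := by
      have h4 : X = X ^ (1 / 3 + ρ) * X ^ (2 / 3 - ρ) := by
        rw [← Real.rpow_add hXpos]
        have : 1 / 3 + ρ + (2 / 3 - ρ) = 1 := by ring
        rw [this, Real.rpow_one]
      have h5 : X ^ (2 / 3 - ρ) * 3 ≤ Q := by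
        have h6 : X ^ (2 / 3 - ρ) * 3 * (2 * (L + 1)) ≤ Y := by
          have h7 : Y = X ^ (2 / 3 - ρ) * X ^ (ρ / 2) := by
            rw [hY, ← Real.rpow_add hXpos]
            congr 1; ring
          rw [h7, mul_assoc]
          refine mul_le_mul_of_nonneg_left ?_ (Real.rpow_pos_of_pos hXpos _).le
          linarith
        rw [div_le_iff₀ (by linarith)] at hQ3
        nlinarith
      calc X * 3 = X ^ (1 / 3 + ρ) * (X ^ (2 / 3 - ρ) * 3) := by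
            conv_lhs => rw [h4]
            ring
        _ ≤ X ^ (1 / 3 + ρ) * Q := mul_le_mul_of_nonneg_left h5 hZ0.le
    calc X * 3 ≤ X ^ (1 / 3 + ρ) * Q := h3
      _ ≤ q * δ * Q := mul_le_mul_of_nonneg_right h1.le hQ0.le
      _ = δ * (q * Q) := by ring
  -- the number of exceptions
  have hE : ∀ r : ℤ, (badClass G X q₀ r).Finite ∧ ((badClass G X q₀ r).ncard : ℝ) ≤ X / (q₀ * l ^ (A + 1)) :=
    fun r => hcl' r
  have hfin := bohr_of_classes G X α β δ δ (X / (q₀ * l ^ (A + 1))) q₀ hq₀1 a₀ hcop hδ.le happ' hδ.le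
    (by positivity) hE
  refine hfin.trans ?_
  have hone : 1 ≤ δ * q₀ := by
    have hZ : (2 : ℝ) ≤ X ^ (1 / 3 + ρ) := by
      have h1 : X ^ (1 / 3 : ℝ) ≤ X ^ (1 / 3 + ρ) := Real.rpow_le_rpow_of_exponent_le hX1' (by linarith)
      linarith
    have h1 : X ^ (1 / 3 + ρ) < q * δ := by rwa [div_lt_iff₀ hδ] at hqlarge
    have h2 : q * δ ≤ 2 * q₀ * δ := mul_le_mul_of_nonneg_right (by linarith) hδ.le
    linarith
  rw [mul_div_assoc', div_le_div_iff₀ (by positivity) (by positivity), pow_succ]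
  have hlA : 0 < l ^ A := by positivity
  have h1 : 2 * (δ + δ) * q₀ + 1 ≤ 5 * (δ * q₀) := by
    have e : 2 * (δ + δ) * q₀ = 4 * (δ * q₀) := by ring
    linarith
  have h2 : 5 * (δ * q₀) ≤ δ * q₀ * l := by
    have := mul_le_mul_of_nonneg_left hl5 (mul_pos hδ hq₀0).le
    linarith
  calc (2 * (δ + δ) * q₀ + 1) * X * l ^ A = (2 * (δ + δ) * q₀ + 1) * (X * l ^ A) := by ring
    _ ≤ δ * q₀ * l * (X * l ^ A) := mul_le_mul_of_nonneg_right (h1.trans h2) (by positivity)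
    _ = δ * X * (q₀ * (l ^ A * l)) := by ring

/-- the number of the even members of a Bohr set has at least the expected order -/
theorem bohr_lower2 (ρ : ℝ) (hρ : 0 < ρ) :
    ∃ X₀ : ℝ, ∀ X : ℝ, X₀ ≤ X → ∀ α β δ : ℝ, 0 < δ → δ ≤ 1 →
      (∀ q : ℕ, 1 ≤ q → (q : ℝ) ≤ X ^ (1 / 3 + ρ) / δ → X ^ (ρ - 2 / 3) < dist1 (α * q)) →
      δ * X / 4 ≤ ((evenBohr X α β δ).ncard : ℝ) := by
  obtain ⟨x₁, -, hx₁⟩ := log_pow_le 0 (ρ / 2) (by linarith) 24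
  obtain ⟨x₂, -, hx₂⟩ := log_pow_le 0 (1 / 3) (by norm_num) 24
  refine ⟨max 1 (max x₁ x₂), fun X hX α β δ hδ hδ1 hα => ?_⟩
  have hX1' : 1 ≤ X := (le_max_left _ _).trans hX
  have g1 := hx₁ X ((le_max_left _ _).trans ((le_max_right _ _).trans hX))
  have g2 := hx₂ X ((le_max_right _ _).trans ((le_max_right _ _).trans hX))
  rw [pow_zero, mul_one] at g1 g2
  have hXpos : 0 < X := by linarith
  rcases le_or_gt (2 / 3) ρ with hρ1 | hρ1
  · exfalso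
    have h1 := hα 1 le_rfl (by
      rw [le_div_iff₀ hδ]
      have : 1 ≤ X ^ (1 / 3 + ρ) := Real.one_le_rpow hX1' (by linarith)
      push_cast
      linarith)
    have h2 : 1 ≤ X ^ (ρ - 2 / 3) := Real.one_le_rpow hX1' (by linarith)
    have h3 := dist1_le_half (α * (1 : ℕ))
    linarith
  obtain ⟨Y, hY⟩ : ∃ Y : ℝ, Y = X ^ (2 / 3 - ρ / 2) := ⟨_, rfl⟩
  have hY0 : 0 < Y := by rw [hY]; exact Real.rpow_pos_of_pos hXpos _
  have hYX : X ^ (1 / 3 : ℝ) ≤ Y := by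
    rw [hY]; exact Real.rpow_le_rpow_of_exponent_le hX1' (by linarith)
  obtain ⟨Q, hQ⟩ : ∃ Q : ℕ, Q = ⌊Y⌋₊ := ⟨_, rfl⟩
  have hQ1 : Y < (Q : ℝ) + 1 := by rw [hQ]; exact Nat.lt_floor_add_one _
  have hQ2 : (Q : ℝ) ≤ Y := by rw [hQ]; exact Nat.floor_le (by positivity)
  have hQ4 : 1 ≤ Q := by
    have : (1 : ℝ) ≤ Q := by linarith
    exact_mod_cast this
  have hQ0 : (0 : ℝ) < Q := by exact_mod_cast hQ4
  obtain ⟨q, a, hq1, hqQ, hqa, hcop⟩ := dirichlet (2 * α) Q hQ4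
  have hq0 : (0 : ℝ) < q := by exact_mod_cast hq1
  have hqQ' : (q : ℝ) ≤ Q := by exact_mod_cast hqQ
  have hZ0 : 0 < X ^ (1 / 3 + ρ) := Real.rpow_pos_of_pos hXpos _
  have hqa' : |2 * α * q - a| ≤ 1 / Y := by
    refine hqa.trans ?_
    rw [div_le_div_iff₀ (by linarith) hY0]
    linarith
  have hqlarge : X ^ (1 / 3 + ρ) / δ < 2 * q := by
    by_contra hcon
    push Not at hcon
    have h1 := hα (2 * q) (by omega) (by push_cast; linarith)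
    have h2 : dist1 (α * (2 * q : ℕ)) ≤ 1 / Y := by
      refine (dist1_le _ a).trans ?_
      refine le_trans (le_of_eq ?_) hqa'
      push_cast
      congr 1; ring
    have h3 : 1 / Y ≤ X ^ (ρ - 2 / 3) := by
      rw [div_le_iff₀ hY0, hY, ← Real.rpow_add hXpos]
      have : ρ - 2 / 3 + (2 / 3 - ρ / 2) = ρ / 2 := by ring
      rw [this]
      linarith
    linarith
  rw [div_lt_iff₀ hδ] at hqlarge
  have hδq : 4 ≤ δ * q := by
    have h1 : X ^ (1 / 3 : ℝ) ≤ X ^ (1 / 3 + ρ) := Real.rpow_le_rpow_of_exponent_le hX1' (by linarith)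
    linarith
  have happ : X * |2 * α - a / q| ≤ δ := by
    have e1 : 2 * α - a / q = (2 * α * q - a) / q := by field_simp
    rw [e1, abs_div, abs_of_pos hq0, mul_div_assoc', div_le_iff₀ hq0]
    have h1 : X * |2 * α * q - a| ≤ X * (1 / Y) := mul_le_mul_of_nonneg_left hqa' hXpos.le
    refine h1.trans ?_
    rw [mul_one_div, div_le_iff₀ hY0]
    have h2 : X * 2 ≤ X ^ (1 / 3 + ρ) * Y := by
      rw [hY, ← Real.rpow_add hXpos]
      have : 1 / 3 + ρ + (2 / 3 - ρ / 2) = 1 + ρ / 2 := by ring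
      rw [this, Real.rpow_add hXpos, Real.rpow_one]
      exact mul_le_mul_of_nonneg_left (by linarith) hXpos.le
    have h3 : X ^ (1 / 3 + ρ) * Y ≤ 2 * q * δ * Y := mul_le_mul_of_nonneg_right hqlarge.le hY0.le
    linarith
  have hXq : 8 ≤ X / (2 * q) := by
    rw [le_div_iff₀ (by positivity)]
    have h1 : Y * X ^ (1 / 3 + ρ / 2) = X := by
      rw [hY, ← Real.rpow_add hXpos]
      have : 2 / 3 - ρ / 2 + (1 / 3 + ρ / 2) = 1 := by ring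
      rw [this, Real.rpow_one]
    have h2 : X ^ (1 / 3 : ℝ) ≤ X ^ (1 / 3 + ρ / 2) := Real.rpow_le_rpow_of_exponent_le hX1' (by linarith)
    have h3 : Y * 24 ≤ X := by
      calc Y * 24 ≤ Y * X ^ (1 / 3 + ρ / 2) := mul_le_mul_of_nonneg_left (by linarith) hY0.le
        _ = X := h1
    linarith
  have h := even_bohr_ge X α β δ hXpos.le hδ.le hδ1 q hq1 a hcop happ (by linarith)
  refine le_trans ?_ h
  have e1 : X = X / (2 * q) * (2 * q) := by field_simp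
  obtain ⟨z, hz⟩ : ∃ z, z = X / (2 * q) := ⟨_, rfl⟩
  rw [← hz] at e1 hXq ⊢
  have e2 : δ * X / 4 = δ * q * z / 2 := by rw [e1]; ring
  rw [e2]
  nlinarith

/-- numbers of finite type -/
lemma hyp_of_type2 (τ c α θ : ℝ) (hτ : 1 ≤ τ) (hc : 0 < c)
    (hα : ∀ q : ℕ, 1 ≤ q → c / (q : ℝ) ^ τ ≤ dist1 (α * q)) (hθ : θ < 2 / 3 * (1 + 1 / τ) - 1) :
    ∃ ρ : ℝ, 0 < ρ ∧ ∃ X₀ : ℝ, ∀ X : ℝ, X₀ ≤ X →
      (∀ q : ℕ, 1 ≤ q → (q : ℝ) ≤ X ^ (1 / 3 + ρ) / X ^ (-θ) → X ^ (ρ - 2 / 3) < dist1 (α * q)) := by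
  have hτ0 : 0 < τ := by linarith
  obtain ⟨ρ, hρ⟩ : ∃ ρ : ℝ, ρ = (2 / 3 * (1 + 1 / τ) - 1 - θ) * τ / (4 * (τ + 1)) := ⟨_, rfl⟩
  have hρ0 : 0 < ρ := by
    rw [hρ]
    have : 0 < 2 / 3 * (1 + 1 / τ) - 1 - θ := by linarith
    positivity
  have hkey : τ * (1 / 3 + ρ + θ) + 2 * ρ < 2 / 3 - ρ := by
    have h1 : ρ * (4 * (τ + 1)) = (2 / 3 * (1 + 1 / τ) - 1 - θ) * τ := by
      rw [hρ]; field_simp
    have h2 : (2 / 3 * (1 + 1 / τ) - 1 - θ) * τ = 2 / 3 - τ / 3 - θ * τ := by field_simp; ring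
    rw [h2] at h1
    nlinarith
  refine ⟨ρ, hρ0, ?_⟩
  obtain ⟨x₁, hx₁1, hx₁⟩ := log_pow_le 0 ρ hρ0 (2 / c)
  refine ⟨x₁, fun X hX q hq hqX => ?_⟩
  have hX1 : 1 ≤ X := hx₁1.trans hX
  have hXpos : 0 < X := by linarith
  have g1 := hx₁ X hX
  rw [pow_zero, mul_one] at g1
  have hq0 : (0 : ℝ) < q := by exact_mod_cast hq
  refine lt_of_lt_of_le ?_ (hα q hq)
  rw [← Real.rpow_sub hXpos] at hqX
  have h1 : (q : ℝ) ^ τ ≤ X ^ ((1 / 3 + ρ - -θ) * τ) := by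
    rw [Real.rpow_mul hXpos.le]
    exact Real.rpow_le_rpow hq0.le hqX hτ0.le
  rw [lt_div_iff₀ (Real.rpow_pos_of_pos hq0 _)]
  have h2 : X ^ (ρ - 2 / 3) * (q : ℝ) ^ τ ≤ X ^ (ρ - 2 / 3) * X ^ ((1 / 3 + ρ - -θ) * τ) :=
    mul_le_mul_of_nonneg_left h1 (Real.rpow_pos_of_pos hXpos _).le
  rw [← Real.rpow_add hXpos] at h2
  have h3 : X ^ (ρ - 2 / 3 + (1 / 3 + ρ - -θ) * τ) ≤ X ^ (-ρ) :=
    Real.rpow_le_rpow_of_exponent_le hX1 (by nlinarith)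
  have h4 : X ^ (-ρ) < c := by
    rw [Real.rpow_neg hXpos.le, inv_lt_comm₀ (Real.rpow_pos_of_pos hXpos _) hc]
    have : 2 / c = 2 * c⁻¹ := by ring
    rw [this] at g1
    have : 0 < c⁻¹ := by positivity
    linarith
  linarith

lemma hyp_of_irrational2 (α θ : ℝ) (hα : Irrational α) (hθ : θ < 1 / 3) :
    ∃ ρ : ℝ, 0 < ρ ∧ ∀ X₁ : ℝ, ∃ X : ℝ, X₁ ≤ X ∧ 1 ≤ X ∧
      (∀ q : ℕ, 1 ≤ q → (q : ℝ) ≤ X ^ (1 / 3 + ρ) / X ^ (-θ) → X ^ (ρ - 2 / 3) < dist1 (α * q)) := by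
  obtain ⟨ρ, hρ⟩ : ∃ ρ : ℝ, ρ = min ((1 / 3 - θ) / 4) (1 / 6) := ⟨_, rfl⟩
  have hρ0 : 0 < ρ := by rw [hρ]; exact lt_min (by linarith) (by norm_num)
  have hρ1 : ρ ≤ (1 / 3 - θ) / 4 := by rw [hρ]; exact min_le_left _ _
  have hρ2 : ρ ≤ 1 / 6 := by rw [hρ]; exact min_le_right _ _
  refine ⟨ρ, hρ0, fun X₁ => ?_⟩
  have he : 0 < 2 / 3 - 2 * ρ := by linarith
  obtain ⟨x₁, hx₁1, hx₁⟩ := log_pow_le 0 ρ hρ0 3
  obtain ⟨N, hN⟩ := exists_nat_gt ((max (max X₁ x₁) 1) ^ (2 / 3 - 2 * ρ))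
  obtain ⟨Q, hNQ, hQ1, hQ⟩ := good_denominators α hα N
  have hQ0 : (0 : ℝ) < Q := by exact_mod_cast hQ1
  obtain ⟨X, hX⟩ : ∃ X : ℝ, X = (Q : ℝ) ^ (1 / (2 / 3 - 2 * ρ)) := ⟨_, rfl⟩
  have hXpos : 0 < X := by rw [hX]; exact Real.rpow_pos_of_pos hQ0 _
  have hXQ : X ^ (2 / 3 - 2 * ρ) = Q := by
    rw [hX, ← Real.rpow_mul hQ0.le]
    have : 1 / (2 / 3 - 2 * ρ) * (2 / 3 - 2 * ρ) = 1 := by rw [one_div, inv_mul_cancel₀ he.ne']
    rw [this, Real.rpow_one]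
  have hbig : max (max X₁ x₁) 1 ≤ X := by
    have h1 : (max (max X₁ x₁) 1) ^ (2 / 3 - 2 * ρ) ≤ X ^ (2 / 3 - 2 * ρ) := by
      rw [hXQ]
      refine hN.le.trans ?_
      exact_mod_cast hNQ
    exact (Real.rpow_le_rpow_iff (by positivity) hXpos.le he).1 h1
  have hX1 : 1 ≤ X := (le_max_right _ _).trans hbig
  have g := hx₁ X ((le_max_right _ _).trans ((le_max_left _ _).trans hbig))
  rw [pow_zero, mul_one] at g
  refine ⟨X, (le_max_left _ _).trans ((le_max_left _ _).trans hbig), hX1, fun q hq hqX => ?_⟩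
  have h1 : q < Q := by
    rw [← Real.rpow_sub hXpos] at hqX
    have h2 : X ^ (1 / 3 + ρ - -θ) ≤ X ^ (2 / 3 - 2 * ρ - ρ) :=
      Real.rpow_le_rpow_of_exponent_le hX1 (by linarith)
    have h3 : X ^ (2 / 3 - 2 * ρ - ρ) < X ^ (2 / 3 - 2 * ρ) :=
      Real.rpow_lt_rpow_of_exponent_lt (by
        rcases hX1.lt_or_eq with h | h
        · exact h
        · rw [← h, Real.one_rpow] at g; norm_num at g) (by linarith)
    rw [hXQ] at h3
    have : (q : ℝ) < Q := by linarith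
    exact_mod_cast this
  refine lt_of_lt_of_le ?_ (hQ q hq h1)
  rw [← hXQ, lt_div_iff₀ (by positivity)]
  have h4 : X ^ (ρ - 2 / 3) * (2 * X ^ (2 / 3 - 2 * ρ)) = 2 * X ^ (-ρ) := by
    rw [mul_left_comm, ← Real.rpow_add hXpos]
    congr 2; ring
  rw [h4, Real.rpow_neg hXpos.le]
  have h5 : (X ^ ρ)⁻¹ ≤ 3⁻¹ := inv_anti₀ (by norm_num) g
  linarith

end Pool.Agent.H566
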