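import Pool.Agent.H567.HW.RegT
import Pool.Agent.H566.BohrTwo

/-!
The asymptotic formula of Hardy and Littlewood for Goldbach's problem in all classes of the regular moduli, in long
windows, in the form needed for the Bohr sets.
-/

set_option autoImplicit false

namespace Pool.Agent.H566

open Finset Filter
open Pool.Agent.H560R3.GB (g HL sing)
open Pool.Agent.Y614.GJ.Core (ev_log)
open Pool.Agent.H567.HW (wc SS regAll add_small g_HL one_le_SS DStm transferD excD)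

/-- the asymptotic formula, also for the smaller prime in an arbitrary window of length at least `n / log ^ W n` -/
def Asy (ε : ℝ) (W n : ℕ) : Prop :=
  |(g n : ℝ) - HL n| ≤ ε * HL n ∧
  ∀ U V : ℕ, U ≤ V → 2 * V ≤ n → (n : ℝ) / Real.log n ^ W ≤ (V : ℝ) - U →
    |(wc n U V : ℝ) - sing n * (((V : ℝ) - U) / Real.log n ^ 2)| ≤ ε * (sing n * (((V : ℝ) - U) / Real.log n ^ 2))

/-- from `log V log n` to `log ^ 2 n` -/
lemma change_log (w M l L e : ℝ) (hl : 0 < l) (hL : 0 < L) (hM : 0 ≤ M) (he : 0 < e) (he1 : e ≤ 1)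
    (hlL : l ≤ L) (hLl : L ≤ (1 + e / 4) * l) (h : |w - M / (l * L)| ≤ e / 4 * (M / (l * L))) :
    |w - M / L ^ 2| ≤ e * (M / L ^ 2) := by
  obtain ⟨P, hP⟩ : ∃ P, P = M / L ^ 2 := ⟨_, rfl⟩
  obtain ⟨R, hR⟩ : ∃ R, R = M / (l * L) := ⟨_, rfl⟩
  rw [← hP]
  rw [← hR] at h
  have hP0 : 0 ≤ P := by rw [hP]; positivity
  have hR1 : R = P * (L / l) := by rw [hR, hP]; field_simp
  have h1 : 1 ≤ L / l := by rw [le_div_iff₀ hl]; linarith
  have h2 : L / l ≤ 1 + e / 4 := by rw [div_le_iff₀ hl]; exact hLl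
  have h3 : P ≤ R := by rw [hR1]; exact le_mul_of_one_le_right hP0 h1
  have h4 : R ≤ P * (1 + e / 4) := by rw [hR1]; exact mul_le_mul_of_nonneg_left h2 hP0
  have h5 : P * (1 + e / 4) ≤ P * 2 := mul_le_mul_of_nonneg_left (by linarith) hP0
  have h6 : e / 4 * R ≤ e / 4 * (P * 2) := mul_le_mul_of_nonneg_left (by linarith) (by linarith)
  have h7 := abs_le.1 h
  have h8 : 0 ≤ e * P := mul_nonneg he.le hP0
  rw [abs_le]
  constructor
  · linarith [h7.1]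
  · linarith [h7.2]

/-- the logarithm of a long window -/
lemma log_window (e : ℝ) (he : 0 < e) (he1 : e ≤ 1) (W : ℕ) : ∃ n₀ : ℕ, ∀ n : ℕ, n₀ ≤ n → ∀ V : ℝ, V ≤ n →
    (n : ℝ) / Real.log n ^ W ≤ V → 0 < Real.log V ∧ Real.log V ≤ Real.log n ∧
      Real.log n ≤ (1 + e / 4) * Real.log V := by
  obtain ⟨n₀, hn₀⟩ := Filter.eventually_atTop.1 (ev_log W (s := e / 16) (by positivity) 8)
  refine ⟨max n₀ 2, fun n hn V hVn hV => ?_⟩
  obtain ⟨hL, hLW⟩ := hn₀ n (le_trans (le_max_left _ _) hn)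
  have hn2 : 2 ≤ n := le_trans (le_max_right _ _) hn
  have hn0 : (0 : ℝ) < n := by exact_mod_cast (by omega : 0 < n)
  have hL0 : 0 < Real.log n := by linarith
  have h0 : 0 < (n : ℝ) / Real.log n ^ W := by positivity
  have hV0 : 0 < V := lt_of_lt_of_le h0 hV
  have h1 : (n : ℝ) ^ (1 - e / 16) ≤ V := by
    refine le_trans ?_ hV
    rw [le_div_iff₀ (by positivity)]
    calc (n : ℝ) ^ (1 - e / 16) * Real.log n ^ W ≤ (n : ℝ) ^ (1 - e / 16) * (n : ℝ) ^ (e / 16) := by gcongr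
      _ = n := by
          rw [← Real.rpow_add hn0]
          have : 1 - e / 16 + e / 16 = 1 := by ring
          rw [this, Real.rpow_one]
  have h2 := Real.log_le_log (by positivity) h1
  rw [Real.log_rpow hn0] at h2
  refine ⟨by nlinarith, Real.log_le_log hV0 hVn, ?_⟩
  have h3 : (1 + e / 4) * ((1 - e / 16) * Real.log n) ≤ (1 + e / 4) * Real.log V :=
    mul_le_mul_of_nonneg_left h2 (by linarith)
  have h4 : 1 ≤ (1 + e / 4) * (1 - e / 16) := by nlinarith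
  have h5 : 1 * Real.log n ≤ ((1 + e / 4) * (1 - e / 16)) * Real.log n := mul_le_mul_of_nonneg_right h4 hL0.le
  linarith

/-- the asymptotic formula in the classes of the regular moduli, natural `x` -/
theorem asyD (F : ℕ → Prop) (A W : ℕ) {ρ ε : ℝ} (hρ : 0 < ρ) (hρ2 : ρ ≤ 2 / 3) (hε : 0 < ε)
    (hF : ∃ m₀ : ℕ, ∀ n : ℕ, m₀ ≤ n → 2 ∣ n → Asy ε W n → F n) :
    DStm (fun _ n => F n) A (2 / 3 - ρ / 2) := by
  obtain ⟨m₀, hm₀⟩ := hF
  obtain ⟨e, he⟩ : ∃ e : ℝ, e = min ε 1 := ⟨_, rfl⟩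
  have he0 : 0 < e := by rw [he]; exact lt_min hε (by norm_num)
  have heε : e ≤ ε := by rw [he]; exact min_le_left _ _
  have he1 : e ≤ 1 := by rw [he]; exact min_le_right _ _
  obtain ⟨c, hc⟩ := regAll (A + 1) W (ρ := ρ / 4) (ε := e / 4) (by positivity) (by positivity)
  obtain ⟨n₀, hn₀⟩ := g_HL he0 he1
  obtain ⟨n₁, hn₁⟩ := log_window e he0 he1 W
  refine ⟨c, fun A₀ => ?_⟩
  obtain ⟨x₁, h₁⟩ := hc A₀
  obtain ⟨x₂, h₂⟩ := add_small A (r := ρ / 4) (by positivity)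
  obtain ⟨N, hN⟩ : ∃ N : ℕ, N = max (max n₀ n₁) (max m₀ 3) := ⟨_, rfl⟩
  obtain ⟨x₃, h₃⟩ := eventually_atTop.1 (((tendsto_rpow_atTop (show 0 < ρ / 24 by positivity)).comp
    tendsto_natCast_atTop_atTop).eventually (eventually_ge_atTop (max 4 (N : ℝ))))
  obtain ⟨x₄, h₄⟩ := Filter.eventually_atTop.1 (ev_log W (s := ρ / 24) (by positivity) 1)
  refine ⟨max (max x₁ x₂) (max (max x₃ x₄) 1), fun x hx => ?_⟩
  have hxx₁ : x₁ ≤ x := le_trans (le_trans (le_max_left _ _) (le_max_left _ _)) hx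
  have hxx₂ : x₂ ≤ x := le_trans (le_trans (le_max_right _ _) (le_max_left _ _)) hx
  have hxx₃ : x₃ ≤ x := le_trans (le_trans (le_trans (le_max_left _ _) (le_max_left _ _)) (le_max_right _ _)) hx
  have hxx₄ : x₄ ≤ x := le_trans (le_trans (le_trans (le_max_right _ _) (le_max_left _ _)) (le_max_right _ _)) hx
  have hx1 : 1 ≤ x := le_trans (le_trans (le_max_right _ _) (le_max_right _ _)) hx
  have hxp : max 4 (N : ℝ) ≤ (x : ℝ) ^ (ρ / 24) := h₃ x hxx₃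
  have hx4 : 4 ≤ (x : ℝ) ^ (ρ / 24) := (le_max_left _ _).trans hxp
  have hxN : (N : ℝ) ≤ (x : ℝ) ^ (ρ / 24) := (le_max_right _ _).trans hxp
  obtain ⟨hLx1, hLxW⟩ := h₄ x hxx₄
  have hx0 : (0 : ℝ) < x := by exact_mod_cast hx1
  have hxr1 : (1 : ℝ) ≤ x := by exact_mod_cast hx1
  obtain ⟨D, hD1, hD2, hD3⟩ := h₁ x hxx₁
  refine ⟨D, hD1, hD2, fun q hq hqx hqD a => ?_⟩
  have hq0 : (0 : ℝ) < q := by exact_mod_cast hq
  have hq1 : (1 : ℝ) ≤ q := by exact_mod_cast hq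
  obtain ⟨Bad, hb1, hb2⟩ := hD3 q hq hqD a
  obtain ⟨Bad', hb3, hb4⟩ := h₂ x hxx₂ q hq (hqx.trans (Real.rpow_le_rpow_of_exponent_le hxr1 (by linarith))) a Bad hb1
  refine ⟨Bad', hb3, fun n hn0 hnx hn hmod h2n => ?_⟩
  obtain ⟨hbig, hnB⟩ := hb4 n hn0 hn hmod
  have hform := hb2 n hnx hnB hmod h2n
  have hnr0 : (0 : ℝ) < n := by exact_mod_cast hn0
  have hnr1 : (1 : ℝ) ≤ n := by exact_mod_cast hn0
  have hnN : N ≤ n := by
    have h1 : (x : ℝ) ^ (ρ / 24) ≤ (x : ℝ) ^ (1 - ρ / 4) :=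
      Real.rpow_le_rpow_of_exponent_le hxr1 (by linarith)
    have h2 : (N : ℝ) ≤ n := by linarith
    exact_mod_cast h2
  have hn3 : 3 ≤ n := le_trans (by rw [hN]; exact (le_max_right _ _).trans (le_max_right _ _)) hnN
  have hnm₀ : m₀ ≤ n := le_trans (by rw [hN]; exact (le_max_left _ _).trans (le_max_right _ _)) hnN
  have hnn₀ : n₀ ≤ n := le_trans (by rw [hN]; exact (le_max_left _ _).trans (le_max_left _ _)) hnN
  have hnn₁ : n₁ ≤ n := le_trans (by rw [hN]; exact (le_max_right _ _).trans (le_max_left _ _)) hnN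
  have hlog : 1 ≤ Real.log n := by
    rw [Real.le_log_iff_exp_le hnr0]
    have h1 : (3 : ℝ) ≤ n := by exact_mod_cast hn3
    linarith [Real.exp_one_lt_d9]
  have hlogW : 1 ≤ Real.log n ^ W := one_le_pow₀ hlog
  have hlogx : Real.log n ^ W ≤ (x : ℝ) ^ (ρ / 24) := by
    refine le_trans ?_ hLxW
    have h1 : Real.log n ≤ Real.log x := Real.log_le_log hnr0 (by exact_mod_cast hnx)
    gcongr
  -- the modulus is small
  have hq4 : 4 * (Real.log n ^ W * (q : ℝ)) ≤ (n : ℝ) ^ (2 / 3 - ρ / 4) := by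
    calc 4 * (Real.log n ^ W * (q : ℝ)) ≤ (x : ℝ) ^ (ρ / 24) * ((x : ℝ) ^ (ρ / 24) * (x : ℝ) ^ (2 / 3 - ρ / 2)) := by
          gcongr
      _ = (x : ℝ) ^ (2 / 3 - 5 * ρ / 12) := by
          rw [← Real.rpow_add hx0, ← Real.rpow_add hx0]
          congr 1
          ring
      _ ≤ (x : ℝ) ^ ((1 - ρ / 4) * (2 / 3 - ρ / 4)) := by
          apply Real.rpow_le_rpow_of_exponent_le hxr1
          nlinarith [sq_nonneg ρ]
      _ = ((x : ℝ) ^ (1 - ρ / 4)) ^ (2 / 3 - ρ / 4) := by rw [← Real.rpow_mul hx0.le]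
      _ ≤ (n : ℝ) ^ (2 / 3 - ρ / 4) := Real.rpow_le_rpow (by positivity) hbig.le (by linarith)
  have hqn : 4 * (Real.log n ^ W * ((q : ℝ) * (n : ℝ) ^ (1 / 3 + ρ / 4))) ≤ n := by
    have h1 : (n : ℝ) ^ (2 / 3 - ρ / 4) * (n : ℝ) ^ (1 / 3 + ρ / 4) = n := by
      rw [← Real.rpow_add hnr0]
      have : 2 / 3 - ρ / 4 + (1 / 3 + ρ / 4) = 1 := by ring
      rw [this, Real.rpow_one]
    have h2 : 4 * (Real.log n ^ W * (q : ℝ)) * (n : ℝ) ^ (1 / 3 + ρ / 4) ≤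
        (n : ℝ) ^ (2 / 3 - ρ / 4) * (n : ℝ) ^ (1 / 3 + ρ / 4) := by
      gcongr
    rw [h1] at h2
    linarith
  have hP0 : 0 ≤ (q : ℝ) * (n : ℝ) ^ (1 / 3 + ρ / 4) := by positivity
  have hqn1 : (q : ℝ) * (n : ℝ) ^ (1 / 3 + ρ / 4) ≤ n / 4 := by
    have : (q : ℝ) * (n : ℝ) ^ (1 / 3 + ρ / 4) ≤ Real.log n ^ W * ((q : ℝ) * (n : ℝ) ^ (1 / 3 + ρ / 4)) :=
      le_mul_of_one_le_left hP0 hlogW
    linarith
  have hqn2 : (q : ℝ) * (n : ℝ) ^ (1 / 3 + ρ / 4) ≤ n / Real.log n ^ W := by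
    rw [le_div_iff₀ (by positivity)]
    have : 0 ≤ Real.log n ^ W * ((q : ℝ) * (n : ℝ) ^ (1 / 3 + ρ / 4)) := by positivity
    linarith
  refine hm₀ n hnm₀ h2n ⟨?_, ?_⟩
  · -- the number of all representations
    obtain ⟨m, hm⟩ := h2n
    have hm2 : n / 2 = m := by omega
    have hV : (q : ℝ) * (n : ℝ) ^ (1 / 3 + ρ / 4) ≤ ((n / 2 : ℕ) : ℝ) := by
      have : (n : ℝ) = 2 * ((n / 2 : ℕ) : ℝ) := by
        rw [hm2]
        exact_mod_cast hm
      linarith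
    have h1 := (hform 0 (n / 2) (Nat.zero_le _) hV (by omega)).2 (by omega) (by
      rw [Nat.cast_zero, sub_zero]
      apply div_le_self (Nat.cast_nonneg _)
      exact hlogW)
    have h2 := hn₀ n hnn₀ ⟨m, hm⟩ h1
    have hHL0 : 0 ≤ HL n := by
      unfold HL
      have := one_le_SS n
      have h3 : sing n = SS n := rfl
      rw [h3]
      positivity
    exact h2.trans (mul_le_mul_of_nonneg_right heε hHL0)
  · intro U V hUV hVn hw
    have hU0 : (0 : ℝ) ≤ U := Nat.cast_nonneg U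
    have hnV : (n : ℝ) / Real.log n ^ W ≤ V := by linarith
    have hn0' : 0 < (n : ℝ) / Real.log n ^ W := by positivity
    have hV0 : (0 : ℝ) < V := lt_of_lt_of_le hn0' hnV
    have hVn' : (V : ℝ) ≤ n := by exact_mod_cast (by omega : V ≤ n)
    have h1 := (hform U V hUV (hqn2.trans hnV) hVn).2 (by exact_mod_cast hV0) (by
      refine le_trans ?_ hw
      gcongr)
    obtain ⟨l1, l2, l3⟩ := hn₁ n hnn₁ V hVn' hnV
    have h2 := one_le_SS n
    have hM0 : 0 ≤ SS n * ((V : ℝ) - U) := mul_nonneg (by linarith) (by linarith)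
    have h3 := change_log (wc n U V) (SS n * ((V : ℝ) - U)) (Real.log V) (Real.log n) e l1 (by linarith) hM0 he0 he1 l2 l3
      (by rw [mul_div_assoc]; exact h1)
    rw [mul_div_assoc] at h3
    refine h3.trans (mul_le_mul_of_nonneg_right heε ?_)
    have h4 : 0 ≤ (V : ℝ) - U := by linarith
    positivity

/-- the asymptotic formula in the classes of the regular moduli -/
theorem asy_class (F : ℕ → Prop) (A W : ℕ) {ρ ε : ℝ} (hρ : 0 < ρ) (hε : 0 < ε)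
    (hF : ∃ m₀ : ℕ, ∀ n : ℕ, m₀ ≤ n → 2 ∣ n → Asy ε W n → F n) : ClassFew F (2 / 3 - ρ) A := by
  by_cases hρ2 : ρ ≤ 2 / 3
  · exact transferD (fun _ n => F n) (θ := 2 / 3 - ρ / 2) (η := 2 / 3 - ρ) (by linarith) (by linarith) A
      (asyD F (A + 1) W hρ hρ2 hε hF)
  · push Not at hρ2
    refine ⟨0, fun A₀ => ⟨2, fun x hx => ⟨∅, by simp, by simp, fun q hq hqx _ a => ?_⟩⟩⟩
    exfalso
    have h1 : x ^ (2 / 3 - ρ) < 1 := Real.rpow_lt_one_of_one_lt_of_neg (by linarith) (by linarith)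
    have h2 : (1 : ℝ) ≤ q := by exact_mod_cast hq
    linarith

end Pool.Agent.H566
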