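import Mathlib

/-!
Elementary facts on the distance to the nearest integer, reduced fractions and residue classes.
-/

set_option autoImplicit false

namespace Pool.Agent.H566

open Finset

/-- the distance of `x` to the nearest integer -/
noncomputable def dist1 (x : ℝ) : ℝ := |x - round x|

lemma dist1_le (x : ℝ) (m : ℤ) : dist1 x ≤ |x - m| := round_le x m

lemma dist1_nonneg (x : ℝ) : 0 ≤ dist1 x := abs_nonneg _

lemma dist1_le_half (x : ℝ) : dist1 x ≤ 1 / 2 := abs_sub_round x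

/-- the distance to the nearest integer changes by at most the distance of the points -/
lemma dist1_le_add (x y : ℝ) : dist1 x ≤ dist1 y + |x - y| := by
  refine (dist1_le x (round y)).trans ?_
  have : x - (round y : ℤ) = (y - (round y : ℤ)) + (x - y) := by ring
  rw [this]
  exact abs_add_le _ _

lemma dist1_add_int (x : ℝ) (m : ℤ) : dist1 (x + m) = dist1 x := by
  unfold dist1
  rw [round_add_intCast]
  push_cast
  congr 1
  ring

/-- Dirichlet's theorem with a reduced fraction -/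
lemma dirichlet (α : ℝ) (Q : ℕ) (hQ : 1 ≤ Q) :
    ∃ (q : ℕ) (a : ℤ), 1 ≤ q ∧ q ≤ Q ∧ |α * q - a| ≤ 1 / ((Q : ℝ) + 1) ∧ IsCoprime a (q : ℤ) := by
  obtain ⟨r, hr, hd⟩ := Real.exists_rat_abs_sub_le_and_den_le α (n := Q) (by omega)
  refine ⟨r.den, r.num, r.den_pos, hd, ?_, ?_⟩
  · have hden : (0 : ℝ) < r.den := by exact_mod_cast r.den_pos
    have h1 : α * r.den - r.num = (α - (r : ℝ)) * r.den := by
      have : (r : ℝ) = r.num / r.den := by
        exact_mod_cast (Rat.num_div_den r).symm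
      rw [this]
      field_simp
    rw [h1, abs_mul, abs_of_pos hden]
    calc |α - (r : ℝ)| * r.den ≤ 1 / (((Q : ℝ) + 1) * r.den) * r.den :=
          mul_le_mul_of_nonneg_right hr hden.le
      _ = 1 / ((Q : ℝ) + 1) := by field_simp
  · exact Int.isCoprime_iff_gcd_eq_one.2 (by simpa [Int.gcd, Int.natAbs_natCast] using r.reduced)

/-- a companion fraction -/
lemma bezout (a : ℤ) (q : ℕ) (hq : 1 ≤ q) (h : IsCoprime a (q : ℤ)) :
    ∃ (b : ℤ) (r : ℕ), r < q ∧ a * r - b * q = 1 := by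
  obtain ⟨u, v, huv⟩ := h
  refine ⟨-(v + a * (u / q)), (u % q).toNat, ?_, ?_⟩
  · have h1 := Int.emod_lt_of_pos u (b := (q : ℤ)) (by omega)
    have h2 := Int.emod_nonneg u (b := (q : ℤ)) (by omega)
    omega
  · have h2 := Int.emod_nonneg u (b := (q : ℤ)) (by omega)
    have h3 : (((u % q).toNat : ℕ) : ℤ) = u % q := Int.toNat_of_nonneg h2
    have h4 := Int.emod_add_mul_ediv u q
    rw [h3]
    have h5 : u % q = u - q * (u / q) := by omega
    rw [h5]
    linear_combination huv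

/-- few members of a short progression are divisible by `d` -/
lemma card_dvd_prog (q r : ℕ) (hqr : Nat.Coprime q r) (U L d : ℕ) (hd : 1 ≤ d) :
    (((Ico U (U + L)).filter (fun u => d ∣ u * q + r)).card : ℝ) ≤ L / d + 1 := by
  have key : ∀ u ∈ (Ico U (U + L)).filter (fun u => d ∣ u * q + r),
      ∀ v ∈ (Ico U (U + L)).filter (fun u => d ∣ u * q + r), u ≤ v → d ∣ v - u := by
    intro u hu v hv huv
    rw [mem_filter] at hu hv
    have h1 : d ∣ (v * q + r) - (u * q + r) := Nat.dvd_sub hv.2 hu.2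
    have h2 : (v * q + r) - (u * q + r) = (v - u) * q := by
      rw [Nat.sub_mul]; omega
    rw [h2] at h1
    have h3 : Nat.Coprime d q := by
      have h4 : Nat.gcd d q ∣ 1 := by
        rw [← hqr]
        refine Nat.dvd_gcd (Nat.gcd_dvd_right _ _) ?_
        have h5 : Nat.gcd d q ∣ u * q + r := (Nat.gcd_dvd_left _ _).trans hu.2
        have h6 : Nat.gcd d q ∣ u * q := (Nat.gcd_dvd_right _ _).mul_left _
        exact (Nat.dvd_add_right h6).1 h5
      exact Nat.dvd_one.1 h4
    exact h3.dvd_of_dvd_mul_right h1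
  have hinj : Set.InjOn (fun u => (u - U) / d)
      ((Ico U (U + L)).filter (fun u => d ∣ u * q + r) : Finset ℕ) := by
    have main : ∀ u ∈ (Ico U (U + L)).filter (fun u => d ∣ u * q + r),
        ∀ v ∈ (Ico U (U + L)).filter (fun u => d ∣ u * q + r), u ≤ v →
        (u - U) / d = (v - U) / d → u = v := by
      intro u hu v hv huv h
      obtain ⟨k, hk⟩ := key u hu v hv huv
      rw [mem_filter, mem_Ico] at hu hv
      have h1 : v - U = (u - U) + d * k := by omega
      rw [h1, Nat.add_mul_div_left _ _ (by omega)] at h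
      have hk0 : k = 0 := by omega
      subst hk0
      simp at hk
      omega
    intro u hu v hv h
    rcases le_total u v with h1 | h1
    · exact main u hu v hv h1 h
    · exact (main v hv u hu h1 h.symm).symm
  have himg : ((Ico U (U + L)).filter (fun u => d ∣ u * q + r)).card ≤ (range (L / d + 1)).card := by
    refine card_le_card_of_injOn (fun u => (u - U) / d) ?_ hinj
    intro u hu
    have hu' := mem_coe.1 hu
    rw [mem_filter, mem_Ico] at hu'
    rw [mem_coe, mem_range]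
    have : (u - U) / d ≤ L / d := Nat.div_le_div_right (by omega)
    exact Nat.lt_succ_of_le this
  rw [card_range] at himg
  have h1 : (((Ico U (U + L)).filter (fun u => d ∣ u * q + r)).card : ℝ) ≤ ((L / d + 1 : ℕ) : ℝ) := by
    exact_mod_cast himg
  refine h1.trans ?_
  push_cast
  have := @Nat.cast_div_le ℝ _ _ _ L d
  linarith

/-- a member of a short progression without divisors in a given set of few large integers -/
lemma exists_avoid (q r : ℕ) (hqr : Nat.Coprime q r) (U L : ℕ) (D : Finset ℕ) (M : ℝ) (hM : 0 < M)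
    (hD : ∀ d ∈ D, M < (d : ℝ)) (h : (D.card : ℝ) * (L / M + 1) < L) :
    ∃ u, U ≤ u ∧ u < U + L ∧ ∀ d ∈ D, ¬ d ∣ u * q + r := by
  by_contra hcon
  push Not at hcon
  have h1 : (Ico U (U + L)) ⊆ D.biUnion (fun d => (Ico U (U + L)).filter (fun u => d ∣ u * q + r)) := by
    intro u hu
    rw [mem_Ico] at hu
    obtain ⟨d, hd, hdd⟩ := hcon u hu.1 hu.2
    rw [mem_biUnion]
    exact ⟨d, hd, mem_filter.2 ⟨mem_Ico.2 hu, hdd⟩⟩
  have h2 : ((Ico U (U + L)).card : ℝ) ≤ ∑ d ∈ D, (L / M + 1) := by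
    calc ((Ico U (U + L)).card : ℝ)
        ≤ ((D.biUnion (fun d => (Ico U (U + L)).filter (fun u => d ∣ u * q + r))).card : ℝ) := by
          exact_mod_cast card_le_card h1
      _ ≤ ((∑ d ∈ D, ((Ico U (U + L)).filter (fun u => d ∣ u * q + r)).card : ℕ) : ℝ) := by
          exact_mod_cast card_biUnion_le
      _ = ∑ d ∈ D, (((Ico U (U + L)).filter (fun u => d ∣ u * q + r)).card : ℝ) := by push_cast; rfl
      _ ≤ ∑ d ∈ D, (L / M + 1) := by
          refine sum_le_sum fun d hd => ?_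
          have hd1 : 1 ≤ d := by
            have := hD d hd
            have h0 : (0 : ℝ) < d := hM.trans this
            have : 0 < d := by exact_mod_cast h0
            omega
          refine (card_dvd_prog q r hqr U L d hd1).trans ?_
          have : (L : ℝ) / d ≤ L / M := div_le_div_of_nonneg_left (Nat.cast_nonneg _) hM (hD d hd).le
          linarith
  rw [sum_const, nsmul_eq_mul, Nat.card_Ico] at h2
  have h3 : ((U + L - U : ℕ) : ℝ) = L := by
    congr 1; omega
  rw [h3] at h2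
  linarith

/-- the number of integers in an interval -/
lemma card_int_interval (S : Finset ℤ) (u v : ℝ) (huv : u ≤ v) (hS : ∀ t ∈ S, u ≤ (t : ℝ) ∧ (t : ℝ) ≤ v) :
    (S.card : ℝ) ≤ v - u + 1 := by
  have h1 : S ⊆ Icc ⌈u⌉ ⌊v⌋ := by
    intro t ht
    rw [mem_Icc]
    exact ⟨Int.ceil_le.2 (hS t ht).1, Int.le_floor.2 (hS t ht).2⟩
  have h2 := card_le_card h1
  rw [Int.card_Icc] at h2
  have h3 : ((⌊v⌋ + 1 - ⌈u⌉).toNat : ℝ) ≤ v - u + 1 := by
    rcases le_total 0 (⌊v⌋ + 1 - ⌈u⌉) with h | h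
    · have e : (((⌊v⌋ + 1 - ⌈u⌉).toNat : ℤ) : ℝ) = ((⌊v⌋ + 1 - ⌈u⌉ : ℤ) : ℝ) := by
        rw [Int.toNat_of_nonneg h]
      have e' : ((⌊v⌋ + 1 - ⌈u⌉).toNat : ℝ) = ((⌊v⌋ + 1 - ⌈u⌉ : ℤ) : ℝ) := by
        rw [← e]; exact (Int.cast_natCast _).symm
      rw [e']
      push_cast
      have h4 := Int.floor_le v
      have h5 := Int.le_ceil u
      linarith
    · rw [Int.toNat_of_nonpos h]
      simp
      linarith
  have h4 : (S.card : ℝ) ≤ ((⌊v⌋ + 1 - ⌈u⌉).toNat : ℝ) := by exact_mod_cast h2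
  linarith

/-- the number of residue classes with `a r / q + β` near an integer -/
lemma card_residues (a : ℤ) (q : ℕ) (hq : 1 ≤ q) (hc : IsCoprime a (q : ℤ)) (β δ : ℝ) (hδ : 0 ≤ δ) :
    (((range q).filter (fun r : ℕ => dist1 (a * r / q + β) ≤ δ)).card : ℝ) ≤ 2 * δ * q + 1 := by
  have hq0 : (0 : ℝ) < q := by exact_mod_cast hq
  have hinj : Set.InjOn (fun r : ℕ => a * r - q * round (a * r / q + β : ℝ))
      ((range q).filter (fun r : ℕ => dist1 (a * r / q + β) ≤ δ) : Finset ℕ) := by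
    intro r hr s hs h
    have hr' := mem_coe.1 hr
    have hs' := mem_coe.1 hs
    rw [mem_filter, mem_range] at hr' hs'
    simp only at h
    have h1 : (q : ℤ) ∣ a * ((r : ℤ) - s) := by
      refine ⟨round (a * r / q + β : ℝ) - round (a * s / q + β : ℝ), ?_⟩
      linear_combination h
    have h2 : (q : ℤ) ∣ (r : ℤ) - s := (hc.symm).dvd_of_dvd_mul_left h1
    obtain ⟨k, hk⟩ := h2
    have h3 : |(r : ℤ) - s| < q := by
      rw [abs_lt]; constructor <;> omega
    rw [hk, abs_mul] at h3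
    have h4 : |(q : ℤ)| = q := abs_of_nonneg (by omega)
    rw [h4] at h3
    have h5 : |k| < 1 := by
      by_contra hcon
      push Not at hcon
      nlinarith
    have h6 : k = 0 := by
      rw [abs_lt] at h5; omega
    subst h6
    simp at hk
    omega
  have hcard : ((range q).filter (fun r : ℕ => dist1 (a * r / q + β) ≤ δ)).card =
      (((range q).filter (fun r : ℕ => dist1 (a * r / q + β) ≤ δ)).image
        (fun r : ℕ => a * r - q * round (a * r / q + β : ℝ))).card := (card_image_of_injOn hinj).symm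
  rw [hcard]
  have h := card_int_interval (((range q).filter (fun r : ℕ => dist1 (a * r / q + β) ≤ δ)).image
    (fun r : ℕ => a * r - q * round (a * r / q + β : ℝ))) (q * (-β - δ)) (q * (-β + δ)) (by nlinarith) ?_
  · linarith
  · intro t ht
    rw [mem_image] at ht
    obtain ⟨r, hr, rfl⟩ := ht
    rw [mem_filter] at hr
    have h1 := hr.2
    unfold dist1 at h1
    rw [abs_le] at h1
    push_cast
    have e : (a * r : ℝ) = q * (a * r / q) := by field_simp
    constructor
    · have := mul_le_mul_of_nonneg_left h1.1 hq0.le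
      nlinarith
    · have := mul_le_mul_of_nonneg_left h1.2 hq0.le
      nlinarith

/-- the number of residue classes with `a r / q + β` near an integer, lower bound -/
lemma card_residues_ge (a : ℤ) (q : ℕ) (hq : 1 ≤ q) (hc : IsCoprime a (q : ℤ)) (β δ : ℝ) (hδ : 0 ≤ δ)
    (hδ1 : 2 * δ ≤ 1) :
    2 * δ * q - 1 ≤ (((range q).filter (fun r : ℕ => dist1 (a * r / q + β) ≤ δ)).card : ℝ) := by
  have hq0 : (0 : ℝ) < q := by exact_mod_cast hq
  obtain ⟨b, c, hbc⟩ := hc
  obtain ⟨u, hu⟩ : ∃ u : ℝ, u = q * (-β - δ) := ⟨_, rfl⟩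
  obtain ⟨K, hK⟩ : ∃ K : ℕ, K = ⌊2 * δ * q⌋₊ := ⟨_, rfl⟩
  have hK1 : (K : ℝ) ≤ 2 * δ * q := by rw [hK]; exact Nat.floor_le (by positivity)
  have hK2 : 2 * δ * q < K + 1 := by rw [hK]; exact Nat.lt_floor_add_one _
  have hKq : K ≤ q := by
    have : (K : ℝ) ≤ q := by nlinarith
    exact_mod_cast this
  have hcard : (Ico ⌈u⌉ (⌈u⌉ + K)).card ≤ ((range q).filter (fun r : ℕ => dist1 (a * r / q + β) ≤ δ)).card := by
    refine card_le_card_of_injOn (fun t : ℤ => ((b * t) % q).toNat) ?_ ?_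
    · intro t ht
      have ht' := mem_coe.1 ht
      rw [mem_Ico] at ht'
      rw [mem_coe, mem_filter, mem_range]
      have h1 := Int.emod_nonneg (b * t) (b := (q : ℤ)) (by omega)
      have h2 := Int.emod_lt_of_pos (b * t) (b := (q : ℤ)) (by omega)
      refine ⟨by simp only; omega, ?_⟩
      have h3 : ((((b * t) % q).toNat : ℕ) : ℤ) = (b * t) % q := Int.toNat_of_nonneg h1
      have h4 : (a * ((b * t) % q) : ℤ) = t - q * (c * t + a * ((b * t) / q)) := by
        have h5 := Int.emod_add_mul_ediv (b * t) q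
        have h6 : (b * t) % q = b * t - q * ((b * t) / q) := by omega
        rw [h6]
        linear_combination t * hbc
      have h7 : (a : ℝ) * ((((b * t) % q).toNat : ℕ) : ℝ) / q + β =
          (t / q + β) + ((-(c * t + a * ((b * t) / q)) : ℤ) : ℝ) := by
        have h8 : (a : ℝ) * ((((b * t) % q).toNat : ℕ) : ℝ) = t - q * ((c * t + a * ((b * t) / q) : ℤ) : ℝ) := by
          have h9' : (((((b * t) % q).toNat : ℕ) : ℤ) : ℝ) = (((b * t) % q : ℤ) : ℝ) := by rw [h3]
          have h9 : ((((b * t) % q).toNat : ℕ) : ℝ) = (((b * t) % q : ℤ) : ℝ) :=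
            (Int.cast_natCast _).symm.trans h9'
          rw [h9]
          exact_mod_cast h4
        rw [h8]
        generalize (c * t + a * ((b * t) / q) : ℤ) = w
        push_cast
        field_simp
        ring
      simp only
      rw [h7, dist1_add_int]
      refine (dist1_le _ 0).trans ?_
      have h10 : u ≤ t := (Int.le_ceil u).trans (by exact_mod_cast ht'.1)
      have h11 : (t : ℝ) ≤ u + 2 * δ * q := by
        have h12 : t + 1 ≤ ⌈u⌉ + K := by omega
        have h13 : (t : ℝ) + 1 ≤ ⌈u⌉ + K := by exact_mod_cast h12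
        have h14 := Int.ceil_lt_add_one u
        linarith
      rw [Int.cast_zero, sub_zero, abs_le]
      have h15 : (t : ℝ) / q + β = (t + q * β) / q := by field_simp
      rw [h15]
      constructor
      · rw [le_div_iff₀ hq0]; rw [hu] at h10; linarith
      · rw [div_le_iff₀ hq0]; rw [hu] at h11; linarith
    · intro t ht s hs h
      have ht' := mem_coe.1 ht
      have hs' := mem_coe.1 hs
      rw [mem_Ico] at ht' hs'
      simp only at h
      have h1 := Int.emod_nonneg (b * t) (b := (q : ℤ)) (by omega)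
      have h2 := Int.emod_nonneg (b * s) (b := (q : ℤ)) (by omega)
      have h3 : (b * t) % q = (b * s) % q := by omega
      have h4 : (q : ℤ) ∣ b * t - b * s := Int.ModEq.dvd h3.symm
      have h5 : (q : ℤ) ∣ b * (t - s) := by rw [mul_sub]; exact h4
      have h6 : (q : ℤ) ∣ t - s := by
        refine (IsCoprime.dvd_of_dvd_mul_left ?_ h5)
        exact ⟨c, a, by linear_combination hbc⟩
      obtain ⟨k, hk⟩ := h6
      have h7 : |t - s| < q := by rw [abs_lt]; constructor <;> omega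
      rw [hk, abs_mul, abs_of_nonneg (show (0 : ℤ) ≤ q by omega)] at h7
      have h8 : |k| < 1 := by
        by_contra hcon
        push Not at hcon
        nlinarith
      have h9 : k = 0 := by rw [abs_lt] at h8; omega
      subst h9
      simp at hk
      omega
  rw [Int.card_Ico] at hcard
  have h1 : (⌈u⌉ + K - ⌈u⌉ : ℤ).toNat = K := by
    have : (⌈u⌉ + K - ⌈u⌉ : ℤ) = K := by ring
    rw [this]; simp
  rw [h1] at hcard
  have h2 : (K : ℝ) ≤ (((range q).filter (fun r : ℕ => dist1 (a * r / q + β) ≤ δ)).card : ℝ) := by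
    exact_mod_cast hcard
  linarith

/-- the lower bound for the number of the even members of a Bohr set -/
lemma even_bohr_ge (x α β δ : ℝ) (hx : 0 ≤ x) (hδ : 0 ≤ δ) (hδ1 : δ ≤ 1) (q : ℕ) (hq : 1 ≤ q) (a : ℤ)
    (hc : IsCoprime a (q : ℤ)) (happ : x * |2 * α - a / q| ≤ δ) (h2 : 1 ≤ δ * q) :
    (δ * q - 1) * (x / (2 * q) - 2) ≤
      (({n : ℕ | 0 < n ∧ (n : ℝ) ≤ x ∧ 2 ∣ n ∧ dist1 (α * n + β) ≤ δ}.ncard : ℕ) : ℝ) := by
  classical
  have hq0 : (0 : ℝ) < q := by exact_mod_cast hq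
  obtain ⟨R, hR⟩ : ∃ R : Finset ℕ, R = (range q).filter (fun r : ℕ => dist1 (a * r / q + β) ≤ δ / 2) := ⟨_, rfl⟩
  have hRc : δ * q - 1 ≤ (R.card : ℝ) := by
    rw [hR]
    have := card_residues_ge a q hq hc β (δ / 2) (by linarith) (by linarith)
    linarith
  obtain ⟨K, hK⟩ : ∃ K : ℕ, K = ⌊x / (2 * q)⌋₊ := ⟨_, rfl⟩
  have hK1 : (K : ℝ) ≤ x / (2 * q) := by rw [hK]; exact Nat.floor_le (by positivity)
  have hK2 : x / (2 * q) < K + 1 := by rw [hK]; exact Nat.lt_floor_add_one _
  have hfin : {n : ℕ | 0 < n ∧ (n : ℝ) ≤ x ∧ 2 ∣ n ∧ dist1 (α * n + β) ≤ δ}.Finite := by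
    refine (Set.finite_Iic ⌊x⌋₊).subset ?_
    intro n hn
    exact Nat.le_floor hn.2.1
  have himg : (((R ×ˢ Ico 1 K).image (fun z : ℕ × ℕ => 2 * (z.1 + q * z.2)) : Finset ℕ) : Set ℕ) ⊆
      {n : ℕ | 0 < n ∧ (n : ℝ) ≤ x ∧ 2 ∣ n ∧ dist1 (α * n + β) ≤ δ} := by
    intro n hn
    rw [mem_coe, mem_image] at hn
    obtain ⟨⟨r, j⟩, hz, rfl⟩ := hn
    rw [mem_product, mem_Ico, hR, mem_filter, mem_range] at hz
    obtain ⟨⟨hr1, hr2⟩, hj1, hj2⟩ := hz
    simp only at hr1 hr2 hj1 hj2 ⊢
    have hpos : 0 < q * j := Nat.mul_pos (by omega) (by omega)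
    have hle : (((2 * (r + q * j) : ℕ) : ℝ)) ≤ x := by
      have h1 : r + q * j ≤ q * K := by
        have : q * j + q ≤ q * K := by
          have : q * (j + 1) ≤ q * K := Nat.mul_le_mul_left _ (by omega)
          linarith
        omega
      have h2 : ((r + q * j : ℕ) : ℝ) ≤ ((q * K : ℕ) : ℝ) := by exact_mod_cast h1
      rw [le_div_iff₀ (by positivity)] at hK1
      push_cast at h2 ⊢
      linarith
    refine ⟨by omega, hle, dvd_mul_right _ _, ?_⟩
    have e2 : α * ((2 * (r + q * j) : ℕ) : ℝ) + β =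
        ((a * r / q + β) + ((a * j : ℤ) : ℝ)) + (2 * α - a / q) * ((r + q * j : ℕ) : ℝ) := by
      push_cast
      field_simp
      ring
    refine (dist1_le_add _ ((a * r / q + β) + ((a * j : ℤ) : ℝ))).trans ?_
    rw [dist1_add_int]
    have e3 : α * ((2 * (r + q * j) : ℕ) : ℝ) + β - ((a * r / q + β) + ((a * j : ℤ) : ℝ)) =
        (2 * α - a / q) * ((r + q * j : ℕ) : ℝ) := by
      rw [e2]; ring
    rw [e3, abs_mul, Nat.abs_cast]
    have h3 : |2 * α - a / q| * ((r + q * j : ℕ) : ℝ) ≤ |2 * α - a / q| * (x / 2) := by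
      refine mul_le_mul_of_nonneg_left ?_ (abs_nonneg _)
      push_cast at hle ⊢
      linarith
    linarith
  have hinj : Set.InjOn (fun z : ℕ × ℕ => 2 * (z.1 + q * z.2)) ((R ×ˢ Ico 1 K : Finset (ℕ × ℕ)) : Set (ℕ × ℕ)) := by
    rintro ⟨r, j⟩ hz ⟨s, i⟩ hw h
    rw [mem_coe, mem_product, hR, mem_filter, mem_range] at hz hw
    simp only at h hz hw
    have h1 : r + q * j = s + q * i := by omega
    have h2 : r = s := by
      have := congrArg (fun n => n % q) h1
      simpa [Nat.add_mul_mod_self_left, Nat.mod_eq_of_lt hz.1.1, Nat.mod_eq_of_lt hw.1.1] using this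
    subst h2
    have h3 : q * j = q * i := by omega
    have h4 : j = i := Nat.eq_of_mul_eq_mul_left (by omega) h3
    rw [h4]
  have hcard := Set.ncard_le_ncard himg hfin
  rw [Set.ncard_coe_finset, card_image_of_injOn hinj, card_product, Nat.card_Ico] at hcard
  have hcard' : (R.card : ℝ) * ((K - 1 : ℕ) : ℝ) ≤
      (({n : ℕ | 0 < n ∧ (n : ℝ) ≤ x ∧ 2 ∣ n ∧ dist1 (α * n + β) ≤ δ}.ncard : ℕ) : ℝ) := by
    exact_mod_cast hcard
  refine le_trans ?_ hcard'
  have hKm : x / (2 * q) - 2 ≤ ((K - 1 : ℕ) : ℝ) := by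
    have h1 : (K : ℝ) ≤ ((K - 1 : ℕ) : ℝ) + 1 := by
      have : K ≤ (K - 1) + 1 := by omega
      exact_mod_cast this
    linarith
  have hR0 : (0 : ℝ) ≤ R.card := Nat.cast_nonneg _
  have hK0 : (0 : ℝ) ≤ ((K - 1 : ℕ) : ℝ) := Nat.cast_nonneg _
  rcases le_total 0 (x / (2 * q) - 2) with h1 | h1
  · calc (δ * q - 1) * (x / (2 * q) - 2) ≤ R.card * (x / (2 * q) - 2) := mul_le_mul_of_nonneg_right hRc h1
      _ ≤ R.card * ((K - 1 : ℕ) : ℝ) := mul_le_mul_of_nonneg_left hKm hR0
  · have h3 : (δ * q - 1) * (x / (2 * q) - 2) ≤ 0 := mul_nonpos_of_nonneg_of_nonpos (by linarith) h1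
    have h4 := mul_nonneg hR0 hK0
    linarith

end Pool.Agent.H566
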