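import Pool.Graph.R_pool_sql_team_seeded_47a924f7.T6.H3.FR.Conv
import Pool.Agent.H566.Circle

/-!
Goldbach representations of the even integers `n ≤ X` with `‖α n + β‖ ≤ δ`.
-/

set_option autoImplicit false

namespace Pool.Agent.H566

open Finset Real

/-- the exceptional members of a residue class -/
def badClass (G : ℕ → Prop) (x : ℝ) (q : ℕ) (a : ℤ) : Set ℕ :=
  {n : ℕ | 0 < n ∧ (n : ℝ) ≤ x ∧ 2 ∣ n ∧ (n : ℤ) ≡ a [ZMOD q] ∧ ¬ G n}

/-- the exceptional members of a Bohr set -/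
def badBohr (G : ℕ → Prop) (x α β δ : ℝ) : Set ℕ :=
  {n : ℕ | 0 < n ∧ (n : ℝ) ≤ x ∧ 2 ∣ n ∧ dist1 (α * n + β) ≤ δ ∧ ¬ G n}

lemma badBohr_finite (G : ℕ → Prop) (x α β δ : ℝ) : (badBohr G x α β δ).Finite := by
  refine (Set.finite_Iic ⌊x⌋₊).subset ?_
  intro n hn
  exact Nat.le_floor hn.2.1

/-- a Bohr set is covered by few residue classes -/
lemma bohr_of_classes (G : ℕ → Prop) (x α β δ δ' E : ℝ) (q : ℕ) (hq : 1 ≤ q) (a : ℤ)
    (hc : IsCoprime a (q : ℤ)) (hδ : 0 ≤ δ) (happ : x * |α - a / q| ≤ δ') (hδ' : 0 ≤ δ') (hE : 0 ≤ E)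
    (h : ∀ r : ℤ, (badClass G x q r).Finite ∧ ((badClass G x q r).ncard : ℝ) ≤ E) :
    ((badBohr G x α β δ).ncard : ℝ) ≤ (2 * (δ + δ') * q + 1) * E := by
  classical
  obtain ⟨R, hR⟩ : ∃ R : Finset ℕ, R = (range q).filter (fun r : ℕ => dist1 (a * r / q + β) ≤ δ + δ') :=
    ⟨_, rfl⟩
  have hsub : badBohr G x α β δ ⊆ ⋃ r ∈ R, badClass G x q (r : ℤ) := by
    intro n hn
    obtain ⟨h0, h1, h2, h3, h4⟩ := hn
    rw [Set.mem_iUnion₂]
    refine ⟨n % q, ?_, ⟨h0, h1, h2, ?_, h4⟩⟩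
    · rw [hR, mem_filter, mem_range]
      refine ⟨Nat.mod_lt _ (by omega), ?_⟩
      have hq0 : (0 : ℝ) < q := by exact_mod_cast hq
      have e1 : (n : ℝ) = (n % q : ℕ) + q * (n / q : ℕ) := by
        exact_mod_cast (Nat.mod_add_div n q).symm
      have e2 : (a : ℝ) * n / q + β = (a * ((n % q : ℕ) : ℝ) / q + β) + ((a * ((n / q : ℕ) : ℤ) : ℤ) : ℝ) := by
        rw [e1, Int.cast_mul, Int.cast_natCast]
        generalize ((n / q : ℕ) : ℝ) = k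
        generalize ((n % q : ℕ) : ℝ) = m
        field_simp
        ring
      have e3 : dist1 (a * ((n % q : ℕ) : ℝ) / q + β) = dist1 (a * n / q + β) := by
        rw [e2, dist1_add_int]
      rw [e3]
      refine (dist1_le_add _ (α * n + β)).trans ?_
      have e4 : (a : ℝ) * n / q + β - (α * n + β) = -(n * (α - a / q)) := by field_simp; ring
      rw [e4, abs_neg, abs_mul, Nat.abs_cast]
      have h5 : (n : ℝ) * |α - a / q| ≤ x * |α - a / q| := mul_le_mul_of_nonneg_right h1 (abs_nonneg _)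
      linarith
    · push_cast
      exact (Int.mod_modEq _ _).symm
  have hfin : (⋃ r ∈ R, badClass G x q (r : ℤ)).Finite :=
    Set.Finite.biUnion R.finite_toSet (fun r _ => (h r).1)
  have h1 : (badBohr G x α β δ).ncard ≤ (⋃ r ∈ R, badClass G x q (r : ℤ)).ncard :=
    Set.ncard_le_ncard hsub hfin
  have h2 : (⋃ r ∈ R, badClass G x q (r : ℤ)).ncard ≤ ∑ r ∈ R, (badClass G x q (r : ℤ)).ncard :=
    Finset.set_ncard_biUnion_le R _
  have h3 : ((badBohr G x α β δ).ncard : ℝ) ≤ ∑ r ∈ R, E := by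
    calc ((badBohr G x α β δ).ncard : ℝ) ≤ ((∑ r ∈ R, (badClass G x q (r : ℤ)).ncard : ℕ) : ℝ) := by
          exact_mod_cast h1.trans h2
      _ = ∑ r ∈ R, ((badClass G x q (r : ℤ)).ncard : ℝ) := by push_cast; rfl
      _ ≤ _ := sum_le_sum fun r _ => (h r).2
  rw [sum_const, nsmul_eq_mul] at h3
  refine h3.trans (mul_le_mul_of_nonneg_right ?_ hE)
  rw [hR]
  exact card_residues a q hq hc β (δ + δ') (by linarith)

/-- the choice of the modulus -/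
lemma choose_modulus (α : ℝ) (Q L : ℕ) (hQ : 1 ≤ Q) (D : Finset ℕ) (M : ℝ) (hM : 0 < M)
    (hD : ∀ d ∈ D, M < (d : ℝ)) (h : (D.card : ℝ) * (L / M + 1) < L) :
    ∃ (q : ℕ) (q₀ : ℕ) (a₀ : ℤ), 1 ≤ q ∧ q ≤ Q ∧ dist1 (α * q) ≤ 1 / ((Q : ℝ) + 1) ∧
      (Q : ℝ) / 2 ≤ q₀ ∧ 1 ≤ q₀ ∧ (q₀ : ℝ) ≤ (L + 1) * Q ∧ IsCoprime a₀ (q₀ : ℤ) ∧
      |α - a₀ / q₀| ≤ 3 / (q * Q) ∧ ∀ d ∈ D, ¬ d ∣ q₀ := by
  obtain ⟨q, a, hq1, hqQ, hqa, hc⟩ := dirichlet α Q hQ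
  obtain ⟨b, r, hr, hab⟩ := bezout a q hq1 hc
  have hqr : Nat.Coprime q r := by
    rw [← Nat.isCoprime_iff_coprime]
    exact ⟨-b, a, by linear_combination hab⟩
  obtain ⟨u, hu1, hu2, hu3⟩ := exists_avoid q r hqr (Q / q) L D M hM hD h
  have hU1 : 1 ≤ Q / q := (Nat.one_le_div_iff (by omega)).2 hqQ
  have hq0 : (0 : ℝ) < q := by exact_mod_cast hq1
  have hQ0 : (0 : ℝ) < Q := by exact_mod_cast hQ
  have hUq : (Q : ℝ) / 2 ≤ (Q / q : ℕ) * q := by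
    have h1 := Nat.div_add_mod Q q
    have h2 := Nat.mod_lt Q (show 0 < q by omega)
    have h3 : Q ≤ 2 * ((Q / q) * q) := by nlinarith
    have h4 : (Q : ℝ) ≤ 2 * ((Q / q : ℕ) * q) := by exact_mod_cast h3
    linarith
  have hlow : (Q : ℝ) / 2 ≤ ((u * q + r : ℕ) : ℝ) := by
    refine hUq.trans ?_
    have : (Q / q) * q ≤ u * q + r := by nlinarith
    exact_mod_cast this
  have hpos : 1 ≤ u * q + r := by nlinarith
  have hpos' : (0 : ℝ) < ((u * q + r : ℕ) : ℝ) := by exact_mod_cast hpos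
  refine ⟨q, u * q + r, u * a + b, hq1, hqQ, ?_, hlow, hpos, ?_, ?_, ?_, hu3⟩
  · exact (dist1_le _ a).trans hqa
  · have h1 : u * q + r ≤ (L + 1) * Q := by
      have h2 : u * q + r ≤ (u + 1) * q := by nlinarith
      have h3 : (u + 1) * q ≤ (Q / q + L) * q := Nat.mul_le_mul_right _ (by omega)
      have h4 : (Q / q) * q ≤ Q := Nat.div_mul_le_self _ _
      have h5 : L * q ≤ L * Q := Nat.mul_le_mul_left _ hqQ
      nlinarith
    exact_mod_cast h1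
  · refine ⟨-(q : ℤ), a, ?_⟩
    push_cast
    linear_combination hab
  · have e1 : α - ((u * a + b : ℤ) : ℝ) / ((u * q + r : ℕ) : ℝ) =
        (α * q - a) / q + 1 / (q * ((u * q + r : ℕ) : ℝ)) := by
      have hab' : (a : ℝ) * r - b * q = 1 := by exact_mod_cast hab
      have hne : ((u * q + r : ℕ) : ℝ) ≠ 0 := hpos'.ne'
      push_cast at hne ⊢
      field_simp
      linear_combination hab'
    rw [e1]
    refine (abs_add_le _ _).trans ?_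
    rw [abs_div, abs_of_pos hq0, abs_of_pos (by positivity : (0 : ℝ) < 1 / (q * ((u * q + r : ℕ) : ℝ)))]
    have h1 : |α * q - a| / q ≤ 1 / (q * Q) := by
      rw [div_le_div_iff₀ hq0 (by positivity)]
      have h2 : |α * q - a| * Q ≤ 1 := by
        calc |α * q - a| * Q ≤ 1 / ((Q : ℝ) + 1) * Q := mul_le_mul_of_nonneg_right hqa hQ0.le
          _ ≤ 1 := by rw [div_mul_eq_mul_div, one_mul, div_le_one (by linarith)]; linarith
      nlinarith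
    have h2 : 1 / (q * ((u * q + r : ℕ) : ℝ)) ≤ 2 / (q * Q) := by
      rw [div_le_div_iff₀ (by positivity) (by positivity)]
      nlinarith
    have h3 : (3 : ℝ) / (q * Q) = 1 / (q * Q) + 2 / (q * Q) := by ring
    rw [h3]
    exact add_le_add h1 h2


lemma log_pow_le (K : ℕ) (s : ℝ) (hs : 0 < s) (C : ℝ) :
    ∃ x₀ : ℝ, 1 ≤ x₀ ∧ ∀ x : ℝ, x₀ ≤ x → C * Real.log x ^ K ≤ x ^ s := by
  have h := (isLittleO_log_rpow_rpow_atTop (K : ℝ) hs).def (c := 1 / (|C| + 1)) (by positivity)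
  obtain ⟨x₀, hx₀⟩ := Filter.eventually_atTop.1 h
  refine ⟨max x₀ 1, le_max_right _ _, fun x hx => ?_⟩
  have h1 := hx₀ x ((le_max_left _ _).trans hx)
  have hx1 : 1 ≤ x := (le_max_right _ _).trans hx
  have hl : 0 ≤ Real.log x := Real.log_nonneg hx1
  rw [Real.norm_of_nonneg (by positivity), Real.norm_of_nonneg (by positivity), Real.rpow_natCast] at h1
  have hC : 0 < |C| + 1 := by positivity
  have h2 : (|C| + 1) * Real.log x ^ K ≤ x ^ s := by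
    have := mul_le_mul_of_nonneg_left h1 hC.le
    calc (|C| + 1) * Real.log x ^ K ≤ (|C| + 1) * (1 / (|C| + 1) * x ^ s) := this
      _ = x ^ s := by field_simp
  have h3 : 0 ≤ Real.log x ^ K := by positivity
  have h4 : C ≤ |C| + 1 := by have := le_abs_self C; linarith
  nlinarith

open Pool.Agent.T6.H3.FF (WinM) in
/-- the main theorem on Bohr sets: few exceptions for all real `α` which are not too close to fractions with
small denominators -/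
theorem bohr_main (G : ℕ → Prop) (W : ℕ) (hG : ∃ n₀ : ℕ, ∀ n : ℕ, n₀ ≤ n → 2 ∣ n → WinM W n → G n)
    (ρ : ℝ) (hρ : 0 < ρ) (A : ℕ) :
    ∃ X₀ : ℝ, ∀ X : ℝ, X₀ ≤ X → ∀ α β δ : ℝ, 0 < δ → δ ≤ 1 →
      (∀ q : ℕ, 1 ≤ q → (q : ℝ) ≤ X ^ (1 / 5 + ρ) / δ → X ^ (ρ - 4 / 5) < dist1 (α * q)) →
      ((badBohr G X α β δ).ncard : ℝ) ≤ δ * X / Real.log X ^ A := by
  obtain ⟨c, hc⟩ := Pool.Agent.T6.H3.FR.class_few_reg4 G W hG (ρ / 2) (by linarith) (A + 1)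
  obtain ⟨x₀, hx₀⟩ := hc (c + 1)
  obtain ⟨x₁, -, hx₁⟩ := log_pow_le (c + 1) (ρ / 2) (by linarith) 24
  obtain ⟨x₂, -, hx₂⟩ := log_pow_le (c + 1) (1 / 5) (by norm_num) 24
  refine ⟨max (max x₀ x₁) (max x₂ (Real.exp 5)), fun X hX α β δ hδ hδ1 hα => ?_⟩
  have hX0 : x₀ ≤ X := (le_max_left _ _).trans ((le_max_left _ _).trans hX)
  have hX1 : x₁ ≤ X := (le_max_right _ _).trans ((le_max_left _ _).trans hX)
  have hX2 : x₂ ≤ X := (le_max_left _ _).trans ((le_max_right _ _).trans hX)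
  have hX3 : Real.exp 5 ≤ X := (le_max_right _ _).trans ((le_max_right _ _).trans hX)
  have hXpos : 0 < X := (Real.exp_pos 5).trans_le hX3
  have hl5 : 5 ≤ Real.log X := (Real.le_log_iff_exp_le hXpos).2 hX3
  have g1 := hx₁ X hX1
  have g2 := hx₂ X hX2
  obtain ⟨D, hDc, hD, hcl⟩ := hx₀ X hX0
  obtain ⟨l, hl⟩ : ∃ l, l = Real.log X := ⟨_, rfl⟩
  rw [← hl] at hl5 g1 g2 hDc hD hcl ⊢
  have hlc : 0 < l ^ (c + 1) := by positivity
  have hlc1 : 1 ≤ l ^ (c + 1) := one_le_pow₀ (by linarith)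
  obtain ⟨L, hL⟩ : ∃ L : ℕ, L = ⌈l ^ (c + 1)⌉₊ := ⟨_, rfl⟩
  have hL1 : l ^ (c + 1) ≤ L := by rw [hL]; exact Nat.le_ceil _
  have hL2 : (L : ℝ) < l ^ (c + 1) + 1 := by rw [hL]; exact Nat.ceil_lt_add_one hlc.le
  have hL0 : (0 : ℝ) < L := hlc.trans_le hL1
  have hL3 : (L : ℝ) + 1 ≤ 3 * l ^ (c + 1) := by linarith
  -- the number of the integers to avoid
  have hcond : (D.card : ℝ) * (L / l ^ (c + 1) + 1) < L := by
    have e1 : (L : ℝ) / l ^ (c + 1) + 1 ≤ 3 := by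
      have : (L : ℝ) / l ^ (c + 1) ≤ 2 := by
        rw [div_le_iff₀ hlc]; linarith
      linarith
    have e2 : (D.card : ℝ) * (L / l ^ (c + 1) + 1) ≤ l ^ c * 3 :=
      mul_le_mul hDc e1 (by positivity) (by positivity)
    have e3 : l ^ c * 3 < l ^ (c + 1) := by
      rw [pow_succ]
      have : 0 < l ^ c := by positivity
      nlinarith
    linarith
  -- the case of a large `ρ`
  rcases le_or_gt (4 / 5) ρ with hρ1 | hρ1
  · exfalso
    have hX1' : 1 ≤ X := by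
      have : (1 : ℝ) ≤ Real.exp 5 := Real.one_le_exp (by norm_num)
      linarith
    have h1 := hα 1 le_rfl (by
      rw [le_div_iff₀ hδ]
      have : 1 ≤ X ^ (1 / 5 + ρ) := Real.one_le_rpow hX1' (by linarith)
      push_cast
      linarith)
    have h2 : 1 ≤ X ^ (ρ - 4 / 5) := Real.one_le_rpow hX1' (by linarith)
    have h3 := dist1_le_half (α * (1 : ℕ))
    linarith
  -- the size of `Q`
  have hX1' : 1 ≤ X := by
    have : (1 : ℝ) ≤ Real.exp 5 := Real.one_le_exp (by norm_num)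
    linarith
  obtain ⟨Y, hY⟩ : ∃ Y : ℝ, Y = X ^ (4 / 5 - ρ / 2) := ⟨_, rfl⟩
  have hY0 : 0 < Y := by rw [hY]; exact Real.rpow_pos_of_pos hXpos _
  have hYX : X ^ (1 / 5 : ℝ) ≤ Y := by
    rw [hY]; exact Real.rpow_le_rpow_of_exponent_le hX1' (by linarith)
  obtain ⟨Q, hQ⟩ : ∃ Q : ℕ, Q = ⌊Y / (L + 1)⌋₊ := ⟨_, rfl⟩
  have hYL : 8 ≤ Y / (L + 1) := by
    rw [le_div_iff₀ (by linarith)]
    linarith
  have hQ1 : Y / (L + 1) < (Q : ℝ) + 1 := by rw [hQ]; exact Nat.lt_floor_add_one _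
  have hQ2 : (Q : ℝ) ≤ Y / (L + 1) := by rw [hQ]; exact Nat.floor_le (by positivity)
  have hQ3 : Y / (L + 1) ≤ 2 * Q := by linarith
  have hQ4 : 1 ≤ Q := by
    have : (1 : ℝ) ≤ Q := by linarith
    exact_mod_cast this
  have hQ0 : (0 : ℝ) < Q := by exact_mod_cast hQ4
  obtain ⟨q, q₀, a₀, hq1, hqQ, hqd, hq₀Q, hq₀1, hq₀L, hcop, happ, hav⟩ :=
    choose_modulus α Q L hQ4 D (l ^ (c + 1)) hlc hD hcond
  have hq0 : (0 : ℝ) < q := by exact_mod_cast hq1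
  have hq₀0 : (0 : ℝ) < q₀ := by exact_mod_cast hq₀1
  have hqQ' : (q : ℝ) ≤ Q := by exact_mod_cast hqQ
  -- the denominator is large
  have hqlarge : X ^ (1 / 5 + ρ) / δ < q := by
    by_contra hcon
    push Not at hcon
    have h1 := hα q hq1 hcon
    have h2 : 1 / ((Q : ℝ) + 1) ≤ X ^ (ρ - 4 / 5) := by
      have h3 : 1 / ((Q : ℝ) + 1) ≤ (L + 1) / Y := by
        rw [div_le_div_iff₀ (by linarith) hY0]
        rw [div_lt_iff₀ (by linarith)] at hQ1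
        nlinarith
      refine h3.trans ?_
      rw [div_le_iff₀ hY0, hY, ← Real.rpow_add hXpos]
      have : ρ - 4 / 5 + (4 / 5 - ρ / 2) = ρ / 2 := by ring
      rw [this]
      linarith
    linarith
  -- the modulus is admissible
  have hq₀Y : (q₀ : ℝ) ≤ X ^ (4 / 5 - ρ / 2) := by
    rw [← hY]
    refine hq₀L.trans ?_
    rw [le_div_iff₀ (by linarith)] at hQ2
    linarith
  have hcl' := hcl q₀ hq₀1 hq₀Y hav
  -- the approximation
  have happ' : X * |α - a₀ / q₀| ≤ δ := by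
    have hZ0 : 0 < X ^ (1 / 5 + ρ) := Real.rpow_pos_of_pos hXpos _
    have h1 : X ^ (1 / 5 + ρ) < q * δ := by rwa [div_lt_iff₀ hδ] at hqlarge
    have h2 : X * |α - a₀ / q₀| ≤ X * (3 / (q * Q)) := mul_le_mul_of_nonneg_left happ hXpos.le
    refine h2.trans ?_
    rw [mul_div_assoc', div_le_iff₀ (by positivity)]
    have h3 : X * 3 ≤ X ^ (1 / 5 + ρ) * Q := by
      have h4 : X = X ^ (1 / 5 + ρ) * X ^ (4 / 5 - ρ) := by
        rw [← Real.rpow_add hXpos]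
        have : 1 / 5 + ρ + (4 / 5 - ρ) = 1 := by ring
        rw [this, Real.rpow_one]
      have h5 : X ^ (4 / 5 - ρ) * 3 ≤ Q := by
        have h6 : X ^ (4 / 5 - ρ) * 3 * (2 * (L + 1)) ≤ Y := by
          have h7 : Y = X ^ (4 / 5 - ρ) * X ^ (ρ / 2) := by
            rw [hY, ← Real.rpow_add hXpos]
            congr 1; ring
          rw [h7, mul_assoc]
          refine mul_le_mul_of_nonneg_left ?_ (Real.rpow_pos_of_pos hXpos _).le
          linarith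
        rw [div_le_iff₀ (by linarith)] at hQ3
        nlinarith
      calc X * 3 = X ^ (1 / 5 + ρ) * (X ^ (4 / 5 - ρ) * 3) := by
            conv_lhs => rw [h4]
            ring
        _ ≤ X ^ (1 / 5 + ρ) * Q := mul_le_mul_of_nonneg_left h5 hZ0.le
    calc X * 3 ≤ X ^ (1 / 5 + ρ) * Q := h3
      _ ≤ q * δ * Q := mul_le_mul_of_nonneg_right h1.le hQ0.le
      _ = δ * (q * Q) := by ring
  -- the number of exceptions
  have hE : ∀ r : ℤ, (badClass G X q₀ r).Finite ∧ ((badClass G X q₀ r).ncard : ℝ) ≤ X / (q₀ * l ^ (A + 1)) :=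
    fun r => hcl' r
  have hfin := bohr_of_classes G X α β δ δ (X / (q₀ * l ^ (A + 1))) q₀ hq₀1 a₀ hcop hδ.le happ' hδ.le
    (by positivity) hE
  refine hfin.trans ?_
  have hone : 1 ≤ δ * q₀ := by
    have hZ : (2 : ℝ) ≤ X ^ (1 / 5 + ρ) := by
      have h1 : X ^ (1 / 5 : ℝ) ≤ X ^ (1 / 5 + ρ) := Real.rpow_le_rpow_of_exponent_le hX1' (by linarith)
      linarith
    have h1 : X ^ (1 / 5 + ρ) < q * δ := by rwa [div_lt_iff₀ hδ] at hqlarge
    have h2 : q * δ ≤ 2 * q₀ * δ := mul_le_mul_of_nonneg_right (by linarith) hδ.le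
    linarith
  rw [mul_div_assoc', div_le_div_iff₀ (by positivity) (by positivity), pow_succ]
  have hlA : 0 < l ^ A := by positivity
  have h1 : 2 * (δ + δ) * q₀ + 1 ≤ 5 * (δ * q₀) := by
    have e : 2 * (δ + δ) * q₀ = 4 * (δ * q₀) := by ring
    linarith
  have h2 : 5 * (δ * q₀) ≤ δ * q₀ * l := by
    have := mul_le_mul_of_nonneg_left hl5 (mul_pos hδ hq₀0).le
    linarith
  calc (2 * (δ + δ) * q₀ + 1) * X * l ^ A = (2 * (δ + δ) * q₀ + 1) * (X * l ^ A) := by ring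
    _ ≤ δ * q₀ * l * (X * l ^ A) := mul_le_mul_of_nonneg_right (h1.trans h2) (by positivity)
    _ = δ * X * (q₀ * (l ^ A * l)) := by ring

/-- the even members of a Bohr set -/
def evenBohr (x α β δ : ℝ) : Set ℕ :=
  {n : ℕ | 0 < n ∧ (n : ℝ) ≤ x ∧ 2 ∣ n ∧ dist1 (α * n + β) ≤ δ}

/-- the number of the even members of a Bohr set has at least the expected order -/
theorem bohr_lower (ρ : ℝ) (hρ : 0 < ρ) :
    ∃ X₀ : ℝ, ∀ X : ℝ, X₀ ≤ X → ∀ α β δ : ℝ, 0 < δ → δ ≤ 1 →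
      (∀ q : ℕ, 1 ≤ q → (q : ℝ) ≤ X ^ (1 / 5 + ρ) / δ → X ^ (ρ - 4 / 5) < dist1 (α * q)) →
      δ * X / 4 ≤ ((evenBohr X α β δ).ncard : ℝ) := by
  obtain ⟨x₁, -, hx₁⟩ := log_pow_le 0 (ρ / 2) (by linarith) 24
  obtain ⟨x₂, -, hx₂⟩ := log_pow_le 0 (1 / 5) (by norm_num) 24
  refine ⟨max 1 (max x₁ x₂), fun X hX α β δ hδ hδ1 hα => ?_⟩
  have hX1' : 1 ≤ X := (le_max_left _ _).trans hX
  have g1 := hx₁ X ((le_max_left _ _).trans ((le_max_right _ _).trans hX))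
  have g2 := hx₂ X ((le_max_right _ _).trans ((le_max_right _ _).trans hX))
  rw [pow_zero, mul_one] at g1 g2
  have hXpos : 0 < X := by linarith
  rcases le_or_gt (4 / 5) ρ with hρ1 | hρ1
  · exfalso
    have h1 := hα 1 le_rfl (by
      rw [le_div_iff₀ hδ]
      have : 1 ≤ X ^ (1 / 5 + ρ) := Real.one_le_rpow hX1' (by linarith)
      push_cast
      linarith)
    have h2 : 1 ≤ X ^ (ρ - 4 / 5) := Real.one_le_rpow hX1' (by linarith)
    have h3 := dist1_le_half (α * (1 : ℕ))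
    linarith
  obtain ⟨Y, hY⟩ : ∃ Y : ℝ, Y = X ^ (4 / 5 - ρ / 2) := ⟨_, rfl⟩
  have hY0 : 0 < Y := by rw [hY]; exact Real.rpow_pos_of_pos hXpos _
  have hYX : X ^ (1 / 5 : ℝ) ≤ Y := by
    rw [hY]; exact Real.rpow_le_rpow_of_exponent_le hX1' (by linarith)
  obtain ⟨Q, hQ⟩ : ∃ Q : ℕ, Q = ⌊Y⌋₊ := ⟨_, rfl⟩
  have hQ1 : Y < (Q : ℝ) + 1 := by rw [hQ]; exact Nat.lt_floor_add_one _
  have hQ2 : (Q : ℝ) ≤ Y := by rw [hQ]; exact Nat.floor_le (by positivity)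
  have hQ4 : 1 ≤ Q := by
    have : (1 : ℝ) ≤ Q := by linarith
    exact_mod_cast this
  have hQ0 : (0 : ℝ) < Q := by exact_mod_cast hQ4
  obtain ⟨q, a, hq1, hqQ, hqa, hcop⟩ := dirichlet (2 * α) Q hQ4
  have hq0 : (0 : ℝ) < q := by exact_mod_cast hq1
  have hqQ' : (q : ℝ) ≤ Q := by exact_mod_cast hqQ
  have hZ0 : 0 < X ^ (1 / 5 + ρ) := Real.rpow_pos_of_pos hXpos _
  have hqa' : |2 * α * q - a| ≤ 1 / Y := by
    refine hqa.trans ?_
    rw [div_le_div_iff₀ (by linarith) hY0]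
    linarith
  have hqlarge : X ^ (1 / 5 + ρ) / δ < 2 * q := by
    by_contra hcon
    push Not at hcon
    have h1 := hα (2 * q) (by omega) (by push_cast; linarith)
    have h2 : dist1 (α * (2 * q : ℕ)) ≤ 1 / Y := by
      refine (dist1_le _ a).trans ?_
      refine le_trans (le_of_eq ?_) hqa'
      push_cast
      congr 1; ring
    have h3 : 1 / Y ≤ X ^ (ρ - 4 / 5) := by
      rw [div_le_iff₀ hY0, hY, ← Real.rpow_add hXpos]
      have : ρ - 4 / 5 + (4 / 5 - ρ / 2) = ρ / 2 := by ring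
      rw [this]
      linarith
    linarith
  rw [div_lt_iff₀ hδ] at hqlarge
  have hδq : 4 ≤ δ * q := by
    have h1 : X ^ (1 / 5 : ℝ) ≤ X ^ (1 / 5 + ρ) := Real.rpow_le_rpow_of_exponent_le hX1' (by linarith)
    linarith
  have happ : X * |2 * α - a / q| ≤ δ := by
    have e1 : 2 * α - a / q = (2 * α * q - a) / q := by field_simp
    rw [e1, abs_div, abs_of_pos hq0, mul_div_assoc', div_le_iff₀ hq0]
    have h1 : X * |2 * α * q - a| ≤ X * (1 / Y) := mul_le_mul_of_nonneg_left hqa' hXpos.le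
    refine h1.trans ?_
    rw [mul_one_div, div_le_iff₀ hY0]
    have h2 : X * 2 ≤ X ^ (1 / 5 + ρ) * Y := by
      rw [hY, ← Real.rpow_add hXpos]
      have : 1 / 5 + ρ + (4 / 5 - ρ / 2) = 1 + ρ / 2 := by ring
      rw [this, Real.rpow_add hXpos, Real.rpow_one]
      exact mul_le_mul_of_nonneg_left (by linarith) hXpos.le
    have h3 : X ^ (1 / 5 + ρ) * Y ≤ 2 * q * δ * Y := mul_le_mul_of_nonneg_right hqlarge.le hY0.le
    linarith
  have hXq : 8 ≤ X / (2 * q) := by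
    rw [le_div_iff₀ (by positivity)]
    have h1 : Y * X ^ (1 / 5 + ρ / 2) = X := by
      rw [hY, ← Real.rpow_add hXpos]
      have : 4 / 5 - ρ / 2 + (1 / 5 + ρ / 2) = 1 := by ring
      rw [this, Real.rpow_one]
    have h2 : X ^ (1 / 5 : ℝ) ≤ X ^ (1 / 5 + ρ / 2) := Real.rpow_le_rpow_of_exponent_le hX1' (by linarith)
    have h3 : Y * 24 ≤ X := by
      calc Y * 24 ≤ Y * X ^ (1 / 5 + ρ / 2) := mul_le_mul_of_nonneg_left (by linarith) hY0.le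
        _ = X := h1
    linarith
  have h := even_bohr_ge X α β δ hXpos.le hδ.le hδ1 q hq1 a hcop happ (by linarith)
  refine le_trans ?_ h
  have e1 : X = X / (2 * q) * (2 * q) := by field_simp
  obtain ⟨z, hz⟩ : ∃ z, z = X / (2 * q) := ⟨_, rfl⟩
  rw [← hz] at e1 hXq ⊢
  have e2 : δ * X / 4 = δ * q * z / 2 := by rw [e1]; ring
  rw [e2]
  nlinarith

/-- numbers of finite type -/
lemma hyp_of_type (τ c α θ : ℝ) (hτ : 1 ≤ τ) (hc : 0 < c)
    (hα : ∀ q : ℕ, 1 ≤ q → c / (q : ℝ) ^ τ ≤ dist1 (α * q)) (hθ : θ < 4 / 5 * (1 + 1 / τ) - 1) :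
    ∃ ρ : ℝ, 0 < ρ ∧ ∃ X₀ : ℝ, ∀ X : ℝ, X₀ ≤ X →
      (∀ q : ℕ, 1 ≤ q → (q : ℝ) ≤ X ^ (1 / 5 + ρ) / X ^ (-θ) → X ^ (ρ - 4 / 5) < dist1 (α * q)) := by
  have hτ0 : 0 < τ := by linarith
  obtain ⟨ρ, hρ⟩ : ∃ ρ : ℝ, ρ = (4 / 5 * (1 + 1 / τ) - 1 - θ) * τ / (4 * (τ + 1)) := ⟨_, rfl⟩
  have hρ0 : 0 < ρ := by
    rw [hρ]
    have : 0 < 4 / 5 * (1 + 1 / τ) - 1 - θ := by linarith
    positivity
  have hkey : τ * (1 / 5 + ρ + θ) + 2 * ρ < 4 / 5 - ρ := by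
    have h1 : ρ * (4 * (τ + 1)) = (4 / 5 * (1 + 1 / τ) - 1 - θ) * τ := by
      rw [hρ]; field_simp
    have h2 : (4 / 5 * (1 + 1 / τ) - 1 - θ) * τ = 4 / 5 - τ / 5 - θ * τ := by field_simp; ring
    rw [h2] at h1
    nlinarith
  refine ⟨ρ, hρ0, ?_⟩
  obtain ⟨x₁, hx₁1, hx₁⟩ := log_pow_le 0 ρ hρ0 (2 / c)
  refine ⟨x₁, fun X hX q hq hqX => ?_⟩
  have hX1 : 1 ≤ X := hx₁1.trans hX
  have hXpos : 0 < X := by linarith
  have g1 := hx₁ X hX
  rw [pow_zero, mul_one] at g1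
  have hq0 : (0 : ℝ) < q := by exact_mod_cast hq
  refine lt_of_lt_of_le ?_ (hα q hq)
  rw [← Real.rpow_sub hXpos] at hqX
  have h1 : (q : ℝ) ^ τ ≤ X ^ ((1 / 5 + ρ - -θ) * τ) := by
    rw [Real.rpow_mul hXpos.le]
    exact Real.rpow_le_rpow hq0.le hqX hτ0.le
  rw [lt_div_iff₀ (Real.rpow_pos_of_pos hq0 _)]
  have h2 : X ^ (ρ - 4 / 5) * (q : ℝ) ^ τ ≤ X ^ (ρ - 4 / 5) * X ^ ((1 / 5 + ρ - -θ) * τ) :=
    mul_le_mul_of_nonneg_left h1 (Real.rpow_pos_of_pos hXpos _).le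
  rw [← Real.rpow_add hXpos] at h2
  have h3 : X ^ (ρ - 4 / 5 + (1 / 5 + ρ - -θ) * τ) ≤ X ^ (-ρ) :=
    Real.rpow_le_rpow_of_exponent_le hX1 (by nlinarith)
  have h4 : X ^ (-ρ) < c := by
    rw [Real.rpow_neg hXpos.le, inv_lt_comm₀ (Real.rpow_pos_of_pos hXpos _) hc]
    have : 2 / c = 2 * c⁻¹ := by ring
    rw [this] at g1
    have : 0 < c⁻¹ := by positivity
    linarith
  linarith

/-- good denominators of irrational numbers -/
lemma good_denominators (α : ℝ) (hα : Irrational α) (N : ℕ) :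
    ∃ Q : ℕ, N ≤ Q ∧ 1 ≤ Q ∧ ∀ q : ℕ, 1 ≤ q → q < Q → 1 / (2 * (Q : ℝ)) ≤ dist1 (α * q) := by
  classical
  -- the distances are positive
  have hpos : ∀ q : ℕ, 1 ≤ q → 0 < dist1 (α * q) := by
    intro q hq
    unfold dist1
    rw [abs_pos, sub_ne_zero]
    exact (hα.mul_natCast (by omega)).ne_int _
  -- the minimum up to `N + 1`
  obtain ⟨q₁, hq₁, hmin⟩ := Finset.exists_min_image (Icc 1 (N + 1)) (fun q : ℕ => dist1 (α * q))
    ⟨1, by rw [mem_Icc]; omega⟩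
  rw [mem_Icc] at hq₁
  obtain ⟨η, hη⟩ : ∃ η, η = dist1 (α * q₁) := ⟨_, rfl⟩
  have hη0 : 0 < η := by rw [hη]; exact hpos q₁ hq₁.1
  -- a smaller distance exists
  have hex : ∃ q : ℕ, 1 ≤ q ∧ dist1 (α * q) < η := by
    obtain ⟨Q, hQ⟩ := exists_nat_gt (1 / η)
    have hQ1 : 1 ≤ Q := by
      have : (0 : ℝ) < Q := lt_trans (by positivity) hQ
      exact_mod_cast this
    obtain ⟨q, a, h1, -, h2, -⟩ := dirichlet α Q hQ1
    refine ⟨q, h1, (dist1_le _ a).trans_lt (h2.trans_lt ?_)⟩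
    rw [div_lt_iff₀ (by positivity)]
    rw [div_lt_iff₀ hη0] at hQ
    nlinarith
  obtain ⟨Q, hQ⟩ : ∃ Q, Q = Nat.find hex := ⟨_, rfl⟩
  have hQ1 : 1 ≤ Q ∧ dist1 (α * Q) < η := by rw [hQ]; exact Nat.find_spec hex
  have hQmin : ∀ q : ℕ, 1 ≤ q → q < Q → η ≤ dist1 (α * q) := by
    intro q h1 h2
    rw [hQ] at h2
    have := Nat.find_min hex h2
    push Not at this
    exact this h1
  have hNQ : N + 1 < Q := by
    by_contra hcon
    push Not at hcon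
    have := hmin Q (by rw [mem_Icc]; omega)
    rw [← hη] at this
    linarith [hQ1.2]
  refine ⟨Q, by omega, hQ1.1, fun q h1 h2 => ?_⟩
  refine le_trans ?_ (hQmin q h1 h2)
  -- the determinant
  obtain ⟨p₁, hp₁⟩ : ∃ p₁, p₁ = round (α * q₁) := ⟨_, rfl⟩
  obtain ⟨p, hp⟩ : ∃ p, p = round (α * Q) := ⟨_, rfl⟩
  have a1 : |α * q₁ - p₁| = η := by rw [hη, hp₁]; rfl
  have a2 : |α * Q - p| < η := by rw [hp]; exact hQ1.2
  have hQ0 : (0 : ℝ) < Q := by exact_mod_cast hQ1.1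
  have hq₁0 : (0 : ℝ) < q₁ := by exact_mod_cast hq₁.1
  have hq₁Q : (q₁ : ℝ) ≤ Q := by
    have : q₁ ≤ Q := by omega
    exact_mod_cast this
  have hdet : p * q₁ - p₁ * Q ≠ 0 := by
    intro h0
    have h0' : (p : ℝ) * q₁ = p₁ * Q := by
      have : p * q₁ = p₁ * Q := by omega
      exact_mod_cast this
    have h3 : (α * q₁ - p₁) * Q = (α * Q - p) * q₁ := by linear_combination h0'
    have h4 : η * Q = |α * Q - p| * q₁ := by
      rw [← a1, ← abs_of_pos hQ0, ← abs_mul, abs_of_pos hQ0, h3, abs_mul, abs_of_pos hq₁0]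
    have h5 : |α * Q - p| * q₁ < η * q₁ := mul_lt_mul_of_pos_right a2 hq₁0
    have h6 : η * q₁ ≤ η * Q := mul_le_mul_of_nonneg_left hq₁Q hη0.le
    linarith
  have hone : (1 : ℝ) ≤ |(p : ℝ) * q₁ - p₁ * Q| := by
    have h3 : (1 : ℤ) ≤ |p * q₁ - p₁ * Q| := Int.one_le_abs hdet
    exact_mod_cast h3
  have h7 : (p : ℝ) * q₁ - p₁ * Q = (α * q₁ - p₁) * Q - (α * Q - p) * q₁ := by ring
  rw [h7] at hone
  have h8 : |(α * q₁ - p₁) * Q - (α * Q - p) * q₁| ≤ η * Q + η * Q := by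
    refine (abs_sub _ _).trans ?_
    rw [abs_mul, abs_mul, a1, abs_of_pos hQ0, abs_of_pos hq₁0]
    have h9 : |α * Q - p| * q₁ ≤ η * Q := mul_le_mul a2.le hq₁Q hq₁0.le hη0.le
    linarith
  rw [div_le_iff₀ (by positivity)]
  linarith

lemma hyp_of_irrational (α θ : ℝ) (hα : Irrational α) (hθ : θ < 3 / 5) :
    ∃ ρ : ℝ, 0 < ρ ∧ ∀ X₁ : ℝ, ∃ X : ℝ, X₁ ≤ X ∧ 1 ≤ X ∧
      (∀ q : ℕ, 1 ≤ q → (q : ℝ) ≤ X ^ (1 / 5 + ρ) / X ^ (-θ) → X ^ (ρ - 4 / 5) < dist1 (α * q)) := by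
  obtain ⟨ρ, hρ⟩ : ∃ ρ : ℝ, ρ = min ((3 / 5 - θ) / 4) (1 / 5) := ⟨_, rfl⟩
  have hρ0 : 0 < ρ := by rw [hρ]; exact lt_min (by linarith) (by norm_num)
  have hρ1 : ρ ≤ (3 / 5 - θ) / 4 := by rw [hρ]; exact min_le_left _ _
  have hρ2 : ρ ≤ 1 / 5 := by rw [hρ]; exact min_le_right _ _
  refine ⟨ρ, hρ0, fun X₁ => ?_⟩
  have he : 0 < 4 / 5 - 2 * ρ := by linarith
  obtain ⟨x₁, hx₁1, hx₁⟩ := log_pow_le 0 ρ hρ0 3
  obtain ⟨N, hN⟩ := exists_nat_gt ((max (max X₁ x₁) 1) ^ (4 / 5 - 2 * ρ))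
  obtain ⟨Q, hNQ, hQ1, hQ⟩ := good_denominators α hα N
  have hQ0 : (0 : ℝ) < Q := by exact_mod_cast hQ1
  obtain ⟨X, hX⟩ : ∃ X : ℝ, X = (Q : ℝ) ^ (1 / (4 / 5 - 2 * ρ)) := ⟨_, rfl⟩
  have hXpos : 0 < X := by rw [hX]; exact Real.rpow_pos_of_pos hQ0 _
  have hXQ : X ^ (4 / 5 - 2 * ρ) = Q := by
    rw [hX, ← Real.rpow_mul hQ0.le]
    have : 1 / (4 / 5 - 2 * ρ) * (4 / 5 - 2 * ρ) = 1 := by rw [one_div, inv_mul_cancel₀ he.ne']
    rw [this, Real.rpow_one]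
  have hbig : max (max X₁ x₁) 1 ≤ X := by
    have h1 : (max (max X₁ x₁) 1) ^ (4 / 5 - 2 * ρ) ≤ X ^ (4 / 5 - 2 * ρ) := by
      rw [hXQ]
      refine hN.le.trans ?_
      exact_mod_cast hNQ
    exact (Real.rpow_le_rpow_iff (by positivity) hXpos.le he).1 h1
  have hX1 : 1 ≤ X := (le_max_right _ _).trans hbig
  have g := hx₁ X ((le_max_right _ _).trans ((le_max_left _ _).trans hbig))
  rw [pow_zero, mul_one] at g
  refine ⟨X, (le_max_left _ _).trans ((le_max_left _ _).trans hbig), hX1, fun q hq hqX => ?_⟩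
  have h1 : q < Q := by
    rw [← Real.rpow_sub hXpos] at hqX
    have h2 : X ^ (1 / 5 + ρ - -θ) ≤ X ^ (4 / 5 - 2 * ρ - ρ) :=
      Real.rpow_le_rpow_of_exponent_le hX1 (by linarith)
    have h3 : X ^ (4 / 5 - 2 * ρ - ρ) < X ^ (4 / 5 - 2 * ρ) :=
      Real.rpow_lt_rpow_of_exponent_lt (by
        rcases hX1.lt_or_eq with h | h
        · exact h
        · rw [← h, Real.one_rpow] at g; norm_num at g) (by linarith)
    rw [hXQ] at h3
    have : (q : ℝ) < Q := by linarith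
    exact_mod_cast this
  refine lt_of_lt_of_le ?_ (hQ q hq h1)
  rw [← hXQ, lt_div_iff₀ (by positivity)]
  have h4 : X ^ (ρ - 4 / 5) * (2 * X ^ (4 / 5 - 2 * ρ)) = 2 * X ^ (-ρ) := by
    rw [mul_left_comm, ← Real.rpow_add hXpos]
    congr 2; ring
  rw [h4, Real.rpow_neg hXpos.le]
  have h5 : (X ^ ρ)⁻¹ ≤ 3⁻¹ := inv_anti₀ (by norm_num) g
  linarith

end Pool.Agent.H566
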