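import Pool.Agent.H566.BohrTwo

/-!
The choice of a regular modulus for a linear Bohr set, and the vectors of members of several linear Bohr sets.
-/

set_option autoImplicit false

namespace Pool.Agent.H566

open Finset Real

/-- the choice of the modulus -/
theorem choose_regular (ρ : ℝ) (hρ : 0 < ρ) (c : ℕ) :
    ∃ X₀ : ℝ, ∀ X : ℝ, X₀ ≤ X → ∀ D : Finset ℕ, (D.card : ℝ) ≤ Real.log X ^ c →
      (∀ d ∈ D, Real.log X ^ (c + 1) < (d : ℝ)) → ∀ α δ : ℝ, 0 < δ → δ ≤ 1 →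
      (∀ q : ℕ, 1 ≤ q → (q : ℝ) ≤ X ^ (1 / 3 + ρ) / δ → X ^ (ρ - 2 / 3) < dist1 (α * q)) →
      ∃ (q₀ : ℕ) (a₀ : ℤ), 1 ≤ q₀ ∧ (q₀ : ℝ) ≤ X ^ (2 / 3 - ρ / 2) ∧ (∀ d ∈ D, ¬ d ∣ q₀) ∧
        IsCoprime a₀ (q₀ : ℤ) ∧ X * |α - a₀ / q₀| ≤ δ ∧ 1 ≤ δ * q₀ := by
  obtain ⟨x₁, -, hx₁⟩ := log_pow_le (c + 1) (ρ / 2) (by linarith) 24
  obtain ⟨x₂, -, hx₂⟩ := log_pow_le (c + 1) (1 / 3) (by norm_num) 24
  refine ⟨max x₁ (max x₂ (Real.exp 5)), fun X hX D hDc hD α δ hδ hδ1 hα => ?_⟩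
  have hX1 : x₁ ≤ X := (le_max_left _ _).trans hX
  have hX2 : x₂ ≤ X := (le_max_left _ _).trans ((le_max_right _ _).trans hX)
  have hX3 : Real.exp 5 ≤ X := (le_max_right _ _).trans ((le_max_right _ _).trans hX)
  have hXpos : 0 < X := (Real.exp_pos 5).trans_le hX3
  have hl5 : 5 ≤ Real.log X := (Real.le_log_iff_exp_le hXpos).2 hX3
  have g1 := hx₁ X hX1
  have g2 := hx₂ X hX2
  obtain ⟨l, hl⟩ : ∃ l, l = Real.log X := ⟨_, rfl⟩
  rw [← hl] at hl5 g1 g2 hDc hD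
  have hlc : 0 < l ^ (c + 1) := by positivity
  have hlc1 : 1 ≤ l ^ (c + 1) := one_le_pow₀ (by linarith)
  obtain ⟨L, hL⟩ : ∃ L : ℕ, L = ⌈l ^ (c + 1)⌉₊ := ⟨_, rfl⟩
  have hL1 : l ^ (c + 1) ≤ L := by rw [hL]; exact Nat.le_ceil _
  have hL2 : (L : ℝ) < l ^ (c + 1) + 1 := by rw [hL]; exact Nat.ceil_lt_add_one hlc.le
  have hL0 : (0 : ℝ) < L := hlc.trans_le hL1
  have hL3 : (L : ℝ) + 1 ≤ 3 * l ^ (c + 1) := by linarith
  have hcond : (D.card : ℝ) * (L / l ^ (c + 1) + 1) < L := by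
    have e1 : (L : ℝ) / l ^ (c + 1) + 1 ≤ 3 := by
      have : (L : ℝ) / l ^ (c + 1) ≤ 2 := by
        rw [div_le_iff₀ hlc]; linarith
      linarith
    have e2 : (D.card : ℝ) * (L / l ^ (c + 1) + 1) ≤ l ^ c * 3 :=
      mul_le_mul hDc e1 (by positivity) (by positivity)
    have e3 : l ^ c * 3 < l ^ (c + 1) := by
      rw [pow_succ]
      have : 0 < l ^ c := by positivity
      nlinarith
    linarith
  rcases le_or_gt (2 / 3) ρ with hρ1 | hρ1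
  · exfalso
    have hX1' : 1 ≤ X := by
      have : (1 : ℝ) ≤ Real.exp 5 := Real.one_le_exp (by norm_num)
      linarith
    have h1 := hα 1 le_rfl (by
      rw [le_div_iff₀ hδ]
      have : 1 ≤ X ^ (1 / 3 + ρ) := Real.one_le_rpow hX1' (by linarith)
      push_cast
      linarith)
    have h2 : 1 ≤ X ^ (ρ - 2 / 3) := Real.one_le_rpow hX1' (by linarith)
    have h3 := dist1_le_half (α * (1 : ℕ))
    linarith
  have hX1' : 1 ≤ X := by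
    have : (1 : ℝ) ≤ Real.exp 5 := Real.one_le_exp (by norm_num)
    linarith
  obtain ⟨Y, hY⟩ : ∃ Y : ℝ, Y = X ^ (2 / 3 - ρ / 2) := ⟨_, rfl⟩
  have hY0 : 0 < Y := by rw [hY]; exact Real.rpow_pos_of_pos hXpos _
  have hYX : X ^ (1 / 3 : ℝ) ≤ Y := by
    rw [hY]; exact Real.rpow_le_rpow_of_exponent_le hX1' (by linarith)
  obtain ⟨Q, hQ⟩ : ∃ Q : ℕ, Q = ⌊Y / (L + 1)⌋₊ := ⟨_, rfl⟩
  have hYL : 8 ≤ Y / (L + 1) := by
    rw [le_div_iff₀ (by linarith)]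
    linarith
  have hQ1 : Y / (L + 1) < (Q : ℝ) + 1 := by rw [hQ]; exact Nat.lt_floor_add_one _
  have hQ2 : (Q : ℝ) ≤ Y / (L + 1) := by rw [hQ]; exact Nat.floor_le (by positivity)
  have hQ3 : Y / (L + 1) ≤ 2 * Q := by linarith
  have hQ4 : 1 ≤ Q := by
    have : (1 : ℝ) ≤ Q := by linarith
    exact_mod_cast this
  have hQ0 : (0 : ℝ) < Q := by exact_mod_cast hQ4
  obtain ⟨q, q₀, a₀, hq1, hqQ, hqd, hq₀Q, hq₀1, hq₀L, hcop, happ, hav⟩ :=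
    choose_modulus α Q L hQ4 D (l ^ (c + 1)) hlc hD hcond
  have hq0 : (0 : ℝ) < q := by exact_mod_cast hq1
  have hq₀0 : (0 : ℝ) < q₀ := by exact_mod_cast hq₀1
  have hqQ' : (q : ℝ) ≤ Q := by exact_mod_cast hqQ
  have hqlarge : X ^ (1 / 3 + ρ) / δ < q := by
    by_contra hcon
    push Not at hcon
    have h1 := hα q hq1 hcon
    have h2 : 1 / ((Q : ℝ) + 1) ≤ X ^ (ρ - 2 / 3) := by
      have h3 : 1 / ((Q : ℝ) + 1) ≤ (L + 1) / Y := by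
        rw [div_le_div_iff₀ (by linarith) hY0]
        rw [div_lt_iff₀ (by linarith)] at hQ1
        nlinarith
      refine h3.trans ?_
      rw [div_le_iff₀ hY0, hY, ← Real.rpow_add hXpos]
      have : ρ - 2 / 3 + (2 / 3 - ρ / 2) = ρ / 2 := by ring
      rw [this]
      linarith
    linarith
  have hq₀Y : (q₀ : ℝ) ≤ X ^ (2 / 3 - ρ / 2) := by
    rw [← hY]
    refine hq₀L.trans ?_
    rw [le_div_iff₀ (by linarith)] at hQ2
    linarith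
  have happ' : X * |α - a₀ / q₀| ≤ δ := by
    have hZ0 : 0 < X ^ (1 / 3 + ρ) := Real.rpow_pos_of_pos hXpos _
    have h1 : X ^ (1 / 3 + ρ) < q * δ := by rwa [div_lt_iff₀ hδ] at hqlarge
    have h2 : X * |α - a₀ / q₀| ≤ X * (3 / (q * Q)) := mul_le_mul_of_nonneg_left happ hXpos.le
    refine h2.trans ?_
    rw [mul_div_assoc', div_le_iff₀ (by positivity)]
    have h3 : X * 3 ≤ X ^ (1 / 3 + ρ) * Q := by
      have h4 : X = X ^ (1 / 3 + ρ) * X ^ (2 / 3 - ρ) := by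
        rw [← Real.rpow_add hXpos]
        have : 1 / 3 + ρ + (2 / 3 - ρ) = 1 := by ring
        rw [this, Real.rpow_one]
      have h5 : X ^ (2 / 3 - ρ) * 3 ≤ Q := by
        have h6 : X ^ (2 / 3 - ρ) * 3 * (2 * (L + 1)) ≤ Y := by
          have h7 : Y = X ^ (2 / 3 - ρ) * X ^ (ρ / 2) := by
            rw [hY, ← Real.rpow_add hXpos]
            congr 1; ring
          rw [h7, mul_assoc]
          refine mul_le_mul_of_nonneg_left ?_ (Real.rpow_pos_of_pos hXpos _).le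
          linarith
        rw [div_le_iff₀ (by linarith)] at hQ3
        nlinarith
      calc X * 3 = X ^ (1 / 3 + ρ) * (X ^ (2 / 3 - ρ) * 3) := by
            conv_lhs => rw [h4]
            ring
        _ ≤ X ^ (1 / 3 + ρ) * Q := mul_le_mul_of_nonneg_left h5 hZ0.le
    calc X * 3 ≤ X ^ (1 / 3 + ρ) * Q := h3
      _ ≤ q * δ * Q := mul_le_mul_of_nonneg_right h1.le hQ0.le
      _ = δ * (q * Q) := by ring
  refine ⟨q₀, a₀, hq₀1, hq₀Y, hav, hcop, happ', ?_⟩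
  have hZ : (2 : ℝ) ≤ X ^ (1 / 3 + ρ) := by
    have h1 : X ^ (1 / 3 : ℝ) ≤ X ^ (1 / 3 + ρ) := Real.rpow_le_rpow_of_exponent_le hX1' (by linarith)
    linarith
  have h1 : X ^ (1 / 3 + ρ) < q * δ := by rwa [div_lt_iff₀ hδ] at hqlarge
  have h2 : q * δ ≤ 2 * q₀ * δ := mul_le_mul_of_nonneg_right (by linarith) hδ.le
  linarith

/-- the residues of the members of a Bohr set -/
lemma bohr_residue (X α β δ : ℝ) (q : ℕ) (hq : 1 ≤ q) (a : ℤ) (happ : X * |α - a / q| ≤ δ) (n : ℕ) (hn : (n : ℝ) ≤ X)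
    (h : dist1 (α * n + β) ≤ δ) : dist1 (a * ((n % q : ℕ) : ℝ) / q + β) ≤ δ + δ := by
  have hq0 : (0 : ℝ) < q := by exact_mod_cast hq
  have e1 : (n : ℝ) = (n % q : ℕ) + q * (n / q : ℕ) := by
    exact_mod_cast (Nat.mod_add_div n q).symm
  have e2 : (a : ℝ) * n / q + β = (a * ((n % q : ℕ) : ℝ) / q + β) + ((a * ((n / q : ℕ) : ℤ) : ℤ) : ℝ) := by
    rw [e1, Int.cast_mul, Int.cast_natCast]
    generalize ((n / q : ℕ) : ℝ) = k
    generalize ((n % q : ℕ) : ℝ) = m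
    field_simp
    ring
  have e3 : dist1 (a * ((n % q : ℕ) : ℝ) / q + β) = dist1 (a * n / q + β) := by
    rw [e2, dist1_add_int]
  rw [e3]
  refine (dist1_le_add _ (α * n + β)).trans ?_
  have e4 : (a : ℝ) * n / q + β - (α * n + β) = -(n * (α - a / q)) := by field_simp; ring
  rw [e4, abs_neg, abs_mul, Nat.abs_cast]
  have h5 : (n : ℝ) * |α - a / q| ≤ X * |α - a / q| := mul_le_mul_of_nonneg_right hn (abs_nonneg _)
  linarith

/-- the vectors of members of Bohr sets: if few vectors of every product of regular classes are in `T`, then few vectors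
of the product of the Bohr sets are in `T` -/
theorem bohr_vectors (k : ℕ) (ρ : ℝ) (hρ : 0 < ρ) (A : ℕ) (P : ℕ → (Fin k → ℤ) → Prop)
    (hP : ∃ c : ℕ, ∀ A₀ : ℕ, ∃ N₀ : ℕ, ∀ N : ℕ, N₀ ≤ N →
      ∃ D : Finset ℕ, (D.card : ℝ) ≤ Real.log N ^ c ∧ (∀ d ∈ D, Real.log N ^ A₀ < (d : ℝ)) ∧
      ∀ q : Fin k → ℕ, (∀ i, 1 ≤ q i ∧ (q i : ℝ) ≤ (N : ℝ) ^ (2 / 3 - ρ / 2) ∧ ∀ d ∈ D, ¬ d ∣ q i) → ∀ a : Fin k → ℤ,
      ∀ T : Finset (Fin k → ℤ), (∀ h ∈ T, Function.Injective h ∧ (∀ i, 0 < h i ∧ h i ≤ N ∧ h i ≡ a i [ZMOD q i]) ∧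
        P N h) → (T.card : ℝ) ≤ (∏ i, ((N : ℝ) / q i)) / Real.log N ^ (A + 1)) :
    ∃ x₀ : ℕ, ∀ x : ℕ, x₀ ≤ x → ∀ α β δ : Fin k → ℝ, (∀ i, 0 < δ i ∧ δ i ≤ 1 ∧
        ∀ q : ℕ, 1 ≤ q → (q : ℝ) ≤ (x : ℝ) ^ (1 / 3 + ρ) / δ i → (x : ℝ) ^ (ρ - 2 / 3) < dist1 (α i * q)) →
      ∀ T : Finset (Fin k → ℕ), (∀ h ∈ T, Function.Injective h ∧ (∀ i, 1 ≤ h i ∧ h i ≤ x ∧
        dist1 (α i * h i + β i) ≤ δ i) ∧ P x (fun i => (h i : ℤ))) →
      (T.card : ℝ) ≤ (∏ i, (δ i * x)) / Real.log x ^ A := by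
  classical
  obtain ⟨c, hc⟩ := hP
  obtain ⟨n₁, h₁⟩ := hc (c + 1)
  obtain ⟨x₂, h₂⟩ := choose_regular ρ hρ c
  obtain ⟨n₂, hn₂⟩ := exists_nat_gt x₂
  obtain ⟨n₃, hn₃⟩ := exists_nat_gt (Real.exp (5 ^ k))
  refine ⟨n₁ + n₂ + n₃ + 1, fun x hx α β δ hα T hT => ?_⟩
  have hx0 : (0 : ℝ) < x := by exact_mod_cast (by omega : 0 < x)
  have hxx₂ : x₂ ≤ x := by
    have : (n₂ : ℝ) ≤ x := by exact_mod_cast (by omega : n₂ ≤ x)
    linarith
  have hlog : (5 : ℝ) ^ k ≤ Real.log x := by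
    rw [Real.le_log_iff_exp_le hx0]
    have : (n₃ : ℝ) ≤ x := by exact_mod_cast (by omega : n₃ ≤ x)
    linarith
  have hlog0 : 0 < Real.log x := lt_of_lt_of_le (by positivity) hlog
  obtain ⟨D, hD1, hD2, hD3⟩ := h₁ x (by omega)
  have hq : ∀ i, ∃ (q₀ : ℕ) (a₀ : ℤ), 1 ≤ q₀ ∧ (q₀ : ℝ) ≤ (x : ℝ) ^ (2 / 3 - ρ / 2) ∧ (∀ d ∈ D, ¬ d ∣ q₀) ∧
      IsCoprime a₀ (q₀ : ℤ) ∧ x * |α i - a₀ / q₀| ≤ δ i ∧ 1 ≤ δ i * q₀ :=
    fun i => h₂ x hxx₂ D hD1 hD2 (α i) (δ i) (hα i).1 (hα i).2.1 (hα i).2.2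
  choose q a k1 k2 k3 k4 k5 k6 using hq
  have hq0 : ∀ i, (0 : ℝ) < q i := fun i => by exact_mod_cast k1 i
  obtain ⟨R, hR⟩ : ∃ R : ∀ i : Fin k, Finset ℕ, R = fun i : Fin k => (range (q i)).filter
      (fun r : ℕ => dist1 (a i * r / q i + β i) ≤ δ i + δ i) := ⟨_, rfl⟩
  have hRc : ∀ i, ((R i).card : ℝ) ≤ 5 * (δ i * q i) := by
    intro i
    have h1 := card_residues (a i) (q i) (k1 i) (k4 i) (β i) (δ i + δ i) (by linarith [(hα i).1])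
    rw [hR]
    refine h1.trans ?_
    have := k6 i
    have e : 2 * (δ i + δ i) * q i = 4 * (δ i * q i) := by ring
    rw [e]
    linarith
  -- the parts
  obtain ⟨E, hE⟩ : ∃ E : (Fin k → ℕ) → Finset (Fin k → ℕ), E = fun r => T.filter (fun h => ∀ i, h i % q i = r i) :=
    ⟨_, rfl⟩
  have hsub : T ⊆ (Fintype.piFinset R).biUnion E := by
    intro h hh
    rw [mem_biUnion]
    refine ⟨fun i => h i % q i, ?_, ?_⟩
    · rw [Fintype.mem_piFinset]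
      intro i
      rw [hR, mem_filter, mem_range]
      refine ⟨Nat.mod_lt _ (k1 i), ?_⟩
      obtain ⟨-, h2, -⟩ := hT h hh
      exact bohr_residue x (α i) (β i) (δ i) (q i) (k1 i) (a i) (k5 i) (h i) (by exact_mod_cast (h2 i).2.1) (h2 i).2.2
    · rw [hE, mem_filter]
      exact ⟨hh, fun i => rfl⟩
  have hEc : ∀ r : Fin k → ℕ, ((E r).card : ℝ) ≤ (∏ i, ((x : ℝ) / q i)) / Real.log x ^ (A + 1) := by
    intro r
    obtain ⟨S, hS⟩ : ∃ S : Finset (Fin k → ℤ), S = (E r).image (fun h i => (h i : ℤ)) := ⟨_, rfl⟩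
    have hcard : S.card = (E r).card := by
      rw [hS]
      apply card_image_of_injective
      intro u v huv
      funext i
      have := congrFun huv i
      simp only at this
      exact_mod_cast this
    rw [← hcard]
    refine hD3 q (fun i => ⟨k1 i, k2 i, k3 i⟩) (fun i => (r i : ℤ)) S (fun h hh => ?_)
    rw [hS, mem_image] at hh
    obtain ⟨u, hu, rfl⟩ := hh
    rw [hE, mem_filter] at hu
    obtain ⟨g1, g2, g3⟩ := hT u hu.1
    refine ⟨fun i j hij => g1 (by simp only at hij; exact_mod_cast hij), fun i => ⟨?_, ?_, ?_⟩, g3⟩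
    · show (0 : ℤ) < ((u i : ℕ) : ℤ)
      have := (g2 i).1
      omega
    · show ((u i : ℕ) : ℤ) ≤ (x : ℤ)
      have := (g2 i).2.1
      omega
    · show ((u i : ℕ) : ℤ) ≡ (r i : ℤ) [ZMOD q i]
      have h1 := hu.2 i
      have h2 : ((u i % q i : ℕ) : ℤ) = (r i : ℤ) := by exact_mod_cast h1
      rw [← h2]
      push_cast
      exact (Int.mod_modEq _ _).symm
  have h1 : (T.card : ℝ) ≤ ∑ r ∈ Fintype.piFinset R, ((E r).card : ℝ) := by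
    exact_mod_cast (card_le_card hsub).trans card_biUnion_le
  have h2 : ∑ r ∈ Fintype.piFinset R, ((E r).card : ℝ) ≤
      ((Fintype.piFinset R).card : ℝ) * ((∏ i, ((x : ℝ) / q i)) / Real.log x ^ (A + 1)) := by
    refine (sum_le_sum fun r _ => hEc r).trans (le_of_eq ?_)
    rw [sum_const, nsmul_eq_mul]
  have h3 : ((Fintype.piFinset R).card : ℝ) ≤ ∏ i, (5 * (δ i * q i)) := by
    rw [Fintype.card_piFinset]
    push_cast
    exact prod_le_prod (fun i _ => Nat.cast_nonneg _) (fun i _ => hRc i)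
  have h4 : 0 ≤ ∏ i : Fin k, ((x : ℝ) / q i) := prod_nonneg fun i _ => by have := hq0 i; positivity
  have h5 : (∏ i, (5 * (δ i * q i))) * (∏ i : Fin k, ((x : ℝ) / q i)) = 5 ^ k * ∏ i, (δ i * x) := by
    rw [← prod_mul_distrib]
    have e : ∀ i ∈ (univ : Finset (Fin k)), 5 * (δ i * q i) * (x / q i) = 5 * (δ i * x) := by
      intro i _
      have := (hq0 i).ne'
      field_simp
    rw [prod_congr rfl e, prod_mul_distrib, prod_const, card_univ, Fintype.card_fin]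
  have h6 : 0 ≤ ∏ i, (δ i * x) := prod_nonneg fun i _ => mul_nonneg (hα i).1.le hx0.le
  calc (T.card : ℝ) ≤ ((Fintype.piFinset R).card : ℝ) * ((∏ i, ((x : ℝ) / q i)) / Real.log x ^ (A + 1)) := h1.trans h2
    _ ≤ (∏ i, (5 * (δ i * q i))) * ((∏ i, ((x : ℝ) / q i)) / Real.log x ^ (A + 1)) :=
        mul_le_mul_of_nonneg_right h3 (by positivity)
    _ = 5 ^ k * (∏ i, (δ i * x)) / Real.log x ^ (A + 1) := by rw [← mul_div_assoc, h5]
    _ ≤ Real.log x * (∏ i, (δ i * x)) / Real.log x ^ (A + 1) := by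
        apply div_le_div_of_nonneg_right _ (by positivity)
        exact mul_le_mul_of_nonneg_right hlog h6
    _ = (∏ i, (δ i * x)) / Real.log x ^ A := by
        rw [pow_succ, mul_comm (Real.log x) _, mul_div_mul_right _ _ hlog0.ne']

/-- the number of the multiples of `D` in a Bohr set -/
theorem bohr_lowerD (D : ℕ) (hD : 1 ≤ D) (ρ : ℝ) (hρ : 0 < ρ) :
    ∃ X₀ : ℝ, ∀ X : ℝ, X₀ ≤ X → ∀ α β δ : ℝ, 0 < δ → δ ≤ 1 →
      (∀ q : ℕ, 1 ≤ q → (q : ℝ) ≤ X ^ (1 / 3 + ρ) / δ → X ^ (ρ - 2 / 3) < dist1 (α * q)) →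
      ∀ T : Finset ℕ, (∀ n : ℕ, 0 < n → (n : ℝ) ≤ X → D ∣ n → dist1 (α * n + β) ≤ δ → n ∈ T) →
      δ * X / (4 * D) ≤ (T.card : ℝ) := by
  obtain ⟨x₀, h₀⟩ := bohr_lower2 (ρ / 2) (by linarith)
  obtain ⟨x₁, -, hx₁⟩ := log_pow_le 0 (ρ / 2) (by linarith) D
  have hD0 : (0 : ℝ) < D := by exact_mod_cast hD
  have hD1 : (1 : ℝ) ≤ D := by exact_mod_cast hD
  refine ⟨max 1 (max x₁ (D * x₀)), fun X hX α β δ hδ hδ1 hα T hT => ?_⟩
  have hX1 : 1 ≤ X := (le_max_left _ _).trans hX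
  have hXpos : 0 < X := by linarith
  have g1 := hx₁ X ((le_max_left _ _).trans ((le_max_right _ _).trans hX))
  rw [pow_zero, mul_one] at g1
  have hXD : x₀ ≤ X / D := by
    rw [le_div_iff₀ hD0, mul_comm]
    exact (le_max_right _ _).trans ((le_max_right _ _).trans hX)
  have hXD0 : 0 < X / D := by positivity
  have hXDX : X / D ≤ X := div_le_self hXpos.le hD1
  have h1 := h₀ (X / D) hXD (α * D) β δ hδ hδ1 (by
    intro q hq hqX
    have hq0 : (0 : ℝ) < q := by exact_mod_cast hq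
    have e1 := hα (D * q) (Nat.mul_pos hD hq) (by
      push_cast
      rw [le_div_iff₀ hδ] at hqX ⊢
      have e2 : (X / D) ^ (1 / 3 + ρ / 2) ≤ X ^ (1 / 3 + ρ / 2) := Real.rpow_le_rpow hXD0.le hXDX (by linarith)
      have e3 : X ^ (1 / 3 + ρ) = X ^ (ρ / 2) * X ^ (1 / 3 + ρ / 2) := by
        rw [← Real.rpow_add hXpos]; congr 1; ring
      rw [e3]
      calc (D : ℝ) * q * δ = D * (q * δ) := by ring
        _ ≤ X ^ (ρ / 2) * X ^ (1 / 3 + ρ / 2) :=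
          mul_le_mul g1 (hqX.trans e2) (by positivity) (Real.rpow_pos_of_pos hXpos _).le)
    have e4 : α * ((D * q : ℕ) : ℝ) = α * D * q := by push_cast; ring
    rw [e4] at e1
    refine lt_of_le_of_lt ?_ e1
    rw [Real.div_rpow hXpos.le hD0.le, div_le_iff₀ (Real.rpow_pos_of_pos hD0 _)]
    have e5 : X ^ (ρ - 2 / 3) = X ^ (ρ / 2 - 2 / 3) * X ^ (ρ / 2) := by
      rw [← Real.rpow_add hXpos]; congr 1; ring
    have e6 : (D : ℝ) ^ (-1 : ℝ) ≤ (D : ℝ) ^ (ρ / 2 - 2 / 3) := Real.rpow_le_rpow_of_exponent_le hD1 (by linarith)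
    have e7 : 1 ≤ X ^ (ρ / 2) * (D : ℝ) ^ (ρ / 2 - 2 / 3) := by
      calc (1 : ℝ) = D * (D : ℝ) ^ (-1 : ℝ) := by rw [Real.rpow_neg_one, mul_inv_cancel₀ hD0.ne']
        _ ≤ X ^ (ρ / 2) * (D : ℝ) ^ (ρ / 2 - 2 / 3) :=
          mul_le_mul g1 e6 (Real.rpow_pos_of_pos hD0 _).le (Real.rpow_pos_of_pos hXpos _).le
    have e8 : 0 < X ^ (ρ / 2 - 2 / 3) := Real.rpow_pos_of_pos hXpos _
    rw [e5, mul_assoc]
    calc X ^ (ρ / 2 - 2 / 3) = X ^ (ρ / 2 - 2 / 3) * 1 := (mul_one _).symm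
      _ ≤ X ^ (ρ / 2 - 2 / 3) * (X ^ (ρ / 2) * (D : ℝ) ^ (ρ / 2 - 2 / 3)) := mul_le_mul_of_nonneg_left e7 e8.le)
  have h2 : ((evenBohr (X / D) (α * D) β δ).ncard : ℝ) ≤ T.card := by
    have hsub : (fun n => D * n) '' (evenBohr (X / D) (α * D) β δ) ⊆ (T : Set ℕ) := by
      rintro _ ⟨n, ⟨k1, k2, k3, k4⟩, rfl⟩
      refine hT (D * n) (Nat.mul_pos hD k1) ?_ ⟨n, rfl⟩ ?_
      · push_cast
        rw [le_div_iff₀ hD0] at k2
        linarith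
      · have : α * ((D * n : ℕ) : ℝ) + β = α * D * n + β := by push_cast; ring
        rw [this]
        exact k4
    have h3 := Set.ncard_le_ncard hsub T.finite_toSet
    rw [Set.ncard_image_of_injective _ (fun a b hab => Nat.eq_of_mul_eq_mul_left hD hab), Set.ncard_coe_finset] at h3
    exact_mod_cast h3
  have h4 : δ * X / (4 * D) = δ * (X / D) / 4 := by field_simp
  rw [h4]
  exact h1.trans h2

/-- integral `x` for irrational numbers -/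
lemma hyp_nat (α θ : ℝ) (hα : Irrational α) (hθ0 : 0 ≤ θ) (hθ : θ < 1 / 3) :
    ∃ ρ : ℝ, 0 < ρ ∧ ∀ N : ℕ, ∃ x : ℕ, N ≤ x ∧ 1 ≤ x ∧
      (∀ q : ℕ, 1 ≤ q → (q : ℝ) ≤ (x : ℝ) ^ (1 / 3 + ρ) / (x : ℝ) ^ (-θ) →
        (x : ℝ) ^ (ρ - 2 / 3) < dist1 (α * q)) := by
  obtain ⟨ρ, hρ, h⟩ := hyp_of_irrational2 α θ hα hθ
  obtain ⟨r, hr⟩ : ∃ r : ℝ, r = min ρ (1 / 3) / 2 := ⟨_, rfl⟩
  have hr0 : 0 < r := by
    rw [hr]
    have : 0 < min ρ (1 / 3) := lt_min hρ (by norm_num)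
    linarith
  have hr1 : 2 * r ≤ ρ := by rw [hr]; have := min_le_left ρ (1 / 3); linarith
  have hr2 : 2 * r ≤ 1 / 3 := by rw [hr]; have := min_le_right ρ (1 / 3); linarith
  obtain ⟨x₁, -, hx₁⟩ := log_pow_le 0 r hr0 2
  refine ⟨r, hr0, fun N => ?_⟩
  obtain ⟨X, hX, hX1, hq⟩ := h (max x₁ N)
  obtain ⟨x, hx⟩ : ∃ x : ℕ, x = ⌈X⌉₊ := ⟨_, rfl⟩
  have hXpos : 0 < X := by linarith
  have hXx : X ≤ x := by rw [hx]; exact Nat.le_ceil _
  have hxX : (x : ℝ) < X + 1 := by rw [hx]; exact Nat.ceil_lt_add_one hXpos.le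
  have hx2 : (x : ℝ) ≤ 2 * X := by linarith
  have hx1 : (1 : ℝ) ≤ x := by linarith
  have hx0 : (0 : ℝ) < x := by linarith
  have g := hx₁ X ((le_max_left _ _).trans hX)
  rw [pow_zero, mul_one] at g
  refine ⟨x, ?_, by exact_mod_cast hx1, fun q hq1 hqx => ?_⟩
  · have : (N : ℝ) ≤ x := ((le_max_right _ _).trans hX).trans hXx
    exact_mod_cast this
  have h1 := hq q hq1 (by
    refine hqx.trans ?_
    rw [← Real.rpow_sub hx0, ← Real.rpow_sub hXpos]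
    calc (x : ℝ) ^ (1 / 3 + r - -θ) ≤ (2 * X) ^ (1 / 3 + r - -θ) := Real.rpow_le_rpow hx0.le hx2 (by linarith)
      _ = 2 ^ (1 / 3 + r - -θ) * X ^ (1 / 3 + r - -θ) := Real.mul_rpow (by norm_num) hXpos.le
      _ ≤ X ^ r * X ^ (1 / 3 + r - -θ) := by
          apply mul_le_mul_of_nonneg_right _ (Real.rpow_pos_of_pos hXpos _).le
          refine le_trans ?_ g
          calc (2 : ℝ) ^ (1 / 3 + r - -θ) ≤ 2 ^ (1 : ℝ) :=
                Real.rpow_le_rpow_of_exponent_le (by norm_num) (by linarith)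
            _ = 2 := Real.rpow_one _
      _ = X ^ (1 / 3 + 2 * r - -θ) := by rw [← Real.rpow_add hXpos]; congr 1; ring
      _ ≤ X ^ (1 / 3 + ρ - -θ) := Real.rpow_le_rpow_of_exponent_le hX1 (by linarith))
  refine lt_of_le_of_lt ?_ h1
  calc (x : ℝ) ^ (r - 2 / 3) ≤ X ^ (r - 2 / 3) := Real.rpow_le_rpow_of_nonpos hXpos hXx (by linarith)
    _ ≤ X ^ (ρ - 2 / 3) := Real.rpow_le_rpow_of_exponent_le hX1 (by linarith)

end Pool.Agent.H566
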