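import Mathlib
import Pool.Graph.R_seed8.H373R2.T7.SupE2

/-!
Complete exponential sums over the reduced residues in a fixed class modulo a primorial.
-/

set_option autoImplicit false

namespace Pool.Agent.H566

open Finset
open Pool.Agent.H807R2.Dav

/-- a sum over a set invariant under a shift vanishes if the character is not invariant -/
lemma shift_zero (L s : ℕ) (hL : 0 < L) (P : ℕ → Prop) [DecidablePred P] (hP : ∀ a, P (a % L) ↔ P a)
    (hs : ∀ a, P (a + s) ↔ P a) (x : ℝ) (k : ℤ) (hx : (L : ℝ) * x = k) (hne : ee (s * x) ≠ 1) :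
    ∑ a ∈ (range L).filter P, ee (a * x) = 0 := by
  have : NeZero L := ⟨hL.ne'⟩
  have hper : ∀ a : ℕ, ee (((a % L : ℕ) : ℝ) * x) = ee (a * x) := by
    intro a
    obtain ⟨t, ht⟩ : ∃ t : ℕ, t = a / L := ⟨_, rfl⟩
    have h2 : (a : ℝ) = ((a % L : ℕ) : ℝ) + (L : ℝ) * (t : ℝ) := by
      rw [ht]
      exact_mod_cast (Nat.mod_add_div a L).symm
    have h1 : (a : ℝ) * x = ((a % L : ℕ) : ℝ) * x + (((t : ℤ) * k : ℤ) : ℝ) := by
      calc (a : ℝ) * x = (((a % L : ℕ) : ℝ) + (L : ℝ) * (t : ℝ)) * x := by rw [← h2]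
        _ = ((a % L : ℕ) : ℝ) * x + (t : ℝ) * (L * x) := by ring
        _ = _ := by rw [hx]; push_cast; ring
    rw [h1, ee_add_int]
  set G : ZMod L → ℂ := fun z => if P z.val then ee (z.val * x) else 0 with hG
  have h1 : ∑ a ∈ (range L).filter P, ee (a * x) = ∑ z : ZMod L, G z := by
    rw [sum_filter]
    refine (sum_nbij (fun z : ZMod L => z.val) (fun z _ => mem_range.2 (ZMod.val_lt z))
      (fun a _ b _ h => ZMod.val_injective L h) (fun t ht => ?_) (fun z _ => rfl)).symm
    have ht' := mem_range.1 (mem_coe.1 ht)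
    exact ⟨(t : ZMod L), mem_coe.2 (mem_univ _), ZMod.val_cast_of_lt ht'⟩
  have h2 : ∑ z : ZMod L, G z = ee (s * x) * ∑ z : ZMod L, G z := by
    have h3 : ∀ z : ZMod L, G (Equiv.addRight (s : ZMod L) z) = ee (s * x) * G z := by
      intro z
      simp only [hG, Equiv.coe_addRight]
      have h4 : (z + (s : ZMod L)).val = (z.val + s) % L := by
        rw [ZMod.val_add, ZMod.val_natCast, Nat.add_mod_mod]
      rw [h4]
      have h5 : P ((z.val + s) % L) ↔ P z.val := (hP _).trans (hs _)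
      by_cases h : P z.val
      · rw [if_pos (h5.2 h), if_pos h, hper, ← ee_add]
        congr 1
        push_cast
        ring
      · rw [if_neg (fun h' => h (h5.1 h')), if_neg h, mul_zero]
    have h6 := Equiv.sum_comp (Equiv.addRight (s : ZMod L)) G
    rw [sum_congr rfl fun z _ => h3 z, ← mul_sum] at h6
    exact h6.symm
  rw [h1]
  have h3 : (1 - ee (s * x)) * ∑ z : ZMod L, G z = 0 := by
    rw [sub_mul, one_mul, ← h2, sub_self]
  rcases mul_eq_zero.1 h3 with h | h
  · exact absurd (sub_eq_zero.1 h).symm hne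
  · exact h

/-- a rational frequency with denominator `p` is not an integer -/
lemma ee_ne_one (p : ℕ) (m : ℤ) (hm : ¬ (p : ℤ) ∣ m) (y : ℝ) (hy : (p : ℝ) * y = m) : ee y ≠ 1 := by
  intro h
  unfold ee at h
  rw [Complex.exp_eq_one_iff] at h
  obtain ⟨n, hn⟩ := h
  apply hm
  have h1 : (y : ℂ) = n := by
    have h2 : (2 * Real.pi * Complex.I : ℂ) ≠ 0 := by
      simp [Real.pi_ne_zero]
    apply mul_left_cancel₀ h2
    rw [hn]; ring
  have h3 : y = (n : ℝ) := by exact_mod_cast h1
  rw [h3] at hy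
  exact ⟨n, by exact_mod_cast hy.symm⟩

/-- the number of the reduced residues modulo `L` in a reduced class modulo `W ∣ L` -/
lemma card_class (W L b : ℕ) (hWL : W ∣ L) (hL : 0 < L) (hb : b.Coprime W) :
    (((range L).filter (fun a => a ≡ b [MOD W] ∧ a.Coprime L)).card) * W.totient = L.totient := by
  classical
  have : NeZero L := ⟨hL.ne'⟩
  have hW : 0 < W := Nat.pos_of_dvd_of_pos hWL hL
  have : NeZero W := ⟨hW.ne'⟩
  set f := ZMod.unitsMap hWL with hf
  have hsurj : Function.Surjective f := ZMod.unitsMap_surjective hWL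
  set u : (ZMod W)ˣ := ZMod.unitOfCoprime b hb with hu
  have h1 : (((range L).filter (fun a => a ≡ b [MOD W] ∧ a.Coprime L)).card) =
      (univ.filter (fun x : (ZMod L)ˣ => f x = u)).card := by
    symm
    refine card_bij (fun x _ => (x : ZMod L).val) ?_ ?_ ?_
    · intro x hx
      rw [mem_filter] at hx ⊢
      refine ⟨mem_range.2 (ZMod.val_lt _), ?_, ?_⟩
      · have h2 := congrArg (fun y : (ZMod W)ˣ => (y : ZMod W)) hx.2
        simp only [hf, ZMod.unitsMap_val, hu, ZMod.coe_unitOfCoprime] at h2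
        rw [← ZMod.natCast_eq_natCast_iff, ← h2, ZMod.natCast_val]
      · exact ZMod.val_coe_unit_coprime x
    · intro x _ y _ h
      exact Units.ext (ZMod.val_injective L h)
    · intro a ha
      rw [mem_filter, mem_range] at ha
      refine ⟨ZMod.unitOfCoprime a ha.2.2, ?_, ?_⟩
      · rw [mem_filter]
        refine ⟨mem_univ _, ?_⟩
        apply Units.ext
        rw [hf, ZMod.unitsMap_val, ZMod.coe_unitOfCoprime, hu, ZMod.coe_unitOfCoprime]
        have h2 := (ZMod.natCast_eq_natCast_iff _ _ _).2 ha.2.1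
        rw [← h2]
        exact ZMod.cast_natCast hWL a
      · rw [ZMod.coe_unitOfCoprime, ZMod.val_cast_of_lt ha.1]
  rw [h1]
  have h2 : (univ : Finset (ZMod L)ˣ).card = ∑ v : (ZMod W)ˣ, (univ.filter (fun x : (ZMod L)ˣ => f x = v)).card :=
    card_eq_sum_card_fiberwise (fun x _ => mem_coe.2 (mem_univ _))
  have h3 : ∀ v : (ZMod W)ˣ, (univ.filter (fun x : (ZMod L)ˣ => f x = v)).card =
      (univ.filter (fun x : (ZMod L)ˣ => f x = u)).card := by
    intro v
    exact MonoidHom.card_fiber_eq_of_mem_range f (hsurj v) (hsurj u)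
  rw [sum_congr rfl fun v _ => h3 v, sum_const, card_univ, card_univ, ZMod.card_units_eq_totient,
    ZMod.card_units_eq_totient, smul_eq_mul] at h2
  rw [h2, mul_comm]

/-- coprimality is invariant under shifts by a number divisible by all prime factors of the modulus -/
lemma coprime_shift (L s : ℕ) (hs : ∀ p : ℕ, p.Prime → p ∣ L → p ∣ s) (a : ℕ) :
    (a + s).Coprime L ↔ a.Coprime L := by
  constructor
  · intro h
    apply Nat.Coprime.symm
    apply Nat.coprime_of_dvd
    intro p hp h1 h2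
    have h3 : p ∣ a + s := dvd_add h2 (hs p hp h1)
    exact Nat.Prime.not_coprime_iff_dvd.2 ⟨p, hp, h3, h1⟩ h
  · intro h
    apply Nat.Coprime.symm
    apply Nat.coprime_of_dvd
    intro p hp h1 h2
    have h3 : p ∣ a := (Nat.dvd_add_left (hs p hp h1)).1 h2
    exact Nat.Prime.not_coprime_iff_dvd.2 ⟨p, hp, h3, h1⟩ h

lemma modEq_shift (W s : ℕ) (hs : W ∣ s) (a b : ℕ) : a + s ≡ b [MOD W] ↔ a ≡ b [MOD W] := by
  have h : a + s ≡ a [MOD W] := by
    have := Nat.ModEq.add_left a ((Nat.modEq_zero_iff_dvd).2 hs)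
    simpa using this
  exact ⟨fun h1 => h.symm.trans h1, fun h1 => h.trans h1⟩

lemma modEq_mod (W L : ℕ) (hs : W ∣ L) (a b : ℕ) : a % L ≡ b [MOD W] ↔ a ≡ b [MOD W] := by
  have h : a % L ≡ a [MOD W] := (Nat.mod_modEq a L).of_dvd hs
  exact ⟨fun h1 => h.symm.trans h1, fun h1 => h.trans h1⟩

lemma coprime_mod (L d : ℕ) (hd : d ∣ L) (a : ℕ) : (a % L).Coprime d ↔ a.Coprime d := by
  have h : a % L ≡ a [MOD d] := (Nat.mod_modEq a L).of_dvd hd
  unfold Nat.Coprime
  rw [Nat.ModEq.gcd_eq h]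

/-- the sum over the reduced residues in a class modulo a primorial -/
lemma unit_class_sum (W q w : ℕ) (hWsq : Squarefree W) (hq : 1 ≤ q) (hw1 : 1 ≤ w)
    (hw : ∀ p : ℕ, p.Prime → p ≤ w → p ∣ W) (c : ℤ) (hc : IsCoprime c (q : ℤ)) (b : ℕ) (hb : b.Coprime W)
    (hqW : ¬ q ∣ W) :
    ‖∑ a ∈ (range (q * W)).filter (fun a => a ≡ b [MOD W] ∧ a.Coprime (q * W)), ee (a * ((c : ℝ) / q))‖ ≤
      ((q * W).totient : ℝ) / (W.totient * w) := by
  have hW : 0 < W := Nat.pos_of_ne_zero hWsq.ne_zero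
  have hL : 0 < q * W := Nat.mul_pos (by omega) hW
  have hq0 : (q : ℝ) ≠ 0 := by
    have : (0 : ℝ) < q := by exact_mod_cast hq
    exact this.ne'
  have hLx : ((q * W : ℕ) : ℝ) * ((c : ℝ) / q) = ((W * c : ℤ) : ℝ) := by
    push_cast; field_simp
  by_cases hsq : Squarefree q
  · -- a prime `p ∣ q` not dividing `W`
    obtain ⟨p, hp, hpq, hpW⟩ : ∃ p : ℕ, p.Prime ∧ p ∣ q ∧ ¬ p ∣ W := by
      by_contra hcon
      push Not at hcon
      apply hqW
      rw [← Nat.prod_primeFactors_of_squarefree hsq]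
      apply Finset.prod_primes_dvd
      · intro p hp
        exact (Nat.prime_of_mem_primeFactors hp).prime
      · intro p hp
        exact hcon p (Nat.prime_of_mem_primeFactors hp) (Nat.dvd_of_mem_primeFactors hp)
    obtain ⟨q1, rfl⟩ := hpq
    have hp0 : (p : ℝ) ≠ 0 := by exact_mod_cast hp.ne_zero
    have hq1 : 1 ≤ q1 := by
      rcases Nat.eq_zero_or_pos q1 with h | h
      · rw [h, mul_zero] at hq; omega
      · exact h
    have hq10 : (q1 : ℝ) ≠ 0 := by
      have : (0 : ℝ) < q1 := by exact_mod_cast hq1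
      exact this.ne'
    have hpq1 : ¬ p ∣ q1 := by
      intro h
      have h1 : p * p ∣ p * q1 := Nat.mul_dvd_mul_left p h
      exact hp.prime.not_isUnit (hsq p h1)
    set L1 := q1 * W with hL1
    have hL1p : 0 < L1 := Nat.mul_pos hq1 hW
    have hpL1 : p.Coprime L1 := by
      rw [hL1]
      exact Nat.Coprime.mul_right ((Nat.Prime.coprime_iff_not_dvd hp).2 hpq1) ((Nat.Prime.coprime_iff_not_dvd hp).2 hpW)
    have hLe : p * q1 * W = p * L1 := by rw [hL1]; ring
    have hpc : ¬ (p : ℤ) ∣ W * c := by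
      intro h
      rcases Int.Prime.dvd_mul' hp h with h1 | h1
      · exact hpW (by exact_mod_cast h1)
      · have h2 : IsCoprime c (p : ℤ) := by
          push_cast at hc
          exact hc.of_mul_right_left
        have h3 : IsUnit (p : ℤ) := h2.isUnit_of_dvd' h1 dvd_rfl
        exact (Nat.prime_iff_prime_int.1 hp).not_isUnit h3
    -- the sum without the condition at `p` vanishes
    have hA := shift_zero (p * q1 * W) L1 hL (fun a => a ≡ b [MOD W] ∧ a.Coprime L1)
      (fun a => and_congr (modEq_mod W _ ⟨p * q1, by ring⟩ a b) (coprime_mod _ _ ⟨p, by rw [hLe]; ring⟩ a))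
      (fun a => and_congr (modEq_shift W L1 ⟨q1, by rw [hL1]; ring⟩ a b) (coprime_shift L1 L1 (fun _ _ h => h) a))
      ((c : ℝ) / ((p * q1 : ℕ) : ℝ)) (W * c) hLx
      (ee_ne_one p (W * c) hpc _ (by rw [hL1]; push_cast; field_simp))
    have hsplit : ∑ a ∈ (range (p * q1 * W)).filter (fun a => a ≡ b [MOD W] ∧ a.Coprime L1), ee (a * ((c : ℝ) / ((p * q1 : ℕ) : ℝ))) =
        ∑ a ∈ (range (p * q1 * W)).filter (fun a => a ≡ b [MOD W] ∧ a.Coprime (p * q1 * W)), ee (a * ((c : ℝ) / ((p * q1 : ℕ) : ℝ))) +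
        ∑ a ∈ (range (p * q1 * W)).filter (fun a => (a ≡ b [MOD W] ∧ a.Coprime L1) ∧ p ∣ a), ee (a * ((c : ℝ) / ((p * q1 : ℕ) : ℝ))) := by
      rw [← sum_filter_add_sum_filter_not _ (fun a => ¬ p ∣ a), filter_filter, filter_filter]
      congr 1
      · apply sum_congr _ fun _ _ => rfl
        apply filter_congr
        intro a _
        have e : a.Coprime (p * L1) ↔ (¬ p ∣ a) ∧ a.Coprime L1 := by
          have e1 : a.Coprime p ↔ ¬ p ∣ a := by rw [Nat.coprime_comm]; exact Nat.Prime.coprime_iff_not_dvd hp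
          rw [← e1]
          exact Nat.coprime_mul_iff_right
        rw [hLe, e]
        tauto
      · apply sum_congr _ fun _ _ => rfl
        apply filter_congr
        intro a _
        tauto
    rw [hA] at hsplit
    have hneg : ∑ a ∈ (range (p * q1 * W)).filter (fun a => a ≡ b [MOD W] ∧ a.Coprime (p * q1 * W)), ee (a * ((c : ℝ) / ((p * q1 : ℕ) : ℝ))) =
        - ∑ a ∈ (range (p * q1 * W)).filter (fun a => (a ≡ b [MOD W] ∧ a.Coprime L1) ∧ p ∣ a), ee (a * ((c : ℝ) / ((p * q1 : ℕ) : ℝ))) :=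
      eq_neg_of_add_eq_zero_left hsplit.symm
    rw [hneg, norm_neg]
    have hcard : ((range (p * q1 * W)).filter (fun a => (a ≡ b [MOD W] ∧ a.Coprime L1) ∧ p ∣ a)).card ≤
        ((range L1).filter (fun a => a ≡ b [MOD W] ∧ a.Coprime L1)).card := by
      apply card_le_card_of_injOn (fun a => a % L1)
      · intro a ha
        have ha' := mem_filter.1 (mem_coe.1 ha)
        rw [mem_coe, mem_filter]
        exact ⟨mem_range.2 (Nat.mod_lt _ hL1p), (modEq_mod W L1 ⟨q1, by rw [hL1]; ring⟩ a b).2 ha'.2.1.1,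
          (coprime_mod L1 L1 dvd_rfl a).2 ha'.2.1.2⟩
      · intro x hx y hy hxy
        have hx' := mem_filter.1 (mem_coe.1 hx)
        have hy' := mem_filter.1 (mem_coe.1 hy)
        have h1 : x ≡ y [MOD L1] := hxy
        have h2 : x ≡ y [MOD p] := by
          rw [Nat.ModEq, Nat.mod_eq_zero_of_dvd hx'.2.2, Nat.mod_eq_zero_of_dvd hy'.2.2]
        have h3 : x ≡ y [MOD p * L1] := (Nat.modEq_and_modEq_iff_modEq_mul hpL1).1 ⟨h2, h1⟩
        have hx1 := mem_range.1 hx'.1
        have hy1 := mem_range.1 hy'.1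
        rw [hLe] at hx1 hy1
        exact Nat.ModEq.eq_of_lt_of_lt h3 hx1 hy1
    have hcl := card_class W L1 b ⟨q1, by rw [hL1]; ring⟩ hL1p hb
    have htot : (p * q1 * W).totient = (p - 1) * L1.totient := by
      rw [hLe, Nat.totient_mul hpL1, Nat.totient_prime hp]
    have hWt : (0 : ℝ) < W.totient := by exact_mod_cast Nat.totient_pos.2 hW
    have hpw : w ≤ p - 1 := by
      by_contra h
      exact hpW (hw p hp (by omega))
    have hw0 : (0 : ℝ) < w := by exact_mod_cast hw1
    calc ‖∑ a ∈ (range (p * q1 * W)).filter (fun a => (a ≡ b [MOD W] ∧ a.Coprime L1) ∧ p ∣ a), ee (a * ((c : ℝ) / ((p * q1 : ℕ) : ℝ)))‖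
        ≤ ∑ a ∈ (range (p * q1 * W)).filter (fun a => (a ≡ b [MOD W] ∧ a.Coprime L1) ∧ p ∣ a), (1 : ℝ) := by
          refine (norm_sum_le _ _).trans (sum_le_sum fun a _ => ?_)
          rw [norm_ee]
      _ = (((range (p * q1 * W)).filter (fun a => (a ≡ b [MOD W] ∧ a.Coprime L1) ∧ p ∣ a)).card : ℝ) := by
          rw [sum_const, nsmul_eq_mul, mul_one]
      _ ≤ (((range L1).filter (fun a => a ≡ b [MOD W] ∧ a.Coprime L1)).card : ℝ) := by exact_mod_cast hcard
      _ ≤ _ := by
          rw [le_div_iff₀ (by positivity), htot]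
          have h1 : ((((range L1).filter (fun a => a ≡ b [MOD W] ∧ a.Coprime L1)).card : ℝ)) * W.totient = L1.totient := by
            exact_mod_cast hcl
          rw [← mul_assoc, h1]
          push_cast
          have h2 : (w : ℝ) ≤ ((p - 1 : ℕ) : ℝ) := by exact_mod_cast hpw
          rw [mul_comm]
          exact mul_le_mul_of_nonneg_right h2 (Nat.cast_nonneg _)
  · -- the square of a prime divides `q`
    obtain ⟨p, hp, hpq⟩ : ∃ p : ℕ, p.Prime ∧ p * p ∣ q := by
      rw [Nat.squarefree_iff_prime_squarefree] at hsq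
      push Not at hsq
      exact hsq
    obtain ⟨q2, rfl⟩ := hpq
    have hp0 : (p : ℝ) ≠ 0 := by exact_mod_cast hp.ne_zero
    have hq2 : 1 ≤ q2 := by
      rcases Nat.eq_zero_or_pos q2 with h | h
      · rw [h, mul_zero] at hq; omega
      · exact h
    have hq20 : (q2 : ℝ) ≠ 0 := by
      have : (0 : ℝ) < q2 := by exact_mod_cast hq2
      exact this.ne'
    have hcp : ¬ (p : ℤ) ∣ c := by
      intro h1
      have h2 : IsCoprime c (p : ℤ) := by
        push_cast at hc
        exact hc.of_mul_right_left.of_mul_right_left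
      have h3 : IsUnit (p : ℤ) := h2.isUnit_of_dvd' h1 dvd_rfl
      exact (Nat.prime_iff_prime_int.1 hp).not_isUnit h3
    obtain ⟨W1, s, hpW1, hs, hWs, hss⟩ : ∃ W1 s : ℕ, ¬ p ∣ W1 ∧ s = p * q2 * W1 ∧ W ∣ s ∧
        ∀ l : ℕ, l.Prime → l ∣ p * p * q2 * W → l ∣ s := by
      by_cases hpW : p ∣ W
      · obtain ⟨W1, rfl⟩ := hpW
        have hpW1 : ¬ p ∣ W1 := fun h => hp.prime.not_isUnit (hWsq p (Nat.mul_dvd_mul_left p h))
        refine ⟨W1, p * q2 * W1, hpW1, rfl, ⟨q2, by ring⟩, ?_⟩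
        intro l hl h
        have h1 : l ∣ (p * q2 * W1) * (p * p) := by
          refine dvd_trans h ⟨1, by ring⟩
        rcases (Nat.Prime.dvd_mul hl).1 h1 with h2 | h2
        · exact h2
        · have h3 : l ∣ p := by
            rcases (Nat.Prime.dvd_mul hl).1 h2 with h4 | h4 <;> exact h4
          exact h3.trans ⟨q2 * W1, by ring⟩
      · refine ⟨W, p * q2 * W, hpW, rfl, ⟨p * q2, by ring⟩, ?_⟩
        intro l hl h
        have h1 : l ∣ (p * q2 * W) * p := by
          refine dvd_trans h ⟨1, by ring⟩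
        rcases (Nat.Prime.dvd_mul hl).1 h1 with h2 | h2
        · exact h2
        · exact h2.trans ⟨q2 * W, by ring⟩
    have hpc : ¬ (p : ℤ) ∣ W1 * c := by
      intro h
      rcases Int.Prime.dvd_mul' hp h with h1 | h1
      · exact hpW1 (by exact_mod_cast h1)
      · exact hcp h1
    have hA := shift_zero (p * p * q2 * W) s hL (fun a => a ≡ b [MOD W] ∧ a.Coprime (p * p * q2 * W))
      (fun a => and_congr (modEq_mod W _ ⟨p * p * q2, by ring⟩ a b) (coprime_mod _ _ dvd_rfl a))
      (fun a => and_congr (modEq_shift W s hWs a b) (coprime_shift _ s hss a))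
      ((c : ℝ) / ((p * p * q2 : ℕ) : ℝ)) (W * c) hLx
      (ee_ne_one p (W1 * c) hpc _ (by rw [hs]; push_cast; field_simp))
    rw [hA, norm_zero]
    positivity

end Pool.Agent.H566
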