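import Mathlib
import Pool.Agent.H566.MGa

/-!
The exponential sum of the von Mangoldt function in a residue class modulo a primorial minus its mean value.
-/

set_option autoImplicit false

namespace Pool.Agent.H566

open Finset
open Pool.Agent.H807R2.Dav
open Pool.Agent.H373R2.T7

/-- the von Mangoldt function in the class of `b` modulo `W` minus its mean value -/
noncomputable def fW (W b n : ℕ) : ℝ :=
  if n ≡ b [MOD W] then ArithmeticFunction.vonMangoldt n - (W : ℝ) / W.totient else 0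

/-- the local mean values -/
noncomputable def vW (W q b a : ℕ) : ℝ :=
  if a ≡ b [MOD W] then (if a.Coprime (q * W) then 1 / ((q * W).totient : ℝ) else 0) - 1 / ((W.totient : ℝ) * q) else 0

/-- the main term at the fraction `c / q` -/
noncomputable def gW (W q b : ℕ) (c : ℤ) : ℂ := ∑ a ∈ range (q * W), ((vW W q b a : ℝ) : ℂ) * ee (a * ((c : ℝ) / q))

lemma gW_bound (W q w : ℕ) (hWsq : Squarefree W) (hq : 1 ≤ q) (hw1 : 1 ≤ w)
    (hw : ∀ p : ℕ, p.Prime → p ≤ w → p ∣ W) (c : ℤ) (hc : IsCoprime c (q : ℤ)) (b : ℕ) (hb : b.Coprime W) :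
    ‖gW W q b c‖ ≤ 1 / (W.totient * w) := by
  have hW : 0 < W := Nat.pos_of_ne_zero hWsq.ne_zero
  have hWt : (0 : ℝ) < W.totient := by exact_mod_cast Nat.totient_pos.2 hW
  have hw0 : (0 : ℝ) < w := by exact_mod_cast hw1
  have hL : 0 < q * W := Nat.mul_pos (by omega) hW
  have hLt : (0 : ℝ) < ((q * W).totient : ℝ) := by exact_mod_cast Nat.totient_pos.2 hL
  have hq0 : (0 : ℝ) < q := by exact_mod_cast hq
  by_cases hqW : q ∣ W
  · have h0 : ∀ a ∈ range (q * W), ((vW W q b a : ℝ) : ℂ) * ee (a * ((c : ℝ) / q)) = 0 := by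
      intro a _
      unfold vW
      split_ifs with h1 h2
      · have h3 : (q * W).totient = q * W.totient := by
          have h4 := Nat.totient_gcd_mul_totient_mul q W
          rw [Nat.gcd_eq_left hqW] at h4
          have h5 : 0 < q.totient := Nat.totient_pos.2 (by omega)
          have h6 : q.totient * (q * W).totient = q.totient * (q * W.totient) := by rw [h4]; ring
          exact Nat.eq_of_mul_eq_mul_left h5 h6
        rw [h3]
        push_cast
        rw [mul_comm (q : ℂ), sub_self, zero_mul]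
      · exfalso
        apply h2
        have h3 : a.Coprime W := by
          unfold Nat.Coprime
          rw [Nat.ModEq.gcd_eq h1]
          exact hb
        exact Nat.Coprime.mul_right (h3.coprime_dvd_right hqW) h3
      · simp
    unfold gW
    rw [sum_eq_zero h0, norm_zero]
    positivity
  · have hqWc : ¬ (q : ℤ) ∣ W * c := by
      intro h
      apply hqW
      have h1 : (q : ℤ) ∣ W := (hc.symm).dvd_of_dvd_mul_right h
      exact_mod_cast h1
    have hA := shift_zero (q * W) W hL (fun a => a ≡ b [MOD W])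
      (fun a => modEq_mod W _ ⟨q, by ring⟩ a b) (fun a => modEq_shift W W dvd_rfl a b)
      ((c : ℝ) / q) (W * c) (by push_cast; field_simp) (ee_ne_one q (W * c) hqWc _ (by push_cast; field_simp))
    have hB := unit_class_sum W q w hWsq hq hw1 hw c hc b hb hqW
    have h1 : gW W q b c = (1 / ((q * W).totient : ℂ)) *
        ∑ a ∈ (range (q * W)).filter (fun a => a ≡ b [MOD W] ∧ a.Coprime (q * W)), ee (a * ((c : ℝ) / q)) -
        (1 / ((W.totient : ℂ) * q)) * ∑ a ∈ (range (q * W)).filter (fun a => a ≡ b [MOD W]), ee (a * ((c : ℝ) / q)) := by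
      unfold gW
      rw [mul_sum, mul_sum, sum_filter, sum_filter, ← sum_sub_distrib]
      apply sum_congr rfl
      intro a _
      unfold vW
      by_cases h2 : a ≡ b [MOD W]
      · by_cases h3 : a.Coprime (q * W)
        · rw [if_pos h2, if_pos h3, if_pos ⟨h2, h3⟩, if_pos h2]
          push_cast
          ring
        · rw [if_pos h2, if_neg h3, if_neg (fun h => h3 h.2), if_pos h2]
          push_cast
          ring
      · rw [if_neg h2, if_neg (fun h => h2 h.1), if_neg h2]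
        push_cast
        ring
    rw [h1, hA, mul_zero, sub_zero, norm_mul]
    have h2 : ‖(1 / ((q * W).totient : ℂ))‖ = 1 / ((q * W).totient : ℝ) := by
      rw [norm_div, norm_one, Complex.norm_natCast]
    rw [h2]
    calc 1 / ((q * W).totient : ℝ) * _ ≤ 1 / ((q * W).totient : ℝ) * (((q * W).totient : ℝ) / (W.totient * w)) := by gcongr
      _ = _ := by field_simp

/-- splitting a twisted sum into residue classes -/
lemma class_split (f : ℕ → ℂ) (y L : ℕ) (hL : 0 < L) (x : ℝ) (k : ℤ) (hx : (L : ℝ) * x = k) :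
    ∑ n ∈ Icc 1 y, f n * ee (n * x) =
      ∑ a ∈ range L, (∑ n ∈ (Icc 1 y).filter (fun n => n ≡ a [MOD L]), f n) * ee (a * x) := by
  rw [← sum_fiberwise_of_maps_to (s := Icc 1 y) (t := range L)
    (g := fun n => n % L) (fun n _ => mem_range.2 (Nat.mod_lt _ hL))]
  apply sum_congr rfl
  intro c hc
  rw [mem_range] at hc
  rw [sum_mul]
  have h2 : (Icc 1 y).filter (fun n => n % L = c) = (Icc 1 y).filter (fun n => n ≡ c [MOD L]) := by
    apply filter_congr
    intro n _
    unfold Nat.ModEq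
    rw [Nat.mod_eq_of_lt hc]
  rw [h2]
  apply sum_congr rfl
  intro n hn
  rw [mem_filter] at hn
  have h3 : n % L = c := by
    have h4 := hn.2
    unfold Nat.ModEq at h4
    rwa [Nat.mod_eq_of_lt hc] at h4
  obtain ⟨t, ht⟩ : ∃ t : ℕ, n = c + L * t := by
    have h6 := Nat.mod_add_div n L
    rw [h3] at h6
    exact ⟨_, h6.symm⟩
  congr 1
  have h6 : (n : ℝ) * x = c * x + (((t : ℤ) * k : ℤ) : ℝ) := by
    calc (n : ℝ) * x = c * x + (t : ℝ) * (L * x) := by rw [ht]; push_cast; ring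
      _ = _ := by rw [hx]; push_cast; ring
  rw [h6, ee_add_int]

/-- the number of the members of a class -/
lemma count_class (y a L : ℕ) (hL : 0 < L) :
    |((((Icc 1 y).filter (fun n => n ≡ a [MOD L])).card : ℕ) : ℝ) - (y : ℝ) / L| ≤ 1 := by
  have h1 : Icc 1 y = Ioc 0 y := by ext; simp [Nat.lt_iff_add_one_le]
  rw [h1]
  have h2 := Nat.Ioc_filter_modEq_card 0 y hL a
  have hL0 : (0 : ℝ) < L := by exact_mod_cast hL
  have h3 : ((((Ioc 0 y).filter (fun n => n ≡ a [MOD L])).card : ℕ) : ℝ) =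
      (((max (⌊(((y : ℕ) : ℚ) - a) / L⌋ - ⌊(((0 : ℕ) : ℚ) - a) / L⌋) 0 : ℤ)) : ℝ) := by
    exact_mod_cast h2
  rw [h3]
  have h4 : (⌊(((0 : ℕ) : ℚ) - a) / L⌋ : ℤ) ≤ ⌊(((y : ℕ) : ℚ) - a) / L⌋ := by
    apply Int.floor_le_floor
    gcongr
    exact Nat.zero_le _
  rw [max_eq_left (by linarith)]
  push_cast
  have a1 := Int.floor_le ((((y : ℕ) : ℚ) - a) / L)
  have a2 := Int.lt_floor_add_one ((((y : ℕ) : ℚ) - a) / L)
  have a3 := Int.floor_le ((((0 : ℕ) : ℚ) - a) / L)
  have a4 := Int.lt_floor_add_one ((((0 : ℕ) : ℚ) - a) / L)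
  have b1 : ((⌊(((y : ℕ) : ℚ) - a) / L⌋ : ℤ) : ℝ) ≤ ((y : ℝ) - a) / L := by exact_mod_cast a1
  have b2 : ((y : ℝ) - a) / L < ((⌊(((y : ℕ) : ℚ) - a) / L⌋ : ℤ) : ℝ) + 1 := by exact_mod_cast a2
  have b3 : ((⌊(((0 : ℕ) : ℚ) - a) / L⌋ : ℤ) : ℝ) ≤ ((0 : ℝ) - a) / L := by exact_mod_cast a3
  have b4 : ((0 : ℝ) - a) / L < ((⌊(((0 : ℕ) : ℚ) - a) / L⌋ : ℤ) : ℝ) + 1 := by exact_mod_cast a4
  have b5 : (y : ℝ) / L = ((y : ℝ) - a) / L - ((0 : ℝ) - a) / L := by ring
  rw [b5, abs_le]
  push_cast at b1 b2 b3 b4 ⊢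
  constructor <;> linarith

end Pool.Agent.H566
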