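import Mathlib
import Pool.Agent.H566.MGb

/-!
The exponential sum of the von Mangoldt function in a residue class modulo a primorial minus its mean value:
major and minor arcs.
-/

set_option autoImplicit false

namespace Pool.Agent.H566

open Finset
open Pool.Agent.H807R2.Dav
open Pool.Agent.H373R2.T7

lemma major_sum (W b q N : ℕ) (hW : 0 < W) (hq : 1 ≤ q) (c : ℤ) (δ : ℝ)
    (hap : ∀ a y : ℕ, y ≤ N → |∑ n ∈ (Icc 1 y).filter (fun n => n ≡ a [MOD q * W]), ArithmeticFunction.vonMangoldt n -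
      (if a.Coprime (q * W) then (y : ℝ) / ((q * W).totient : ℝ) else 0)| ≤ δ) (y : ℕ) (hy : y ≤ N) :
    ‖∑ n ∈ Icc 1 y, ((fW W b n : ℝ) : ℂ) * ee (n * ((c : ℝ) / q)) - gW W q b c * y‖ ≤ (q * W) * (δ + W) := by
  have hL : 0 < q * W := Nat.mul_pos (by omega) hW
  have hq0 : (0 : ℝ) < q := by exact_mod_cast hq
  have hW0 : (0 : ℝ) < W := by exact_mod_cast hW
  have hWt : (0 : ℝ) < W.totient := by exact_mod_cast Nat.totient_pos.2 hW
  have hWt1 : (1 : ℝ) ≤ W.totient := by exact_mod_cast Nat.totient_pos.2 hW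
  rw [class_split (fun n => ((fW W b n : ℝ) : ℂ)) y (q * W) hL ((c : ℝ) / q) (W * c) (by push_cast; field_simp)]
  unfold gW
  rw [sum_mul, ← sum_sub_distrib]
  refine (norm_sum_le _ _).trans ?_
  have key : ∀ a ∈ range (q * W), ‖(∑ n ∈ (Icc 1 y).filter (fun n => n ≡ a [MOD q * W]), ((fW W b n : ℝ) : ℂ)) * ee (a * ((c : ℝ) / q)) -
      ((vW W q b a : ℝ) : ℂ) * ee (a * ((c : ℝ) / q)) * y‖ ≤ δ + W := by
    intro a _
    have hδ : 0 ≤ δ := (abs_nonneg _).trans (hap a y hy)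
    have e1 : (∑ n ∈ (Icc 1 y).filter (fun n => n ≡ a [MOD q * W]), ((fW W b n : ℝ) : ℂ)) * ee (a * ((c : ℝ) / q)) -
      ((vW W q b a : ℝ) : ℂ) * ee (a * ((c : ℝ) / q)) * y =
      (((∑ n ∈ (Icc 1 y).filter (fun n => n ≡ a [MOD q * W]), fW W b n) - vW W q b a * y : ℝ) : ℂ) * ee (a * ((c : ℝ) / q)) := by
      push_cast
      ring
    rw [e1, norm_mul, norm_ee, mul_one, Complex.norm_real, Real.norm_eq_abs]
    have hmod : ∀ n ∈ (Icc 1 y).filter (fun n => n ≡ a [MOD q * W]), (n ≡ b [MOD W] ↔ a ≡ b [MOD W]) := by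
      intro n hn
      have h1 : n ≡ a [MOD W] := (mem_filter.1 hn).2.of_dvd ⟨q, by ring⟩
      exact ⟨fun h => h1.symm.trans h, fun h => h1.trans h⟩
    by_cases hab : a ≡ b [MOD W]
    · have h1 : ∑ n ∈ (Icc 1 y).filter (fun n => n ≡ a [MOD q * W]), fW W b n =
          ∑ n ∈ (Icc 1 y).filter (fun n => n ≡ a [MOD q * W]), ArithmeticFunction.vonMangoldt n -
            (((Icc 1 y).filter (fun n => n ≡ a [MOD q * W])).card : ℝ) * ((W : ℝ) / W.totient) := by
        rw [← nsmul_eq_mul, ← sum_const, ← sum_sub_distrib]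
        apply sum_congr rfl
        intro n hn
        unfold fW
        rw [if_pos ((hmod n hn).2 hab)]
      rw [h1]
      unfold vW
      rw [if_pos hab]
      have h2 := hap a y hy
      have h3 := count_class y a (q * W) hL
      have h4 : ((if a.Coprime (q * W) then 1 / ((q * W).totient : ℝ) else 0) - 1 / ((W.totient : ℝ) * q)) * y =
          (if a.Coprime (q * W) then (y : ℝ) / ((q * W).totient : ℝ) else 0) - ((y : ℝ) / ((q * W : ℕ) : ℝ)) * ((W : ℝ) / W.totient) := by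
        split_ifs
        · push_cast; field_simp
        · push_cast; field_simp; ring
      rw [h4]
      have h5 : (W : ℝ) / W.totient ≤ W := div_le_self hW0.le hWt1
      have h6 : (0 : ℝ) ≤ (W : ℝ) / W.totient := by positivity
      calc |_| = |(∑ n ∈ (Icc 1 y).filter (fun n => n ≡ a [MOD q * W]), ArithmeticFunction.vonMangoldt n -
            (if a.Coprime (q * W) then (y : ℝ) / ((q * W).totient : ℝ) else 0)) -
            (((((Icc 1 y).filter (fun n => n ≡ a [MOD q * W])).card : ℕ) : ℝ) - (y : ℝ) / ((q * W : ℕ) : ℝ)) * ((W : ℝ) / W.totient)| := by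
              congr 1; ring
        _ ≤ _ := (abs_sub _ _).trans (add_le_add h2 (by
              rw [abs_mul, abs_of_nonneg h6]
              calc _ ≤ 1 * ((W : ℝ) / W.totient) := by gcongr
                _ ≤ W := by linarith))
    · have h1 : ∑ n ∈ (Icc 1 y).filter (fun n => n ≡ a [MOD q * W]), fW W b n = 0 := by
        apply sum_eq_zero
        intro n hn
        unfold fW
        rw [if_neg (fun h => hab ((hmod n hn).1 h))]
      rw [h1]
      unfold vW
      rw [if_neg hab]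
      simp only [zero_mul, sub_zero, abs_zero]
      positivity
  refine (sum_le_sum key).trans (le_of_eq ?_)
  rw [sum_const, card_range, nsmul_eq_mul]
  push_cast
  ring

/-- from the partial sums to all intervals -/
lemma interval_of_partial (F : ℕ → ℂ) (δ : ℝ) (γ : ℝ) (N y1 y2 : ℕ) (h12 : y1 ≤ y2) (h2 : y2 ≤ N)
    (h : ∀ y : ℕ, y ≤ N → ‖∑ n ∈ Icc 1 y, F n‖ ≤ δ) :
    ‖∑ n ∈ Ioc y1 y2, F n * ee (n * γ)‖ ≤ 2 * (δ * (1 + N * ‖ee γ - 1‖)) := by
  have hδ : 0 ≤ δ := (norm_nonneg _).trans (h 0 (by omega))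
  have h3 : ∀ y : ℕ, y ≤ N → ‖∑ n ∈ Icc 1 y, F n * ee (n * γ)‖ ≤ δ * (1 + N * ‖ee γ - 1‖) := by
    intro y hy
    refine (abel_ee F γ δ y (fun z hz => h z (hz.trans hy))).trans ?_
    have : (y : ℝ) ≤ N := by exact_mod_cast hy
    gcongr
  have h4 : ∑ n ∈ Ioc y1 y2, F n * ee (n * γ) = ∑ n ∈ Icc 1 y2, F n * ee (n * γ) - ∑ n ∈ Icc 1 y1, F n * ee (n * γ) := by
    rw [eq_sub_iff_add_eq]
    have e1 : Icc 1 y2 = Ioc 0 y2 := by ext; simp [Nat.lt_iff_add_one_le]
    have e2 : Icc 1 y1 = Ioc 0 y1 := by ext; simp [Nat.lt_iff_add_one_le]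
    rw [e1, e2, add_comm, sum_Ioc_consecutive _ (Nat.zero_le _) h12]
  rw [h4]
  refine (norm_sub_le _ _).trans ?_
  have a1 := h3 y2 h2
  have a2 := h3 y1 (h12.trans h2)
  linarith

end Pool.Agent.H566
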