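import Mathlib
import Pool.Agent.H566.MGc

/-!
The exponential sum of the von Mangoldt function in a residue class modulo a primorial minus its mean value:
the theorem.
-/

set_option autoImplicit false

namespace Pool.Agent.H566

open Finset
open Pool.Agent.H807R2.Dav
open Pool.Agent.H373R2.T7

lemma ee_orth' (d : ℕ) (hd : 0 < d) (j : ℤ) :
    ∑ b ∈ range d, ee (j * ((b : ℝ) / d)) = if (d : ℤ) ∣ j then (d : ℂ) else 0 := by
  have hd0 : (d : ℝ) ≠ 0 := by exact_mod_cast hd.ne'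
  have h1 : ∀ b ∈ range d, ee (j * ((b : ℝ) / d)) = ee ((j : ℝ) / d) ^ b := by
    intro b _
    rw [← ee_pow]
    congr 1
    ring
  rw [sum_congr rfl h1]
  split_ifs with h
  · obtain ⟨k, rfl⟩ := h
    have h2 : ee ((((d : ℤ) * k : ℤ) : ℝ) / d) = 1 := by
      have : (((d : ℤ) * k : ℤ) : ℝ) / d = (k : ℝ) := by push_cast; field_simp
      rw [this, ee_int]
    rw [h2]
    simp
  · have hne : ee ((j : ℝ) / d) ≠ 1 := ee_ne_one d j h _ (by field_simp)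
    rw [geom_sum_eq hne]
    have h3 : ee ((j : ℝ) / d) ^ d = 1 := by
      rw [← ee_pow]
      have : (d : ℝ) * ((j : ℝ) / d) = (j : ℝ) := by field_simp
      rw [this, ee_int]
    rw [h3, sub_self, zero_div]

lemma ind_expand (W b n : ℕ) (hW : 0 < W) :
    (if n ≡ b [MOD W] then (1 : ℂ) else 0) = (1 / (W : ℂ)) * ∑ j ∈ range W, ee ((((n : ℤ) - b : ℤ) : ℝ) * ((j : ℝ) / W)) := by
  have hW0 : (W : ℂ) ≠ 0 := by exact_mod_cast hW.ne'
  rw [ee_orth' W hW]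
  have h : n ≡ b [MOD W] ↔ (W : ℤ) ∣ ((n : ℤ) - b) := by
    constructor
    · intro h
      exact (Nat.modEq_iff_dvd.1 h.symm)
    · intro h
      exact (Nat.modEq_iff_dvd.2 h).symm
  by_cases h1 : n ≡ b [MOD W]
  · rw [if_pos h1, if_pos (h.1 h1)]
    field_simp
  · rw [if_neg h1, if_neg (fun h2 => h1 (h.2 h2)), mul_zero]

lemma minor_expand (W b y : ℕ) (hW : 0 < W) (α : ℝ) :
    ∑ n ∈ Icc 1 y, ((fW W b n : ℝ) : ℂ) * ee (n * α) = (1 / (W : ℂ)) * ∑ j ∈ range W, ee (-((b : ℝ) * ((j : ℝ) / W))) *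
      (∑ n ∈ Icc 1 y, ((ArithmeticFunction.vonMangoldt n : ℝ) : ℂ) * ee (n * (α + (j : ℝ) / W)) -
        ((W : ℂ) / W.totient) * ∑ n ∈ Icc 1 y, ee (n * (α + (j : ℝ) / W))) := by
  have h1 : ∀ n ∈ Icc 1 y, ((fW W b n : ℝ) : ℂ) * ee (n * α) =
      ∑ j ∈ range W, (1 / (W : ℂ)) * (ee (-((b : ℝ) * ((j : ℝ) / W))) *
        (((ArithmeticFunction.vonMangoldt n : ℝ) : ℂ) * ee (n * (α + (j : ℝ) / W)) -
          ((W : ℂ) / W.totient) * ee (n * (α + (j : ℝ) / W)))) := by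
    intro n _
    have h2 : ((fW W b n : ℝ) : ℂ) = (((ArithmeticFunction.vonMangoldt n : ℝ) : ℂ) - (W : ℂ) / W.totient) *
        (if n ≡ b [MOD W] then (1 : ℂ) else 0) := by
      unfold fW
      split_ifs
      · push_cast; ring
      · push_cast; ring
    rw [h2, ind_expand W b n hW, mul_sum, mul_sum, sum_mul]
    apply sum_congr rfl
    intro j _
    have h3 : ee ((((n : ℤ) - b : ℤ) : ℝ) * ((j : ℝ) / W)) = ee (-((b : ℝ) * ((j : ℝ) / W))) * ee (n * ((j : ℝ) / W)) := by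
      rw [← ee_add]
      congr 1
      push_cast
      ring
    have h4 : ee (n * (α + (j : ℝ) / W)) = ee (n * ((j : ℝ) / W)) * ee (n * α) := by
      rw [← ee_add]
      congr 1
      ring
    rw [h3, h4]
    ring
  rw [sum_congr rfl h1, sum_comm, mul_sum]
  apply sum_congr rfl
  intro j _
  rw [← mul_sum, ← mul_sum, sum_sub_distrib, mul_sum]

lemma norm_minor_expand (W b y : ℕ) (hW : 0 < W) (α δ : ℝ)
    (h : ∀ j ∈ range W, ‖∑ n ∈ Icc 1 y, ((ArithmeticFunction.vonMangoldt n : ℝ) : ℂ) * ee (n * (α + (j : ℝ) / W)) -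
        ((W : ℂ) / W.totient) * ∑ n ∈ Icc 1 y, ee (n * (α + (j : ℝ) / W))‖ ≤ δ) :
    ‖∑ n ∈ Icc 1 y, ((fW W b n : ℝ) : ℂ) * ee (n * α)‖ ≤ δ := by
  have hW0 : (0 : ℝ) < W := by exact_mod_cast hW
  rw [minor_expand W b y hW, norm_mul]
  have h1 : ‖(1 / (W : ℂ))‖ = 1 / (W : ℝ) := by rw [norm_div, norm_one, Complex.norm_natCast]
  rw [h1]
  have h2 : ‖∑ j ∈ range W, ee (-((b : ℝ) * ((j : ℝ) / W))) *
      (∑ n ∈ Icc 1 y, ((ArithmeticFunction.vonMangoldt n : ℝ) : ℂ) * ee (n * (α + (j : ℝ) / W)) -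
        ((W : ℂ) / W.totient) * ∑ n ∈ Icc 1 y, ee (n * (α + (j : ℝ) / W)))‖ ≤ W * δ := by
    refine (norm_sum_le _ _).trans ?_
    calc _ ≤ ∑ j ∈ range W, δ := sum_le_sum fun j hj => by
          rw [norm_mul, norm_ee, one_mul]; exact h j hj
      _ = W * δ := by rw [sum_const, card_range, nsmul_eq_mul]
  calc 1 / (W : ℝ) * _ ≤ 1 / (W : ℝ) * (W * δ) := by gcongr
    _ = δ := by field_simp

end Pool.Agent.H566
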