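import Mathlib
import Pool.Agent.H566.MGd
import Pool.Agent.H566.Circle

/-!
The exponential sum of the von Mangoldt function in a residue class modulo a primorial minus its mean value:
the theorem.
-/

set_option autoImplicit false

namespace Pool.Agent.H566

open Finset
open Pool.Agent.H807R2.Dav
open Pool.Agent.H373R2.T7

/-- minor arcs, all initial sums -/
lemma minor_all (U : ℕ) : ∃ B N0 : ℕ, ∀ N : ℕ, N0 ≤ N → ∀ q : ℕ, Real.log N ^ B ≤ q → (q : ℝ) ≤ N / Real.log N ^ B →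
    ∀ c : ℤ, IsCoprime c (q : ℤ) → ∀ α : ℝ, |α - c / q| ≤ 1 / (q : ℝ) ^ 2 → ∀ y : ℕ, y ≤ N →
    ‖∑ n ∈ Icc 1 y, ((ArithmeticFunction.vonMangoldt n : ℝ) : ℂ) * ee ((n : ℝ) * α)‖ ≤ N / Real.log N ^ U := by
  obtain ⟨B1, m1, hmin⟩ := minor_primes (U + 1)
  obtain ⟨n1, h1⟩ := ev_log' (U + 1) 1
  obtain ⟨n2, h2⟩ := ev_L' (2 ^ (U + 1) + 6)
  refine ⟨B1 + U + 1, max (m1 ^ 2) (max n1 (max n2 4)), fun N hN q hq1 hq2 c hc α hα y hy => ?_⟩
  have hm1 : m1 ^ 2 ≤ N := le_trans (le_max_left _ _) hN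
  have a1 := h1 N (le_trans (le_trans (le_max_left _ _) (le_max_right _ _)) hN)
  have hL := h2 N (le_trans (le_trans (le_trans (le_max_left _ _) (le_max_right _ _)) (le_max_right _ _)) hN)
  have hN4 : 4 ≤ N := le_trans (le_trans (le_trans (le_max_right _ _) (le_max_right _ _)) (le_max_right _ _)) hN
  have hNr : (4 : ℝ) ≤ N := by exact_mod_cast hN4
  have hN0 : (0 : ℝ) < N := by linarith
  set L := Real.log N with hLd
  have hp : (0 : ℝ) < 2 ^ (U + 1) := by positivity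
  have hL0 : 0 < L := by linarith
  have hL1 : 1 ≤ L := by linarith
  rcases lt_or_ge (y : ℝ) (N / L ^ (U + 1)) with hy1 | hy1
  · have h3 : ‖∑ n ∈ Icc 1 y, ((ArithmeticFunction.vonMangoldt n : ℝ) : ℂ) * ee ((n : ℝ) * α)‖ ≤ lam1 y := by
      unfold lam1
      refine (norm_sum_le _ _).trans (sum_le_sum fun n _ => ?_)
      rw [norm_mul, norm_ee, mul_one, Complex.norm_real, Real.norm_eq_abs,
        abs_of_nonneg ArithmeticFunction.vonMangoldt_nonneg]
    calc _ ≤ lam1 y := h3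
      _ ≤ 6 * y := lam1_le y
      _ ≤ 6 * (N / L ^ (U + 1)) := by linarith
      _ = (6 / L) * (N / L ^ U) := by rw [pow_succ]; field_simp
      _ ≤ 1 * (N / L ^ U) := by
          apply mul_le_mul_of_nonneg_right _ (by positivity)
          rw [div_le_one hL0]; linarith
      _ = _ := one_mul _
  · have hLU : 0 < L ^ (U + 1) := by positivity
    rw [one_mul] at a1
    have hs0 : 0 < √(N : ℝ) := Real.sqrt_pos.2 hN0
    have hss : √(N : ℝ) * √(N : ℝ) = N := Real.mul_self_sqrt hN0.le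
    have hys : √(N : ℝ) ≤ y := by
      refine le_trans ?_ hy1
      rw [le_div_iff₀ hLU]
      calc √(N : ℝ) * L ^ (U + 1) ≤ √(N : ℝ) * √(N : ℝ) := by gcongr
        _ = N := hss
    have hy0 : (0 : ℝ) < y := lt_of_lt_of_le hs0 hys
    have hym : m1 ≤ y := by
      have h3 : (m1 : ℝ) ≤ √(N : ℝ) := by
        apply Real.le_sqrt_of_sq_le
        exact_mod_cast hm1
      exact_mod_cast h3.trans hys
    have hyN : (y : ℝ) ≤ N := by exact_mod_cast hy
    have hly : Real.log y ≤ L := Real.log_le_log hy0 hyN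
    have hly2 : L / 2 ≤ Real.log y := by
      have := Real.log_le_log hs0 hys
      rwa [Real.log_sqrt hN0.le] at this
    have hly0 : 0 < Real.log y := by linarith
    have hlyB : Real.log y ^ B1 ≤ L ^ B1 := by gcongr
    have hLB : L ^ B1 ≤ L ^ (B1 + U + 1) := pow_le_pow_right₀ hL1 (by omega)
    have h4 := hmin y hym q (hlyB.trans (hLB.trans hq1)) (by
      refine hq2.trans ?_
      rw [div_le_div_iff₀ (by positivity) (by positivity)]
      have h5 : (N : ℝ) ≤ y * L ^ (U + 1) := by rwa [div_le_iff₀ hLU] at hy1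
      calc (N : ℝ) * Real.log y ^ B1 ≤ (y * L ^ (U + 1)) * L ^ B1 := by gcongr
        _ = y * L ^ (B1 + U + 1) := by
            have e : L ^ (B1 + U + 1) = L ^ (U + 1) * L ^ B1 := by rw [← pow_add]; congr 1; ring
            rw [e]; ring) c hc α hα
    refine h4.trans ?_
    calc (y : ℝ) / Real.log y ^ (U + 1) ≤ N / (L / 2) ^ (U + 1) := by gcongr
      _ = (2 ^ (U + 1) / L) * (N / L ^ U) := by rw [div_pow, pow_succ L]; field_simp
      _ ≤ 1 * (N / L ^ U) := by
          apply mul_le_mul_of_nonneg_right _ (by positivity)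
          rw [div_le_one hL0]; linarith
      _ = _ := one_mul _

/-- the linear exponential sum away from the integers -/
lemma smooth_minor (q : ℕ) (hq : 2 ≤ q) (c : ℤ) (hc : IsCoprime c (q : ℤ)) (α : ℝ)
    (hα : |α - c / q| ≤ 1 / (7 * (q : ℝ))) (y : ℕ) : ‖∑ n ∈ Icc 1 y, ee ((n : ℝ) * α)‖ ≤ q := by
  have hq0 : (0 : ℝ) < q := by exact_mod_cast (by omega : 0 < q)
  have h1 : 4 / (q : ℝ) ≤ dd ((c : ℝ) / q) := by
    obtain ⟨k, r, hkr, hr0, hr1⟩ : ∃ (k : ℤ) (r : ℤ), c = q * k + r ∧ 0 < r ∧ r < q := by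
      refine ⟨c / q, c % q, (Int.mul_ediv_add_emod c q).symm, ?_, Int.emod_lt_of_pos _ (by omega)⟩
      rcases (Int.emod_nonneg c (by omega : (q : ℤ) ≠ 0)).lt_or_eq with h | h
      · exact h
      · exfalso
        have h2 : (q : ℤ) ∣ c := Int.dvd_of_emod_eq_zero h.symm
        have h3 : IsUnit (q : ℤ) := hc.isUnit_of_dvd' h2 dvd_rfl
        have h4 := Int.isUnit_iff.1 h3
        omega
    have h2 : (c : ℝ) / q = (r : ℝ) / q + (k : ℤ) := by
      rw [hkr]; push_cast; field_simp; ring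
    rw [h2, dd_add_int]
    have hr0' : (1 : ℝ) ≤ r := by exact_mod_cast hr0
    have hr1' : (r : ℝ) ≤ q - 1 := by
      have : r ≤ q - 1 := by omega
      exact_mod_cast this
    have h3 := dd_ge (t := (r : ℝ) / q) (by positivity) (by rw [div_le_one hq0]; linarith)
    refine le_trans ?_ h3
    have h4 : 1 / (q : ℝ) ≤ min ((r : ℝ) / q) (1 - (r : ℝ) / q) := by
      rw [le_min_iff]
      constructor
      · gcongr
      · rw [le_sub_iff_add_le, ← add_div, div_le_one hq0]; linarith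
    calc 4 / (q : ℝ) = 4 * (1 / q) := by ring
      _ ≤ _ := by gcongr
  have h2 : 3 / (q : ℝ) ≤ dd α := by
    have h3 := dd_add_ge ((c : ℝ) / q) (α - c / q)
    rw [add_sub_cancel] at h3
    have hpi := Real.pi_lt_d2
    have hpi0 := Real.pi_pos
    have h4 : 2 * Real.pi * |α - c / q| ≤ 2 * 3.15 * (1 / (7 * (q : ℝ))) := by gcongr
    have h5 : 2 * 3.15 * (1 / (7 * (q : ℝ))) ≤ 1 / q := by
      rw [show 2 * 3.15 * (1 / (7 * (q : ℝ))) = (0.9) * (1 / q) by field_simp; norm_num]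
      have : 0 < 1 / (q : ℝ) := by positivity
      linarith
    have h6 : 4 / (q : ℝ) = 3 / q + 1 / q := by ring
    linarith
  have h3 := geo_bound 1 (y + 1) (by omega) (M := y) (by push_cast; linarith) α
  have h4 : Ico 1 (y + 1) = Icc 1 y := by ext; simp
  rw [h4] at h3
  refine h3.trans ((KK_le' (Nat.cast_nonneg y) (by positivity) h2).trans (le_of_eq ?_))
  field_simp

/-- reducing a fraction -/
lemma reduce_frac (n : ℤ) (D : ℕ) (hD : 0 < D) : ∃ (c : ℤ) (q : ℕ), 1 ≤ q ∧ q ∣ D ∧ IsCoprime c (q : ℤ) ∧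
    (n : ℝ) / D = (c : ℝ) / q := by
  obtain ⟨r, hr⟩ : ∃ r : ℚ, r = Rat.divInt n (D : ℤ) := ⟨_, rfl⟩
  refine ⟨r.num, r.den, r.den_pos, ?_, ?_, ?_⟩
  · have h := Rat.den_dvd n (D : ℤ)
    rw [← hr] at h
    exact_mod_cast h
  · exact Int.isCoprime_iff_gcd_eq_one.2 (by simpa [Int.gcd, Int.natAbs_natCast] using r.reduced)
  · have h1 : (r : ℝ) = r.num / r.den := by
      exact_mod_cast (Rat.num_div_den r).symm
    rw [← h1, hr, Rat.divInt_eq_div]
    push_cast
    ring

/-- the exponential sum of the von Mangoldt function in a class modulo a primorial -/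
theorem tw_sup (w W : ℕ) (hWsq : Squarefree W) (hw1 : 1 ≤ w) (hw : ∀ p : ℕ, p.Prime → p ≤ w → p ∣ W) (U : ℕ) :
    ∃ N0 : ℕ, ∀ N : ℕ, N0 ≤ N → ∀ b : ℕ, b.Coprime W → ∀ y1 y2 : ℕ, y1 ≤ y2 → y2 ≤ N → ∀ α : ℝ,
      ‖∑ n ∈ Ioc y1 y2, ((fW W b n : ℝ) : ℂ) * ee (n * α)‖ ≤
        ((y2 : ℝ) - y1) / (W.totient * w) + N / Real.log N ^ U := by
  have hW : 0 < W := Nat.pos_of_ne_zero hWsq.ne_zero
  have hW0 : (0 : ℝ) < W := by exact_mod_cast hW
  have hWt : (0 : ℝ) < W.totient := by exact_mod_cast Nat.totient_pos.2 hW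
  have hWt1 : (1 : ℝ) ≤ W.totient := by exact_mod_cast Nat.totient_pos.2 hW
  have hw0 : (0 : ℝ) < w := by exact_mod_cast hw1
  obtain ⟨B1, m1, hmin⟩ := minor_all (U + 2)
  obtain ⟨B, hB⟩ : ∃ B, B = B1 + U + 3 := ⟨_, rfl⟩
  obtain ⟨m2, hap⟩ := lam_ap (B + 1) (2 * B + U + 2)
  obtain ⟨n1, h1⟩ := ev_log' (2 * B + U + 2) 10
  obtain ⟨n2, h2⟩ := ev_L' (100 + 3 * W ^ 2)
  refine ⟨max (max m1 m2) (max n1 (max n2 (W ^ 2 + 4))), fun N hN b hb y1 y2 h12 hy2 α => ?_⟩
  have hm1 : m1 ≤ N := le_trans (le_trans (le_max_left _ _) (le_max_left _ _)) hN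
  have hm2 : m2 ≤ N := le_trans (le_trans (le_max_right _ _) (le_max_left _ _)) hN
  have a1 := h1 N (le_trans (le_trans (le_max_left _ _) (le_max_right _ _)) hN)
  have hL := h2 N (le_trans (le_trans (le_trans (le_max_left _ _) (le_max_right _ _)) (le_max_right _ _)) hN)
  have hNW : W ^ 2 + 4 ≤ N := le_trans (le_trans (le_trans (le_max_right _ _) (le_max_right _ _)) (le_max_right _ _)) hN
  have hNWr : (W : ℝ) ^ 2 + 4 ≤ N := by exact_mod_cast hNW
  have hN4 : (4 : ℝ) ≤ N := by nlinarith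
  have hN0 : (0 : ℝ) < N := by linarith
  set L := Real.log N with hLd
  have hW2 : (0 : ℝ) ≤ (W : ℝ) ^ 2 := by positivity
  have hL0 : 0 < L := by linarith
  have hL1 : 1 ≤ L := by linarith
  have hs0 : 0 < √(N : ℝ) := Real.sqrt_pos.2 hN0
  have hss : √(N : ℝ) * √(N : ℝ) = N := Real.mul_self_sqrt hN0.le
  have hsN : √(N : ℝ) ≤ N := by
    rw [Real.sqrt_le_left (by positivity)]; nlinarith
  have hbig : 10 * L ^ (2 * B + U + 2) ≤ N := a1.trans hsN
  have hLBle : L ^ B ≤ L ^ (2 * B + U + 2) := pow_le_pow_right₀ hL1 (by omega)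
  have hLB0 : 0 < L ^ B := by positivity
  have hLB1 : 1 ≤ L ^ B := one_le_pow₀ hL1
  have hNLB : 10 ≤ (N : ℝ) / L ^ B := by rw [le_div_iff₀ hLB0]; linarith
  set Q : ℕ := ⌊(N : ℝ) / L ^ B⌋₊ with hQ
  have hQle : (Q : ℝ) ≤ N / L ^ B := Nat.floor_le (by positivity)
  have hQlt : (N : ℝ) / L ^ B < Q + 1 := Nat.lt_floor_add_one _
  have hQ1 : 1 ≤ Q := by
    have : (1 : ℝ) < (Q : ℝ) + 1 := by linarith
    have : (0 : ℝ) < Q := by linarith
    exact_mod_cast this
  have hW1 : (W : ℝ) ≤ L := by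
    have : (1 : ℝ) ≤ W := by exact_mod_cast hW
    nlinarith
  choose q c hq1 hqQ hqc hcop using fun j : ℕ => dirichlet (α + (j : ℝ) / W) Q hQ1
  have hpart : (0 : ℝ) ≤ ((y2 : ℝ) - y1) / (W.totient * w) := by
    have : (y1 : ℝ) ≤ y2 := by exact_mod_cast h12
    have : 0 ≤ (y2 : ℝ) - y1 := by linarith
    positivity
  have hclose : ∀ j : ℕ, |(α + (j : ℝ) / W) - (c j : ℝ) / q j| ≤ 1 / (((Q : ℝ) + 1) * q j) := by
    intro j
    have hq0 : (0 : ℝ) < q j := by exact_mod_cast hq1 j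
    have h3 : (α + (j : ℝ) / W) - (c j : ℝ) / q j = ((α + (j : ℝ) / W) * q j - c j) / q j := by field_simp
    rw [h3, abs_div, abs_of_pos hq0, div_le_iff₀ hq0]
    refine (hqc j).trans (le_of_eq ?_)
    field_simp
  by_cases hcase : ∀ j ∈ range W, L ^ B ≤ q j
  · -- minor arcs
    have hy : ∀ y : ℕ, y ≤ N → ‖∑ n ∈ Icc 1 y, ((fW W b n : ℝ) : ℂ) * ee (n * α)‖ ≤ 2 * (N / L ^ (U + 2)) := by
      intro y hyN
      apply norm_minor_expand W b y hW
      intro j hj
      have hq0 : (0 : ℝ) < q j := by exact_mod_cast hq1 j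
      have hqb := hcase j hj
      have hqQ' : (q j : ℝ) ≤ Q := by exact_mod_cast hqQ j
      have hLB1' : L ^ B1 ≤ L ^ B := pow_le_pow_right₀ hL1 (by omega)
      have e1 := hmin N hm1 (q j) (hLB1'.trans hqb) ((hqQ'.trans hQle).trans
        (div_le_div_of_nonneg_left hN0.le (by positivity) hLB1')) (c j) (hcop j) (α + (j : ℝ) / W) (by
          refine (hclose j).trans ?_
          rw [pow_two]
          apply one_div_le_one_div_of_le (by positivity)
          apply mul_le_mul_of_nonneg_right _ hq0.le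
          linarith) y hyN
      have hq7 : (100 : ℝ) ≤ q j := by
        have : L ≤ L ^ B := le_self_pow₀ hL1 (by omega)
        linarith
      have e2 := smooth_minor (q j) (by
        have : (2 : ℝ) ≤ q j := by linarith
        exact_mod_cast this) (c j) (hcop j) (α + (j : ℝ) / W) (by
          refine (hclose j).trans ?_
          apply one_div_le_one_div_of_le (by positivity)
          apply mul_le_mul_of_nonneg_right _ hq0.le
          linarith) y
      refine (norm_sub_le _ _).trans ?_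
      rw [norm_mul]
      have e3 : ‖((W : ℂ) / W.totient)‖ ≤ W := by
        rw [norm_div, Complex.norm_natCast, Complex.norm_natCast]
        exact div_le_self hW0.le hWt1
      have e4 : ‖((W : ℂ) / W.totient)‖ * ‖∑ n ∈ Icc 1 y, ee (n * (α + (j : ℝ) / W))‖ ≤ W * (N / L ^ B) := by
        apply mul_le_mul e3 (e2.trans (hqQ'.trans hQle)) (norm_nonneg _) hW0.le
      have e5 : W * ((N : ℝ) / L ^ B) ≤ N / L ^ (U + 2) := by
        have e6 : L ^ B = L ^ (U + 2) * L * L ^ B1 := by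
          rw [hB, ← pow_succ, ← pow_add]; congr 1; ring
        rw [e6]
        have e7 : 1 ≤ L ^ B1 := one_le_pow₀ hL1
        calc W * ((N : ℝ) / (L ^ (U + 2) * L * L ^ B1)) ≤ L * ((N : ℝ) / (L ^ (U + 2) * L * 1)) := by gcongr
          _ = N / L ^ (U + 2) := by field_simp
      linarith
    have h3 : ∑ n ∈ Ioc y1 y2, ((fW W b n : ℝ) : ℂ) * ee (n * α) =
        ∑ n ∈ Icc 1 y2, ((fW W b n : ℝ) : ℂ) * ee (n * α) - ∑ n ∈ Icc 1 y1, ((fW W b n : ℝ) : ℂ) * ee (n * α) := by
      rw [eq_sub_iff_add_eq]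
      have e1 : Icc 1 y2 = Ioc 0 y2 := by ext; simp [Nat.lt_iff_add_one_le]
      have e2 : Icc 1 y1 = Ioc 0 y1 := by ext; simp [Nat.lt_iff_add_one_le]
      rw [e1, e2, add_comm, sum_Ioc_consecutive _ (Nat.zero_le _) h12]
    rw [h3]
    refine (norm_sub_le _ _).trans ?_
    have e1 := hy y2 hy2
    have e2 := hy y1 (h12.trans hy2)
    have e3 : 4 * ((N : ℝ) / L ^ (U + 2)) ≤ N / L ^ U := by
      have e4 : (N : ℝ) / L ^ (U + 2) = (N / L ^ U) * (1 / L ^ 2) := by rw [pow_add]; field_simp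
      rw [e4]
      have e5 : 4 * (1 / L ^ 2) ≤ 1 := by
        rw [mul_one_div, div_le_one (by positivity)]
        nlinarith
      have e6 : 0 ≤ (N : ℝ) / L ^ U := by positivity
      nlinarith
    linarith
  · -- major arcs
    push Not at hcase
    obtain ⟨j, hj, hjq⟩ := hcase
    have hqj0 : (0 : ℝ) < q j := by exact_mod_cast hq1 j
    obtain ⟨a, d, hd1, hdD, had, hfr⟩ := reduce_frac (c j * W - j * q j) (q j * W) (Nat.mul_pos (hq1 j) hW)
    have hdle : d ≤ q j * W := Nat.le_of_dvd (Nat.mul_pos (hq1 j) hW) hdD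
    have hdr : (d : ℝ) ≤ L ^ B * W := by
      calc (d : ℝ) ≤ q j * W := by exact_mod_cast hdle
        _ ≤ L ^ B * W := by gcongr
    have hmodle : ((d * W : ℕ) : ℝ) ≤ L ^ (B + 1) := by
      push_cast
      calc (d : ℝ) * W ≤ (L ^ B * W) * W := by gcongr
        _ = L ^ B * W ^ 2 := by ring
        _ ≤ L ^ B * L := by gcongr; linarith
        _ = L ^ (B + 1) := by rw [pow_succ]
    set γ : ℝ := α - (a : ℝ) / d with hγ
    have hγle : |γ| ≤ L ^ B / N := by
      have h3 : γ = (α + (j : ℝ) / W) - (c j : ℝ) / q j := by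
        rw [hγ, ← hfr]
        push_cast
        field_simp
        ring
      rw [h3]
      refine (hclose j).trans ?_
      rw [div_le_div_iff₀ (by positivity) hN0, one_mul]
      have h4 : (1 : ℝ) ≤ q j := by exact_mod_cast hq1 j
      have h5 : (N : ℝ) ≤ L ^ B * (Q + 1) := by
        have := hQlt.le
        rw [div_le_iff₀ hLB0] at this
        linarith
      calc (N : ℝ) ≤ L ^ B * (Q + 1) := h5
        _ ≤ L ^ B * (((Q : ℝ) + 1) * q j) := by
            apply mul_le_mul_of_nonneg_left _ hLB0.le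
            exact le_mul_of_one_le_right (by positivity) h4
    have hδN : (W : ℝ) ≤ N / L ^ (2 * B + U + 2) := by
      rw [le_div_iff₀ (by positivity)]
      have e1 : L ^ (2 * B + U + 2) ≤ √(N : ℝ) := by
        have : L ^ (2 * B + U + 2) ≤ 10 * L ^ (2 * B + U + 2) := le_mul_of_one_le_left (by positivity) (by norm_num)
        linarith
      have e2 : (W : ℝ) ≤ √(N : ℝ) := by
        apply Real.le_sqrt_of_sq_le
        linarith
      calc (W : ℝ) * L ^ (2 * B + U + 2) ≤ √(N : ℝ) * √(N : ℝ) := by gcongr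
        _ = N := hss
    have hmaj := major_sum W b d N hW hd1 a (N / L ^ (2 * B + U + 2)) (fun x y hy =>
      hap N hm2 (d * W) (Nat.mul_pos (by omega) hW) hmodle x y hy)
    have hg := gW_bound W d w hWsq hd1 hw1 hw a had b hb
    set g := gW W d b a with hgd
    have hF : ∀ y : ℕ, y ≤ N → ‖∑ n ∈ Icc 1 y, (((fW W b n : ℝ) : ℂ) * ee (n * ((a : ℝ) / d)) - g)‖ ≤ 2 * (N / L ^ (B + U + 1)) := by
      intro y hy
      have h3 := hmaj y hy
      have h4 : ∑ n ∈ Icc 1 y, (((fW W b n : ℝ) : ℂ) * ee (n * ((a : ℝ) / d)) - g) =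
          ∑ n ∈ Icc 1 y, ((fW W b n : ℝ) : ℂ) * ee (n * ((a : ℝ) / d)) - g * y := by
        rw [sum_sub_distrib, sum_const, Nat.card_Icc, Nat.add_sub_cancel, nsmul_eq_mul]
        ring
      rw [h4]
      refine h3.trans ?_
      have h5 : (d : ℝ) * W ≤ L ^ (B + 1) := by exact_mod_cast hmodle
      calc (d : ℝ) * W * (N / L ^ (2 * B + U + 2) + W) ≤ L ^ (B + 1) * (N / L ^ (2 * B + U + 2) + N / L ^ (2 * B + U + 2)) := by gcongr
        _ = 2 * (N / L ^ (B + U + 1)) := by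
            have e : L ^ (2 * B + U + 2) = L ^ (B + 1) * L ^ (B + U + 1) := by rw [← pow_add]; congr 1; ring
            rw [e]
            field_simp
            ring
    have hI := interval_of_partial (fun n => ((fW W b n : ℝ) : ℂ) * ee (n * ((a : ℝ) / d)) - g) _ γ N y1 y2 h12 hy2 hF
    have hsplit : ∑ n ∈ Ioc y1 y2, ((fW W b n : ℝ) : ℂ) * ee (n * α) =
        ∑ n ∈ Ioc y1 y2, (((fW W b n : ℝ) : ℂ) * ee (n * ((a : ℝ) / d)) - g) * ee (n * γ) +
          g * ∑ n ∈ Ioc y1 y2, ee (n * γ) := by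
      rw [mul_sum, ← sum_add_distrib]
      apply sum_congr rfl
      intro n _
      have h3 : ee (n * α) = ee (n * ((a : ℝ) / d)) * ee (n * γ) := by
        rw [← ee_add, hγ]
        congr 1
        ring
      rw [h3]
      ring
    rw [hsplit]
    refine (norm_add_le _ _).trans ?_
    have h3 : (N : ℝ) * ‖ee γ - 1‖ ≤ 7 * L ^ B := by
      have h4 : ‖ee γ - 1‖ ≤ 2 * Real.pi * |γ| := by
        have := dd_le γ
        unfold dd at this
        rw [norm_sub_rev] at this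
        exact this
      have h5 : |γ| * N ≤ L ^ B := by
        rwa [le_div_iff₀ hN0] at hγle
      have hpi : Real.pi < 3.15 := Real.pi_lt_d2
      have h6 : 0 ≤ |γ| * N := by positivity
      calc (N : ℝ) * ‖ee γ - 1‖ ≤ N * (2 * Real.pi * |γ|) := by gcongr
        _ = 2 * Real.pi * (|γ| * N) := by ring
        _ ≤ 7 * (|γ| * N) := by
            apply mul_le_mul_of_nonneg_right _ h6
            linarith
        _ ≤ 7 * L ^ B := by linarith
    have h4 : ‖∑ n ∈ Ioc y1 y2, (((fW W b n : ℝ) : ℂ) * ee (n * ((a : ℝ) / d)) - g) * ee (n * γ)‖ ≤ N / L ^ U := by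
      refine hI.trans ?_
      calc 2 * (2 * ((N : ℝ) / L ^ (B + U + 1)) * (1 + N * ‖ee γ - 1‖)) ≤ 2 * (2 * ((N : ℝ) / L ^ (B + U + 1)) * (8 * L ^ B)) := by
            gcongr
            linarith
        _ = (32 / L) * (N / L ^ U) := by
            have e : L ^ (B + U + 1) = L ^ B * L ^ U * L := by rw [← pow_add, ← pow_succ]
            rw [e]
            field_simp
            ring
        _ ≤ 1 * (N / L ^ U) := by
            apply mul_le_mul_of_nonneg_right _ (by positivity)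
            rw [div_le_one hL0]
            linarith
        _ = N / L ^ U := one_mul _
    have h5 : ‖g * ∑ n ∈ Ioc y1 y2, ee (n * γ)‖ ≤ ((y2 : ℝ) - y1) / (W.totient * w) := by
      rw [norm_mul]
      have h6 : ‖∑ n ∈ Ioc y1 y2, ee (n * γ)‖ ≤ (y2 : ℝ) - y1 := by
        refine (norm_sum_le _ _).trans ?_
        simp only [norm_ee, sum_const, Nat.card_Ioc, nsmul_eq_mul, mul_one]
        rw [Nat.cast_sub h12]
      calc ‖g‖ * ‖∑ n ∈ Ioc y1 y2, ee (n * γ)‖ ≤ (1 / (W.totient * w)) * ((y2 : ℝ) - y1) := by gcongr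
        _ = _ := by ring
    linarith

end Pool.Agent.H566
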