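import Mathlib
import Pool.Agent.H566.MGe

/-!
The weight of the primes in a class modulo a primorial.
-/

set_option autoImplicit false

namespace Pool.Agent.H566

open Finset
open Pool.Agent.H807R2.Dav
open Pool.Agent.H373R2.T7

/-- logarithm on the primes -/
noncomputable def th (n : ℕ) : ℝ := if n.Prime then Real.log n else 0

/-- the normalised weight of the primes in a class -/
noncomputable def nuW (W b x : ℕ) : ℝ := ((W.totient : ℝ) / W) * th (W * x + b)

lemma th_nonneg (n : ℕ) : 0 ≤ th n := by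
  unfold th
  split_ifs with h
  · exact Real.log_natCast_nonneg n
  · exact le_rfl

lemma th_le (n : ℕ) : th n ≤ ArithmeticFunction.vonMangoldt n := by
  unfold th
  split_ifs with h
  · rw [ArithmeticFunction.vonMangoldt_apply_prime h]
  · exact ArithmeticFunction.vonMangoldt_nonneg

lemma nuW_nonneg (W b x : ℕ) : 0 ≤ nuW W b x := by
  unfold nuW
  have := th_nonneg (W * x + b)
  positivity

/-- the prime powers -/
lemma powers_le (N : ℕ) (hN : 1 ≤ N) (S : Finset ℕ) (hS : S ⊆ Icc 1 N) :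
    ∑ n ∈ S, (ArithmeticFunction.vonMangoldt n - th n) ≤ 2 * √(N : ℝ) * Real.log N := by
  have h1 : ∑ n ∈ S, (ArithmeticFunction.vonMangoldt n - th n) ≤ ∑ n ∈ Icc 1 N, (ArithmeticFunction.vonMangoldt n - th n) :=
    sum_le_sum_of_subset_of_nonneg hS (fun n _ _ => sub_nonneg.2 (th_le n))
  have h2 : ∑ n ∈ Icc 1 N, (ArithmeticFunction.vonMangoldt n - th n) = Chebyshev.psi (N : ℝ) - Chebyshev.theta (N : ℝ) := by
    rw [sum_sub_distrib]
    unfold Chebyshev.psi Chebyshev.theta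
    rw [Nat.floor_natCast]
    have e : Icc 1 N = Ioc 0 N := by ext; simp [Nat.lt_iff_add_one_le]
    rw [e]
    congr 1
    unfold th
    rw [sum_filter]
  have h3 := Chebyshev.psi_sub_theta_le (x := (N : ℝ)) (by exact_mod_cast hN)
  linarith

lemma class_filter (W b X0 X1 : ℕ) (hW : 0 < W) :
    (Ioc (W * X0 + b) (W * X1 + b)).filter (fun n => n ≡ b [MOD W]) = (Ioc X0 X1).image (fun x => W * x + b) := by
  ext n
  rw [mem_filter, mem_Ioc, mem_image]
  constructor
  · rintro ⟨⟨h1, h2⟩, h3⟩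
    have h4 : b ≤ n := by omega
    obtain ⟨t, ht⟩ := (Nat.modEq_iff_dvd' h4).1 h3.symm
    have h5 : n = W * t + b := by omega
    refine ⟨t, mem_Ioc.2 ⟨?_, ?_⟩, h5.symm⟩
    · by_contra h
      have : W * t ≤ W * X0 := Nat.mul_le_mul_left _ (by omega)
      omega
    · by_contra h
      have : W * (X1 + 1) ≤ W * t := Nat.mul_le_mul_left _ (by omega)
      rw [Nat.mul_add] at this
      omega
  · rintro ⟨x, hx, rfl⟩
    rw [mem_Ioc] at hx
    refine ⟨⟨?_, ?_⟩, ?_⟩
    · have : W * (X0 + 1) ≤ W * x := Nat.mul_le_mul_left _ (by omega)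
      rw [Nat.mul_add] at this
      omega
    · have : W * x ≤ W * X1 := Nat.mul_le_mul_left _ (by omega)
      omega
    · exact (Nat.modEq_iff_dvd' (by omega)).2 ⟨x, by omega⟩ |>.symm

lemma class_inj (W b : ℕ) (hW : 0 < W) : Function.Injective (fun x : ℕ => W * x + b) := by
  intro x y h
  simp only at h
  have : W * x = W * y := by omega
  exact Nat.eq_of_mul_eq_mul_left hW this

lemma class_sum (W b X0 X1 : ℕ) (hW : 0 < W) (β : ℝ) :
    ∑ n ∈ Ioc (W * X0 + b) (W * X1 + b), ((fW W b n : ℝ) : ℂ) * ee (n * β) =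
      ∑ x ∈ Ioc X0 X1, ((ArithmeticFunction.vonMangoldt (W * x + b) - (W : ℝ) / W.totient : ℝ) : ℂ) *
        ee (((W * x + b : ℕ) : ℝ) * β) := by
  have h1 : ∑ n ∈ Ioc (W * X0 + b) (W * X1 + b), ((fW W b n : ℝ) : ℂ) * ee (n * β) =
      ∑ n ∈ (Ioc (W * X0 + b) (W * X1 + b)).filter (fun n => n ≡ b [MOD W]),
        ((ArithmeticFunction.vonMangoldt n - (W : ℝ) / W.totient : ℝ) : ℂ) * ee (n * β) := by
    rw [sum_filter]
    apply sum_congr rfl
    intro n _
    unfold fW
    split_ifs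
    · rfl
    · simp
  rw [h1, class_filter W b X0 X1 hW, sum_image (fun x _ y _ h => class_inj W b hW h)]

/-- the Fourier transform of the primes in a class modulo a primorial is close to the one of an interval -/
theorem nu_sup (w W : ℕ) (hWsq : Squarefree W) (hw1 : 1 ≤ w) (hw : ∀ p : ℕ, p.Prime → p ≤ w → p ∣ W) (U : ℕ) :
    ∃ N0 : ℕ, ∀ N : ℕ, N0 ≤ N → ∀ b : ℕ, b.Coprime W → ∀ X0 L : ℕ, W * (X0 + L) + b ≤ N → ∀ α : ℝ,
      ‖∑ x ∈ Ioc X0 (X0 + L), ((nuW W b x - 1 : ℝ) : ℂ) * ee (x * α)‖ ≤ (L : ℝ) / w + N / Real.log N ^ U := by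
  have hW : 0 < W := Nat.pos_of_ne_zero hWsq.ne_zero
  have hW0 : (0 : ℝ) < W := by exact_mod_cast hW
  have hWt : (0 : ℝ) < W.totient := by exact_mod_cast Nat.totient_pos.2 hW
  have hWtW : (W.totient : ℝ) ≤ W := by exact_mod_cast Nat.totient_le W
  obtain ⟨N0, h⟩ := tw_sup w W hWsq hw1 hw (U + 1)
  obtain ⟨n1, h1⟩ := ev_log' (U + 2) 2
  obtain ⟨n2, h2⟩ := ev_L' 2
  refine ⟨max N0 (max n1 (max n2 1)), fun N hN b hb X0 L hXN α => ?_⟩
  have hN0' : N0 ≤ N := le_trans (le_max_left _ _) hN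
  have a1 := h1 N (le_trans (le_trans (le_max_left _ _) (le_max_right _ _)) hN)
  have hL := h2 N (le_trans (le_trans (le_trans (le_max_left _ _) (le_max_right _ _)) (le_max_right _ _)) hN)
  have hN1 : 1 ≤ N := le_trans (le_trans (le_trans (le_max_right _ _) (le_max_right _ _)) (le_max_right _ _)) hN
  have hNr : (1 : ℝ) ≤ N := by exact_mod_cast hN1
  have hNpos : (0 : ℝ) < N := by linarith
  set LL := Real.log N with hLL
  have hLL0 : 0 < LL := by linarith
  have hss : √(N : ℝ) * √(N : ℝ) = N := Real.mul_self_sqrt hNpos.le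
  have hs0 : 0 < √(N : ℝ) := Real.sqrt_pos.2 hNpos
  have hle : W * X0 + b ≤ W * (X0 + L) + b := by
    have : W * X0 ≤ W * (X0 + L) := Nat.mul_le_mul_left _ (by omega)
    omega
  have h3 := h N hN0' b hb (W * X0 + b) (W * (X0 + L) + b) hle hXN (α / W)
  rw [class_sum W b X0 (X0 + L) hW] at h3
  -- the sum with the von Mangoldt function
  have h4 : ‖∑ x ∈ Ioc X0 (X0 + L), ((((W.totient : ℝ) / W) * ArithmeticFunction.vonMangoldt (W * x + b) - 1 : ℝ) : ℂ) * ee (x * α)‖ ≤
      (L : ℝ) / w + N / LL ^ (U + 1) := by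
    have h5 : ∑ x ∈ Ioc X0 (X0 + L), ((((W.totient : ℝ) / W) * ArithmeticFunction.vonMangoldt (W * x + b) - 1 : ℝ) : ℂ) * ee (x * α) =
        (((W.totient : ℝ) / W : ℝ) : ℂ) * (ee (-(b * (α / W))) *
          ∑ x ∈ Ioc X0 (X0 + L), ((ArithmeticFunction.vonMangoldt (W * x + b) - (W : ℝ) / W.totient : ℝ) : ℂ) *
            ee (((W * x + b : ℕ) : ℝ) * (α / W))) := by
      rw [mul_sum, mul_sum]
      apply sum_congr rfl
      intro x _
      have e1 : ee (x * α) = ee (-(b * (α / W))) * ee (((W * x + b : ℕ) : ℝ) * (α / W)) := by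
        rw [← ee_add]
        congr 1
        push_cast
        field_simp
        ring
      rw [e1]
      have e2 : ((((W.totient : ℝ) / W) * ArithmeticFunction.vonMangoldt (W * x + b) - 1 : ℝ) : ℂ) =
          (((W.totient : ℝ) / W : ℝ) : ℂ) * ((ArithmeticFunction.vonMangoldt (W * x + b) - (W : ℝ) / W.totient : ℝ) : ℂ) := by
        rw [← Complex.ofReal_mul]
        congr 1
        field_simp
      rw [e2]
      ring
    rw [h5, norm_mul, norm_mul, norm_ee, one_mul, Complex.norm_real, Real.norm_eq_abs, abs_of_pos (by positivity)]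
    have h6 : ((W * (X0 + L) + b : ℕ) : ℝ) - ((W * X0 + b : ℕ) : ℝ) = W * L := by push_cast; ring
    rw [h6] at h3
    have hw0 : (0 : ℝ) < w := by exact_mod_cast hw1
    calc (W.totient : ℝ) / W * _ ≤ (W.totient : ℝ) / W * (W * L / (W.totient * w) + N / LL ^ (U + 1)) := by gcongr
      _ = L / w + (W.totient : ℝ) / W * (N / LL ^ (U + 1)) := by field_simp
      _ ≤ L / w + 1 * (N / LL ^ (U + 1)) := by
          have : (W.totient : ℝ) / W ≤ 1 := by rw [div_le_one hW0]; exact hWtW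
          gcongr
      _ = _ := by ring
  -- prime powers
  have h5 : ‖∑ x ∈ Ioc X0 (X0 + L), ((nuW W b x - 1 : ℝ) : ℂ) * ee (x * α) -
      ∑ x ∈ Ioc X0 (X0 + L), ((((W.totient : ℝ) / W) * ArithmeticFunction.vonMangoldt (W * x + b) - 1 : ℝ) : ℂ) * ee (x * α)‖ ≤
      2 * √(N : ℝ) * LL := by
    rw [← sum_sub_distrib]
    refine (norm_sum_le _ _).trans ?_
    have h6 : ∀ x ∈ Ioc X0 (X0 + L), ‖((nuW W b x - 1 : ℝ) : ℂ) * ee (x * α) -
        ((((W.totient : ℝ) / W) * ArithmeticFunction.vonMangoldt (W * x + b) - 1 : ℝ) : ℂ) * ee (x * α)‖ ≤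
        ArithmeticFunction.vonMangoldt (W * x + b) - th (W * x + b) := by
      intro x _
      rw [← sub_mul, norm_mul, norm_ee, mul_one, ← Complex.ofReal_sub, Complex.norm_real, Real.norm_eq_abs]
      unfold nuW
      have e1 : ((W.totient : ℝ) / W * th (W * x + b) - 1 - ((W.totient : ℝ) / W * ArithmeticFunction.vonMangoldt (W * x + b) - 1)) =
          -((W.totient : ℝ) / W * (ArithmeticFunction.vonMangoldt (W * x + b) - th (W * x + b))) := by ring
      have e2 : 0 ≤ ArithmeticFunction.vonMangoldt (W * x + b) - th (W * x + b) := sub_nonneg.2 (th_le _)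
      rw [e1, abs_neg, abs_of_nonneg (by positivity)]
      have e3 : (W.totient : ℝ) / W ≤ 1 := by rw [div_le_one hW0]; exact hWtW
      nlinarith
    refine (sum_le_sum h6).trans ?_
    have h7 : ∑ x ∈ Ioc X0 (X0 + L), (ArithmeticFunction.vonMangoldt (W * x + b) - th (W * x + b)) =
        ∑ n ∈ (Ioc X0 (X0 + L)).image (fun x => W * x + b), (ArithmeticFunction.vonMangoldt n - th n) := by
      rw [sum_image (fun x _ y _ h => class_inj W b hW h)]
    rw [h7]
    apply powers_le N hN1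
    intro n hn
    rw [mem_image] at hn
    obtain ⟨x, hx, rfl⟩ := hn
    rw [mem_Ioc] at hx
    rw [mem_Icc]
    have k1 : W * x ≤ W * (X0 + L) := Nat.mul_le_mul_left _ hx.2
    have k2 : 1 ≤ W * x := Nat.mul_pos hW (by omega)
    omega
  have h6 : 2 * √(N : ℝ) * LL ≤ N / LL ^ (U + 1) := by
    rw [le_div_iff₀ (by positivity)]
    calc 2 * √(N : ℝ) * LL * LL ^ (U + 1) = √(N : ℝ) * (2 * LL ^ (U + 2)) := by rw [pow_succ LL (U + 1)]; ring
      _ ≤ √(N : ℝ) * √(N : ℝ) := by gcongr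
      _ = N := hss
  have h7 : 2 * ((N : ℝ) / LL ^ (U + 1)) ≤ N / LL ^ U := by
    have e1 : (N : ℝ) / LL ^ (U + 1) = (N / LL ^ U) * (1 / LL) := by rw [pow_succ]; field_simp
    rw [e1]
    have e2 : 2 * (1 / LL) ≤ 1 := by
      rw [mul_one_div, div_le_one hLL0]; exact hL
    have e3 : 0 ≤ (N : ℝ) / LL ^ U := by positivity
    nlinarith
  calc ‖∑ x ∈ Ioc X0 (X0 + L), ((nuW W b x - 1 : ℝ) : ℂ) * ee (x * α)‖ ≤ _ + _ := norm_le_norm_sub_add _ _
    _ ≤ 2 * √(N : ℝ) * LL + ((L : ℝ) / w + N / LL ^ (U + 1)) := add_le_add h5 h4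
    _ ≤ _ := by linarith

end Pool.Agent.H566
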