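import Mathlib
import Pool.Graph.R_pool_sql_team_seeded_35f281b4.K7.H64.LS.Restr
import Pool.Graph.R_seed8.Helper602.MK.J1a
import Pool.Agent.H566.MGf

/-!
The restriction estimate for the primes in a class modulo a primorial, with a constant which does not depend on
the primorial.
-/

set_option autoImplicit false

namespace Pool.Agent.H566

open Finset
open Pool.Agent.H807R2.Dav
open Pool.Agent.H373R2.T7
open Pool.Agent.Y843.HS (VV Pr)

lemma ee_eq112 (x : ℝ) : Pool.Agent.Helper112.ee x = ee x := by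
  unfold Pool.Agent.Helper112.ee ee
  congr 1
  ring

/-- the class modulo `p` which is removed -/
def ZW (W b p : ℕ) : Finset ℕ := (range p).filter (fun x => p ∣ W * x + b)

lemma ZW_card (W b p : ℕ) (hb : b.Coprime W) (hp : p.Prime) : (ZW W b p).card ≤ 1 ∧ (p ∣ W → (ZW W b p).card = 0) := by
  constructor
  · rw [card_le_one]
    intro x hx y hy
    unfold ZW at hx hy
    rw [mem_filter, mem_range] at hx hy
    by_cases hpW : p ∣ W
    · exfalso
      have h1 : p ∣ b := (Nat.dvd_add_right (hpW.mul_right x)).1 hx.2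
      exact Nat.Prime.not_coprime_iff_dvd.2 ⟨p, hp, h1, hpW⟩ hb
    · have h1 : W * x + b ≡ W * y + b [MOD p] :=
        ((Nat.modEq_zero_iff_dvd).2 hx.2).trans ((Nat.modEq_zero_iff_dvd).2 hy.2).symm
      have h2 : W * x ≡ W * y [MOD p] := Nat.ModEq.add_right_cancel' b h1
      have h3 : x ≡ y [MOD p] := Nat.ModEq.cancel_left_of_coprime ((Nat.Prime.coprime_iff_not_dvd hp).2 hpW) h2
      exact Nat.ModEq.eq_of_lt_of_lt h3 hx.1 hy.1
  · intro hpW
    rw [card_eq_zero, ZW, filter_eq_empty_iff]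
    intro x _ hx
    have h1 : p ∣ b := (Nat.dvd_add_right (hpW.mul_right x)).1 hx
    exact Nat.Prime.not_coprime_iff_dvd.2 ⟨p, hp, h1, hpW⟩ hb

lemma ZW_card_eq (W b p : ℕ) (hb : b.Coprime W) (hp : p.Prime) (hpW : ¬ p ∣ W) : (ZW W b p).card = 1 := by
  apply le_antisymm (ZW_card W b p hb hp).1
  rw [Nat.succ_le_iff, card_pos]
  have hcop : IsUnit ((W : ZMod p)) := by
    rw [ZMod.isUnit_iff_coprime]
    exact ((Nat.Prime.coprime_iff_not_dvd hp).2 hpW).symm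
  have : NeZero p := ⟨hp.ne_zero⟩
  obtain ⟨u, hu⟩ := hcop
  refine ⟨((u⁻¹ : (ZMod p)ˣ) * (-(b : ZMod p)) : ZMod p).val, ?_⟩
  unfold ZW
  rw [mem_filter, mem_range]
  refine ⟨ZMod.val_lt _, ?_⟩
  rw [← ZMod.natCast_eq_zero_iff]
  push_cast
  rw [ZMod.natCast_zmod_val, ← hu]
  simp

/-- the sieve product -/
lemma VV_le : ∃ C : ℝ, 0 < C ∧ ∀ (W b L : ℕ), Squarefree W → b.Coprime W → 2 ≤ L →
    VV (ZW W b) 0 L ≤ C * ((W : ℝ) / W.totient) / Real.log L := by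
  obtain ⟨C, hC, -, -, h3⟩ := Pool.Agent.Helper602.MK.N_J1a.J1a
  refine ⟨C, by linarith, fun W b L hWsq hb hL => ?_⟩
  have hW : 0 < W := Nat.pos_of_ne_zero hWsq.ne_zero
  have hW0 : (0 : ℝ) < W := by exact_mod_cast hW
  have hWt : (0 : ℝ) < W.totient := by exact_mod_cast Nat.totient_pos.2 hW
  have hlog : 0 < Real.log L := Real.log_pos (by exact_mod_cast (by omega : 1 < L))
  have hP : Pr 0 L = (range (L + 1)).filter Nat.Prime := by
    unfold Pr
    ext p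
    simp only [mem_filter, mem_Ioc, mem_range]
    constructor
    · rintro ⟨⟨h1, h2⟩, h4⟩
      exact ⟨by omega, h4⟩
    · rintro ⟨h1, h4⟩
      exact ⟨⟨h4.pos, by omega⟩, h4⟩
  have hf : ∀ p ∈ Pr 0 L, (0 : ℝ) ≤ 1 - 1 / (p : ℝ) ∧ 1 - 1 / (p : ℝ) ≤ 1 := by
    intro p hp
    rw [hP, mem_filter] at hp
    have h4 : (1 : ℝ) ≤ p := by exact_mod_cast hp.2.one_le
    have h5 : 1 / (p : ℝ) ≤ 1 := by rw [div_le_one (by linarith)]; exact h4
    have h6 : 0 ≤ 1 / (p : ℝ) := by positivity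
    constructor <;> linarith
  have hall : ∏ p ∈ Pr 0 L, (1 - 1 / (p : ℝ)) ≤ C / Real.log L := by
    rw [hP]
    refine (h3 (L + 1) (by omega)).trans ?_
    have h4 : Real.log L ≤ Real.log ((L + 1 : ℕ) : ℝ) :=
      Real.log_le_log (by exact_mod_cast (by omega : 0 < L)) (by push_cast; linarith)
    exact div_le_div_of_nonneg_left (by linarith) hlog h4
  have h4 : VV (ZW W b) 0 L = ∏ p ∈ (Pr 0 L).filter (fun p => ¬ p ∣ W), (1 - 1 / (p : ℝ)) := by
    unfold VV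
    rw [prod_filter]
    apply prod_congr rfl
    intro p hp
    rw [hP, mem_filter] at hp
    by_cases hpW : p ∣ W
    · rw [if_neg (not_not.2 hpW), (ZW_card W b p hb hp.2).2 hpW]
      simp
    · rw [if_pos hpW, ZW_card_eq W b p hb hp.2 hpW]
      simp
  have h5 : ∏ p ∈ Pr 0 L, (1 - 1 / (p : ℝ)) = VV (ZW W b) 0 L * ∏ p ∈ (Pr 0 L).filter (fun p => p ∣ W), (1 - 1 / (p : ℝ)) := by
    rw [h4, mul_comm, prod_filter_mul_prod_filter_not]
  have h6 : (W.totient : ℝ) / W = ∏ p ∈ W.primeFactors, (1 - 1 / (p : ℝ)) := by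
    have h7 := Nat.totient_eq_mul_prod_factors W
    have h8 : (W.totient : ℝ) = W * ∏ p ∈ W.primeFactors, (1 - (p : ℝ)⁻¹) := by
      have h9 := congrArg (fun t : ℚ => (t : ℝ)) h7
      push_cast at h9
      exact h9
    rw [h8]
    field_simp
  have h7 : (W.totient : ℝ) / W ≤ ∏ p ∈ (Pr 0 L).filter (fun p => p ∣ W), (1 - 1 / (p : ℝ)) := by
    have hsub : (Pr 0 L).filter (fun p => p ∣ W) ⊆ W.primeFactors := by
      intro p hp
      rw [mem_filter, hP, mem_filter] at hp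
      exact Nat.mem_primeFactors.2 ⟨hp.1.2, hp.2, hW.ne'⟩
    rw [h6, ← prod_sdiff hsub]
    have hfac : ∀ p ∈ W.primeFactors, (0 : ℝ) ≤ 1 - 1 / (p : ℝ) ∧ 1 - 1 / (p : ℝ) ≤ 1 := by
      intro p hp
      have h4 : (1 : ℝ) ≤ p := by exact_mod_cast (Nat.prime_of_mem_primeFactors hp).one_le
      have h5 : 1 / (p : ℝ) ≤ 1 := by rw [div_le_one (by linarith)]; exact h4
      have h6 : 0 ≤ 1 / (p : ℝ) := by positivity
      constructor <;> linarith
    have h8 : ∏ p ∈ W.primeFactors \ (Pr 0 L).filter (fun p => p ∣ W), (1 - 1 / (p : ℝ)) ≤ 1 :=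
      prod_le_one (fun p hp => (hfac p (mem_sdiff.1 hp).1).1) (fun p hp => (hfac p (mem_sdiff.1 hp).1).2)
    have h9 : 0 ≤ ∏ p ∈ (Pr 0 L).filter (fun p => p ∣ W), (1 - 1 / (p : ℝ)) :=
      prod_nonneg fun p hp => (hf p (mem_filter.1 hp).1).1
    calc _ ≤ 1 * ∏ p ∈ (Pr 0 L).filter (fun p => p ∣ W), (1 - 1 / (p : ℝ)) := mul_le_mul_of_nonneg_right h8 h9
      _ = _ := one_mul _
  have h8 : 0 ≤ VV (ZW W b) 0 L := by
    rw [h4]
    exact prod_nonneg fun p hp => (hf p (mem_filter.1 hp).1).1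
  have h9 : VV (ZW W b) 0 L * ((W.totient : ℝ) / W) ≤ C / Real.log L := by
    calc _ ≤ VV (ZW W b) 0 L * ∏ p ∈ (Pr 0 L).filter (fun p => p ∣ W), (1 - 1 / (p : ℝ)) := by gcongr
      _ = _ := h5.symm
      _ ≤ _ := hall
  calc VV (ZW W b) 0 L = (VV (ZW W b) 0 L * ((W.totient : ℝ) / W)) * ((W : ℝ) / W.totient) := by field_simp
    _ ≤ (C / Real.log L) * ((W : ℝ) / W.totient) := by gcongr
    _ = _ := by ring

/-- the third moment of the Fourier transform, for arbitrary coefficients bounded by the weight of the primes -/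
lemma cube_sum : ∃ C : ℝ, 0 < C ∧ ∀ (w W : ℕ), Squarefree W → 1 ≤ w → (∀ p : ℕ, p.Prime → p ≤ w → p ∣ W) → ∀ A : ℕ,
    ∃ N0 : ℕ, ∀ N : ℕ, N0 ≤ N → ∀ b : ℕ, b.Coprime W → ∀ X0 L : ℕ, L ≤ X0 → N / Real.log N ^ A ≤ (L : ℝ) →
      W * (X0 + L) + b ≤ N → ∀ a : ℕ → ℂ, (∀ x, ‖a x‖ ≤ nuW W b x) → ∀ M : ℕ, L ≤ M → M ≤ 3 * L →
      ∑ r ∈ range M, ‖∑ x ∈ Ioc X0 (X0 + L), a x * ee (x * ((r : ℝ) / M))‖ ^ 3 ≤ C * (L : ℝ) ^ 3 := by
  obtain ⟨C1, hC1, hV⟩ := VV_le
  obtain ⟨C2, hC2, hls⟩ := Pool.Agent.K7.H64.LS.lsp 1 (κ := 1) (by norm_num) (s := 3 / 2) (by norm_num)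
  refine ⟨C2 * (24 * C1) ^ (3 / 2 : ℝ), by positivity, fun w W hWsq hw1 hw A => ?_⟩
  have hW : 0 < W := Nat.pos_of_ne_zero hWsq.ne_zero
  have hW0 : (0 : ℝ) < W := by exact_mod_cast hW
  have hWt : (0 : ℝ) < W.totient := by exact_mod_cast Nat.totient_pos.2 hW
  have hw0 : (1 : ℝ) ≤ w := by exact_mod_cast hw1
  obtain ⟨N1, hsup⟩ := nu_sup w W hWsq hw1 hw A
  obtain ⟨n1, h1⟩ := ev_log' A 1
  obtain ⟨n2, h2⟩ := ev_L' 2
  refine ⟨max N1 (max n1 (max n2 16)), fun N hN b hb X0 L hLX hLN hXN a ha M hM1 hM2 => ?_⟩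
  have hN1 : N1 ≤ N := le_trans (le_max_left _ _) hN
  have a1 := h1 N (le_trans (le_trans (le_max_left _ _) (le_max_right _ _)) hN)
  have hLL := h2 N (le_trans (le_trans (le_trans (le_max_left _ _) (le_max_right _ _)) (le_max_right _ _)) hN)
  have hN16 : 16 ≤ N := le_trans (le_trans (le_trans (le_max_right _ _) (le_max_right _ _)) (le_max_right _ _)) hN
  have hNr : (16 : ℝ) ≤ N := by exact_mod_cast hN16
  have hNpos : (0 : ℝ) < N := by linarith
  set LL := Real.log N with hLLd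
  have hLL0 : 0 < LL := by linarith
  have hss : √(N : ℝ) * √(N : ℝ) = N := Real.mul_self_sqrt hNpos.le
  have hs0 : 0 < √(N : ℝ) := Real.sqrt_pos.2 hNpos
  have hsL : √(N : ℝ) ≤ L := by
    refine le_trans ?_ hLN
    rw [le_div_iff₀ (by positivity)]
    calc √(N : ℝ) * LL ^ A ≤ √(N : ℝ) * √(N : ℝ) := by rw [one_mul] at a1; gcongr
      _ = N := hss
  have hs4 : (4 : ℝ) ≤ √(N : ℝ) := by
    apply Real.le_sqrt_of_sq_le; linarith
  have hL4 : (4 : ℝ) ≤ L := hs4.trans hsL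
  have hL4n : 4 ≤ L := by exact_mod_cast hL4
  have hLpos : (0 : ℝ) < L := by linarith
  have hlogL : LL / 2 ≤ Real.log L := by
    have := Real.log_le_log hs0 hsL
    rwa [Real.log_sqrt hNpos.le] at this
  have hlogL0 : 0 < Real.log L := by linarith
  set I := Ioc X0 (X0 + L) with hI
  set S := I.filter (fun x => a x ≠ 0) with hS
  have hprime : ∀ x ∈ S, (W * x + b).Prime := by
    intro x hx
    by_contra h
    have h3 := ha x
    unfold nuW th at h3
    rw [if_neg h, mul_zero] at h3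
    exact (mem_filter.1 hx).2 (norm_le_zero_iff.1 h3)
  -- the sieve hypotheses
  have hZ : ∀ q : ℕ, q.Prime → (q : ℝ) ≤ (L : ℝ) ^ (1 : ℝ) →
      (ZW W b q).card ≤ 1 ∧ (ZW W b q).card < q ∧ ∀ c ∈ ZW W b q, c < q := by
    intro q hq _
    have h3 := (ZW_card W b q hb hq).1
    refine ⟨h3, lt_of_le_of_lt h3 hq.one_lt, fun c hc => ?_⟩
    unfold ZW at hc
    rw [mem_filter, mem_range] at hc
    exact hc.1
  have hSZ : ∀ n ∈ S, ∀ q : ℕ, q.Prime → (q : ℝ) ≤ (L : ℝ) ^ (1 : ℝ) → n % q ∉ ZW W b q := by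
    intro n hn q hq hqL hmem
    rw [Real.rpow_one] at hqL
    have hqL' : q ≤ L := by exact_mod_cast hqL
    have h3 := hprime n hn
    have h4 : q ∣ W * n + b := by
      unfold ZW at hmem
      rw [mem_filter] at hmem
      have h5 : W * (n % q) + b ≡ W * n + b [MOD q] := by
        apply Nat.ModEq.add_right
        exact Nat.ModEq.mul_left W (Nat.mod_modEq n q)
      exact (Nat.ModEq.dvd_iff h5 dvd_rfl).1 hmem.2
    have h5 : q = W * n + b := (Nat.prime_dvd_prime_iff_eq hq h3).1 h4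
    have h6 : X0 < n := (mem_Ioc.1 (mem_filter.1 hn).1).1
    have h7 : 1 * n ≤ W * n := Nat.mul_le_mul_right n hW
    omega
  have hSI : S ⊆ Ioc X0 (X0 + L) := filter_subset _ _
  have hM0 : 1 ≤ M := by omega
  have key := hls L (by omega) X0 (ZW W b) hZ S hSI hSZ ℕ (range M) (fun r => (r : ℝ) / M) M hM0
    (fun i hi j hj hij => by
      have := Pool.Agent.K7.H64.LS.sep_grid (N := M) 0 (mem_range.1 hi) (mem_range.1 hj) hij
      simpa using this) a
  -- the left side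
  have hleft : ∀ r ∈ range M, ‖∑ x ∈ I, a x * ee (x * ((r : ℝ) / M))‖ ^ 3 =
      (‖∑ n ∈ S, a n * Pool.Agent.Helper112.ee (n * ((r : ℝ) / M))‖ ^ 2) ^ (3 / 2 : ℝ) := by
    intro r _
    have h3 : ∑ n ∈ S, a n * Pool.Agent.Helper112.ee (n * ((r : ℝ) / M)) = ∑ x ∈ I, a x * ee (x * ((r : ℝ) / M)) := by
      rw [hS, sum_filter]
      apply sum_congr rfl
      intro x _
      by_cases h : a x = 0
      · rw [if_neg (not_not.2 h), h, zero_mul]
      · rw [if_pos h, ee_eq112]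
    rw [h3, ← Real.rpow_natCast_mul (norm_nonneg _), ← Real.rpow_natCast]
    norm_num
  rw [sum_congr rfl hleft]
  refine key.trans ?_
  have hass : C2 * (24 * C1) ^ (3 / 2 : ℝ) * (L : ℝ) ^ 3 = C2 * ((24 * C1) ^ (3 / 2 : ℝ) * (L : ℝ) ^ 3) := by ring
  rw [hass]
  apply mul_le_mul_of_nonneg_left _ hC2.le
  -- the right side
  have hsum1 : ∑ x ∈ I, nuW W b x ≤ 3 * L := by
    have h3 := hsup N hN1 b hb X0 L hXN 0
    have h4 : ∑ x ∈ Ioc X0 (X0 + L), ((nuW W b x - 1 : ℝ) : ℂ) * ee (x * 0) = ((∑ x ∈ I, nuW W b x - L : ℝ) : ℂ) := by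
      simp only [mul_zero, ee_zero, mul_one]
      rw [← Complex.ofReal_sum, sum_sub_distrib]
      simp [hI]
    rw [h4, Complex.norm_real, Real.norm_eq_abs] at h3
    have h5 := (abs_le.1 h3).2
    have h6 : (L : ℝ) / w ≤ L := div_le_self hLpos.le hw0
    linarith
  have hnu : ∀ x ∈ I, nuW W b x ≤ ((W.totient : ℝ) / W) * LL := by
    intro x hx
    unfold nuW th
    split_ifs with h
    · have h3 : W * x + b ≤ N := by
        have := Nat.mul_le_mul_left W (mem_Ioc.1 hx).2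
        omega
      have h4 : (0 : ℝ) < ((W * x + b : ℕ) : ℝ) := by exact_mod_cast h.pos
      have h5 : Real.log ((W * x + b : ℕ) : ℝ) ≤ LL := Real.log_le_log h4 (by exact_mod_cast h3)
      gcongr
    · rw [mul_zero]; positivity
  have hsq : ∑ n ∈ S, ‖a n‖ ^ 2 ≤ ((W.totient : ℝ) / W) * LL * (3 * L) := by
    calc ∑ n ∈ S, ‖a n‖ ^ 2 ≤ ∑ n ∈ I, ‖a n‖ ^ 2 :=
          sum_le_sum_of_subset_of_nonneg (filter_subset _ _) fun _ _ _ => by positivity
      _ ≤ ∑ n ∈ I, ((W.totient : ℝ) / W) * LL * nuW W b n := by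
          apply sum_le_sum
          intro n hn
          rw [pow_two]
          exact mul_le_mul ((ha n).trans (hnu n hn)) (ha n) (norm_nonneg _) (by positivity)
      _ = ((W.totient : ℝ) / W) * LL * ∑ n ∈ I, nuW W b n := by rw [mul_sum]
      _ ≤ _ := by gcongr
  have hV1 := hV W b L hWsq hb (by omega)
  have hfl : ⌊(L : ℝ) ^ (1 : ℝ)⌋₊ = L := by rw [Real.rpow_one, Nat.floor_natCast]
  rw [hfl]
  have hM3 : (M : ℝ) ≤ 3 * L := by exact_mod_cast hM2
  have hVnn : 0 ≤ VV (ZW W b) 0 L := by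
    unfold VV
    apply prod_nonneg
    intro p hp
    unfold Pr at hp
    rw [mem_filter] at hp
    have h3 := (ZW_card W b p hb hp.2).1
    have h4 : (1 : ℝ) ≤ p := by exact_mod_cast hp.2.one_le
    have h5 : (((ZW W b p).card : ℕ) : ℝ) ≤ 1 := by exact_mod_cast h3
    rw [sub_nonneg, div_le_one (by linarith)]
    linarith
  have hsum0 : 0 ≤ ∑ n ∈ S, ‖a n‖ ^ 2 := sum_nonneg fun _ _ => by positivity
  have hR : ((L : ℝ) + M) * VV (ZW W b) 0 L * ∑ n ∈ S, ‖a n‖ ^ 2 ≤ 24 * C1 * (L : ℝ) ^ 2 := by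
    calc ((L : ℝ) + M) * VV (ZW W b) 0 L * ∑ n ∈ S, ‖a n‖ ^ 2 ≤
          ((L : ℝ) + 3 * L) * (C1 * ((W : ℝ) / W.totient) / Real.log L) * (((W.totient : ℝ) / W) * LL * (3 * L)) := by gcongr
      _ = 12 * C1 * (L : ℝ) ^ 2 * (LL / Real.log L) := by field_simp; ring
      _ ≤ 12 * C1 * (L : ℝ) ^ 2 * 2 := by
          have : LL / Real.log L ≤ 2 := by rw [div_le_iff₀ hlogL0]; linarith
          gcongr
      _ = _ := by ring
  calc (((L : ℝ) + M) * VV (ZW W b) 0 L * ∑ n ∈ S, ‖a n‖ ^ 2) ^ (3 / 2 : ℝ) ≤ (24 * C1 * (L : ℝ) ^ 2) ^ (3 / 2 : ℝ) :=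
        Real.rpow_le_rpow (by positivity) hR (by norm_num)
    _ = (24 * C1) ^ (3 / 2 : ℝ) * (L : ℝ) ^ 3 := by
        rw [Real.mul_rpow (by positivity) (by positivity), ← Real.rpow_natCast_mul hLpos.le]
        norm_num

end Pool.Agent.H566
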