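import Mathlib
import Pool.Agent.H566.MGg

/-!
Sums of two primes in prescribed classes modulo a primorial, in short windows, on average.
-/

set_option autoImplicit false

namespace Pool.Agent.H566

open Finset
open Pool.Agent.H807R2.Dav
open Pool.Agent.H373R2.T7

lemma conj_ee (x : ℝ) : (starRingEnd ℂ) (ee x) = ee (-x) := by
  unfold ee
  rw [← Complex.exp_conj]
  congr 1
  simp only [map_mul, Complex.conj_I, Complex.conj_ofReal, map_ofNat]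
  push_cast
  ring

/-- Parseval's identity -/
lemma parseval (J : Finset ℕ) (T M : ℕ) (hM : 0 < M) (hJ : J ⊆ Ioc T (T + M)) (D : ℕ → ℂ) :
    ∑ r ∈ range M, ‖∑ s ∈ J, D s * ee (s * ((r : ℝ) / M))‖ ^ 2 = M * ∑ s ∈ J, ‖D s‖ ^ 2 := by
  have h1 : ∀ r ∈ range M, ((‖∑ s ∈ J, D s * ee (s * ((r : ℝ) / M))‖ ^ 2 : ℝ) : ℂ) =
      ∑ s ∈ J, ∑ t ∈ J, D s * (starRingEnd ℂ) (D t) * ee ((((s : ℤ) - t : ℤ) : ℝ) * ((r : ℝ) / M)) := by
    intro r _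
    rw [Complex.ofReal_pow, ← Complex.mul_conj', map_sum, sum_mul_sum]
    apply sum_congr rfl
    intro s _
    apply sum_congr rfl
    intro t _
    rw [map_mul, conj_ee]
    have e : ee ((((s : ℤ) - t : ℤ) : ℝ) * ((r : ℝ) / M)) = ee (s * ((r : ℝ) / M)) * ee (-(t * ((r : ℝ) / M))) := by
      rw [← ee_add]
      congr 1
      push_cast
      ring
    rw [e]
    ring
  have h2 : ((∑ r ∈ range M, ‖∑ s ∈ J, D s * ee (s * ((r : ℝ) / M))‖ ^ 2 : ℝ) : ℂ) =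
      ((M * ∑ s ∈ J, ‖D s‖ ^ 2 : ℝ) : ℂ) := by
    rw [Complex.ofReal_sum, sum_congr rfl h1, sum_comm]
    rw [Complex.ofReal_mul, Complex.ofReal_sum, mul_sum]
    apply sum_congr rfl
    intro s hs
    rw [sum_comm]
    have h3 : ∀ t ∈ J, ∑ r ∈ range M, D s * (starRingEnd ℂ) (D t) * ee ((((s : ℤ) - t : ℤ) : ℝ) * ((r : ℝ) / M)) =
        if t = s then (M : ℂ) * (D s * (starRingEnd ℂ) (D s)) else 0 := by
      intro t ht
      rw [← mul_sum, ee_orth' M hM]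
      by_cases h : t = s
      · rw [if_pos h, h, if_pos (by simp)]
        ring
      · rw [if_neg h, if_neg, mul_zero]
        intro hd
        apply h
        have a1 := mem_Ioc.1 (hJ hs)
        have a2 := mem_Ioc.1 (hJ ht)
        have h4 : |(s : ℤ) - t| < M := by
          rw [abs_lt]
          constructor <;> omega
        have h5 := Int.eq_zero_of_abs_lt_dvd hd h4
        omega
    rw [sum_congr rfl h3, sum_ite_eq' J s, if_pos hs, Complex.mul_conj']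
    push_cast
    ring
  exact_mod_cast h2

/-- sums of two elements with weights -/
noncomputable def cv (I : Finset ℕ) (u v : ℕ → ℝ) (s : ℕ) : ℝ :=
  ∑ p ∈ (I ×ˢ I).filter (fun p => p.1 + p.2 = s), u p.1 * v p.2

/-- the Fourier transform -/
noncomputable def ft (I : Finset ℕ) (u : ℕ → ℝ) (α : ℝ) : ℂ := ∑ x ∈ I, ((u x : ℝ) : ℂ) * ee (x * α)

lemma ft_cv (X0 L : ℕ) (u v : ℕ → ℝ) (α : ℝ) :
    ∑ s ∈ Ioc (2 * X0) (2 * X0 + 2 * L), ((cv (Ioc X0 (X0 + L)) u v s : ℝ) : ℂ) * ee (s * α) =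
      ft (Ioc X0 (X0 + L)) u α * ft (Ioc X0 (X0 + L)) v α := by
  unfold ft
  rw [sum_mul_sum, ← sum_product']
  have h1 : ∀ s ∈ Ioc (2 * X0) (2 * X0 + 2 * L), ((cv (Ioc X0 (X0 + L)) u v s : ℝ) : ℂ) * ee (s * α) =
      ∑ p ∈ ((Ioc X0 (X0 + L)) ×ˢ (Ioc X0 (X0 + L))).filter (fun p => p.1 + p.2 = s),
        ((u p.1 : ℝ) : ℂ) * ee (p.1 * α) * (((v p.2 : ℝ) : ℂ) * ee (p.2 * α)) := by
    intro s _
    unfold cv
    rw [Complex.ofReal_sum, sum_mul]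
    apply sum_congr rfl
    intro p hp
    rw [mem_filter] at hp
    have e : ee ((s : ℝ) * α) = ee (p.1 * α) * ee (p.2 * α) := by
      rw [← ee_add, ← hp.2]
      congr 1
      push_cast
      ring
    rw [e]
    push_cast
    ring
  rw [sum_congr rfl h1]
  exact sum_fiberwise_of_maps_to (fun p hp => by
    rw [mem_product, mem_Ioc, mem_Ioc] at hp
    rw [mem_Ioc]
    omega) _

lemma sq_mul_sq_le (δ a b : ℝ) (ha : 0 ≤ a) (hb : 0 ≤ b) (haδ : a ≤ δ) : a ^ 2 * b ^ 2 ≤ δ * (a ^ 3 + b ^ 3) := by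
  have h1 : a * b ^ 2 ≤ a ^ 3 + b ^ 3 := by
    rcases le_total a b with h | h
    · have : a * b ^ 2 ≤ b * b ^ 2 := by gcongr
      have h2 : 0 ≤ a ^ 3 := by positivity
      nlinarith
    · have : a * b ^ 2 ≤ a * a ^ 2 := by gcongr
      have h2 : 0 ≤ b ^ 3 := by positivity
      nlinarith
  have h0 : 0 ≤ a * b ^ 2 := by positivity
  calc a ^ 2 * b ^ 2 = a * (a * b ^ 2) := by ring
    _ ≤ δ * (a * b ^ 2) := by gcongr
    _ ≤ δ * (a ^ 3 + b ^ 3) := by gcongr; linarith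

lemma cube_add_le (a b : ℝ) (ha : 0 ≤ a) (hb : 0 ≤ b) : (a + b) ^ 3 ≤ 4 * (a ^ 3 + b ^ 3) := by
  nlinarith [mul_nonneg (add_nonneg ha hb) (sq_nonneg (a - b))]

/-- cubes of the linear exponential sum -/
lemma cube_lin (X0 L M : ℕ) (hL : 1 ≤ L) (hM1 : L ≤ M) (hM2 : M ≤ 3 * L) :
    ∑ r ∈ range M, ‖ft (Ioc X0 (X0 + L)) (fun _ => 1) ((r : ℝ) / M)‖ ^ 3 ≤ 3 * (L : ℝ) ^ 3 := by
  have hb : ∀ α : ℝ, ‖ft (Ioc X0 (X0 + L)) (fun _ => 1) α‖ ≤ L := by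
    intro α
    unfold ft
    refine (norm_sum_le _ _).trans ?_
    simp [norm_ee]
  have hP := parseval (Ioc X0 (X0 + L)) X0 M (by omega) (by
    intro x hx
    rw [mem_Ioc] at hx ⊢
    omega) (fun _ => 1)
  have h1 : ∀ r ∈ range M, ‖ft (Ioc X0 (X0 + L)) (fun _ => 1) ((r : ℝ) / M)‖ ^ 3 ≤
      L * ‖∑ s ∈ Ioc X0 (X0 + L), (1 : ℂ) * ee (s * ((r : ℝ) / M))‖ ^ 2 := by
    intro r _
    have h2 : ft (Ioc X0 (X0 + L)) (fun _ => 1) ((r : ℝ) / M) = ∑ s ∈ Ioc X0 (X0 + L), (1 : ℂ) * ee (s * ((r : ℝ) / M)) := by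
      unfold ft
      simp
    rw [← h2, pow_succ, mul_comm]
    exact mul_le_mul_of_nonneg_right (hb _) (by positivity)
  refine (sum_le_sum h1).trans ?_
  rw [← mul_sum, hP]
  simp only [norm_one, one_pow, sum_const, Nat.card_Ioc, nsmul_eq_mul, mul_one, Nat.add_sub_cancel_left]
  have h3 : (M : ℝ) ≤ 3 * L := by exact_mod_cast hM2
  have hL0 : (0 : ℝ) ≤ L := Nat.cast_nonneg _
  calc (L : ℝ) * (M * L) ≤ L * ((3 * L) * L) := by gcongr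
    _ = 3 * (L : ℝ) ^ 3 := by ring

/-- the analytic part for two general pseudorandom weights -/
lemma conv_close_gen (X0 L : ℕ) (hL : 1 ≤ L) (u v : ℕ → ℝ) (δ C : ℝ) (hδ : 0 ≤ δ) (hC : 0 ≤ C)
    (hu : ∀ α, ‖ft (Ioc X0 (X0 + L)) u α - ft (Ioc X0 (X0 + L)) (fun _ => 1) α‖ ≤ δ)
    (hv : ∀ α, ‖ft (Ioc X0 (X0 + L)) v α - ft (Ioc X0 (X0 + L)) (fun _ => 1) α‖ ≤ δ)
    (hu3 : ∑ r ∈ range (2 * L), ‖ft (Ioc X0 (X0 + L)) u ((r : ℝ) / (2 * L : ℕ))‖ ^ 3 ≤ C * (L : ℝ) ^ 3)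
    (hv3 : ∑ r ∈ range (2 * L), ‖ft (Ioc X0 (X0 + L)) v ((r : ℝ) / (2 * L : ℕ))‖ ^ 3 ≤ C * (L : ℝ) ^ 3) :
    (∑ s ∈ Ioc (2 * X0) (2 * X0 + 2 * L), |cv (Ioc X0 (X0 + L)) u v s - cv (Ioc X0 (X0 + L)) (fun _ => 1) (fun _ => 1) s|) ^ 2 ≤
      (18 * C + 54) * δ * (L : ℝ) ^ 3 := by
  set I := Ioc X0 (X0 + L) with hI
  set J := Ioc (2 * X0) (2 * X0 + 2 * L) with hJ
  set D : ℕ → ℂ := fun s => (((cv I u v s - cv I (fun _ => 1) (fun _ => 1) s : ℝ)) : ℂ) with hD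
  have hL0 : (0 : ℝ) < L := by exact_mod_cast hL
  have hP := parseval J (2 * X0) (2 * L) (by omega) (by rw [hJ]) D
  have hE3 := cube_lin X0 L (2 * L) hL (by omega) (by omega)
  rw [← hI] at hE3
  -- the transform of the difference
  have hDt : ∀ α : ℝ, ∑ s ∈ J, D s * ee (s * α) =
      (ft I u α - ft I (fun _ => 1) α) * ft I v α + ft I (fun _ => 1) α * (ft I v α - ft I (fun _ => 1) α) := by
    intro α
    have e1 := ft_cv X0 L u v α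
    have e2 := ft_cv X0 L (fun _ => 1) (fun _ => 1) α
    rw [← hI, ← hJ] at e1 e2
    have e3 : ∑ s ∈ J, D s * ee (s * α) = ft I u α * ft I v α - ft I (fun _ => 1) α * ft I (fun _ => 1) α := by
      rw [← e1, ← e2, ← sum_sub_distrib]
      apply sum_congr rfl
      intro s _
      simp only [hD]
      push_cast
      ring
    rw [e3]
    ring
  have hDn : ∀ α : ℝ, ‖∑ s ∈ J, D s * ee (s * α)‖ ^ 2 ≤
      2 * δ * (4 * (‖ft I u α‖ ^ 3 + ‖ft I (fun _ => 1) α‖ ^ 3) + ‖ft I v α‖ ^ 3) +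
      2 * δ * (4 * (‖ft I v α‖ ^ 3 + ‖ft I (fun _ => 1) α‖ ^ 3) + ‖ft I (fun _ => 1) α‖ ^ 3) := by
    intro α
    rw [hDt α]
    set A := ft I u α
    set B := ft I v α
    set E := ft I (fun _ => 1) α
    have n1 : ‖(A - E) * B + E * (B - E)‖ ^ 2 ≤ 2 * (‖A - E‖ ^ 2 * ‖B‖ ^ 2) + 2 * (‖B - E‖ ^ 2 * ‖E‖ ^ 2) := by
      have k1 := norm_add_le ((A - E) * B) (E * (B - E))
      rw [norm_mul, norm_mul] at k1
      have k2 : 0 ≤ ‖(A - E) * B + E * (B - E)‖ := norm_nonneg _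
      calc ‖(A - E) * B + E * (B - E)‖ ^ 2 ≤ (‖A - E‖ * ‖B‖ + ‖E‖ * ‖B - E‖) ^ 2 := by gcongr
        _ ≤ _ := by nlinarith [sq_nonneg (‖A - E‖ * ‖B‖ - ‖E‖ * ‖B - E‖)]
    have n2 := sq_mul_sq_le δ ‖A - E‖ ‖B‖ (norm_nonneg _) (norm_nonneg _) (hu α)
    have n3 := sq_mul_sq_le δ ‖B - E‖ ‖E‖ (norm_nonneg _) (norm_nonneg _) (hv α)
    have n4 : ‖A - E‖ ^ 3 ≤ 4 * (‖A‖ ^ 3 + ‖E‖ ^ 3) :=
      (pow_le_pow_left₀ (norm_nonneg _) (norm_sub_le A E) 3).trans (cube_add_le _ _ (norm_nonneg _) (norm_nonneg _))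
    have n5 : ‖B - E‖ ^ 3 ≤ 4 * (‖B‖ ^ 3 + ‖E‖ ^ 3) :=
      (pow_le_pow_left₀ (norm_nonneg _) (norm_sub_le B E) 3).trans (cube_add_le _ _ (norm_nonneg _) (norm_nonneg _))
    have n6 : δ * (‖A - E‖ ^ 3 + ‖B‖ ^ 3) ≤ δ * (4 * (‖A‖ ^ 3 + ‖E‖ ^ 3) + ‖B‖ ^ 3) := by gcongr
    have n7 : δ * (‖B - E‖ ^ 3 + ‖E‖ ^ 3) ≤ δ * (4 * (‖B‖ ^ 3 + ‖E‖ ^ 3) + ‖E‖ ^ 3) := by gcongr
    linarith
  have hsum : ∑ r ∈ range (2 * L), ‖∑ s ∈ J, D s * ee (s * ((r : ℝ) / (2 * L : ℕ)))‖ ^ 2 ≤ (18 * C + 54) * δ * (L : ℝ) ^ 3 := by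
    refine (sum_le_sum (s := range (2 * L)) fun (r : ℕ) _ => hDn ((r : ℝ) / ((2 * L : ℕ) : ℝ))).trans ?_
    simp only [sum_add_distrib, ← mul_sum]
    have m1 : 0 ≤ ∑ r ∈ range (2 * L), ‖ft I u ((r : ℝ) / (2 * L : ℕ))‖ ^ 3 := sum_nonneg fun _ _ => by positivity
    calc _ ≤ 2 * δ * (4 * (C * (L : ℝ) ^ 3 + 3 * (L : ℝ) ^ 3) + C * (L : ℝ) ^ 3) +
        2 * δ * (4 * (C * (L : ℝ) ^ 3 + 3 * (L : ℝ) ^ 3) + 3 * (L : ℝ) ^ 3) := by gcongr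
      _ = (18 * C + 54) * δ * (L : ℝ) ^ 3 := by ring
  rw [hP] at hsum
  -- Cauchy-Schwarz
  have hcs : (∑ s ∈ J, |cv I u v s - cv I (fun _ => 1) (fun _ => 1) s|) ^ 2 ≤
      J.card * ∑ s ∈ J, |cv I u v s - cv I (fun _ => 1) (fun _ => 1) s| ^ 2 := by
    have := sq_sum_le_card_mul_sum_sq (s := J) (f := fun s => |cv I u v s - cv I (fun _ => 1) (fun _ => 1) s|)
    exact this
  have hcard : (J.card : ℝ) = ((2 * L : ℕ) : ℝ) := by
    rw [hJ, Nat.card_Ioc]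
    congr 1
    omega
  have hDD : ∑ s ∈ J, ‖D s‖ ^ 2 = ∑ s ∈ J, |cv I u v s - cv I (fun _ => 1) (fun _ => 1) s| ^ 2 := by
    apply sum_congr rfl
    intro s _
    simp only [hD]
    rw [Complex.norm_real, Real.norm_eq_abs]
  rw [hDD] at hsum
  rw [hcard] at hcs
  exact hcs.trans hsum

/-- the number of representations as a sum of two primes in given classes, on average -/
lemma conv_close : ∃ C : ℝ, 0 < C ∧ ∀ (w W : ℕ), Squarefree W → 1 ≤ w → (∀ p : ℕ, p.Prime → p ≤ w → p ∣ W) → ∀ A : ℕ,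
    ∃ N0 : ℕ, ∀ N : ℕ, N0 ≤ N → ∀ b b' : ℕ, b.Coprime W → b'.Coprime W → ∀ X0 L : ℕ, L ≤ X0 → N / Real.log N ^ A ≤ (L : ℝ) →
      W * (X0 + L) + b ≤ N → W * (X0 + L) + b' ≤ N →
      ∑ s ∈ Ioc (2 * X0) (2 * X0 + 2 * L), |cv (Ioc X0 (X0 + L)) (nuW W b) (nuW W b') s -
        cv (Ioc X0 (X0 + L)) (fun _ => 1) (fun _ => 1) s| ≤ C / √(w : ℝ) * (L : ℝ) ^ 2 := by
  obtain ⟨C, hC, hcube⟩ := cube_sum
  refine ⟨√((18 * C + 54) * 2), by positivity, fun w W hWsq hw1 hw A => ?_⟩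
  obtain ⟨N1, h1⟩ := hcube w W hWsq hw1 hw A
  obtain ⟨N2, h2⟩ := nu_sup w W hWsq hw1 hw (A + 1)
  obtain ⟨n3, h3⟩ := ev_L' (w + 1)
  refine ⟨max N1 (max N2 (max n3 3)), fun N hN b b' hb hb' X0 L hLX hLN hXN hXN' => ?_⟩
  have k1 := h1 N (le_trans (le_max_left _ _) hN)
  have k2 := h2 N (le_trans (le_trans (le_max_left _ _) (le_max_right _ _)) hN)
  have k3 := h3 N (le_trans (le_trans (le_trans (le_max_left _ _) (le_max_right _ _)) (le_max_right _ _)) hN)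
  have hN3 : 3 ≤ N := le_trans (le_trans (le_trans (le_max_right _ _) (le_max_right _ _)) (le_max_right _ _)) hN
  have hNpos : (0 : ℝ) < N := by exact_mod_cast (by omega : 0 < N)
  have hw0 : (0 : ℝ) < w := by exact_mod_cast hw1
  set LL := Real.log N with hLL
  have hLL0 : 0 < LL := by linarith
  have hLpos : (0 : ℝ) < L := lt_of_lt_of_le (by positivity) hLN
  have hL1 : 1 ≤ L := by exact_mod_cast hLpos
  set δ : ℝ := 2 * L / w with hδ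
  have hδ0 : 0 ≤ δ := by positivity
  have herr : (L : ℝ) / w + N / LL ^ (A + 1) ≤ δ := by
    have e1 : (N : ℝ) / LL ^ (A + 1) = (N / LL ^ A) / LL := by rw [pow_succ]; field_simp
    have e2 : (N : ℝ) / LL ^ A / LL ≤ L / w := by
      rw [div_le_div_iff₀ hLL0 hw0]
      have e3 : (w : ℝ) ≤ LL := by linarith
      have e4 : 0 ≤ (N : ℝ) / LL ^ A := by positivity
      calc (N : ℝ) / LL ^ A * w ≤ L * LL := by gcongr
        _ = L * LL := rfl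
    rw [e1, hδ]
    have e5 : 2 * (L : ℝ) / w = L / w + L / w := by ring
    linarith
  have hft : ∀ c : ℕ, c.Coprime W → W * (X0 + L) + c ≤ N → ∀ α, ‖ft (Ioc X0 (X0 + L)) (nuW W c) α - ft (Ioc X0 (X0 + L)) (fun _ => 1) α‖ ≤ δ := by
    intro c hc hcN α
    have e1 := k2 c hc X0 L hcN α
    have e2 : ft (Ioc X0 (X0 + L)) (nuW W c) α - ft (Ioc X0 (X0 + L)) (fun _ => 1) α =
        ∑ x ∈ Ioc X0 (X0 + L), ((nuW W c x - 1 : ℝ) : ℂ) * ee (x * α) := by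
      unfold ft
      rw [← sum_sub_distrib]
      apply sum_congr rfl
      intro x _
      push_cast
      ring
    rw [e2]
    exact e1.trans herr
  have hcu : ∀ c : ℕ, c.Coprime W → W * (X0 + L) + c ≤ N →
      ∑ r ∈ range (2 * L), ‖ft (Ioc X0 (X0 + L)) (nuW W c) ((r : ℝ) / (2 * L : ℕ))‖ ^ 3 ≤ C * (L : ℝ) ^ 3 := by
    intro c hc hcN
    exact k1 c hc X0 L hLX hLN hcN (fun x => ((nuW W c x : ℝ) : ℂ)) (fun x => by
      rw [Complex.norm_real, Real.norm_eq_abs, abs_of_nonneg (nuW_nonneg W c x)]) (2 * L) (by omega) (by omega)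
  have key := conv_close_gen X0 L hL1 (nuW W b) (nuW W b') δ C hδ0 hC.le (hft b hb hXN) (hft b' hb' hXN')
    (hcu b hb hXN) (hcu b' hb' hXN')
  have h4 := Real.le_sqrt_of_sq_le key
  refine h4.trans ?_
  have h5 : (18 * C + 54) * δ * (L : ℝ) ^ 3 = ((18 * C + 54) * 2) * (((L : ℝ) ^ 2) ^ 2 / w) := by
    rw [hδ]; field_simp
  rw [h5, Real.sqrt_mul (by positivity), Real.sqrt_div (by positivity), Real.sqrt_sq (by positivity)]
  apply le_of_eq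
  ring

end Pool.Agent.H566
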