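import Mathlib
import Pool.Graph.R_seed8.H373R2.T7.Crt

/-!
A kernel on the reduced residues modulo a primorial, constant on average along the sums.
-/

set_option autoImplicit false

namespace Pool.Agent.H566

open Finset
open Pool.Agent.H373R2.T7

/-- primes up to w -/
def prW (w : ℕ) : Finset ℕ := (range (w + 1)).filter Nat.Prime

/-- primorial -/
def pmW (w : ℕ) : ℕ := ∏ p ∈ prW w, p

/-- reduced residues -/
def unW (w : ℕ) : Finset ℕ := (range (pmW w)).filter (fun b => b.Coprime (pmW w))

/-- the kernel -/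
def ker (w b b' : ℕ) : ℕ := ∑ D ∈ ((prW w).erase 2).powerset, if (∀ p ∈ D, b % p = b' % p) then 1 else 0

lemma prW_prime (w : ℕ) : ∀ p ∈ prW w, p.Prime := fun _ hp => (mem_filter.1 hp).2

lemma pmW_pos (w : ℕ) : 0 < pmW w := prod_pos fun p hp => (prW_prime w p hp).pos

lemma coprime_pmW (w b : ℕ) : b.Coprime (pmW w) ↔ ∀ p ∈ prW w, b % p ≠ 0 := by
  unfold pmW
  rw [Nat.coprime_prod_right_iff]
  constructor
  · intro h p hp h0
    have h1 := h p hp
    rw [Nat.coprime_comm, (prW_prime w p hp).coprime_iff_not_dvd] at h1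
    exact h1 (Nat.dvd_of_mod_eq_zero h0)
  · intro h p hp
    rw [Nat.coprime_comm, (prW_prime w p hp).coprime_iff_not_dvd]
    intro h0
    exact h p hp (Nat.mod_eq_zero_of_dvd h0)

lemma dvd_pmW (w p : ℕ) (hp : p ∈ prW w) : p ∣ pmW w := dvd_prod_of_mem _ hp

lemma pmW_squarefree (w : ℕ) : Squarefree (pmW w) := by
  unfold pmW
  apply Finset.squarefree_prod_of_pairwise_isCoprime
  · intro p hp q hq hpq
    rw [Function.onFun, ← Nat.coprime_iff_isRelPrime] 
    exact (Nat.coprime_primes (prW_prime w p hp) (prW_prime w q hq)).2 hpq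
  · intro p hp
    exact (prW_prime w p hp).squarefree

lemma pmW_all (w : ℕ) : ∀ p : ℕ, p.Prime → p ≤ w → p ∣ pmW w := by
  intro p hp hpw
  apply dvd_pmW
  unfold prW
  rw [mem_filter, mem_range]
  exact ⟨by omega, hp⟩

/-- counting pairs of reduced residues with a given sum that agree modulo the primes in a set -/
lemma pair_card (w n : ℕ) (D : Finset ℕ) (hD : D ⊆ prW w) :
    ((unW w ×ˢ unW w).filter (fun q => (q.1 + q.2) % pmW w = n % pmW w ∧ ∀ p ∈ D, q.1 % p = q.2 % p)).card =
      ∏ p ∈ prW w, ((range p).filter (fun a => a ≠ 0 ∧ a ≠ n % p ∧ (p ∈ D → (2 * a) % p = n % p))).card := by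
  classical
  have h := crt_card (fun p a => a ≠ 0 ∧ a ≠ n % p ∧ (p ∈ D → (2 * a) % p = n % p)) (prW w) (prW_prime w)
  rw [← h]
  set W := pmW w with hW
  have hW0 : 0 < W := pmW_pos w
  have hWe : (∏ p ∈ prW w, p) = W := rfl
  rw [hWe]
  -- facts on the partner
  have hpart : ∀ b, b < W → (b + (n % W + W - b) % W) % W = n % W := by
    intro b hb
    have h1 : (b + (n % W + W - b) % W) % W = (b + (n % W + W - b)) % W := by
      rw [Nat.add_mod, Nat.mod_mod, ← Nat.add_mod]
    rw [h1]
    have h2 : b + (n % W + W - b) = n % W + W := by omega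
    rw [h2, Nat.add_mod_right, Nat.mod_mod]
  have hred : ∀ b b' p, p ∈ prW w → (b + b') % W = n % W → (b + b') % p = n % p := by
    intro b b' p hp hb
    exact (Nat.ModEq.of_dvd (dvd_pmW w p hp) (show (b + b') ≡ n [MOD W] from hb))
  have huniq : ∀ b b₁ b₂, b₁ < W → b₂ < W → (b + b₁) % W = n % W → (b + b₂) % W = n % W → b₁ = b₂ := by
    intro b b₁ b₂ h1 h2 h3 h4
    have h5 : b + b₁ ≡ b + b₂ [MOD W] := by
      unfold Nat.ModEq
      rw [h3, h4]
    have h6 := Nat.ModEq.add_left_cancel' b h5
    exact Nat.ModEq.eq_of_lt_of_lt h6 h1 h2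
  have hzero : ∀ b b' p, p.Prime → (b + b') % p = n % p → (b' % p ≠ 0 ↔ b % p ≠ n % p) := by
    intro b b' p hp hb
    rw [not_iff_not]
    constructor
    · intro h0
      rw [Nat.add_mod, h0, add_zero, Nat.mod_mod] at hb
      exact hb
    · intro h0
      rw [← hb] at h0
      have h1 : b + 0 ≡ b + b' [MOD p] := h0
      have h2 := Nat.ModEq.add_left_cancel' b h1
      have h3 : 0 % p = b' % p := h2
      rw [Nat.zero_mod] at h3
      exact h3.symm
  have htwo : ∀ b b' p, (b + b') % p = n % p → (b % p = b' % p ↔ (2 * b) % p = n % p) := by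
    intro b b' p hb
    rw [← hb, two_mul]
    constructor
    · intro h0
      exact Nat.ModEq.add_left b h0
    · intro h0
      exact Nat.ModEq.add_left_cancel' b h0
  refine card_bij' (fun q _ => q.1) (fun b _ => (b, (n % W + W - b) % W)) ?_ ?_ ?_ ?_
  · rintro ⟨b, b'⟩ hq
    rw [mem_filter, mem_product] at hq
    obtain ⟨⟨hb, hb'⟩, hs, hDD⟩ := hq
    simp only at hb hb' hs hDD
    unfold unW at hb hb'
    rw [mem_filter, mem_range, coprime_pmW] at hb hb'
    rw [mem_filter, mem_range]
    refine ⟨hb.1, fun p hp => ⟨hb.2 p hp, ?_, ?_⟩⟩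
    · exact (hzero b b' p (prW_prime w p hp) (hred b b' p hp hs)).1 (hb'.2 p hp)
    · intro hpD
      have := (htwo b b' p (hred b b' p hp hs)).1 (hDD p hpD)
      rw [Nat.mul_mod, Nat.mod_mod, ← Nat.mul_mod]
      exact this
  · intro b hb
    rw [mem_filter, mem_range] at hb
    obtain ⟨hbW, hb2⟩ := hb
    have hs := hpart b hbW
    rw [mem_filter, mem_product]
    unfold unW
    rw [mem_filter, mem_range, coprime_pmW, mem_filter, mem_range, coprime_pmW]
    refine ⟨⟨⟨hbW, fun p hp => (hb2 p hp).1⟩, Nat.mod_lt _ hW0, fun p hp => ?_⟩, hs, fun p hpD => ?_⟩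
    · exact (hzero b _ p (prW_prime w p hp) (hred b _ p hp hs)).2 (hb2 p hp).2.1
    · have hp := hD hpD
      have h3 := (hb2 p hp).2.2 hpD
      rw [Nat.mul_mod, Nat.mod_mod, ← Nat.mul_mod] at h3
      exact (htwo b _ p (hred b _ p hp hs)).2 h3
  · rintro ⟨b, b'⟩ hq
    rw [mem_filter, mem_product] at hq
    obtain ⟨⟨hb, hb'⟩, hs, hDD⟩ := hq
    simp only at hb hb' hs hDD
    unfold unW at hb hb'
    rw [mem_filter, mem_range] at hb hb'
    simp only [Prod.mk.injEq, true_and]
    exact huniq b _ _ (Nat.mod_lt _ hW0) hb'.1 (hpart b hb.1) hs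
  · intro b hb
    rfl

/-- the local counts for an odd prime -/
lemma local_odd (p n : ℕ) (hp : p.Prime) (hp2 : p ≠ 2) :
    ((range p).filter (fun a => a ≠ 0 ∧ a ≠ n % p ∧ (2 * a) % p = n % p)).card +
      ((range p).filter (fun a => a ≠ 0 ∧ a ≠ n % p)).card = p - 1 := by
  have hp1 := hp.one_lt
  have hodd : p % 2 = 1 := by
    rcases hp.eq_two_or_odd with h | h
    · exact absurd h hp2
    · exact h
  have hnp : n % p < p := Nat.mod_lt _ (by omega)
  by_cases h0 : n % p = 0
  · have e1 : (range p).filter (fun a => a ≠ 0 ∧ a ≠ n % p ∧ (2 * a) % p = n % p) = ∅ := by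
      rw [filter_eq_empty_iff]
      intro a ha hc
      rw [mem_range] at ha
      obtain ⟨c1, c2, c3⟩ := hc
      rw [h0] at c3
      have c4 := Nat.dvd_of_mod_eq_zero c3
      rcases (Nat.Prime.dvd_mul hp).1 c4 with c5 | c5
      · exact hp2 ((Nat.prime_dvd_prime_iff_eq hp Nat.prime_two).1 c5)
      · exact c1 (Nat.eq_zero_of_dvd_of_lt c5 ha)
    have e2 : (range p).filter (fun a => a ≠ 0 ∧ a ≠ n % p) = (range p).erase 0 := by
      ext a
      rw [mem_filter, mem_erase, h0]
      tauto
    rw [e1, e2, card_empty, card_erase_of_mem (mem_range.2 (by omega)), card_range, zero_add]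
  · have e2 : (range p).filter (fun a => a ≠ 0 ∧ a ≠ n % p) = ((range p).erase 0).erase (n % p) := by
      ext a
      rw [mem_filter, mem_erase, mem_erase]
      tauto
    have e3 : ((range p).filter (fun a => a ≠ 0 ∧ a ≠ n % p)).card = p - 2 := by
      rw [e2, card_erase_of_mem, card_erase_of_mem (mem_range.2 (by omega)), card_range]
      · omega
      · rw [mem_erase, mem_range]
        exact ⟨h0, hnp⟩
    set h2 : ℕ := (p + 1) / 2 with hh2
    have hh : 2 * h2 = p + 1 := by omega
    have e1 : (range p).filter (fun a => a ≠ 0 ∧ a ≠ n % p ∧ (2 * a) % p = n % p) = {(n * h2) % p} := by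
      ext a
      rw [mem_filter, mem_range, mem_singleton]
      constructor
      · rintro ⟨c1, c2, c3, c4⟩
        have c5 : 2 * a ≡ n [MOD p] := c4
        have c6 : 2 * a * h2 ≡ n * h2 [MOD p] := c5.mul_right h2
        have c7 : 2 * a * h2 = a + a * p := by
          calc 2 * a * h2 = a * (2 * h2) := by ring
            _ = a + a * p := by rw [hh]; ring
        rw [c7] at c6
        have c8 : a % p = (n * h2) % p := by
          rw [← c6, Nat.add_mul_mod_self_right]
        rw [← c8, Nat.mod_eq_of_lt c1]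
      · intro ha
        have c1 : (2 * a) % p = n % p := by
          rw [ha, Nat.mul_mod, Nat.mod_mod, ← Nat.mul_mod]
          have : 2 * (n * h2) = n + n * p := by
            calc 2 * (n * h2) = n * (2 * h2) := by ring
              _ = n + n * p := by rw [hh]; ring
          rw [this, Nat.add_mul_mod_self_right]
        have c2 : a < p := by rw [ha]; exact Nat.mod_lt _ (by omega)
        have c3 : a ≠ 0 := by
          intro h
          rw [h, mul_zero, Nat.zero_mod] at c1
          exact h0 c1.symm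
        refine ⟨c2, c3, ?_, c1⟩
        intro h
        rw [← h] at c1
        have c4 : a + a ≡ a + 0 [MOD p] := by
          unfold Nat.ModEq
          rw [← two_mul, c1, add_zero, Nat.mod_eq_of_lt c2]
        have c5 := Nat.ModEq.add_left_cancel' a c4
        have c6 : a % p = 0 := by
          have : a % p = 0 % p := c5
          rw [this, Nat.zero_mod]
        rw [Nat.mod_eq_of_lt c2] at c6
        exact c3 c6
    rw [e1, e3, card_singleton]
    have : 3 ≤ p := by omega
    omega

/-- the kernel is constant on average along the sums -/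
lemma ker_sum (w n : ℕ) (hw : 2 ≤ w) (hn : Even n) :
    ∑ q ∈ (unW w ×ˢ unW w).filter (fun q => (q.1 + q.2) % pmW w = n % pmW w), ker w q.1 q.2 = (pmW w).totient := by
  classical
  have h2 : 2 ∈ prW w := by
    unfold prW
    rw [mem_filter, mem_range]
    exact ⟨by omega, Nat.prime_two⟩
  unfold ker
  rw [sum_comm]
  have h1 : ∀ D ∈ ((prW w).erase 2).powerset,
      ∑ q ∈ (unW w ×ˢ unW w).filter (fun q => (q.1 + q.2) % pmW w = n % pmW w), (if (∀ p ∈ D, q.1 % p = q.2 % p) then 1 else 0) =
      (∏ p ∈ D, ((range p).filter (fun a => a ≠ 0 ∧ a ≠ n % p ∧ (2 * a) % p = n % p)).card) *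
        (∏ p ∈ ((prW w).erase 2) \ D, ((range p).filter (fun a => a ≠ 0 ∧ a ≠ n % p)).card) := by
    intro D hD
    rw [mem_powerset] at hD
    rw [← sum_filter, filter_filter, sum_const, smul_eq_mul, mul_one, pair_card w n D (hD.trans (erase_subset _ _))]
    rw [← mul_prod_erase _ _ h2]
    have h22 : 2 ∉ D := fun h => (mem_erase.1 (hD h)).1 rfl
    have e1 : ((range 2).filter (fun a => a ≠ 0 ∧ a ≠ n % 2 ∧ (2 ∈ D → (2 * a) % 2 = n % 2))).card = 1 := by
      rw [card_eq_one]
      refine ⟨1, ?_⟩
      ext a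
      rw [mem_filter, mem_range, mem_singleton, Nat.even_iff.1 hn]
      constructor
      · rintro ⟨c1, c2, c3⟩
        omega
      · rintro rfl
        exact ⟨by omega, by omega, by omega, fun h => absurd h h22⟩
    rw [e1, one_mul, ← prod_sdiff hD, mul_comm]
    congr 1
    · apply prod_congr rfl
      intro p hp
      congr 1
      apply filter_congr
      intro a _
      simp [hp]
    · apply prod_congr rfl
      intro p hp
      congr 1
      apply filter_congr
      intro a _
      simp [(mem_sdiff.1 hp).2]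
  rw [sum_congr rfl h1, ← prod_add]
  have h3 : (pmW w).totient = ∏ p ∈ prW w, (p - 1) := totient_prod _ (prW_prime w)
  rw [h3, ← mul_prod_erase _ _ h2, show (2 - 1 : ℕ) = 1 from rfl, one_mul]
  apply prod_congr rfl
  intro p hp
  exact local_odd p n (prW_prime w p (mem_erase.1 hp).2) (mem_erase.1 hp).1

/-- the sums of two reduced residues are even -/
lemma unW_odd (w b : ℕ) (hw : 2 ≤ w) (hb : b ∈ unW w) : b % 2 = 1 := by
  unfold unW at hb
  rw [mem_filter, coprime_pmW] at hb
  have h2 : 2 ∈ prW w := by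
    unfold prW
    rw [mem_filter, mem_range]
    exact ⟨by omega, Nat.prime_two⟩
  have := hb.2 2 h2
  omega

lemma pmW_even (w : ℕ) (hw : 2 ≤ w) : 2 ∣ pmW w := pmW_all w 2 Nat.prime_two hw

/-- the total mass of the kernel -/
lemma ker_total (w : ℕ) (hw : 2 ≤ w) :
    2 * ∑ q ∈ unW w ×ˢ unW w, ker w q.1 q.2 = pmW w * (pmW w).totient := by
  classical
  have hW0 := pmW_pos w
  obtain ⟨V, hV⟩ := pmW_even w hw
  have h1 : ∑ q ∈ unW w ×ˢ unW w, ker w q.1 q.2 =
      ∑ n ∈ range (pmW w), ∑ q ∈ (unW w ×ˢ unW w).filter (fun q => (q.1 + q.2) % pmW w = n), ker w q.1 q.2 := by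
    symm
    exact sum_fiberwise_of_maps_to (fun q _ => mem_range.2 (Nat.mod_lt _ hW0)) _
  have h2 : ∀ n ∈ range (pmW w), ∑ q ∈ (unW w ×ˢ unW w).filter (fun q => (q.1 + q.2) % pmW w = n), ker w q.1 q.2 =
      if n % 2 = 0 then (pmW w).totient else 0 := by
    intro n hn
    rw [mem_range] at hn
    split_ifs with h
    · rw [← ker_sum w n hw (Nat.even_iff.2 h), Nat.mod_eq_of_lt hn]
    · apply sum_eq_zero_iff.2
      intro q hq
      exfalso
      rw [mem_filter, mem_product] at hq
      have o1 := unW_odd w q.1 hw hq.1.1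
      have o2 := unW_odd w q.2 hw hq.1.2
      have o3 : ((q.1 + q.2) % pmW w) % 2 = (q.1 + q.2) % 2 := Nat.mod_mod_of_dvd _ (pmW_even w hw)
      rw [hq.2] at o3
      omega
  rw [h1, sum_congr rfl h2, ← sum_filter, sum_const, smul_eq_mul]
  have h3 : ((range (pmW w)).filter (fun n => n % 2 = 0)).card = V := by
    rw [hV]
    have : (range (2 * V)).filter (fun n => n % 2 = 0) = (range V).image (fun x => 2 * x) := by
      ext n
      rw [mem_filter, mem_range, mem_image]
      constructor
      · rintro ⟨c1, c2⟩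
        exact ⟨n / 2, mem_range.2 (by omega), by omega⟩
      · rintro ⟨x, hx, rfl⟩
        rw [mem_range] at hx
        omega
    rw [this, card_image_of_injective _ (fun a b h => by simpa using h), card_range]
  rw [h3]
  have h4 : pmW w * (pmW w).totient = 2 * V * (pmW w).totient := by rw [← hV]
  rw [h4]
  ring

end Pool.Agent.H566
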