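import Mathlib
import Pool.Agent.H566.MGh
import Pool.Agent.H566.MGi

/-!
Colourings of the primes: the positive definite kernel and the Cauchy inequality over the colours.
-/

set_option autoImplicit false

namespace Pool.Agent.H566

open Finset
open Pool.Agent.H807R2.Dav

lemma pair_fiber {ι κ : Type*} [DecidableEq κ] (U : Finset ι) (f : ι → κ) (g h : ι → ℝ) :
    ∑ q ∈ U ×ˢ U, (if f q.1 = f q.2 then g q.1 * h q.2 else 0) =
      ∑ v ∈ U.image f, (∑ b ∈ U.filter (fun b => f b = v), g b) * (∑ b ∈ U.filter (fun b => f b = v), h b) := by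
  rw [sum_product]
  have h1 : ∀ v ∈ U.image f, (∑ b ∈ U.filter (fun b => f b = v), g b) * (∑ b ∈ U.filter (fun b => f b = v), h b) =
      ∑ b ∈ U.filter (fun b => f b = v), ∑ b' ∈ U, (if f b = f b' then g b * h b' else 0) := by
    intro v _
    rw [sum_mul_sum]
    apply sum_congr rfl
    intro b hb
    rw [mem_filter] at hb
    rw [sum_filter]
    apply sum_congr rfl
    intro b' _
    rw [hb.2]
    by_cases h : f b' = v
    · rw [if_pos h, if_pos h.symm]
    · rw [if_neg h, if_neg (fun h' => h h'.symm)]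
  rw [sum_congr rfl h1]
  exact (sum_fiberwise_of_maps_to (fun b hb => mem_image_of_mem f hb) _).symm

lemma colour_cauchy {ι κ : Type*} [DecidableEq κ] (U : Finset ι) (f : ι → κ) (K : ℕ) (a : Fin K → ι → ℝ) :
    ∑ q ∈ U ×ˢ U, (if f q.1 = f q.2 then (∑ c, a c q.1) * (∑ c, a c q.2) else 0) ≤
      K * ∑ q ∈ U ×ˢ U, (if f q.1 = f q.2 then ∑ c, a c q.1 * a c q.2 else 0) := by
  rw [pair_fiber U f (fun b => ∑ c, a c b) (fun b => ∑ c, a c b)]
  have h1 : ∑ q ∈ U ×ˢ U, (if f q.1 = f q.2 then ∑ c, a c q.1 * a c q.2 else 0) =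
      ∑ v ∈ U.image f, ∑ c, (∑ b ∈ U.filter (fun b => f b = v), a c b) ^ 2 := by
    have h2 : ∀ q ∈ U ×ˢ U, (if f q.1 = f q.2 then ∑ c, a c q.1 * a c q.2 else 0) =
        ∑ c, (if f q.1 = f q.2 then a c q.1 * a c q.2 else 0) := by
      intro q _
      split_ifs <;> simp
    rw [sum_congr rfl h2, sum_comm]
    have h3 : ∀ c ∈ (univ : Finset (Fin K)), ∑ q ∈ U ×ˢ U, (if f q.1 = f q.2 then a c q.1 * a c q.2 else 0) =
        ∑ v ∈ U.image f, (∑ b ∈ U.filter (fun b => f b = v), a c b) ^ 2 := by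
      intro c _
      rw [pair_fiber U f (a c) (a c)]
      apply sum_congr rfl
      intro v _
      ring
    rw [sum_congr rfl h3, sum_comm]
  rw [h1, mul_sum]
  apply sum_le_sum
  intro v _
  rw [sum_comm]
  have h4 := sq_sum_le_card_mul_sum_sq (s := (univ : Finset (Fin K))) (f := fun c => ∑ b ∈ U.filter (fun b => f b = v), a c b)
  rw [card_univ, Fintype.card_fin] at h4
  calc _ = (∑ c, ∑ b ∈ U.filter (fun b => f b = v), a c b) ^ 2 := by ring
    _ ≤ _ := h4

lemma ker_cauchy (w K : ℕ) (a : Fin K → ℕ → ℝ) :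
    ∑ q ∈ unW w ×ˢ unW w, (ker w q.1 q.2 : ℝ) * ((∑ c, a c q.1) * (∑ c, a c q.2)) ≤
      K * ∑ q ∈ unW w ×ˢ unW w, (ker w q.1 q.2 : ℝ) * ∑ c, a c q.1 * a c q.2 := by
  classical
  set F : Finset ℕ → ℕ → (ℕ → ℕ) := fun D b p => if p ∈ D then b % p else 0 with hF
  have hiff : ∀ (D : Finset ℕ) (b b' : ℕ), (∀ p ∈ D, b % p = b' % p) ↔ F D b = F D b' := by
    intro D b b'
    constructor
    · intro h
      funext p
      simp only [hF]
      by_cases hp : p ∈ D
      · rw [if_pos hp, if_pos hp, h p hp]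
      · rw [if_neg hp, if_neg hp]
    · intro h p hp
      have := congrFun h p
      simp only [hF] at this
      rwa [if_pos hp, if_pos hp] at this
  have hk : ∀ (g : ℕ × ℕ → ℝ), ∑ q ∈ unW w ×ˢ unW w, (ker w q.1 q.2 : ℝ) * g q =
      ∑ D ∈ ((prW w).erase 2).powerset, ∑ q ∈ unW w ×ˢ unW w, (if F D q.1 = F D q.2 then g q else 0) := by
    intro g
    rw [sum_comm]
    apply sum_congr rfl
    intro q _
    unfold ker
    push_cast
    rw [sum_mul]
    apply sum_congr rfl
    intro D _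
    by_cases h : F D q.1 = F D q.2
    · rw [if_pos h, if_pos ((hiff D q.1 q.2).2 h), one_mul]
    · rw [if_neg h, if_neg (fun h' => h ((hiff D q.1 q.2).1 h')), zero_mul]
  rw [hk (fun q => (∑ c, a c q.1) * (∑ c, a c q.2)), hk (fun q => ∑ c, a c q.1 * a c q.2), mul_sum]
  apply sum_le_sum
  intro D _
  exact colour_cauchy (unW w) (F D) K a

/-- monochromatic representations with weights -/
noncomputable def mono {K : ℕ} (χ : ℕ → Fin K) (W : ℕ) (I : Finset ℕ) (b b' s : ℕ) : ℝ :=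
  ∑ p ∈ (I ×ˢ I).filter (fun p => p.1 + p.2 = s),
    nuW W b p.1 * nuW W b' p.2 * (if χ (W * p.1 + b) = χ (W * p.2 + b') then 1 else 0)

/-- the number of monochromatic representations as a sum of two primes which differ by at most `D` -/
def monoRep {K : ℕ} (χ : ℕ → Fin K) (D n : ℕ) : ℕ :=
  ((antidiagonal n).filter (fun q => q.1.Prime ∧ q.2.Prime ∧ χ q.1 = χ q.2 ∧ q.1 ≤ q.2 + D ∧ q.2 ≤ q.1 + D)).card

lemma mono_le_cv {K : ℕ} (χ : ℕ → Fin K) (W : ℕ) (I : Finset ℕ) (b b' s : ℕ) :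
    mono χ W I b b' s ≤ cv I (nuW W b) (nuW W b') s := by
  unfold mono cv
  apply sum_le_sum
  intro p _
  have h1 := nuW_nonneg W b p.1
  have h2 := nuW_nonneg W b' p.2
  split_ifs
  · rw [mul_one]
  · rw [mul_zero]
    positivity

lemma nuW_le (W b x N : ℕ) (hN : W * x + b ≤ N) (hW : 0 < W) :
    nuW W b x ≤ if (W * x + b).Prime then Real.log N else 0 := by
  unfold nuW th
  split_ifs with h
  · have h1 : (W.totient : ℝ) / W ≤ 1 := by
      rw [div_le_one (by exact_mod_cast hW)]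
      exact_mod_cast Nat.totient_le W
    have h2 : Real.log ((W * x + b : ℕ) : ℝ) ≤ Real.log N := by
      apply Real.log_le_log
      · exact_mod_cast h.pos
      · exact_mod_cast hN
    have h3 : 0 ≤ Real.log ((W * x + b : ℕ) : ℝ) := Real.log_natCast_nonneg _
    have h4 : (0 : ℝ) ≤ (W.totient : ℝ) / W := by positivity
    nlinarith
  · rw [mul_zero]

lemma mono_le_rep {K : ℕ} (χ : ℕ → Fin K) (W : ℕ) (hW : 0 < W) (X0 L b b' s N D : ℕ)
    (h1 : W * (X0 + L) + b ≤ N) (h2 : W * (X0 + L) + b' ≤ N) (hb : b < W) (hb' : b' < W) (hD : W * (L + 1) ≤ D) :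
    mono χ W (Ioc X0 (X0 + L)) b b' s ≤ Real.log N ^ 2 * monoRep χ D (W * s + b + b') := by
  classical
  set I := Ioc X0 (X0 + L) with hI
  have hlog : 0 ≤ Real.log N := Real.log_natCast_nonneg N
  set S := ((I ×ˢ I).filter (fun p => p.1 + p.2 = s)).filter (fun p => (W * p.1 + b).Prime ∧ (W * p.2 + b').Prime ∧
    χ (W * p.1 + b) = χ (W * p.2 + b')) with hS
  have e1 : mono χ W I b b' s ≤ ∑ p ∈ (I ×ˢ I).filter (fun p => p.1 + p.2 = s),
      (if (W * p.1 + b).Prime ∧ (W * p.2 + b').Prime ∧ χ (W * p.1 + b) = χ (W * p.2 + b') then Real.log N ^ 2 else 0) := by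
    unfold mono
    apply sum_le_sum
    intro p hp
    rw [mem_filter, mem_product, hI, mem_Ioc, mem_Ioc] at hp
    have k1 : W * p.1 + b ≤ N := by
      have : W * p.1 ≤ W * (X0 + L) := Nat.mul_le_mul_left _ hp.1.1.2
      omega
    have k2 : W * p.2 + b' ≤ N := by
      have : W * p.2 ≤ W * (X0 + L) := Nat.mul_le_mul_left _ hp.1.2.2
      omega
    have a1 := nuW_le W b p.1 N k1 hW
    have a2 := nuW_le W b' p.2 N k2 hW
    have a3 := nuW_nonneg W b p.1
    have a4 := nuW_nonneg W b' p.2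
    by_cases c1 : (W * p.1 + b).Prime
    · by_cases c2 : (W * p.2 + b').Prime
      · by_cases c3 : χ (W * p.1 + b) = χ (W * p.2 + b')
        · rw [if_pos c3, if_pos ⟨c1, c2, c3⟩, mul_one, pow_two]
          rw [if_pos c1] at a1
          rw [if_pos c2] at a2
          exact mul_le_mul a1 a2 a4 hlog
        · rw [if_neg c3, mul_zero]
          split_ifs <;> positivity
      · rw [if_neg c2] at a2
        have : nuW W b' p.2 = 0 := le_antisymm a2 a4
        rw [this, mul_zero, zero_mul]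
        split_ifs <;> positivity
    · rw [if_neg c1] at a1
      have : nuW W b p.1 = 0 := le_antisymm a1 a3
      rw [this, zero_mul, zero_mul]
      split_ifs <;> positivity
  refine e1.trans ?_
  rw [← sum_filter, sum_const, nsmul_eq_mul, mul_comm]
  apply mul_le_mul_of_nonneg_left _ (by positivity)
  unfold monoRep
  have h3 : ((((I ×ˢ I).filter (fun p => p.1 + p.2 = s)).filter (fun p => (W * p.1 + b).Prime ∧ (W * p.2 + b').Prime ∧
    χ (W * p.1 + b) = χ (W * p.2 + b'))).card) ≤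
      ((antidiagonal (W * s + b + b')).filter (fun q => q.1.Prime ∧ q.2.Prime ∧ χ q.1 = χ q.2 ∧
        q.1 ≤ q.2 + D ∧ q.2 ≤ q.1 + D)).card := by
    apply card_le_card_of_injOn (fun p : ℕ × ℕ => (W * p.1 + b, W * p.2 + b'))
    · intro p hp
      simp only [coe_filter, Set.mem_ofPred_eq, mem_filter] at hp
      simp only [coe_filter, HasAntidiagonal.mem_antidiagonal, Set.mem_ofPred_eq]
      have hpI := hp.1.1
      rw [mem_product, hI, mem_Ioc, mem_Ioc] at hpI
      have g1 : W * p.1 ≤ W * (X0 + L) := Nat.mul_le_mul_left _ hpI.1.2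
      have g2 : W * p.2 ≤ W * (X0 + L) := Nat.mul_le_mul_left _ hpI.2.2
      have g3 : W * X0 ≤ W * p.1 := Nat.mul_le_mul_left _ hpI.1.1.le
      have g4 : W * X0 ≤ W * p.2 := Nat.mul_le_mul_left _ hpI.2.1.le
      have g5 : W * (X0 + L) = W * X0 + W * L := by ring
      have g6 : W * (L + 1) = W * L + W := by ring
      refine ⟨?_, hp.2.1, hp.2.2.1, hp.2.2.2, by omega, by omega⟩
      have : p.1 + p.2 = s := hp.1.2
      rw [← this]
      ring
    · rintro ⟨x, y⟩ _ ⟨x', y'⟩ _ h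
      simp only [Prod.mk.injEq] at h
      have i1 := class_inj W b hW h.1
      have i2 := class_inj W b' hW h.2
      rw [i1, i2]
  exact_mod_cast h3

/-- summation of the monochromatic representations over a window -/
lemma mono_sum {K : ℕ} (χ : ℕ → Fin K) (W X0 L b b' : ℕ) :
    ∑ s ∈ Ioc (2 * X0) (2 * X0 + 2 * L), mono χ W (Ioc X0 (X0 + L)) b b' s =
      ∑ c : Fin K, (∑ x ∈ Ioc X0 (X0 + L), nuW W b x * (if χ (W * x + b) = c then 1 else 0)) *
        (∑ x ∈ Ioc X0 (X0 + L), nuW W b' x * (if χ (W * x + b') = c then 1 else 0)) := by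
  classical
  unfold mono
  rw [sum_fiberwise_of_maps_to (fun p hp => by
    rw [mem_product, mem_Ioc, mem_Ioc] at hp
    rw [mem_Ioc]
    omega)]
  have h1 : ∀ c ∈ (univ : Finset (Fin K)), (∑ x ∈ Ioc X0 (X0 + L), nuW W b x * (if χ (W * x + b) = c then 1 else 0)) *
        (∑ x ∈ Ioc X0 (X0 + L), nuW W b' x * (if χ (W * x + b') = c then 1 else 0)) =
      ∑ p ∈ Ioc X0 (X0 + L) ×ˢ Ioc X0 (X0 + L), (nuW W b p.1 * (if χ (W * p.1 + b) = c then 1 else 0)) *
        (nuW W b' p.2 * (if χ (W * p.2 + b') = c then 1 else 0)) := by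
    intro c _
    rw [sum_mul_sum, ← sum_product']
  rw [sum_congr rfl h1, sum_comm]
  apply sum_congr rfl
  intro p _
  have h2 : ∀ c ∈ (univ : Finset (Fin K)), (nuW W b p.1 * (if χ (W * p.1 + b) = c then 1 else 0)) *
        (nuW W b' p.2 * (if χ (W * p.2 + b') = c then 1 else 0)) =
      if χ (W * p.1 + b) = c then nuW W b p.1 * (nuW W b' p.2 * (if χ (W * p.2 + b') = c then 1 else 0)) else 0 := by
    intro c _
    split_ifs <;> ring
  rw [sum_congr rfl h2, sum_ite_eq univ, if_pos (mem_univ _)]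
  by_cases h : χ (W * p.1 + b) = χ (W * p.2 + b')
  · rw [if_pos h, if_pos h.symm]
    ring
  · rw [if_neg h, if_neg (fun h' => h h'.symm)]
    ring

lemma colour_tot {K : ℕ} (χ : ℕ → Fin K) (W X0 L b : ℕ) :
    ∑ c : Fin K, (∑ x ∈ Ioc X0 (X0 + L), nuW W b x * (if χ (W * x + b) = c then 1 else 0)) =
      ∑ x ∈ Ioc X0 (X0 + L), nuW W b x := by
  classical
  rw [sum_comm]
  apply sum_congr rfl
  intro x _
  rw [← mul_sum, sum_ite_eq univ, if_pos (mem_univ _), mul_one]

end Pool.Agent.H566
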