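import Mathlib
import Pool.Agent.H566.MGj

/-!
The number of monochromatic sums in a window.
-/

set_option autoImplicit false

namespace Pool.Agent.H566

open Finset
open Pool.Agent.H807R2.Dav
open Pool.Agent.H373R2.T7

lemma window : ∃ C : ℝ, 0 < C ∧ ∀ w : ℕ, 2 ≤ w → ∀ A : ℕ, ∃ N0 : ℕ, ∀ N : ℕ, N0 ≤ N → ∀ (K : ℕ) (χ : ℕ → Fin K) (X0 L D : ℕ),
    L ≤ X0 → N / Real.log N ^ A ≤ (L : ℝ) → pmW w * (X0 + L + 1) ≤ N → pmW w * (L + 1) ≤ D → ∀ κ : ℝ, 0 ≤ κ →
    (∑ q ∈ unW w ×ˢ unW w, (ker w q.1 q.2 : ℝ)) * ((1 - 2 / w) ^ 2 * (L : ℝ) ^ 2) ≤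
      K * ((∑ q ∈ unW w ×ˢ unW w, (ker w q.1 q.2 : ℝ)) * ((C / √(w : ℝ) + 2 * κ) * (L : ℝ) ^ 2) +
        ∑ q ∈ unW w ×ˢ unW w, (ker w q.1 q.2 : ℝ) *
          ∑ s ∈ (Ioc (2 * X0) (2 * X0 + 2 * L)).filter (fun s => κ * L / Real.log N ^ 2 < monoRep χ D (pmW w * s + q.1 + q.2)),
            cv (Ioc X0 (X0 + L)) (fun _ => 1) (fun _ => 1) s) := by
  classical
  obtain ⟨C, hC, hconv⟩ := conv_close
  refine ⟨C, hC, fun w hw A => ?_⟩
  have hWsq := pmW_squarefree w
  have hWall := pmW_all w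
  obtain ⟨N1, h1⟩ := hconv w (pmW w) hWsq (by omega) hWall A
  obtain ⟨N2, h2⟩ := nu_sup w (pmW w) hWsq (by omega) hWall (A + 1)
  obtain ⟨n3, h3⟩ := ev_L' (w + 1)
  refine ⟨max N1 (max N2 (max n3 3)), fun N hN K χ X0 L D hLX hLN hXN hD κ hκ => ?_⟩
  have k1 := h1 N (le_trans (le_max_left _ _) hN)
  have k2 := h2 N (le_trans (le_trans (le_max_left _ _) (le_max_right _ _)) hN)
  have k3 := h3 N (le_trans (le_trans (le_trans (le_max_left _ _) (le_max_right _ _)) (le_max_right _ _)) hN)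
  have hN3 : 3 ≤ N := le_trans (le_trans (le_trans (le_max_right _ _) (le_max_right _ _)) (le_max_right _ _)) hN
  have hNpos : (0 : ℝ) < N := by exact_mod_cast (by omega : 0 < N)
  have hw0 : (0 : ℝ) < w := by exact_mod_cast (by omega : 0 < w)
  have hw2 : (2 : ℝ) ≤ w := by exact_mod_cast hw
  set LL := Real.log N with hLL
  have hLL0 : 0 < LL := by linarith
  have hLpos : (0 : ℝ) < L := lt_of_lt_of_le (by positivity) hLN
  set W := pmW w with hW
  have hWpos : 0 < W := pmW_pos w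
  set I := Ioc X0 (X0 + L) with hI
  set J := Ioc (2 * X0) (2 * X0 + 2 * L) with hJ
  have hub : ∀ b ∈ unW w, b < W ∧ b.Coprime W := by
    intro b hb
    unfold unW at hb
    rw [mem_filter, mem_range] at hb
    exact hb
  have hubN : ∀ b ∈ unW w, W * (X0 + L) + b ≤ N := by
    intro b hb
    have := (hub b hb).1
    have e : W * (X0 + L + 1) = W * (X0 + L) + W := by ring
    omega
  -- lower bound for the total
  have htot : ∀ b ∈ unW w, (1 - 2 / (w : ℝ)) * L ≤ ∑ x ∈ I, nuW W b x := by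
    intro b hb
    have e1 := k2 b (hub b hb).2 X0 L (hubN b hb) 0
    have e2 : ∑ x ∈ I, ((nuW W b x - 1 : ℝ) : ℂ) * ee (x * (0 : ℝ)) = ((∑ x ∈ I, nuW W b x - L : ℝ) : ℂ) := by
      have e3 : ∀ x ∈ I, ((nuW W b x - 1 : ℝ) : ℂ) * ee (x * (0 : ℝ)) = ((nuW W b x - 1 : ℝ) : ℂ) := by
        intro x _
        rw [mul_zero]
        unfold ee
        simp
      rw [sum_congr rfl e3, ← Complex.ofReal_sum, sum_sub_distrib]
      simp [hI]
    rw [← hI, e2, Complex.norm_real, Real.norm_eq_abs] at e1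
    have e4 : (N : ℝ) / LL ^ (A + 1) ≤ L / w := by
      have e5 : (N : ℝ) / LL ^ (A + 1) = (N / LL ^ A) / LL := by rw [pow_succ]; field_simp
      rw [e5, div_le_div_iff₀ hLL0 hw0]
      have e6 : (w : ℝ) ≤ LL := by linarith
      have e7 : 0 ≤ (N : ℝ) / LL ^ A := by positivity
      calc (N : ℝ) / LL ^ A * w ≤ L * LL := by gcongr
        _ = L * LL := rfl
    have e8 := neg_abs_le (∑ x ∈ I, nuW W b x - (L : ℝ))
    have e9 : (1 - 2 / (w : ℝ)) * L = L - L / w - L / w := by ring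
    rw [e9]
    linarith
  have hnn : (0 : ℝ) ≤ (1 - 2 / (w : ℝ)) * L := by
    have : 2 / (w : ℝ) ≤ 1 := by rw [div_le_one hw0]; exact hw2
    have : 0 ≤ 1 - 2 / (w : ℝ) := by linarith
    positivity
  -- Cauchy
  have hcau := ker_cauchy w K (fun c b => ∑ x ∈ I, nuW W b x * (if χ (W * x + b) = c then 1 else 0))
  have hL1 : (∑ q ∈ unW w ×ˢ unW w, (ker w q.1 q.2 : ℝ)) * ((1 - 2 / w) ^ 2 * (L : ℝ) ^ 2) ≤
      ∑ q ∈ unW w ×ˢ unW w, (ker w q.1 q.2 : ℝ) *
        ((∑ c, ∑ x ∈ I, nuW W q.1 x * (if χ (W * x + q.1) = c then 1 else 0)) *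
          (∑ c, ∑ x ∈ I, nuW W q.2 x * (if χ (W * x + q.2) = c then 1 else 0))) := by
    rw [sum_mul]
    apply sum_le_sum
    intro q hq
    rw [mem_product] at hq
    apply mul_le_mul_of_nonneg_left _ (Nat.cast_nonneg _)
    rw [hI, colour_tot, colour_tot, ← hI]
    calc (1 - 2 / (w : ℝ)) ^ 2 * (L : ℝ) ^ 2 = ((1 - 2 / (w : ℝ)) * L) * ((1 - 2 / (w : ℝ)) * L) := by ring
      _ ≤ _ := mul_le_mul (htot q.1 hq.1) (htot q.2 hq.2) hnn (hnn.trans (htot q.1 hq.1))
  refine hL1.trans (hcau.trans ?_)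
  apply mul_le_mul_of_nonneg_left _ (Nat.cast_nonneg _)
  rw [sum_mul, ← sum_add_distrib]
  apply sum_le_sum
  intro q hq
  rw [mem_product] at hq
  rw [← mul_add]
  apply mul_le_mul_of_nonneg_left _ (Nat.cast_nonneg _)
  rw [← mono_sum, ← hJ, ← hI]
  have hc := k1 q.1 q.2 (hub q.1 hq.1).2 (hub q.2 hq.2).2 X0 L hLX hLN (hubN q.1 hq.1) (hubN q.2 hq.2)
  rw [← hI, ← hJ] at hc
  rw [← sum_filter_add_sum_filter_not J (fun s => κ * L / LL ^ 2 < monoRep χ D (W * s + q.1 + q.2)) (fun s => mono χ W I q.1 q.2 s)]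
  have g1 : ∑ s ∈ J.filter (fun s => κ * L / LL ^ 2 < monoRep χ D (W * s + q.1 + q.2)), mono χ W I q.1 q.2 s ≤
      ∑ s ∈ J.filter (fun s => κ * L / LL ^ 2 < monoRep χ D (W * s + q.1 + q.2)), cv I (fun _ => 1) (fun _ => 1) s +
        C / √(w : ℝ) * (L : ℝ) ^ 2 := by
    have g2 : ∑ s ∈ J.filter (fun s => κ * L / LL ^ 2 < monoRep χ D (W * s + q.1 + q.2)), mono χ W I q.1 q.2 s ≤
        ∑ s ∈ J.filter (fun s => κ * L / LL ^ 2 < monoRep χ D (W * s + q.1 + q.2)), (cv I (fun _ => 1) (fun _ => 1) s +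
          |cv I (nuW W q.1) (nuW W q.2) s - cv I (fun _ => 1) (fun _ => 1) s|) := by
      apply sum_le_sum
      intro s _
      have g3 := mono_le_cv χ W I q.1 q.2 s
      have g4 := le_abs_self (cv I (nuW W q.1) (nuW W q.2) s - cv I (fun _ => 1) (fun _ => 1) s)
      linarith
    refine g2.trans ?_
    rw [sum_add_distrib]
    have g5 : ∑ s ∈ J.filter (fun s => κ * L / LL ^ 2 < monoRep χ D (W * s + q.1 + q.2)),
        |cv I (nuW W q.1) (nuW W q.2) s - cv I (fun _ => 1) (fun _ => 1) s| ≤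
        ∑ s ∈ J, |cv I (nuW W q.1) (nuW W q.2) s - cv I (fun _ => 1) (fun _ => 1) s| :=
      sum_le_sum_of_subset_of_nonneg (filter_subset _ _) (fun _ _ _ => abs_nonneg _)
    linarith
  have g6 : ∑ s ∈ J.filter (fun s => ¬ κ * L / LL ^ 2 < monoRep χ D (W * s + q.1 + q.2)), mono χ W I q.1 q.2 s ≤ 2 * κ * (L : ℝ) ^ 2 := by
    have g7 : ∀ s ∈ J.filter (fun s => ¬ κ * L / LL ^ 2 < monoRep χ D (W * s + q.1 + q.2)), mono χ W I q.1 q.2 s ≤ κ * L := by
      intro s hs
      rw [mem_filter, not_lt] at hs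
      have g8 := mono_le_rep χ W hWpos X0 L q.1 q.2 s N D (hubN q.1 hq.1) (hubN q.2 hq.2) (hub q.1 hq.1).1 (hub q.2 hq.2).1 hD
      refine g8.trans ?_
      calc LL ^ 2 * (monoRep χ D (W * s + q.1 + q.2) : ℝ) ≤ LL ^ 2 * (κ * L / LL ^ 2) := by
            gcongr
            exact hs.2
        _ = κ * L := by field_simp
    refine (sum_le_card_nsmul _ _ _ g7).trans ?_
    rw [nsmul_eq_mul]
    have g9 : ((J.filter (fun s => ¬ κ * L / LL ^ 2 < monoRep χ D (W * s + q.1 + q.2))).card : ℝ) ≤ 2 * L := by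
      have : (J.filter (fun s => ¬ κ * L / LL ^ 2 < monoRep χ D (W * s + q.1 + q.2))).card ≤ 2 * L := by
        refine (card_filter_le _ _).trans ?_
        rw [hJ, Nat.card_Ioc]
        omega
      exact_mod_cast this
    calc _ ≤ (2 * (L : ℝ)) * (κ * L) := by gcongr
      _ = 2 * κ * (L : ℝ) ^ 2 := by ring
  have g10 : (C / √(w : ℝ) + 2 * κ) * (L : ℝ) ^ 2 = C / √(w : ℝ) * (L : ℝ) ^ 2 + 2 * κ * (L : ℝ) ^ 2 := by ring
  rw [g10]
  linarith

/-- the number of representations as a sum of two elements of a window, summed over the windows -/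
lemma window_count (L s : ℕ) (hL : 1 ≤ L) (𝒳 : Finset ℕ) :
    2 * ∑ X0 ∈ 𝒳, cv (Ioc X0 (X0 + L)) (fun _ => 1) (fun _ => 1) s ≤ (L : ℝ) ^ 2 + 1 := by
  classical
  -- pairs with a fixed parity of the sum
  set P := (Icc 1 L ×ˢ Icc 1 L).filter (fun q => (q.1 + q.2) % 2 = s % 2) with hP
  have h1 : ∑ X0 ∈ 𝒳, cv (Ioc X0 (X0 + L)) (fun _ => 1) (fun _ => 1) s ≤ (P.card : ℝ) := by
    have e1 : ∀ X0 ∈ 𝒳, cv (Ioc X0 (X0 + L)) (fun _ => 1) (fun _ => 1) s =
        ((P.filter (fun q => 2 * X0 + q.1 + q.2 = s)).card : ℝ) := by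
      intro X0 _
      unfold cv
      simp only [mul_one, sum_const, nsmul_eq_mul]
      norm_cast
      refine card_bij' (fun p _ => (p.1 - X0, p.2 - X0)) (fun q _ => (X0 + q.1, X0 + q.2)) ?_ ?_ ?_ ?_
      · rintro ⟨x, y⟩ hp
        simp only [mem_filter, mem_product, mem_Ioc, hP, mem_Icc] at hp ⊢
        omega
      · rintro ⟨x, y⟩ hp
        simp only [mem_filter, mem_product, mem_Ioc, hP, mem_Icc] at hp ⊢
        omega
      · rintro ⟨x, y⟩ hp
        simp only [mem_filter, mem_product, mem_Ioc, hP, mem_Icc] at hp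
        simp only [Prod.mk.injEq]
        omega
      · rintro ⟨x, y⟩ hp
        simp only [mem_filter, mem_product, mem_Ioc, hP, mem_Icc] at hp
        simp only [Prod.mk.injEq]
        omega
    rw [sum_congr rfl e1]
    have e2 : ∑ X0 ∈ 𝒳, (P.filter (fun q => 2 * X0 + q.1 + q.2 = s)).card ≤ P.card := by
      rw [← card_biUnion]
      · apply card_le_card
        intro q hq
        rw [mem_biUnion] at hq
        obtain ⟨X0, _, hq⟩ := hq
        exact (mem_filter.1 hq).1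
      · intro X _ Y _ hXY
        rw [Function.onFun, disjoint_left]
        intro q h1 h2
        rw [mem_filter] at h1 h2
        omega
    exact_mod_cast e2
  have h2 : 2 * P.card ≤ L ^ 2 + 1 := by
    have e1 : P.card = ∑ j ∈ Icc 1 L, ((Icc 1 L).filter (fun k => (j + k) % 2 = s % 2)).card := by
      rw [hP, card_filter, sum_product]
      apply sum_congr rfl
      intro j _
      rw [card_filter]
    have e2 : ∀ j : ℕ, ((Icc 1 L).filter (fun k => (j + k) % 2 = s % 2)).card =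
        if (j + s) % 2 = 0 then L / 2 else (L + 1) / 2 := by
      intro j
      split_ifs with h
      · have : (Icc 1 L).filter (fun k => (j + k) % 2 = s % 2) = (Icc 1 (L / 2)).image (fun i => 2 * i) := by
          ext k
          simp only [mem_filter, mem_Icc, mem_image]
          constructor
          · rintro ⟨c1, c2⟩
            exact ⟨k / 2, by omega, by omega⟩
          · rintro ⟨i, c1, rfl⟩
            omega
        rw [this, card_image_of_injective _ (fun a b h => by simpa using h), Nat.card_Icc]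
        omega
      · have : (Icc 1 L).filter (fun k => (j + k) % 2 = s % 2) = (Icc 1 ((L + 1) / 2)).image (fun i => 2 * i - 1) := by
          ext k
          simp only [mem_filter, mem_Icc, mem_image]
          constructor
          · rintro ⟨c1, c2⟩
            exact ⟨(k + 1) / 2, by omega, by omega⟩
          · rintro ⟨i, c1, rfl⟩
            omega
        rw [this, card_image_of_injOn, Nat.card_Icc]
        · omega
        · intro a ha b hb h
          simp only [coe_Icc, Set.mem_Icc] at ha hb h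
          omega
    have e3 : ∑ j ∈ Icc 1 L, (if (j + s) % 2 = 0 then L / 2 else (L + 1) / 2) =
        ((Icc 1 L).filter (fun j => (j + s) % 2 = 0)).card * (L / 2) +
          ((Icc 1 L).filter (fun j => ¬ (j + s) % 2 = 0)).card * ((L + 1) / 2) := by
      rw [← sum_filter_add_sum_filter_not (Icc 1 L) (fun j => (j + s) % 2 = 0)]
      congr 1
      · rw [sum_congr rfl (fun j hj => if_pos (mem_filter.1 hj).2), sum_const, smul_eq_mul]
      · rw [sum_congr rfl (fun j hj => if_neg (mem_filter.1 hj).2), sum_const, smul_eq_mul]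
    have e4 : ((Icc 1 L).filter (fun j => (j + s) % 2 = 0)).card = if s % 2 = 0 then L / 2 else (L + 1) / 2 := by
      have h0 := e2 s
      have : (Icc 1 L).filter (fun k => (s + k) % 2 = s % 2) = (Icc 1 L).filter (fun k => k % 2 = 0) := by
        apply filter_congr
        intro k _
        omega
      have h3 := e2 0
      have h4 : ((Icc 1 L).filter (fun j => (j + s) % 2 = 0)) = (Icc 1 L).filter (fun k => (0 + k) % 2 = s % 2) := by
        apply filter_congr
        intro k _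
        omega
      rw [h4, h3]
      simp
    have e5 : ((Icc 1 L).filter (fun j => (j + s) % 2 = 0)).card + ((Icc 1 L).filter (fun j => ¬ (j + s) % 2 = 0)).card = L := by
      have := card_filter_add_card_filter_not (s := Icc 1 L) (fun j => (j + s) % 2 = 0)
      rw [this, Nat.card_Icc]
      omega
    rw [e1, sum_congr rfl (fun j _ => e2 j), e3]
    have e6 : ((Icc 1 L).filter (fun j => ¬ (j + s) % 2 = 0)).card = if s % 2 = 0 then (L + 1) / 2 else L / 2 := by
      split_ifs with h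
      · rw [if_pos h] at e4
        omega
      · rw [if_neg h] at e4
        omega
    rw [e4, e6]
    obtain ⟨m, hm⟩ : ∃ m, L = 2 * m ∨ L = 2 * m + 1 := ⟨L / 2, by omega⟩
    rcases hm with hm | hm
    · have d1 : L / 2 = m := by omega
      have d2 : (L + 1) / 2 = m := by omega
      rw [d1, d2, hm]
      split_ifs <;> nlinarith
    · have d1 : L / 2 = m := by omega
      have d2 : (L + 1) / 2 = m + 1 := by omega
      rw [d1, d2, hm]
      split_ifs <;> nlinarith
  have h3 : (2 : ℝ) * P.card ≤ (L : ℝ) ^ 2 + 1 := by exact_mod_cast h2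
  linarith

/-- averaging over the windows -/
lemma avg (w L : ℕ) (hw : 2 ≤ w) (hL : 1 ≤ L) (𝒳 G : Finset ℕ) (hG : ∀ n ∈ G, Even n) (P : ℕ → Prop) [DecidablePred P]
    (hP : ∀ X0 ∈ 𝒳, ∀ q ∈ unW w ×ˢ unW w, ∀ s ∈ Ioc (2 * X0) (2 * X0 + 2 * L), P (pmW w * s + q.1 + q.2) →
      pmW w * s + q.1 + q.2 ∈ G) :
    2 * ∑ X0 ∈ 𝒳, ∑ q ∈ unW w ×ˢ unW w, (ker w q.1 q.2 : ℝ) *
      ∑ s ∈ (Ioc (2 * X0) (2 * X0 + 2 * L)).filter (fun s => P (pmW w * s + q.1 + q.2)),
        cv (Ioc X0 (X0 + L)) (fun _ => 1) (fun _ => 1) s ≤ ((L : ℝ) ^ 2 + 1) * ((pmW w).totient * G.card) := by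
  classical
  set W := pmW w with hW
  have hWpos : 0 < W := pmW_pos w
  rw [sum_comm, mul_sum]
  have h1 : ∀ q ∈ unW w ×ˢ unW w, 2 * ∑ X0 ∈ 𝒳, (ker w q.1 q.2 : ℝ) *
      ∑ s ∈ (Ioc (2 * X0) (2 * X0 + 2 * L)).filter (fun s => P (W * s + q.1 + q.2)),
        cv (Ioc X0 (X0 + L)) (fun _ => 1) (fun _ => 1) s ≤
      ((L : ℝ) ^ 2 + 1) * ((ker w q.1 q.2 : ℝ) * (G.filter (fun n => (q.1 + q.2) % W = n % W)).card) := by
    intro q hq
    rw [← mul_sum]
    set S := (range (G.sup id + 1)).filter (fun s => W * s + q.1 + q.2 ∈ G) with hS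
    have e1 : ∑ X0 ∈ 𝒳, ∑ s ∈ (Ioc (2 * X0) (2 * X0 + 2 * L)).filter (fun s => P (W * s + q.1 + q.2)),
        cv (Ioc X0 (X0 + L)) (fun _ => 1) (fun _ => 1) s ≤
        ∑ X0 ∈ 𝒳, ∑ s ∈ S, cv (Ioc X0 (X0 + L)) (fun _ => 1) (fun _ => 1) s := by
      apply sum_le_sum
      intro X0 hX0
      apply sum_le_sum_of_subset_of_nonneg
      · intro s hs
        rw [mem_filter] at hs
        have hmem := hP X0 hX0 q hq s hs.1 hs.2
        rw [hS, mem_filter, mem_range]
        refine ⟨?_, hmem⟩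
        have h2 : W * s + q.1 + q.2 ≤ G.sup id := le_sup (f := id) hmem
        have h3 : s ≤ W * s := Nat.le_mul_of_pos_left s hWpos
        omega
      · intro s _ _
        unfold cv
        exact sum_nonneg fun _ _ => by norm_num
    have e2 : ∑ X0 ∈ 𝒳, ∑ s ∈ S, cv (Ioc X0 (X0 + L)) (fun _ => 1) (fun _ => 1) s ≤ S.card * (((L : ℝ) ^ 2 + 1) / 2) := by
      rw [sum_comm]
      refine (sum_le_card_nsmul _ _ (((L : ℝ) ^ 2 + 1) / 2) ?_).trans (by rw [nsmul_eq_mul])
      intro s _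
      have := window_count L s hL 𝒳
      linarith
    have e3 : (S.card : ℝ) ≤ (G.filter (fun n => (q.1 + q.2) % W = n % W)).card := by
      have : S.card ≤ (G.filter (fun n => (q.1 + q.2) % W = n % W)).card := by
        apply card_le_card_of_injOn (fun s => W * s + q.1 + q.2)
        · intro s hs
          simp only [hS, coe_filter, Set.mem_ofPred_eq, mem_range] at hs
          simp only [coe_filter, Set.mem_ofPred_eq]
          refine ⟨hs.2, ?_⟩
          rw [add_assoc, Nat.mul_add_mod]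
        · intro s _ t _ h
          simp only at h
          have : W * s = W * t := by omega
          exact Nat.eq_of_mul_eq_mul_left hWpos this
      exact_mod_cast this
    have hk : (0 : ℝ) ≤ (ker w q.1 q.2 : ℝ) := Nat.cast_nonneg _
    calc 2 * ((ker w q.1 q.2 : ℝ) * ∑ X0 ∈ 𝒳, ∑ s ∈ (Ioc (2 * X0) (2 * X0 + 2 * L)).filter (fun s => P (W * s + q.1 + q.2)),
        cv (Ioc X0 (X0 + L)) (fun _ => 1) (fun _ => 1) s) ≤
          2 * ((ker w q.1 q.2 : ℝ) * (((G.filter (fun n => (q.1 + q.2) % W = n % W)).card : ℝ) * (((L : ℝ) ^ 2 + 1) / 2))) := by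
          gcongr
          exact e1.trans (e2.trans (by gcongr))
      _ = _ := by ring
  refine (sum_le_sum h1).trans ?_
  rw [← mul_sum]
  apply mul_le_mul_of_nonneg_left _ (by positivity)
  -- swap
  have h2 : ∑ q ∈ unW w ×ˢ unW w, (ker w q.1 q.2 : ℝ) * ((G.filter (fun n => (q.1 + q.2) % W = n % W)).card : ℝ) =
      ∑ n ∈ G, ((W.totient : ℕ) : ℝ) := by
    have e1 : ∀ q ∈ unW w ×ˢ unW w, (ker w q.1 q.2 : ℝ) * ((G.filter (fun n => (q.1 + q.2) % W = n % W)).card : ℝ) =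
        ∑ n ∈ G, (if (q.1 + q.2) % W = n % W then (ker w q.1 q.2 : ℝ) else 0) := by
      intro q _
      rw [← sum_filter, sum_const, nsmul_eq_mul, mul_comm]
    rw [sum_congr rfl e1, sum_comm]
    apply sum_congr rfl
    intro n hn
    rw [← sum_filter]
    have := ker_sum w n hw (hG n hn)
    rw [← hW] at this
    exact_mod_cast this
  rw [h2, sum_const, nsmul_eq_mul, mul_comm]

end Pool.Agent.H566
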