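import Mathlib
import Pool.Agent.H566.MGk

/-!
Smoothing along the large Fourier coefficients.
-/

set_option autoImplicit false

namespace Pool.Agent.H566

open Finset
open Pool.Agent.H807R2.Dav

/-- smoothing by the uniform measure on a set of shifts -/
noncomputable def sm (Λ : Finset ℕ) (f : ℕ → ℝ) (x : ℕ) : ℝ := (∑ t ∈ Λ, f (x - t)) / Λ.card

/-- the transform of the uniform measure on a set of shifts -/
noncomputable def bh (Λ : Finset ℕ) (α : ℝ) : ℂ := (∑ t ∈ Λ, ee (t * α)) / Λ.card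

lemma bh_le_one (Λ : Finset ℕ) (α : ℝ) : ‖bh Λ α‖ ≤ 1 := by
  unfold bh
  rw [norm_div, Complex.norm_natCast]
  rcases Nat.eq_zero_or_pos Λ.card with h | h
  · rw [h]
    simp
  · rw [div_le_one (by exact_mod_cast h)]
    refine (norm_sum_le _ _).trans ?_
    simp [norm_ee]

lemma ft_support (I I' : Finset ℕ) (hI : I ⊆ I') (f : ℕ → ℝ) (hf : ∀ x, x ∉ I → f x = 0) (α : ℝ) : ft I' f α = ft I f α := by
  unfold ft
  symm
  apply sum_subset hI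
  intro x _ hx
  rw [hf x hx]
  simp

lemma ft_sm (X0 L T : ℕ) (Λ : Finset ℕ) (hΛT : ∀ t ∈ Λ, t ≤ T) (f : ℕ → ℝ) (hf : ∀ x, x ∉ Ioc X0 (X0 + L) → f x = 0) (α : ℝ) :
    ft (Ioc X0 (X0 + (L + T))) (sm Λ f) α = bh Λ α * ft (Ioc X0 (X0 + L)) f α := by
  unfold ft sm bh
  have h1 : ∀ t ∈ Λ, ∑ x ∈ Ioc X0 (X0 + (L + T)), ((f (x - t) : ℝ) : ℂ) * ee (x * α) =
      ee (t * α) * ∑ x ∈ Ioc X0 (X0 + L), ((f x : ℝ) : ℂ) * ee (x * α) := by
    intro t ht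
    have hT := hΛT t ht
    have e1 : ∑ x ∈ (Ioc X0 (X0 + L)).image (fun y => y + t), ((f (x - t) : ℝ) : ℂ) * ee (x * α) =
        ∑ x ∈ Ioc X0 (X0 + (L + T)), ((f (x - t) : ℝ) : ℂ) * ee (x * α) := by
      apply sum_subset
      · intro x hx
        rw [mem_image] at hx
        obtain ⟨y, hy, rfl⟩ := hx
        rw [mem_Ioc] at hy ⊢
        omega
      · intro x hx hx'
        rw [hf (x - t)]
        · simp
        · intro h
          apply hx'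
          rw [mem_image]
          refine ⟨x - t, h, ?_⟩
          rw [mem_Ioc] at h
          omega
    rw [← e1, sum_image (fun a _ b _ h => by simpa using h), mul_sum]
    apply sum_congr rfl
    intro y _
    rw [Nat.add_sub_cancel]
    have e2 : ee (((y + t : ℕ) : ℝ) * α) = ee (y * α) * ee (t * α) := by
      rw [← ee_add]
      congr 1
      push_cast
      ring
    rw [e2]
    ring
  have h2 : ∀ x ∈ Ioc X0 (X0 + (L + T)), (((∑ t ∈ Λ, f (x - t)) / Λ.card : ℝ) : ℂ) * ee (x * α) =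
      (∑ t ∈ Λ, ((f (x - t) : ℝ) : ℂ) * ee (x * α)) / Λ.card := by
    intro x _
    push_cast
    rw [← sum_mul]
    ring
  rw [sum_congr rfl h2, ← sum_div, sum_comm, sum_congr rfl h1, ← sum_mul]
  ring

/-- convolution squares are almost unchanged by the smoothing -/
lemma sm_close (X0 L T : ℕ) (hL : 1 ≤ L) (hT : 2 * T ≤ L) (Λ : Finset ℕ) (hΛT : ∀ t ∈ Λ, t ≤ T) (f : ℕ → ℝ)
    (hf : ∀ x, x ∉ Ioc X0 (X0 + L) → f x = 0) (C ρ ρ₂ : ℝ) (hρ : 0 ≤ ρ) (hρ₂ : 0 ≤ ρ₂)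
    (h3 : ∑ r ∈ range (3 * L), ‖ft (Ioc X0 (X0 + L)) f ((r : ℝ) / (3 * L : ℕ))‖ ^ 3 ≤ C * (L : ℝ) ^ 3)
    (hsup : ∀ α, ‖ft (Ioc X0 (X0 + L)) f α‖ ≤ 2 * L)
    (hbh : ∀ r ∈ range (3 * L), ρ * L ≤ ‖ft (Ioc X0 (X0 + L)) f ((r : ℝ) / (3 * L : ℕ))‖ → ‖bh Λ ((r : ℝ) / (3 * L : ℕ)) - 1‖ ≤ ρ₂) :
    (∑ s ∈ Ioc (2 * X0) (2 * X0 + 2 * (L + T)), |cv (Ioc X0 (X0 + (L + T))) (sm Λ f) (sm Λ f) s -
      cv (Ioc X0 (X0 + (L + T))) f f s|) ^ 2 ≤ (8 * ρ₂ ^ 2 + 4 * ρ) * C * (L : ℝ) ^ 4 := by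
  set I := Ioc X0 (X0 + L) with hI
  set I' := Ioc X0 (X0 + (L + T)) with hI'
  set J := Ioc (2 * X0) (2 * X0 + 2 * (L + T)) with hJ
  have hII : I ⊆ I' := by
    intro x hx
    rw [hI, mem_Ioc] at hx
    rw [hI', mem_Ioc]
    omega
  set D : ℕ → ℂ := fun s => ((cv I' (sm Λ f) (sm Λ f) s - cv I' f f s : ℝ) : ℂ) with hD
  have hL0 : (0 : ℝ) < L := by exact_mod_cast hL
  have hP := parseval J (2 * X0) (3 * L) (by omega) (by
    intro s hs
    rw [hJ, mem_Ioc] at hs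
    rw [mem_Ioc]
    omega) D
  have hDt : ∀ α : ℝ, ∑ s ∈ J, D s * ee (s * α) = (bh Λ α ^ 2 - 1) * ft I f α ^ 2 := by
    intro α
    have e1 := ft_cv X0 (L + T) (sm Λ f) (sm Λ f) α
    have e2 := ft_cv X0 (L + T) f f α
    rw [← hI', ← hJ] at e1 e2
    have e3 := ft_sm X0 L T Λ hΛT f hf α
    rw [← hI', ← hI] at e3
    rw [e3] at e1
    rw [ft_support I I' hII f hf α] at e2
    have e4 : ∑ s ∈ J, D s * ee (s * α) = ∑ s ∈ J, ((cv I' (sm Λ f) (sm Λ f) s : ℝ) : ℂ) * ee (s * α) -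
        ∑ s ∈ J, ((cv I' f f s : ℝ) : ℂ) * ee (s * α) := by
      rw [← sum_sub_distrib]
      apply sum_congr rfl
      intro s _
      simp only [hD]
      push_cast
      ring
    rw [e4, e1, e2]
    ring
  have hterm : ∀ r ∈ range (3 * L), ‖∑ s ∈ J, D s * ee (s * ((r : ℝ) / (3 * L : ℕ)))‖ ^ 2 ≤
      (8 * ρ₂ ^ 2 + 4 * ρ) * L * ‖ft I f ((r : ℝ) / (3 * L : ℕ))‖ ^ 3 := by
    intro r hr
    rw [hDt, norm_mul, norm_pow]
    set β := bh Λ ((r : ℝ) / (3 * L : ℕ)) with hβ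
    set F := ‖ft I f ((r : ℝ) / (3 * L : ℕ))‖ with hF
    have hF0 : 0 ≤ F := norm_nonneg _
    have hF2 : F ≤ 2 * L := hsup _
    have hβ1 : ‖β‖ ≤ 1 := bh_le_one Λ _
    have e1 : ‖β ^ 2 - 1‖ ≤ 2 * ‖β - 1‖ := by
      have : β ^ 2 - 1 = (β - 1) * (β + 1) := by ring
      rw [this, norm_mul]
      have h2 : ‖β + 1‖ ≤ 2 := by
        refine (norm_add_le _ _).trans ?_
        rw [norm_one]
        linarith
      nlinarith [norm_nonneg (β - 1)]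
    have e2 : ‖β ^ 2 - 1‖ ≤ 2 := by
      refine (norm_sub_le _ _).trans ?_
      rw [norm_pow, norm_one]
      have : ‖β‖ ^ 2 ≤ 1 := pow_le_one₀ (norm_nonneg _) hβ1
      linarith
    have e3 : (‖β ^ 2 - 1‖ * F ^ 2) ^ 2 = ‖β ^ 2 - 1‖ ^ 2 * F * F ^ 3 := by ring
    rw [e3]
    apply mul_le_mul_of_nonneg_right _ (by positivity)
    rcases le_total (ρ * L) F with h | h
    · have e4 := hbh r hr h
      have e5 : ‖β ^ 2 - 1‖ ≤ 2 * ρ₂ := by linarith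
      have e6 : ‖β ^ 2 - 1‖ ^ 2 ≤ (2 * ρ₂) ^ 2 := pow_le_pow_left₀ (norm_nonneg _) e5 2
      calc ‖β ^ 2 - 1‖ ^ 2 * F ≤ (2 * ρ₂) ^ 2 * (2 * L) := mul_le_mul e6 hF2 hF0 (by positivity)
        _ = 8 * ρ₂ ^ 2 * L := by ring
        _ ≤ (8 * ρ₂ ^ 2 + 4 * ρ) * L := by
            apply mul_le_mul_of_nonneg_right _ hL0.le
            linarith
    · have e6 : ‖β ^ 2 - 1‖ ^ 2 ≤ 2 ^ 2 := pow_le_pow_left₀ (norm_nonneg _) e2 2
      calc ‖β ^ 2 - 1‖ ^ 2 * F ≤ 2 ^ 2 * (ρ * L) := mul_le_mul e6 h hF0 (by positivity)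
        _ = 4 * ρ * L := by ring
        _ ≤ (8 * ρ₂ ^ 2 + 4 * ρ) * L := by
            apply mul_le_mul_of_nonneg_right _ hL0.le
            have : 0 ≤ ρ₂ ^ 2 := by positivity
            linarith
  have hsum : ∑ r ∈ range (3 * L), ‖∑ s ∈ J, D s * ee (s * ((r : ℝ) / (3 * L : ℕ)))‖ ^ 2 ≤ (8 * ρ₂ ^ 2 + 4 * ρ) * C * (L : ℝ) ^ 4 := by
    refine (sum_le_sum hterm).trans ?_
    rw [← mul_sum]
    calc (8 * ρ₂ ^ 2 + 4 * ρ) * L * ∑ r ∈ range (3 * L), ‖ft I f ((r : ℝ) / (3 * L : ℕ))‖ ^ 3 ≤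
          (8 * ρ₂ ^ 2 + 4 * ρ) * L * (C * (L : ℝ) ^ 3) := by
          apply mul_le_mul_of_nonneg_left h3 (by positivity)
      _ = _ := by ring
  rw [hP] at hsum
  have hcs := sq_sum_le_card_mul_sum_sq (s := J) (f := fun s => |cv I' (sm Λ f) (sm Λ f) s - cv I' f f s|)
  have hcard : (J.card : ℝ) ≤ ((3 * L : ℕ) : ℝ) := by
    have : J.card ≤ 3 * L := by
      rw [hJ, Nat.card_Ioc]
      omega
    exact_mod_cast this
  have hDD : ∑ s ∈ J, ‖D s‖ ^ 2 = ∑ s ∈ J, |cv I' (sm Λ f) (sm Λ f) s - cv I' f f s| ^ 2 := by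
    apply sum_congr rfl
    intro s _
    simp only [hD]
    rw [Complex.norm_real, Real.norm_eq_abs]
  rw [hDD] at hsum
  refine hcs.trans (le_trans ?_ hsum)
  exact mul_le_mul_of_nonneg_right hcard (sum_nonneg fun _ _ => by positivity)

lemma bh_l2 (M T : ℕ) (hM : T < M) (Λ : Finset ℕ) (hΛ : Λ.Nonempty) (hΛT : ∀ t ∈ Λ, t ≤ T) :
    ∑ r ∈ range M, ‖bh Λ ((r : ℝ) / M)‖ ^ 2 = M / Λ.card := by
  have hc : (0 : ℝ) < Λ.card := by exact_mod_cast card_pos.2 hΛ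
  have hP := parseval (Λ.image (fun t => t + 1)) 0 M (by omega) (by
    intro s hs
    rw [mem_image] at hs
    obtain ⟨t, ht, rfl⟩ := hs
    rw [mem_Ioc]
    have := hΛT t ht
    omega) (fun _ => 1)
  have hinj : Set.InjOn (fun t : ℕ => t + 1) Λ := fun a _ b _ h => by simpa using h
  rw [sum_image (f := fun s => ‖(1 : ℂ)‖ ^ 2) hinj] at hP
  simp only [norm_one, one_pow, sum_const, nsmul_eq_mul, mul_one] at hP
  have h1 : ∀ r ∈ range M, ‖bh Λ ((r : ℝ) / M)‖ ^ 2 =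
      ‖∑ s ∈ (Λ.image (fun t : ℕ => t + 1) : Finset ℕ), (1 : ℂ) * ee (((s : ℕ) : ℝ) * ((r : ℝ) / M))‖ ^ 2 / (Λ.card : ℝ) ^ 2 := by
    intro r _
    unfold bh
    rw [sum_image hinj, norm_div, div_pow, Complex.norm_natCast]
    congr 2
    have e1 : ∑ t ∈ Λ, (1 : ℂ) * ee (((t + 1 : ℕ) : ℝ) * ((r : ℝ) / M)) = ee ((r : ℝ) / M) * ∑ t ∈ Λ, ee (t * ((r : ℝ) / M)) := by
      rw [mul_sum]
      apply sum_congr rfl
      intro t _
      rw [one_mul, ← ee_add]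
      congr 1
      push_cast
      ring
    rw [e1, norm_mul, norm_ee, one_mul]
  rw [sum_congr rfl h1, ← sum_div, hP]
  field_simp

/-- the mean square of a smoothed function with small Fourier transform -/
lemma sm_l2 (X0 L T : ℕ) (hL : 1 ≤ L) (hT : 2 * T ≤ L) (Λ : Finset ℕ) (hΛ : Λ.Nonempty) (hΛT : ∀ t ∈ Λ, t ≤ T) (g : ℕ → ℝ)
    (hg : ∀ x, x ∉ Ioc X0 (X0 + L) → g x = 0) (δ : ℝ)
    (hsup : ∀ α, ‖ft (Ioc X0 (X0 + L)) g α‖ ≤ δ) :
    ∑ x ∈ Ioc X0 (X0 + (L + T)), sm Λ g x ^ 2 ≤ δ ^ 2 / Λ.card := by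
  have hL0 : (0 : ℝ) < L := by exact_mod_cast hL
  have hM0 : (0 : ℝ) < ((3 * L : ℕ) : ℝ) := by exact_mod_cast (by omega : 0 < 3 * L)
  have hP := parseval (Ioc X0 (X0 + (L + T))) X0 (3 * L) (by omega) (by
    intro s hs
    rw [mem_Ioc] at hs ⊢
    omega) (fun x => ((sm Λ g x : ℝ) : ℂ))
  have h1 : ∀ r ∈ range (3 * L), ‖∑ s ∈ Ioc X0 (X0 + (L + T)), ((sm Λ g s : ℝ) : ℂ) * ee (s * ((r : ℝ) / (3 * L : ℕ)))‖ ^ 2 ≤
      δ ^ 2 * ‖bh Λ ((r : ℝ) / (3 * L : ℕ))‖ ^ 2 := by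
    intro r _
    have e1 := ft_sm X0 L T Λ hΛT g hg ((r : ℝ) / (3 * L : ℕ))
    have e2 : ∑ s ∈ Ioc X0 (X0 + (L + T)), ((sm Λ g s : ℝ) : ℂ) * ee (s * ((r : ℝ) / (3 * L : ℕ))) =
        ft (Ioc X0 (X0 + (L + T))) (sm Λ g) ((r : ℝ) / (3 * L : ℕ)) := rfl
    rw [e2, e1, norm_mul, mul_pow, mul_comm]
    apply mul_le_mul_of_nonneg_right _ (by positivity)
    exact pow_le_pow_left₀ (norm_nonneg _) (hsup _) 2
  have h2 := sum_le_sum h1
  rw [hP, ← mul_sum, bh_l2 (3 * L) T (by omega) Λ hΛ hΛT] at h2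
  have h3 : ∀ s ∈ Ioc X0 (X0 + (L + T)), ‖((sm Λ g s : ℝ) : ℂ)‖ ^ 2 = sm Λ g s ^ 2 := by
    intro s _
    rw [Complex.norm_real, Real.norm_eq_abs, sq_abs]
  rw [sum_congr rfl h3] at h2
  have h4 : δ ^ 2 * (((3 * L : ℕ) : ℝ) / Λ.card) = ((3 * L : ℕ) : ℝ) * (δ ^ 2 / Λ.card) := by ring
  rw [h4] at h2
  exact le_of_mul_le_mul_left h2 hM0

lemma ee_sub_one_le (x : ℝ) : ‖ee x - 1‖ ≤ 2 * Real.pi * |x| := by
  have h := Real.norm_exp_I_mul_ofReal_sub_one_le (x := 2 * Real.pi * x)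
  have e : ee x = Complex.exp (Complex.I * ((2 * Real.pi * x : ℝ) : ℂ)) := by
    unfold ee
    congr 1
    push_cast
    ring
  rw [e]
  refine h.trans ?_
  rw [Real.norm_eq_abs, abs_mul, abs_of_pos (by positivity)]

/-- a large set of shifts which almost fixes finitely many frequencies -/
lemma dirichlet_cell (R : Finset ℝ) (T q : ℕ) (hT : 1 ≤ T) (hq : 1 ≤ q) :
    ∃ Λ : Finset ℕ, Λ.Nonempty ∧ (∀ t ∈ Λ, t ≤ T) ∧ T ≤ Λ.card * q ^ R.card ∧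
      ∀ t ∈ Λ, ∀ θ ∈ R, ‖ee (t * θ) - 1‖ ≤ 2 * Real.pi / q := by
  classical
  have hq0 : (0 : ℝ) < q := by exact_mod_cast hq
  have hlt : ∀ t : ℕ, ∀ θ : ℝ, ⌊q * Int.fract (t * θ)⌋₊ < q := by
    intro t θ
    rw [Nat.floor_lt (mul_nonneg hq0.le (Int.fract_nonneg _))]
    have := Int.fract_lt_one ((t : ℝ) * θ)
    nlinarith
  set g : ℕ → (R → Fin q) := fun t θ => ⟨⌊q * Int.fract (t * (θ : ℝ))⌋₊, hlt t θ⟩ with hg
  obtain ⟨y, hy⟩ : ∃ y : R → Fin q, T ≤ ((range T).filter (fun t => g t = y)).card * q ^ R.card := by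
    by_contra hcon
    push Not at hcon
    have h1 : ∑ y : R → Fin q, ((range T).filter (fun t => g t = y)).card * q ^ R.card < ∑ _y : R → Fin q, T := by
      apply sum_lt_sum_of_nonempty
      · refine ⟨g 0, mem_univ _⟩
      · intro y _
        exact hcon y
    rw [← sum_mul, sum_const, smul_eq_mul, card_univ, Fintype.card_fun, Fintype.card_fin, Fintype.card_coe] at h1
    have h2 : ∑ y : R → Fin q, ((range T).filter (fun t => g t = y)).card = T := by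
      rw [← card_eq_sum_card_fiberwise (f := g) (t := univ) (fun _ _ => mem_coe.2 (mem_univ _)), card_range]
    rw [h2, mul_comm] at h1
    exact lt_irrefl _ h1
  set S := (range T).filter (fun t => g t = y) with hS
  have hSne : S.Nonempty := by
    rw [nonempty_iff_ne_empty]
    intro h
    rw [h, card_empty, zero_mul] at hy
    omega
  set t₀ := S.min' hSne with ht₀
  have ht₀S : t₀ ∈ S := min'_mem _ _
  have hmin : ∀ t ∈ S, t₀ ≤ t := fun t ht => min'_le _ _ ht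
  refine ⟨S.image (fun t => t - t₀), hSne.image _, ?_, ?_, ?_⟩
  · intro t ht
    rw [mem_image] at ht
    obtain ⟨s, hs, rfl⟩ := ht
    rw [hS, mem_filter, mem_range] at hs
    omega
  · rw [card_image_of_injOn]
    · exact hy
    · intro a ha b hb h
      have h1 := hmin a ha
      have h2 := hmin b hb
      simp only at h
      omega
  · intro t ht θ hθ
    rw [mem_image] at ht
    obtain ⟨s, hs, rfl⟩ := ht
    have h1 := hmin s hs
    have hgs : g s = g t₀ := by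
      rw [(mem_filter.1 hs).2, (mem_filter.1 ht₀S).2]
    have h2 : ⌊q * Int.fract (s * θ)⌋₊ = ⌊q * Int.fract (t₀ * θ)⌋₊ := by
      have := congrFun hgs ⟨θ, hθ⟩
      simp only [hg, Fin.mk.injEq] at this
      exact this
    have h3 : |Int.fract ((s : ℝ) * θ) - Int.fract ((t₀ : ℝ) * θ)| ≤ 1 / q := by
      have a1 := Nat.floor_le (mul_nonneg hq0.le (Int.fract_nonneg ((s : ℝ) * θ)))
      have a2 := Nat.lt_floor_add_one (q * Int.fract ((s : ℝ) * θ))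
      have a3 := Nat.floor_le (mul_nonneg hq0.le (Int.fract_nonneg ((t₀ : ℝ) * θ)))
      have a4 := Nat.lt_floor_add_one (q * Int.fract ((t₀ : ℝ) * θ))
      rw [h2] at a1 a2
      rw [abs_le]
      constructor
      · have : -(1 / (q : ℝ)) * q ≤ (Int.fract ((s : ℝ) * θ) - Int.fract ((t₀ : ℝ) * θ)) * q := by
          have e : -(1 / (q : ℝ)) * q = -1 := by field_simp
          rw [e]
          nlinarith
        exact le_of_mul_le_mul_right this hq0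
      · have : (Int.fract ((s : ℝ) * θ) - Int.fract ((t₀ : ℝ) * θ)) * q ≤ (1 / (q : ℝ)) * q := by
          have e : (1 / (q : ℝ)) * q = 1 := by field_simp
          rw [e]
          nlinarith
        exact le_of_mul_le_mul_right this hq0
    have h4 : ee (((s - t₀ : ℕ) : ℝ) * θ) = ee (Int.fract ((s : ℝ) * θ) - Int.fract ((t₀ : ℝ) * θ)) := by
      have e1 : ((s - t₀ : ℕ) : ℝ) * θ = (Int.fract ((s : ℝ) * θ) - Int.fract ((t₀ : ℝ) * θ)) +
          ((⌊(s : ℝ) * θ⌋ - ⌊(t₀ : ℝ) * θ⌋ : ℤ) : ℝ) := by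
        rw [Nat.cast_sub h1]
        unfold Int.fract
        push_cast
        ring
      rw [e1, ee_add_int]
    rw [h4]
    refine (ee_sub_one_le _).trans ?_
    calc 2 * Real.pi * |Int.fract ((s : ℝ) * θ) - Int.fract ((t₀ : ℝ) * θ)| ≤ 2 * Real.pi * (1 / q) := by gcongr
      _ = 2 * Real.pi / q := by ring

end Pool.Agent.H566
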