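import Mathlib
import Pool.Agent.H566.MMa

/-!
Correlations of a function and its power spectrum.
-/

set_option autoImplicit false

namespace Pool.Agent.H566

open Finset
open Pool.Agent.H807R2.Dav

/-- correlations through the power spectrum -/
lemma corr_hat (X0 L T : ℕ) (hL : 0 < L) (f : ℕ → ℝ) (hf : ∀ x, x ∉ Ioc X0 (X0 + L) → f x = 0) (h : ℕ) (hh : h ≤ T) :
    ∑ r ∈ range (L + T), ‖ft (Ioc X0 (X0 + L)) f ((r : ℝ) / (L + T : ℕ))‖ ^ 2 * (ee (h * ((r : ℝ) / (L + T : ℕ)))).re =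
      (L + T : ℕ) * ∑ x ∈ Ioc X0 (X0 + L), f x * f (x + h) := by
  set I := Ioc X0 (X0 + L) with hI
  set G := L + T with hG
  have hGpos : 0 < G := by omega
  have hG0 : (G : ℝ) ≠ 0 := by exact_mod_cast hGpos.ne'
  have key : ∑ r ∈ range G, ((‖ft I f ((r : ℝ) / G)‖ ^ 2 : ℝ) : ℂ) * ee (h * ((r : ℝ) / G)) =
      (((G : ℝ) * ∑ x ∈ I, f x * f (x + h) : ℝ) : ℂ) := by
    have h1 : ∀ r ∈ range G, ((‖ft I f ((r : ℝ) / G)‖ ^ 2 : ℝ) : ℂ) * ee (h * ((r : ℝ) / G)) =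
        ∑ x ∈ I, ∑ y ∈ I, (((f x * f y : ℝ)) : ℂ) * ee (((((x : ℤ) - y + h : ℤ) : ℝ)) * ((r : ℝ) / G)) := by
      intro r _
      have e1 : ((‖ft I f ((r : ℝ) / G)‖ ^ 2 : ℝ) : ℂ) = ft I f ((r : ℝ) / G) * (starRingEnd ℂ) (ft I f ((r : ℝ) / G)) := by
        rw [Complex.mul_conj']
        push_cast
        ring
      have e2 : (starRingEnd ℂ) (ft I f ((r : ℝ) / G)) = ∑ y ∈ I, ((f y : ℝ) : ℂ) * ee (-(y * ((r : ℝ) / G))) := by
        unfold ft
        rw [map_sum]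
        apply sum_congr rfl
        intro y _
        rw [map_mul, conj_ee, Complex.conj_ofReal]
      rw [e1, e2]
      unfold ft
      rw [sum_mul_sum, sum_mul]
      apply sum_congr rfl
      intro x _
      rw [sum_mul]
      apply sum_congr rfl
      intro y _
      have e3 : ee (((((x : ℤ) - y + h : ℤ) : ℝ)) * ((r : ℝ) / G)) = ee (x * ((r : ℝ) / G)) * ee (-(y * ((r : ℝ) / G))) * ee (h * ((r : ℝ) / G)) := by
        rw [← ee_add, ← ee_add]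
        congr 1
        push_cast
        ring
      rw [e3]
      push_cast
      ring
    rw [sum_congr rfl h1, sum_comm]
    push_cast
    rw [mul_sum]
    apply sum_congr rfl
    intro x hx
    rw [sum_comm]
    have h2 : ∀ y ∈ I, ∑ r ∈ range G, (((f x * f y : ℝ)) : ℂ) * ee (((((x : ℤ) - y + h : ℤ) : ℝ)) * ((r : ℝ) / G)) =
        if y = x + h then (G : ℂ) * ((f x : ℂ) * (f (x + h) : ℂ)) else 0 := by
      intro y hy
      rw [← mul_sum, ee_orth' G hGpos]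
      rw [hI, mem_Ioc] at hx hy
      by_cases hyx : y = x + h
      · rw [if_pos hyx, if_pos (by rw [hyx]; push_cast; simp), hyx]
        push_cast
        ring
      · rw [if_neg hyx, if_neg, mul_zero]
        intro hd
        have h3 : ((x : ℤ) - y + h) ≠ 0 := by omega
        have h4 : |((x : ℤ) - y + h)| < G := by
          rw [abs_lt]
          constructor <;> omega
        exact h3 (Int.eq_zero_of_abs_lt_dvd hd h4)
    have h5 : ∀ y ∈ I, ∑ r ∈ range G, ((f x : ℂ) * (f y : ℂ)) * ee ((((x : ℝ) - y + h)) * ((r : ℝ) / G)) =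
        if y = x + h then (G : ℂ) * ((f x : ℂ) * (f (x + h) : ℂ)) else 0 := by
      intro y hy
      rw [← h2 y hy]
      apply sum_congr rfl
      intro r _
      push_cast
      rfl
    rw [sum_congr rfl h5, sum_ite_eq' I (x + h)]
    by_cases hxh : x + h ∈ I
    · rw [if_pos hxh]
    · rw [if_neg hxh, hf _ hxh]
      simp
  have h6 := congrArg Complex.re key
  rw [Complex.re_sum, Complex.ofReal_re] at h6
  rw [← h6]
  apply sum_congr rfl
  intro r _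
  rw [Complex.re_ofReal_mul]

lemma pm {ι : Type*} (s : Finset ι) (a : ι → ℝ) (ha : ∀ i ∈ s, 0 ≤ a i) (hs : s.Nonempty) :
    ((∑ i ∈ s, a i ^ 2) / s.card) ^ 2 ≤ √((∑ i ∈ s, a i ^ 2) / s.card) * ((∑ i ∈ s, a i ^ 3) / s.card) := by
  have hn : (0 : ℝ) < s.card := by exact_mod_cast card_pos.2 hs
  have h1 : (∑ i ∈ s, a i ^ 2) ^ 2 ≤ (∑ i ∈ s, a i) * (∑ i ∈ s, a i ^ 3) :=
    sum_sq_le_sum_mul_sum_of_sq_le_mul s ha (fun i hi => pow_nonneg (ha i hi) 3) (fun i _ => le_of_eq (by ring))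
  have h2 : (∑ i ∈ s, a i) ^ 2 ≤ s.card * ∑ i ∈ s, a i ^ 2 := sq_sum_le_card_mul_sum_sq
  obtain ⟨P, hP⟩ : ∃ P, P = (∑ i ∈ s, a i ^ 2) / s.card := ⟨_, rfl⟩
  have hP0 : 0 ≤ P := by rw [hP]; exact div_nonneg (sum_nonneg fun i _ => sq_nonneg _) hn.le
  have e1 : ∑ i ∈ s, a i ^ 2 = P * s.card := by rw [hP, div_mul_cancel₀ _ hn.ne']
  rw [← hP]
  rw [e1] at h1 h2
  have h3 : ∑ i ∈ s, a i ≤ √P * s.card := by
    have h3' : (∑ i ∈ s, a i) ^ 2 ≤ (√P * s.card) ^ 2 := by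
      calc (∑ i ∈ s, a i) ^ 2 ≤ s.card * (P * s.card) := h2
        _ = (√P * s.card) ^ 2 := by rw [mul_pow, Real.sq_sqrt hP0]; ring
    exact (abs_le_of_sq_le_sq' h3' (mul_nonneg (Real.sqrt_nonneg _) hn.le)).2
  have h4 : 0 ≤ ∑ i ∈ s, a i ^ 3 := sum_nonneg fun i hi => pow_nonneg (ha i hi) 3
  have h5 : (P * s.card) ^ 2 ≤ (√P * s.card) * (∑ i ∈ s, a i ^ 3) := h1.trans (mul_le_mul_of_nonneg_right h3 h4)
  rw [← mul_div_assoc, le_div_iff₀ hn]
  have h6 : P ^ 2 * s.card * s.card ≤ (√P * (∑ i ∈ s, a i ^ 3)) * s.card := by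
    calc P ^ 2 * s.card * s.card = (P * s.card) ^ 2 := by ring
      _ ≤ _ := h5
      _ = _ := by ring
  exact le_of_mul_le_mul_right h6 hn

/-- few frequencies carry a bounded energy -/
lemma energy_le (X0 L T s : ℕ) (hL : 1 ≤ L) (hT : 2 * T ≤ L) (hT1 : 1 ≤ T) (ν f : ℕ → ℝ) (hf0 : ∀ x, 0 ≤ f x)
    (hfν : ∀ x, f x ≤ ν x) (hν0 : ∀ x, x ∉ Ioc X0 (X0 + L) → ν x = 0) (δ : ℝ)
    (hν : ∀ α, ‖ft (Ioc X0 (X0 + L)) ν α - ft (Ioc X0 (X0 + L)) (fun _ => 1) α‖ ≤ δ) (hδ : δ ^ 2 * 13 ^ s ≤ T * L)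
    (S : Finset ℕ) (hS : S ⊆ range (L + T)) (hs : S.card ≤ s) :
    ∑ r ∈ S, ‖ft (Ioc X0 (X0 + L)) f ((r : ℝ) / (L + T : ℕ))‖ ^ 2 ≤ 20 * (L + T : ℕ) * L := by
  classical
  set I := Ioc X0 (X0 + L) with hI
  set G := L + T with hG
  have hL0 : (0 : ℝ) < L := by exact_mod_cast hL
  have hT0 : (0 : ℝ) < T := by exact_mod_cast hT1
  obtain ⟨Λ, hΛ, hΛT, hΛc, hΛe⟩ := dirichlet_cell (S.image (fun r : ℕ => (r : ℝ) / G)) T 13 hT1 (by norm_num)
  have hc0 : (0 : ℝ) < Λ.card := by exact_mod_cast card_pos.2 hΛ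
  have hpi : 2 * Real.pi / (13 : ℕ) ≤ 1 / 2 := by
    have := Real.pi_lt_d2
    push_cast
    linarith
  have hbh : ∀ r ∈ S, 1 / 2 ≤ ‖bh Λ ((r : ℝ) / G)‖ := by
    intro r hr
    have h1 : ‖bh Λ ((r : ℝ) / G) - 1‖ ≤ 1 / 2 := by
      have e : bh Λ ((r : ℝ) / G) - 1 = (∑ t ∈ Λ, (ee (t * ((r : ℝ) / G)) - 1)) / Λ.card := by
        unfold bh
        rw [sum_sub_distrib, sum_const, nsmul_eq_mul, mul_one, sub_div, div_self]
        exact_mod_cast hc0.ne'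
      rw [e, norm_div, Complex.norm_natCast, div_le_iff₀ hc0]
      refine (norm_sum_le _ _).trans ?_
      have h2 : ∀ t ∈ Λ, ‖ee (t * ((r : ℝ) / G)) - 1‖ ≤ 1 / 2 := fun t ht =>
        (hΛe t ht _ (mem_image_of_mem _ hr)).trans hpi
      refine (sum_le_sum h2).trans ?_
      rw [sum_const, nsmul_eq_mul]
      linarith
    have h2 : ‖(1 : ℂ)‖ ≤ ‖bh Λ ((r : ℝ) / G) - 1‖ + ‖bh Λ ((r : ℝ) / G)‖ := by
      have := norm_sub_le (bh Λ ((r : ℝ) / G)) (bh Λ ((r : ℝ) / G) - 1)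
      rw [sub_sub_cancel] at this
      linarith
    rw [norm_one] at h2
    linarith
  have hf0' : ∀ x, x ∉ I → f x = 0 := fun x hx => le_antisymm ((hfν x).trans (hν0 x hx).le) (hf0 x)
  have hP := parseval (Ioc X0 (X0 + (L + T))) X0 G (by omega) (by rw [hG]) (fun x => ((sm Λ f x : ℝ) : ℂ))
  have h1 : ∑ r ∈ S, ‖ft I f ((r : ℝ) / G)‖ ^ 2 ≤ 4 * ((G : ℝ) * ∑ x ∈ Ioc X0 (X0 + (L + T)), sm Λ f x ^ 2) := by
    have h2 : ∀ r ∈ S, ‖ft I f ((r : ℝ) / G)‖ ^ 2 ≤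
        4 * ‖∑ x ∈ Ioc X0 (X0 + (L + T)), ((sm Λ f x : ℝ) : ℂ) * ee (x * ((r : ℝ) / G))‖ ^ 2 := by
      intro r hr
      have e1 := ft_sm X0 L T Λ hΛT f hf0' ((r : ℝ) / G)
      have e2 : ∑ s ∈ Ioc X0 (X0 + (L + T)), ((sm Λ f s : ℝ) : ℂ) * ee (s * ((r : ℝ) / G)) =
          ft (Ioc X0 (X0 + (L + T))) (sm Λ f) ((r : ℝ) / G) := rfl
      rw [e2, e1, norm_mul, mul_pow]
      have h3 : (1 / 2 : ℝ) ^ 2 ≤ ‖bh Λ ((r : ℝ) / G)‖ ^ 2 := pow_le_pow_left₀ (by norm_num) (hbh r hr) 2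
      have h4 : 0 ≤ ‖ft I f ((r : ℝ) / G)‖ ^ 2 := by positivity
      nlinarith
    refine (sum_le_sum h2).trans ?_
    rw [← mul_sum]
    apply mul_le_mul_of_nonneg_left _ (by norm_num)
    refine (sum_le_sum_of_subset_of_nonneg hS (fun _ _ _ => by positivity)).trans ?_
    rw [hP]
    apply le_of_eq
    congr 1
    apply sum_congr rfl
    intro x _
    rw [Complex.norm_real, Real.norm_eq_abs, sq_abs]
  -- the smoothed majorant
  set g : ℕ → ℝ := fun x => ν x - (if x ∈ I then 1 else 0) with hg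
  have hg0 : ∀ x, x ∉ I → g x = 0 := by
    intro x hx
    simp only [hg]
    rw [hν0 x hx, if_neg hx, sub_zero]
  have hgsup : ∀ α, ‖ft I g α‖ ≤ δ := by
    intro α
    have e : ft I g α = ft I ν α - ft I (fun _ => 1) α := by
      unfold ft
      rw [← sum_sub_distrib]
      apply sum_congr rfl
      intro x hx
      simp only [hg]
      rw [if_pos hx]
      push_cast
      ring
    rw [e]
    exact hν α
  have hg2 := sm_l2 X0 L T hL hT Λ hΛ hΛT g hg0 δ hgsup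
  have hΛc' : (T : ℝ) ≤ Λ.card * 13 ^ s := by
    have h3 : T ≤ Λ.card * 13 ^ s := by
      refine hΛc.trans ?_
      apply Nat.mul_le_mul_left
      apply Nat.pow_le_pow_right (by norm_num)
      exact card_image_le.trans hs
    exact_mod_cast h3
  have hg3 : δ ^ 2 / Λ.card ≤ L := by
    rw [div_le_iff₀ hc0]
    have h3 : δ ^ 2 * 13 ^ s ≤ (L * Λ.card) * 13 ^ s := by
      calc δ ^ 2 * 13 ^ s ≤ T * L := hδ
        _ ≤ (Λ.card * 13 ^ s) * L := by gcongr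
        _ = _ := by ring
    exact le_of_mul_le_mul_right h3 (by positivity)
  have hpt : ∀ x ∈ Ioc X0 (X0 + (L + T)), sm Λ f x ^ 2 ≤ 2 + 2 * sm Λ g x ^ 2 := by
    intro x _
    have h3 : 0 ≤ sm Λ f x := by
      unfold sm
      exact div_nonneg (sum_nonneg fun _ _ => hf0 _) hc0.le
    have h4 : sm Λ f x ≤ 1 + sm Λ g x := by
      have e : 1 + sm Λ g x = (∑ t ∈ Λ, (1 + g (x - t))) / Λ.card := by
        unfold sm
        rw [sum_add_distrib, sum_const, nsmul_eq_mul, mul_one, add_div, div_self hc0.ne']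
      rw [e]
      unfold sm
      apply div_le_div_of_nonneg_right _ hc0.le
      apply sum_le_sum
      intro t _
      simp only [hg]
      have := hfν (x - t)
      split_ifs <;> linarith
    have h5 : sm Λ f x ^ 2 ≤ (1 + sm Λ g x) ^ 2 := pow_le_pow_left₀ h3 h4 2
    nlinarith [sq_nonneg (1 - sm Λ g x)]
  have hsum : ∑ x ∈ Ioc X0 (X0 + (L + T)), sm Λ f x ^ 2 ≤ 5 * L := by
    refine (sum_le_sum hpt).trans ?_
    rw [sum_add_distrib, sum_const, Nat.card_Ioc, nsmul_eq_mul, ← mul_sum]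
    have h3 : ((X0 + (L + T) - X0 : ℕ) : ℝ) = L + T := by
      rw [Nat.add_sub_cancel_left]
      push_cast
      ring
    rw [h3]
    have h4 : (T : ℝ) ≤ L / 2 := by
      have : 2 * (T : ℝ) ≤ L := by exact_mod_cast hT
      linarith
    linarith
  calc _ ≤ 4 * ((G : ℝ) * ∑ x ∈ Ioc X0 (X0 + (L + T)), sm Λ f x ^ 2) := h1
    _ ≤ 4 * ((G : ℝ) * (5 * L)) := by gcongr
    _ = _ := by ring

/-- pigeonhole for a bounded nondecreasing sequence -/
lemma pig (J : ℕ) (E : ℕ → ℝ) (M e : ℝ) (h0 : 0 ≤ E 0) (hM : E J ≤ M) (hJ : M < J * e) : ∃ j < J, E (j + 1) - E j ≤ e := by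
  by_contra hcon
  push Not at hcon
  have h1 : ∑ j ∈ range J, e ≤ ∑ j ∈ range J, (E (j + 1) - E j) := sum_le_sum fun j hj => (hcon j (mem_range.1 hj)).le
  rw [sum_range_sub, sum_const, card_range, nsmul_eq_mul] at h1
  linarith

end Pool.Agent.H566
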