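import Mathlib
import Pool.Agent.H566.FNa

/-!
The abstract form of Folner's theorem for functions below a pseudorandom majorant: for all shifts in a Bohr set of radius `1/4`
with few exceptions, the autocorrelations are at least the expected ones.
-/

set_option autoImplicit false

namespace Pool.Agent.H566

open Finset
open Pool.Agent.H807R2.Dav

/-- averaged power spectrum -/
noncomputable def PS {ι : Type} (s : Finset ι) (X : ι → ℕ) (L G : ℕ) (f : ι → ℕ → ℝ) (r : ℕ) : ℝ :=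
  (∑ i ∈ s, ‖ft (Ioc (X i) (X i + L)) (f i) ((r : ℝ) / G)‖ ^ 2) / s.card

lemma PS_nonneg {ι : Type} (s : Finset ι) (X : ι → ℕ) (L G : ℕ) (f : ι → ℕ → ℝ) (r : ℕ) : 0 ≤ PS s X L G f r := by
  unfold PS
  positivity

lemma PS_cube {ι : Type} (s : Finset ι) (hs : s.Nonempty) (X : ι → ℕ) (L G : ℕ) (f : ι → ℕ → ℝ) (C : ℝ)
    (h3 : ∀ i ∈ s, ∑ r ∈ range G, ‖ft (Ioc (X i) (X i + L)) (f i) ((r : ℝ) / G)‖ ^ 3 ≤ C * (L : ℝ) ^ 3) :
    ∑ r ∈ range G, √(PS s X L G f r) ^ 3 ≤ C * (L : ℝ) ^ 3 := by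
  have hn : (0 : ℝ) < s.card := by exact_mod_cast card_pos.2 hs
  have h1 : ∀ r ∈ range G, √(PS s X L G f r) ^ 3 ≤
      (∑ i ∈ s, ‖ft (Ioc (X i) (X i + L)) (f i) ((r : ℝ) / G)‖ ^ 3) / s.card := by
    intro r _
    have h := pm s (fun i => ‖ft (Ioc (X i) (X i + L)) (f i) ((r : ℝ) / G)‖) (fun _ _ => norm_nonneg _) hs
    have hP : PS s X L G f r = (∑ i ∈ s, ‖ft (Ioc (X i) (X i + L)) (f i) ((r : ℝ) / G)‖ ^ 2) / s.card := rfl
    rw [← hP] at h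
    have hP0 := PS_nonneg s X L G f r
    obtain ⟨u, hu⟩ : ∃ u, u = √(PS s X L G f r) := ⟨_, rfl⟩
    have hu0 : 0 ≤ u := by rw [hu]; exact Real.sqrt_nonneg _
    have hu2 : PS s X L G f r = u ^ 2 := by rw [hu, Real.sq_sqrt hP0]
    rw [← hu]
    rw [← hu, hu2] at h
    rcases eq_or_lt_of_le hu0 with h0 | h0
    · rw [← h0]
      have : 0 ≤ (∑ i ∈ s, ‖ft (Ioc (X i) (X i + L)) (f i) ((r : ℝ) / G)‖ ^ 3) / (s.card : ℝ) :=
        div_nonneg (sum_nonneg fun _ _ => by positivity) hn.le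
      simpa using this
    · have h2 : u * u ^ 3 ≤ u * ((∑ i ∈ s, ‖ft (Ioc (X i) (X i + L)) (f i) ((r : ℝ) / G)‖ ^ 3) / s.card) := by
        calc u * u ^ 3 = (u ^ 2) ^ 2 := by ring
          _ ≤ _ := h
      exact le_of_mul_le_mul_left h2 h0
  refine (sum_le_sum h1).trans ?_
  rw [← sum_div, sum_comm, div_le_iff₀ hn]
  calc _ ≤ ∑ i ∈ s, C * (L : ℝ) ^ 3 := sum_le_sum h3
    _ = _ := by rw [sum_const, nsmul_eq_mul]; ring

lemma PS_energy {ι : Type} (s : Finset ι) (hs : s.Nonempty) (X : ι → ℕ) (L T d : ℕ) (hL : 1 ≤ L) (hT : 2 * T ≤ L)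
    (hT1 : 1 ≤ T) (ν f : ι → ℕ → ℝ) (hf0 : ∀ i x, 0 ≤ f i x) (hfν : ∀ i x, f i x ≤ ν i x)
    (hν0 : ∀ i ∈ s, ∀ x, x ∉ Ioc (X i) (X i + L) → ν i x = 0) (δ : ℝ)
    (hν : ∀ i ∈ s, ∀ α, ‖ft (Ioc (X i) (X i + L)) (ν i) α - ft (Ioc (X i) (X i + L)) (fun _ => 1) α‖ ≤ δ)
    (hδ : δ ^ 2 * 13 ^ d ≤ T * L) (S : Finset ℕ) (hS : S ⊆ range (L + T)) (hd : S.card ≤ d) :
    ∑ r ∈ S, PS s X L (L + T) f r ≤ 20 * (L + T : ℕ) * L := by
  have hn : (0 : ℝ) < s.card := by exact_mod_cast card_pos.2 hs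
  unfold PS
  rw [← sum_div, sum_comm, div_le_iff₀ hn]
  calc _ ≤ ∑ i ∈ s, (20 * ((L + T : ℕ) : ℝ) * L) := by
        apply sum_le_sum
        intro i hi
        exact energy_le (X i) L T d hL hT hT1 (ν i) (f i) (hf0 i) (hfν i) (hν0 i hi) δ (hν i hi) hδ S hS hd
    _ = _ := by rw [sum_const, nsmul_eq_mul]; ring

/-- averaged autocorrelation -/
noncomputable def AC {ι : Type} (s : Finset ι) (X : ι → ℕ) (L : ℕ) (f : ι → ℕ → ℝ) (h : ℕ) : ℝ :=
  (∑ i ∈ s, ∑ x ∈ Ioc (X i) (X i + L), f i x * f i (x + h)) / s.card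

lemma PS_corr {ι : Type} (s : Finset ι) (X : ι → ℕ) (L T : ℕ) (hL : 0 < L) (f : ι → ℕ → ℝ)
    (hf : ∀ i ∈ s, ∀ x, x ∉ Ioc (X i) (X i + L) → f i x = 0) (h : ℕ) (hh : h ≤ T) :
    ∑ r ∈ range (L + T), PS s X L (L + T) f r * (ee (h * ((r : ℝ) / (L + T : ℕ)))).re = (L + T : ℕ) * AC s X L f h := by
  unfold PS AC
  rw [← mul_div_assoc, mul_sum]
  have h1 : ∀ r ∈ range (L + T), (∑ i ∈ s, ‖ft (Ioc (X i) (X i + L)) (f i) ((r : ℝ) / (L + T : ℕ))‖ ^ 2) / s.card *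
      (ee (h * ((r : ℝ) / (L + T : ℕ)))).re =
      (∑ i ∈ s, ‖ft (Ioc (X i) (X i + L)) (f i) ((r : ℝ) / (L + T : ℕ))‖ ^ 2 * (ee (h * ((r : ℝ) / (L + T : ℕ)))).re) / s.card := by
    intro r _
    rw [← sum_mul]
    ring
  rw [sum_congr rfl h1, ← sum_div, sum_comm]
  congr 1
  apply sum_congr rfl
  intro i hi
  exact corr_hat (X i) L T hL (f i) (hf i hi) h hh

lemma tail_l2 (G T : ℕ) (hTG : T < G) (S : Finset ℕ) (hS : S ⊆ range G) (P : ℕ → ℝ) :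
    ∑ h ∈ Icc 1 T, (∑ r ∈ S, P r * (ee (h * ((r : ℝ) / G))).re) ^ 2 ≤ G * ∑ r ∈ S, P r ^ 2 := by
  have hG : 0 < G := by omega
  have hG0 : (G : ℝ) ≠ 0 := by exact_mod_cast hG.ne'
  have hinj : Set.InjOn (fun t : ℕ => t + 1) S := fun a _ b _ h => by simpa using h
  have hP := parseval (S.image (fun t => t + 1)) 0 G hG (by
    intro x hx
    rw [mem_image] at hx
    obtain ⟨y, hy, rfl⟩ := hx
    have := mem_range.1 (hS hy)
    rw [mem_Ioc]
    omega) (fun r => ((P (r - 1) : ℝ) : ℂ))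
  rw [sum_image (f := fun s => ‖((P (s - 1) : ℝ) : ℂ)‖ ^ 2) hinj] at hP
  have e1 : ∑ r ∈ S, ‖((P (r + 1 - 1) : ℝ) : ℂ)‖ ^ 2 = ∑ r ∈ S, P r ^ 2 := by
    apply sum_congr rfl
    intro r _
    rw [Nat.add_sub_cancel, Complex.norm_real, Real.norm_eq_abs, sq_abs]
  rw [e1] at hP
  rw [← hP]
  have h1 : ∀ h ∈ Icc 1 T, (∑ r ∈ S, P r * (ee (h * ((r : ℝ) / G))).re) ^ 2 ≤
      ‖∑ t ∈ S.image (fun t => t + 1), ((P (t - 1) : ℝ) : ℂ) * ee (t * ((h : ℝ) / G))‖ ^ 2 := by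
    intro h _
    have e2 : ∑ t ∈ S.image (fun t => t + 1), ((P (t - 1) : ℝ) : ℂ) * ee (t * ((h : ℝ) / G)) =
        ee ((h : ℝ) / G) * ∑ r ∈ S, ((P r : ℝ) : ℂ) * ee (h * ((r : ℝ) / G)) := by
      rw [sum_image (f := fun t => ((P (t - 1) : ℝ) : ℂ) * ee (t * ((h : ℝ) / G))) hinj, mul_sum]
      apply sum_congr rfl
      intro r _
      have e3 : ee (((r + 1 : ℕ) : ℝ) * ((h : ℝ) / G)) = ee ((h : ℝ) / G) * ee (h * ((r : ℝ) / G)) := by
        rw [← ee_add]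
        congr 1
        push_cast
        ring
      rw [Nat.add_sub_cancel, e3]
      ring
    rw [e2, norm_mul, norm_ee, one_mul]
    have e4 : ∑ r ∈ S, P r * (ee (h * ((r : ℝ) / G))).re = (∑ r ∈ S, ((P r : ℝ) : ℂ) * ee (h * ((r : ℝ) / G))).re := by
      rw [Complex.re_sum]
      apply sum_congr rfl
      intro r _
      rw [Complex.re_ofReal_mul]
    rw [e4, ← sq_abs]
    exact pow_le_pow_left₀ (abs_nonneg _) (Complex.abs_re_le_norm _) 2
  refine (sum_le_sum h1).trans ?_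
  apply sum_le_sum_of_subset_of_nonneg
  · intro h hh
    rw [mem_Icc] at hh
    rw [mem_range]
    omega
  · intro _ _ _
    positivity

/-- Folner's theorem for functions below a pseudorandom majorant -/
theorem folner_abs (K : ℕ) (C ε τ : ℝ) (hC : 0 < C) (hε : 0 < ε) (hτ : 0 < τ) : ∃ d : ℕ, ∃ δ0 : ℝ, 0 < δ0 ∧
    ∀ {ι : Type} (s : Finset ι) (_ : s.Nonempty) (X : ι → ℕ) (L T : ℕ) (_ : 1 ≤ L) (_ : 2 * T ≤ L) (_ : 1 ≤ T)
      (_ : τ * L ≤ T) (ν : ι → ℕ → ℝ) (f : Fin K → ι → ℕ → ℝ) (_ : ∀ c i x, 0 ≤ f c i x) (_ : ∀ c i x, f c i x ≤ ν i x)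
      (_ : ∀ i ∈ s, ∀ x, x ∉ Ioc (X i) (X i + L) → ν i x = 0)
      (_ : ∀ i ∈ s, ∀ α, ‖ft (Ioc (X i) (X i + L)) (ν i) α - ft (Ioc (X i) (X i + L)) (fun _ => 1) α‖ ≤ δ0 * L)
      (_ : ∀ c, ∀ i ∈ s, ∑ r ∈ range (L + T), ‖ft (Ioc (X i) (X i + L)) (f c i) ((r : ℝ) / (L + T : ℕ))‖ ^ 3 ≤ C * (L : ℝ) ^ 3),
      ∃ S ⊆ range (L + T), S.card ≤ d ∧
        (((Icc 1 T).filter (fun h : ℕ => (∀ r ∈ S, 0 ≤ (ee (h * ((r : ℝ) / (L + T : ℕ)))).re) ∧
          ∃ c, AC s X L (f c) h < PS s X L (L + T) (f c) 0 / (L + T : ℕ) - ε * L)).card : ℝ) * 5 ^ S.card ≤ ε * T := by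
  classical
  -- the levels
  obtain ⟨K', hK'⟩ : ∃ K' : ℝ, K' = K + 1 := ⟨_, rfl⟩
  have hK'0 : 0 < K' := by rw [hK']; positivity
  obtain ⟨σ, hσ⟩ : ∃ σ : ℝ → ℕ, σ = fun x => ⌈K' * C / x ^ 3⌉₊ := ⟨_, rfl⟩
  obtain ⟨stp, hstp⟩ : ∃ stp : ℝ → ℝ, stp = fun x => min x (ε ^ 3 * τ / (4 * K' * C * 5 ^ (σ x))) := ⟨_, rfl⟩
  obtain ⟨ρ, hρ⟩ : ∃ ρ : ℕ → ℝ, ρ = fun j => stp^[j] (√ε / 2) := ⟨_, rfl⟩
  have hρS : ∀ j, ρ (j + 1) = stp (ρ j) := by
    intro j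
    rw [hρ]
    simp only [Function.iterate_succ_apply']
  have hρ0 : ρ 0 = √ε / 2 := by rw [hρ]; rfl
  have hρpos : ∀ j, 0 < ρ j := by
    intro j
    induction j with
    | zero => rw [hρ0]; positivity
    | succ j ih =>
      rw [hρS, hstp]
      exact lt_min ih (by positivity)
  have hρle : ∀ j, ρ (j + 1) ≤ ρ j := by
    intro j
    rw [hρS, hstp]
    exact min_le_left _ _
  have hρanti : Antitone ρ := antitone_nat_of_succ_le hρle
  have hρs : ∀ j, ρ (j + 1) ≤ ε ^ 3 * τ / (4 * K' * C * 5 ^ (σ (ρ j))) := by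
    intro j
    rw [hρS, hstp]
    exact min_le_right _ _
  obtain ⟨J, hJ⟩ := exists_nat_gt (80 * K' / ε)
  obtain ⟨d, hd⟩ : ∃ d : ℕ, d = σ (ρ J) := ⟨_, rfl⟩
  have hσmono : ∀ j ≤ J, σ (ρ j) ≤ d := by
    intro j hj
    rw [hd, hσ]
    apply Nat.ceil_le_ceil
    apply div_le_div_of_nonneg_left (by positivity) (pow_pos (hρpos J) 3)
    exact pow_le_pow_left₀ (hρpos J).le (hρanti hj) 3
  refine ⟨d, √(τ / 13 ^ d), by positivity, ?_⟩
  intro ι s hs X L T hL hTL hT1 hτL ν f hf0 hfν hν0 hν h3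
  obtain ⟨G, hG⟩ : ∃ G : ℕ, G = L + T := ⟨_, rfl⟩
  rw [← hG] at h3 ⊢
  have hL0 : (0 : ℝ) < L := by exact_mod_cast hL
  have hT0 : (0 : ℝ) < T := by exact_mod_cast hT1
  have hG0 : (0 : ℝ) < G := by
    have : 0 < G := by omega
    exact_mod_cast this
  have hLG : (L : ℝ) ≤ G := by
    have : L ≤ G := by omega
    exact_mod_cast this
  -- the spectra
  obtain ⟨P, hP⟩ : ∃ P : Fin K → ℕ → ℝ, P = fun c r => PS s X L G (f c) r := ⟨_, rfl⟩
  have hP0 : ∀ c r, 0 ≤ P c r := fun c r => by rw [hP]; exact PS_nonneg _ _ _ _ _ _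
  have hPc : ∀ c, ∑ r ∈ range G, √(P c r) ^ 3 ≤ C * (L : ℝ) ^ 3 := fun c => by
    rw [hP]; exact PS_cube s hs X L G (f c) C (h3 c)
  obtain ⟨S, hS⟩ : ∃ S : ℕ → Finset ℕ, S = fun j => (range G).filter (fun r => ∃ c, ρ j * L ≤ √(P c r)) := ⟨_, rfl⟩
  have hSsub : ∀ j, S j ⊆ range G := fun j => by rw [hS]; exact filter_subset _ _
  have hScard : ∀ j, (S j).card ≤ σ (ρ j) := by
    intro j
    have h1 : ((S j).card : ℝ) * (ρ j * L) ^ 3 ≤ ∑ c : Fin K, ∑ r ∈ range G, √(P c r) ^ 3 := by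
      rw [sum_comm]
      have h2 : ∑ r ∈ S j, ∑ c : Fin K, √(P c r) ^ 3 ≤ ∑ r ∈ range G, ∑ c : Fin K, √(P c r) ^ 3 :=
        sum_le_sum_of_subset_of_nonneg (hSsub j) (fun _ _ _ => sum_nonneg fun _ _ => by positivity)
      refine le_trans ?_ h2
      rw [← nsmul_eq_mul, ← sum_const]
      apply sum_le_sum
      intro r hr
      rw [hS, mem_filter] at hr
      obtain ⟨-, c, hc⟩ := hr
      have h4 : (ρ j * L) ^ 3 ≤ √(P c r) ^ 3 := pow_le_pow_left₀ (mul_nonneg (hρpos j).le hL0.le) hc 3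
      exact h4.trans (single_le_sum (f := fun c => √(P c r) ^ 3) (fun _ _ => by positivity) (mem_univ c))
    have h2 : ∑ c : Fin K, ∑ r ∈ range G, √(P c r) ^ 3 ≤ K * (C * (L : ℝ) ^ 3) := by
      refine (sum_le_sum fun c _ => hPc c).trans ?_
      rw [sum_const, card_univ, Fintype.card_fin, nsmul_eq_mul]
    have h4 : ((S j).card : ℝ) ≤ K' * C / ρ j ^ 3 := by
      rw [le_div_iff₀ (pow_pos (hρpos j) 3)]
      have h5 : ((S j).card : ℝ) * ρ j ^ 3 * (L : ℝ) ^ 3 ≤ K' * C * (L : ℝ) ^ 3 := by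
        calc ((S j).card : ℝ) * ρ j ^ 3 * (L : ℝ) ^ 3 = ((S j).card : ℝ) * (ρ j * L) ^ 3 := by ring
          _ ≤ K * (C * (L : ℝ) ^ 3) := h1.trans h2
          _ ≤ K' * C * (L : ℝ) ^ 3 := by
            rw [hK']
            have : 0 ≤ C * (L : ℝ) ^ 3 := by positivity
            linarith
      exact le_of_mul_le_mul_right h5 (by positivity)
    rw [hσ]
    have := h4.trans (Nat.le_ceil _)
    exact_mod_cast this
  have hSmono : ∀ j, S j ⊆ S (j + 1) := by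
    intro j r hr
    rw [hS, mem_filter] at hr ⊢
    obtain ⟨h1, c, hc⟩ := hr
    exact ⟨h1, c, le_trans (mul_le_mul_of_nonneg_right (hρle j) hL0.le) hc⟩
  -- the energies
  obtain ⟨E, hE⟩ : ∃ E : ℕ → ℝ, E = fun j => ∑ c : Fin K, ∑ r ∈ S j, P c r := ⟨_, rfl⟩
  have hE0 : 0 ≤ E 0 := by rw [hE]; exact sum_nonneg fun c _ => sum_nonneg fun r _ => hP0 c r
  have hEJ : E J ≤ K' * (20 * G * L) := by
    have h1 : ∀ c : Fin K, ∑ r ∈ S J, P c r ≤ 20 * G * L := by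
      intro c
      have hδ : (√(τ / 13 ^ d) * L) ^ 2 * 13 ^ d ≤ (T : ℝ) * L := by
        rw [mul_pow, Real.sq_sqrt (by positivity)]
        calc τ / 13 ^ d * (L : ℝ) ^ 2 * 13 ^ d = (τ * L) * L := by field_simp
          _ ≤ T * L := by gcongr
      have h2 := PS_energy s hs X L T d hL hTL hT1 ν (f c) (hf0 c) (hfν c) hν0 _ hν hδ (S J) (by rw [← hG]; exact hSsub J)
        (by rw [hd]; exact hScard J)
      rw [← hG] at h2
      rw [hP]
      exact h2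
    calc E J = ∑ c : Fin K, ∑ r ∈ S J, P c r := by rw [hE]
      _ ≤ ∑ c : Fin K, (20 * G * L : ℝ) := sum_le_sum fun c _ => h1 c
      _ = K * (20 * G * L) := by rw [sum_const, card_univ, Fintype.card_fin, nsmul_eq_mul]
      _ ≤ K' * (20 * G * L) := by
        rw [hK']
        have : (0 : ℝ) ≤ 20 * G * L := by positivity
        linarith
  have hJ2 : K' * (20 * G * L) < J * (ε / 4 * (G * L)) := by
    rw [div_lt_iff₀ hε] at hJ
    have h1 : (0 : ℝ) < G * L := by positivity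
    have h2 : 80 * K' * (G * L) < J * ε * (G * L) := mul_lt_mul_of_pos_right hJ h1
    linarith
  obtain ⟨j, hjJ, hj⟩ := pig J E _ (ε / 4 * (G * L)) hE0 hEJ hJ2
  have hmid : ∀ c : Fin K, ∑ r ∈ S (j + 1) \ S j, P c r ≤ ε / 4 * (G * L) := by
    intro c
    refine le_trans ?_ hj
    rw [hE]
    simp only
    rw [← sum_sub_distrib]
    have h1 : ∀ c : Fin K, ∑ r ∈ S (j + 1), P c r - ∑ r ∈ S j, P c r = ∑ r ∈ S (j + 1) \ S j, P c r := by
      intro c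
      rw [← sum_sdiff (hSmono j)]
      ring
    rw [sum_congr rfl fun c _ => h1 c]
    exact single_le_sum (f := fun c => ∑ r ∈ S (j + 1) \ S j, P c r) (fun c _ => sum_nonneg fun r _ => hP0 c r) (mem_univ c)
  -- the tail
  obtain ⟨R, hR⟩ : ∃ R : Fin K → ℕ → ℝ, R = fun (c : Fin K) (h : ℕ) => ∑ r ∈ range G \ S (j + 1), P c r * (ee ((h : ℝ) * ((r : ℝ) / G))).re := ⟨_, rfl⟩
  have hR2 : ∀ c : Fin K, ∑ h ∈ Icc 1 T, R c h ^ 2 ≤ G * (ρ (j + 1) * L * (C * (L : ℝ) ^ 3)) := by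
    intro c
    rw [hR]
    refine (tail_l2 G T (by omega) _ sdiff_subset (P c)).trans ?_
    apply mul_le_mul_of_nonneg_left _ hG0.le
    calc ∑ r ∈ range G \ S (j + 1), P c r ^ 2 ≤ ∑ r ∈ range G \ S (j + 1), (ρ (j + 1) * L) * √(P c r) ^ 3 := by
          apply sum_le_sum
          intro r hr
          rw [mem_sdiff] at hr
          have h1 : √(P c r) ≤ ρ (j + 1) * L := by
            by_contra hcon
            push Not at hcon
            apply hr.2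
            rw [hS, mem_filter]
            exact ⟨hr.1, c, hcon.le⟩
          have h2 : P c r ^ 2 = √(P c r) * √(P c r) ^ 3 := by
            have h5 : √(P c r) ^ 2 = P c r := Real.sq_sqrt (hP0 c r)
            calc P c r ^ 2 = (√(P c r) ^ 2) ^ 2 := by rw [h5]
              _ = _ := by ring
          rw [h2]
          exact mul_le_mul_of_nonneg_right h1 (by positivity)
      _ ≤ ∑ r ∈ range G, (ρ (j + 1) * L) * √(P c r) ^ 3 :=
          sum_le_sum_of_subset_of_nonneg sdiff_subset (fun _ _ _ => mul_nonneg (mul_nonneg (hρpos _).le hL0.le) (by positivity))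
      _ ≤ _ := by
          rw [← mul_sum]
          exact mul_le_mul_of_nonneg_left (hPc c) (mul_nonneg (hρpos _).le hL0.le)
  refine ⟨S j, hSsub j, (hScard j).trans (hσmono j hjJ.le), ?_⟩
  -- a bad shift has a large tail
  have hkey : ∀ h ∈ (Icc 1 T).filter (fun h : ℕ => (∀ r ∈ S j, 0 ≤ (ee (h * ((r : ℝ) / G))).re) ∧
      ∃ c, AC s X L (f c) h < PS s X L G (f c) 0 / G - ε * L), (ε / 2 * (G * L)) ^ 2 ≤ ∑ c : Fin K, R c h ^ 2 := by
    intro h hh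
    rw [mem_filter, mem_Icc] at hh
    obtain ⟨⟨-, hhT⟩, hpos, c, hc⟩ := hh
    have hcor := PS_corr s X L T (by omega) (f c) (fun i hi x hx => le_antisymm ((hfν c i x).trans (hν0 i hi x hx).le) (hf0 c i x)) h hhT
    rw [← hG] at hcor
    have hPc' : ∀ r, PS s X L G (f c) r = P c r := fun r => by rw [hP]
    rw [hPc'] at hc
    simp only [hPc'] at hcor
    have hsplit : ∑ r ∈ range G, P c r * (ee (h * ((r : ℝ) / G))).re =
        ∑ r ∈ S j, P c r * (ee (h * ((r : ℝ) / G))).re + ∑ r ∈ S (j + 1) \ S j, P c r * (ee (h * ((r : ℝ) / G))).re + R c h := by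
      rw [hR]
      simp only
      rw [← sum_sdiff (hSsub (j + 1)), ← sum_sdiff (hSmono j)]
      ring
    have h1 : P c 0 - ρ 0 ^ 2 * (L : ℝ) ^ 2 ≤ ∑ r ∈ S j, P c r * (ee (h * ((r : ℝ) / G))).re := by
      have hnn : ∀ r ∈ S j, 0 ≤ P c r * (ee (h * ((r : ℝ) / G))).re := fun r hr => mul_nonneg (hP0 c r) (hpos r hr)
      by_cases h0 : 0 ∈ S j
      · have h2 := single_le_sum (f := fun r : ℕ => P c r * (ee (h * ((r : ℝ) / G))).re) hnn h0
        have h4 : P c 0 * (ee (h * (((0 : ℕ) : ℝ) / G))).re = P c 0 := by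
          have : (h : ℝ) * (((0 : ℕ) : ℝ) / G) = 0 := by simp
          rw [this, ee_zero, Complex.one_re, mul_one]
        simp only [h4] at h2
        have h5 : 0 ≤ ρ 0 ^ 2 * (L : ℝ) ^ 2 := by positivity
        linarith
      · have h2 : √(P c 0) ≤ ρ 0 * L := by
          by_contra hcon
          push Not at hcon
          apply h0
          rw [hS, mem_filter, mem_range]
          refine ⟨by omega, c, ?_⟩
          exact (mul_le_mul_of_nonneg_right (hρanti (Nat.zero_le j)) hL0.le).trans hcon.le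
        have h4 : P c 0 ≤ (ρ 0 * L) ^ 2 := by
          rw [← Real.sq_sqrt (hP0 c 0)]
          exact pow_le_pow_left₀ (Real.sqrt_nonneg _) h2 2
        have h5 := sum_nonneg hnn
        rw [mul_pow] at h4
        linarith
    have h2 : -(ε / 4 * (G * L)) ≤ ∑ r ∈ S (j + 1) \ S j, P c r * (ee (h * ((r : ℝ) / G))).re := by
      have h4 : ∑ r ∈ S (j + 1) \ S j, -(P c r) ≤ ∑ r ∈ S (j + 1) \ S j, P c r * (ee (h * ((r : ℝ) / G))).re := by
        apply sum_le_sum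
        intro r _
        have h5 : |(ee (h * ((r : ℝ) / G))).re| ≤ 1 := by
          have := Complex.abs_re_le_norm (ee (h * ((r : ℝ) / G)))
          rwa [norm_ee] at this
        have h6 := (abs_le.1 h5).1
        have h7 := hP0 c r
        nlinarith
      rw [sum_neg_distrib] at h4
      have := hmid c
      linarith
    have h4 : ρ 0 ^ 2 * (L : ℝ) ^ 2 ≤ ε / 4 * (G * L) := by
      rw [hρ0, div_pow, Real.sq_sqrt hε.le]
      have : (L : ℝ) ^ 2 ≤ G * L := by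
        rw [sq]
        gcongr
      nlinarith
    have h5 : G * AC s X L (f c) h < P c 0 - ε * (G * L) := by
      have h6 := mul_lt_mul_of_pos_left hc hG0
      have h7 : (G : ℝ) * (P c 0 / G - ε * L) = P c 0 - ε * (G * L) := by
        field_simp
      linarith
    have h6 : R c h ≤ -(ε / 2 * (G * L)) := by
      rw [hsplit] at hcor
      linarith
    have h7 : (ε / 2 * (G * L)) ^ 2 ≤ R c h ^ 2 := by
      have h8 : 0 ≤ ε / 2 * (G * L) := by positivity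
      nlinarith
    exact h7.trans (single_le_sum (f := fun c => R c h ^ 2) (fun _ _ => sq_nonneg _) (mem_univ c))
  obtain ⟨bad, hbad⟩ : ∃ bad : Finset ℕ, bad = (Icc 1 T).filter (fun h : ℕ => (∀ r ∈ S j, 0 ≤ (ee (h * ((r : ℝ) / G))).re) ∧
      ∃ c, AC s X L (f c) h < PS s X L G (f c) 0 / G - ε * L) := ⟨_, rfl⟩
  rw [← hbad] at hkey ⊢
  have hbsub : bad ⊆ Icc 1 T := by rw [hbad]; exact filter_subset _ _
  have hcount : (bad.card : ℝ) * (ε / 2 * (G * L)) ^ 2 ≤ K' * (G * (ρ (j + 1) * L * (C * (L : ℝ) ^ 3))) := by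
    calc (bad.card : ℝ) * (ε / 2 * (G * L)) ^ 2 = ∑ h ∈ bad, (ε / 2 * (G * L)) ^ 2 := by rw [sum_const, nsmul_eq_mul]
      _ ≤ ∑ h ∈ bad, ∑ c : Fin K, R c h ^ 2 := sum_le_sum hkey
      _ ≤ ∑ h ∈ Icc 1 T, ∑ c : Fin K, R c h ^ 2 :=
          sum_le_sum_of_subset_of_nonneg hbsub (fun _ _ _ => sum_nonneg fun _ _ => sq_nonneg _)
      _ = ∑ c : Fin K, ∑ h ∈ Icc 1 T, R c h ^ 2 := sum_comm
      _ ≤ ∑ c : Fin K, G * (ρ (j + 1) * L * (C * (L : ℝ) ^ 3)) := sum_le_sum fun c _ => hR2 c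
      _ = K * (G * (ρ (j + 1) * L * (C * (L : ℝ) ^ 3))) := by rw [sum_const, card_univ, Fintype.card_fin, nsmul_eq_mul]
      _ ≤ _ := by
        have h8 := hρpos (j + 1)
        rw [hK']
        have : 0 ≤ G * (ρ (j + 1) * L * (C * (L : ℝ) ^ 3)) := by positivity
        linarith
  have hρb : ρ (j + 1) * (4 * K' * C) * 5 ^ (S j).card ≤ ε ^ 3 * τ := by
    have h8 := hρs j
    rw [le_div_iff₀ (by positivity)] at h8
    refine le_trans ?_ h8
    have h9 : (5 : ℝ) ^ (S j).card ≤ 5 ^ (σ (ρ j)) := pow_le_pow_right₀ (by norm_num) (hScard j)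
    have h10 := hρpos (j + 1)
    calc ρ (j + 1) * (4 * K' * C) * 5 ^ (S j).card ≤ ρ (j + 1) * (4 * K' * C) * 5 ^ (σ (ρ j)) := by gcongr
      _ = _ := by ring
  -- conclusion
  have h11 : (bad.card : ℝ) * 5 ^ (S j).card * (ε ^ 2 * G * (G * L ^ 2)) ≤ (ε * T) * (ε ^ 2 * G * (G * L ^ 2)) := by
    have h10 := hρpos (j + 1)
    calc (bad.card : ℝ) * 5 ^ (S j).card * (ε ^ 2 * G * (G * L ^ 2)) =
          4 * ((bad.card : ℝ) * (ε / 2 * (G * L)) ^ 2) * 5 ^ (S j).card := by ring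
      _ ≤ 4 * (K' * (G * (ρ (j + 1) * L * (C * (L : ℝ) ^ 3)))) * 5 ^ (S j).card := by gcongr
      _ = (ρ (j + 1) * (4 * K' * C) * 5 ^ (S j).card) * (G * L ^ 4) := by ring
      _ ≤ (ε ^ 3 * τ) * (G * L ^ 4) := by gcongr
      _ = (ε ^ 3 * G * L ^ 2) * ((τ * L) * L) := by ring
      _ ≤ (ε ^ 3 * G * L ^ 2) * (T * G) := by gcongr
      _ = _ := by ring
  exact le_of_mul_le_mul_right h11 (by positivity)

end Pool.Agent.H566
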