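import Mathlib
import Pool.Agent.H566.FNb
import Pool.Agent.H566.MGi

/-!
Auxiliary facts for Folner's theorem in the primes: Bohr sets of radius `1/4`, the factor `h / φ(h)`, sums over the primes in
classes and windows.
-/

set_option autoImplicit false

namespace Pool.Agent.H566

open Finset
open Pool.Agent.H807R2.Dav

/-- radius one quarter and the half plane -/
lemma re_nonneg_iff (x : ℝ) : 0 ≤ (ee x).re ↔ ∃ k : ℤ, |x - k| ≤ 1 / 4 := by
  have hre : ∀ y : ℝ, (ee y).re = Real.cos (2 * Real.pi * y) := by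
    intro y
    unfold ee
    rw [Complex.exp_re]
    have e1 : (2 * (Real.pi : ℂ) * Complex.I * (y : ℂ)).re = 0 := by simp
    have e2 : (2 * (Real.pi : ℂ) * Complex.I * (y : ℂ)).im = 2 * Real.pi * y := by simp
    rw [e1, e2, Real.exp_zero, one_mul]
  have hper : ∀ k : ℤ, Real.cos (2 * Real.pi * x) = Real.cos (2 * Real.pi * (x - k)) := by
    intro k
    have : 2 * Real.pi * x = 2 * Real.pi * (x - k) + k * (2 * Real.pi) := by ring
    rw [this, Real.cos_add_int_mul_two_pi]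
  rw [hre]
  constructor
  · intro h
    refine ⟨round x, ?_⟩
    by_contra hcon
    push Not at hcon
    have h1 := abs_sub_round x
    rw [hper (round x), ← Real.cos_abs] at h
    have h2 : |2 * Real.pi * (x - round x)| = 2 * Real.pi * |x - round x| := by
      rw [abs_mul, abs_of_pos (by positivity)]
    rw [h2] at h
    have h3 : Real.cos (2 * Real.pi * |x - round x|) < 0 := by
      apply Real.cos_neg_of_pi_div_two_lt_of_lt
      · have := Real.pi_pos
        nlinarith
      · have := Real.pi_pos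
        nlinarith
    linarith
  · rintro ⟨k, hk⟩
    rw [hper k]
    rw [abs_le] at hk
    apply Real.cos_nonneg_of_neg_pi_div_two_le_of_le
    · have := Real.pi_pos
      nlinarith
    · have := Real.pi_pos
      nlinarith

/-- the frequencies `2 ^ j / W` detect the multiples of `W` -/
lemma dvd_of_dist (W h J : ℕ) (hW : 0 < W) (hJ : W ≤ 2 ^ J)
    (hd : ∀ j ≤ J, ∃ k : ℤ, |(h : ℝ) * ((2 : ℝ) ^ j / W) - k| ≤ 1 / 4) : W ∣ h := by
  have hW0 : (0 : ℝ) < W := by exact_mod_cast hW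
  have key : ∀ i ≤ J, ∃ k : ℤ, |(h : ℝ) * ((2 : ℝ) ^ (J - i) / W) - k| ≤ 1 / 4 / 2 ^ i := by
    intro i
    induction i with
    | zero =>
      intro _
      obtain ⟨k, hk⟩ := hd J le_rfl
      exact ⟨k, by simpa using hk⟩
    | succ i ih =>
      intro hi
      obtain ⟨k', hk'⟩ := ih (by omega)
      obtain ⟨k, hk⟩ := hd (J - (i + 1)) (by omega)
      have e1 : (2 : ℝ) ^ (J - i) = 2 * 2 ^ (J - (i + 1)) := by
        rw [← pow_succ']
        congr 1
        omega
      have e2 : (h : ℝ) * ((2 : ℝ) ^ (J - i) / W) = 2 * (h * ((2 : ℝ) ^ (J - (i + 1)) / W)) := by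
        rw [e1]
        ring
      rw [e2] at hk'
      obtain ⟨y, hy⟩ : ∃ y : ℝ, y = h * ((2 : ℝ) ^ (J - (i + 1)) / W) := ⟨_, rfl⟩
      rw [← hy] at hk hk' ⊢
      have h1 : (1 : ℝ) / 4 / 2 ^ i ≤ 1 / 4 := by
        apply div_le_self (by norm_num)
        exact one_le_pow₀ (by norm_num)
      have h2 : k' = 2 * k := by
        have h3 := abs_le.1 (hk'.trans h1)
        have h4 := abs_le.1 hk
        have h5 : ((k' - 2 * k : ℤ) : ℝ) < 1 := by push_cast; linarith
        have h6 : (-1 : ℝ) < ((k' - 2 * k : ℤ) : ℝ) := by push_cast; linarith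
        have h7 : k' - 2 * k < 1 := by exact_mod_cast h5
        have h8 : -1 < k' - 2 * k := by exact_mod_cast h6
        omega
      refine ⟨k, ?_⟩
      rw [h2] at hk'
      push_cast at hk'
      have e3 : 2 * y - 2 * (k : ℝ) = 2 * (y - k) := by ring
      rw [e3, abs_mul, abs_of_pos (by norm_num : (0 : ℝ) < 2)] at hk'
      rw [pow_succ]
      have e4 : (1 : ℝ) / 4 / (2 ^ i * 2) = 1 / 4 / 2 ^ i / 2 := by
        rw [div_div (1 / 4 : ℝ) (2 ^ i) 2]
      rw [e4]
      linarith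
  obtain ⟨k, hk⟩ := key J le_rfl
  rw [Nat.sub_self, pow_zero] at hk
  have h1 : |(h : ℝ) - k * W| < 1 := by
    have e1 : (h : ℝ) - k * W = (h * (1 / W) - k) * W := by
      field_simp
    rw [e1, abs_mul, abs_of_pos hW0]
    have hJ' : (W : ℝ) ≤ 2 ^ J := by exact_mod_cast hJ
    have h2 : (0 : ℝ) < 2 ^ J := by positivity
    calc |(h : ℝ) * (1 / W) - k| * W ≤ (1 / 4 / 2 ^ J) * 2 ^ J := mul_le_mul hk hJ' hW0.le (by positivity)
      _ = 1 / 4 := by field_simp
      _ < 1 := by norm_num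
  have h2 : |((h : ℤ) - k * W : ℤ)| < 1 := by
    have : ((|((h : ℤ) - k * W : ℤ)| : ℤ) : ℝ) < 1 := by
      push_cast
      exact h1
    exact_mod_cast this
  have h3 : (h : ℤ) - k * W = 0 := Int.abs_lt_one_iff.1 h2
  have h4 : (W : ℤ) ∣ (h : ℤ) := ⟨k, by linarith⟩
  exact_mod_cast h4

/-- a Bohr set of radius `1/4` is large -/
lemma bohr_size (S : Finset ℕ) (G T : ℕ) (hT : 2 * 5 ^ S.card ≤ T) :
    (T : ℝ) ≤ 2 * 5 ^ S.card * (((Icc 1 T).filter (fun h : ℕ => ∀ r ∈ S, 0 ≤ (ee (h * ((r : ℝ) / G))).re)).card : ℝ) := by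
  classical
  have h5 : 1 ≤ 5 ^ S.card := Nat.one_le_pow _ _ (by norm_num)
  obtain ⟨Λ, hΛ, hΛT, hΛc, hΛe⟩ := dirichlet_cell (S.image (fun r : ℕ => (r : ℝ) / G)) T 5 (by omega) (by norm_num)
  have h1 : Λ.erase 0 ⊆ (Icc 1 T).filter (fun h : ℕ => ∀ r ∈ S, 0 ≤ (ee (h * ((r : ℝ) / G))).re) := by
    intro t ht
    rw [mem_erase] at ht
    rw [mem_filter, mem_Icc]
    refine ⟨⟨by omega, hΛT t ht.2⟩, fun r hr => ?_⟩
    have h2 := hΛe t ht.2 _ (mem_image_of_mem _ hr)
    have h3 : 2 * Real.pi / (5 : ℕ) ≤ 1.4 := by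
      have := Real.pi_lt_d2
      push_cast
      linarith
    have h4 := h2.trans h3
    have h6 : ‖ee (t * ((r : ℝ) / G)) - 1‖ ^ 2 = 2 - 2 * (ee (t * ((r : ℝ) / G))).re := by
      have h7 : ‖ee (t * ((r : ℝ) / G))‖ ^ 2 = 1 := by rw [norm_ee]; norm_num
      rw [← Complex.normSq_eq_norm_sq, Complex.normSq_apply] at h7 ⊢
      rw [Complex.sub_re, Complex.sub_im, Complex.one_re, Complex.one_im]
      linarith
    have h8 : ‖ee (t * ((r : ℝ) / G)) - 1‖ ^ 2 ≤ 1.4 ^ 2 := pow_le_pow_left₀ (norm_nonneg _) h4 2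
    rw [h6] at h8
    linarith
  have h2 := card_le_card h1
  have h3 : Λ.card - 1 ≤ (Λ.erase 0).card := pred_card_le_card_erase
  have h4 : T ≤ Λ.card * 5 ^ S.card := by
    refine hΛc.trans ?_
    apply Nat.mul_le_mul_left
    exact Nat.pow_le_pow_right (by norm_num) card_image_le
  have h6 : (Λ.card : ℝ) ≤ (((Icc 1 T).filter (fun h : ℕ => ∀ r ∈ S, 0 ≤ (ee (h * ((r : ℝ) / G))).re)).card : ℝ) + 1 := by
    have : Λ.card ≤ ((Icc 1 T).filter (fun h : ℕ => ∀ r ∈ S, 0 ≤ (ee (h * ((r : ℝ) / G))).re)).card + 1 := by omega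
    exact_mod_cast this
  have h7 : (T : ℝ) ≤ Λ.card * 5 ^ S.card := by exact_mod_cast h4
  have h8 : (2 : ℝ) * 5 ^ S.card ≤ T := by exact_mod_cast hT
  have h9 : (0 : ℝ) < 5 ^ S.card := by positivity
  nlinarith [mul_le_mul_of_nonneg_right h6 h9.le]

/-- the product of `1 - x` is at least one minus the sum -/
lemma prod_one_sub_ge {ι : Type*} (s : Finset ι) (x : ι → ℝ) (h0 : ∀ i ∈ s, 0 ≤ x i) (h1 : ∀ i ∈ s, x i ≤ 1) :
    1 - ∑ i ∈ s, x i ≤ ∏ i ∈ s, (1 - x i) ∧ 0 ≤ ∏ i ∈ s, (1 - x i) ∧ ∏ i ∈ s, (1 - x i) ≤ 1 := by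
  classical
  induction s using Finset.induction_on with
  | empty => simp
  | insert a s ha ih =>
    rw [sum_insert ha, prod_insert ha]
    obtain ⟨i1, i2, i3⟩ := ih (fun i hi => h0 i (mem_insert_of_mem hi)) (fun i hi => h1 i (mem_insert_of_mem hi))
    have a0 := h0 a (mem_insert_self a s)
    have a1 := h1 a (mem_insert_self a s)
    refine ⟨?_, mul_nonneg (by linarith) i2, ?_⟩
    · nlinarith
    · nlinarith

/-- the factor `h / φ(h)` of a multiple of `W` -/
lemma totient_ratio (w h : ℕ) (hh : 0 < h) (e : ℝ) (he0 : 0 ≤ e) (he1 : e < 1)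
    (hs : ∑ p ∈ h.primeFactors.filter (fun p => w < p), (1 : ℝ) / p ≤ e) :
    ((pmW w * h : ℕ) : ℝ) / (pmW w * h).totient ≤ ((pmW w : ℕ) : ℝ) / (pmW w).totient / (1 - e) := by
  classical
  have hW : 0 < pmW w := pmW_pos w
  have hform : ∀ n : ℕ, 0 < n → ((n.totient : ℕ) : ℝ) = n * ∏ p ∈ n.primeFactors, (1 - (1 : ℝ) / p) := by
    intro n _
    have h1 := Nat.totient_eq_mul_prod_factors n
    have h2 : (((n.totient : ℚ)) : ℝ) = ((n * ∏ p ∈ n.primeFactors, (1 - (p : ℚ)⁻¹) : ℚ) : ℝ) := by rw [h1]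
    push_cast at h2
    rw [h2]
    congr 1
    apply prod_congr rfl
    intro p _
    rw [one_div]
  have hWpf : (pmW w).primeFactors = prW w := by
    ext p
    rw [Nat.mem_primeFactors_of_ne_zero hW.ne']
    constructor
    · rintro ⟨hp, hpd⟩
      unfold pmW at hpd
      rw [(Nat.prime_iff.1 hp).dvd_finsetProd_iff] at hpd
      obtain ⟨q, hq, hpq⟩ := hpd
      have := (Nat.prime_dvd_prime_iff_eq hp (prW_prime w q hq)).1 hpq
      rwa [this]
    · intro hp
      exact ⟨prW_prime w p hp, dvd_pmW w p hp⟩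
  have hpf : (pmW w * h).primeFactors = prW w ∪ h.primeFactors.filter (fun p => w < p) := by
    rw [Nat.primeFactors_mul hW.ne' hh.ne', hWpf]
    ext p
    rw [mem_union, mem_union, mem_filter]
    constructor
    · rintro (h1 | h1)
      · exact Or.inl h1
      · by_cases h2 : w < p
        · exact Or.inr ⟨h1, h2⟩
        · left
          unfold prW
          rw [mem_filter, mem_range]
          exact ⟨by omega, Nat.prime_of_mem_primeFactors h1⟩
    · rintro (h1 | h1)
      · exact Or.inl h1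
      · exact Or.inr h1.1
  have hdisj : Disjoint (prW w) (h.primeFactors.filter (fun p => w < p)) := by
    rw [disjoint_left]
    intro p hp hp'
    unfold prW at hp
    rw [mem_filter, mem_range] at hp
    rw [mem_filter] at hp'
    omega
  have hWh : 0 < pmW w * h := Nat.mul_pos hW hh
  have e1 := hform _ hWh
  have e2 := hform _ hW
  rw [hpf, prod_union hdisj] at e1
  rw [hWpf] at e2
  obtain ⟨g1, g2, g3⟩ := prod_one_sub_ge (h.primeFactors.filter (fun p => w < p)) (fun p => (1 : ℝ) / p)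
    (fun p _ => by positivity) (fun p hp => by
      have := (Nat.prime_of_mem_primeFactors (mem_filter.1 hp).1).one_lt
      rw [div_le_one (by positivity)]
      exact_mod_cast this.le)
  have hWr : (0 : ℝ) < (pmW w : ℕ) := by exact_mod_cast hW
  have hhr : (0 : ℝ) < h := by exact_mod_cast hh
  have htW : (0 : ℝ) < ((pmW w).totient : ℕ) := by exact_mod_cast Nat.totient_pos.2 hW
  have htWh : (0 : ℝ) < ((pmW w * h).totient : ℕ) := by exact_mod_cast Nat.totient_pos.2 hWh
  have e3 : (((pmW w * h).totient : ℕ) : ℝ) = ((pmW w).totient : ℝ) * h * ∏ p ∈ h.primeFactors.filter (fun p => w < p), (1 - (1 : ℝ) / p) := by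
    rw [e1, e2]
    push_cast
    ring
  have e4 : ((pmW w).totient : ℝ) * h * (1 - e) ≤ (((pmW w * h).totient : ℕ) : ℝ) := by
    rw [e3]
    apply mul_le_mul_of_nonneg_left _ (by positivity)
    linarith
  have h1e : 0 < 1 - e := by linarith
  rw [div_div, div_le_div_iff₀ htWh (by positivity)]
  push_cast
  calc ((pmW w : ℕ) : ℝ) * h * (((pmW w).totient : ℝ) * (1 - e)) = (pmW w : ℕ) * (((pmW w).totient : ℝ) * h * (1 - e)) := by ring
    _ ≤ (pmW w : ℕ) * (((pmW w * h).totient : ℕ) : ℝ) := mul_le_mul_of_nonneg_left e4 hWr.le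

/-- few numbers have many prime factors larger than `w` -/
lemma rough_sum (w T : ℕ) (hw : 1 ≤ w) :
    ∑ h ∈ Icc 1 T, ∑ p ∈ h.primeFactors.filter (fun p => w < p), (1 : ℝ) / p ≤ T / w := by
  classical
  have hw0 : (0 : ℝ) < w := by exact_mod_cast hw
  have h1 : ∀ h ∈ Icc 1 T, ∑ p ∈ h.primeFactors.filter (fun p => w < p), (1 : ℝ) / p ≤
      ∑ p ∈ Ioc w (w + T), if p ∣ h then (1 : ℝ) / p else 0 := by
    intro h hh
    rw [mem_Icc] at hh
    rw [← sum_filter]
    apply sum_le_sum_of_subset_of_nonneg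
    · intro p hp
      rw [mem_filter] at hp
      have hpd := Nat.dvd_of_mem_primeFactors hp.1
      have hple := Nat.le_of_dvd (by omega) hpd
      rw [mem_filter, mem_Ioc]
      exact ⟨⟨hp.2, by omega⟩, hpd⟩
    · intro _ _ _
      positivity
  refine (sum_le_sum h1).trans ?_
  rw [sum_comm]
  have h2 : ∀ p ∈ Ioc w (w + T), ∑ h ∈ Icc 1 T, (if p ∣ h then (1 : ℝ) / p else 0) ≤ T * (1 / ((p : ℝ) - 1) - 1 / p) := by
    intro p hp
    rw [mem_Ioc] at hp
    have hp0 : (0 : ℝ) < p := by exact_mod_cast (by omega : 0 < p)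
    have hp1 : (0 : ℝ) < (p : ℝ) - 1 := by
      have : (1 : ℝ) < p := by exact_mod_cast (by omega : 1 < p)
      linarith
    rw [← sum_filter, sum_const, nsmul_eq_mul]
    have h3 : ((Icc 1 T).filter (fun h => p ∣ h)).card ≤ T / p := by
      have e : (Icc 1 T).filter (fun h => p ∣ h) = (Ioc 0 T).filter (fun h => p ∣ h) := by
        ext x
        simp only [mem_filter, mem_Icc, mem_Ioc]
        constructor <;> rintro ⟨⟨a, b⟩, c⟩ <;> exact ⟨⟨by omega, b⟩, c⟩
      rw [e, Nat.Ioc_filter_dvd_card_eq_div]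
    have h4 : (((Icc 1 T).filter (fun h => p ∣ h)).card : ℝ) ≤ T / p := by
      refine le_trans ?_ (Nat.cast_div_le (α := ℝ))
      exact_mod_cast h3
    calc (((Icc 1 T).filter (fun h => p ∣ h)).card : ℝ) * (1 / p) ≤ T / p * (1 / p) := by gcongr
      _ = T * (1 / (p * p)) := by ring
      _ ≤ T * (1 / ((p : ℝ) - 1) - 1 / p) := by
        apply mul_le_mul_of_nonneg_left _ (Nat.cast_nonneg _)
        have e : 1 / ((p : ℝ) - 1) - 1 / p = 1 / (p * (p - 1)) := by
          field_simp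
          ring
        rw [e]
        apply one_div_le_one_div_of_le (by positivity)
        nlinarith
  refine (sum_le_sum h2).trans ?_
  rw [← mul_sum]
  have h3 : ∀ n : ℕ, ∑ p ∈ Ioc w (w + n), (1 / ((p : ℝ) - 1) - 1 / p) = 1 / w - 1 / ((w + n : ℕ) : ℝ) := by
    intro n
    induction n with
    | zero => simp
    | succ n ih =>
      have e : Ioc w (w + (n + 1)) = insert (w + (n + 1)) (Ioc w (w + n)) := by
        ext x
        rw [mem_insert, mem_Ioc, mem_Ioc]
        omega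
      rw [e, sum_insert (by rw [mem_Ioc]; omega), ih]
      push_cast
      ring
  rw [h3]
  have h4 : (0 : ℝ) ≤ 1 / ((w + T : ℕ) : ℝ) := by positivity
  calc (T : ℝ) * (1 / w - 1 / ((w + T : ℕ) : ℝ)) ≤ T * (1 / w) := by
        apply mul_le_mul_of_nonneg_left _ (Nat.cast_nonneg _)
        linarith
    _ = T / w := by ring

end Pool.Agent.H566
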