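import Mathlib
import Pool.Agent.H566.FNc

/-!
Sums over the primes of a set, in classes and windows.
-/

set_option autoImplicit false

namespace Pool.Agent.H566

open Finset
open Pool.Agent.H807R2.Dav

/-- the weight of the primes of `A` in a window of a class -/
noncomputable def fA (W L : ℕ) (A : Finset ℕ) (i : ℕ × ℕ) (x : ℕ) : ℝ :=
  if x ∈ Ioc (i.2 * L) (i.2 * L + L) ∧ W * x + i.1 ∈ A then nuW W i.1 x else 0

/-- the weight of all primes in a window of a class -/
noncomputable def nuA (W L : ℕ) (i : ℕ × ℕ) (x : ℕ) : ℝ :=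
  if x ∈ Ioc (i.2 * L) (i.2 * L + L) then nuW W i.1 x else 0

lemma fA_nonneg (W L : ℕ) (A : Finset ℕ) (i : ℕ × ℕ) (x : ℕ) : 0 ≤ fA W L A i x := by
  unfold fA
  split_ifs
  · exact nuW_nonneg _ _ _
  · exact le_rfl

lemma fA_le (W L : ℕ) (A : Finset ℕ) (i : ℕ × ℕ) (x : ℕ) : fA W L A i x ≤ nuA W L i x := by
  unfold fA nuA
  have := nuW_nonneg W i.1 x
  by_cases h : x ∈ Ioc (i.2 * L) (i.2 * L + L)
  · rw [if_pos h]
    split_ifs
    · exact le_rfl
    · exact this
  · rw [if_neg h, if_neg (fun h' => h h'.1)]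

lemma nuA_zero (W L : ℕ) (i : ℕ × ℕ) (x : ℕ) (hx : x ∉ Ioc (i.2 * L) (i.2 * L + L)) : nuA W L i x = 0 := by
  unfold nuA
  rw [if_neg hx]

/-- the index set: classes and windows -/
def ix (w m : ℕ) : Finset (ℕ × ℕ) := unW w ×ˢ Icc 1 m

lemma ix_card (w m : ℕ) : (ix w m).card = (pmW w).totient * m := by
  unfold ix
  rw [card_product, Nat.card_Icc, Nat.add_sub_cancel]
  congr 1
  unfold unW
  rw [Nat.totient_eq_card_coprime]
  congr 1
  ext b
  simp only [mem_filter, mem_range, Nat.coprime_comm]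

/-- the total mass -/
lemma mass (w L m N : ℕ) (hL : 1 ≤ L) (hm : N < pmW w * L * (m + 1)) (A : Finset ℕ) (hA : ∀ p ∈ A, p.Prime ∧ p ≤ N)
    (Y : ℕ) (hY : pmW w * (L + 1) ≤ Y) :
    (((pmW w).totient : ℝ) / (pmW w : ℕ)) * ∑ p ∈ A.filter (fun p => Y < p), Real.log p ≤
      ∑ i ∈ ix w m, ∑ x ∈ Ioc (i.2 * L) (i.2 * L + L), fA (pmW w) L A i x := by
  classical
  set W := pmW w with hWdef
  have hW : 0 < W := pmW_pos w
  rw [sum_sigma', mul_sum]
  set g : ℕ → (Σ _ : ℕ × ℕ, ℕ) := fun p => ⟨(p % W, (p / W - 1) / L), p / W⟩ with hg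
  have hinj : Set.InjOn g (A.filter (fun p => Y < p)) := by
    intro p _ q _ h
    simp only [hg, Sigma.mk.injEq, Prod.mk.injEq] at h
    obtain ⟨⟨h1, -⟩, h2⟩ := h
    have h2' : p / W = q / W := by simpa using h2
    rw [← Nat.div_add_mod p W, ← Nat.div_add_mod q W, h1, h2']
  have hfacts : ∀ p ∈ A.filter (fun p => Y < p), p % W ∈ unW w ∧ 1 ≤ (p / W - 1) / L ∧ (p / W - 1) / L ≤ m ∧
      p / W ∈ Ioc ((p / W - 1) / L * L) ((p / W - 1) / L * L + L) := by
    intro p hp
    rw [mem_filter] at hp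
    obtain ⟨hpA, hpY⟩ := hp
    obtain ⟨hpp, hpN⟩ := hA p hpA
    have h1 : L + 1 ≤ p / W := by
      rw [Nat.le_div_iff_mul_le hW, mul_comm]
      omega
    have hdm := Nat.div_add_mod (p / W - 1) L
    have hml := Nat.mod_lt (p / W - 1) (by omega : 0 < L)
    refine ⟨?_, ?_, ?_, ?_⟩
    · unfold unW
      rw [mem_filter, mem_range, ← hWdef]
      refine ⟨Nat.mod_lt _ hW, ?_⟩
      have h2 : p.Coprime W := by
        rw [hpp.coprime_iff_not_dvd]
        intro hd
        have h3 := Nat.le_of_dvd hW hd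
        have h4 : W * 1 ≤ W * (L + 1) := Nat.mul_le_mul_left _ (by omega)
        omega
      unfold Nat.Coprime at h2 ⊢
      rw [← Nat.gcd_rec W p, Nat.gcd_comm]
      exact h2
    · rw [Nat.le_div_iff_mul_le (by omega)]
      omega
    · have h2 : p / W < L * (m + 1) := by
        rw [Nat.div_lt_iff_lt_mul hW]
        calc p ≤ N := hpN
          _ < W * L * (m + 1) := hm
          _ = L * (m + 1) * W := by ring
      have h3 : (p / W - 1) / L < m + 1 := by
        rw [Nat.div_lt_iff_lt_mul (by omega)]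
        have : L * (m + 1) = (m + 1) * L := by ring
        omega
      omega
    · rw [mem_Ioc]
      have e : (p / W - 1) / L * L = L * ((p / W - 1) / L) := by ring
      constructor <;> omega
  have h1 : ∀ p ∈ A.filter (fun p => Y < p), ((W.totient : ℝ) / (W : ℕ)) * Real.log p =
      (fun y : (Σ _ : ℕ × ℕ, ℕ) => fA W L A y.1 y.2) (g p) := by
    intro p hp
    obtain ⟨f1, f2, f3, f4⟩ := hfacts p hp
    rw [mem_filter] at hp
    simp only [hg, fA]
    have e : W * (p / W) + p % W = p := Nat.div_add_mod p W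
    rw [if_pos ⟨f4, by rw [e]; exact hp.1⟩]
    unfold nuW th
    rw [e, if_pos (hA p hp.1).1]
  rw [sum_congr rfl h1, ← sum_image (f := fun y : (Σ _ : ℕ × ℕ, ℕ) => fA W L A y.1 y.2) hinj]
  apply sum_le_sum_of_subset_of_nonneg
  · intro y hy
    rw [mem_image] at hy
    obtain ⟨p, hp, rfl⟩ := hy
    obtain ⟨f1, f2, f3, f4⟩ := hfacts p hp
    rw [mem_sigma]
    simp only [hg, ix]
    rw [mem_product, mem_Icc]
    exact ⟨⟨f1, f2, f3⟩, f4⟩
  · intro y _ _
    exact fA_nonneg _ _ _ _ _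

/-- the correlations count pairs of primes -/
lemma pairs_le (w L m N h : ℕ) (A : Finset ℕ) (hA : ∀ p ∈ A, p.Prime ∧ p ≤ N) :
    ∑ i ∈ ix w m, ∑ x ∈ Ioc (i.2 * L) (i.2 * L + L), fA (pmW w) L A i x * fA (pmW w) L A i (x + h) ≤
      ((((pmW w).totient : ℝ) / (pmW w : ℕ)) * Real.log N) ^ 2 * ((A.filter (fun p => p + pmW w * h ∈ A)).card : ℝ) := by
  classical
  set W := pmW w with hWdef
  have hW : 0 < W := pmW_pos w
  rw [sum_sigma']
  set Q := ((ix w m).sigma (fun i => Ioc (i.2 * L) (i.2 * L + L))).filter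
    (fun y => W * y.2 + y.1.1 ∈ A ∧ W * (y.2 + h) + y.1.1 ∈ A) with hQ
  have h0 : (0 : ℝ) ≤ ((W.totient : ℝ) / (W : ℕ)) * Real.log N := by
    have := Real.log_natCast_nonneg N
    positivity
  have hnu : ∀ b x, W * x + b ∈ A → nuW W b x ≤ ((W.totient : ℝ) / (W : ℕ)) * Real.log N := by
    intro b x hx
    obtain ⟨hp, hpN⟩ := hA _ hx
    unfold nuW th
    rw [if_pos hp]
    apply mul_le_mul_of_nonneg_left _ (by positivity)
    apply Real.log_le_log (by exact_mod_cast hp.pos)
    exact_mod_cast hpN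
  have h1 : ∑ y ∈ (ix w m).sigma (fun i => Ioc (i.2 * L) (i.2 * L + L)), fA W L A y.1 y.2 * fA W L A y.1 (y.2 + h) ≤
      ∑ y ∈ Q, (((W.totient : ℝ) / (W : ℕ)) * Real.log N) ^ 2 := by
    rw [hQ, sum_filter]
    apply sum_le_sum
    intro y _
    split_ifs with hc
    · have e1 : fA W L A y.1 y.2 ≤ ((W.totient : ℝ) / (W : ℕ)) * Real.log N := by
        unfold fA
        split_ifs with hc'
        · exact hnu _ _ hc.1
        · exact h0
      have e2 : fA W L A y.1 (y.2 + h) ≤ ((W.totient : ℝ) / (W : ℕ)) * Real.log N := by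
        unfold fA
        split_ifs with hc'
        · exact hnu _ _ hc.2
        · exact h0
      rw [pow_two]
      exact mul_le_mul e1 e2 (fA_nonneg _ _ _ _ _) h0
    · apply le_of_eq
      by_cases c1 : W * y.2 + y.1.1 ∈ A
      · have c2 : ¬ W * (y.2 + h) + y.1.1 ∈ A := fun c2 => hc ⟨c1, c2⟩
        have e2 : fA W L A y.1 (y.2 + h) = 0 := by
          unfold fA
          rw [if_neg (fun c => c2 c.2)]
        rw [e2, mul_zero]
      · have e1 : fA W L A y.1 y.2 = 0 := by
          unfold fA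
          rw [if_neg (fun c => c1 c.2)]
        rw [e1, zero_mul]
  refine h1.trans ?_
  rw [sum_const, nsmul_eq_mul, mul_comm]
  apply mul_le_mul_of_nonneg_left _ (by positivity)
  have h2 : Q.card ≤ (A.filter (fun p => p + W * h ∈ A)).card := by
    apply card_le_card_of_injOn (fun y => W * y.2 + y.1.1)
    · intro y hy
      rw [mem_coe, hQ, mem_filter] at hy
      rw [mem_coe, mem_filter]
      refine ⟨hy.2.1, ?_⟩
      have : W * y.2 + y.1.1 + W * h = W * (y.2 + h) + y.1.1 := by ring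
      rw [this]
      exact hy.2.2
    · rintro ⟨⟨b, k⟩, x⟩ hy ⟨⟨b', k'⟩, x'⟩ hy' he
      rw [mem_coe, hQ, mem_filter, mem_sigma, ix, mem_product, mem_Ioc] at hy hy'
      simp only at hy hy' he
      have hb : b < W := by
        have := hy.1.1.1
        unfold unW at this
        rw [mem_filter, mem_range] at this
        exact this.1
      have hb' : b' < W := by
        have := hy'.1.1.1
        unfold unW at this
        rw [mem_filter, mem_range] at this
        exact this.1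
      have e1 : b = b' := by
        have h3 : (W * x + b) % W = (W * x' + b') % W := by rw [he]
        rw [Nat.mul_add_mod, Nat.mul_add_mod, Nat.mod_eq_of_lt hb, Nat.mod_eq_of_lt hb'] at h3
        exact h3
      have e2 : x = x' := by
        have h3 : (W * x + b) / W = (W * x' + b') / W := by rw [he]
        rw [Nat.mul_add_div hW, Nat.mul_add_div hW, Nat.div_eq_of_lt hb, Nat.div_eq_of_lt hb'] at h3
        omega
      have e3 : k = k' := by
        obtain ⟨⟨-, g1, g2⟩, -⟩ := hy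
        obtain ⟨⟨-, g3, g4⟩, -⟩ := hy'
        rw [← e2] at g3 g4
        rcases lt_trichotomy k k' with hk | hk | hk
        · exfalso
          have : (k + 1) * L ≤ k' * L := Nat.mul_le_mul_right _ hk
          have e : (k + 1) * L = k * L + L := by ring
          omega
        · exact hk
        · exfalso
          have : (k' + 1) * L ≤ k * L := Nat.mul_le_mul_right _ hk
          have e : (k' + 1) * L = k' * L + L := by ring
          omega
      subst e1 e2 e3
      rfl
  exact_mod_cast h2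

/-- the first moment bounds the spectrum at zero -/
lemma PS_zero {ι : Type} (s : Finset ι) (hs : s.Nonempty) (X : ι → ℕ) (L G : ℕ) (f : ι → ℕ → ℝ) :
    ((∑ i ∈ s, ∑ x ∈ Ioc (X i) (X i + L), f i x) / s.card) ^ 2 ≤ PS s X L G f 0 := by
  have hn : (0 : ℝ) < s.card := by exact_mod_cast card_pos.2 hs
  have e : ∀ i, ‖ft (Ioc (X i) (X i + L)) (f i) (((0 : ℕ) : ℝ) / G)‖ ^ 2 = (∑ x ∈ Ioc (X i) (X i + L), f i x) ^ 2 := by
    intro i
    have e1 : ft (Ioc (X i) (X i + L)) (f i) (((0 : ℕ) : ℝ) / G) = ((∑ x ∈ Ioc (X i) (X i + L), f i x : ℝ) : ℂ) := by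
      unfold ft
      push_cast
      apply sum_congr rfl
      intro x _
      rw [zero_div, mul_zero, ee_zero, mul_one]
    rw [e1, Complex.norm_real, Real.norm_eq_abs, sq_abs]
  unfold PS
  rw [div_pow, le_div_iff₀ hn, sum_congr rfl fun i _ => e i]
  have h := sq_sum_le_card_mul_sum_sq (s := s) (f := fun i => ∑ x ∈ Ioc (X i) (X i + L), f i x)
  rw [div_mul_eq_mul_div, div_le_iff₀ (by positivity)]
  calc (∑ i ∈ s, ∑ x ∈ Ioc (X i) (X i + L), f i x) ^ 2 * s.card ≤ (s.card * ∑ i ∈ s, (∑ x ∈ Ioc (X i) (X i + L), f i x) ^ 2) * s.card := by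
        gcongr
    _ = _ := by ring

end Pool.Agent.H566
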