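import Mathlib
import Pool.Agent.H566.FNd
import Pool.Agent.H566.MGg

/-!
Folner's theorem in the primes.
-/

set_option autoImplicit false

namespace Pool.Agent.H566

open Finset
open Pool.Agent.H807R2.Dav
open Pool.Agent.H373R2.T7

lemma pi_bound : ∃ Y0 : ℕ, ∀ Y : ℕ, Y0 ≤ Y → ((Nat.primeCounting Y : ℕ) : ℝ) * Real.log Y ≤ 4 * Y := by
  obtain ⟨n1, h1⟩ := ev_log' 1 1
  refine ⟨max n1 3, fun Y hY => ?_⟩
  have k1 := h1 Y (le_trans (le_max_left _ _) hY)
  have hY3 : 3 ≤ Y := le_trans (le_max_right _ _) hY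
  have hYr : (1 : ℝ) < Y := by exact_mod_cast (by omega : 1 < Y)
  have hY0 : (0 : ℝ) < Y := by linarith
  have h := Chebyshev.pi_le_log4_mul_div (x := (Y : ℝ)) hYr
  rw [Nat.floor_natCast] at h
  have hlog : 0 < Real.log Y := Real.log_pos hYr
  rw [Real.log_sqrt hY0.le] at h
  rw [pow_one, one_mul] at k1
  have hlog4 : Real.log 4 < 1.4 := by
    have e : Real.log 4 = 2 * Real.log 2 := by
      rw [← Real.log_rpow (by norm_num)]
      norm_num
    have := Real.log_two_lt_d9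
    rw [e]
    linarith
  have h2 : √(Y : ℝ) * Real.log Y ≤ Y := by
    calc √(Y : ℝ) * Real.log Y ≤ √(Y : ℝ) * √(Y : ℝ) := mul_le_mul_of_nonneg_left k1 (Real.sqrt_nonneg _)
      _ = Y := Real.mul_self_sqrt hY0.le
  calc ((Nat.primeCounting Y : ℕ) : ℝ) * Real.log Y ≤ (Real.log 4 * Y / (Real.log Y / 2) + √(Y : ℝ)) * Real.log Y :=
        mul_le_mul_of_nonneg_right h hlog.le
    _ = 2 * Real.log 4 * Y + √(Y : ℝ) * Real.log Y := by field_simp
    _ ≤ 2 * 1.4 * Y + Y := by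
        have : 2 * Real.log 4 * (Y : ℝ) ≤ 2 * 1.4 * Y := by nlinarith
        linarith
    _ ≤ 4 * Y := by linarith

lemma card_primes (N : ℕ) (A : Finset ℕ) (hA : ∀ p ∈ A, p.Prime ∧ p ≤ N) : A.card ≤ Nat.primeCounting N := by
  rw [Nat.primeCounting, Nat.primeCounting', Nat.count_eq_card_filter_range]
  apply card_le_card
  intro p hp
  rw [mem_filter, mem_range]
  exact ⟨by have := (hA p hp).2; omega, (hA p hp).1⟩

lemma first_moment (e : ℝ) (he : 0 < e) : ∃ e5 : ℝ, 0 < e5 ∧ e5 ≤ 1 / 2 ∧ ∃ N0 : ℕ, ∀ N : ℕ, N0 ≤ N → ∀ A : Finset ℕ,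
    (∀ p ∈ A, p.Prime ∧ p ≤ N) → (A.card : ℝ) * Real.log N ≤ 4 * N ∧ ∀ Y : ℕ, (Y : ℝ) ≤ e5 * N →
      (A.card : ℝ) * Real.log N - e * N ≤ ∑ p ∈ A.filter (fun p => Y < p), Real.log p := by
  obtain ⟨e5, he0, he1, he2⟩ : ∃ e5 : ℝ, 0 < e5 ∧ e5 ≤ e / 16 ∧ e5 ≤ 1 / 2 :=
    ⟨min (e / 16) (1 / 2), lt_min (by positivity) (by norm_num), min_le_left _ _, min_le_right _ _⟩
  obtain ⟨Y0, hY0⟩ := pi_bound
  obtain ⟨n2, h2⟩ := ev_L' (8 * |Real.log e5| / e + 1)
  obtain ⟨n3, h3⟩ := exists_nat_gt ((Y0 + 2 : ℝ) / e5)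
  refine ⟨e5, he0, he2, max Y0 (max n2 (max n3 3)), fun N hN A hA => ?_⟩
  have hNY := le_trans (le_max_left _ _) hN
  have k2 := h2 N (le_trans (le_trans (le_max_left _ _) (le_max_right _ _)) hN)
  have hn3 : n3 ≤ N := le_trans (le_trans (le_trans (le_max_left _ _) (le_max_right _ _)) (le_max_right _ _)) hN
  have hN3 : 3 ≤ N := le_trans (le_trans (le_trans (le_max_right _ _) (le_max_right _ _)) (le_max_right _ _)) hN
  have hN0 : (0 : ℝ) < N := by exact_mod_cast (by omega : 0 < N)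
  have hbig : (Y0 + 2 : ℝ) ≤ e5 * N := by
    have h4 : (n3 : ℝ) ≤ N := by exact_mod_cast hn3
    rw [div_lt_iff₀ he0] at h3
    nlinarith
  have hlog0 : 0 < Real.log N := Real.log_pos (by exact_mod_cast (by omega : 1 < N))
  have hA1 : (A.card : ℝ) ≤ ((Nat.primeCounting N : ℕ) : ℝ) := by exact_mod_cast card_primes N A hA
  have hA2 : (A.card : ℝ) * Real.log N ≤ 4 * N := (mul_le_mul_of_nonneg_right hA1 hlog0.le).trans (hY0 N hNY)
  refine ⟨hA2, fun Y hY => ?_⟩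
  obtain ⟨Y', hY'⟩ : ∃ Y' : ℕ, Y' = ⌈e5 * N⌉₊ := ⟨_, rfl⟩
  have g1 : e5 * N ≤ Y' := by rw [hY']; exact Nat.le_ceil _
  have g2 : (Y' : ℝ) < e5 * N + 1 := by rw [hY']; exact Nat.ceil_lt_add_one (by positivity)
  have g3 : Y ≤ Y' := by exact_mod_cast hY.trans g1
  have g4 : Y0 ≤ Y' := by
    have : (Y0 : ℝ) ≤ Y' := by linarith
    exact_mod_cast this
  have g5 := hY0 Y' g4
  have hY'0 : (0 : ℝ) < Y' := by linarith [show (0 : ℝ) ≤ Y0 from Nat.cast_nonneg _]
  have hlogY : Real.log N + Real.log e5 ≤ Real.log Y' := by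
    rw [← Real.log_mul hN0.ne' he0.ne']
    apply Real.log_le_log (by positivity)
    linarith
  have hlogY0 : 0 ≤ Real.log Y' := Real.log_natCast_nonneg _
  have h4 : ((A.filter (fun p => Y' < p)).card : ℝ) * Real.log Y' ≤ ∑ p ∈ A.filter (fun p => Y < p), Real.log p := by
    calc ((A.filter (fun p => Y' < p)).card : ℝ) * Real.log Y' = ∑ p ∈ A.filter (fun p => Y' < p), Real.log Y' := by
          rw [sum_const, nsmul_eq_mul]
      _ ≤ ∑ p ∈ A.filter (fun p => Y' < p), Real.log p := by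
          apply sum_le_sum
          intro p hp
          apply Real.log_le_log hY'0
          exact_mod_cast (mem_filter.1 hp).2.le
      _ ≤ _ := by
          apply sum_le_sum_of_subset_of_nonneg
          · intro p hp
            rw [mem_filter] at hp ⊢
            exact ⟨hp.1, by omega⟩
          · intro _ _ _
            exact Real.log_natCast_nonneg _
  have h5 : (A.card : ℝ) ≤ ((A.filter (fun p => Y' < p)).card : ℝ) + ((Nat.primeCounting Y' : ℕ) : ℝ) := by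
    have h6 : (A.filter (fun p => ¬ Y' < p)).card ≤ Nat.primeCounting Y' := by
      apply card_primes
      intro p hp
      rw [mem_filter] at hp
      exact ⟨(hA p hp.1).1, by omega⟩
    have h7 := card_filter_add_card_filter_not (s := A) (fun p => Y' < p)
    have : A.card ≤ (A.filter (fun p => Y' < p)).card + Nat.primeCounting Y' := by omega
    exact_mod_cast this
  have h8 : (A.card : ℝ) * Real.log Y' ≤ ((A.filter (fun p => Y' < p)).card : ℝ) * Real.log Y' + 4 * Y' := by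
    have := mul_le_mul_of_nonneg_right h5 hlogY0
    rw [add_mul] at this
    linarith
  have h9 : (A.card : ℝ) * |Real.log e5| ≤ e / 2 * N := by
    have h10 : 8 * |Real.log e5| ≤ Real.log N * e := by
      have h11 : 8 * |Real.log e5| / e ≤ Real.log N := by linarith
      rwa [div_le_iff₀ he] at h11
    have h12 : (A.card : ℝ) * (8 * |Real.log e5|) ≤ 4 * N * e := by
      calc (A.card : ℝ) * (8 * |Real.log e5|) ≤ (A.card : ℝ) * (Real.log N * e) :=
            mul_le_mul_of_nonneg_left h10 (Nat.cast_nonneg _)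
        _ = ((A.card : ℝ) * Real.log N) * e := by ring
        _ ≤ 4 * N * e := mul_le_mul_of_nonneg_right hA2 he.le
    linarith
  have h10 : (A.card : ℝ) * (Real.log N + Real.log e5) ≤ (A.card : ℝ) * Real.log Y' :=
    mul_le_mul_of_nonneg_left hlogY (Nat.cast_nonneg _)
  have h11 : -((A.card : ℝ) * |Real.log e5|) ≤ (A.card : ℝ) * Real.log e5 := by
    rw [← mul_neg]
    exact mul_le_mul_of_nonneg_left (neg_abs_le _) (Nat.cast_nonneg _)
  have h12 : 4 * (Y' : ℝ) ≤ e / 2 * N := by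
    have h13 : e5 * N ≤ e / 16 * N := mul_le_mul_of_nonneg_right he1 hN0.le
    have h14 : (0 : ℝ) ≤ Y0 := Nat.cast_nonneg _
    linarith
  rw [mul_add] at h10
  linarith

/-- the numerical part: the lower bound with the factor `W / φ(W)` -/
lemma fn_calc (φ l N a e2 F n L G τ ε1 AC PS0 R : ℝ) (hφ : 0 < φ) (hl : 0 < l) (hN : 0 < N) (ha : 0 ≤ a) (hal : a * l ≤ 4 * N)
    (he2 : 0 ≤ e2) (hF0 : 0 ≤ F) (hF : φ * (a * l - e2 * N) ≤ F) (hn : 0 < n) (hL : 0 < L) (hG : 0 < G) (hτ : 0 < τ)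
    (hε1 : 0 < ε1) (hnL : n * L ≤ φ * N) (hGL : G ≤ L * (1 + 2 * τ)) (hAC : PS0 / G - ε1 * L ≤ AC) (hPS : (F / n) ^ 2 ≤ PS0)
    (hR : n * AC ≤ (φ * l) ^ 2 * R) :
    1 / φ * (a ^ 2 / N - (32 * τ + 8 * e2 + ε1) * N / l ^ 2) ≤ R := by
  have h1 : F ^ 2 / (n * G) ≤ n * (PS0 / G) := by
    have : F ^ 2 / (n * G) = n * ((F / n) ^ 2 / G) := by field_simp
    rw [this]
    gcongr
  have h2 : n * G ≤ φ * N * (1 + 2 * τ) := by
    calc n * G ≤ n * (L * (1 + 2 * τ)) := by gcongr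
      _ = (n * L) * (1 + 2 * τ) := by ring
      _ ≤ _ := by gcongr
  have h3 : F ^ 2 / (φ * N * (1 + 2 * τ)) ≤ F ^ 2 / (n * G) :=
    div_le_div_of_nonneg_left (by positivity) (by positivity) h2
  have h4 : φ ^ 2 * ((a * l) ^ 2 - 8 * e2 * N ^ 2) ≤ F ^ 2 := by
    have hal0 : 0 ≤ a * l := by positivity
    rcases le_total (e2 * N) (a * l) with hc | hc
    · have h5 : (φ * (a * l - e2 * N)) ^ 2 ≤ F ^ 2 :=
        pow_le_pow_left₀ (mul_nonneg hφ.le (by linarith)) hF 2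
      rw [mul_pow] at h5
      refine le_trans ?_ h5
      apply mul_le_mul_of_nonneg_left _ (by positivity)
      have h6 : (a * l) * (e2 * N) ≤ (4 * N) * (e2 * N) := mul_le_mul_of_nonneg_right hal (by positivity)
      nlinarith [sq_nonneg (e2 * N)]
    · have h5 : (a * l) ^ 2 ≤ 8 * e2 * N ^ 2 := by
        calc (a * l) ^ 2 = (a * l) * (a * l) := by ring
          _ ≤ (4 * N) * (e2 * N) := mul_le_mul hal hc hal0 (by positivity)
          _ ≤ 8 * e2 * N ^ 2 := by nlinarith [mul_nonneg he2 (sq_nonneg N)]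
      have h6 : φ ^ 2 * ((a * l) ^ 2 - 8 * e2 * N ^ 2) ≤ 0 :=
        mul_nonpos_of_nonneg_of_nonpos (by positivity) (by linarith)
      exact h6.trans (sq_nonneg F)
  obtain ⟨u, hu⟩ : ∃ u, u = (a * l) ^ 2 := ⟨_, rfl⟩
  have hu0 : 0 ≤ u := by rw [hu]; positivity
  have hu1 : u ≤ 16 * N ^ 2 := by
    rw [hu]
    have : (a * l) ^ 2 ≤ (4 * N) ^ 2 := pow_le_pow_left₀ (by positivity) hal 2
    linarith [this]
  rw [← hu] at h4
  have h5 : φ * (u / N - (32 * τ + 8 * e2) * N) ≤ F ^ 2 / (φ * N * (1 + 2 * τ)) := by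
    rw [le_div_iff₀ (by positivity)]
    refine le_trans ?_ h4
    have e1 : φ * (u / N - (32 * τ + 8 * e2) * N) * (φ * N * (1 + 2 * τ)) =
        φ ^ 2 * ((u - (32 * τ + 8 * e2) * N ^ 2) * (1 + 2 * τ)) := by
      field_simp
    rw [e1]
    apply mul_le_mul_of_nonneg_left _ (by positivity)
    have h6 : 2 * τ * u ≤ 2 * τ * (16 * N ^ 2) := by gcongr
    have h7 : 0 ≤ (32 * τ + 8 * e2) * N ^ 2 * (2 * τ) := by positivity
    nlinarith
  have h6 : φ * (u / N - (32 * τ + 8 * e2 + ε1) * N) ≤ (φ * l) ^ 2 * R := by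
    have h7 : n * (PS0 / G - ε1 * L) ≤ n * AC := mul_le_mul_of_nonneg_left hAC hn.le
    have h8 : ε1 * (n * L) ≤ ε1 * (φ * N) := mul_le_mul_of_nonneg_left hnL hε1.le
    have h9 : φ * (u / N - (32 * τ + 8 * e2 + ε1) * N) = φ * (u / N - (32 * τ + 8 * e2) * N) - ε1 * (φ * N) := by ring
    rw [h9]
    have h10 : n * (PS0 / G - ε1 * L) = n * (PS0 / G) - ε1 * (n * L) := by ring
    rw [h10] at h7
    linarith
  have h7 : 1 / φ * (a ^ 2 / N - (32 * τ + 8 * e2 + ε1) * N / l ^ 2) =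
      φ * (u / N - (32 * τ + 8 * e2 + ε1) * N) / (φ * l) ^ 2 := by
    rw [hu]
    field_simp
  rw [h7, div_le_iff₀ (by positivity)]
  linarith

/-- the numerical part: from `W / φ(W)` to `h / φ(h)` -/
lemma fn_calc2 (φ l N a ε e3 e4 q R : ℝ) (hε0 : 0 < ε) (hφ : 0 < φ) (hl : 0 < l) (hN : 0 < N) (ha : 0 ≤ a) (hal : a * l ≤ 4 * N)
    (he4 : 0 ≤ e4) (he4' : e4 ≤ 1 / 2) (hq0 : 0 ≤ q) (hq : q ≤ 1 / φ / (1 - e4)) (hR0 : 0 ≤ R)
    (hR : 1 / φ * (a ^ 2 / N - e3 * N / l ^ 2) ≤ R) (hε : 32 * e4 + e3 ≤ ε) :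
    q * (a ^ 2 / N - ε * N / l ^ 2) ≤ R := by
  rcases le_total (a ^ 2 / N - ε * N / l ^ 2) 0 with h | h
  · exact (mul_nonpos_of_nonneg_of_nonpos hq0 h).trans hR0
  · refine le_trans ?_ hR
    have h1 : 0 < 1 - e4 := by linarith
    have h2 : 1 / (1 - e4) ≤ 1 + 2 * e4 := by
      rw [div_le_iff₀ h1]
      nlinarith
    have h3 : q ≤ 1 / φ * (1 + 2 * e4) := by
      refine hq.trans ?_
      rw [div_eq_mul_one_div (1 / φ) (1 - e4)]
      exact mul_le_mul_of_nonneg_left h2 (by positivity)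
    have h4 : a ^ 2 / N ≤ 16 * N / l ^ 2 := by
      rw [div_le_div_iff₀ hN (by positivity)]
      have : (a * l) ^ 2 ≤ (4 * N) ^ 2 := pow_le_pow_left₀ (by positivity) hal 2
      nlinarith
    calc q * (a ^ 2 / N - ε * N / l ^ 2) ≤ 1 / φ * (1 + 2 * e4) * (a ^ 2 / N - ε * N / l ^ 2) :=
          mul_le_mul_of_nonneg_right h3 h
      _ = 1 / φ * ((a ^ 2 / N - ε * N / l ^ 2) + 2 * e4 * (a ^ 2 / N - ε * N / l ^ 2)) := by ring
      _ ≤ 1 / φ * (a ^ 2 / N - e3 * N / l ^ 2) := by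
          apply mul_le_mul_of_nonneg_left _ (by positivity)
          have hε1 : 0 ≤ N / l ^ 2 := by positivity
          have h5 : a ^ 2 / N - ε * N / l ^ 2 ≤ 16 * (N / l ^ 2) := by
            have : 0 ≤ ε * N / l ^ 2 := by positivity
            have e : 16 * N / l ^ 2 = 16 * (N / l ^ 2) := by ring
            linarith
          have e1 : ε * N / l ^ 2 = ε * (N / l ^ 2) := by ring
          have e2 : e3 * N / l ^ 2 = e3 * (N / l ^ 2) := by ring
          rw [e1] at h5 ⊢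
          rw [e2]
          nlinarith [mul_le_mul_of_nonneg_right hε hε1, mul_le_mul_of_nonneg_left h5 (by linarith : (0 : ℝ) ≤ 2 * e4)]

end Pool.Agent.H566
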