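import Mathlib
import Pool.Agent.H566.FNe

/-!
Folner's theorem in the primes.
-/

set_option autoImplicit false

namespace Pool.Agent.H566

open Finset
open Pool.Agent.H807R2.Dav
open Pool.Agent.H373R2.T7

open Classical in
/-- the Bohr set of radius one quarter -/
noncomputable def bohr4 (Θ : Finset ℝ) (H : ℕ) : Finset ℕ :=
  (Icc 1 H).filter (fun h : ℕ => ∀ θ ∈ Θ, ∃ k : ℤ, |(h : ℝ) * θ - k| ≤ 1 / 4)

/-- the parameters -/
lemma fn_param (W N H ℓ τ δ0 η e5 : ℝ) (C : ℕ) (s : ℝ) (hW : 1 ≤ W) (hN : 1 ≤ N) (hℓ : 1 ≤ ℓ) (hτ : 0 < τ) (hτ4 : τ ≤ 1 / 4)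
    (hδ0 : 0 < δ0) (he5 : e5 ≤ 1 / 2) (hη0 : 0 < η) (hs : 1 ≤ s)
    (hη : η ≤ τ * e5 / 2) (hHN : H ≤ η * N) (hH : N / ℓ ^ C ≤ H) (hHb : 4 * W * s ≤ H) (hℓ2 : 8 * W / δ0 + 4 * W ≤ ℓ)
    (T L : ℝ) (hT1 : T ≤ H / W) (hT2 : H / W - 1 ≤ T) (hL1 : L ≤ T / τ) (hL2 : T / τ - 1 ≤ L) (L2 : ℝ) (hL2ℓ : ℓ ≤ L2) :
    2 * s ≤ T ∧ H ≤ 2 * W * T ∧ τ * L ≤ T ∧ T ≤ 2 * τ * L ∧ 2 * T ≤ L ∧ W * (L + 1) ≤ e5 * N ∧
      2 * N / L2 ^ (C + 1) ≤ δ0 / 2 * L ∧ 2 * N / L2 ^ (C + 1) ≤ L := by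
  have hW0 : 0 < W := by linarith
  have hs0 : 0 < s := by linarith
  have a1 : 4 * s ≤ H / W := by
    rw [le_div_iff₀ hW0]
    linarith
  have hTs : 2 * s ≤ T := by linarith
  have hT0 : 0 < T := by linarith
  have a2 : H / W ≤ 2 * T := by linarith
  have a3 : H ≤ 2 * W * T := by
    rw [div_le_iff₀ hW0] at a2
    linarith
  have a4 : 4 * T ≤ T / τ := by
    rw [le_div_iff₀ hτ]
    nlinarith
  have a5 : T / τ ≤ 2 * L := by linarith
  have a6 : τ * L ≤ T := by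
    rw [le_div_iff₀ hτ] at hL1
    linarith
  have a7 : T ≤ 2 * τ * L := by
    rw [div_le_iff₀ hτ] at a5
    linarith
  have a8 : 2 * T ≤ L := by linarith
  have hL0 : 0 < L := by linarith
  have a9 : W * (L + 1) ≤ e5 * N := by
    have b1 : 1 ≤ L := by linarith
    have b2 : W * T ≤ H := by
      rw [le_div_iff₀ hW0] at hT1
      linarith
    have b3 : W * (L * τ) ≤ H := by
      have : W * (L * τ) ≤ W * T := by
        apply mul_le_mul_of_nonneg_left _ hW0.le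
        linarith
      linarith
    have b4 : η * N ≤ τ * e5 / 2 * N := mul_le_mul_of_nonneg_right hη (by linarith)
    have b5 : (W * L) * τ ≤ (e5 * N / 2) * τ := by nlinarith
    have b6 : W * L ≤ e5 * N / 2 := le_of_mul_le_mul_right b5 hτ
    have b7 : W * (L + 1) ≤ 2 * (W * L) := by nlinarith
    linarith
  have c1 : N / ℓ ^ C ≤ 2 * W * L := by
    calc N / ℓ ^ C ≤ H := hH
      _ ≤ 2 * W * T := a3
      _ ≤ 2 * W * L := by
        apply mul_le_mul_of_nonneg_left _ (by positivity)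
        linarith
  have hℓ0 : 0 < ℓ := by linarith
  have c2 : 2 * N / L2 ^ (C + 1) ≤ 4 * W * L / ℓ := by
    have d1 : ℓ ^ (C + 1) ≤ L2 ^ (C + 1) := pow_le_pow_left₀ hℓ0.le hL2ℓ _
    calc 2 * N / L2 ^ (C + 1) ≤ 2 * N / ℓ ^ (C + 1) := by
          apply div_le_div_of_nonneg_left (by linarith) (by positivity) d1
      _ = 2 * (N / ℓ ^ C) / ℓ := by
          rw [pow_succ]
          field_simp
      _ ≤ 2 * (2 * W * L) / ℓ := by gcongr
      _ = _ := by ring
  have c3 : 0 < 8 * W / δ0 := by positivity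
  refine ⟨hTs, a3, a6, a7, a8, a9, c2.trans ?_, c2.trans ?_⟩
  · rw [div_le_iff₀ hℓ0]
    have d1 : 8 * W / δ0 ≤ ℓ := by linarith
    have d2 : 8 * W ≤ ℓ * δ0 := by rwa [div_le_iff₀ hδ0] at d1
    nlinarith
  · rw [div_le_iff₀ hℓ0]
    have d1 : 4 * W ≤ ℓ := by linarith
    nlinarith

theorem folner_primes (K : ℕ) (ε : ℝ) (hε : 0 < ε) : ∃ d : ℕ, ∃ η : ℝ, 0 < η ∧ ∀ C : ℕ, ∃ N0 : ℕ, ∀ N : ℕ, N0 ≤ N →
    ∀ H : ℕ, (N : ℝ) / Real.log N ^ C ≤ H → (H : ℝ) ≤ η * N → ∀ A : Fin K → Finset ℕ, (∀ c, ∀ p ∈ A c, p.Prime ∧ p ≤ N) →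
      ∃ Θ : Finset ℝ, Θ.card ≤ d ∧ η * H ≤ ((bohr4 Θ H).card : ℝ) ∧
        (((bohr4 Θ H).filter (fun h : ℕ => ∃ c, (((A c).filter (fun p => p + h ∈ A c)).card : ℝ) <
          (h : ℝ) / h.totient * (((A c).card : ℝ) ^ 2 / N - ε * N / Real.log N ^ 2))).card : ℝ) ≤ ε * ((bohr4 Θ H).card : ℝ) := by
  classical
  -- the parameters
  obtain ⟨ε', hε'0, hε'1, hε'2⟩ : ∃ ε' : ℝ, 0 < ε' ∧ ε' ≤ ε ∧ ε' ≤ 1 :=
    ⟨min ε 1, lt_min hε (by norm_num), min_le_left _ _, min_le_right _ _⟩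
  obtain ⟨C0, hC0, hcube⟩ := cube_sum
  obtain ⟨τ, hτ⟩ : ∃ τ : ℝ, τ = ε' / 400 := ⟨_, rfl⟩
  obtain ⟨ε1, hε1⟩ : ∃ ε1 : ℝ, ε1 = ε' / 16 := ⟨_, rfl⟩
  obtain ⟨e2, he2⟩ : ∃ e2 : ℝ, e2 = ε' / 100 := ⟨_, rfl⟩
  have hτ0 : 0 < τ := by rw [hτ]; positivity
  have hε10 : 0 < ε1 := by rw [hε1]; positivity
  have he20 : 0 < e2 := by rw [he2]; positivity
  obtain ⟨d0, δ0, hδ0, habs⟩ := folner_abs K C0 ε1 τ hC0 hε10 hτ0
  obtain ⟨w, hw⟩ := exists_nat_gt (2 / δ0 + 4 * 5 ^ d0 / (ε' * e2) + 2)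
  have hwp1 : 0 < 2 / δ0 := by positivity
  have hwp2 : 0 < 4 * (5 : ℝ) ^ d0 / (ε' * e2) := by positivity
  have hw2 : 2 ≤ w := by
    have : (2 : ℝ) < w := by linarith
    exact_mod_cast this.le
  have hw1 : 1 ≤ w := by omega
  have hw0 : (0 : ℝ) < w := by exact_mod_cast hw1
  have hwδ : 1 / (w : ℝ) ≤ δ0 / 2 := by
    rw [div_le_div_iff₀ hw0 (by norm_num)]
    have h1 : 2 / δ0 ≤ w := by linarith
    rw [div_le_iff₀ hδ0] at h1
    linarith
  obtain ⟨W, hWd⟩ : ∃ W : ℕ, W = pmW w := ⟨_, rfl⟩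
  have hWpos : 0 < W := by rw [hWd]; exact pmW_pos w
  have hWr : (0 : ℝ) < W := by exact_mod_cast hWpos
  have hW1 : (1 : ℝ) ≤ W := by exact_mod_cast hWpos
  obtain ⟨φ, hφ⟩ : ∃ φ : ℝ, φ = ((pmW w).totient : ℝ) / (pmW w : ℕ) := ⟨_, rfl⟩
  have hφ0 : 0 < φ := by
    rw [hφ]
    have h1 : (0 : ℝ) < ((pmW w).totient : ℕ) := by exact_mod_cast Nat.totient_pos.2 (pmW_pos w)
    have h2 : (0 : ℝ) < ((pmW w : ℕ) : ℝ) := by exact_mod_cast pmW_pos w
    positivity
  obtain ⟨e5, he50, he51, N1, hfm⟩ := first_moment e2 he20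
  obtain ⟨s5, hs5⟩ : ∃ s5 : ℝ, s5 = (5 : ℝ) ^ d0 := ⟨_, rfl⟩
  have hs51 : 1 ≤ s5 := by rw [hs5]; exact one_le_pow₀ (by norm_num)
  have hs50 : 0 < s5 := by linarith
  refine ⟨d0 + (W + 1), min (τ * e5 / 2) (1 / (4 * W * s5)), lt_min (by positivity) (by positivity), fun C => ?_⟩
  obtain ⟨η, hη⟩ : ∃ η, η = min (τ * e5 / 2) (1 / (4 * W * s5)) := ⟨_, rfl⟩
  rw [← hη]
  have hη0 : 0 < η := by rw [hη]; exact lt_min (by positivity) (by positivity)
  have hη1 : η ≤ τ * e5 / 2 := by rw [hη]; exact min_le_left _ _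
  have hη2 : η ≤ 1 / (4 * W * s5) := by rw [hη]; exact min_le_right _ _
  obtain ⟨N2, hsup⟩ := nu_sup w (pmW w) (pmW_squarefree w) hw1 (pmW_all w) (C + 1)
  obtain ⟨N3, hcub⟩ := hcube w (pmW w) (pmW_squarefree w) hw1 (pmW_all w) (C + 1)
  obtain ⟨N4, h4⟩ := ev_log' C (4 * W * s5)
  obtain ⟨N5, h5⟩ := ev_L' (8 * W / δ0 + 4 * W)
  refine ⟨max N1 (max N2 (max N3 (max N4 (max N5 3)))), fun N hN H hNH hHN A hA => ?_⟩
  have q1 : N1 ≤ N := le_trans (le_max_left _ _) hN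
  have q2 : N2 ≤ N := le_trans (le_trans (le_max_left _ _) (le_max_right _ _)) hN
  have q3 : N3 ≤ N := le_trans (le_trans (le_trans (le_max_left _ _) (le_max_right _ _)) (le_max_right _ _)) hN
  have q4 : N4 ≤ N := le_trans (le_trans (le_trans (le_trans (le_max_left _ _) (le_max_right _ _)) (le_max_right _ _)) (le_max_right _ _)) hN
  have q5 : N5 ≤ N := le_trans (le_trans (le_trans (le_trans (le_trans (le_max_left _ _) (le_max_right _ _)) (le_max_right _ _)) (le_max_right _ _)) (le_max_right _ _)) hN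
  have q6 : 3 ≤ N := le_trans (le_trans (le_trans (le_trans (le_trans (le_max_right _ _) (le_max_right _ _)) (le_max_right _ _)) (le_max_right _ _)) (le_max_right _ _)) hN
  have k4 := h4 N q4
  have k5 := h5 N q5
  have k2 := hsup (2 * N) (by omega)
  have k3 := hcub (2 * N) (by omega)
  clear h4 h5 hsup hcub hcube
  have hN0 : (0 : ℝ) < N := by exact_mod_cast (by omega : 0 < N)
  have hN1 : (1 : ℝ) ≤ N := by exact_mod_cast (by omega : 1 ≤ N)
  obtain ⟨ℓ, hℓ⟩ : ∃ ℓ, ℓ = Real.log N := ⟨_, rfl⟩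
  obtain ⟨L2, hL2⟩ : ∃ L2, L2 = Real.log ((2 * N : ℕ) : ℝ) := ⟨_, rfl⟩
  have hfmN := hfm N q1
  rw [← hℓ] at k4 k5 hNH hfmN ⊢
  rw [← hL2] at k2 k3
  have hWδ : 0 < 8 * (W : ℝ) / δ0 := by positivity
  have hℓ1 : 1 ≤ ℓ := by linarith
  have hℓ0 : 0 < ℓ := by linarith
  have hL2ℓ : ℓ ≤ L2 := by
    rw [hℓ, hL2]
    apply Real.log_le_log hN0
    push_cast
    linarith
  have hHb : 4 * W * s5 ≤ H := by
    refine le_trans ?_ hNH
    rw [le_div_iff₀ (by positivity)]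
    refine k4.trans ?_
    rw [Real.sqrt_le_left hN0.le]
    nlinarith
  obtain ⟨T, hT⟩ : ∃ T : ℕ, T = H / W := ⟨_, rfl⟩
  obtain ⟨L, hL⟩ : ∃ L : ℕ, L = ⌊(T : ℝ) / τ⌋₊ := ⟨_, rfl⟩
  have hT1 : (T : ℝ) ≤ H / W := by rw [hT]; exact Nat.cast_div_le
  have hT2 : (H : ℝ) / W - 1 ≤ T := by
    have : (H : ℝ) / W < T + 1 := by
      rw [div_lt_iff₀ hWr]
      have h1 : H < W * (H / W + 1) := Nat.lt_mul_div_succ H hWpos
      rw [← hT] at h1
      have h2 : (H : ℝ) < W * (T + 1) := by exact_mod_cast h1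
      linarith
    linarith
  have hLa : (L : ℝ) ≤ T / τ := by rw [hL]; exact Nat.floor_le (by positivity)
  have hLb : (T : ℝ) / τ - 1 ≤ L := by
    have := Nat.lt_floor_add_one ((T : ℝ) / τ)
    rw [← hL] at this
    linarith
  obtain ⟨p1, p2, p3, p4, p5, p6, p7, p8⟩ := fn_param W N H ℓ τ δ0 η e5 C s5 hW1 hN1 hℓ1 hτ0 (by rw [hτ]; linarith) hδ0 he51 hη0 hs51
    hη1 hHN hNH hHb k5 T L hT1 hT2 hLa hLb L2 hL2ℓ
  have hT0 : (0 : ℝ) < T := by linarith
  have hTn : 1 ≤ T := by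
    have : (0 : ℝ) < T := hT0
    exact_mod_cast this
  have hTL : 2 * T ≤ L := by exact_mod_cast p5
  have hL1 : 1 ≤ L := by omega
  have hL0 : (0 : ℝ) < L := by exact_mod_cast hL1
  have hWL : W * (L + 1) ≤ N := by
    have h1 : (W : ℝ) * (L + 1) ≤ N := p6.trans (by nlinarith)
    exact_mod_cast h1
  obtain ⟨m, hm⟩ : ∃ m : ℕ, m = N / (W * L) := ⟨_, rfl⟩
  have hWL0 : 0 < W * L := Nat.mul_pos hWpos (by omega)
  have hm1 : W * L * m ≤ N := by rw [hm]; exact Nat.mul_div_le N (W * L)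
  have hm2 : N < W * L * (m + 1) := by rw [hm]; exact Nat.lt_mul_div_succ N hWL0
  have hm0 : 1 ≤ m := by
    by_contra hcon
    have h1 : m = 0 := by omega
    rw [h1] at hm2
    have h2 : W * (L + 1) = W * L + W := by ring
    omega
  have hsne : (ix w m).Nonempty := by
    rw [← card_pos, ix_card]
    exact Nat.mul_pos (Nat.totient_pos.2 (pmW_pos w)) (by omega)
  have hrange : ∀ i ∈ ix w m, L ≤ i.2 * L ∧ pmW w * (i.2 * L + L) + i.1 ≤ 2 * N ∧ i.1.Coprime (pmW w) := by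
    rintro ⟨b, k⟩ hi
    unfold ix unW at hi
    rw [mem_product, mem_filter, mem_range, mem_Icc] at hi
    simp only at hi ⊢
    obtain ⟨⟨hb, hbc⟩, hk1, hk2⟩ := hi
    rw [← hWd] at hb hbc ⊢
    refine ⟨Nat.le_mul_of_pos_left L (by omega), ?_, hbc⟩
    have h1 : W * (k * L + L) ≤ W * L * m + W * L := by
      have : W * L * k ≤ W * L * m := Nat.mul_le_mul_left _ hk2
      calc W * (k * L + L) = W * L * k + W * L := by ring
        _ ≤ _ := by omega
    have h2 : W * (L + 1) = W * L + W := by ring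
    omega
  -- the abstract theorem
  have hGL3 : L + T ≤ 3 * L := by omega
  obtain ⟨S, hSsub, hScard, hSbad⟩ := habs (ix w m) hsne (fun i => i.2 * L) L T hL1 hTL hTn p3 (nuA (pmW w) L)
    (fun c => fA (pmW w) L (A c)) (fun c i x => fA_nonneg _ _ _ _ _) (fun c i x => fA_le _ _ _ _ _)
    (fun i _ x hx => nuA_zero _ _ _ _ hx)
    (by
      intro i hi α
      obtain ⟨r1, r2, r3⟩ := hrange i hi
      have h1 := k2 i.1 r3 (i.2 * L) L r2 α
      have e : ft (Ioc (i.2 * L) (i.2 * L + L)) (nuA (pmW w) L i) α - ft (Ioc (i.2 * L) (i.2 * L + L)) (fun _ => 1) α =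
          ∑ x ∈ Ioc (i.2 * L) (i.2 * L + L), ((nuW (pmW w) i.1 x - 1 : ℝ) : ℂ) * ee (x * α) := by
        unfold ft
        rw [← sum_sub_distrib]
        apply sum_congr rfl
        intro x hx
        unfold nuA
        rw [if_pos hx]
        push_cast
        ring
      rw [e]
      refine h1.trans ?_
      have h2 : ((2 * N : ℕ) : ℝ) / L2 ^ (C + 1) ≤ δ0 / 2 * L := by
        push_cast
        exact p7
      have h3 : (L : ℝ) / w ≤ δ0 / 2 * L := by
        calc (L : ℝ) / w = 1 / w * L := by ring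
          _ ≤ _ := mul_le_mul_of_nonneg_right hwδ hL0.le
      linarith)
    (by
      intro c i hi
      obtain ⟨r1, r2, r3⟩ := hrange i hi
      exact k3 i.1 r3 (i.2 * L) L r1 (by push_cast; exact p8) r2 (fun x => ((fA (pmW w) L (A c) i x : ℝ) : ℂ)) (by
        intro x
        rw [Complex.norm_real, Real.norm_of_nonneg (fA_nonneg _ _ _ _ _)]
        refine (fA_le _ _ _ _ _).trans ?_
        unfold nuA
        split_ifs
        · exact le_rfl
        · exact nuW_nonneg _ _ _) (L + T) (by omega) hGL3)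
  clear habs k2 k3
  obtain ⟨G, hG⟩ : ∃ G : ℕ, G = L + T := ⟨_, rfl⟩
  rw [← hG] at hSsub hSbad
  have hG0 : (0 : ℝ) < G := by
    have : 0 < G := by omega
    exact_mod_cast this
  have hGr : (G : ℝ) ≤ L * (1 + 2 * τ) := by
    rw [hG]
    push_cast
    linarith
  obtain ⟨badA, hbadA⟩ : ∃ badA : Finset ℕ, badA = (Icc 1 T).filter (fun h : ℕ => (∀ r ∈ S, 0 ≤ (ee (h * ((r : ℝ) / G))).re) ∧
    ∃ c, AC (ix w m) (fun i => i.2 * L) L (fA (pmW w) L (A c)) h <
      PS (ix w m) (fun i => i.2 * L) L G (fA (pmW w) L (A c)) 0 / G - ε1 * L) := ⟨_, rfl⟩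
  rw [← hbadA] at hSbad
  obtain ⟨badR, hbadR⟩ : ∃ badR : Finset ℕ, badR = (Icc 1 T).filter (fun h : ℕ =>
    e2 < ∑ p ∈ h.primeFactors.filter (fun p => w < p), (1 : ℝ) / p) := ⟨_, rfl⟩
  obtain ⟨B0, hB0⟩ : ∃ B0 : Finset ℕ, B0 = (Icc 1 T).filter (fun h : ℕ => ∀ r ∈ S, 0 ≤ (ee (h * ((r : ℝ) / G))).re) := ⟨_, rfl⟩
  -- the size of the Bohr set
  have h5S : (5 : ℝ) ^ S.card ≤ s5 := by
    rw [hs5]
    exact pow_le_pow_right₀ (by norm_num) hScard
  have h5S0 : (0 : ℝ) < 5 ^ S.card := by positivity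
  have hB0size : (T : ℝ) ≤ 2 * 5 ^ S.card * (B0.card : ℝ) := by
    rw [hB0]
    apply bohr_size S G T
    have : (2 : ℝ) * 5 ^ S.card ≤ T := by linarith
    exact_mod_cast this
  -- the frequencies
  obtain ⟨Θ, hΘ⟩ : ∃ Θ : Finset ℝ, Θ = S.image (fun r : ℕ => (r : ℝ) / G / W) ∪ (range (W + 1)).image (fun j : ℕ => (2 : ℝ) ^ j / W) := ⟨_, rfl⟩
  have hbohr : bohr4 Θ H = B0.image (fun h => W * h) := by
    ext h'
    unfold bohr4
    rw [mem_filter, mem_image, mem_Icc]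
    constructor
    · rintro ⟨⟨g1, g2⟩, g3⟩
      have hdvd : W ∣ h' := by
        apply dvd_of_dist W h' W hWpos (Nat.lt_two_pow_self.le)
        intro j hj
        apply g3
        rw [hΘ, mem_union]
        right
        rw [mem_image]
        exact ⟨j, mem_range.2 (by omega), rfl⟩
      obtain ⟨h, rfl⟩ := hdvd
      have hh1 : 1 ≤ h := by
        rcases Nat.eq_zero_or_pos h with h0 | h0
        · rw [h0] at g1
          omega
        · exact h0
      refine ⟨h, ?_, rfl⟩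
      rw [hB0, mem_filter, mem_Icc]
      refine ⟨⟨hh1, ?_⟩, fun r hr => ?_⟩
      · rw [hT, Nat.le_div_iff_mul_le hWpos]
        linarith
      · rw [re_nonneg_iff]
        obtain ⟨k, hk⟩ := g3 ((r : ℝ) / G / W) (by
          rw [hΘ, mem_union]
          left
          exact mem_image_of_mem _ hr)
        refine ⟨k, ?_⟩
        have e : ((W * h : ℕ) : ℝ) * ((r : ℝ) / G / W) = h * ((r : ℝ) / G) := by
          push_cast
          field_simp
        rwa [e] at hk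
    · rintro ⟨h, hh, rfl⟩
      rw [hB0, mem_filter, mem_Icc] at hh
      obtain ⟨⟨g1, g2⟩, g3⟩ := hh
      refine ⟨⟨Nat.mul_pos hWpos g1, ?_⟩, fun θ hθ => ?_⟩
      · rw [hT, Nat.le_div_iff_mul_le hWpos] at g2
        linarith
      · rw [hΘ, mem_union, mem_image, mem_image] at hθ
        rcases hθ with ⟨r, hr, rfl⟩ | ⟨j, hj, rfl⟩
        · have e : ((W * h : ℕ) : ℝ) * ((r : ℝ) / G / W) = h * ((r : ℝ) / G) := by
            push_cast
            field_simp
          rw [e]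
          exact (re_nonneg_iff _).1 (g3 r hr)
        · refine ⟨(h : ℤ) * 2 ^ j, ?_⟩
          have e : ((W * h : ℕ) : ℝ) * ((2 : ℝ) ^ j / W) - (((h : ℤ) * 2 ^ j : ℤ) : ℝ) = 0 := by
            push_cast
            field_simp
            ring
          rw [e, abs_zero]
          norm_num
  have hinj : Function.Injective (fun h : ℕ => W * h) := fun a b hab => Nat.eq_of_mul_eq_mul_left hWpos hab
  have hbcard : (bohr4 Θ H).card = B0.card := by rw [hbohr, card_image_of_injective _ hinj]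
  refine ⟨Θ, ?_, ?_, ?_⟩
  · rw [hΘ]
    refine (card_union_le _ _).trans ?_
    have i1 : (S.image (fun r : ℕ => (r : ℝ) / G / W)).card ≤ S.card := card_image_le
    have i2 : ((range (W + 1)).image (fun j : ℕ => (2 : ℝ) ^ j / W)).card ≤ (range (W + 1)).card := card_image_le
    rw [card_range] at i2
    omega
  · rw [hbcard]
    have h1 : η * (4 * W * s5) ≤ 1 := by
      rw [le_div_iff₀ (by positivity)] at hη2
      exact hη2
    have h2 : (T : ℝ) ≤ 2 * s5 * B0.card := by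
      refine hB0size.trans ?_
      gcongr
    have h3 : (H : ℝ) ≤ (4 * W * s5) * B0.card := by
      calc (H : ℝ) ≤ 2 * W * T := p2
        _ ≤ 2 * W * (2 * s5 * B0.card) := by gcongr
        _ = _ := by ring
    calc η * H ≤ η * ((4 * W * s5) * B0.card) := mul_le_mul_of_nonneg_left h3 hη0.le
      _ = (η * (4 * W * s5)) * B0.card := by ring
      _ ≤ 1 * B0.card := mul_le_mul_of_nonneg_right h1 (Nat.cast_nonneg _)
      _ = B0.card := one_mul _
  · -- the exceptional set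
    have hsub : (bohr4 Θ H).filter (fun h : ℕ => ∃ c, (((A c).filter (fun p => p + h ∈ A c)).card : ℝ) <
          (h : ℝ) / h.totient * (((A c).card : ℝ) ^ 2 / N - ε * N / ℓ ^ 2)) ⊆ (badA ∪ badR).image (fun h => W * h) := by
      intro h' hh'
      rw [mem_filter, hbohr, mem_image] at hh'
      obtain ⟨⟨h, hh, rfl⟩, c, hc⟩ := hh'
      rw [mem_image]
      refine ⟨h, ?_, rfl⟩
      rw [hB0, mem_filter] at hh
      obtain ⟨hhT, hhre⟩ := hh
      by_contra hcon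
      rw [mem_union, not_or] at hcon
      obtain ⟨hc1, hc2⟩ := hcon
      have hac : PS (ix w m) (fun i => i.2 * L) L G (fA (pmW w) L (A c)) 0 / G - ε1 * L ≤
          AC (ix w m) (fun i => i.2 * L) L (fA (pmW w) L (A c)) h := by
        by_contra hlt
        push Not at hlt
        apply hc1
        rw [hbadA, mem_filter]
        exact ⟨hhT, hhre, c, hlt⟩
      have hro : ∑ p ∈ h.primeFactors.filter (fun p => w < p), (1 : ℝ) / p ≤ e2 := by
        by_contra hlt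
        push Not at hlt
        apply hc2
        rw [hbadR, mem_filter]
        exact ⟨hhT, hlt⟩
      rw [mem_Icc] at hhT
      obtain ⟨hfm1, hfm2⟩ := hfmN (A c) (hA c)
      have hY : ((W * (L + 1) : ℕ) : ℝ) ≤ e5 * N := by
        push_cast
        exact p6
      have hF1 := hfm2 (W * (L + 1)) hY
      have hF2 := mass w L m N hL1 (by rw [← hWd]; exact hm2) (A c) (hA c) (W * (L + 1)) (by rw [← hWd])
      obtain ⟨F, hF⟩ : ∃ F, F = ∑ i ∈ ix w m, ∑ x ∈ Ioc (i.2 * L) (i.2 * L + L), fA (pmW w) L (A c) i x := ⟨_, rfl⟩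
      rw [← hF, ← hφ] at hF2
      have hF0 : 0 ≤ F := by
        rw [hF]
        exact sum_nonneg fun i _ => sum_nonneg fun x _ => fA_nonneg _ _ _ _ _
      have hF3 : φ * ((A c).card * ℓ - e2 * N) ≤ F := (mul_le_mul_of_nonneg_left hF1 hφ0.le).trans hF2
      have hn0 : (0 : ℝ) < (ix w m).card := by exact_mod_cast card_pos.2 hsne
      have hnL : ((ix w m).card : ℝ) * L ≤ φ * N := by
        rw [ix_card, hφ]
        have e : (((pmW w).totient * m : ℕ) : ℝ) * L = ((pmW w).totient : ℝ) / (pmW w : ℕ) * ((pmW w : ℕ) * L * m) := by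
          have : ((pmW w : ℕ) : ℝ) ≠ 0 := by exact_mod_cast (pmW_pos w).ne'
          push_cast
          field_simp
        rw [e]
        apply mul_le_mul_of_nonneg_left _ (by positivity)
        rw [← hWd]
        exact_mod_cast hm1
      have hPS0 := PS_zero (ix w m) hsne (fun i => i.2 * L) L G (fA (pmW w) L (A c))
      rw [← hF] at hPS0
      have hpairs := pairs_le w L m N h (A c) (hA c)
      rw [← hφ, ← hℓ] at hpairs
      have hR : ((ix w m).card : ℝ) * AC (ix w m) (fun i => i.2 * L) L (fA (pmW w) L (A c)) h ≤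
          (φ * ℓ) ^ 2 * (((A c).filter (fun p => p + W * h ∈ A c)).card : ℝ) := by
        have e : ((ix w m).card : ℝ) * AC (ix w m) (fun i => i.2 * L) L (fA (pmW w) L (A c)) h =
            ∑ i ∈ ix w m, ∑ x ∈ Ioc (i.2 * L) (i.2 * L + L), fA (pmW w) L (A c) i x * fA (pmW w) L (A c) i (x + h) := by
          unfold AC
          rw [mul_div_cancel₀ _ hn0.ne']
        rw [e, hWd]
        exact hpairs
      have hcalc := fn_calc φ ℓ N (A c).card e2 F (ix w m).card L G τ ε1 _ _ _ hφ0 hℓ0 hN0 (Nat.cast_nonneg _) hfm1 he20.le hF0 hF3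
        hn0 hL0 hG0 hτ0 hε10 hnL hGr hac hPS0 hR
      have htr := totient_ratio w h (by omega) e2 he20.le (by rw [he2]; linarith) hro
      have hq : ((W * h : ℕ) : ℝ) / (W * h).totient ≤ 1 / φ / (1 - e2) := by
        rw [hWd]
        refine htr.trans (le_of_eq ?_)
        rw [hφ, one_div_div]
      have hfin := fn_calc2 φ ℓ N (A c).card ε (32 * τ + 8 * e2 + ε1) e2 (((W * h : ℕ) : ℝ) / (W * h).totient) _ hε hφ0 hℓ0 hN0
        (Nat.cast_nonneg _) hfm1 he20.le (by rw [he2]; linarith) (by positivity) hq (Nat.cast_nonneg _) hcalc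
        (by rw [hτ, he2, hε1]; linarith)
      linarith
    have hcard1 : (((bohr4 Θ H).filter (fun h : ℕ => ∃ c, (((A c).filter (fun p => p + h ∈ A c)).card : ℝ) <
          (h : ℝ) / h.totient * (((A c).card : ℝ) ^ 2 / N - ε * N / ℓ ^ 2))).card : ℝ) ≤ (badA.card : ℝ) + badR.card := by
      have := (card_le_card hsub).trans (card_image_le.trans (card_union_le _ _))
      exact_mod_cast this
    have hcard2 : (badR.card : ℝ) * e2 ≤ T / w := by
      refine le_trans ?_ (rough_sum w T hw1)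
      rw [← nsmul_eq_mul, ← sum_const]
      calc ∑ h ∈ badR, e2 ≤ ∑ h ∈ badR, ∑ p ∈ h.primeFactors.filter (fun p => w < p), (1 : ℝ) / p := by
            apply sum_le_sum
            intro h hh
            rw [hbadR, mem_filter] at hh
            exact hh.2.le
        _ ≤ _ := by
            apply sum_le_sum_of_subset_of_nonneg
            · rw [hbadR]; exact filter_subset _ _
            · intro _ _ _
              exact sum_nonneg fun _ _ => by positivity
    rw [hbcard]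
    have hTB : (T : ℝ) / 5 ^ S.card ≤ 2 * B0.card := by
      rw [div_le_iff₀ h5S0]
      linarith
    have hc1 : (badA.card : ℝ) ≤ ε' / 4 * (T / 5 ^ S.card) := by
      rw [← mul_div_assoc, le_div_iff₀ h5S0]
      refine hSbad.trans ?_
      rw [hε1]
      nlinarith
    have hc2 : (badR.card : ℝ) ≤ ε' / 4 * (T / 5 ^ S.card) := by
      have h1 : (badR.card : ℝ) ≤ T / (w * e2) := by
        rw [le_div_iff₀ (by positivity)]
        rw [le_div_iff₀ hw0] at hcard2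
        linarith
      refine h1.trans ?_
      have h2 : (4 : ℝ) * 5 ^ d0 ≤ w * (ε' * e2) := by
        have h3 : 4 * (5 : ℝ) ^ d0 / (ε' * e2) ≤ w := by linarith
        rwa [div_le_iff₀ (by positivity)] at h3
      rw [div_le_iff₀ (by positivity)]
      have h4 : ε' / 4 * (T / 5 ^ S.card) * (w * e2) = T * ((w * (ε' * e2)) / (4 * 5 ^ S.card)) := by
        field_simp
      rw [h4]
      have h5 : 1 ≤ (w * (ε' * e2)) / (4 * 5 ^ S.card) := by
        rw [le_div_iff₀ (by positivity), one_mul]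
        calc (4 : ℝ) * 5 ^ S.card ≤ 4 * s5 := by linarith
          _ = 4 * 5 ^ d0 := by rw [hs5]
          _ ≤ _ := h2
      nlinarith
    have hB00 : (0 : ℝ) ≤ B0.card := Nat.cast_nonneg _
    calc _ ≤ (badA.card : ℝ) + badR.card := hcard1
      _ ≤ ε' / 4 * (T / 5 ^ S.card) + ε' / 4 * (T / 5 ^ S.card) := add_le_add hc1 hc2
      _ = ε' / 2 * (T / 5 ^ S.card) := by ring
      _ ≤ ε' / 2 * (2 * B0.card) := mul_le_mul_of_nonneg_left hTB (by linarith)
      _ = ε' * B0.card := by ring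
      _ ≤ ε * B0.card := mul_le_mul_of_nonneg_right hε'1 hB00

end Pool.Agent.H566
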