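import Mathlib

/-!
# Project KM (helper566): statements

A theorem of Kelley-Meka type for `x + y = 2 m` in `ZMod N`, `N` odd.
Each `S_X : Prop` is one lemma; the docstring has the full proof.
-/

set_option autoImplicit false

namespace Pool.Agent.H566.KM

open Finset
open scoped Pointwise

/-- the standard character of `ZMod N` -/
noncomputable abbrev ψ {N : ℕ} [NeZero N] (c : ZMod N) : ℂ := ZMod.stdAddChar c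

/-- autocorrelation of a function -/
noncomputable def cor {G : Type} [AddCommGroup G] [Fintype G] (g : G → ℝ) (x : G) : ℝ :=
  ∑ t, g t * g (t + x)

/-- convolution square of a function -/
noncomputable def cvl {G : Type} [AddCommGroup G] [Fintype G] (g : G → ℝ) (x : G) : ℝ :=
  ∑ t, g t * g (x - t)

/-- number of `t ∈ A` with `t + x ∈ A` -/
def ct {G : Type} [AddCommGroup G] [DecidableEq G] (A : Finset G) (x : G) : ℕ :=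
  (A.filter fun t => t + x ∈ A).card

/-- distribution of `d + e` for independent uniform `d ∈ D`, `e ∈ E` -/
noncomputable def EE {G : Type} [AddCommGroup G] [DecidableEq G] (D E : Finset G) (x : G) : ℝ :=
  (((D ×ˢ E).filter fun p => p.1 + p.2 = x).card : ℝ) / (D.card * E.card)

/-- **POS1**. Proof: substituting `b = a + x` and expanding the power,
`∑_x cor E x (cor g x)^j = ∑_{a,b} E a E b (∑_t g (t + a) g (t + b))^j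
 = ∑_{s : Fin j → G} (∑_a E a ∏_i g (s i + a))^2 ≥ 0`
(`cor g (b - a) = ∑_t g (t + a) g (t + b)` by shifting `t`; expand the power by
`Finset.sum_pow'`/`Finset.prod_univ_sum` over `Fin j → G`). -/
def S_POS1 : Prop :=
  ∀ (G : Type) [AddCommGroup G] [Fintype G] (E g : G → ℝ) (j : ℕ),
    0 ≤ ∑ x, cor E x * cor g x ^ j

/-- **POS2**. Proof: `x = b - a + z` gives
`∑_x cor E (x - z) (cvl g x)^p = ∑_{a,b} E a E b (∑_s g (s + b) g (z - a - s))^p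
 = ∑_{s : Fin p → G} (∑_b E b ∏_i g (s i + b)) (∑_a E a ∏_i g (z - a - s i))`.
By `u v ≤ (u² + v²)/2` this is at most `(P + R)/2` with `P = ∑_s (∑_b E b ∏ g (s i + b))²`,
`R = ∑_s (∑_a E a ∏ g (z - a - s i))²`, and expanding the squares as in POS1 both `P` and `R`
are equal to `∑_x cor E x (cor g x)^p` (for `R` substitute `t = z - a - s`, and use
`cor g (-x) = cor g x`). -/
def S_POS2 : Prop :=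
  ∀ (G : Type) [AddCommGroup G] [Fintype G] (E g : G → ℝ) (p : ℕ) (z : G),
    ∑ x, cor E (x - z) * cvl g x ^ p ≤ ∑ x, cor E x * cor g x ^ p

/-- **UNB** (unbalancing). Proof: put `P = p + 1` (odd), `f⁺ = max f 0`. Since `∑ ν f^P ≥ 0` and
`|f|^P = 2 (f⁺)^P - f^P`, `2 ∑ ν (f⁺)^P ≥ ∑ ν |f|^P`. Young's inequality
`p u^(p+1) + l^(p+1) ≥ (p+1) u^p l` (`u ≥ 0`, `l = 1/4`; e.g. `Real.inner_le_nnorm_mul_nnorm`-free: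
weighted AM-GM `Real.geom_mean_le_arith_mean2_weighted`, or induction) gives
`∑ ν |f|^P ≥ (1/4)^P`, because `∑ ν |f|^p ≥ (1/4)^p` (`p` even). So `∑ ν (f⁺)^P ≥ (1/4)^P / 2`.
The `x` with `f x < 1/5` contribute at most `(1/5)^P ≤ (1/4)^P / 4` (`P ≥ 7`), hence
`∑_{f ≥ 1/5} ν f^P ≥ (1/4)^P / 4`. For `f ≥ 1/5`, Bernoulli's inequality gives
`(8 (1 + f)/9)^30 ≥ 1 + 30 (8 f - 1)/9 ≥ 4.88 f ≥ 4^(1/P) * 4 f`, more precisely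
`((8 (1 + f)/9)^30)^P ≥ (4.88 f)^P ≥ 4 (4 f)^P` as `1.22^7 ≥ 4`; so
`(1 + f)^(30 P) ≥ (9/8)^(30 P) * 4 * (4 f)^P` and
`∑ ν φ^(30 P) ≥ ∑_{f ≥ 1/5} ν (17/18)^(30 P) (1 + f)^(30 P)
 ≥ (17/18 * 9/8)^(30 P) * 4 * 4^P * ∑_{f ≥ 1/5} ν f^P ≥ (17/16)^(30 P)`. -/
def S_UNB : Prop :=
  ∀ (X : Type) [Fintype X] (ν f φ : X → ℝ) (p : ℕ), Even p → 6 ≤ p →
    (∀ x, 0 ≤ ν x) → ∑ x, ν x = 1 → 0 ≤ ∑ x, ν x * f x ^ (p + 1) →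
    (1 / 4 : ℝ) ^ p ≤ ∑ x, ν x * f x ^ p → (∀ x, 0 ≤ φ x) →
    (∀ x, 0 < ν x → 1 / 5 ≤ f x → 17 / 18 * (1 + f x) ≤ φ x) →
    (17 / 16 : ℝ) ^ (30 * (p + 1)) ≤ ∑ x, ν x * φ x ^ (30 * (p + 1))

/-- **MOM** (few solutions of `x + y = 2 m` make a high moment of the correlation of `A₁` large).
May assume POS1, POS2, UNB. Proof: `ν = cor (EE D E)` is nonnegative with sum 1. Put
`g = 1_{A₁} - α₁ 1_{B₁}`, `M = α₁ |A₁| = α₁² |B₁| > 0`, `h = cvl g / M`, `f = cor g / M`,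
`φ = ct A₁ / M`.
(i) For `m ∈ B₂`, expanding `g` and using `B₁ = -B₁` and
`#{t ∈ A₁ : t - 2m ∈ B₁} ≥ |A₁| - (|B₁| - ct B₁ (2m)) ≥ |A₁| - η |B₁|`:
`cvl g (2m) ≤ cvl 1_{A₁} (2m) - 2 α₁ (|A₁| - η |B₁|) + α₁² |B₁|`, so
`h (2m) ≤ cvl 1_{A₁} (2m) / M - 1 + 2 η/α₁ ≤ cvl 1_{A₁} (2m)/M - 17/18`.
Sum over `m ∈ A₂`; `∑_{m ∈ A₂} cvl 1_{A₁} (2m)` is the number of solutions, so
`∑_{m ∈ A₂} h (2m) ≤ (1/2 - 17/18) |A₂| = -(4/9) |A₂|`; so by the power mean inequality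
(`inner_le_nnorm_mul_nnorm` / `inner` ... `Real.pow_arith_mean_le_arith_mean_pow`, or
`inv`-free: Young as in UNB) `∑_{m ∈ A₂} |h (2m)|^p ≥ (4/9)^p |A₂|`.
(ii) `∑_{z ∈ V} ν (2m - z) = 1` for each `m ∈ B₂`, since `ν (2m - z) > 0` implies
`z = 2m - (2m - z) ∈ V`. As `m ↦ 2m` is injective on `B₂`,
`∑_{z ∈ V} ∑_x ν (x - z) h x ^ p ≥ ∑_{m ∈ A₂} h (2m)^p ≥ (4/9)^p |A₂|`, so there is `z ∈ V` with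
`∑_x ν (x - z) h x ^ p ≥ (4/9)^p α₂ / 2 ≥ (4/9)^p (2/3)^p ≥ (1/4)^p`. By POS2,
`∑_x ν x * f x ^ p ≥ (1/4)^p`; by POS1 `∑_x ν x * f x ^ (p+1) ≥ 0`.
(iii) For `ν x > 0`: `cor 1_{A₁} x = cor g x + α₁ (∑_t 1_{A₁} t 1_{B₁} (t + x) +
∑_t 1_{B₁} t 1_{A₁} (t + x)) - α₁² cor 1_{B₁} x ≥ cor g x + 2 α₁ (|A₁| - η |B₁|) - α₁² |B₁|`, so
`φ x ≥ f x + 1 - 2 η / α₁ ≥ 1 + f x - 1/18 ≥ 17/18 (1 + f x)` if `f x ≥ 0`. Apply UNB. -/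
def S_MOM : Prop :=
  ∀ (G : Type) [AddCommGroup G] [Fintype G] [DecidableEq G] (B₁ B₂ A₁ A₂ D E V : Finset G)
    (α₁ α₂ η : ℝ) (p : ℕ),
    A₁ ⊆ B₁ → A₂ ⊆ B₂ → B₁.Nonempty → B₂.Nonempty → D.Nonempty → E.Nonempty → 0 < α₁ → 0 < α₂ →
    (A₁.card : ℝ) = α₁ * B₁.card → (A₂.card : ℝ) = α₂ * B₂.card →
    (∀ x ∈ B₁, -x ∈ B₁) → 0 ≤ η → η ≤ α₁ / 36 →
    (∀ m ∈ B₂, (B₁.card : ℝ) - ct B₁ (m + m) ≤ η * B₁.card) →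
    (∀ x, 0 < cor (EE D E) x → (B₁.card : ℝ) - ct B₁ x ≤ η * B₁.card) →
    Set.InjOn (fun m => m + m) (B₂ : Set G) →
    (V.card : ℝ) ≤ 2 * B₂.card →
    (∀ m ∈ B₂, ∀ x, 0 < cor (EE D E) x → m + m - x ∈ V) →
    ((((A₁ ×ˢ A₁) ×ˢ A₂).filter fun q => q.1.1 + q.1.2 = q.2 + q.2).card : ℝ) ≤
      1 / 2 * α₁ * A₁.card * A₂.card →
    Even p → 6 ≤ p → (2 / 3 : ℝ) ^ p ≤ α₂ / 2 →
    (17 / 16 * α₁ * A₁.card) ^ (30 * (p + 1)) ≤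
      ∑ x, cor (EE D E) x * (ct A₁ x : ℝ) ^ (30 * (p + 1))

/-- **SIFT**. Proof: `cor (EE D E) x` is the probability that `d' + e' - d - e = x` for independent
uniform `d, d' ∈ D`, `e, e' ∈ E`. Fixing `w = e' - d` there is, by averaging, a `w : G` with
`|D| |E| (17/16 α |A|)^Q ≤ ∑_{a ∈ w + D} ∑_{b ∈ E} (ct A (a - b))^Q`. Now
`(ct A (a - b))^Q = ∑_{s : Fin Q → G} ∏_i 1_A (s i + a) 1_A (s i + b)`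
(`ct A (a - b) = #{u : u + b ∈ A, u + a ∈ A}`). For `s : Fin Q → G` put
`A₁(s) = {a ∈ w + D : ∀ i, s i + a ∈ A}`, `A₂(s) = {b ∈ E : ∀ i, s i + b ∈ A}`,
`T(s) = |A₁(s)| |A₂(s)|`, `Bad(s) = #{(a,b) ∈ A₁(s) × A₂(s) : ct A (a - b) < 33/32 α |A|}`. Then
`∑_s T(s) = ∑_{a,b} (ct A (a - b))^Q ≥ |D| |E| (17/16 α |A|)^Q > 0`,
`∑_s Bad(s) = ∑_{(a,b) bad} (ct A (a - b))^Q ≤ |D| |E| (33/32 α |A|)^Q ≤ (33/34)^Q ∑_s T(s)`,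
and with `θ = α^Q / 4`: `∑_{s : |A₁(s)| < θ |D| or |A₂(s)| < θ |E|} T(s) ≤ 2 θ |D| |E| |A|^Q
≤ 1/2 ∑_s T(s)`, because `∑_s |A₂(s)| = |E| |A|^Q`, `∑_s |A₁(s)| = |D| |A|^Q`. If every `s` outside
this set had `Bad(s) > 4 (33/34)^Q T(s)` (or `T(s) = 0`), then
`∑ Bad ≥ 4 (33/34)^Q * 1/2 * ∑ T > (33/34)^Q ∑ T`, a contradiction. -/
def S_SIFT : Prop :=
  ∀ (G : Type) [AddCommGroup G] [Fintype G] [DecidableEq G] (A D E : Finset G) (α : ℝ) (Q : ℕ),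
    0 < α → A.Nonempty → D.Nonempty → E.Nonempty →
    (17 / 16 * α * A.card) ^ Q ≤ ∑ x, cor (EE D E) x * (ct A x : ℝ) ^ Q →
    ∃ (w : G) (A₁ A₂ : Finset G), (∀ a ∈ A₁, a - w ∈ D) ∧ A₂ ⊆ E ∧
      α ^ Q / 4 * D.card ≤ A₁.card ∧ α ^ Q / 4 * E.card ≤ A₂.card ∧
      (((A₁ ×ˢ A₂).filter fun q => (ct A (q.1 - q.2) : ℝ) < 33 / 32 * α * A.card).card : ℝ) ≤
        4 * (33 / 34) ^ Q * (A₁.card * A₂.card)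

/-- **AP** (almost periodicity; `C` an absolute constant). Proof: let `P y` be the proportion of
the pairs `(a, b) ∈ A₁ × A₂` with `y + a - b ∈ B`, so
`P y = (1/|A₁|) ∑_{a ∈ A₁} gg (-A₂) B (y + a)` (`gg` of `Y881.CS.Stm`), `M = 2^ℓ`.
(1) Croot-Sisask (`Pool.Agent.Y547.CS.t_CS Pool.Agent.Y836.CS.t_MZ : S_CS` in the modules
`Pool.Graph.R_pool_sql_team_seeded_1acbe0a2.Y547.CS.CS`, `....Y836.CS.MZ`) for the sets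
`-A₂`, `X`, `B`, with `m = ℓ`, `k = 2 ℓ + 8`, `ε = 1/(2^12 k)`, `n = 24 m (2^12 k)^2 ≤ C ℓ³`: there
is `T ⊆ X`, `|X| ≤ 2 M^n |T|`, with `∑_z |gg(z + t - t') - gg z|^(2m) ≤ ε^(2m) |B|` for
`t, t' ∈ T`. By the power mean inequality over `a ∈ A₁`,
`|P (y + t - t') - P y| ≤ (ε^(2m) |B| / |A₁|)^(1/(2m)) ≤ ε M^(1/(2m)) ≤ 2 ε` for all `y`.
Hence for the average `F` of `P (· + ∑_{i<k} (t_i - t_i'))` over `T^(2k)` (`av k T P` in Stm)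
`|F y - P y| ≤ 2 k ε ≤ 1/2048`.
(2) Fourier: `P y = (1/(N |A₁| |A₂|)) ∑_γ c(γ) ψ (γ y)` with `|c γ| = |Â₁ γ| |Â₂ γ| |B̂ γ|`, and
`F y` has the same expansion with `c γ` multiplied by `(wt T γ / |T|²)^k` (see the proofs of
`pr_expand`, `av_expand` in `....Y369.CS.Fou`). With `|Â₂ γ| ≤ |A₂|` and Cauchy-Schwarz + Parseval
(`sum_wt`): `(1/(N |A₁| |A₂|)) ∑ |c γ| ≤ (|B|/|A₁|)^(1/2) ≤ M^(1/2) ≤ 2^ℓ`. If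
`‖ψ (γ x) - 1‖ ≤ 2^(-ℓ-11)` for all `γ` with `|T|² ≤ 4 wt T γ` (*), then
`|F x - F 0| ≤ 2^ℓ (2 * 4^(-k) + 2^(-ℓ-11)) ≤ 1/1024`.
So `|P x - P 0| ≤ 1/1024 + 2/2048 ≤ 1/256`.
(3) Chang (`Pool.Agent.Y455.CS.t_CHG Pool.Agent.Y162.CS.t_CHD : S_CHG`, modules
`....Y455.CS.Chg`, `....Y162.CS.CHD`) with `q = 1 + n ℓ ≤ C ℓ⁴` (`2 M^n ≤ exp q`): a set `Λ` with
`|Λ| ≤ 8 (q + 1)`, such that each `γ` of (*) has signs `e` with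
`exp (-(8q+9)) |X| ≤ |X̂(γ')|`, `γ' = γ - ∑ e_l l`. Since
`|X̂(γ')| |ψ (γ' x) - 1| ≤ 2 (|X| - ct X x)` and `‖ψ (γ x) - 1‖ ≤ ‖ψ (γ' x) - 1‖ + ∑_{l ∈ Λ} ‖ψ (l x) - 1‖`,
both hypotheses on `x` with a large `C` give (*). -/
def S_AP : Prop :=
  ∃ C : ℕ, ∀ (N : ℕ) [NeZero N] (A₁ A₂ X B : Finset (ZMod N)) (ℓ : ℕ), 1 ≤ ℓ →
    A₁.Nonempty → A₂.Nonempty → X.Nonempty →
    (B.card : ℝ) ≤ 2 ^ ℓ * A₁.card → ((X - A₂).card : ℝ) ≤ 2 ^ ℓ * A₂.card →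
    ∃ Λ : Finset (ZMod N), Λ.card ≤ C * ℓ ^ 4 ∧ ∀ x : ZMod N,
      (∀ l ∈ Λ, ‖ψ (l * x) - 1‖ ≤ 1 / 2 ^ (C * ℓ ^ 4)) →
      ((X.card : ℝ) - ct X x ≤ 1 / 2 ^ (C * ℓ ^ 4) * X.card) →
      (((A₁ ×ˢ A₂).filter fun q => x + q.1 - q.2 ∈ B).card : ℝ) ≤
        ((A₁ ×ˢ A₂).filter fun q => q.1 - q.2 ∈ B).card + 1 / 256 * (A₁.card * A₂.card)

/-- **INC** (density increment). May assume SIFT and AP (take the `C` of AP). Proof: SIFT gives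
`w, A₁, A₂`. Let `B` be the set of the `x` with `x - w ∈ D - E + V` and
`ct A x < 33/32 α |A|`; `|B| ≤ |D - E + V| ≤ 2 |D| ≤ 8/α^Q |A₁| ≤ 2^ℓ |A₁|`, and
`|X - A₂| ≤ |X - E| ≤ 2 |E| ≤ 2^ℓ |A₂|`. AP gives `Λ`. Let `T` be as in the statement. For `x ∈ T`
the proportion of the pairs `(a, b) ∈ A₁ × A₂` with `ct A (x + a - b) < 33/32 α |A|` is the
proportion with `x + a - b ∈ B` (as `x + a - b - w ∈ D - E + V`), at most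
`4 (33/34)^Q + 1/256 ≤ 1/128` (`Q ≥ 240`). So there is a pair `(a, b)` such that
`ct A (x + a - b) ≥ 33/32 α |A|` for at least `(127/128) |T|` of the `x ∈ T`; hence
`∑_{x ∈ T} ct A (x + a - b) ≥ 127/128 * 33/32 α |A| |T| ≥ (1 + 1/64) α |A| |T|`. The left side is
`∑_{u ∈ A} #{c ∈ A : c - (u + a - b) ∈ T}`, so some `t = u + a - b` works. -/
def S_INC : Prop :=
  ∃ C : ℕ, ∀ (N : ℕ) [NeZero N] (A D E X V : Finset (ZMod N)) (α : ℝ) (Q ℓ : ℕ), 0 < α → α ≤ 1 →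
    A.Nonempty → D.Nonempty → E.Nonempty → X.Nonempty → V.Nonempty → 1 ≤ ℓ → 240 ≤ Q →
    8 ≤ α ^ Q * 2 ^ ℓ →
    ((D - E + V).card : ℝ) ≤ 2 * D.card → ((X - E).card : ℝ) ≤ 2 * E.card →
    (17 / 16 * α * A.card) ^ Q ≤ ∑ x, cor (EE D E) x * (ct A x : ℝ) ^ Q →
    ∃ Λ : Finset (ZMod N), Λ.card ≤ C * ℓ ^ 4 ∧ ∀ T : Finset (ZMod N), T.Nonempty → T ⊆ V →
      (∀ x ∈ T, ∀ l ∈ Λ, ‖ψ (l * x) - 1‖ ≤ 1 / 2 ^ (C * ℓ ^ 4)) →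
      (∀ x ∈ T, (X.card : ℝ) - ct X x ≤ 1 / 2 ^ (C * ℓ ^ 4) * X.card) →
      ∃ t : ZMod N, (1 + 1 / 64) * α * T.card ≤ (A.filter fun a => a - t ∈ T).card

/-- Bohr set -/
noncomputable def Bo {N : ℕ} [NeZero N] (Λ : Finset (ZMod N)) (ρ : ℝ) : Finset (ZMod N) := by
  classical
  exact univ.filter fun x => ∀ l ∈ Λ, ‖ψ (l * x) - 1‖ ≤ ρ

/-- **DBL**. Proof: a complex number `z` with `‖z - 1‖ ≤ 2 ρ` has real part in `[1 - 2ρ, 1 + 2ρ]`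
and imaginary part in `[-2ρ, 2ρ]`; cut the square into `9 × 9` equal squares of side `4ρ/9`, whose
diameter is `< ρ`. Map `x ∈ Bo Λ (2ρ)` to the family (`l ∈ Λ`) of the cells of `ψ (l x)`: at most
`81^|Λ|` values, and a fibre has at most `|Bo Λ ρ|` elements, since for `x, y` in one fibre
`‖ψ (l (x - y)) - 1‖ = ‖ψ (l x) - ψ (l y)‖ ≤ ρ`, so `x ↦ x - y` maps it into `Bo Λ ρ`. -/
def S_DBL : Prop :=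
  ∀ (N : ℕ) [NeZero N] (Λ : Finset (ZMod N)) (ρ : ℝ), 0 < ρ →
    (Bo Λ (2 * ρ)).card ≤ 81 ^ Λ.card * (Bo Λ ρ).card

/-- regular radius -/
def Rg {N : ℕ} [NeZero N] (Λ : Finset (ZMod N)) (ρ : ℝ) (D : ℕ) : Prop :=
  (D : ℝ) * (Bo Λ ((1 + 1 / (100 * D * (Λ.card + 1))) * ρ)).card ≤
    (D + 1) * (Bo Λ ((1 - 1 / (100 * D * (Λ.card + 1))) * ρ)).card

/-- **REG** (may assume DBL). Proof: `d = |Λ|`, `κ = 1/(100 D (d+1))`, `J = 25 D (d+1)`,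
`ρ_j = (ρ/2) (1 + j/J)` for `j = 0..J`; `(1+κ) ρ_j ≤ (1-κ) ρ_{j+1}` because
`κ (ρ_j + ρ_{j+1}) ≤ 2 κ ρ = ρ/(2J)`. If no `ρ_j` is regular then
`|Bo ((1-κ) ρ_{j+1})| ≥ |Bo ((1+κ) ρ_j)| > (1 + 1/D) |Bo ((1-κ) ρ_j)|`, so
`|Bo ((1+κ) ρ)| > (1+1/D)^(J+1) |Bo ((1-κ) ρ/2)| ≥ 2^(25 (d+1)) |Bo ((1-κ) ρ/2)|` (Bernoulli:
`(1+1/D)^D ≥ 2`), but by DBL twice (`(1+κ) ρ ≤ 4 (1-κ) ρ/2`) it is at most
`81^(2d) |Bo ((1-κ) ρ/2)|`, and `81^(2d) ≤ 2^(14 d)`: a contradiction. -/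
def S_REG : Prop :=
  ∀ (N : ℕ) [NeZero N] (Λ : Finset (ZMod N)) (ρ : ℝ) (D : ℕ), 1 ≤ D → 0 < ρ →
    ∃ ρ' : ℝ, ρ / 2 ≤ ρ' ∧ ρ' ≤ ρ ∧ Rg Λ ρ' D

/-- the solutions of `x + y = 2 m` in `A` -/
def T3 {N : ℕ} (A : Finset (ZMod N)) : ℕ :=
  (((A ×ˢ A) ×ˢ A).filter fun q => q.1.1 + q.1.2 = q.2 + q.2).card

/-- **STEP** (may assume MOM, INC, REG). Proof: `D = 2^(ℓ+12)`, `d = |Λ|`, `κ = 1/(100 D (d+1))`,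
`B s = Bo Λ s`, `H s = Bo (Λ.image (2⁻¹ * ·)) s`.
(F1) `Bo` is monotone in the radius, symmetric, contains `0`, `B s + B s' ⊆ B (s + s')`.
(F2) `x ↦ x + x` is injective (`N` odd) and maps `B s` onto `H s` (`ψ (l x) = ψ ((2⁻¹ l) (x + x))`),
so `|H s| = |B s|`; `H s ⊆ B (2 s)`; the image of `Λ` has `d` elements, so `Rg` holds for the
halved frequencies iff it holds for `Λ` (same radius).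
(F3) If `Rg Λ s D'`, `κ' = 1/(100 D' (d+1))`: for `x ∈ B (κ' s)` we have
`B ((1-κ') s) ⊆ {t ∈ B s : t + x ∈ B s}`, so `|B s| - ct (B s) x ≤ |B s| - |B ((1-κ') s)| ≤ |B s|/D'`;
and `|B ((1+κ') s)| ≤ (1 + 1/D') |B s| ≤ 2 |B s|`. The same for `H`.
Radii, all with `Rg Λ _ D` by REG: `ρ₁ ∈ [κρ/2, κρ]`, `ρ₂ ∈ [κρ₁/4, κρ₁/2]`, `ρ₃ ∈ [κρ₂/16, κρ₂/8]`,
`ρ₄ ∈ [κρ₃/4, κρ₃/2]`; and `ρ₅ ∈ [κρ₄/2, κρ₄]` with `Rg Λ ρ₅ D₅`, `D₅ = 2^(C₁ ℓ'^4)` (`C₁` the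
constant of INC, `ℓ'` below), `κ₅ = 1/(100 D₅ (d+1))`, `r = κ₅ ρ₅`.
(1) `A' = {a ∈ A : a - t ∈ B ρ}`, `f_i z = |{a ∈ A : a - z ∈ B ρ_i}| / |B ρ_i|`, `i = 1, 2`. Summing
over the `z` with `z - t ∈ B ((1+κ) ρ)` (each `a ∈ A'` is counted `|B ρ_i|` times):
`∑ (f₁ + f₂) ≥ 2 |A'| ≥ 2 α |B ρ| ≥ 2 α (1 - 1/D) |B ((1+κ) ρ)|`; so some `z` has
`f₁ z + f₂ z ≥ 2 α (1 - 2^(-12))`. If `f_i z ≥ (1 + 1/1024) α` for `i = 1` or `2`, the second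
alternative holds with `Λ, ρ_i, z`. Otherwise `α_i = f_i z` are in
`[(1 - 2/1024) α, (1 + 1/1024) α]`, so `α_i ≥ 2^(-ℓ-1)`. Let `A_i = {x ∈ B ρ_i : x + z ∈ A}`.
(2) If more than `1/2 α₁ |A₁| |A₂|` triples `x, y ∈ A₁`, `m ∈ A₂` have `x + y = m + m`, then (adding
`z`) `T3 A ≥ 1/2 α₁² α₂ |B ρ₁| |B ρ₂| ≥ 2^(-3ℓ-4) |B ρ₂|² ≥ 2^(-8ℓ) |B ρ₂|²`: first alternative.
(3) Otherwise MOM with `B₁ = B ρ₁`, `B₂ = B ρ₂`, `D = H ρ₃`, `E = H ρ₄`, `V = H (ρ₂ + 2ρ₃ + 2ρ₄)`,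
`η = 1/D = 2^(-ℓ-12)`, `p = 2ℓ + 6` (`(2/3)^p ≤ 2^(-ℓ-2) ≤ α₂/2`). Hypotheses: `m ∈ B ρ₂` gives
`m + m ∈ B (2ρ₂) ⊆ B (κρ₁)`; `cor (EE D E) x > 0` implies `x ∈ D + E - D - E ⊆ H (4ρ₃) ⊆ B (8ρ₃) ⊆
B (κρ₂) ⊆ B (κρ₁)`; `V ⊆ H ((1+κ) ρ₂)`, so `|V| ≤ 2 |B₂|`.
(4) INC with `A := A₁`, `D = H ρ₃`, `E = H ρ₄`, `X = H ρ₅`, `V = H (κρ₃/2)`, `α := α₁ ≤ 1`,
`Q = 30 (p+1) = 30 (2ℓ+7)`, `ℓ' = (ℓ+1) Q + 3 ≤ 600 ℓ²` (`α₁^Q 2^ℓ' ≥ 8`);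
`D - E + V ⊆ H ((1+κ) ρ₃)`, `X - E ⊆ H ((1+κ) ρ₄)`. It gives `Λ''` with `|Λ''| ≤ C₁ ℓ'^4`. Let
`Λ' = Λ.image (2⁻¹ * ·) ∪ Λ''`, `ρ' ∈ [r/2, r]` with `Rg Λ' ρ' D` (REG), `T = Bo Λ' ρ'`. Then `T ⊆ V`
(`r ≤ ρ₅ ≤ κρ₃/2`), `ρ' ≤ r ≤ 1/D₅ = 2^(-C₁ ℓ'^4)` (`ρ₅ ≤ 2`), and `T ⊆ H (κ₅ ρ₅)`, so F3 for `ρ₅`
gives `|X| - ct X x ≤ |X| / D₅`. So some `t₁` has
`|{a ∈ A₁ : a - t₁ ∈ T}| ≥ (1 + 1/64) α₁ |T| ≥ (1 + 1/1024) α |T|`; take `t' = t₁ + z`.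
Sizes: `|Λ'| ≤ d + C₁ (600 ℓ²)^4`; `ρ₅ ≥ κ^5 ρ / 1024` and
`ρ' ≥ κ₅ ρ₅ / 2`, so `ρ ≤ 2^(C ℓ^8) (d+1)^6 ρ'`. -/
def S_STEP : Prop :=
  ∃ C : ℕ, ∀ (N : ℕ) [NeZero N] (A Λ : Finset (ZMod N)) (ρ α : ℝ) (t : ZMod N) (ℓ : ℕ),
    Odd N → 1 ≤ ℓ → 0 < ρ → ρ ≤ 2 → 1 / 2 ^ ℓ ≤ α → Rg Λ ρ (2 ^ (ℓ + 12)) →
    α * (Bo Λ ρ).card ≤ (A.filter fun a => a - t ∈ Bo Λ ρ).card →
    (∃ ρ' : ℝ, ρ ≤ 2 ^ (C * ℓ ^ 8) * ((Λ.card : ℝ) + 1) ^ C * ρ' ∧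
      ((Bo Λ ρ').card : ℝ) ^ 2 ≤ 2 ^ (8 * ℓ) * T3 A) ∨
    ∃ (Λ' : Finset (ZMod N)) (ρ' : ℝ) (t' : ZMod N), Λ'.card ≤ Λ.card + C * ℓ ^ 8 ∧
      ρ ≤ 2 ^ (C * ℓ ^ 8) * ((Λ.card : ℝ) + 1) ^ C * ρ' ∧ ρ' ≤ 2 ∧ Rg Λ' ρ' (2 ^ (ℓ + 12)) ∧
      (1 + 1 / 1024) * α * (Bo Λ' ρ').card ≤ (A.filter fun a => a - t' ∈ Bo Λ' ρ').card

/-- **KM** (from STEP and DBL). Proof: we may assume `N ≤ 2^ℓ |A|`. Iterate STEP starting with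
`Λ = ∅`, `ρ = 1`, `t = 0`, `α = 2^(-ℓ)` (`Bo ∅ ρ = univ` is regular). After `j` increments there is
a state with `|Λ_j| ≤ j C ℓ^8`, density `≥ (1 + 1/1024)^j 2^(-ℓ)`, and
`ρ_j ≥ (2^(C ℓ^8) (C' j ℓ^8 + 1)^C)^(-j)`. A density is at most `1`, so `j ≤ 1024 ℓ` at all times
(`(1 + 1/1024)^1024 ≥ 2`) and the first alternative of STEP must occur for some `j ≤ 1024 ℓ`, with
`|Λ| ≤ C'' ℓ^9`, `ρ' ≥ 2^(-C'' ℓ^10)` (as `C' j ℓ^8 + 1 ≤ 2^(C'' ℓ)`). DBL iterated `C'' ℓ^10 + 1`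
times (`Bo Λ 2 = univ`, `‖ψ - 1‖ ≤ 2`) gives `|Bo Λ ρ'| ≥ 81^(-|Λ| (C'' ℓ^10 + 2)) N`. -/
def S_KM : Prop :=
  ∃ C : ℕ, ∀ (N : ℕ) [NeZero N] (A : Finset (ZMod N)) (ℓ : ℕ), Odd N → 1 ≤ ℓ →
    N ≤ 2 ^ ℓ * A.card → (N : ℝ) ^ 2 ≤ 2 ^ (C * ℓ ^ C) * T3 A

end Pool.Agent.H566.KM
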