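import Mathlib
import Pool.Agent.H566.KMs

/-!
# Project KM (helper566), part 2: statements of the transference to the primes
-/

set_option autoImplicit false

namespace Pool.Agent.H566.KM

open Finset
open scoped Pointwise

/-- Fourier transform -/
noncomputable def fh {N : ℕ} [NeZero N] (a : ZMod N → ℝ) (γ : ZMod N) : ℂ := ∑ z, (a z : ℂ) * ψ (γ * z)

/-- average of `a (z + b + b')` over `b, b' ∈ B` -/
noncomputable def smo {N : ℕ} (B : Finset (ZMod N)) (a : ZMod N → ℝ) (z : ZMod N) : ℝ :=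
  (∑ b ∈ B, ∑ b' ∈ B, a (z + b + b')) / (B.card : ℝ) ^ 2

/-- **FC** (comparison of a function and its smoothing). Proof: `B = Bo Γ ε` contains `0` and is
symmetric, so `μ γ = (1/|B|) ∑_{b ∈ B} ψ (γ b)` is real, `|μ γ| ≤ 1`, and `|1 - μ γ| ≤ ε` for
`γ ∈ Γ`. `fh (smo B a) γ = fh a γ * (μ γ)^2` and `cvl` becomes the square, so with
`S γ = ∑_{m ∈ A} ψ (-(γ (m + m)))`, by orthogonality (`∑_γ ψ (γ z) = N` if `z = 0`, else `0`)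
`∑_{m ∈ A} cvl a (m + m) = (1/N) ∑_γ (fh a γ)^2 S γ`, and the difference is
`(1/N) ∑_γ (fh a γ)^2 (1 - (μ γ)^4) S γ`, `0 ≤ 1 - (μ γ)^4 ≤ 1`, and `≤ 4 ε` for `γ ∈ Γ`.
Parseval: `∑_γ |S γ|^2 = N |A| ≤ N^2` (`N` odd, so `m ↦ m + m` is injective), `|S γ| ≤ N`.
For `γ ∈ Γ`: `|fh a|^2 |S| ≤ |fh a|^3 + |S|^3` and `|S|^3 ≤ N |S|^2`, so these contribute at most
`(1/N) 4 ε (C₀ N^3 + N^3)`. For `γ ∉ Γ`, `|fh a| ≤ ε^2 N`: with `u = |fh a γ|`, `s = |S γ|`,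
`u^2 s ≤ ε (u^3 + N s^2)`: indeed `u^2 s = u^(1/2) (u^(3/2) s) ≤ ε N^(1/2) (u^(3/2) s)` and
`2 u^(3/2) N^(1/2) s ≤ u^3 + N s^2` (square root free: `(u^2 s)^2 = u * (u^3 s^2) ≤ ε^2 N u^3 s^2
≤ ε^2 ((u^3 + N s^2)/2)^2`); so they contribute at most `(1/N) ε (C₀ N^3 + N^3)`. -/
def S_FC : Prop :=
  ∀ (N : ℕ) [NeZero N] (a : ZMod N → ℝ) (Γ A : Finset (ZMod N)) (ε C₀ : ℝ), Odd N →
    (∀ z, 0 ≤ a z) → 0 < ε → ε ≤ 1 → 0 ≤ C₀ → ∑ γ, ‖fh a γ‖ ^ 3 ≤ C₀ * (N : ℝ) ^ 3 →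
    (∀ γ, ε ^ 2 * N ≤ ‖fh a γ‖ → γ ∈ Γ) →
    |∑ m ∈ A, cvl (smo (Bo Γ ε) a) (m + m) - ∑ m ∈ A, cvl a (m + m)| ≤ 5 * ε * (C₀ + 1) * (N : ℝ) ^ 2

/-- **TR** (abstract transference; may assume KM and FC). Proof: given `C₀` let `c` be a natural
number with `512 C₀ ≤ 2^c`, let `C₁` be the constant of KM and put `ℓ' = ℓ + c`,
`τ = 2^(-C₁ ℓ'^C₁)`, so every set `A` with `N ≤ 2^ℓ' |A|` has `T3 A ≥ τ N^2`. Let `ε = 2^(-e)` with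
`ε + 5 ε (C₀ + 1) < τ / (256 * 4^ℓ)` and let `R` be the least integer `≥ 2^ℓ C₀ ε^(-6)`.
Let `ν = ∑ a i`, let `Γ` be the set of the `γ` with `‖fh (a i) γ‖ ≥ ε^2 N` for some `i`;
`|Γ| (ε^2 N)^3 ≤ K C₀ N^3`, so `|Γ| ≤ R`. Put `B = Bo Γ ε`, `f i = smo B (a i)`,
`F = ∑ f i = smo B ν`. `∑ F = ∑ ν ≥ N/8`. By convexity (twice; `smo` is an average of averages)
`∑_z F z ^2 ≤ ∑_z ((1/|B|) ∑_{b ∈ B} ν (z + b))^2 = (1/|B|^2) ∑_h cor ν h * ct B h ≤ C₀ N`. Hence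
`F₀ = {F ≥ 1/16}` satisfies `N/16 ≤ ∑_{F₀} F ≤ (|F₀| C₀ N)^(1/2)`, so `|F₀| ≥ N/(256 C₀)`. Let `U` be
the set of the `m` which are not in the set of the conclusion. If the conclusion fails,
`|F₀ ∩ U| ≥ N/(512 C₀)`. For `x ∈ F₀ ∩ U` there is an `i` with `f i x ≥ 1/(16 K)`; so for some `i`
the set `A = {x ∈ U : f i x ≥ 1/(16 K)}` has `|A| ≥ N/(512 C₀ K) ≥ N/2^ℓ'`, and
`∑_{m ∈ A} cvl (f i) (m + m) ≥ T3 A / (16 K)^2 ≥ τ N^2 / (256 * 4^ℓ)`. But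
`∑_{m ∈ A} cvl (a i) (m + m) ≤ |A| N ε ≤ ε N^2` as `A ⊆ U`, which contradicts FC (for `a i`, `Γ`,
`ε`). -/
def S_TR : Prop :=
  ∀ C₀ : ℝ, 1 ≤ C₀ → ∃ C : ℕ, ∀ ℓ : ℕ, 1 ≤ ℓ → ∃ e R : ℕ, e ≤ C * ℓ ^ C ∧ R ≤ 2 ^ (C * ℓ ^ C) ∧
    ∀ (N : ℕ) [NeZero N] (K : ℕ) (a : Fin K → ZMod N → ℝ), Odd N → K ≤ 2 ^ ℓ →
      (∀ i z, 0 ≤ a i z) → (N : ℝ) / 8 ≤ ∑ i, ∑ z, a i z →
      (∀ i, ∑ γ, ‖fh (a i) γ‖ ^ 3 ≤ C₀ * (N : ℝ) ^ 3) →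
      (∀ Γ : Finset (ZMod N), Γ.card ≤ R →
        ∑ h, cor (fun z => ∑ i, a i z) h * (ct (Bo Γ (1 / 2 ^ e)) h : ℝ) ≤
          C₀ * N * ((Bo Γ (1 / 2 ^ e)).card : ℝ) ^ 2) →
      (N : ℝ) / (512 * C₀) ≤ ((univ.filter fun m : ZMod N => ∃ i, (N : ℝ) / 2 ^ e ≤ cvl (a i) (m + m)).card : ℝ)

/-- weight of the primes in the class `b` modulo `W` (the same as `Pool.Agent.H566.nuW`) -/
noncomputable def nW (W b x : ℕ) : ℝ :=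
  ((W.totient : ℝ) / W) * (if (W * x + b).Prime then Real.log ((W * x + b : ℕ) : ℝ) else 0)

/-- primorial -/
def pW (w : ℕ) : ℕ := ∏ p ∈ (range (w + 1)).filter Nat.Prime, p

/-- the factor of the prime divisors larger than `w` -/
noncomputable def GG (w h : ℕ) : ℝ := ∏ p ∈ h.primeFactors.filter (fun p => w < p), (1 - 1 / (p : ℝ))⁻¹

/-- **PAIR** (upper bound sieve for pairs; helper566) -/
def S_PAIR : Prop :=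
  ∃ C : ℝ, 0 < C ∧ ∀ (w b : ℕ), b.Coprime (pW w) → b < pW w → ∃ L0 : ℕ, ∀ L : ℕ, L0 ≤ L →
    ∀ h : ℕ, 1 ≤ h → h ≤ L → ∑ x ∈ Ioc L (L + L), nW (pW w) b x * nW (pW w) b (x + h) ≤ C * L * GG w h

/-- **GM** (moments of `GG`). Proof: for a prime `p > w ≥ k`, `(1 - 1/p)^(-k) = 1 + g p` with
`0 ≤ g p ≤ exp (k/(p-1)) - 1 ≤ 2 k/(p-1)` (`k/(p-1) ≤ 1`). Let `P` be the set of the primes in
`(w, H]`. For `1 ≤ h ≤ H`, `GG w h ^ k = ∏_{p ∈ P, p ∣ h} (1 + g p) = ∑_{S ⊆ P, ∏ S ∣ h} ∏_{p ∈ S} g p`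
(`Finset.prod_one_add` / `prod_add`). Exchange the sums: at most `H / ∏ S` of the `h ∈ [1, H]` are
divisible by `∏ S`, so the sum is at most `H ∑_{S ⊆ P} ∏_{p ∈ S} g p / p = H ∏_{p ∈ P} (1 + g p / p)
≤ H exp (∑_{p > w} 2 k/(p (p-1))) ≤ H exp (2 k / w) ≤ 8 H`. -/
def S_GM : Prop :=
  ∀ (w k H : ℕ), 1 ≤ k → k ≤ w → ∑ h ∈ Icc 1 H, GG w h ^ k ≤ 8 * H

/-- the weight of the primes in `(L, 2L]` as a function on `ZMod (4 L + 1)` -/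
noncomputable def nz (W b L : ℕ) (z : ZMod (4 * L + 1)) : ℝ := if z.val ∈ Ioc L (L + L) then nW W b z.val else 0

/-- **H3** (second moment of smoothings of the primes; may assume PAIR and GM). Proof: let
`N = 4 L + 1`. The term `h = 0` is `∑_z (nz z)^2 * |B| ≤ |B| * L * (log (W 2 L + b))^2 ≤ |B|^2 N` for
`L ≥ L0(w, b, k)`, because `N ≤ 2^k |B|`. For `h ≠ 0` the residues `z`, `z + h` with
`z.val, (z + h).val ∈ (L, 2L]` have `(z + h).val - z.val = ± h'` with `1 ≤ h' < L`, `h'` the distance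
of `h.val` to `{0, N}`; so `cor nz h ≤ ∑_{x ∈ (L, 2L]} nW x * nW (x + h') ≤ C L GG w h'` by PAIR, and
`cor nz h = 0` if `h' ≥ L`. The weights `v_h = ct B h / |B|^2` have sum 1 and `v_h ≤ 1/|B| ≤ 2^k/N`.
By `Real.pow_arith_mean_le_arith_mean_pow` (or inner product inequalities)
`(∑_{h ≠ 0, h' ≤ L} v_h GG w h')^k ≤ ∑_{h} v_h (GG w h')^k ≤ (2^k/N) * 2 * 8 L ≤ 4 * 2^k ≤ 8^k`
(each `h'` occurs for two `h`), so `∑ v_h GG w h' ≤ 8`. Together: `C₀ = 1 + 8 C`. -/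
def S_H3 : Prop :=
  ∃ C₀ : ℝ, 1 ≤ C₀ ∧ ∀ (w b k : ℕ), 1 ≤ k → k ≤ w → b.Coprime (pW w) → b < pW w →
    ∃ L0 : ℕ, ∀ L : ℕ, L0 ≤ L → ∀ B : Finset (ZMod (4 * L + 1)), ((4 * L + 1 : ℕ) : ℝ) ≤ 2 ^ k * B.card →
      ∑ h, cor (nz (pW w) b L) h * (ct B h : ℝ) ≤ C₀ * ((4 * L + 1 : ℕ) : ℝ) * (B.card : ℝ) ^ 2

/-- **RES** (restriction; helper566) -/
def S_RES : Prop :=
  ∃ C₀ : ℝ, 1 ≤ C₀ ∧ ∀ (w b : ℕ), b.Coprime (pW w) → b < pW w → ∃ L0 : ℕ, ∀ L : ℕ, L0 ≤ L →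
    ∀ a : ZMod (4 * L + 1) → ℝ, (∀ z, 0 ≤ a z) → (∀ z, a z ≤ nz (pW w) b L z) →
      ∑ γ, ‖fh a γ‖ ^ 3 ≤ C₀ * ((4 * L + 1 : ℕ) : ℝ) ^ 3

/-- **MAS** (prime number theorem in progressions; helper566) -/
def S_MAS : Prop :=
  ∀ (w b : ℕ), b.Coprime (pW w) → b < pW w → ∃ L0 : ℕ, ∀ L : ℕ, L0 ≤ L →
    ((4 * L + 1 : ℕ) : ℝ) / 8 ≤ ∑ z, nz (pW w) b L z

/-- **PHI**. Proof: Mertens, or Chebyshev's bound `π(x) ≤ C x / log x` and a dyadic decomposition: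
`∑_{p ≤ 2^J} 1/p ≤ C' (1 + log J)`, `∏ (1 - 1/p)^(-1) ≤ exp (∑ 1/(p-1)) ≤ C'' J^C''`. -/
def S_PHI : Prop :=
  ∃ C : ℕ, ∀ j : ℕ, 1 ≤ j → (pW (2 ^ j) : ℝ) ≤ C * (j : ℝ) ^ C * ((pW (2 ^ j)).totient : ℝ)

/-- number of ordered pairs of primes of the same colour with sum `n` -/
def rp {K : ℕ} (χ : ℕ → Fin K) (n : ℕ) : ℕ :=
  ((antidiagonal n).filter fun p => p.1.Prime ∧ p.2.Prime ∧ χ p.1 = χ p.2).card

/-- **FIN** (one residue class; may assume TR, H3, RES, MAS, DBL). Proof: let `C₀` be the larger of the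
constants of H3 and RES (both statements are monotone in `C₀`), `C` the constant of TR for this
`C₀`. For `ℓ ≥ 1` let `e, R` be as in TR and `w = 2^j` with `j ≤ C' ℓ^C'` and
`k := 7 (e + 2) R ≤ w` (`k ≥ 1`). Each Bohr set `Bo Γ (1/2^e)` with `|Γ| ≤ R` in `ZMod N` has
`N ≤ 81^((e + 1) |Γ|) |Bo| ≤ 2^k |Bo|` by DBL (`Bo Γ 2 = univ`). For a colouring `χ` put
`a i z = nz (pW w) b L z` if `χ (pW w * z.val + b) = i`, and `0` otherwise; `∑ i, a i z = nz z`. All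
hypotheses of TR hold for `L ≥ L0`, so at least `(4 L + 1)/(512 C₀)` of the `m : ZMod (4 L + 1)` have
some `i` with `cvl (a i) (m + m) ≥ (4 L + 1)/2^e`. For such an `m` let `s ∈ (2L, 4L]` be the integer
congruent to `2m`: the pairs `(x, y)` of residues with `x + y = 2m` and `a i x a i y > 0` have
`x.val + y.val = s`, `p = W x.val + b`, `q = W y.val + b` are primes of colour `i` with
`p + q = W s + 2 b`, and each pair contributes at most `(log (W (2 L) + b))^2 ≤ 4 (log L)^2`. So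
`rp χ (W s + 2 b) ≥ (4 L + 1)/(2^e 4 (log L)^2) ≥ c L/(log L)^2`. Different `m` give different `s`. -/
def S_FIN : Prop :=
  ∃ C : ℕ, 0 < C ∧ ∀ ℓ : ℕ, 1 ≤ ℓ → ∃ j : ℕ, 1 ≤ j ∧ j ≤ C * ℓ ^ C ∧ ∃ c : ℝ, 0 < c ∧
    ∀ b : ℕ, b.Coprime (pW (2 ^ j)) → b < pW (2 ^ j) → ∃ L0 : ℕ, ∀ L : ℕ, L0 ≤ L →
    ∀ (K : ℕ) (χ : ℕ → Fin K), K ≤ 2 ^ ℓ →
      (L : ℝ) / C ≤ (((Ioc (2 * L) (4 * L)).filter fun s =>
        c * (L : ℝ) / Real.log L ^ 2 ≤ (rp χ (pW (2 ^ j) * s + 2 * b) : ℝ)).card : ℝ)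

/-- **LOW** (the theorem; may assume FIN and PHI). Proof: `ℓ = Nat.log 2 K + 1`, `W = pW (2^j)`,
`L = (N - 2 W) / (4 W)`; for each of the `φ(W)` residues `b < W` prime to `W`, FIN gives at least
`L / C` numbers `s ∈ (2L, 4L]` such that `n = W s + 2 b ≤ N` is even (`W` is even) and has many
representations; `(b, s) ↦ W s + 2 b` is injective on these (`b` odd, `W / 2` odd: `2 b` mod `W`
determines `b` mod `W/2`, hence `b`). So there are at least `φ(W) L / C ≥ N φ(W) / (8 C W)` such `n`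
for large `N`, and `φ(W)/W ≥ 1/(C j^C)` by PHI, `j ≤ C ℓ^C`, `ℓ ≤ 2 (1 + log K)`. Representations:
`c L / (log L)^2 ≥ c' N / (log N)^2`. -/
def S_LOW : Prop :=
  ∃ C : ℕ, 0 < C ∧ ∀ K : ℕ, 1 ≤ K → ∃ c : ℝ, 0 < c ∧ ∃ N0 : ℕ, ∀ N : ℕ, N0 ≤ N → ∀ χ : ℕ → Fin K,
    (N : ℝ) / (C * (1 + Real.log K) ^ C) ≤ (((Icc 1 N).filter fun n =>
      Even n ∧ c * (N : ℝ) / Real.log N ^ 2 ≤ (rp χ n : ℝ)).card : ℝ)

/-- **UPP** (the upper bound). Proof: for `K < 16` enlarge `C`. For `K ≥ 16` let `w ≥ 2` be maximal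
with `4^w ≤ K`, `W = pW w ≤ 4^w ≤ K` (`primorial_le_four_pow` or similar in Mathlib). Colour `p` by
`p mod W < K`. Let `n > 2 w` be a sum `p + q` of primes with `p ≡ q (mod W)`. If `p ∣ W` then `p ∣ q`,
`q = p ≤ w`, `n ≤ 2 w`; so `p` is prime to `W`, `n ≡ 2 p (mod W)` and `gcd (n, W/2) = 1` (`W/2` is odd).
Hence for `N ≥ N0` (so that `c N/(log N)^2 > 0`) the set consists of numbers `n ≤ 2 w` and of even
numbers `n ≤ N` with `gcd (n, W/2) = 1`, which lie in `φ(W/2) = φ(W)` residue classes mod `W`: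
together at most `2 w + (N/W + 1) φ(W) ≤ 2 N φ(W)/W` for large `N`. Finally
`φ(W)/W = ∏_{p ≤ w} (1 - 1/p) ≤ 1/log w` (`∏ (1 - 1/p)^(-1) ≥ ∑_{n ≤ w} 1/n ≥ log w`; the library has
Mertens type bounds) and `log w ≥ (1/C') log (log K + 1)` as `4^(w+1) > K`, `w ≥ 2`. -/
def S_UPP : Prop :=
  ∃ C : ℕ, 0 < C ∧ ∀ K : ℕ, 3 ≤ K → ∃ χ : ℕ → Fin K, ∀ c : ℝ, 0 < c → ∃ N0 : ℕ, ∀ N : ℕ, N0 ≤ N →
    ((((Icc 1 N).filter fun n => Even n ∧ c * (N : ℝ) / Real.log N ^ 2 ≤ (rp χ n : ℝ)).card : ℝ)) ≤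
      C * (N : ℝ) / Real.log (Real.log K + 1)

end Pool.Agent.H566.KM
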