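import Mathlib
import Pool.Agent.H566.MGg

/-!
The primes in a class modulo a fixed number: the mean value and the restriction estimate.
-/

set_option autoImplicit false

namespace Pool.Agent.H566

open Finset
open Pool.Agent.H807R2.Dav
open Pool.Agent.H373R2.T7
open Pool.Agent.Y843.HS (VV Pr)

lemma nu_mean (Q b : ℕ) (hQ : 0 < Q) (hb : b.Coprime Q) (ε : ℝ) (hε : 0 < ε) : ∃ L0 : ℕ, ∀ L : ℕ, L0 ≤ L →
    |∑ x ∈ Ioc L (L + L), nuW Q b x - L| ≤ ε * L := by
  obtain ⟨N0, hap⟩ := lam_ap 1 1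
  obtain ⟨n1, h1⟩ := ev_log' 2 2
  set D : ℝ := 2 * Q + b with hD
  have hQ0 : (0 : ℝ) < Q := by exact_mod_cast hQ
  have hQt : (0 : ℝ) < Q.totient := by exact_mod_cast Nat.totient_pos.2 hQ
  have hD0 : 0 < D := by positivity
  obtain ⟨n2, h2⟩ := ev_L' (3 * D / ε + Q + 1)
  refine ⟨max (max N0 n1) (max n2 1), fun L hL => ?_⟩
  have hLN0 : N0 ≤ L := le_trans (le_trans (le_max_left _ _) (le_max_left _ _)) hL
  have hLn1 : n1 ≤ L := le_trans (le_trans (le_max_right _ _) (le_max_left _ _)) hL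
  have hLn2 : n2 ≤ L := le_trans (le_trans (le_max_left _ _) (le_max_right _ _)) hL
  have hL1 : 1 ≤ L := le_trans (le_trans (le_max_right _ _) (le_max_right _ _)) hL
  have hL0 : (1 : ℝ) ≤ L := by exact_mod_cast hL1
  set N := Q * (L + L) + b with hN
  have hLN : L ≤ N := by
    have : 1 * L ≤ Q * (L + L) := Nat.mul_le_mul hQ (by omega)
    omega
  have hNr : (1 : ℝ) ≤ N := by exact_mod_cast hL1.trans hLN
  have hNpos : (0 : ℝ) < N := by linarith
  have hND : (N : ℝ) ≤ D * L := by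
    rw [hN, hD]
    push_cast
    have : (b : ℝ) * 1 ≤ b * L := by gcongr
    linarith
  have a1 := h1 N (hLn1.trans hLN)
  have a2 := h2 N (hLn2.trans hLN)
  set LL := Real.log N with hLL
  have hdiv : 0 ≤ 3 * D / ε := by positivity
  have hLL0 : 0 < LL := by linarith
  have hQLL : (Q : ℝ) ≤ LL ^ 1 := by rw [pow_one]; linarith
  have hp1 := hap N (hLN0.trans hLN) Q hQ hQLL b (Q * (L + L) + b) le_rfl
  have hp0 := hap N (hLN0.trans hLN) Q hQ hQLL b (Q * L + b) (by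
    have : Q * L ≤ Q * (L + L) := Nat.mul_le_mul_left _ (by omega)
    omega)
  rw [if_pos hb, pow_one, ← hLL] at hp1 hp0
  have hsplit : ∑ n ∈ (Icc 1 (Q * (L + L) + b)).filter (fun n => n ≡ b [MOD Q]), ArithmeticFunction.vonMangoldt n =
      ∑ n ∈ (Icc 1 (Q * L + b)).filter (fun n => n ≡ b [MOD Q]), ArithmeticFunction.vonMangoldt n +
        ∑ x ∈ Ioc L (L + L), ArithmeticFunction.vonMangoldt (Q * x + b) := by
    have h3 : ∑ x ∈ Ioc L (L + L), ArithmeticFunction.vonMangoldt (Q * x + b) =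
        ∑ n ∈ (Ioc (Q * L + b) (Q * (L + L) + b)).filter (fun n => n ≡ b [MOD Q]), ArithmeticFunction.vonMangoldt n := by
      rw [class_filter Q b L (L + L) hQ, sum_image (fun x _ y _ h => class_inj Q b hQ h)]
    rw [h3, ← sum_union]
    · apply sum_congr _ (fun _ _ => rfl)
      ext n
      simp only [mem_union, mem_filter, mem_Icc, mem_Ioc]
      have h4 : Q * L ≤ Q * (L + L) := Nat.mul_le_mul_left _ (by omega)
      constructor
      · rintro ⟨⟨h5, h6⟩, h7⟩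
        rcases le_or_gt n (Q * L + b) with h8 | h8
        · exact Or.inl ⟨⟨h5, h8⟩, h7⟩
        · exact Or.inr ⟨⟨h8, h6⟩, h7⟩
      · rintro (⟨⟨h5, h6⟩, h7⟩ | ⟨⟨h5, h6⟩, h7⟩)
        · exact ⟨⟨h5, by omega⟩, h7⟩
        · exact ⟨⟨by omega, h6⟩, h7⟩
    · rw [disjoint_left]
      intro n h4 h5
      rw [mem_filter, mem_Icc] at h4
      rw [mem_filter, mem_Ioc] at h5
      omega
  rw [hsplit] at hp1
  have hyy : ((Q * (L + L) + b : ℕ) : ℝ) / (Q.totient : ℝ) = ((Q * L + b : ℕ) : ℝ) / (Q.totient : ℝ) + (Q / Q.totient) * L := by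
    push_cast
    field_simp
    ring
  rw [hyy] at hp1
  have hΛ : |∑ x ∈ Ioc L (L + L), ArithmeticFunction.vonMangoldt (Q * x + b) - (Q / Q.totient) * L| ≤ 2 * (N / LL) := by
    rw [abs_le] at hp1 hp0 ⊢
    constructor <;> linarith [hp1.1, hp1.2, hp0.1, hp0.2]
  have hΛ' : |((Q.totient : ℝ) / Q) * ∑ x ∈ Ioc L (L + L), ArithmeticFunction.vonMangoldt (Q * x + b) - L| ≤ 2 * (N / LL) := by
    have e1 : ((Q.totient : ℝ) / Q) * ∑ x ∈ Ioc L (L + L), ArithmeticFunction.vonMangoldt (Q * x + b) - L =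
        ((Q.totient : ℝ) / Q) * (∑ x ∈ Ioc L (L + L), ArithmeticFunction.vonMangoldt (Q * x + b) - (Q / Q.totient) * L) := by
      rw [mul_sub]
      congr 1
      field_simp
    rw [e1, abs_mul, abs_of_pos (by positivity)]
    have e2 : (Q.totient : ℝ) / Q ≤ 1 := by
      rw [div_le_one hQ0]
      exact_mod_cast Nat.totient_le Q
    calc (Q.totient : ℝ) / Q * _ ≤ 1 * (2 * (N / LL)) := mul_le_mul e2 hΛ (abs_nonneg _) (by norm_num)
      _ = _ := one_mul _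
  have hpw : |∑ x ∈ Ioc L (L + L), nuW Q b x - ((Q.totient : ℝ) / Q) * ∑ x ∈ Ioc L (L + L), ArithmeticFunction.vonMangoldt (Q * x + b)| ≤
      N / LL := by
    have e0 : ∑ x ∈ Ioc L (L + L), (ArithmeticFunction.vonMangoldt (Q * x + b) - th (Q * x + b)) ≤ 2 * √(N : ℝ) * LL := by
      have h7 : ∑ x ∈ Ioc L (L + L), (ArithmeticFunction.vonMangoldt (Q * x + b) - th (Q * x + b)) =
          ∑ n ∈ (Ioc L (L + L)).image (fun x => Q * x + b), (ArithmeticFunction.vonMangoldt n - th n) := by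
        rw [sum_image (fun x _ y _ h => class_inj Q b hQ h)]
      rw [h7]
      apply powers_le N (by omega)
      intro n hn
      rw [mem_image] at hn
      obtain ⟨x, hx, rfl⟩ := hn
      rw [mem_Ioc] at hx
      rw [mem_Icc]
      have k1 : Q * x ≤ Q * (L + L) := Nat.mul_le_mul_left _ hx.2
      have k2 : 1 ≤ Q * x := Nat.mul_pos hQ (by omega)
      omega
    have e1 : ∑ x ∈ Ioc L (L + L), nuW Q b x - ((Q.totient : ℝ) / Q) * ∑ x ∈ Ioc L (L + L), ArithmeticFunction.vonMangoldt (Q * x + b) =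
        -(((Q.totient : ℝ) / Q) * ∑ x ∈ Ioc L (L + L), (ArithmeticFunction.vonMangoldt (Q * x + b) - th (Q * x + b))) := by
      unfold nuW
      rw [← mul_sum, sum_sub_distrib]
      ring
    have e2 : 0 ≤ ∑ x ∈ Ioc L (L + L), (ArithmeticFunction.vonMangoldt (Q * x + b) - th (Q * x + b)) :=
      sum_nonneg fun x _ => sub_nonneg.2 (th_le _)
    rw [e1, abs_neg, abs_of_nonneg (by positivity)]
    have e3 : (Q.totient : ℝ) / Q ≤ 1 := by
      rw [div_le_one hQ0]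
      exact_mod_cast Nat.totient_le Q
    have hss : √(N : ℝ) * √(N : ℝ) = N := Real.mul_self_sqrt hNpos.le
    calc (Q.totient : ℝ) / Q * _ ≤ 1 * (2 * √(N : ℝ) * LL) := mul_le_mul e3 e0 e2 (by norm_num)
      _ ≤ N / LL := by
          rw [one_mul, le_div_iff₀ hLL0]
          calc 2 * √(N : ℝ) * LL * LL = √(N : ℝ) * (2 * LL ^ 2) := by ring
            _ ≤ √(N : ℝ) * √(N : ℝ) := by gcongr
            _ = N := hss
  have hfin : 3 * ((N : ℝ) / LL) ≤ ε * L := by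
    have e1 : 3 * D / ε ≤ LL := by linarith
    rw [div_le_iff₀ hε] at e1
    rw [← mul_div_assoc, div_le_iff₀ hLL0]
    calc 3 * (N : ℝ) ≤ 3 * (D * L) := by gcongr
      _ = (3 * D) * L := by ring
      _ ≤ (LL * ε) * L := by gcongr
      _ = _ := by ring
  rw [abs_le] at hΛ' hpw ⊢
  constructor <;> linarith [hΛ'.1, hΛ'.2, hpw.1, hpw.2]

/-- the sieve product -/
lemma VV_le' : ∃ C : ℝ, 0 < C ∧ ∀ (W b L : ℕ), 0 < W → b.Coprime W → 2 ≤ L →
    VV (ZW W b) 0 L ≤ C * ((W : ℝ) / W.totient) / Real.log L := by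
  obtain ⟨C, hC, -, -, h3⟩ := Pool.Agent.Helper602.MK.N_J1a.J1a
  refine ⟨C, by linarith, fun W b L hW hb hL => ?_⟩
  have hW0 : (0 : ℝ) < W := by exact_mod_cast hW
  have hWt : (0 : ℝ) < W.totient := by exact_mod_cast Nat.totient_pos.2 hW
  have hlog : 0 < Real.log L := Real.log_pos (by exact_mod_cast (by omega : 1 < L))
  have hP : Pr 0 L = (range (L + 1)).filter Nat.Prime := by
    unfold Pr
    ext p
    simp only [mem_filter, mem_Ioc, mem_range]
    constructor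
    · rintro ⟨⟨h1, h2⟩, h4⟩
      exact ⟨by omega, h4⟩
    · rintro ⟨h1, h4⟩
      exact ⟨⟨h4.pos, by omega⟩, h4⟩
  have hf : ∀ p ∈ Pr 0 L, (0 : ℝ) ≤ 1 - 1 / (p : ℝ) ∧ 1 - 1 / (p : ℝ) ≤ 1 := by
    intro p hp
    rw [hP, mem_filter] at hp
    have h4 : (1 : ℝ) ≤ p := by exact_mod_cast hp.2.one_le
    have h5 : 1 / (p : ℝ) ≤ 1 := by rw [div_le_one (by linarith)]; exact h4
    have h6 : 0 ≤ 1 / (p : ℝ) := by positivity
    constructor <;> linarith
  have hall : ∏ p ∈ Pr 0 L, (1 - 1 / (p : ℝ)) ≤ C / Real.log L := by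
    rw [hP]
    refine (h3 (L + 1) (by omega)).trans ?_
    have h4 : Real.log L ≤ Real.log ((L + 1 : ℕ) : ℝ) :=
      Real.log_le_log (by exact_mod_cast (by omega : 0 < L)) (by push_cast; linarith)
    exact div_le_div_of_nonneg_left (by linarith) hlog h4
  have h4 : VV (ZW W b) 0 L = ∏ p ∈ (Pr 0 L).filter (fun p => ¬ p ∣ W), (1 - 1 / (p : ℝ)) := by
    unfold VV
    rw [prod_filter]
    apply prod_congr rfl
    intro p hp
    rw [hP, mem_filter] at hp
    by_cases hpW : p ∣ W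
    · rw [if_neg (not_not.2 hpW), (ZW_card W b p hb hp.2).2 hpW]
      simp
    · rw [if_pos hpW, ZW_card_eq W b p hb hp.2 hpW]
      simp
  have h5 : ∏ p ∈ Pr 0 L, (1 - 1 / (p : ℝ)) = VV (ZW W b) 0 L * ∏ p ∈ (Pr 0 L).filter (fun p => p ∣ W), (1 - 1 / (p : ℝ)) := by
    rw [h4, mul_comm, prod_filter_mul_prod_filter_not]
  have h6 : (W.totient : ℝ) / W = ∏ p ∈ W.primeFactors, (1 - 1 / (p : ℝ)) := by
    have h7 := Nat.totient_eq_mul_prod_factors W
    have h8 : (W.totient : ℝ) = W * ∏ p ∈ W.primeFactors, (1 - (p : ℝ)⁻¹) := by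
      have h9 := congrArg (fun t : ℚ => (t : ℝ)) h7
      push_cast at h9
      exact h9
    rw [h8]
    field_simp
  have h7 : (W.totient : ℝ) / W ≤ ∏ p ∈ (Pr 0 L).filter (fun p => p ∣ W), (1 - 1 / (p : ℝ)) := by
    have hsub : (Pr 0 L).filter (fun p => p ∣ W) ⊆ W.primeFactors := by
      intro p hp
      rw [mem_filter, hP, mem_filter] at hp
      exact Nat.mem_primeFactors.2 ⟨hp.1.2, hp.2, hW.ne'⟩
    rw [h6, ← prod_sdiff hsub]
    have hfac : ∀ p ∈ W.primeFactors, (0 : ℝ) ≤ 1 - 1 / (p : ℝ) ∧ 1 - 1 / (p : ℝ) ≤ 1 := by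
      intro p hp
      have h4 : (1 : ℝ) ≤ p := by exact_mod_cast (Nat.prime_of_mem_primeFactors hp).one_le
      have h5 : 1 / (p : ℝ) ≤ 1 := by rw [div_le_one (by linarith)]; exact h4
      have h6 : 0 ≤ 1 / (p : ℝ) := by positivity
      constructor <;> linarith
    have h8 : ∏ p ∈ W.primeFactors \ (Pr 0 L).filter (fun p => p ∣ W), (1 - 1 / (p : ℝ)) ≤ 1 :=
      prod_le_one (fun p hp => (hfac p (mem_sdiff.1 hp).1).1) (fun p hp => (hfac p (mem_sdiff.1 hp).1).2)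
    have h9 : 0 ≤ ∏ p ∈ (Pr 0 L).filter (fun p => p ∣ W), (1 - 1 / (p : ℝ)) :=
      prod_nonneg fun p hp => (hf p (mem_filter.1 hp).1).1
    calc _ ≤ 1 * ∏ p ∈ (Pr 0 L).filter (fun p => p ∣ W), (1 - 1 / (p : ℝ)) := mul_le_mul_of_nonneg_right h8 h9
      _ = _ := one_mul _
  have h8 : 0 ≤ VV (ZW W b) 0 L := by
    rw [h4]
    exact prod_nonneg fun p hp => (hf p (mem_filter.1 hp).1).1
  have h9 : VV (ZW W b) 0 L * ((W.totient : ℝ) / W) ≤ C / Real.log L := by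
    calc _ ≤ VV (ZW W b) 0 L * ∏ p ∈ (Pr 0 L).filter (fun p => p ∣ W), (1 - 1 / (p : ℝ)) := by gcongr
      _ = _ := h5.symm
      _ ≤ _ := hall
  calc VV (ZW W b) 0 L = (VV (ZW W b) 0 L * ((W.totient : ℝ) / W)) * ((W : ℝ) / W.totient) := by field_simp
    _ ≤ (C / Real.log L) * ((W : ℝ) / W.totient) := by gcongr
    _ = _ := by ring

/-- powers of the Fourier transform, for arbitrary coefficients bounded by the weight of the primes -/
lemma restr_sum (s : ℝ) (hs : 1 < s) : ∃ C : ℝ, 0 < C ∧ ∀ (Q b : ℕ), 0 < Q → b.Coprime Q → ∃ L0 : ℕ, ∀ L : ℕ, L0 ≤ L →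
      ∀ a : ℕ → ℂ, (∀ x, ‖a x‖ ≤ nuW Q b x) → ∀ M : ℕ, L ≤ M → M ≤ 6 * L →
      ∑ r ∈ range M, (‖∑ x ∈ Ioc L (L + L), a x * ee (x * ((r : ℝ) / M))‖ ^ 2) ^ s ≤ C * ((L : ℝ) ^ 2) ^ s := by
  obtain ⟨C1, hC1, hV⟩ := VV_le'
  obtain ⟨C2, hC2, hls⟩ := Pool.Agent.K7.H64.LS.lsp 1 (κ := 1) (by norm_num) hs
  refine ⟨C2 * (28 * C1) ^ s, by positivity, fun Q b hQ hb => ?_⟩
  have hQ0 : (0 : ℝ) < Q := by exact_mod_cast hQ
  have hQt : (0 : ℝ) < Q.totient := by exact_mod_cast Nat.totient_pos.2 hQ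
  obtain ⟨L1, hmean⟩ := nu_mean Q b hQ hb 1 one_pos
  refine ⟨max L1 (2 * Q + b + 2), fun L hL a ha M hM1 hM2 => ?_⟩
  have hL1 : L1 ≤ L := le_trans (le_max_left _ _) hL
  have hL2 : 2 * Q + b + 2 ≤ L := le_trans (le_max_right _ _) hL
  have hL2r : (2 : ℝ) ≤ L := by exact_mod_cast (by omega : 2 ≤ L)
  have hLpos : (0 : ℝ) < L := by linarith
  have hlogL0 : 0 < Real.log L := Real.log_pos (by linarith)
  set I := Ioc L (L + L) with hI
  set S := I.filter (fun x => a x ≠ 0) with hS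
  have hprime : ∀ x ∈ S, (Q * x + b).Prime := by
    intro x hx
    by_contra h
    have h3 := ha x
    unfold nuW th at h3
    rw [if_neg h, mul_zero] at h3
    exact (mem_filter.1 hx).2 (norm_le_zero_iff.1 h3)
  have hZ : ∀ q : ℕ, q.Prime → (q : ℝ) ≤ (L : ℝ) ^ (1 : ℝ) →
      (ZW Q b q).card ≤ 1 ∧ (ZW Q b q).card < q ∧ ∀ c ∈ ZW Q b q, c < q := by
    intro q hq _
    have h3 := (ZW_card Q b q hb hq).1
    refine ⟨h3, lt_of_le_of_lt h3 hq.one_lt, fun c hc => ?_⟩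
    unfold ZW at hc
    rw [mem_filter, mem_range] at hc
    exact hc.1
  have hSZ : ∀ n ∈ S, ∀ q : ℕ, q.Prime → (q : ℝ) ≤ (L : ℝ) ^ (1 : ℝ) → n % q ∉ ZW Q b q := by
    intro n hn q hq hqL hmem
    rw [Real.rpow_one] at hqL
    have hqL' : q ≤ L := by exact_mod_cast hqL
    have h3 := hprime n hn
    have h4 : q ∣ Q * n + b := by
      unfold ZW at hmem
      rw [mem_filter] at hmem
      have h5 : Q * (n % q) + b ≡ Q * n + b [MOD q] := by
        apply Nat.ModEq.add_right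
        exact Nat.ModEq.mul_left Q (Nat.mod_modEq n q)
      exact (Nat.ModEq.dvd_iff h5 dvd_rfl).1 hmem.2
    have h5 : q = Q * n + b := (Nat.prime_dvd_prime_iff_eq hq h3).1 h4
    have h6 : L < n := (mem_Ioc.1 (mem_filter.1 hn).1).1
    have h7 : 1 * n ≤ Q * n := Nat.mul_le_mul_right n hQ
    omega
  have hSI : S ⊆ Ioc L (L + L) := filter_subset _ _
  have hM0 : 1 ≤ M := by omega
  have key := hls L (by omega) L (ZW Q b) hZ S hSI hSZ ℕ (range M) (fun r => (r : ℝ) / M) M hM0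
    (fun i hi j hj hij => by
      have := Pool.Agent.K7.H64.LS.sep_grid (N := M) 0 (mem_range.1 hi) (mem_range.1 hj) hij
      simpa using this) a
  have hleft : ∀ r ∈ range M, (‖∑ x ∈ I, a x * ee (x * ((r : ℝ) / M))‖ ^ 2) ^ s =
      (‖∑ n ∈ S, a n * Pool.Agent.Helper112.ee (n * ((r : ℝ) / M))‖ ^ 2) ^ s := by
    intro r _
    have h3 : ∑ n ∈ S, a n * Pool.Agent.Helper112.ee (n * ((r : ℝ) / M)) = ∑ x ∈ I, a x * ee (x * ((r : ℝ) / M)) := by
      rw [hS, sum_filter]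
      apply sum_congr rfl
      intro x _
      by_cases h : a x = 0
      · rw [if_neg (not_not.2 h), h, zero_mul]
      · rw [if_pos h, ee_eq112]
    rw [h3]
  rw [sum_congr rfl hleft]
  refine key.trans ?_
  rw [mul_assoc C2 ((28 * C1) ^ s)]
  apply mul_le_mul_of_nonneg_left _ hC2.le
  have hsum1 : ∑ x ∈ I, nuW Q b x ≤ 2 * L := by
    have h3 := hmean L hL1
    rw [one_mul] at h3
    linarith [(abs_le.1 h3).2]
  have hnu : ∀ x ∈ I, nuW Q b x ≤ ((Q.totient : ℝ) / Q) * (2 * Real.log L) := by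
    intro x hx
    unfold nuW th
    split_ifs with h
    · have h3 : Q * x + b ≤ L ^ 2 := by
        have h4 : Q * x ≤ Q * (L + L) := Nat.mul_le_mul_left Q (mem_Ioc.1 hx).2
        have h5 : (2 * Q + b) * L ≤ L * L := Nat.mul_le_mul_right L (by omega)
        have h6 : b ≤ b * L := Nat.le_mul_of_pos_right b (by omega)
        nlinarith
      have h4 : (0 : ℝ) < ((Q * x + b : ℕ) : ℝ) := by exact_mod_cast h.pos
      have h5 : Real.log ((Q * x + b : ℕ) : ℝ) ≤ 2 * Real.log L := by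
        have := Real.log_le_log h4 (by exact_mod_cast h3 : ((Q * x + b : ℕ) : ℝ) ≤ ((L ^ 2 : ℕ) : ℝ))
        rw [Nat.cast_pow, Real.log_pow] at this
        exact_mod_cast this
      gcongr
    · rw [mul_zero]; positivity
  have hsq : ∑ n ∈ S, ‖a n‖ ^ 2 ≤ ((Q.totient : ℝ) / Q) * (2 * Real.log L) * (2 * L) := by
    calc ∑ n ∈ S, ‖a n‖ ^ 2 ≤ ∑ n ∈ I, ‖a n‖ ^ 2 :=
          sum_le_sum_of_subset_of_nonneg (filter_subset _ _) fun _ _ _ => by positivity
      _ ≤ ∑ n ∈ I, ((Q.totient : ℝ) / Q) * (2 * Real.log L) * nuW Q b n := by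
          apply sum_le_sum
          intro n hn
          rw [pow_two]
          exact mul_le_mul ((ha n).trans (hnu n hn)) (ha n) (norm_nonneg _) (by positivity)
      _ = ((Q.totient : ℝ) / Q) * (2 * Real.log L) * ∑ n ∈ I, nuW Q b n := by rw [mul_sum]
      _ ≤ _ := by gcongr
  have hV1 := hV Q b L hQ hb (by omega)
  have hfl : ⌊(L : ℝ) ^ (1 : ℝ)⌋₊ = L := by rw [Real.rpow_one, Nat.floor_natCast]
  rw [hfl]
  have hM3 : (M : ℝ) ≤ 6 * L := by exact_mod_cast hM2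
  have hVnn : 0 ≤ VV (ZW Q b) 0 L := by
    unfold VV
    apply prod_nonneg
    intro p hp
    unfold Pr at hp
    rw [mem_filter] at hp
    have h3 := (ZW_card Q b p hb hp.2).1
    have h4 : (1 : ℝ) ≤ p := by exact_mod_cast hp.2.one_le
    have h5 : (((ZW Q b p).card : ℕ) : ℝ) ≤ 1 := by exact_mod_cast h3
    rw [sub_nonneg, div_le_one (by linarith)]
    linarith
  have hsum0 : 0 ≤ ∑ n ∈ S, ‖a n‖ ^ 2 := sum_nonneg fun _ _ => by positivity
  have hR : ((L : ℝ) + M) * VV (ZW Q b) 0 L * ∑ n ∈ S, ‖a n‖ ^ 2 ≤ 28 * C1 * (L : ℝ) ^ 2 := by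
    calc ((L : ℝ) + M) * VV (ZW Q b) 0 L * ∑ n ∈ S, ‖a n‖ ^ 2 ≤
          ((L : ℝ) + 6 * L) * (C1 * ((Q : ℝ) / Q.totient) / Real.log L) * (((Q.totient : ℝ) / Q) * (2 * Real.log L) * (2 * L)) := by gcongr
      _ = _ := by field_simp; ring
  calc (((L : ℝ) + M) * VV (ZW Q b) 0 L * ∑ n ∈ S, ‖a n‖ ^ 2) ^ s ≤ (28 * C1 * (L : ℝ) ^ 2) ^ s :=
        Real.rpow_le_rpow (by positivity) hR (by linarith)
    _ = (28 * C1) ^ s * ((L : ℝ) ^ 2) ^ s := by
        rw [Real.mul_rpow (by positivity) (by positivity)]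

end Pool.Agent.H566
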