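import Mathlib

/-!
Polynomials near a point where they are coprime to a primorial.
-/

set_option autoImplicit false

namespace Pool.Agent.H566

open Finset Polynomial

lemma poly_pos (f : ℤ[X]) (hl : 0 < f.leadingCoeff) : ∃ M : ℕ, ∀ m : ℕ, M ≤ m → 0 < f.eval (m : ℤ) := by
  rcases Nat.eq_zero_or_pos f.natDegree with h0 | h0
  · refine ⟨0, fun m _ => ?_⟩
    rw [eq_C_of_natDegree_eq_zero h0, eval_C]
    rw [leadingCoeff, h0] at hl
    exact hl
  · have hinj : Function.Injective (Int.castRingHom ℝ) := Int.cast_injective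
    have h1 : 0 < (f.map (Int.castRingHom ℝ)).degree := by
      rw [degree_map_eq_of_injective hinj]
      exact natDegree_pos_iff_degree_pos.1 h0
    have h2 : 0 ≤ (f.map (Int.castRingHom ℝ)).leadingCoeff := by
      rw [leadingCoeff_map_of_injective hinj]
      simp only [eq_intCast, Int.cast_nonneg_iff]
      exact hl.le
    have h3 := tendsto_atTop_of_leadingCoeff_nonneg _ h1 h2
    have h4 := (h3.comp tendsto_natCast_atTop_atTop).eventually_gt_atTop 0
    rw [Filter.eventually_atTop] at h4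
    obtain ⟨M, hM⟩ := h4
    refine ⟨M, fun m hm => ?_⟩
    have h5 := hM m hm
    simp only [Function.comp] at h5
    have h6 : eval ((m : ℕ) : ℝ) (f.map (Int.castRingHom ℝ)) = ((f.eval (m : ℤ) : ℤ) : ℝ) := by
      simp
    rw [h6] at h5
    exact_mod_cast h5

lemma taylor_pos (R : ℤ[X]) (hl : 0 < R.leadingCoeff) : ∃ M : ℕ, ∀ m : ℕ, M ≤ m → ∀ j ≤ R.natDegree,
    0 < (taylor (m : ℤ) R).coeff j := by
  have h1 : ∀ j ≤ R.natDegree, ∃ M : ℕ, ∀ m : ℕ, M ≤ m → 0 < (taylor (m : ℤ) R).coeff j := by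
    intro j hj
    have h2 : 0 < (hasseDeriv j R).leadingCoeff := by
      have h3 : (hasseDeriv j R).natDegree = R.natDegree - j := natDegree_hasseDeriv R j
      rw [leadingCoeff, h3, hasseDeriv_coeff, Nat.sub_add_cancel hj]
      have h4 : 0 < R.natDegree.choose j := Nat.choose_pos hj
      exact mul_pos (by exact_mod_cast h4) hl
    obtain ⟨M, hM⟩ := poly_pos _ h2
    refine ⟨M, fun m hm => ?_⟩
    rw [taylor_coeff]
    exact hM m hm
  choose! F hF using h1
  refine ⟨(range (R.natDegree + 1)).sup F, fun m hm j hj => hF j hj m (le_trans ?_ hm)⟩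
  exact le_sup (f := F) (mem_range.2 (by omega))

/-- the part of an integer made of given primes -/
lemma smooth_part (P : ℕ) : ∀ c : ℕ, 0 < c → ∃ D : ℕ, 0 < D ∧ D ∣ c ∧ (∀ l : ℕ, l.Prime → l ∣ D → l ∣ P) ∧ (c / D).Coprime P := by
  intro c
  induction c using Nat.strong_induction_on with
  | _ c ih =>
    intro hc
    by_cases h : c.Coprime P
    · exact ⟨1, one_pos, one_dvd _, fun l hl h1 => absurd (Nat.dvd_one.1 h1) hl.ne_one, by rwa [Nat.div_one]⟩
    · obtain ⟨l, hl, h1, h2⟩ := Nat.Prime.not_coprime_iff_dvd.1 h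
      obtain ⟨c', rfl⟩ := h1
      have hc' : 0 < c' := Nat.pos_of_mul_pos_left hc
      obtain ⟨D, hD0, hD, hDl, hcop⟩ := ih c' (by have := hl.two_le; nlinarith) hc'
      refine ⟨l * D, Nat.mul_pos hl.pos hD0, Nat.mul_dvd_mul_left l hD, ?_, ?_⟩
      · intro l' hl' h3
        rcases (Nat.Prime.dvd_mul hl').1 h3 with h4 | h4
        · rw [(Nat.prime_dvd_prime_iff_eq hl' hl).1 h4]
          exact h2
        · exact hDl l' hl' h4
      · rw [Nat.mul_div_mul_left _ _ hl.pos]
        exact hcop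

/-- the residue class -/
lemma good_class (R : ℤ[X]) (hloc : ∀ l : ℕ, l.Prime → ∃ m : ℕ, 2 ∣ R.eval (m : ℤ) ∧ ¬ (l : ℤ) ∣ R.eval (m : ℤ) / 2)
    (w M : ℕ) : ∃ m : ℕ, M ≤ m ∧ 2 ∣ R.eval (m : ℤ) ∧ ∀ l : ℕ, l.Prime → l ≤ w → ¬ (l : ℤ) ∣ R.eval (m : ℤ) / 2 := by
  choose! a ha1 ha2 using hloc
  set S : Finset ℕ := (range (w + 1)).filter (fun l => l.Prime ∧ l ≠ 2) with hS
  have hcop : ∀ i ∈ insert 2 S, ∀ j ∈ insert 2 S, i ≠ j → Nat.Coprime ((fun l => if l = 2 then 4 else l) i) ((fun l => if l = 2 then 4 else l) j) := by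
    intro i hi j hj hij
    have hip : i.Prime := by
      rcases mem_insert.1 hi with rfl | h
      · exact Nat.prime_two
      · rw [hS, mem_filter] at h; exact h.2.1
    have hjp : j.Prime := by
      rcases mem_insert.1 hj with rfl | h
      · exact Nat.prime_two
      · rw [hS, mem_filter] at h; exact h.2.1
    have h1 : i.Coprime j := (Nat.coprime_primes hip hjp).2 hij
    simp only
    split_ifs with h2 h3 h3
    · omega
    · rw [h2] at h1
      have : Nat.Coprime (2 ^ 2) j := Nat.Coprime.pow_left 2 h1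
      simpa using this
    · rw [h3] at h1
      have : Nat.Coprime i (2 ^ 2) := Nat.Coprime.pow_right 2 h1
      simpa using this
    · exact h1
  have hpw : Set.Pairwise (↑(insert 2 S) : Set ℕ) (Function.onFun Nat.Coprime (fun l => if l = 2 then 4 else l)) := by
    intro i hi j hj hij
    exact hcop i (mem_coe.1 hi) j (mem_coe.1 hj) hij
  have hne : ∀ i ∈ insert 2 S, (fun l => if l = 2 then 4 else l) i ≠ 0 := by
    intro i hi
    simp only
    split_ifs with h
    · norm_num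
    · rcases mem_insert.1 hi with rfl | h'
      · exact absurd rfl h
      · rw [hS, mem_filter] at h'; exact h'.2.1.ne_zero
  set r := Nat.chineseRemainderOfFinset a (fun l => if l = 2 then 4 else l) (insert 2 S) hne hpw with hr
  set PP := ∏ l ∈ insert 2 S, (fun l => if l = 2 then 4 else l) l with hPP
  have hPP0 : 0 < PP := prod_pos fun i hi => Nat.pos_of_ne_zero (hne i hi)
  set m : ℕ := (r : ℕ) + M * PP with hm
  have hmod : ∀ i ∈ insert 2 S, m ≡ a i [MOD (if i = 2 then 4 else i)] := by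
    intro i hi
    have h1 := r.2 i hi
    have h2 : (if i = 2 then 4 else i) ∣ M * PP := Dvd.dvd.mul_left (dvd_prod_of_mem (fun l => if l = 2 then 4 else l) hi) M
    have h3 : (r : ℕ) + M * PP ≡ (r : ℕ) + 0 [MOD (if i = 2 then 4 else i)] :=
      Nat.ModEq.add_left _ ((Nat.modEq_zero_iff_dvd).2 h2)
    rw [add_zero] at h3
    exact h3.trans h1
  have hdvd : ∀ i ∈ insert 2 S, (((if i = 2 then 4 else i : ℕ)) : ℤ) ∣ R.eval (m : ℤ) - R.eval ((a i : ℕ) : ℤ) := by
    intro i hi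
    have h1 := (Nat.modEq_iff_dvd.1 (hmod i hi).symm)
    exact h1.trans (sub_dvd_eval_sub _ _ R)
  have h2a := ha1 2 Nat.prime_two
  have h2b := ha2 2 Nat.prime_two
  have h4 := hdvd 2 (mem_insert_self _ _)
  rw [if_pos rfl] at h4
  push_cast at h4 h2b
  refine ⟨m, ?_, ?_, ?_⟩
  · rw [hm]
    have : M ≤ M * PP := Nat.le_mul_of_pos_right M hPP0
    omega
  · omega
  · intro l hl hlw hdiv
    by_cases hl2 : l = 2
    · subst hl2
      push_cast at hdiv
      omega
    · have hlS : l ∈ insert 2 S := mem_insert_of_mem (by rw [hS, mem_filter, mem_range]; exact ⟨by omega, hl, hl2⟩)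
      have h5 := hdvd l hlS
      rw [if_neg hl2] at h5
      have h6 : (l : ℤ) ∣ R.eval (m : ℤ) := by
        have h7 : 2 ∣ R.eval (m : ℤ) := by omega
        rw [← Int.mul_ediv_cancel' h7]
        exact Dvd.dvd.mul_left hdiv 2
      have h7 : (l : ℤ) ∣ R.eval ((a l : ℕ) : ℤ) := by
        have := dvd_sub h6 h5
        simpa using this
      have h8 := ha1 l hl
      rw [← Int.mul_ediv_cancel' h8] at h7
      have hlp : Prime (l : ℤ) := Nat.prime_iff_prime_int.1 hl
      rcases hlp.dvd_or_dvd h7 with h9 | h9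
      · have h10 : l ∣ 2 := by exact_mod_cast h9
        exact hl2 ((Nat.prime_dvd_prime_iff_eq hl Nat.prime_two).1 h10)
      · exact ha2 l hl h9

/-- the polynomial near a good point -/
theorem ks_data (R : ℤ[X]) (hl : 0 < R.leadingCoeff) (hd : 1 ≤ R.natDegree)
    (hloc : ∀ l : ℕ, l.Prime → ∃ m : ℕ, 2 ∣ R.eval (m : ℤ) ∧ ¬ (l : ℤ) ∣ R.eval (m : ℤ) / 2) (w : ℕ) :
    ∃ (m₀ Q' Q x₀ : ℕ) (T : ℤ[X]), 0 < m₀ ∧ 0 < Q' ∧ 0 < Q ∧ 0 < x₀ ∧ x₀.Coprime Q ∧
      (∀ l : ℕ, l.Prime → (l ∣ Q' ↔ l ≤ w)) ∧ (∀ l : ℕ, l.Prime → (l ∣ Q ↔ l ≤ w)) ∧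
      (∀ k : ℕ, R.eval ((m₀ + Q' * k : ℕ) : ℤ) = 2 * x₀ + Q * T.eval (k : ℤ)) ∧
      T.coeff 0 = 0 ∧ T.natDegree = R.natDegree ∧ (∀ j, 0 ≤ T.coeff j) ∧ 0 < T.leadingCoeff ∧ 0 < T.coeff 1 ∧
      (∀ l : ℕ, l.Prime → l ≤ w → ¬ (l : ℤ) ∣ T.coeff 1 ∧ ∀ j, 2 ≤ j → (l : ℤ) ∣ T.coeff j) := by
  obtain ⟨M, hM⟩ := taylor_pos R hl
  obtain ⟨m₀, hm₀', hev, hcl⟩ := good_class R hloc w (M + 1)
  have hm₀ : M ≤ m₀ := by omega
  set P : ℕ := ∏ l ∈ (range (w + 1)).filter Nat.Prime, l with hP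
  have hP0 : 0 < P := prod_pos fun l hl => (mem_filter.1 hl).2.pos
  have hPdvd : ∀ l : ℕ, l.Prime → (l ∣ P ↔ l ≤ w) := by
    intro l hl
    constructor
    · intro h
      rw [hP, Prime.dvd_finsetProd_iff (Nat.prime_iff.1 hl)] at h
      obtain ⟨l', hl', h1⟩ := h
      rw [mem_filter, mem_range] at hl'
      rw [(Nat.prime_dvd_prime_iff_eq hl hl'.2).1 h1]
      omega
    · intro h
      exact dvd_prod_of_mem _ (mem_filter.2 ⟨mem_range.2 (by omega), hl⟩)
  set d := R.natDegree with hdd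
  set c : ℕ → ℤ := fun j => (taylor (m₀ : ℤ) R).coeff j with hc
  have hcpos : ∀ j ≤ d, 0 < c j := fun j hj => hM m₀ hm₀ j hj
  obtain ⟨c1, hc1⟩ : ∃ n : ℕ, c 1 = n := ⟨(c 1).toNat, (Int.toNat_of_nonneg (hcpos 1 hd).le).symm⟩
  have hc1pos : 0 < c1 := by
    have := hcpos 1 hd
    rw [hc1] at this
    exact_mod_cast this
  obtain ⟨D, hD0, hDc, hDl, hDcop⟩ := smooth_part P c1 hc1pos
  set t : ℕ → ℤ := fun j => if j = 0 then 0 else if j = 1 then ((c1 / D : ℕ) : ℤ) else c j * (P : ℤ) ^ (j - 1) * (D : ℤ) ^ (j - 2) with ht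
  set T : ℤ[X] := ∑ j ∈ range (d + 1), monomial j (t j) with hT
  have hTc : ∀ j, T.coeff j = if j < d + 1 then t j else 0 := by
    intro j
    rw [hT, finsetSum_coeff]
    simp only [coeff_monomial]
    rw [sum_ite_eq' (range (d + 1)) j]
    simp only [mem_range]
  have htpos : ∀ j, 1 ≤ j → j ≤ d → 0 < t j := by
    intro j hj1 hjd
    simp only [ht]
    rw [if_neg (by omega)]
    split_ifs with h
    · have : 0 < c1 / D := Nat.div_pos (Nat.le_of_dvd hc1pos hDc) hD0
      exact_mod_cast this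
    · have := hcpos j hjd
      positivity
  have hx₀ : 0 < R.eval (m₀ : ℤ) := by
    have h1 := hcpos 0 (by omega)
    simp only [hc, taylor_coeff_zero] at h1
    exact h1
  obtain ⟨x₀, hx₀e⟩ : ∃ x : ℕ, R.eval (m₀ : ℤ) = 2 * x := ⟨(R.eval (m₀ : ℤ) / 2).toNat, by omega⟩
  have hx₀2 : R.eval (m₀ : ℤ) / 2 = x₀ := by omega
  have hx₀c : ∀ l : ℕ, l.Prime → l ≤ w → ¬ l ∣ x₀ := by
    intro l hl hlw h
    apply hcl l hl hlw
    rw [hx₀2]
    exact_mod_cast h
  have hQd : ∀ l : ℕ, l.Prime → (l ∣ P * D ^ 2 ↔ l ≤ w) := by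
    intro l hl
    constructor
    · intro h
      rcases (Nat.Prime.dvd_mul hl).1 h with h1 | h1
      · exact (hPdvd l hl).1 h1
      · exact (hPdvd l hl).1 (hDl l hl (Nat.Prime.dvd_of_dvd_pow hl h1))
    · intro h
      exact Dvd.dvd.mul_right ((hPdvd l hl).2 h) _
  refine ⟨m₀, P * D, P * D ^ 2, x₀, T, by omega, by positivity, by positivity, by omega, ?_, ?_, hQd, ?_, ?_, ?_, ?_, ?_, ?_, ?_⟩
  · by_contra h
    obtain ⟨l, hl, h1, h2⟩ := Nat.Prime.not_coprime_iff_dvd.1 h
    exact hx₀c l hl ((hQd l hl).1 h2) h1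
  · intro l hl
    constructor
    · intro h
      rcases (Nat.Prime.dvd_mul hl).1 h with h1 | h1
      · exact (hPdvd l hl).1 h1
      · exact (hPdvd l hl).1 (hDl l hl h1)
    · intro h
      exact Dvd.dvd.mul_right ((hPdvd l hl).2 h) _
  · intro k
    have h1 : R.eval ((m₀ + P * D * k : ℕ) : ℤ) = (taylor (m₀ : ℤ) R).eval ((P * D * k : ℕ) : ℤ) := by
      rw [taylor_eval]
      congr 1
      push_cast
      ring
    have h2 : (taylor (m₀ : ℤ) R).natDegree = d := natDegree_taylor R _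
    rw [h1, eval_eq_sum_range, h2, hT, eval_finsetSum, mul_sum, sum_range_succ', sum_range_succ']
    have h3 : (taylor (m₀ : ℤ) R).coeff 0 * ((P * D * k : ℕ) : ℤ) ^ 0 = 2 * x₀ := by
      rw [taylor_coeff_zero, pow_zero, mul_one, hx₀e]
    have h4 : ((P * D ^ 2 : ℕ) : ℤ) * eval (k : ℤ) (monomial 0 (t 0)) = 0 := by
      simp [ht]
    rw [h3, h4, add_zero, add_comm]
    congr 1
    apply sum_congr rfl
    intro j hj
    rw [mem_range] at hj
    rw [eval_monomial]
    have h5 : (taylor (m₀ : ℤ) R).coeff (j + 1) = c (j + 1) := rfl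
    rw [h5]
    simp only [ht]
    rw [if_neg (by omega)]
    by_cases hj0 : j = 0
    · subst hj0
      rw [if_pos rfl, zero_add, hc1]
      have h6 : ((c1 / D : ℕ) : ℤ) * D = c1 := by exact_mod_cast Nat.div_mul_cancel hDc
      rw [← h6]
      push_cast
      ring
    · rw [if_neg (by omega)]
      obtain ⟨i, rfl⟩ : ∃ i, j = i + 1 := ⟨j - 1, by omega⟩
      have e1 : i + 1 + 1 - 1 = i + 1 := by omega
      have e2 : i + 1 + 1 - 2 = i := by omega
      rw [e1, e2]
      push_cast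
      ring
  · rw [hTc, if_pos (by omega)]
    simp [ht]
  · apply le_antisymm
    · rw [hT]
      apply natDegree_sum_le_of_forall_le
      intro j hj
      exact (natDegree_monomial_le _).trans (by rw [mem_range] at hj; omega)
    · apply le_natDegree_of_ne_zero
      rw [hTc, if_pos (by omega)]
      exact (htpos d hd le_rfl).ne'
  · intro j
    rw [hTc]
    split_ifs with h
    · rcases Nat.eq_zero_or_pos j with h1 | h1
      · simp [ht, h1]
      · exact (htpos j h1 (by omega)).le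
    · exact le_rfl
  · have h1 : T.natDegree = d := by
      apply le_antisymm
      · rw [hT]
        apply natDegree_sum_le_of_forall_le
        intro j hj
        exact (natDegree_monomial_le _).trans (by rw [mem_range] at hj; omega)
      · apply le_natDegree_of_ne_zero
        rw [hTc, if_pos (by omega)]
        exact (htpos d hd le_rfl).ne'
    rw [leadingCoeff, h1, hTc, if_pos (by omega)]
    exact htpos d hd le_rfl
  · rw [hTc, if_pos (by omega)]
    exact htpos 1 le_rfl hd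
  · intro l hl hlw
    constructor
    · rw [hTc, if_pos (by omega)]
      simp only [ht]
      rw [if_neg (by omega)]
      simp only [if_true]
      intro h
      have h1 : l ∣ c1 / D := by exact_mod_cast h
      exact Nat.Prime.not_coprime_iff_dvd.2 ⟨l, hl, h1, (hPdvd l hl).2 hlw⟩ hDcop
    · intro j hj
      rw [hTc]
      split_ifs with h
      · simp only [ht]
        rw [if_neg (by omega), if_neg (by omega)]
        have h1 : (l : ℤ) ∣ (P : ℤ) ^ (j - 1) := by
          have h2 : (l : ℤ) ∣ (P : ℤ) := by exact_mod_cast (hPdvd l hl).2 hlw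
          exact h2.trans (dvd_pow_self _ (by omega))
        exact Dvd.dvd.mul_right (Dvd.dvd.mul_left h1 _) _
      · exact dvd_zero _

end Pool.Agent.H566
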