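import Mathlib
import Pool.Graph.R_seed8.H807R2.Dav1

/-!
Weighted exponential sums over a convex sequence of integers.
-/

set_option autoImplicit false

namespace Pool.Agent.H566

open Finset
open Pool.Agent.H807R2.Dav

/-- differences -/
def Dl (τ : ℕ → ℕ) (k : ℕ) : ℕ := τ (k + 1) - τ k

/-- the weighted exponential sum -/
noncomputable def SSt (τ : ℕ → ℕ) (N : ℕ) (α : ℝ) : ℂ := ∑ k ∈ range N, ((Dl τ k : ℕ) : ℂ) * ee (τ k * α)

/-- the linear exponential sum -/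
noncomputable def UU (X : ℕ) (α : ℝ) : ℂ := ∑ n ∈ range X, ee (n * α)

lemma ee_sub_one_le' (x : ℝ) : ‖ee x - 1‖ ≤ 2 * Real.pi * |x| := by
  have h := Real.norm_exp_I_mul_ofReal_sub_one_le (x := 2 * Real.pi * x)
  have e : ee x = Complex.exp (Complex.I * ((2 * Real.pi * x : ℝ) : ℂ)) := by
    unfold ee
    congr 1
    push_cast
    ring
  rw [e]
  refine h.trans ?_
  rw [Real.norm_eq_abs, abs_mul, abs_of_pos (by positivity)]

lemma ee_sub_le (x y : ℝ) : ‖ee x - ee y‖ ≤ 2 * Real.pi * |x - y| := by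
  have h : ee x - ee y = ee y * (ee (x - y) - 1) := by
    rw [mul_sub, ← ee_add, mul_one]
    congr 2
    ring
  rw [h, norm_mul, norm_ee, one_mul]
  exact ee_sub_one_le' _

lemma sum_Dl (τ : ℕ → ℕ) (h0 : τ 0 = 0) (hm : ∀ k, τ k ≤ τ (k + 1)) (N : ℕ) : ∑ k ∈ range N, Dl τ k = τ N := by
  induction N with
  | zero => simp [h0]
  | succ n ih =>
    rw [sum_range_succ, ih, Dl]
    have := hm n
    omega

lemma SSt_UU (τ : ℕ → ℕ) (h0 : τ 0 = 0) (hm : ∀ k, τ k ≤ τ (k + 1)) (N : ℕ) (β : ℝ) (V : ℕ) (hV : ∀ k < N, Dl τ k ≤ V) :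
    ‖SSt τ N β - UU (τ N) β‖ ≤ 2 * Real.pi * |β| * (τ N) * V := by
  induction N with
  | zero => simp [SSt, UU, h0]
  | succ n ih =>
    have ih' := ih (fun k hk => hV k (by omega))
    have hmn := hm n
    have h1 : SSt τ (n + 1) β = SSt τ n β + ((Dl τ n : ℕ) : ℂ) * ee (τ n * β) := by
      unfold SSt
      rw [sum_range_succ]
    have h2 : UU (τ (n + 1)) β = UU (τ n) β + ∑ m ∈ Ico (τ n) (τ (n + 1)), ee (m * β) := by
      unfold UU
      rw [← sum_range_add_sum_Ico _ hmn]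
    have h3 : ((Dl τ n : ℕ) : ℂ) * ee (τ n * β) = ∑ m ∈ Ico (τ n) (τ (n + 1)), ee (τ n * β) := by
      rw [sum_const, Nat.card_Ico, nsmul_eq_mul]
      rfl
    have h4 : SSt τ (n + 1) β - UU (τ (n + 1)) β = (SSt τ n β - UU (τ n) β) +
        ∑ m ∈ Ico (τ n) (τ (n + 1)), (ee (τ n * β) - ee (m * β)) := by
      rw [h1, h2, h3, sum_sub_distrib]
      ring
    rw [h4]
    have h5 : ‖∑ m ∈ Ico (τ n) (τ (n + 1)), (ee (τ n * β) - ee (m * β))‖ ≤ (Dl τ n : ℝ) * (2 * Real.pi * |β| * V) := by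
      refine (norm_sum_le _ _).trans ?_
      have h6 : ∀ m ∈ Ico (τ n) (τ (n + 1)), ‖ee (τ n * β) - ee (m * β)‖ ≤ 2 * Real.pi * |β| * V := by
        intro m hm'
        rw [mem_Ico] at hm'
        refine (ee_sub_le _ _).trans ?_
        have h7 : |(τ n : ℝ) * β - m * β| ≤ |β| * V := by
          rw [← sub_mul, abs_mul, mul_comm]
          apply mul_le_mul_of_nonneg_left _ (abs_nonneg _)
          have h8 : (m : ℝ) - τ n ≤ V := by
            have h9 := hV n (by omega)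
            unfold Dl at h9
            have : m ≤ τ n + V := by omega
            have : (m : ℝ) ≤ τ n + V := by exact_mod_cast this
            linarith
          have h10 : (τ n : ℝ) ≤ m := by exact_mod_cast hm'.1
          rw [abs_sub_comm, abs_of_nonneg (by linarith)]
          exact h8
        calc 2 * Real.pi * |(τ n : ℝ) * β - m * β| ≤ 2 * Real.pi * (|β| * V) := by gcongr
          _ = _ := by ring
      refine (sum_le_sum h6).trans ?_
      rw [sum_const, Nat.card_Ico, nsmul_eq_mul]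
      rfl
    have h6 : (τ (n + 1) : ℝ) = τ n + Dl τ n := by
      unfold Dl
      rw [Nat.cast_sub hmn]
      ring
    calc _ ≤ 2 * Real.pi * |β| * (τ n) * V + (Dl τ n : ℝ) * (2 * Real.pi * |β| * V) := (norm_add_le _ _).trans (add_le_add ih' h5)
      _ = _ := by rw [h6]; ring

/-- partial summation -/
lemma abel_le (g c : ℕ → ℂ) (N : ℕ) (hN : 1 ≤ N) (B : ℝ) (hB : ∀ n ≤ N, ‖∑ k ∈ range n, c k‖ ≤ B) :
    ‖∑ k ∈ range N, g k * c k‖ ≤ B * (‖g (N - 1)‖ + ∑ k ∈ range (N - 1), ‖g (k + 1) - g k‖) := by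
  have h := sum_range_by_parts g c N
  simp only [smul_eq_mul] at h
  rw [h]
  refine (norm_sub_le _ _).trans ?_
  rw [mul_add, norm_mul, mul_comm B]
  apply add_le_add
  · exact mul_le_mul_of_nonneg_left (hB N le_rfl) (norm_nonneg _)
  · refine (norm_sum_le _ _).trans ?_
    rw [mul_sum]
    apply sum_le_sum
    intro k hk
    rw [mem_range] at hk
    rw [norm_mul, mul_comm B]
    exact mul_le_mul_of_nonneg_left (hB _ (by omega)) (norm_nonneg _)

lemma sum_Dl_diff (τ : ℕ → ℕ) (hc : ∀ k, Dl τ k ≤ Dl τ (k + 1)) (N : ℕ) :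
    ∑ k ∈ range (N - 1), ‖((Dl τ (k + 1) : ℕ) : ℂ) - ((Dl τ k : ℕ) : ℂ)‖ ≤ Dl τ (N - 1) := by
  have h1 : ∀ k ∈ range (N - 1), ‖((Dl τ (k + 1) : ℕ) : ℂ) - ((Dl τ k : ℕ) : ℂ)‖ = (Dl τ (k + 1) : ℝ) - Dl τ k := by
    intro k _
    have h2 : (Dl τ k : ℝ) ≤ Dl τ (k + 1) := by exact_mod_cast hc k
    have h3 : ((Dl τ (k + 1) : ℕ) : ℂ) - ((Dl τ k : ℕ) : ℂ) = (((Dl τ (k + 1) : ℝ) - Dl τ k : ℝ) : ℂ) := by push_cast; rfl
    rw [h3, Complex.norm_real, Real.norm_eq_abs, abs_of_nonneg (by linarith)]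
  rw [sum_congr rfl h1, sum_range_sub (fun k => (Dl τ k : ℝ))]
  have : (0 : ℝ) ≤ Dl τ 0 := Nat.cast_nonneg _
  linarith

/-- from the unweighted sums to the weighted one -/
lemma SSt_le (τ : ℕ → ℕ) (hc : ∀ k, Dl τ k ≤ Dl τ (k + 1)) (N : ℕ) (hN : 1 ≤ N) (α B : ℝ)
    (hB : ∀ n ≤ N, ‖∑ k ∈ range n, ee (τ k * α)‖ ≤ B) : ‖SSt τ N α‖ ≤ 2 * Dl τ (N - 1) * B := by
  have h1 := abel_le (fun k => ((Dl τ k : ℕ) : ℂ)) (fun k => ee (τ k * α)) N hN B hB
  have h2 := sum_Dl_diff τ hc N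
  have hB0 : 0 ≤ B := (norm_nonneg _).trans (hB 0 (by omega))
  unfold SSt
  refine h1.trans ?_
  have h3 : ‖((Dl τ (N - 1) : ℕ) : ℂ)‖ = Dl τ (N - 1) := Complex.norm_natCast _
  rw [h3]
  calc B * ((Dl τ (N - 1) : ℝ) + ∑ k ∈ range (N - 1), ‖((Dl τ (k + 1) : ℕ) : ℂ) - ((Dl τ k : ℕ) : ℂ)‖) ≤
        B * (Dl τ (N - 1) + Dl τ (N - 1)) := by gcongr
    _ = _ := by ring

/-- bounded partial sums of a periodic sequence minus its mean -/
lemma periodic_sum (c : ℕ → ℂ) (q : ℕ) (hq : 1 ≤ q) (hper : ∀ k, c (k + q) = c k) (hc : ∀ k, ‖c k‖ ≤ 1) (A : ℂ)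
    (hA : A = (∑ r ∈ range q, c r) / q) (n : ℕ) : ‖∑ k ∈ range n, (c k - A)‖ ≤ 2 * q := by
  have hq0 : (q : ℂ) ≠ 0 := by exact_mod_cast (by omega : q ≠ 0)
  have hA1 : ‖A‖ ≤ 1 := by
    rw [hA, norm_div, Complex.norm_natCast, div_le_one (by exact_mod_cast hq)]
    refine (norm_sum_le _ _).trans ((sum_le_sum fun r _ => hc r).trans ?_)
    simp
  have hfull : ∑ k ∈ range q, (c k - A) = 0 := by
    rw [sum_sub_distrib, sum_const, card_range, nsmul_eq_mul, hA]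
    field_simp
    ring
  induction n using Nat.strong_induction_on with
  | _ n ih =>
    rcases lt_or_ge n q with h | h
    · refine (norm_sum_le _ _).trans ?_
      have h1 : ∀ k ∈ range n, ‖c k - A‖ ≤ 2 := by
        intro k _
        refine (norm_sub_le _ _).trans ?_
        have := hc k
        linarith
      refine (sum_le_sum h1).trans ?_
      rw [sum_const, card_range, nsmul_eq_mul, mul_comm]
      have : (n : ℝ) ≤ q := by exact_mod_cast h.le
      linarith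
    · obtain ⟨m, rfl⟩ := Nat.exists_eq_add_of_le h
      have h1 : ∑ k ∈ range (q + m), (c k - A) = ∑ k ∈ range m, (c k - A) := by
        rw [sum_range_add, hfull, zero_add]
        apply sum_congr rfl
        intro k _
        rw [add_comm q k, hper]
      rw [h1]
      exact ih m (by omega)

/-- approximation near a fraction -/
lemma SSt_major (τ : ℕ → ℕ) (h0 : τ 0 = 0) (hm : ∀ k, τ k ≤ τ (k + 1)) (hc : ∀ k, Dl τ k ≤ Dl τ (k + 1)) (N : ℕ) (hN : 1 ≤ N)
    (q : ℕ) (hq : 1 ≤ q) (a : ℤ) (hper : ∀ k, (q : ℤ) ∣ (τ (k + q) : ℤ) - τ k) (β : ℝ) :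
    ‖SSt τ N ((a : ℝ) / q + β) - (∑ r ∈ range q, ee (τ r * ((a : ℝ) / q))) / q * SSt τ N β‖ ≤
      4 * q * Dl τ (N - 1) * (1 + Real.pi * |β| * τ N) := by
  set A : ℂ := (∑ r ∈ range q, ee (τ r * ((a : ℝ) / q))) / q with hA
  have hqr : (0 : ℝ) < q := by exact_mod_cast hq
  have hperc : ∀ k, ee ((τ (k + q) : ℝ) * ((a : ℝ) / q)) = ee (τ k * ((a : ℝ) / q)) := by
    intro k
    obtain ⟨z, hz⟩ := hper k
    have h1 : (τ (k + q) : ℝ) * ((a : ℝ) / q) = τ k * ((a : ℝ) / q) + ((z * a : ℤ) : ℝ) := by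
      have h2 : (τ (k + q) : ℝ) = τ k + q * z := by
        have h3 : (τ (k + q) : ℤ) = τ k + q * z := by linarith
        exact_mod_cast h3
      rw [h2]
      push_cast
      field_simp
    rw [h1, ee_add_int]
  have hps := periodic_sum (fun k => ee (τ k * ((a : ℝ) / q))) q hq hperc (fun k => (norm_ee _).le) A hA
  have h1 : SSt τ N ((a : ℝ) / q + β) - A * SSt τ N β =
      ∑ k ∈ range N, (((Dl τ k : ℕ) : ℂ) * ee (τ k * β)) * (ee (τ k * ((a : ℝ) / q)) - A) := by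
    unfold SSt
    rw [mul_sum, ← sum_sub_distrib]
    apply sum_congr rfl
    intro k _
    rw [mul_add, ee_add]
    ring
  rw [h1]
  have h2 := abel_le (fun k => ((Dl τ k : ℕ) : ℂ) * ee (τ k * β)) (fun k => ee (τ k * ((a : ℝ) / q)) - A) N hN (2 * q)
    (fun n _ => hps n)
  refine h2.trans ?_
  have h3 : ‖((Dl τ (N - 1) : ℕ) : ℂ) * ee (τ (N - 1) * β)‖ = Dl τ (N - 1) := by
    rw [norm_mul, norm_ee, mul_one, Complex.norm_natCast]
  have hmon : ∀ j k, j ≤ k → Dl τ j ≤ Dl τ k := fun j k h => monotone_nat_of_le_succ hc h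
  have h4 : ∀ k ∈ range (N - 1), ‖((Dl τ (k + 1) : ℕ) : ℂ) * ee (τ (k + 1) * β) - ((Dl τ k : ℕ) : ℂ) * ee (τ k * β)‖ ≤
      ‖((Dl τ (k + 1) : ℕ) : ℂ) - ((Dl τ k : ℕ) : ℂ)‖ + (2 * Real.pi * |β| * Dl τ (N - 1)) * Dl τ k := by
    intro k hk
    rw [mem_range] at hk
    have e1 : ((Dl τ (k + 1) : ℕ) : ℂ) * ee (τ (k + 1) * β) - ((Dl τ k : ℕ) : ℂ) * ee (τ k * β) =
        (((Dl τ (k + 1) : ℕ) : ℂ) - ((Dl τ k : ℕ) : ℂ)) * ee (τ (k + 1) * β) +
          ((Dl τ k : ℕ) : ℂ) * (ee (τ (k + 1) * β) - ee (τ k * β)) := by ring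
    rw [e1]
    refine (norm_add_le _ _).trans ?_
    rw [norm_mul, norm_ee, mul_one, norm_mul, Complex.norm_natCast]
    apply add_le_add le_rfl
    have e2 := ee_sub_le (τ (k + 1) * β) (τ k * β)
    have e3 : |(τ (k + 1) : ℝ) * β - τ k * β| = |β| * Dl τ k := by
      rw [← sub_mul, abs_mul, mul_comm]
      congr 1
      have := hm k
      unfold Dl
      rw [Nat.cast_sub this, abs_of_nonneg]
      have : (τ k : ℝ) ≤ τ (k + 1) := by exact_mod_cast this
      linarith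
    rw [e3] at e2
    have e4 : (Dl τ k : ℝ) ≤ Dl τ (N - 1) := by exact_mod_cast hmon k (N - 1) (by omega)
    have e5 : (0 : ℝ) ≤ Dl τ k := Nat.cast_nonneg _
    calc (Dl τ k : ℝ) * ‖ee (τ (k + 1) * β) - ee (τ k * β)‖ ≤ Dl τ k * (2 * Real.pi * (|β| * Dl τ k)) := by gcongr
      _ ≤ Dl τ k * (2 * Real.pi * (|β| * Dl τ (N - 1))) := by gcongr
      _ = _ := by ring
  have h5 := sum_Dl_diff τ hc N
  have h6 : ∑ k ∈ range (N - 1), (Dl τ k : ℝ) ≤ τ N := by
    have e1 := sum_Dl τ h0 hm (N - 1)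
    have e2 : (τ (N - 1) : ℝ) ≤ τ N := by
      have := hm (N - 1)
      rw [Nat.sub_add_cancel hN] at this
      exact_mod_cast this
    rw [← Nat.cast_sum, e1]
    exact e2
  have h7 : ∑ k ∈ range (N - 1), ‖((Dl τ (k + 1) : ℕ) : ℂ) * ee (τ (k + 1) * β) - ((Dl τ k : ℕ) : ℂ) * ee (τ k * β)‖ ≤
      Dl τ (N - 1) + (2 * Real.pi * |β| * Dl τ (N - 1)) * τ N := by
    refine (sum_le_sum h4).trans ?_
    rw [sum_add_distrib, ← mul_sum]
    gcongr
  have hDN : (0 : ℝ) ≤ Dl τ (N - 1) := Nat.cast_nonneg _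
  calc 2 * (q : ℝ) * (‖((Dl τ (N - 1) : ℕ) : ℂ) * ee (τ (N - 1) * β)‖ +
        ∑ k ∈ range (N - 1), ‖((Dl τ (k + 1) : ℕ) : ℂ) * ee (τ (k + 1) * β) - ((Dl τ k : ℕ) : ℂ) * ee (τ k * β)‖) ≤
        2 * (q : ℝ) * (Dl τ (N - 1) + (Dl τ (N - 1) + (2 * Real.pi * |β| * Dl τ (N - 1)) * τ N)) := by
          rw [h3]
          gcongr
    _ = _ := by ring

/-- the linear sum far from the integers -/
lemma UU_far (X : ℕ) (α δ : ℝ) (hδ : 0 < δ) (h : ∀ n : ℤ, δ ≤ |α - n|) : ‖UU X α‖ ≤ 1 / (2 * δ) := by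
  have hr := h (round α)
  have h1 : (ee α - 1) * UU X α = ee (X * α) - 1 := by
    unfold UU
    have e1 : ∀ n : ℕ, ee (n * α) = ee α ^ n := fun n => ee_pow α n
    simp_rw [e1]
    rw [mul_comm, geom_sum_mul]
  have h2 : 4 * |α - round α| ≤ ‖ee α - 1‖ := by
    have e1 : ee α = ee (α - round α) := by
      have := ee_add_int (α - round α) (round α)
      rw [← this]
      congr 1
      ring
    rw [e1]
    set y := α - round α with hy
    have hy2 : |y| ≤ 1 / 2 := abs_sub_round α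
    have e2 : ee y - 1 = ee (y / 2) * (2 * Complex.I * (Real.sin (Real.pi * y) : ℝ)) := by
      have e3 : ee y = ee (y / 2) * ee (y / 2) := by rw [← ee_add]; congr 1; ring
      have e4 : (1 : ℂ) = ee (y / 2) * ee (-(y / 2)) := by rw [← ee_add, add_neg_cancel, ee_zero]
      have e5 : ee (y / 2) - ee (-(y / 2)) = 2 * Complex.I * (Real.sin (Real.pi * y) : ℝ) := by
        unfold ee
        rw [Complex.ofReal_sin, Complex.sin]
        have f1 : 2 * (Real.pi : ℂ) * Complex.I * ((y / 2 : ℝ) : ℂ) = ((Real.pi * y : ℝ) : ℂ) * Complex.I := by push_cast; ring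
        have f2 : 2 * (Real.pi : ℂ) * Complex.I * ((-(y / 2) : ℝ) : ℂ) = -((Real.pi * y : ℝ) : ℂ) * Complex.I := by push_cast; ring
        rw [f1, f2]
        have : Complex.I * Complex.I = -1 := Complex.I_mul_I
        linear_combination (Complex.exp (((Real.pi * y : ℝ) : ℂ) * Complex.I) - Complex.exp (-((Real.pi * y : ℝ) : ℂ) * Complex.I)) * this
      calc ee y - 1 = ee (y / 2) * ee (y / 2) - ee (y / 2) * ee (-(y / 2)) := by rw [← e3, ← e4]
        _ = ee (y / 2) * (ee (y / 2) - ee (-(y / 2))) := by ring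
        _ = _ := by rw [e5]
    rw [e2, norm_mul, norm_ee, one_mul, norm_mul, norm_mul, Complex.norm_I, Complex.norm_real, Real.norm_eq_abs]
    have e6 : 2 * |y| ≤ |Real.sin (Real.pi * y)| := by
      have := Real.mul_abs_le_abs_sin (x := Real.pi * y) (by
        rw [abs_mul, abs_of_pos Real.pi_pos]
        have := Real.pi_pos
        nlinarith)
      rw [abs_mul, abs_of_pos Real.pi_pos] at this
      have hp : Real.pi ≠ 0 := Real.pi_ne_zero
      have e7 : 2 / Real.pi * (Real.pi * |y|) = 2 * |y| := by field_simp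
      rw [e7] at this
      exact this
    norm_num
    linarith
  have h3 : ‖ee (X * α) - 1‖ ≤ 2 := by
    refine (norm_sub_le _ _).trans ?_
    rw [norm_ee, norm_one]
    norm_num
  have h4 : 4 * δ * ‖UU X α‖ ≤ 2 := by
    calc 4 * δ * ‖UU X α‖ ≤ ‖ee α - 1‖ * ‖UU X α‖ := by
          apply mul_le_mul_of_nonneg_right _ (norm_nonneg _)
          linarith
      _ = ‖(ee α - 1) * UU X α‖ := (norm_mul _ _).symm
      _ ≤ 2 := by rw [h1]; exact h3
  rw [le_div_iff₀ (by positivity)]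
  linarith

lemma UU_add_int (X : ℕ) (α : ℝ) (n : ℤ) : UU X (α + n) = UU X α := by
  unfold UU
  apply sum_congr rfl
  intro m _
  have : (m : ℝ) * (α + n) = m * α + ((m * n : ℤ) : ℝ) := by push_cast; ring
  rw [this, ee_add_int]

lemma SSt_add_int (τ : ℕ → ℕ) (N : ℕ) (α : ℝ) (n : ℤ) : SSt τ N (α + n) = SSt τ N α := by
  unfold SSt
  apply sum_congr rfl
  intro m _
  have : (τ m : ℝ) * (α + n) = τ m * α + ((τ m * n : ℤ) : ℝ) := by push_cast; ring
  rw [this, ee_add_int]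

end Pool.Agent.H566
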