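import Mathlib
import Pool.Agent.H566.KSa
import Pool.Agent.H566.KSb
import Pool.Graph.R_seed8.H373R2.NB.Weyl

/-!
Complete exponential sums.
-/

set_option autoImplicit false

namespace Pool.Agent.H566

open Finset Polynomial
open Pool.Agent.H807R2.Dav

/-- the values of a polynomial with non-negative coefficients -/
def tau (T : ℤ[X]) (k : ℕ) : ℕ := (T.eval (k : ℤ)).toNat

lemma eval_nonneg_of (T : ℤ[X]) (hnn : ∀ j, 0 ≤ T.coeff j) (k : ℕ) : 0 ≤ T.eval (k : ℤ) := by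
  rw [eval_eq_sum_range]
  exact sum_nonneg fun j _ => mul_nonneg (hnn j) (by positivity)

lemma tau_cast (T : ℤ[X]) (hnn : ∀ j, 0 ≤ T.coeff j) (k : ℕ) : (tau T k : ℤ) = T.eval (k : ℤ) :=
  Int.toNat_of_nonneg (eval_nonneg_of T hnn k)

lemma tau_zero (T : ℤ[X]) (h0 : T.coeff 0 = 0) : tau T 0 = 0 := by
  unfold tau
  simp [← coeff_zero_eq_eval_zero, h0]

lemma tau_per (T : ℤ[X]) (hnn : ∀ j, 0 ≤ T.coeff j) (q k : ℕ) : (q : ℤ) ∣ (tau T (k + q) : ℤ) - tau T k := by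
  rw [tau_cast T hnn, tau_cast T hnn]
  have := sub_dvd_eval_sub ((k + q : ℕ) : ℤ) (k : ℤ) T
  have e : ((k + q : ℕ) : ℤ) - (k : ℤ) = q := by push_cast; ring
  rwa [e] at this

/-- differences of powers -/
lemma gpow (j : ℕ) : ∀ k : ℤ, 0 ≤ k → 0 ≤ (k + 1) ^ j - k ^ j ∧ (k + 1) ^ j - k ^ j ≤ (k + 2) ^ j - (k + 1) ^ j ∧
    (k + 1) * ((k + 1) ^ j - k ^ j) ≤ j * (k + 1) ^ j := by
  induction j with
  | zero => intro k _; simp
  | succ j ih =>
    intro k hk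
    obtain ⟨h1, h2, h3⟩ := ih k hk
    have e1 : (k + 1) ^ (j + 1) - k ^ (j + 1) = (k + 1) * ((k + 1) ^ j - k ^ j) + k ^ j := by ring
    have e2 : (k + 2) ^ (j + 1) - (k + 1) ^ (j + 1) = (k + 2) * ((k + 2) ^ j - (k + 1) ^ j) + (k + 1) ^ j := by ring
    have hkj : 0 ≤ k ^ j := pow_nonneg hk j
    have hkj1 : 0 ≤ (k + 1) ^ j := by positivity
    refine ⟨?_, ?_, ?_⟩
    · rw [e1]; nlinarith
    · rw [e1, e2]
      nlinarith [mul_le_mul_of_nonneg_left h2 (by linarith : 0 ≤ k + 1)]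
    · rw [e1]
      have h4 : (k + 1) * ((k + 1) ^ j - k ^ j) + k ^ j ≤ (j + 1) * (k + 1) ^ j := by nlinarith
      calc (k + 1) * ((k + 1) * ((k + 1) ^ j - k ^ j) + k ^ j) ≤ (k + 1) * ((j + 1) * (k + 1) ^ j) :=
            mul_le_mul_of_nonneg_left h4 (by linarith)
        _ = _ := by push_cast; ring

lemma tau_diff (T : ℤ[X]) (k : ℕ) : T.eval ((k + 1 : ℕ) : ℤ) - T.eval (k : ℤ) =
    ∑ j ∈ range (T.natDegree + 1), T.coeff j * (((k : ℤ) + 1) ^ j - (k : ℤ) ^ j) := by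
  rw [eval_eq_sum_range, eval_eq_sum_range, ← sum_sub_distrib]
  apply sum_congr rfl
  intro j _
  push_cast
  ring

lemma tau_lt (T : ℤ[X]) (hnn : ∀ j, 0 ≤ T.coeff j) (h1 : 0 < T.coeff 1) (k : ℕ) : tau T k < tau T (k + 1) := by
  have e : (tau T k : ℤ) < tau T (k + 1) := by
    rw [tau_cast T hnn, tau_cast T hnn, ← sub_pos, tau_diff]
    have hd : 1 ≤ T.natDegree := le_natDegree_of_ne_zero h1.ne'
    refine sum_pos' (fun j _ => mul_nonneg (hnn j) (gpow j k (Nat.cast_nonneg k)).1) ⟨1, mem_range.2 (by omega), ?_⟩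
    simp [h1]
  exact_mod_cast e

lemma Dl_cast (T : ℤ[X]) (hnn : ∀ j, 0 ≤ T.coeff j) (h1 : 0 < T.coeff 1) (k : ℕ) :
    ((Dl (tau T) k : ℕ) : ℤ) = ∑ j ∈ range (T.natDegree + 1), T.coeff j * (((k : ℤ) + 1) ^ j - (k : ℤ) ^ j) := by
  unfold Dl
  rw [Nat.cast_sub (tau_lt T hnn h1 k).le, tau_cast T hnn, tau_cast T hnn, tau_diff]

lemma Dl_mono (T : ℤ[X]) (hnn : ∀ j, 0 ≤ T.coeff j) (h1 : 0 < T.coeff 1) (k : ℕ) : Dl (tau T) k ≤ Dl (tau T) (k + 1) := by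
  have e : ((Dl (tau T) k : ℕ) : ℤ) ≤ ((Dl (tau T) (k + 1) : ℕ) : ℤ) := by
    rw [Dl_cast T hnn h1, Dl_cast T hnn h1]
    apply sum_le_sum
    intro j _
    apply mul_le_mul_of_nonneg_left _ (hnn j)
    have := (gpow j k (Nat.cast_nonneg k)).2.1
    push_cast
    have e1 : (k : ℤ) + 1 + 1 = k + 2 := by ring
    rw [e1]
    exact this
  exact_mod_cast e

lemma Dl_le (T : ℤ[X]) (hnn : ∀ j, 0 ≤ T.coeff j) (h1 : 0 < T.coeff 1) (N : ℕ) (hN : 1 ≤ N) :
    N * Dl (tau T) (N - 1) ≤ T.natDegree * tau T N := by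
  have e : (N : ℤ) * ((Dl (tau T) (N - 1) : ℕ) : ℤ) ≤ T.natDegree * (tau T N : ℤ) := by
    rw [Dl_cast T hnn h1, tau_cast T hnn, eval_eq_sum_range, mul_sum, mul_sum]
    apply sum_le_sum
    intro j hj
    rw [mem_range] at hj
    have h2 := (gpow j ((N - 1 : ℕ) : ℤ) (Nat.cast_nonneg _)).2.2
    have e1 : (((N - 1 : ℕ) : ℤ)) + 1 = N := by
      have : N - 1 + 1 = N := Nat.sub_add_cancel hN
      exact_mod_cast this
    rw [e1] at h2 ⊢
    have hNj : 0 ≤ (N : ℤ) ^ j := by positivity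
    have hjd : (j : ℤ) ≤ T.natDegree := by exact_mod_cast (by omega : j ≤ T.natDegree)
    calc (N : ℤ) * (T.coeff j * ((N : ℤ) ^ j - ((N - 1 : ℕ) : ℤ) ^ j)) = T.coeff j * ((N : ℤ) * ((N : ℤ) ^ j - ((N - 1 : ℕ) : ℤ) ^ j)) := by ring
      _ ≤ T.coeff j * (j * (N : ℤ) ^ j) := mul_le_mul_of_nonneg_left h2 (hnn j)
      _ ≤ T.coeff j * (T.natDegree * (N : ℤ) ^ j) := by
          apply mul_le_mul_of_nonneg_left _ (hnn j)
          exact mul_le_mul_of_nonneg_right hjd hNj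
      _ = _ := by ring
  exact_mod_cast e

lemma tau_ge (T : ℤ[X]) (hnn : ∀ j, 0 ≤ T.coeff j) (h1 : 0 < T.coeff 1) (N : ℕ) : N ≤ tau T N := by
  induction N with
  | zero => exact Nat.zero_le _
  | succ n ih =>
    have := tau_lt T hnn h1 n
    omega

lemma tau_le (T : ℤ[X]) (hnn : ∀ j, 0 ≤ T.coeff j) (N : ℕ) (hN : 1 ≤ N) : tau T N ≤ tau T 1 * N ^ T.natDegree := by
  have e : (tau T N : ℤ) ≤ (tau T 1 : ℤ) * (N : ℤ) ^ T.natDegree := by
    rw [tau_cast T hnn, tau_cast T hnn, eval_eq_sum_range, eval_eq_sum_range, sum_mul]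
    apply sum_le_sum
    intro j hj
    rw [mem_range] at hj
    rw [Nat.cast_one, one_pow, mul_one]
    apply mul_le_mul_of_nonneg_left _ (hnn j)
    exact pow_le_pow_right₀ (by exact_mod_cast hN) (by omega)
  exact_mod_cast e

lemma tau_two (T : ℤ[X]) (hnn : ∀ j, 0 ≤ T.coeff j) (N : ℕ) (hN : 1 ≤ N) : tau T (2 * N) ≤ 2 ^ T.natDegree * tau T N := by
  have e : (tau T (2 * N) : ℤ) ≤ (2 : ℤ) ^ T.natDegree * (tau T N : ℤ) := by
    rw [tau_cast T hnn, tau_cast T hnn, eval_eq_sum_range, eval_eq_sum_range, mul_sum]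
    apply sum_le_sum
    intro j hj
    rw [mem_range] at hj
    have h2 : (2 : ℤ) ^ j ≤ 2 ^ T.natDegree := pow_le_pow_right₀ (by norm_num) (by omega)
    have hNj : 0 ≤ (N : ℤ) ^ j := by positivity
    push_cast
    rw [mul_pow]
    calc T.coeff j * (2 ^ j * (N : ℤ) ^ j) ≤ T.coeff j * (2 ^ T.natDegree * (N : ℤ) ^ j) := by
          apply mul_le_mul_of_nonneg_left _ (hnn j)
          exact mul_le_mul_of_nonneg_right h2 hNj
      _ = _ := by ring
  exact_mod_cast e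

lemma tau_mono' (T : ℤ[X]) (hnn : ∀ j, 0 ≤ T.coeff j) (h1 : 0 < T.coeff 1) {a b : ℕ} (h : a ≤ b) : tau T a ≤ tau T b :=
  monotone_nat_of_le_succ (fun k => (tau_lt T hnn h1 k).le) h

lemma ee_eq_one {x : ℝ} (h : ee x = 1) : ∃ n : ℤ, x = n := by
  unfold ee at h
  rw [Complex.exp_eq_one_iff] at h
  obtain ⟨n, hn⟩ := h
  refine ⟨n, ?_⟩
  have h2 : (2 * (Real.pi : ℂ) * Complex.I) ≠ 0 := by
    simp [Real.pi_ne_zero]
  have h3 : ((x : ℝ) : ℂ) = ((n : ℝ) : ℂ) := by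
    have h4 : (2 * (Real.pi : ℂ) * Complex.I) * ((x : ℝ) : ℂ) = (2 * (Real.pi : ℂ) * Complex.I) * ((n : ℝ) : ℂ) := by
      rw [hn]; push_cast; ring
    exact mul_left_cancel₀ h2 h4
  exact_mod_cast h3

lemma sum_period_shift (F : ℕ → ℂ) (q : ℕ) (hF : ∀ k, F (k + q) = F k) (h : ℕ) :
    ∑ r ∈ range q, F (r + h) = ∑ r ∈ range q, F r := by
  induction h with
  | zero => simp
  | succ h ih =>
    rw [← ih]
    have h1 := sum_range_succ' (fun r => F (r + h)) q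
    have h2 := sum_range_succ (fun r => F (r + h)) q
    have h3 : F (q + h) = F (0 + h) := by rw [zero_add, add_comm, hF]
    have h4 : ∑ r ∈ range q, F (r + (h + 1)) = ∑ r ∈ range q, F (r + 1 + h) := by
      apply sum_congr rfl
      intro r _
      congr 1
      ring
    rw [h4]
    rw [h2, h3] at h1
    exact (add_right_cancel h1).symm

/-- a phase depends on the residue class only -/
lemma ee_congr (q : ℕ) (hq : 1 ≤ q) (x y : ℤ) (h : (q : ℤ) ∣ x - y) : ee ((x : ℝ) / q) = ee ((y : ℝ) / q) := by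
  obtain ⟨z, hz⟩ := h
  have hq0 : (q : ℝ) ≠ 0 := by exact_mod_cast (by omega : q ≠ 0)
  have h1 : (x : ℝ) / q = y / q + (z : ℤ) := by
    have h2 : (x : ℝ) = y + q * z := by
      have : x = y + q * z := by linarith
      exact_mod_cast this
    rw [h2]
    field_simp
  rw [h1, ee_add_int]

/-- complete sums to moduli with a small prime factor vanish -/
theorem compl_zero (T : ℤ[X]) (hnn : ∀ j, 0 ≤ T.coeff j) (h1 : 0 < T.coeff 1) (l : ℕ) (hl : l.Prime) (hl1 : ¬ (l : ℤ) ∣ T.coeff 1)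
    (hl2 : ∀ j, 2 ≤ j → (l : ℤ) ∣ T.coeff j) (q : ℕ) (hq : 1 ≤ q) (hlq : l ∣ q) (a : ℤ) (ha : IsCoprime a (q : ℤ)) :
    ∑ r ∈ range q, ee (tau T r * ((a : ℝ) / q)) = 0 := by
  obtain ⟨h, rfl⟩ := hlq
  have hh : 1 ≤ h := Nat.pos_of_ne_zero (by rintro rfl; simp at hq)
  have hl0 : (l : ℝ) ≠ 0 := by exact_mod_cast hl.ne_zero
  have hh0 : (h : ℝ) ≠ 0 := by exact_mod_cast (by omega : h ≠ 0)
  set F : ℕ → ℂ := fun r => ee ((((tau T r : ℤ) * a : ℤ) : ℝ) / ((l * h : ℕ) : ℝ)) with hF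
  have e0 : ∑ r ∈ range (l * h), ee (tau T r * ((a : ℝ) / ((l * h : ℕ) : ℝ))) = ∑ r ∈ range (l * h), F r := by
    apply sum_congr rfl
    intro r _
    simp only [hF]
    congr 1
    push_cast
    ring
  rw [e0]
  have hper : ∀ k, F (k + l * h) = F k := by
    intro k
    apply ee_congr _ hq
    rw [← sub_mul]
    exact Dvd.dvd.mul_right (tau_per T hnn (l * h) k) a
  have hshift : ∀ k, F (k + h) = F k * ee (((T.coeff 1 * a : ℤ) : ℝ) / l) := by
    intro k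
    have h2 : ((l * h : ℕ) : ℤ) ∣ T.eval ((k + h : ℕ) : ℤ) - T.eval (k : ℤ) - T.coeff 1 * h := by
      have hd : 1 ≤ T.natDegree := le_natDegree_of_ne_zero h1.ne'
      have e1 : T.eval ((k + h : ℕ) : ℤ) - T.eval (k : ℤ) - T.coeff 1 * h =
          ∑ j ∈ range (T.natDegree + 1), (T.coeff j * (((k : ℤ) + h) ^ j - (k : ℤ) ^ j) - if j = 1 then T.coeff 1 * h else 0) := by
        rw [sum_sub_distrib, sum_ite_eq' (range (T.natDegree + 1)) 1, if_pos (mem_range.2 (by omega)), eval_eq_sum_range,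
          eval_eq_sum_range, ← sum_sub_distrib]
        congr 1
        apply sum_congr rfl
        intro j _
        push_cast
        ring
      rw [e1]
      apply dvd_sum
      intro j _
      by_cases hj1 : j = 1
      · rw [if_pos hj1, hj1]
        have : T.coeff 1 * (((k : ℤ) + h) ^ 1 - (k : ℤ) ^ 1) - T.coeff 1 * h = 0 := by ring
        rw [this]
        exact dvd_zero _
      · rw [if_neg hj1, sub_zero]
        rcases Nat.eq_zero_or_pos j with hj0 | hj0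
        · rw [hj0]; simp
        · have h3 : (l : ℤ) ∣ T.coeff j := hl2 j (by omega)
          have h4 : (h : ℤ) ∣ ((k : ℤ) + h) ^ j - (k : ℤ) ^ j := by
            have := sub_dvd_pow_sub_pow ((k : ℤ) + h) (k : ℤ) j
            rwa [add_sub_cancel_left] at this
          push_cast
          exact mul_dvd_mul h3 h4
    have h3 : F (k + h) = ee ((((((tau T k : ℤ) + T.coeff 1 * h) * a : ℤ)) : ℝ) / ((l * h : ℕ) : ℝ)) := by
      apply ee_congr _ hq
      rw [tau_cast T hnn, tau_cast T hnn, ← sub_mul, ← sub_sub]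
      exact Dvd.dvd.mul_right h2 a
    rw [h3]
    simp only [hF]
    rw [← ee_add]
    congr 1
    push_cast
    field_simp
  have h4 := sum_period_shift F (l * h) hper h
  have h5 : ∑ r ∈ range (l * h), F (r + h) = (∑ r ∈ range (l * h), F r) * ee (((T.coeff 1 * a : ℤ) : ℝ) / l) := by
    rw [sum_mul]
    exact sum_congr rfl fun r _ => hshift r
  rw [h5] at h4
  have h6 : ee (((T.coeff 1 * a : ℤ) : ℝ) / l) ≠ 1 := by
    intro h7
    obtain ⟨n, hn⟩ := ee_eq_one h7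
    have h8 : ((T.coeff 1 * a : ℤ) : ℝ) = ((n * l : ℤ) : ℝ) := by
      rw [div_eq_iff hl0] at hn
      rw [hn]
      push_cast
      ring
    have h9 : T.coeff 1 * a = n * l := by exact_mod_cast h8
    have h10 : (l : ℤ) ∣ T.coeff 1 * a := ⟨n, by rw [h9]; ring⟩
    have hlp : Prime (l : ℤ) := Nat.prime_iff_prime_int.1 hl
    rcases hlp.dvd_or_dvd h10 with h11 | h11
    · exact hl1 h11
    · have h12 : IsCoprime a (l : ℤ) := by
        apply IsCoprime.of_isCoprime_of_dvd_right ha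
        push_cast
        exact Dvd.intro _ rfl
      exact hlp.not_isUnit (h12.isUnit_of_dvd' h11 dvd_rfl)
  have h7 : (∑ r ∈ range (l * h), F r) * (ee (((T.coeff 1 * a : ℤ) : ℝ) / l) - 1) = 0 := by
    rw [mul_sub, mul_one, h4, sub_self]
  rcases mul_eq_zero.1 h7 with h8 | h8
  · exact h8
  · exact absurd (sub_eq_zero.1 h8) h6

/-- complete sums of a fixed polynomial -/
theorem compl_bound (R : ℤ[X]) (hd : 2 ≤ R.natDegree) (hl : 0 < R.leadingCoeff) : ∃ C m : ℕ, 1 ≤ C ∧ ∀ (q : ℕ) (a : ℤ) (u : ℝ),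
    1 ≤ q → IsCoprime a (q : ℤ) → 1 ≤ u → (q : ℝ) ≤ u * ‖∑ r ∈ range q, ee (((a * R.eval (r : ℤ) : ℤ) : ℝ) / q)‖ →
    (q : ℝ) ≤ C * u ^ m := by
  set d := R.natDegree with hdd
  obtain ⟨c, m, hc, hI⟩ := Pool.Agent.H373R2.NB.IW_all d (by omega)
  obtain ⟨lc, hlc⟩ : ∃ lc : ℕ, R.leadingCoeff = lc := ⟨R.leadingCoeff.toNat, (Int.toNat_of_nonneg hl.le).symm⟩
  have hlc1 : 1 ≤ lc := by
    rw [hlc] at hl; exact_mod_cast hl
  refine ⟨c * (d.factorial * lc), m, Nat.mul_pos hc (Nat.mul_pos (Nat.factorial_pos d) hlc1), fun q a u hq ha hu hS => ?_⟩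
  have hq0 : (0 : ℝ) < q := by exact_mod_cast hq
  have hA : (1 : ℝ) ≤ ((d.factorial * lc : ℕ) : ℝ) := by exact_mod_cast Nat.mul_pos (Nat.factorial_pos d) hlc1
  have hc0 : (0 : ℝ) < c := by exact_mod_cast hc
  have hph := Pool.Agent.H373R2.NB.Ph_poly d R le_rfl ((a : ℝ) / q)
  have hsum : ∑ r ∈ range q, ee (((a * R.eval (r : ℤ) : ℤ) : ℝ) / q) =
      ∑ n ∈ range q, Pool.Agent.Helper602.MK.ee ((a : ℝ) / q * ((R.eval (n : ℤ) : ℤ) : ℝ)) := by
    apply sum_congr rfl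
    intro n _
    unfold ee Pool.Agent.Helper602.MK.ee
    congr 1
    push_cast
    ring
  rw [hsum] at hS
  obtain ⟨q₁, hq1, hq2, a₁, ha1⟩ := hI q u _ _ hq hu hph hS
  have hcoef : R.coeff d = (lc : ℤ) := by rw [hdd, ← hlc]; rfl
  rw [hcoef] at ha1
  have hE0 : 0 ≤ (c : ℝ) * u ^ m := by positivity
  set z : ℤ := q₁ * (a * (d.factorial * lc)) - a₁ * q with hz
  have e1 : (q₁ : ℝ) * ((a : ℝ) / q * ((d.factorial : ℝ) * ((lc : ℤ) : ℝ))) - a₁ = (z : ℝ) / q := by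
    rw [hz]; push_cast; field_simp
  rw [e1] at ha1
  by_cases hz0 : z = 0
  · have h1 : (q : ℤ) ∣ q₁ * (a * (d.factorial * lc)) := ⟨a₁, by rw [hz] at hz0; linarith⟩
    have h2 : (q : ℤ) ∣ q₁ * (d.factorial * lc) := by
      have h3 : (q₁ : ℤ) * (a * (d.factorial * lc)) = a * (q₁ * (d.factorial * lc)) := by ring
      rw [h3] at h1
      exact ha.symm.dvd_of_dvd_mul_left h1
    have h3 : q ∣ q₁ * (d.factorial * lc) := by exact_mod_cast h2
    have h4 : q ≤ q₁ * (d.factorial * lc) := Nat.le_of_dvd (by positivity) h3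
    calc (q : ℝ) ≤ (q₁ : ℝ) * ((d.factorial * lc : ℕ) : ℝ) := by exact_mod_cast h4
      _ ≤ (c * u ^ m) * ((d.factorial * lc : ℕ) : ℝ) := by gcongr
      _ = _ := by push_cast; ring
  · have h1 : (1 : ℝ) ≤ |(z : ℝ)| := by
      have : (1 : ℤ) ≤ |z| := Int.one_le_abs hz0
      exact_mod_cast this
    rw [abs_div, abs_of_pos hq0, div_le_div_iff₀ hq0 (by positivity)] at ha1
    have h2 : (q : ℝ) ^ d ≤ c * u ^ m * q := by
      calc (q : ℝ) ^ d = 1 * (q : ℝ) ^ d := (one_mul _).symm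
        _ ≤ |(z : ℝ)| * (q : ℝ) ^ d := by gcongr
        _ ≤ _ := ha1
    have h3 : (q : ℝ) * q ≤ (c * u ^ m) * q := by
      calc (q : ℝ) * q = (q : ℝ) ^ 2 := by ring
        _ ≤ (q : ℝ) ^ d := pow_le_pow_right₀ (by exact_mod_cast hq) hd
        _ ≤ _ := h2
    have h4 : (q : ℝ) ≤ c * u ^ m := le_of_mul_le_mul_right h3 hq0
    calc (q : ℝ) ≤ c * u ^ m * 1 := by rw [mul_one]; exact h4
      _ ≤ c * u ^ m * ((d.factorial * lc : ℕ) : ℝ) := by gcongr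
      _ = _ := by push_cast; ring

/-- the sums of `T` are sums of `R` -/
theorem compl_transfer (R T : ℤ[X]) (hnn : ∀ j, 0 ≤ T.coeff j) (m₀ Q' Q x₀ : ℕ)
    (hT : ∀ k : ℕ, R.eval ((m₀ + Q' * k : ℕ) : ℤ) = 2 * x₀ + Q * T.eval (k : ℤ)) (q : ℕ) (hq : 1 ≤ q) (hQ : Q.Coprime q)
    (hQ' : Q'.Coprime q) (a : ℤ) (ha : IsCoprime a (q : ℤ)) : ∃ a' : ℤ, IsCoprime a' (q : ℤ) ∧
      ‖∑ r ∈ range q, ee (tau T r * ((a : ℝ) / q))‖ = ‖∑ r ∈ range q, ee (((a' * R.eval (r : ℤ) : ℤ) : ℝ) / q)‖ := by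
  have hQi : IsCoprime (Q : ℤ) (q : ℤ) := Nat.isCoprime_iff_coprime.2 hQ
  obtain ⟨x, y, hxy⟩ := hQi
  have hx : IsCoprime x (q : ℤ) := ⟨Q, y, by linarith⟩
  refine ⟨a * x, IsCoprime.mul_left ha hx, ?_⟩
  set G : ℕ → ℂ := fun n => ee (((a * x * R.eval (n : ℤ) : ℤ) : ℝ) / q) with hG
  have h1 : ∀ r ∈ range q, ee (tau T r * ((a : ℝ) / q)) = ee (((-(a * x * (2 * x₀)) : ℤ) : ℝ) / q) * G (m₀ + Q' * r) := by
    intro r _
    simp only [hG]
    rw [← ee_add]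
    have e1 : (tau T r : ℝ) * ((a : ℝ) / q) = (((tau T r : ℤ) * a : ℤ) : ℝ) / q := by push_cast; ring
    have e2 : (((-(a * x * (2 * x₀)) : ℤ) : ℝ) / q) + (((a * x * R.eval ((m₀ + Q' * r : ℕ) : ℤ) : ℤ) : ℝ) / q) =
        ((-(a * x * (2 * x₀)) + a * x * R.eval ((m₀ + Q' * r : ℕ) : ℤ) : ℤ) : ℝ) / q := by push_cast; ring
    rw [e1, e2]
    apply ee_congr q hq
    rw [hT, tau_cast T hnn]
    refine ⟨a * T.eval (r : ℤ) * y, ?_⟩
    have : T.eval (r : ℤ) * a - (-(a * x * (2 * x₀)) + a * x * (2 * x₀ + Q * T.eval (r : ℤ))) =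
        a * T.eval (r : ℤ) * (1 - x * Q) := by ring
    rw [this, ← hxy]
    ring
  rw [sum_congr rfl h1, ← mul_sum, norm_mul, norm_ee, one_mul]
  congr 1
  have hGper : ∀ n n' : ℕ, n ≡ n' [MOD q] → G n = G n' := by
    intro n n' h
    simp only [hG]
    apply ee_congr q hq
    rw [← mul_sub]
    apply Dvd.dvd.mul_left
    exact (Nat.modEq_iff_dvd.1 h.symm).trans (sub_dvd_eval_sub _ _ R)
  have h2 : ∑ r ∈ range q, G (m₀ + Q' * r) = ∑ r ∈ range q, G ((m₀ + Q' * r) % q) := by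
    apply sum_congr rfl
    intro r _
    exact hGper _ _ (Nat.mod_modEq _ _).symm
  rw [h2]
  have hinj : Set.InjOn (fun r => (m₀ + Q' * r) % q) (range q : Finset ℕ) := by
    intro r hr s hs h
    rw [mem_coe, mem_range] at hr hs
    have h3 : m₀ + Q' * r ≡ m₀ + Q' * s [MOD q] := h
    have h4 : Q' * r ≡ Q' * s [MOD q] := Nat.ModEq.add_left_cancel' m₀ h3
    have h5 : r ≡ s [MOD q] := Nat.ModEq.cancel_left_of_coprime hQ'.symm h4
    exact Nat.ModEq.eq_of_lt_of_lt h5 hr hs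
  have himg : (range q).image (fun r => (m₀ + Q' * r) % q) = range q := by
    apply eq_of_subset_of_card_le
    · intro z hz
      rw [mem_image] at hz
      obtain ⟨r, _, rfl⟩ := hz
      exact mem_range.2 (Nat.mod_lt _ (by omega))
    · rw [card_image_of_injOn hinj]
  have h3 := sum_image (f := G) hinj
  rw [himg] at h3
  exact h3.symm

end Pool.Agent.H566
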