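import Mathlib
import Pool.Agent.H566.KSc

/-!
The exponential sum over the values of a polynomial, at every point.
-/

set_option autoImplicit false

namespace Pool.Agent.H566

open Finset Polynomial
open Pool.Agent.H807R2.Dav

/-- the normalised complete sum -/
noncomputable def AA (T : ℤ[X]) (q : ℕ) (a : ℤ) : ℂ := (∑ r ∈ range q, ee (tau T r * ((a : ℝ) / q))) / q

lemma AA_le (T : ℤ[X]) (q : ℕ) (hq : 1 ≤ q) (a : ℤ) : ‖AA T q a‖ ≤ 1 := by
  unfold AA
  rw [norm_div, Complex.norm_natCast, div_le_one (by exact_mod_cast hq)]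
  refine (norm_sum_le _ _).trans ?_
  simp [norm_ee]

lemma AA_one (T : ℤ[X]) (h0 : T.coeff 0 = 0) (a : ℤ) : AA T 1 a = 1 := by
  unfold AA
  simp [tau_zero T h0, ee_zero]

lemma AA_mod (T : ℤ[X]) (q : ℕ) (hq : 1 ≤ q) (a b : ℤ) (h : (q : ℤ) ∣ a - b) : AA T q a = AA T q b := by
  unfold AA
  congr 1
  apply sum_congr rfl
  intro r _
  have e1 : (tau T r : ℝ) * ((a : ℝ) / q) = (((tau T r : ℤ) * a : ℤ) : ℝ) / q := by push_cast; ring
  have e2 : (tau T r : ℝ) * ((b : ℝ) / q) = (((tau T r : ℤ) * b : ℤ) : ℝ) / q := by push_cast; ring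
  rw [e1, e2]
  apply ee_congr q hq
  rw [← mul_sub]
  exact Dvd.dvd.mul_left h _

lemma SSt_le_tau (τ : ℕ → ℕ) (h0 : τ 0 = 0) (hm : ∀ k, τ k ≤ τ (k + 1)) (N : ℕ) (α : ℝ) : ‖SSt τ N α‖ ≤ τ N := by
  unfold SSt
  refine (norm_sum_le _ _).trans ?_
  have h1 : ∀ k ∈ range N, ‖((Dl τ k : ℕ) : ℂ) * ee (τ k * α)‖ ≤ (Dl τ k : ℝ) := by
    intro k _
    rw [norm_mul, norm_ee, mul_one, Complex.norm_natCast]
  refine (sum_le_sum h1).trans ?_
  rw [← Nat.cast_sum, sum_Dl τ h0 hm]

lemma UU_le (X : ℕ) (α : ℝ) : ‖UU X α‖ ≤ X := by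
  unfold UU
  refine (norm_sum_le _ _).trans ?_
  simp [norm_ee]

theorem point (d : ℕ) (hd : 1 ≤ d) : ∃ m : ℕ, ∀ T : ℤ[X], T.natDegree = d → (∀ j, 0 ≤ T.coeff j) → T.coeff 0 = 0 →
    0 < T.coeff 1 → 0 < T.leadingCoeff → ∃ C : ℝ, 0 < C ∧ ∀ (N : ℕ) (u : ℝ), 1 ≤ N → 1 ≤ u → u ^ (2 * m + d + 1) ≤ N → ∀ α : ℝ,
    ∃ q a : ℕ, 1 ≤ q ∧ q ≤ N ∧ a < q ∧ a.Coprime q ∧
      ‖SSt (tau T) N α - UU (tau T N) α‖ ≤ (if q = 1 then 0 else ‖AA T q a‖ * ‖UU (tau T N) (α - (a : ℝ) / q)‖) +
        C * (tau T N) / u := by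
  obtain ⟨c, m, hc, hI⟩ := Pool.Agent.H373R2.NB.IW_all d hd
  refine ⟨m, fun T hTd hnn h0 h1 hlead => ?_⟩
  obtain ⟨lc, hlc⟩ : ∃ lc : ℕ, T.leadingCoeff = lc := ⟨T.leadingCoeff.toNat, (Int.toNat_of_nonneg hlead.le).symm⟩
  have hlc1 : 1 ≤ lc := by
    rw [hlc] at hlead; exact_mod_cast hlead
  set B₀ : ℕ := d.factorial * lc with hB₀
  have hB1 : 1 ≤ B₀ := Nat.mul_pos (Nat.factorial_pos d) hlc1
  set t1 : ℕ := tau T 1 with ht1
  have ht11 : 1 ≤ t1 := tau_ge T hnn h1 1
  have hd0 : (1 : ℝ) ≤ d := by exact_mod_cast hd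
  have hc0 : (1 : ℝ) ≤ c := by exact_mod_cast hc
  have hB0 : (1 : ℝ) ≤ B₀ := by exact_mod_cast hB1
  have ht0 : (1 : ℝ) ≤ t1 := by exact_mod_cast ht11
  set C : ℝ := 4 * d * c * B₀ * (1 + 4 * c * t1) + 8 * c * t1 * d + 4 * d + 4 * c ^ 2 * B₀ + 2 with hC
  refine ⟨C, by positivity, fun N u hN hu huN α => ?_⟩
  set τ := tau T with hτ
  have hm' : ∀ k, τ k ≤ τ (k + 1) := fun k => (tau_lt T hnn h1 k).le
  have hconv : ∀ k, Dl τ k ≤ Dl τ (k + 1) := Dl_mono T hnn h1
  have hτ0 : τ 0 = 0 := tau_zero T h0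
  set X := τ N with hX
  have hXN : N ≤ X := tau_ge T hnn h1 N
  have hN0 : (0 : ℝ) < N := by exact_mod_cast hN
  have hX0 : (0 : ℝ) < X := lt_of_lt_of_le hN0 (by exact_mod_cast hXN)
  have hXN' : (N : ℝ) ≤ X := by exact_mod_cast hXN
  have hu0 : 0 < u := by linarith
  have hXu : 0 < (X : ℝ) / u := by positivity
  set V := Dl τ (N - 1) with hV
  have hVN : (N : ℝ) * V ≤ d * X := by
    have := Dl_le T hnn h1 N hN
    rw [hTd] at this
    exact_mod_cast this
  have hV0 : (0 : ℝ) ≤ V := Nat.cast_nonneg _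
  have hVle : (V : ℝ) ≤ d * X / N := by
    rw [le_div_iff₀ hN0]
    linarith
  have hXle : (X : ℝ) ≤ t1 * (N : ℝ) ^ d := by
    have := tau_le T hnn N hN
    rw [hTd] at this
    exact_mod_cast this
  have hNu : ∀ j : ℕ, j ≤ 2 * m + d → (u ^ j) * V ≤ d * (X / u) := by
    intro j hj
    have h3 : u ^ j * u ≤ N := by
      calc u ^ j * u = u ^ (j + 1) := (pow_succ _ _).symm
        _ ≤ u ^ (2 * m + d + 1) := pow_le_pow_right₀ hu (by omega)
        _ ≤ N := huN
    have h4 : u ^ j * V * u ≤ d * X := by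
      calc u ^ j * V * u = (u ^ j * u) * V := by ring
        _ ≤ N * V := by gcongr
        _ ≤ _ := hVN
    have h5 : (d : ℝ) * (X / u) = (d * X) / u := by ring
    rw [h5, le_div_iff₀ hu0]
    exact h4
  have hmonoV : ∀ k < N, Dl τ k ≤ V := fun k hk => monotone_nat_of_le_succ hconv (by omega : k ≤ N - 1)
  have hpi : Real.pi ≤ 4 := Real.pi_le_four
  have hpi0 : 0 < Real.pi := Real.pi_pos
  -- closeness near an integer
  have hnear : ∀ β : ℝ, ‖SSt τ N β - UU X β‖ ≤ 8 * (|β| * X) * V := by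
    intro β
    refine (SSt_UU τ hτ0 hm' N β V hmonoV).trans ?_
    calc 2 * Real.pi * |β| * X * V ≤ 2 * 4 * |β| * X * V := by gcongr
      _ = _ := by ring
  by_cases husmall : u < 2 * c ^ 2 * B₀
  · refine ⟨1, 0, le_rfl, hN, one_pos, Nat.coprime_one_right 0, ?_⟩
    rw [if_pos rfl, zero_add]
    have h3 : ‖SSt τ N α - UU X α‖ ≤ 2 * X := by
      refine (norm_sub_le _ _).trans ?_
      have := SSt_le_tau τ hτ0 hm' N α
      have := UU_le X α
      linarith
    refine h3.trans ?_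
    rw [le_div_iff₀ hu0]
    have h4 : 2 * u ≤ C := by
      have : 0 ≤ 4 * d * c * B₀ * (1 + 4 * c * t1) + 8 * c * t1 * (d : ℝ) + 4 * d := by positivity
      rw [hC]
      linarith
    calc 2 * (X : ℝ) * u = (2 * u) * X := by ring
      _ ≤ C * X := mul_le_mul_of_nonneg_right h4 hX0.le
  rw [not_lt] at husmall
  by_cases hE : ∀ n ≤ N, ‖∑ k ∈ range n, ee (τ k * α)‖ ≤ N / u
  · refine ⟨1, 0, le_rfl, hN, one_pos, Nat.coprime_one_right 0, ?_⟩
    rw [if_pos rfl, zero_add]
    have h3 := SSt_le τ hconv N hN α (N / u) hE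
    have h4 : ‖SSt τ N α‖ ≤ 2 * d * (X / u) := by
      refine h3.trans ?_
      calc 2 * (V : ℝ) * (N / u) = 2 * (N * V) / u := by ring
        _ ≤ 2 * (d * X) / u := by gcongr
        _ = _ := by ring
    rcases le_or_gt ‖UU X α‖ (X / u) with h5 | h5
    · calc ‖SSt τ N α - UU X α‖ ≤ ‖SSt τ N α‖ + ‖UU X α‖ := norm_sub_le _ _
        _ ≤ 2 * d * (X / u) + X / u := add_le_add h4 h5
        _ = (2 * d + 1) * (X / u) := by ring
        _ ≤ C * (X / u) := by
            apply mul_le_mul_of_nonneg_right _ hXu.le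
            have : 0 ≤ 4 * d * c * B₀ * (1 + 4 * c * t1) + 8 * c * t1 * (d : ℝ) + 4 * c ^ 2 * B₀ := by positivity
            rw [hC]
            linarith
        _ = _ := by ring
    · have h6 : ∃ n : ℤ, |α - n| < u / (2 * X) := by
        by_contra hcon
        push Not at hcon
        have := UU_far X α (u / (2 * X)) (by positivity) hcon
        have e : 1 / (2 * (u / (2 * (X : ℝ)))) = X / u := by field_simp
        rw [e] at this
        linarith
      obtain ⟨n, hn⟩ := h6
      set β := α - n with hβ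
      have e1 : α = β + n := by rw [hβ]; ring
      rw [e1, SSt_add_int, UU_add_int]
      have h7 : |β| * X ≤ u / 2 := by
        have : |β| * X ≤ u / (2 * X) * X := by gcongr
        refine this.trans (le_of_eq ?_)
        field_simp
      have h8 := hNu 1 (by omega)
      rw [pow_one] at h8
      calc ‖SSt τ N β - UU X β‖ ≤ 8 * (|β| * X) * V := hnear β
        _ ≤ 8 * (u / 2) * V := by gcongr
        _ = 4 * (u * V) := by ring
        _ ≤ 4 * (d * (X / u)) := by gcongr
        _ = (4 * d) * (X / u) := by ring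
        _ ≤ C * (X / u) := by
            apply mul_le_mul_of_nonneg_right _ hXu.le
            have : 0 ≤ 4 * d * c * B₀ * (1 + 4 * c * t1) + 8 * c * t1 * (d : ℝ) + 4 * c ^ 2 * B₀ := by positivity
            rw [hC]
            linarith
        _ = _ := by ring
  · push Not at hE
    obtain ⟨n, hnN, hEn⟩ := hE
    have hNu0 : 0 < (N : ℝ) / u := by positivity
    have hn1 : 1 ≤ n := by
      rcases Nat.eq_zero_or_pos n with h | h
      · rw [h] at hEn
        simp at hEn
        linarith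
      · exact h
    have hEn' : ‖∑ k ∈ range n, ee (τ k * α)‖ ≤ n := by
      refine (norm_sum_le _ _).trans ?_
      simp [norm_ee]
    have hnr : (N : ℝ) / u < n := lt_of_lt_of_le hEn hEn'
    have hph := Pool.Agent.H373R2.NB.Ph_poly d T hTd.le α
    have hsum : ∑ k ∈ range n, ee (τ k * α) = ∑ k ∈ range n, Pool.Agent.Helper602.MK.ee (α * ((T.eval (k : ℤ) : ℤ) : ℝ)) := by
      apply sum_congr rfl
      intro k _
      have e1 : (τ k : ℝ) = ((T.eval (k : ℤ) : ℤ) : ℝ) := by
        have := tau_cast T hnn k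
        rw [← this]
        simp [hτ]
      rw [e1]
      unfold ee Pool.Agent.Helper602.MK.ee
      congr 1
      push_cast
      ring
    obtain ⟨q₁, hq1, hq2, a₁, ha1⟩ := hI n u _ _ hn1 hu hph (by
      rw [← hsum]
      have h3 : (n : ℝ) ≤ N := by exact_mod_cast hnN
      rw [div_lt_iff₀ hu0] at hEn
      linarith)
    have hcoef : T.coeff d = (lc : ℤ) := by rw [← hTd, ← hlc]; rfl
    rw [hcoef] at ha1
    set q₂ : ℕ := q₁ * B₀ with hq₂
    have hq₂1 : 1 ≤ q₂ := Nat.mul_pos hq1 hB1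
    have hq₂0 : (0 : ℝ) < q₂ := by exact_mod_cast hq₂1
    have hq₂le : (q₂ : ℝ) ≤ c * B₀ * u ^ m := by
      rw [hq₂]; push_cast
      calc (q₁ : ℝ) * B₀ ≤ (c * u ^ m) * B₀ := by gcongr
        _ = _ := by ring
    have e1 : (q₁ : ℝ) * (α * ((d.factorial : ℝ) * ((lc : ℤ) : ℝ))) = q₂ * α := by
      rw [hq₂, hB₀]; push_cast; ring
    rw [e1] at ha1
    have hnd : (N : ℝ) ^ d / u ^ d ≤ (n : ℝ) ^ d := by
      rw [← div_pow]
      exact pow_le_pow_left₀ (by positivity) hnr.le d
    have ha2 : |(q₂ : ℝ) * α - a₁| ≤ c * u ^ (m + d) / (N : ℝ) ^ d := by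
      refine ha1.trans ?_
      calc c * u ^ m / (n : ℝ) ^ d ≤ c * u ^ m / ((N : ℝ) ^ d / u ^ d) := by
            apply div_le_div_of_nonneg_left (by positivity) (by positivity) hnd
        _ = _ := by rw [pow_add]; field_simp
    -- the reduced fraction
    set g : ℕ := Int.gcd a₁ q₂ with hg
    have hg0 : 0 < g := Int.gcd_pos_of_ne_zero_right _ (by exact_mod_cast (by omega : q₂ ≠ 0))
    obtain ⟨a₂, ha₂⟩ : (g : ℤ) ∣ a₁ := Int.gcd_dvd_left _ _
    obtain ⟨q', hq'⟩ : (g : ℤ) ∣ (q₂ : ℤ) := Int.gcd_dvd_right _ _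
    have hq'0 : 0 < q' := by
      have h3 : (0 : ℤ) < g * q' := by rw [← hq']; exact_mod_cast hq₂1
      exact pos_of_mul_pos_right h3 (by positivity)
    obtain ⟨q, rfl⟩ : ∃ q : ℕ, q' = q := ⟨q'.toNat, (Int.toNat_of_nonneg hq'0.le).symm⟩
    have hq'1 : 1 ≤ q := by exact_mod_cast hq'0
    have hq0 : (0 : ℝ) < q := by exact_mod_cast hq'1
    have hq₂g : q₂ = g * q := by exact_mod_cast hq'
    have hcop : IsCoprime a₂ (q : ℤ) := by
      have h3 : Int.gcd a₂ (q : ℤ) = 1 := by
        have h4 : Int.gcd (g * a₂) (g * q : ℤ) = g * Int.gcd a₂ q := by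
          rw [Int.gcd_mul_left, Int.natAbs_natCast]
        rw [← ha₂, ← hq', ← hg] at h4
        exact Nat.eq_of_mul_eq_mul_left hg0 (by rw [mul_one]; exact h4.symm)
      exact Int.isCoprime_iff_gcd_eq_one.2 h3
    have hqq₂ : q ≤ q₂ := by rw [hq₂g]; exact Nat.le_mul_of_pos_left q hg0
    have hqle : (q : ℝ) ≤ c * B₀ * u ^ m := le_trans (by exact_mod_cast hqq₂) hq₂le
    have hfrac : (a₁ : ℝ) / q₂ = (a₂ : ℝ) / q := by
      rw [ha₂, hq₂g]
      push_cast
      have : (g : ℝ) ≠ 0 := by exact_mod_cast hg0.ne'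
      field_simp
    set β := α - (a₂ : ℝ) / q with hβ
    have hβle : |β| ≤ c * u ^ (m + d) / (N : ℝ) ^ d := by
      rw [hβ, ← hfrac]
      have h3 : α - (a₁ : ℝ) / q₂ = (q₂ * α - a₁) / q₂ := by field_simp
      rw [h3, abs_div, abs_of_pos hq₂0]
      refine (div_le_self (abs_nonneg _) (by exact_mod_cast hq₂1)).trans ha2
    have hβX : |β| * X ≤ c * t1 * u ^ (m + d) := by
      calc |β| * X ≤ (c * u ^ (m + d) / (N : ℝ) ^ d) * (t1 * (N : ℝ) ^ d) := by gcongr
        _ = _ := by field_simp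
    have hupos : ∀ j : ℕ, (1 : ℝ) ≤ u ^ j := fun j => one_le_pow₀ hu
    -- main comparison
    have hmain : ‖SSt τ N α - AA T q a₂ * UU X β‖ ≤ (4 * d * c * B₀ * (1 + 4 * c * t1) + 8 * c * t1 * d) * (X / u) := by
      have e2 : α = (a₂ : ℝ) / q + β := by rw [hβ]; ring
      have h3 := SSt_major τ hτ0 hm' hconv N hN q hq'1 a₂ (fun k => tau_per T hnn q k) β
      rw [← e2] at h3
      have h3' : ‖SSt τ N α - AA T q a₂ * SSt τ N β‖ ≤ (4 * d * c * B₀ * (1 + 4 * c * t1)) * (X / u) := by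
        refine h3.trans ?_
        have h4 : 1 + Real.pi * |β| * X ≤ (1 + 4 * c * t1) * u ^ (m + d) := by
          have h5 : Real.pi * |β| * X ≤ 4 * (c * t1 * u ^ (m + d)) := by
            calc Real.pi * |β| * X = Real.pi * (|β| * X) := by ring
              _ ≤ 4 * (c * t1 * u ^ (m + d)) := by gcongr
          have h6 := hupos (m + d)
          have h7 : (1 + 4 * (c : ℝ) * t1) * u ^ (m + d) = u ^ (m + d) + 4 * (c * t1 * u ^ (m + d)) := by ring
          rw [h7]
          exact add_le_add h6 h5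
        calc 4 * (q : ℝ) * V * (1 + Real.pi * |β| * X) ≤ 4 * (c * B₀ * u ^ m) * V * ((1 + 4 * c * t1) * u ^ (m + d)) := by gcongr
          _ = (4 * c * B₀ * (1 + 4 * c * t1)) * (u ^ (2 * m + d) * V) := by
              rw [show 2 * m + d = m + (m + d) by ring, pow_add u m (m + d)]; ring
          _ ≤ (4 * c * B₀ * (1 + 4 * c * t1)) * (d * (X / u)) := by
              apply mul_le_mul_of_nonneg_left (hNu _ le_rfl) (by positivity)
          _ = _ := by ring
      have h4 : ‖AA T q a₂ * SSt τ N β - AA T q a₂ * UU X β‖ ≤ (8 * c * t1 * d) * (X / u) := by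
        rw [← mul_sub, norm_mul]
        calc ‖AA T q a₂‖ * ‖SSt τ N β - UU X β‖ ≤ 1 * (8 * (|β| * X) * V) := by
              apply mul_le_mul (AA_le T q hq'1 a₂) (hnear β) (norm_nonneg _) (by norm_num)
          _ ≤ 8 * (c * t1 * u ^ (m + d)) * V := by rw [one_mul]; gcongr
          _ = 8 * c * t1 * (u ^ (m + d) * V) := by ring
          _ ≤ 8 * c * t1 * (d * (X / u)) := by
              apply mul_le_mul_of_nonneg_left (hNu _ (by omega)) (by positivity)
          _ = _ := by ring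
      calc ‖SSt τ N α - AA T q a₂ * UU X β‖ =
            ‖(SSt τ N α - AA T q a₂ * SSt τ N β) + (AA T q a₂ * SSt τ N β - AA T q a₂ * UU X β)‖ := by congr 1; ring
        _ ≤ _ := norm_add_le _ _
        _ ≤ _ := by linarith
    have hcB : c * B₀ ≤ u := by
      refine le_trans ?_ husmall
      have h3 : (c : ℝ) ≤ 2 * c ^ 2 := by
        have : (c : ℝ) * 1 ≤ c * c := mul_le_mul_of_nonneg_left hc0 (by linarith only [hc0])
        rw [pow_two]
        linarith only [this, hc0]
      exact mul_le_mul_of_nonneg_right h3 (by linarith only [hB0])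
    have hqN : q ≤ N := by
      have h3 : (q : ℝ) ≤ N := by
        calc (q : ℝ) ≤ c * B₀ * u ^ m := hqle
          _ ≤ u * u ^ m := by gcongr
          _ = u ^ (m + 1) := by ring
          _ ≤ u ^ (2 * m + d + 1) := pow_le_pow_right₀ hu (by omega)
          _ ≤ N := huN
      exact_mod_cast h3
    have hq1' : (q : ℤ) ≠ 0 := by exact_mod_cast (by omega : q ≠ 0)
    obtain ⟨a, ha⟩ : ∃ a : ℕ, a₂ % q = a := ⟨(a₂ % q).toNat, (Int.toNat_of_nonneg (Int.emod_nonneg _ hq1')).symm⟩
    have halt : a < q := by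
      have : a₂ % q < q := Int.emod_lt_of_pos _ (by exact_mod_cast hq'1)
      rw [ha] at this
      exact_mod_cast this
    have hdiv : (q : ℤ) ∣ a₂ - a := by
      rw [← ha]
      exact Int.dvd_self_sub_emod
    have hacop : a.Coprime q := by
      rw [← Nat.isCoprime_iff_coprime]
      obtain ⟨z, hz⟩ := hdiv
      have : (a : ℤ) = a₂ + q * (-z) := by linarith
      rw [this]
      exact (IsCoprime.add_mul_left_left_iff).2 hcop
    have hshift : UU X (α - (a : ℝ) / q) = UU X β := by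
      obtain ⟨z, hz⟩ := hdiv
      have h3 : α - (a : ℝ) / q = β + z := by
        rw [hβ]
        have h4 : (a₂ : ℝ) = a + q * z := by
          have : a₂ = a + q * z := by linarith
          exact_mod_cast this
        rw [h4]
        field_simp
        ring
      rw [h3, UU_add_int]
    have hAa : AA T q a = AA T q a₂ := (AA_mod T q hq'1 a₂ a hdiv).symm
    refine ⟨q, a, hq'1, hqN, halt, hacop, ?_⟩
    by_cases hq11 : q = 1
    · rw [if_pos hq11, zero_add]
      subst hq11
      rw [AA_one T h0, one_mul] at hmain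
      have h3 : UU X α = UU X β := by
        have : α = β + (a₂ : ℤ) := by rw [hβ]; simp
        rw [this, UU_add_int]
      rw [h3]
      refine hmain.trans ?_
      rw [mul_div_assoc]
      apply mul_le_mul_of_nonneg_right _ hXu.le
      have : 0 ≤ 4 * (d : ℝ) + 4 * c ^ 2 * B₀ + 2 := by positivity
      rw [hC]
      linarith
    · rw [if_neg hq11, hshift]
      have hq2' : 2 ≤ q := by omega
      -- the linear sum is small
      have hUα : ‖UU X α‖ ≤ X / u := by
        have hbig : 2 * c ^ 2 * B₀ * u ^ (2 * m + d) ≤ (N : ℝ) ^ d := by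
          calc 2 * c ^ 2 * B₀ * u ^ (2 * m + d) ≤ u * u ^ (2 * m + d) := by gcongr
            _ = u ^ (2 * m + d + 1) := by ring
            _ ≤ N := huN
            _ = (N : ℝ) ^ 1 := (pow_one _).symm
            _ ≤ (N : ℝ) ^ d := pow_le_pow_right₀ (by exact_mod_cast hN) hd
        have hβq : |β| ≤ 1 / (2 * q) := by
          refine hβle.trans ?_
          rw [div_le_div_iff₀ (by positivity) (by positivity), one_mul]
          calc c * u ^ (m + d) * (2 * q) ≤ c * u ^ (m + d) * (2 * (c * B₀ * u ^ m)) := by gcongr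
            _ = 2 * c ^ 2 * B₀ * u ^ (2 * m + d) := by
                rw [show 2 * m + d = m + (m + d) by ring, pow_add u m (m + d)]; ring
            _ ≤ _ := hbig
        have hfar : ∀ z : ℤ, 1 / (2 * (q : ℝ)) ≤ |α - z| := by
          intro z
          have h3 : 1 / (q : ℝ) ≤ |(a₂ : ℝ) / q - z| := by
            have h4 : (a₂ : ℝ) / q - z = ((a₂ - z * q : ℤ) : ℝ) / q := by push_cast; field_simp
            rw [h4, abs_div, abs_of_pos hq0]
            apply div_le_div_of_nonneg_right _ hq0.le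
            have h5 : a₂ - z * q ≠ 0 := by
              intro h6
              have h7 : (q : ℤ) ∣ a₂ := ⟨z, by linarith⟩
              have h8 : IsUnit (q : ℤ) := hcop.isUnit_of_dvd' h7 dvd_rfl
              rw [Int.isUnit_iff] at h8
              omega
            have h6 : (1 : ℤ) ≤ |a₂ - z * q| := Int.one_le_abs h5
            exact_mod_cast h6
          have h4 : α - z = ((a₂ : ℝ) / q - z) + β := by rw [hβ]; ring
          have h5 : |(a₂ : ℝ) / q - z| ≤ |α - z| + |β| := by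
            have : (a₂ : ℝ) / q - z = (α - z) - β := by rw [h4]; ring
            rw [this]
            exact abs_sub _ _
          have h6 : 1 / (q : ℝ) = 1 / (2 * q) + 1 / (2 * q) := by field_simp; norm_num
          linarith
        have h3 := UU_far X α (1 / (2 * q)) (by positivity) hfar
        have e : 1 / (2 * (1 / (2 * (q : ℝ)))) = q := by field_simp
        rw [e] at h3
        refine h3.trans ?_
        rw [le_div_iff₀ hu0]
        calc (q : ℝ) * u ≤ (c * B₀ * u ^ m) * u := by gcongr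
          _ ≤ (u * u ^ m) * u := by gcongr
          _ = u ^ (m + 2) := by ring
          _ ≤ u ^ (2 * m + d + 1) := pow_le_pow_right₀ hu (by omega)
          _ ≤ N := huN
          _ ≤ X := hXN'
      calc ‖SSt τ N α - UU X α‖ = ‖(SSt τ N α - AA T q a₂ * UU X β) + (AA T q a₂ * UU X β - UU X α)‖ := by congr 1; ring
        _ ≤ ‖SSt τ N α - AA T q a₂ * UU X β‖ + ‖AA T q a₂ * UU X β - UU X α‖ := norm_add_le _ _
        _ ≤ (4 * d * c * B₀ * (1 + 4 * c * t1) + 8 * c * t1 * d) * (X / u) + (‖AA T q a₂‖ * ‖UU X β‖ + X / u) := by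
            apply add_le_add hmain
            refine (norm_sub_le _ _).trans ?_
            rw [norm_mul]
            exact add_le_add le_rfl hUα
        _ = ‖AA T q a‖ * ‖UU X β‖ + (4 * d * c * B₀ * (1 + 4 * c * t1) + 8 * c * t1 * d + 1) * (X / u) := by rw [hAa]; ring
        _ ≤ ‖AA T q a‖ * ‖UU X β‖ + C * (X / u) := by
            apply add_le_add le_rfl
            apply mul_le_mul_of_nonneg_right _ hXu.le
            have : 0 ≤ 4 * (d : ℝ) + 4 * c ^ 2 * B₀ := by positivity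
            rw [hC]
            linarith
        _ = _ := by ring

end Pool.Agent.H566
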