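import Mathlib
import Pool.Agent.H566.KSd
import Pool.Agent.H566.MGh

/-!
Moments of the exponential sum over the values of a polynomial minus the linear exponential sum.
-/

set_option autoImplicit false

namespace Pool.Agent.H566

open Finset Polynomial
open Pool.Agent.H807R2.Dav

lemma UU_parseval (X : ℕ) (hX : 0 < X) (θ : ℝ) : ∑ r ∈ range X, ‖UU X ((r : ℝ) / X - θ)‖ ^ 2 = (X : ℝ) * X := by
  have hP := parseval (Ioc 0 X) 0 X hX (by simp) (fun s => ee (-(s * θ)))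
  have h1 : ∀ r ∈ range X, ‖∑ s ∈ Ioc 0 X, ee (-(s * θ)) * ee (s * ((r : ℝ) / X))‖ ^ 2 = ‖UU X ((r : ℝ) / X - θ)‖ ^ 2 := by
    intro r _
    have h2 : ∑ s ∈ Ioc 0 X, ee (-(s * θ)) * ee (s * ((r : ℝ) / X)) = ee ((r : ℝ) / X - θ) * UU X ((r : ℝ) / X - θ) := by
      unfold UU
      have e : Ioc 0 X = (range X).image (fun n => n + 1) := by
        ext n
        simp only [mem_Ioc, mem_image, mem_range]
        constructor
        · rintro ⟨h3, h4⟩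
          exact ⟨n - 1, by omega, by omega⟩
        · rintro ⟨m, h3, rfl⟩
          omega
      rw [e, sum_image (fun a _ b _ h => by simpa using h), mul_sum]
      apply sum_congr rfl
      intro n _
      rw [← ee_add, ← ee_add]
      congr 1
      push_cast
      ring
    rw [h2, norm_mul, norm_ee, one_mul]
  rw [sum_congr rfl h1] at hP
  rw [hP]
  simp [norm_ee]

lemma UU_moment (X p : ℕ) (hX : 0 < X) (hp : 2 ≤ p) (θ : ℝ) : ∑ r ∈ range X, ‖UU X ((r : ℝ) / X - θ)‖ ^ p ≤ (X : ℝ) ^ p := by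
  have h1 : ∀ r ∈ range X, ‖UU X ((r : ℝ) / X - θ)‖ ^ p ≤ (X : ℝ) ^ (p - 2) * ‖UU X ((r : ℝ) / X - θ)‖ ^ 2 := by
    intro r _
    have e : p = (p - 2) + 2 := by omega
    conv_lhs => rw [e, pow_add]
    apply mul_le_mul_of_nonneg_right _ (by positivity)
    exact pow_le_pow_left₀ (norm_nonneg _) (UU_le X _) _
  refine (sum_le_sum h1).trans ?_
  rw [← mul_sum, UU_parseval X hX, ← pow_two, ← pow_add]
  apply le_of_eq
  congr 1
  omega

lemma sum_inv_sq (w : ℕ) (hw : 1 ≤ w) (N : ℕ) (hN : w ≤ N) : ∑ q ∈ Ioc w N, 1 / (q : ℝ) ^ 2 ≤ 1 / (w : ℝ) - 1 / (N : ℝ) := by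
  induction N, hN using Nat.le_induction with
  | base => simp
  | succ n hn ih =>
    rw [← Finset.insert_Ioc_right_eq_Ioc_add_one hn, sum_insert (by simp)]
    have hn0 : (0 : ℝ) < n := by exact_mod_cast (by omega : 0 < n)
    have h1 : 1 / (((n + 1 : ℕ)) : ℝ) ^ 2 ≤ 1 / n - 1 / ((n + 1 : ℕ) : ℝ) := by
      push_cast
      rw [div_sub_div _ _ hn0.ne' (by positivity), div_le_div_iff₀ (by positivity) (by positivity)]
      nlinarith
    linarith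

lemma add_pow_le_two (x y : ℝ) (hx : 0 ≤ x) (hy : 0 ≤ y) (p : ℕ) : (x + y) ^ p ≤ 2 ^ p * (x ^ p + y ^ p) := by
  rcases le_total x y with h | h
  · calc (x + y) ^ p ≤ (2 * y) ^ p := pow_le_pow_left₀ (by positivity) (by linarith) p
      _ = 2 ^ p * y ^ p := mul_pow _ _ _
      _ ≤ _ := by gcongr; have := pow_nonneg hx p; linarith
  · calc (x + y) ^ p ≤ (2 * x) ^ p := pow_le_pow_left₀ (by positivity) (by linarith) p
      _ = 2 ^ p * x ^ p := mul_pow _ _ _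
      _ ≤ _ := by gcongr; have := pow_nonneg hy p; linarith

/-- the data attached to a point where the polynomial has no small prime factors -/
structure Dat (R : ℤ[X]) (w m₀ Q' Q x₀ : ℕ) (T : ℤ[X]) : Prop where
  m₀pos : 0 < m₀
  Q'pos : 0 < Q'
  Qpos : 0 < Q
  x₀pos : 0 < x₀
  cop : x₀.Coprime Q
  Q'l : ∀ l : ℕ, l.Prime → (l ∣ Q' ↔ l ≤ w)
  Ql : ∀ l : ℕ, l.Prime → (l ∣ Q ↔ l ≤ w)
  ev : ∀ k : ℕ, R.eval ((m₀ + Q' * k : ℕ) : ℤ) = 2 * x₀ + Q * T.eval (k : ℤ)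
  c0 : T.coeff 0 = 0
  deg : T.natDegree = R.natDegree
  nn : ∀ j, 0 ≤ T.coeff j
  lead : 0 < T.leadingCoeff
  c1 : 0 < T.coeff 1
  cl : ∀ l : ℕ, l.Prime → l ≤ w → ¬ (l : ℤ) ∣ T.coeff 1 ∧ ∀ j, 2 ≤ j → (l : ℤ) ∣ T.coeff j

theorem exists_dat (R : ℤ[X]) (hl : 0 < R.leadingCoeff) (hd : 1 ≤ R.natDegree)
    (hloc : ∀ l : ℕ, l.Prime → ∃ m : ℕ, 2 ∣ R.eval (m : ℤ) ∧ ¬ (l : ℤ) ∣ R.eval (m : ℤ) / 2) (w : ℕ) :
    ∃ (m₀ Q' Q x₀ : ℕ) (T : ℤ[X]), Dat R w m₀ Q' Q x₀ T := by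
  obtain ⟨m₀, Q', Q, x₀, T, h0, h1, h2, h3, h4, h5, h6, h7, h8, h9, h10, h11, h12, h13⟩ := ks_data R hl hd hloc w
  exact ⟨m₀, Q', Q, x₀, T, h0, h1, h2, h3, h4, h5, h6, h7, h8, h9, h10, h11, h12, h13⟩

/-- the complete sums -/
lemma AA_bound (R : ℤ[X]) (hd : 2 ≤ R.natDegree) (hl : 0 < R.leadingCoeff) : ∃ (M : ℕ) (C : ℝ), 0 < C ∧
    ∀ (w m₀ Q' Q x₀ : ℕ) (T : ℤ[X]), Dat R w m₀ Q' Q x₀ T → ∀ q a : ℕ, 2 ≤ q → a.Coprime q →
      (q ≤ w → AA T q a = 0) ∧ ∀ p : ℕ, 1 ≤ p → 3 * M ≤ p → ‖AA T q a‖ ^ p ≤ (C / q) ^ 3 := by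
  obtain ⟨C, M, hC, hb⟩ := compl_bound R hd hl
  have hC0 : (0 : ℝ) < C := by exact_mod_cast hC
  refine ⟨M, C, hC0, fun w m₀ Q' Q x₀ T D q a hq ha => ?_⟩
  have ha' : IsCoprime (a : ℤ) (q : ℤ) := Nat.isCoprime_iff_coprime.2 ha
  have hq0 : (0 : ℝ) < q := by exact_mod_cast (by omega : 0 < q)
  have hzero : ∀ l : ℕ, l.Prime → l ≤ w → l ∣ q → AA T q a = 0 := by
    intro l hl hlw hlq
    have h1 := compl_zero T D.nn D.c1 l hl (D.cl l hl hlw).1 (D.cl l hl hlw).2 q (by omega) hlq a ha'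
    unfold AA
    rw [h1, zero_div]
  constructor
  · intro hqw
    have h1 : q ≠ 1 := by omega
    exact hzero q.minFac (Nat.minFac_prime h1) ((Nat.minFac_le (by omega)).trans hqw) (Nat.minFac_dvd q)
  · intro p hp1 hp
    by_cases hA : AA T q a = 0
    · rw [hA, norm_zero, zero_pow (by omega)]
      positivity
    · have hcopw : ∀ l : ℕ, l.Prime → l ≤ w → ¬ l ∣ q := fun l hl hlw hlq => hA (hzero l hl hlw hlq)
      have hQ : Q.Coprime q := by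
        by_contra h
        obtain ⟨l, hl, h1, h2⟩ := Nat.Prime.not_coprime_iff_dvd.1 h
        exact hcopw l hl ((D.Ql l hl).1 h1) h2
      have hQ' : Q'.Coprime q := by
        by_contra h
        obtain ⟨l, hl, h1, h2⟩ := Nat.Prime.not_coprime_iff_dvd.1 h
        exact hcopw l hl ((D.Q'l l hl).1 h1) h2
      obtain ⟨a', ha'1, ha'2⟩ := compl_transfer R T D.nn m₀ Q' Q x₀ D.ev q (by omega) hQ hQ' a ha'
      have hA0 : 0 < ‖AA T q a‖ := norm_pos_iff.2 hA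
      have hA1 : ‖AA T q a‖ ≤ 1 := AA_le T q (by omega) a
      have hAe : ‖AA T q a‖ = ‖∑ r ∈ range q, ee (((a' * R.eval (r : ℤ) : ℤ) : ℝ) / q)‖ / q := by
        unfold AA
        rw [norm_div, Complex.norm_natCast, ha'2]
      have h1 := hb q a' (1 / ‖AA T q a‖) (by omega) ha'1 (by rw [le_div_iff₀ hA0, one_mul]; exact hA1) (by
        have h2 : ‖∑ r ∈ range q, ee (((a' * R.eval (r : ℤ) : ℤ) : ℝ) / q)‖ = ‖AA T q a‖ * q := by rw [hAe]; field_simp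
        rw [h2]
        apply le_of_eq
        field_simp)
      have h2 : ‖AA T q a‖ ^ M ≤ C / q := by
        rw [one_div, inv_pow] at h1
        rw [le_div_iff₀ hq0]
        have h3 : 0 < ‖AA T q a‖ ^ M := by positivity
        calc ‖AA T q a‖ ^ M * q ≤ ‖AA T q a‖ ^ M * (C * (‖AA T q a‖ ^ M)⁻¹) := by gcongr
          _ = C := by field_simp
      calc ‖AA T q a‖ ^ p = ‖AA T q a‖ ^ (3 * M) * ‖AA T q a‖ ^ (p - 3 * M) := by rw [← pow_add]; congr 1; omega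
        _ ≤ ‖AA T q a‖ ^ (3 * M) * 1 := by
            apply mul_le_mul_of_nonneg_left _ (by positivity)
            exact pow_le_one₀ hA0.le hA1
        _ = (‖AA T q a‖ ^ M) ^ 3 := by rw [mul_one, mul_comm 3 M, pow_mul]
        _ ≤ _ := pow_le_pow_left₀ (by positivity) h2 3

theorem moment (R : ℤ[X]) (hd : 2 ≤ R.natDegree) (hl : 0 < R.leadingCoeff) : ∃ t : ℕ, 1 ≤ t ∧ ∃ C₀ : ℝ, 0 < C₀ ∧
    ∀ (w m₀ Q' Q x₀ : ℕ) (T : ℤ[X]), 1 ≤ w → Dat R w m₀ Q' Q x₀ T → ∃ N₀ : ℕ, ∀ N : ℕ, N₀ ≤ N →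
      ∑ r ∈ range (tau T N), ‖SSt (tau T) N ((r : ℝ) / (tau T N)) - UU (tau T N) ((r : ℝ) / (tau T N))‖ ^ (2 * t) ≤
        C₀ / w * (tau T N : ℝ) ^ (2 * t) := by
  obtain ⟨M, C, hC, hAb⟩ := AA_bound R hd hl
  obtain ⟨m, hpt⟩ := point R.natDegree (by omega)
  set d := R.natDegree with hdd
  set e := 2 * m + d + 1 with he
  set t := 3 * M + e * (d + 1) + 1 with ht
  set p := 2 * t with hp
  refine ⟨t, by omega, 2 ^ p * (C ^ 3 + 1), by positivity, fun w m₀ Q' Q x₀ T hw D => ?_⟩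
  obtain ⟨C₁, hC₁, hP⟩ := hpt T D.deg D.nn D.c0 D.c1 D.lead
  set t1 := tau T 1 with ht1
  have hw0 : (0 : ℝ) < w := by exact_mod_cast hw
  refine ⟨max (max 1 (w + 1)) (⌈(t1 : ℝ) * C₁ ^ p * w⌉₊), fun N hN => ?_⟩
  have hN1 : 1 ≤ N := le_trans (le_max_left _ _) (le_trans (le_max_left _ _) hN)
  have hNw : w + 1 ≤ N := le_trans (le_max_right _ _) (le_trans (le_max_left _ _) hN)
  have hNb : (t1 : ℝ) * C₁ ^ p * w ≤ N := (Nat.le_ceil _).trans (by exact_mod_cast le_trans (le_max_right _ _) hN)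
  have hN0 : (0 : ℝ) < N := by exact_mod_cast hN1
  have hN1r : (1 : ℝ) ≤ N := by exact_mod_cast hN1
  set X := tau T N with hX
  have hXN : N ≤ X := tau_ge T D.nn D.c1 N
  have hXpos : 0 < X := by omega
  have hX0 : (0 : ℝ) < X := by exact_mod_cast hXpos
  have hXle : (X : ℝ) ≤ t1 * (N : ℝ) ^ d := by
    have := tau_le T D.nn N hN1
    rw [D.deg] at this
    exact_mod_cast this
  have he0 : 0 < e := by omega
  set u : ℝ := (N : ℝ) ^ ((1 : ℝ) / e) with hu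
  have hu1 : 1 ≤ u := Real.one_le_rpow hN1r (by positivity)
  have hue : u ^ e = N := by
    rw [hu, ← Real.rpow_natCast, ← Real.rpow_mul hN0.le]
    have : (1 : ℝ) / e * (e : ℝ) = 1 := by
      have : (e : ℝ) ≠ 0 := by exact_mod_cast he0.ne'
      field_simp
    rw [this, Real.rpow_one]
  have hu0 : 0 < u := by linarith
  have hup : (N : ℝ) ^ (d + 1) ≤ u ^ p := by
    rw [← hue, ← pow_mul]
    apply pow_le_pow_right₀ hu1
    rw [hp, ht]
    omega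
  set E : ℝ := (C₁ * X / u) ^ p with hE
  have hXE : X * E ≤ (X : ℝ) ^ p / w := by
    have h1 : E = C₁ ^ p * (X : ℝ) ^ p / u ^ p := by rw [hE, div_pow, mul_pow]
    rw [h1]
    have h2 : (X : ℝ) * (C₁ ^ p * (X : ℝ) ^ p / u ^ p) = (X : ℝ) ^ p * (X * C₁ ^ p / u ^ p) := by ring
    rw [h2, div_eq_mul_one_div ((X : ℝ) ^ p) (w : ℝ)]
    apply mul_le_mul_of_nonneg_left _ (by positivity)
    rw [div_le_div_iff₀ (by positivity) hw0, one_mul]
    calc (X : ℝ) * C₁ ^ p * w ≤ (t1 * (N : ℝ) ^ d) * C₁ ^ p * w := by gcongr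
      _ = (t1 * C₁ ^ p * w) * (N : ℝ) ^ d := by ring
      _ ≤ N * (N : ℝ) ^ d := by gcongr
      _ = (N : ℝ) ^ (d + 1) := by ring
      _ ≤ _ := hup
  -- the bound at each point
  have hterm : ∀ r ∈ range X, ‖SSt (tau T) N ((r : ℝ) / X) - UU X ((r : ℝ) / X)‖ ^ p ≤
      2 ^ p * (∑ q ∈ Ioc w N, ∑ a ∈ range q, (C / q) ^ 3 * ‖UU X ((r : ℝ) / X - (a : ℝ) / q)‖ ^ p + E) := by
    intro r _
    obtain ⟨q, a, hq1, hqN, haq, hcop, hle⟩ := hP N u hN1 hu1 hue.le ((r : ℝ) / X)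
    rw [← hX] at hle
    have hnn : 0 ≤ ∑ q ∈ Ioc w N, ∑ a ∈ range q, (C / q) ^ 3 * ‖UU X ((r : ℝ) / X - (a : ℝ) / q)‖ ^ p :=
      sum_nonneg fun _ _ => sum_nonneg fun _ _ => by positivity
    have h2p : (1 : ℝ) ≤ 2 ^ p := one_le_pow₀ (by norm_num)
    have hE0 : 0 ≤ E := by positivity
    have hsimple : ‖SSt (tau T) N ((r : ℝ) / X) - UU X ((r : ℝ) / X)‖ ≤ C₁ * X / u →
        ‖SSt (tau T) N ((r : ℝ) / X) - UU X ((r : ℝ) / X)‖ ^ p ≤
      2 ^ p * (∑ q ∈ Ioc w N, ∑ a ∈ range q, (C / q) ^ 3 * ‖UU X ((r : ℝ) / X - (a : ℝ) / q)‖ ^ p + E) := by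
      intro h
      calc _ ≤ E := pow_le_pow_left₀ (norm_nonneg _) h p
        _ = 1 * (0 + E) := by ring
        _ ≤ _ := by gcongr
    by_cases hq : q = 1
    · rw [if_pos hq, zero_add] at hle
      exact hsimple hle
    rw [if_neg hq] at hle
    obtain ⟨hA1, hA2⟩ := hAb w m₀ Q' Q x₀ T D q a (by omega) hcop
    by_cases hqw : q ≤ w
    · rw [hA1 hqw, norm_zero, zero_mul, zero_add] at hle
      exact hsimple hle
    have hA := hA2 p (by omega) (by omega)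
    calc _ ≤ (‖AA T q a‖ * ‖UU X ((r : ℝ) / X - (a : ℝ) / q)‖ + C₁ * X / u) ^ p := pow_le_pow_left₀ (norm_nonneg _) hle p
      _ ≤ 2 ^ p * ((‖AA T q a‖ * ‖UU X ((r : ℝ) / X - (a : ℝ) / q)‖) ^ p + (C₁ * X / u) ^ p) :=
          add_pow_le_two _ _ (by positivity) (by positivity) p
      _ ≤ _ := by
          apply mul_le_mul_of_nonneg_left _ (by positivity)
          apply add_le_add _ le_rfl
          have h3 : (‖AA T q a‖ * ‖UU X ((r : ℝ) / X - (a : ℝ) / q)‖) ^ p ≤ (C / q) ^ 3 * ‖UU X ((r : ℝ) / X - (a : ℝ) / q)‖ ^ p := by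
            rw [mul_pow]
            exact mul_le_mul_of_nonneg_right hA (by positivity)
          refine h3.trans ?_
          refine le_trans ?_ (single_le_sum (f := fun q : ℕ => ∑ a ∈ range q, (C / q) ^ 3 * ‖UU X ((r : ℝ) / X - (a : ℝ) / q)‖ ^ p)
            (fun _ _ => sum_nonneg fun _ _ => by positivity) (mem_Ioc.2 ⟨by omega, hqN⟩))
          exact single_le_sum (f := fun a : ℕ => (C / q) ^ 3 * ‖UU X ((r : ℝ) / X - (a : ℝ) / q)‖ ^ p)
            (fun _ _ => by positivity) (mem_range.2 haq)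
  refine (sum_le_sum hterm).trans ?_
  rw [← mul_sum, sum_add_distrib, sum_const, card_range, nsmul_eq_mul]
  have hsum1 : ∑ r ∈ range X, ∑ q ∈ Ioc w N, ∑ a ∈ range q, (C / q) ^ 3 * ‖UU X ((r : ℝ) / X - (a : ℝ) / q)‖ ^ p ≤
      C ^ 3 / w * (X : ℝ) ^ p := by
    rw [sum_comm]
    have h1 : ∀ q ∈ Ioc w N, ∑ r ∈ range X, ∑ a ∈ range q, (C / q) ^ 3 * ‖UU X ((r : ℝ) / X - (a : ℝ) / q)‖ ^ p ≤
        C ^ 3 * (X : ℝ) ^ p * (1 / (q : ℝ) ^ 2) := by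
      intro q hq
      rw [mem_Ioc] at hq
      have hq0 : (0 : ℝ) < q := by exact_mod_cast (by omega : 0 < q)
      rw [sum_comm]
      have h2 : ∀ a ∈ range q, ∑ r ∈ range X, (C / q) ^ 3 * ‖UU X ((r : ℝ) / X - (a : ℝ) / q)‖ ^ p ≤ (C / q) ^ 3 * (X : ℝ) ^ p := by
        intro a _
        rw [← mul_sum]
        exact mul_le_mul_of_nonneg_left (UU_moment X p hXpos (by omega) _) (by positivity)
      refine (sum_le_sum h2).trans ?_
      rw [sum_const, card_range, nsmul_eq_mul]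
      apply le_of_eq
      field_simp
    refine (sum_le_sum h1).trans ?_
    rw [← mul_sum]
    have h2 := sum_inv_sq w hw N (by omega)
    have h3 : (0 : ℝ) ≤ 1 / N := by positivity
    calc C ^ 3 * (X : ℝ) ^ p * ∑ q ∈ Ioc w N, 1 / (q : ℝ) ^ 2 ≤ C ^ 3 * (X : ℝ) ^ p * (1 / w) := by
          apply mul_le_mul_of_nonneg_left _ (by positivity)
          linarith
      _ = _ := by ring
  calc 2 ^ p * (∑ r ∈ range X, ∑ q ∈ Ioc w N, ∑ a ∈ range q, (C / q) ^ 3 * ‖UU X ((r : ℝ) / X - (a : ℝ) / q)‖ ^ p + X * E) ≤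
        2 ^ p * (C ^ 3 / w * (X : ℝ) ^ p + (X : ℝ) ^ p / w) := by gcongr
    _ = _ := by ring

end Pool.Agent.H566
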