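import Mathlib
import Pool.Agent.H566.KSe
import Pool.Agent.H566.KSf

/-!
Sums of two elements with weights at the values of a polynomial.
-/

set_option autoImplicit false

namespace Pool.Agent.H566

open Finset Polynomial
open Pool.Agent.H807R2.Dav

lemma sq_expand {γ : Type*} (G : Finset γ) (c : γ → ℝ) (φ : γ → ℕ) (X : ℕ) (hX : 0 < X) :
    ((∑ r ∈ range X, ‖∑ g ∈ G, ((c g : ℝ) : ℂ) * ee (φ g * ((r : ℝ) / X))‖ ^ 2 : ℝ) : ℂ) =
      ∑ g ∈ G, ∑ h ∈ G, ((c g * c h * (if (X : ℤ) ∣ (φ g : ℤ) - φ h then (X : ℝ) else 0) : ℝ) : ℂ) := by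
  rw [Complex.ofReal_sum]
  have h1 : ∀ r ∈ range X, ((‖∑ g ∈ G, ((c g : ℝ) : ℂ) * ee (φ g * ((r : ℝ) / X))‖ ^ 2 : ℝ) : ℂ) =
      ∑ g ∈ G, ∑ h ∈ G, ((c g * c h : ℝ) : ℂ) * ee ((((φ g : ℤ) - φ h : ℤ) : ℝ) * ((r : ℝ) / X)) := by
    intro r _
    rw [Complex.ofReal_pow, ← Complex.mul_conj', map_sum, sum_mul_sum]
    apply sum_congr rfl
    intro g _
    apply sum_congr rfl
    intro h _
    rw [map_mul, conj_ee, Complex.conj_ofReal]
    have e : ee ((((φ g : ℤ) - φ h : ℤ) : ℝ) * ((r : ℝ) / X)) = ee (φ g * ((r : ℝ) / X)) * ee (-(φ h * ((r : ℝ) / X))) := by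
      rw [← ee_add]
      congr 1
      push_cast
      ring
    rw [e]
    push_cast
    ring
  rw [sum_congr rfl h1, sum_comm]
  apply sum_congr rfl
  intro g _
  rw [sum_comm]
  apply sum_congr rfl
  intro h _
  rw [← mul_sum, ee_orth' X hX]
  split_ifs
  · push_cast; ring
  · push_cast; ring

lemma sq_mono {γ : Type*} (G : Finset γ) (c c' : γ → ℝ) (φ : γ → ℕ) (X : ℕ) (hX : 0 < X) (h0 : ∀ g ∈ G, 0 ≤ c g)
    (hc : ∀ g ∈ G, c g ≤ c' g) :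
    ∑ r ∈ range X, ‖∑ g ∈ G, ((c g : ℝ) : ℂ) * ee (φ g * ((r : ℝ) / X))‖ ^ 2 ≤
      ∑ r ∈ range X, ‖∑ g ∈ G, ((c' g : ℝ) : ℂ) * ee (φ g * ((r : ℝ) / X))‖ ^ 2 := by
  have h1 := sq_expand G c φ X hX
  have h2 := sq_expand G c' φ X hX
  have e1 : ∑ r ∈ range X, ‖∑ g ∈ G, ((c g : ℝ) : ℂ) * ee (φ g * ((r : ℝ) / X))‖ ^ 2 =
      ∑ g ∈ G, ∑ h ∈ G, (c g * c h * (if (X : ℤ) ∣ (φ g : ℤ) - φ h then (X : ℝ) else 0)) := by exact_mod_cast h1
  have e2 : ∑ r ∈ range X, ‖∑ g ∈ G, ((c' g : ℝ) : ℂ) * ee (φ g * ((r : ℝ) / X))‖ ^ 2 =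
      ∑ g ∈ G, ∑ h ∈ G, (c' g * c' h * (if (X : ℤ) ∣ (φ g : ℤ) - φ h then (X : ℝ) else 0)) := by exact_mod_cast h2
  rw [e1, e2]
  apply sum_le_sum
  intro g hg
  apply sum_le_sum
  intro h hh
  have h3 : (0 : ℝ) ≤ (if (X : ℤ) ∣ (φ g : ℤ) - φ h then (X : ℝ) else 0) := by
    split_ifs
    · exact Nat.cast_nonneg _
    · exact le_rfl
  apply mul_le_mul_of_nonneg_right _ h3
  exact mul_le_mul (hc g hg) (hc h hh) (h0 h hh) ((h0 g hg).trans (hc g hg))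

/-- the majorant property for even exponents -/
lemma majorant (J : Finset ℕ) (c c' : ℕ → ℝ) (φ : ℕ → ℕ) (X t : ℕ) (hX : 0 < X) (h0 : ∀ g ∈ J, 0 ≤ c g)
    (hc : ∀ g ∈ J, c g ≤ c' g) :
    ∑ r ∈ range X, ‖∑ g ∈ J, ((c g : ℝ) : ℂ) * ee (φ g * ((r : ℝ) / X))‖ ^ (2 * t) ≤
      ∑ r ∈ range X, ‖∑ g ∈ J, ((c' g : ℝ) : ℂ) * ee (φ g * ((r : ℝ) / X))‖ ^ (2 * t) := by
  have hexp : ∀ (b : ℕ → ℝ) (r : ℕ), ‖∑ g ∈ J, ((b g : ℝ) : ℂ) * ee (φ g * ((r : ℝ) / X))‖ ^ (2 * t) =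
      ‖∑ g ∈ Fintype.piFinset (fun _ : Fin t => J), ((∏ i, b (g i) : ℝ) : ℂ) * ee (((∑ i, φ (g i) : ℕ) : ℝ) * ((r : ℝ) / X))‖ ^ 2 := by
    intro b r
    rw [mul_comm 2 t, pow_mul, ← norm_pow]
    congr 2
    have h1 : (∑ g ∈ J, ((b g : ℝ) : ℂ) * ee (φ g * ((r : ℝ) / X))) ^ t =
        ∏ _i : Fin t, ∑ g ∈ J, ((b g : ℝ) : ℂ) * ee (φ g * ((r : ℝ) / X)) := by simp
    rw [h1, prod_univ_sum]
    apply sum_congr rfl
    intro g _
    rw [prod_mul_distrib, Complex.ofReal_prod]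
    congr 1
    have h2 : ∀ (s : Finset (Fin t)), ∏ i ∈ s, ee (φ (g i) * ((r : ℝ) / X)) = ee (((∑ i ∈ s, φ (g i) : ℕ) : ℝ) * ((r : ℝ) / X)) := by
      classical
      intro s
      induction s using Finset.induction_on with
      | empty => simp [ee_zero]
      | insert a s ha ih =>
        rw [prod_insert ha, sum_insert ha, ih, ← ee_add]
        congr 1
        push_cast
        ring
    exact h2 univ
  simp_rw [hexp]
  apply sq_mono _ _ _ _ X hX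
  · intro g hg
    rw [Fintype.mem_piFinset] at hg
    exact prod_nonneg fun i _ => h0 _ (hg i)
  · intro g hg
    rw [Fintype.mem_piFinset] at hg
    exact prod_le_prod (fun i _ => h0 _ (hg i)) (fun i _ => hc _ (hg i))

/-- Plancherel -/
lemma planch (X : ℕ) (hX : 0 < X) (c h : ℕ → ℝ) :
    |∑ n ∈ range X, c n * h n| ≤ 1 / X * ∑ r ∈ range X, ‖∑ n ∈ range X, ((c n : ℝ) : ℂ) * ee (n * ((r : ℝ) / X))‖ *
      ‖∑ n ∈ range X, ((h n : ℝ) : ℂ) * ee (n * ((r : ℝ) / X))‖ := by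
  have hX0 : (0 : ℝ) < X := by exact_mod_cast hX
  have h1 : ∑ r ∈ range X, (∑ n ∈ range X, ((c n : ℝ) : ℂ) * ee (n * ((r : ℝ) / X))) *
      (starRingEnd ℂ) (∑ n ∈ range X, ((h n : ℝ) : ℂ) * ee (n * ((r : ℝ) / X))) = ((X * ∑ n ∈ range X, c n * h n : ℝ) : ℂ) := by
    have h2 : ∀ r ∈ range X, (∑ n ∈ range X, ((c n : ℝ) : ℂ) * ee (n * ((r : ℝ) / X))) *
        (starRingEnd ℂ) (∑ n ∈ range X, ((h n : ℝ) : ℂ) * ee (n * ((r : ℝ) / X))) =
        ∑ n ∈ range X, ∑ m ∈ range X, ((c n * h m : ℝ) : ℂ) * ee ((((n : ℤ) - m : ℤ) : ℝ) * ((r : ℝ) / X)) := by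
      intro r _
      rw [map_sum, sum_mul_sum]
      apply sum_congr rfl
      intro n _
      apply sum_congr rfl
      intro m _
      rw [map_mul, conj_ee, Complex.conj_ofReal]
      have e : ee ((((n : ℤ) - m : ℤ) : ℝ) * ((r : ℝ) / X)) = ee (n * ((r : ℝ) / X)) * ee (-(m * ((r : ℝ) / X))) := by
        rw [← ee_add]
        congr 1
        push_cast
        ring
      rw [e]
      push_cast
      ring
    rw [sum_congr rfl h2, sum_comm, Complex.ofReal_mul, Complex.ofReal_sum, mul_sum]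
    apply sum_congr rfl
    intro n hn
    rw [sum_comm]
    have h3 : ∀ m ∈ range X, ∑ r ∈ range X, ((c n * h m : ℝ) : ℂ) * ee ((((n : ℤ) - m : ℤ) : ℝ) * ((r : ℝ) / X)) =
        if m = n then ((X : ℝ) : ℂ) * ((c n * h n : ℝ) : ℂ) else 0 := by
      intro m hm
      rw [← mul_sum, ee_orth' X hX]
      by_cases hnm : m = n
      · rw [if_pos hnm, hnm, if_pos (by simp)]
        push_cast
        ring
      · rw [if_neg hnm, if_neg, mul_zero]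
        intro hd
        apply hnm
        rw [mem_range] at hn hm
        have h4 : |(n : ℤ) - m| < X := by
          rw [abs_lt]
          constructor <;> omega
        have h5 := Int.eq_zero_of_abs_lt_dvd hd h4
        omega
    rw [sum_congr rfl h3, sum_ite_eq' (range X) n, if_pos hn]
  have h2 : (X : ℝ) * |∑ n ∈ range X, c n * h n| ≤ ∑ r ∈ range X, ‖∑ n ∈ range X, ((c n : ℝ) : ℂ) * ee (n * ((r : ℝ) / X))‖ *
      ‖∑ n ∈ range X, ((h n : ℝ) : ℂ) * ee (n * ((r : ℝ) / X))‖ := by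
    have h3 : (X : ℝ) * |∑ n ∈ range X, c n * h n| = ‖((X * ∑ n ∈ range X, c n * h n : ℝ) : ℂ)‖ := by
      rw [Complex.norm_real, Real.norm_eq_abs, abs_mul, abs_of_pos hX0]
    rw [h3, ← h1]
    refine (norm_sum_le _ _).trans (le_of_eq ?_)
    apply sum_congr rfl
    intro r _
    rw [norm_mul, RCLike.norm_conj]
  rw [one_div, ← div_eq_inv_mul, le_div_iff₀ hX0, mul_comm]
  exact h2

lemma cv_zero (L : ℕ) (f : ℕ → ℝ) (n : ℕ) (hn : n ∉ Ioc (2 * L) (2 * L + 2 * L)) : cv (Ioc L (L + L)) f f n = 0 := by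
  unfold cv
  rw [filter_eq_empty_iff.2, sum_empty]
  intro p hp h
  apply hn
  rw [mem_product, mem_Ioc, mem_Ioc] at hp
  rw [mem_Ioc]
  omega

lemma cv_hat (L X : ℕ) (hX : 4 * L < X) (f : ℕ → ℝ) (α : ℝ) :
    ∑ n ∈ range X, ((cv (Ioc L (L + L)) f f n : ℝ) : ℂ) * ee (n * α) = ft (Ioc L (L + L)) f α ^ 2 := by
  rw [pow_two, ← ft_cv L L f f α]
  symm
  apply sum_subset
  · intro n hn
    rw [mem_Ioc] at hn
    rw [mem_range]
    omega
  · intro n _ hn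
    rw [cv_zero L f n hn]
    simp

lemma cv_total (L X : ℕ) (hX : 4 * L < X) (f : ℕ → ℝ) :
    ∑ n ∈ range X, cv (Ioc L (L + L)) f f n = (∑ x ∈ Ioc L (L + L), f x) ^ 2 := by
  have h := cv_hat L X hX f 0
  unfold ft at h
  simp only [mul_zero, ee_zero, mul_one] at h
  rw [← Complex.ofReal_sum, ← Complex.ofReal_sum, ← Complex.ofReal_pow] at h
  exact_mod_cast h

/-- Hölder's inequality -/
lemma holder_grid (X p : ℕ) (hp : 2 ≤ p) (a b : ℕ → ℝ) (ha : ∀ r, 0 ≤ a r) (hb : ∀ r, 0 ≤ b r) (A B C D : ℝ) (hA : 0 ≤ A) (hB : 0 ≤ B)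
    (hC : 0 ≤ C) (hD : 0 ≤ D)
    (h1 : ∑ r ∈ range X, a r ^ p ≤ A * B ^ p) (h2 : ∑ r ∈ range X, b r ^ ((p : ℝ) / (p - 1)) ≤ C * D ^ ((p : ℝ) / (p - 1))) :
    ∑ r ∈ range X, a r * b r ≤ A ^ (1 / (p : ℝ)) * C ^ (((p : ℝ) - 1) / p) * (B * D) := by
  have hp0 : (2 : ℝ) ≤ p := by exact_mod_cast hp
  have hpp : (0 : ℝ) < p := by linarith
  have hp1 : (0 : ℝ) < (p : ℝ) - 1 := by linarith
  have hconj : ((p : ℝ)).HolderConjugate ((p : ℝ) / (p - 1)) := by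
    rw [Real.holderConjugate_iff]
    constructor
    · linarith
    · field_simp
      ring
  have h := Real.inner_le_Lp_mul_Lq (range X) a b hconj
  refine h.trans ?_
  have e1 : (∑ r ∈ range X, |a r| ^ (p : ℝ)) ^ (1 / (p : ℝ)) ≤ A ^ (1 / (p : ℝ)) * B := by
    have h3 : ∑ r ∈ range X, |a r| ^ (p : ℝ) = ∑ r ∈ range X, a r ^ p := by
      apply sum_congr rfl
      intro r _
      rw [abs_of_nonneg (ha r), Real.rpow_natCast]
    rw [h3]
    calc (∑ r ∈ range X, a r ^ p) ^ (1 / (p : ℝ)) ≤ (A * B ^ p) ^ (1 / (p : ℝ)) :=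
          Real.rpow_le_rpow (sum_nonneg fun r _ => pow_nonneg (ha r) _) h1 (by positivity)
      _ = A ^ (1 / (p : ℝ)) * B := by
          rw [Real.mul_rpow hA (by positivity)]
          congr 1
          rw [← Real.rpow_natCast, ← Real.rpow_mul hB]
          have : (p : ℝ) * (1 / (p : ℝ)) = 1 := by field_simp
          rw [this, Real.rpow_one]
  have e2 : (∑ r ∈ range X, |b r| ^ ((p : ℝ) / (p - 1))) ^ (1 / ((p : ℝ) / (p - 1))) ≤ C ^ (((p : ℝ) - 1) / p) * D := by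
    have h3 : ∑ r ∈ range X, |b r| ^ ((p : ℝ) / (p - 1)) = ∑ r ∈ range X, b r ^ ((p : ℝ) / (p - 1)) := by
      apply sum_congr rfl
      intro r _
      rw [abs_of_nonneg (hb r)]
    have h4 : 1 / ((p : ℝ) / (p - 1)) = ((p : ℝ) - 1) / p := by rw [one_div_div]
    rw [h3, h4]
    calc (∑ r ∈ range X, b r ^ ((p : ℝ) / (p - 1))) ^ (((p : ℝ) - 1) / p) ≤ (C * D ^ ((p : ℝ) / (p - 1))) ^ (((p : ℝ) - 1) / p) :=
          Real.rpow_le_rpow (sum_nonneg fun r _ => Real.rpow_nonneg (hb r) _) h2 (by positivity)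
      _ = C ^ (((p : ℝ) - 1) / p) * D := by
          rw [Real.mul_rpow hC (by positivity), ← Real.rpow_mul hD]
          have : (p : ℝ) / (p - 1) * (((p : ℝ) - 1) / p) = 1 := by field_simp
          rw [this, Real.rpow_one]
  calc _ ≤ (A ^ (1 / (p : ℝ)) * B) * (C ^ (((p : ℝ) - 1) / p) * D) := by
        apply mul_le_mul e1 e2 (by positivity) (by positivity)
    _ = _ := by ring

/-- the weight of a set of arguments -/
noncomputable def cE (τ : ℕ → ℕ) (E : Finset ℕ) (n : ℕ) : ℝ := ∑ k ∈ E, if τ k = n then (Dl τ k : ℝ) else 0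

lemma cE_sum (τ : ℕ → ℕ) (E : Finset ℕ) (X : ℕ) (hE : ∀ k ∈ E, τ k < X) (h : ℕ → ℝ) :
    ∑ n ∈ range X, cE τ E n * h n = ∑ k ∈ E, (Dl τ k : ℝ) * h (τ k) := by
  unfold cE
  simp_rw [sum_mul]
  rw [sum_comm]
  apply sum_congr rfl
  intro k hk
  have h1 : ∀ n ∈ range X, (if τ k = n then (Dl τ k : ℝ) else 0) * h n = if τ k = n then (Dl τ k : ℝ) * h (τ k) else 0 := by
    intro n _
    split_ifs with h2
    · rw [h2]
    · rw [zero_mul]
  rw [sum_congr rfl h1, sum_ite_eq (range X) (τ k), if_pos (mem_range.2 (hE k hk))]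

lemma cE_hat (τ : ℕ → ℕ) (E : Finset ℕ) (X : ℕ) (hE : ∀ k ∈ E, τ k < X) (α : ℝ) :
    ∑ n ∈ range X, ((cE τ E n : ℝ) : ℂ) * ee (n * α) = ∑ k ∈ E, (((Dl τ k : ℝ)) : ℂ) * ee (τ k * α) := by
  unfold cE
  have h0 : ∀ n ∈ range X, ((∑ k ∈ E, (if τ k = n then (Dl τ k : ℝ) else 0) : ℝ) : ℂ) * ee (n * α) =
      ∑ k ∈ E, (if τ k = n then ((Dl τ k : ℝ) : ℂ) * ee (τ k * α) else 0) := by
    intro n _
    rw [Complex.ofReal_sum, sum_mul]
    apply sum_congr rfl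
    intro k _
    split_ifs with h
    · rw [h]
    · simp
  rw [sum_congr rfl h0, sum_comm]
  apply sum_congr rfl
  intro k hk
  rw [sum_ite_eq (range X) (τ k), if_pos (mem_range.2 (hE k hk))]

end Pool.Agent.H566
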