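import Mathlib
import Pool.Agent.H566.KSg

/-!
The number of sums of two elements at the values of a polynomial.
-/

set_option autoImplicit false

namespace Pool.Agent.H566

open Finset Polynomial
open Pool.Agent.H807R2.Dav

/-- restriction estimate with the exponent of Hölder's inequality -/
lemma restr_hol (p : ℕ) (hp : 2 ≤ p) : ∃ C : ℝ, 0 < C ∧ ∀ (Q b : ℕ), 0 < Q → b.Coprime Q → ∃ L0 : ℕ, ∀ L : ℕ, L0 ≤ L →
    ∀ f : ℕ → ℝ, (∀ x, 0 ≤ f x) → (∀ x, f x ≤ nuW Q b x) → ∀ X : ℕ, L ≤ X → X ≤ 6 * L →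
      ∑ r ∈ range X, (‖ft (Ioc L (L + L)) f ((r : ℝ) / X)‖ ^ 2) ^ ((p : ℝ) / (p - 1)) ≤ C * ((L : ℝ) ^ 2) ^ ((p : ℝ) / (p - 1)) := by
  have hp0 : (2 : ℝ) ≤ p := by exact_mod_cast hp
  have hs : 1 < (p : ℝ) / (p - 1) := by
    rw [lt_div_iff₀ (by linarith)]
    linarith
  obtain ⟨C, hC, h⟩ := restr_sum _ hs
  refine ⟨C, hC, fun Q b hQ hb => ?_⟩
  obtain ⟨L0, hL⟩ := h Q b hQ hb
  refine ⟨L0, fun L hL0 f hf0 hf X h1 h2 => ?_⟩
  have := hL L hL0 (fun x => ((f x : ℝ) : ℂ)) (fun x => by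
    rw [Complex.norm_real, Real.norm_eq_abs, abs_of_nonneg (hf0 x)]
    exact hf x) X h1 h2
  exact this

/-- the general inequality -/
lemma pair_bound (p : ℕ) (hp : 2 ≤ p) (C : ℝ) (hC : 0 < C) (L X : ℕ) (hX : 4 * L < X) (f c : ℕ → ℝ) (A : ℝ) (hA : 0 ≤ A)
    (h1 : ∑ r ∈ range X, ‖∑ n ∈ range X, ((c n : ℝ) : ℂ) * ee (n * ((r : ℝ) / X))‖ ^ p ≤ A * (X : ℝ) ^ p)
    (h2 : ∑ r ∈ range X, (‖ft (Ioc L (L + L)) f ((r : ℝ) / X)‖ ^ 2) ^ ((p : ℝ) / (p - 1)) ≤ C * ((L : ℝ) ^ 2) ^ ((p : ℝ) / (p - 1))) :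
    |∑ n ∈ range X, c n * cv (Ioc L (L + L)) f f n| ≤ A ^ (1 / (p : ℝ)) * C ^ (((p : ℝ) - 1) / p) * (L : ℝ) ^ 2 := by
  have hXpos : 0 < X := by omega
  have hX0 : (0 : ℝ) < X := by exact_mod_cast hXpos
  refine (planch X hXpos c _).trans ?_
  have h3 : ∀ r ∈ range X, ‖∑ n ∈ range X, ((c n : ℝ) : ℂ) * ee (n * ((r : ℝ) / X))‖ *
      ‖∑ n ∈ range X, ((cv (Ioc L (L + L)) f f n : ℝ) : ℂ) * ee (n * ((r : ℝ) / X))‖ =
      ‖∑ n ∈ range X, ((c n : ℝ) : ℂ) * ee (n * ((r : ℝ) / X))‖ * ‖ft (Ioc L (L + L)) f ((r : ℝ) / X)‖ ^ 2 := by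
    intro r _
    rw [cv_hat L X hX, norm_pow]
  rw [sum_congr rfl h3]
  have h4 := holder_grid X p hp (fun r => ‖∑ n ∈ range X, ((c n : ℝ) : ℂ) * ee (n * ((r : ℝ) / X))‖)
    (fun r => ‖ft (Ioc L (L + L)) f ((r : ℝ) / X)‖ ^ 2) (fun _ => norm_nonneg _) (fun _ => by positivity) A X C ((L : ℝ) ^ 2)
    hA hX0.le hC.le (by positivity) h1 h2
  calc 1 / (X : ℝ) * _ ≤ 1 / (X : ℝ) * (A ^ (1 / (p : ℝ)) * C ^ (((p : ℝ) - 1) / p) * (X * (L : ℝ) ^ 2)) := by gcongr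
    _ = _ := by field_simp

/-- the main term -/
theorem main_term (R : ℤ[X]) (hd : 2 ≤ R.natDegree) (hl : 0 < R.leadingCoeff) (ε : ℝ) (hε : 0 < ε) : ∃ w : ℕ, 1 ≤ w ∧
    ∀ (m₀ Q' Q x₀ : ℕ) (T : ℤ[X]), Dat R w m₀ Q' Q x₀ T → ∃ N₀ : ℕ, ∀ N : ℕ, N₀ ≤ N → ∀ L : ℕ, 4 * L < tau T N →
      tau T N ≤ 6 * L → ∀ f : ℕ → ℝ, (∀ x, 0 ≤ f x) → (∀ x, f x ≤ nuW Q x₀ x) →
      (∑ x ∈ Ioc L (L + L), f x) ^ 2 - ε * (L : ℝ) ^ 2 ≤ ∑ k ∈ range N, (Dl (tau T) k : ℝ) * cv (Ioc L (L + L)) f f (tau T k) := by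
  obtain ⟨t, ht, C₀, hC₀, hmom⟩ := moment R hd hl
  set p := 2 * t with hp
  have hp2 : 2 ≤ p := by omega
  obtain ⟨C, hC, hres⟩ := restr_hol p hp2
  have hp0 : (0 : ℝ) < p := by exact_mod_cast (by omega : 0 < p)
  set D := C ^ (((p : ℝ) - 1) / p) with hD
  have hD0 : 0 < D := Real.rpow_pos_of_pos hC _
  obtain ⟨w, hw⟩ := exists_nat_gt (C₀ / (ε / D) ^ p + 1)
  have hεD : 0 < (ε / D) ^ p := by positivity
  have hw0 : (0 : ℝ) < w := by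
    have : 0 < C₀ / (ε / D) ^ p := by positivity
    linarith
  have hw1 : 1 ≤ w := by exact_mod_cast hw0
  refine ⟨w, hw1, fun m₀ Q' Q x₀ T hDat => ?_⟩
  obtain ⟨N₀, hN₀⟩ := hmom w m₀ Q' Q x₀ T hw1 hDat
  obtain ⟨L0, hL0⟩ := hres Q x₀ hDat.Qpos hDat.cop
  refine ⟨max N₀ (6 * L0), fun N hN L hL1 hL2 f hf0 hf => ?_⟩
  have hNN : N₀ ≤ N := le_trans (le_max_left _ _) hN
  have hNL : 6 * L0 ≤ N := le_trans (le_max_right _ _) hN
  set τ := tau T with hτ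
  set X := τ N with hX
  have hXN : N ≤ X := tau_ge T hDat.nn hDat.c1 N
  have hL0' : L0 ≤ L := by omega
  have hlt : ∀ k ∈ range N, τ k < X := by
    intro k hk
    rw [mem_range] at hk
    have h1 : τ k < τ (k + 1) := tau_lt T hDat.nn hDat.c1 k
    have h2 : τ (k + 1) ≤ X := tau_mono' T hDat.nn hDat.c1 (by omega : k + 1 ≤ N)
    omega
  have hm := hN₀ N hNN
  have hr := hL0 L hL0' f hf0 hf X (by omega) hL2
  have hhat : ∀ r : ℕ, ∑ n ∈ range X, (((cE τ (range N) n - 1 : ℝ)) : ℂ) * ee (n * ((r : ℝ) / X)) =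
      SSt τ N ((r : ℝ) / X) - UU X ((r : ℝ) / X) := by
    intro r
    have h1 := cE_hat τ (range N) X hlt ((r : ℝ) / X)
    have h2 : ∑ k ∈ range N, (((Dl τ k : ℝ)) : ℂ) * ee (τ k * ((r : ℝ) / X)) = SSt τ N ((r : ℝ) / X) := by
      unfold SSt
      apply sum_congr rfl
      intro k _
      push_cast
      rfl
    rw [← h2, ← h1]
    unfold UU
    rw [← sum_sub_distrib]
    apply sum_congr rfl
    intro n _
    push_cast
    ring
  have h1 : ∑ r ∈ range X, ‖∑ n ∈ range X, (((cE τ (range N) n - 1 : ℝ)) : ℂ) * ee (n * ((r : ℝ) / X))‖ ^ p ≤ C₀ / w * (X : ℝ) ^ p := by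
    simp_rw [hhat]
    exact hm
  have h2 := pair_bound p hp2 C hC L X hL1 f (fun n => cE τ (range N) n - 1) (C₀ / w) (by positivity) h1 hr
  have h3 : ∑ n ∈ range X, (cE τ (range N) n - 1) * cv (Ioc L (L + L)) f f n =
      ∑ k ∈ range N, (Dl τ k : ℝ) * cv (Ioc L (L + L)) f f (τ k) - (∑ x ∈ Ioc L (L + L), f x) ^ 2 := by
    rw [← cE_sum τ (range N) X hlt, ← cv_total L X hL1 f, ← sum_sub_distrib]
    apply sum_congr rfl
    intro n _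
    ring
  rw [h3] at h2
  have h4 : (C₀ / w) ^ (1 / (p : ℝ)) * D ≤ ε := by
    have h5 : C₀ / w ≤ (ε / D) ^ p := by
      rw [div_le_iff₀ hw0]
      have h6 : C₀ / (ε / D) ^ p ≤ w := by linarith
      rw [div_le_iff₀ hεD] at h6
      linarith
    have h6 : (C₀ / w) ^ (1 / (p : ℝ)) ≤ ε / D := by
      calc (C₀ / w) ^ (1 / (p : ℝ)) ≤ ((ε / D) ^ p) ^ (1 / (p : ℝ)) := Real.rpow_le_rpow (by positivity) h5 (by positivity)
        _ = ε / D := by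
            rw [← Real.rpow_natCast, ← Real.rpow_mul (by positivity)]
            have : (p : ℝ) * (1 / (p : ℝ)) = 1 := by field_simp
            rw [this, Real.rpow_one]
    rw [le_div_iff₀ hD0] at h6
    exact h6
  have h5 : (C₀ / w) ^ (1 / (p : ℝ)) * D * (L : ℝ) ^ 2 ≤ ε * (L : ℝ) ^ 2 := by gcongr
  have h6 := (abs_le.1 h2).1
  linarith

/-- few arguments contribute little -/
theorem small_sets (R : ℤ[X]) (hd : 2 ≤ R.natDegree) (hl : 0 < R.leadingCoeff) (ε : ℝ) (hε : 0 < ε) : ∃ κ : ℝ, 0 < κ ∧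
    ∀ (w m₀ Q' Q x₀ : ℕ) (T : ℤ[X]), 1 ≤ w → Dat R w m₀ Q' Q x₀ T → ∃ N₀ : ℕ, ∀ N : ℕ, N₀ ≤ N → ∀ L : ℕ, 4 * L < tau T N →
      tau T N ≤ 6 * L → ∀ f : ℕ → ℝ, (∀ x, 0 ≤ f x) → (∀ x, f x ≤ nuW Q x₀ x) → ∀ E ⊆ range N, (E.card : ℝ) ≤ κ * N →
      ∑ k ∈ E, (Dl (tau T) k : ℝ) * cv (Ioc L (L + L)) f f (tau T k) ≤ ε * (L : ℝ) ^ 2 := by
  obtain ⟨t, ht, C₀, hC₀, hmom⟩ := moment R hd hl
  set p := 4 * t with hp
  have hp2 : 2 ≤ p := by omega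
  obtain ⟨C, hC, hres⟩ := restr_hol p hp2
  have hp0 : (0 : ℝ) < p := by exact_mod_cast (by omega : 0 < p)
  set D := C ^ (((p : ℝ) - 1) / p) with hD
  have hD0 : 0 < D := Real.rpow_pos_of_pos hC _
  have hεD : 0 < (ε / D) ^ p := by positivity
  set d := R.natDegree with hdd
  have hd0 : (0 : ℝ) < d := by exact_mod_cast (by omega : 0 < d)
  set δ : ℝ := min 1 ((ε / D) ^ p / (C₀ + 1)) with hδ
  have hδ0 : 0 < δ := lt_min one_pos (by positivity)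
  have hδ1 : δ ≤ 1 := min_le_left _ _
  have hδ2 : δ ≤ (ε / D) ^ p / (C₀ + 1) := min_le_right _ _
  refine ⟨δ / (2 * d), by positivity, fun w m₀ Q' Q x₀ T hw1 hDat => ?_⟩
  obtain ⟨N₀, hN₀⟩ := hmom w m₀ Q' Q x₀ T hw1 hDat
  obtain ⟨L0, hL0⟩ := hres Q x₀ hDat.Qpos hDat.cop
  refine ⟨max (max N₀ 1) (6 * L0), fun N hN L hL1 hL2 f hf0 hf E hE hEc => ?_⟩
  have hNN : N₀ ≤ N := le_trans (le_max_left _ _) (le_trans (le_max_left _ _) hN)
  have hN1 : 1 ≤ N := le_trans (le_max_right _ _) (le_trans (le_max_left _ _) hN)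
  have hNL : 6 * L0 ≤ N := le_trans (le_max_right _ _) hN
  have hw0 : (1 : ℝ) ≤ w := by exact_mod_cast hw1
  set τ := tau T with hτ
  set X := τ N with hX
  have hXN : N ≤ X := tau_ge T hDat.nn hDat.c1 N
  have hXpos : 0 < X := by omega
  have hX0 : (0 : ℝ) < X := by exact_mod_cast hXpos
  have hL0' : L0 ≤ L := by omega
  have hlt : ∀ k ∈ range N, τ k < X := by
    intro k hk
    rw [mem_range] at hk
    have h1 : τ k < τ (k + 1) := tau_lt T hDat.nn hDat.c1 k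
    have h2 : τ (k + 1) ≤ X := tau_mono' T hDat.nn hDat.c1 (by omega : k + 1 ≤ N)
    omega
  have hm := hN₀ N hNN
  have hr := hL0 L hL0' f hf0 hf X (by omega) hL2
  have hVN : (N : ℝ) * Dl τ (N - 1) ≤ d * X := by
    have := Dl_le T hDat.nn hDat.c1 N hN1
    rw [hDat.deg] at this
    exact_mod_cast this
  have hhat : ∀ r : ℕ, ∑ n ∈ range X, ((cE τ E n : ℝ) : ℂ) * ee (n * ((r : ℝ) / X)) =
      ∑ k ∈ range N, (((if k ∈ E then (Dl τ k : ℝ) else 0 : ℝ)) : ℂ) * ee (τ k * ((r : ℝ) / X)) := by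
    intro r
    rw [cE_hat τ E X (fun k hk => hlt k (hE hk))]
    symm
    rw [← sum_subset hE]
    · apply sum_congr rfl
      intro k hk
      rw [if_pos hk]
    · intro k _ hk
      rw [if_neg hk]
      simp
  -- the maximum
  have hsup : ∀ r : ℕ, ‖∑ n ∈ range X, ((cE τ E n : ℝ) : ℂ) * ee (n * ((r : ℝ) / X))‖ ≤ δ / 2 * X := by
    intro r
    rw [cE_hat τ E X (fun k hk => hlt k (hE hk))]
    refine (norm_sum_le _ _).trans ?_
    have h1 : ∀ k ∈ E, ‖(((Dl τ k : ℝ)) : ℂ) * ee (τ k * ((r : ℝ) / X))‖ ≤ (Dl τ (N - 1) : ℝ) := by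
      intro k hk
      rw [norm_mul, norm_ee, mul_one, Complex.norm_real, Real.norm_eq_abs, abs_of_nonneg (Nat.cast_nonneg _)]
      have h2 := mem_range.1 (hE hk)
      exact_mod_cast monotone_nat_of_le_succ (Dl_mono T hDat.nn hDat.c1) (by omega : k ≤ N - 1)
    refine (sum_le_sum h1).trans ?_
    rw [sum_const, nsmul_eq_mul]
    calc (E.card : ℝ) * Dl τ (N - 1) ≤ (δ / (2 * d) * N) * Dl τ (N - 1) := by gcongr
      _ = (δ / (2 * d)) * (N * Dl τ (N - 1)) := by ring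
      _ ≤ (δ / (2 * d)) * (d * X) := by gcongr
      _ = _ := by field_simp
  -- the moment
  have hmom2 : ∑ r ∈ range X, ‖∑ n ∈ range X, ((cE τ E n : ℝ) : ℂ) * ee (n * ((r : ℝ) / X))‖ ^ (2 * t) ≤
      2 ^ (2 * t) * (C₀ + 1) * (X : ℝ) ^ (2 * t) := by
    simp_rw [hhat]
    refine (majorant (range N) (fun k => if k ∈ E then (Dl τ k : ℝ) else 0) (fun k => (Dl τ k : ℝ)) τ X t hXpos ?_ ?_).trans ?_
    · intro k _
      split_ifs
      · exact Nat.cast_nonneg _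
      · exact le_rfl
    · intro k _
      split_ifs
      · exact le_rfl
      · exact Nat.cast_nonneg _
    · have h1 : ∀ r ∈ range X, ‖∑ k ∈ range N, ((((Dl τ k : ℝ))) : ℂ) * ee (τ k * ((r : ℝ) / X))‖ ^ (2 * t) ≤
          2 ^ (2 * t) * (‖SSt τ N ((r : ℝ) / X) - UU X ((r : ℝ) / X)‖ ^ (2 * t) + ‖UU X ((r : ℝ) / X - 0)‖ ^ (2 * t)) := by
        intro r _
        have h2 : ∑ k ∈ range N, (((Dl τ k : ℝ)) : ℂ) * ee (τ k * ((r : ℝ) / X)) = SSt τ N ((r : ℝ) / X) := by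
          unfold SSt
          apply sum_congr rfl
          intro k _
          push_cast
          rfl
        rw [h2, sub_zero]
        have h3 : ‖SSt τ N ((r : ℝ) / X)‖ ≤ ‖SSt τ N ((r : ℝ) / X) - UU X ((r : ℝ) / X)‖ + ‖UU X ((r : ℝ) / X)‖ := by
          have := norm_add_le (SSt τ N ((r : ℝ) / X) - UU X ((r : ℝ) / X)) (UU X ((r : ℝ) / X))
          rwa [sub_add_cancel] at this
        exact (pow_le_pow_left₀ (norm_nonneg _) h3 _).trans (add_pow_le_two _ _ (norm_nonneg _) (norm_nonneg _) _)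
      refine (sum_le_sum h1).trans ?_
      rw [← mul_sum, sum_add_distrib]
      have h2 := UU_moment X (2 * t) hXpos (by omega) 0
      have h3 : C₀ / w ≤ C₀ := div_le_self hC₀.le hw0
      calc 2 ^ (2 * t) * (∑ r ∈ range X, ‖SSt τ N ((r : ℝ) / X) - UU X ((r : ℝ) / X)‖ ^ (2 * t) +
            ∑ r ∈ range X, ‖UU X ((r : ℝ) / X - 0)‖ ^ (2 * t)) ≤ 2 ^ (2 * t) * (C₀ / w * (X : ℝ) ^ (2 * t) + (X : ℝ) ^ (2 * t)) := by
              gcongr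
        _ ≤ 2 ^ (2 * t) * (C₀ * (X : ℝ) ^ (2 * t) + (X : ℝ) ^ (2 * t)) := by gcongr
        _ = _ := by ring
  have h1 : ∑ r ∈ range X, ‖∑ n ∈ range X, ((cE τ E n : ℝ) : ℂ) * ee (n * ((r : ℝ) / X))‖ ^ p ≤ (ε / D) ^ p * (X : ℝ) ^ p := by
    have h2 : ∀ r ∈ range X, ‖∑ n ∈ range X, ((cE τ E n : ℝ) : ℂ) * ee (n * ((r : ℝ) / X))‖ ^ p ≤
        (δ / 2 * X) ^ (2 * t) * ‖∑ n ∈ range X, ((cE τ E n : ℝ) : ℂ) * ee (n * ((r : ℝ) / X))‖ ^ (2 * t) := by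
      intro r _
      have e : p = 2 * t + 2 * t := by omega
      rw [e, pow_add]
      apply mul_le_mul_of_nonneg_right _ (by positivity)
      exact pow_le_pow_left₀ (norm_nonneg _) (hsup r) _
    refine (sum_le_sum h2).trans ?_
    rw [← mul_sum]
    have h3 : δ ^ (2 * t) ≤ δ := by
      calc δ ^ (2 * t) ≤ δ ^ 1 := pow_le_pow_of_le_one hδ0.le hδ1 (by omega)
        _ = δ := pow_one _
    calc (δ / 2 * X) ^ (2 * t) * _ ≤ (δ / 2 * X) ^ (2 * t) * (2 ^ (2 * t) * (C₀ + 1) * (X : ℝ) ^ (2 * t)) := by gcongr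
      _ = δ ^ (2 * t) * (C₀ + 1) * (X : ℝ) ^ p := by
          have e : p = 2 * t + 2 * t := by omega
          rw [e, pow_add (X : ℝ), mul_pow, div_pow]
          field_simp
      _ ≤ δ * (C₀ + 1) * (X : ℝ) ^ p := by gcongr
      _ ≤ ((ε / D) ^ p / (C₀ + 1)) * (C₀ + 1) * (X : ℝ) ^ p := by gcongr
      _ = _ := by field_simp
  have h2 := pair_bound p hp2 C hC L X hL1 f (cE τ E) ((ε / D) ^ p) (by positivity) h1 hr
  rw [cE_sum τ E X (fun k hk => hlt k (hE hk))] at h2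
  have h4 : ((ε / D) ^ p) ^ (1 / (p : ℝ)) * D = ε := by
    rw [← Real.rpow_natCast, ← Real.rpow_mul (by positivity)]
    have : (p : ℝ) * (1 / (p : ℝ)) = 1 := by field_simp
    rw [this, Real.rpow_one]
    field_simp
  rw [← hD, h4] at h2
  exact (abs_le.1 h2).2

end Pool.Agent.H566
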