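import Mathlib
import Pool.Agent.H566.KSh
import Pool.Agent.H566.KSf
import Pool.Agent.H566.MGj

/-!
Sums of two primes of the same colour at the values of a polynomial.
-/

set_option autoImplicit false

namespace Pool.Agent.H566

open Finset Polynomial
open Pool.Agent.H807R2.Dav
open Pool.Agent.H373R2.T7

/-- pairs of odd primes of the same colour with a given sum -/
def mp {K : ℕ} (χ : ℕ → Fin K) (n : ℕ) : Finset (ℕ × ℕ) :=
  (antidiagonal n).filter (fun q => q.1.Prime ∧ q.2.Prime ∧ 2 < q.1 ∧ q.1 < q.2 ∧ χ q.1 = χ q.2)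

lemma mono_eq {K : ℕ} (χ : ℕ → Fin K) (Q b : ℕ) (I : Finset ℕ) (s : ℕ) :
    mono χ Q I b b s = ∑ c : Fin K, cv I (fun x => nuW Q b x * (if χ (Q * x + b) = c then 1 else 0))
      (fun x => nuW Q b x * (if χ (Q * x + b) = c then 1 else 0)) s := by
  classical
  unfold mono cv
  rw [sum_comm]
  apply sum_congr rfl
  intro p _
  have h2 : ∀ c ∈ (univ : Finset (Fin K)), (nuW Q b p.1 * (if χ (Q * p.1 + b) = c then 1 else 0)) *
        (nuW Q b p.2 * (if χ (Q * p.2 + b) = c then 1 else 0)) =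
      if χ (Q * p.1 + b) = c then nuW Q b p.1 * (nuW Q b p.2 * (if χ (Q * p.2 + b) = c then 1 else 0)) else 0 := by
    intro c _
    split_ifs <;> ring
  rw [sum_congr rfl h2, sum_ite_eq univ, if_pos (mem_univ _)]
  by_cases h : χ (Q * p.1 + b) = χ (Q * p.2 + b)
  · rw [if_pos h, if_pos h.symm]
    ring
  · rw [if_neg h, if_neg (fun h' => h h'.symm)]
    ring

lemma mono_le_mp {K : ℕ} (χ : ℕ → Fin K) (Q b L s N : ℕ) (hL : 2 ≤ L) (hQ : 0 < Q) (h1 : Q * (L + L) + b ≤ N) :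
    mono χ Q (Ioc L (L + L)) b b s ≤ Real.log N ^ 2 * (2 * ((mp χ (Q * s + 2 * b)).card : ℝ) + 1) := by
  classical
  set I := Ioc L (L + L) with hI
  have hlog : 0 ≤ Real.log N := Real.log_natCast_nonneg N
  have e1 : mono χ Q I b b s ≤ ∑ p ∈ (I ×ˢ I).filter (fun p => p.1 + p.2 = s),
      (if (Q * p.1 + b).Prime ∧ (Q * p.2 + b).Prime ∧ χ (Q * p.1 + b) = χ (Q * p.2 + b) then Real.log N ^ 2 else 0) := by
    unfold mono
    apply sum_le_sum
    intro p hp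
    rw [mem_filter, mem_product, hI, mem_Ioc, mem_Ioc] at hp
    have k1 : Q * p.1 + b ≤ N := by
      have : Q * p.1 ≤ Q * (L + L) := Nat.mul_le_mul_left _ hp.1.1.2
      omega
    have k2 : Q * p.2 + b ≤ N := by
      have : Q * p.2 ≤ Q * (L + L) := Nat.mul_le_mul_left _ hp.1.2.2
      omega
    have a1 := nuW_le Q b p.1 N k1 hQ
    have a2 := nuW_le Q b p.2 N k2 hQ
    have a3 := nuW_nonneg Q b p.1
    have a4 := nuW_nonneg Q b p.2
    by_cases c1 : (Q * p.1 + b).Prime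
    · by_cases c2 : (Q * p.2 + b).Prime
      · by_cases c3 : χ (Q * p.1 + b) = χ (Q * p.2 + b)
        · rw [if_pos c3, if_pos ⟨c1, c2, c3⟩, mul_one, pow_two]
          rw [if_pos c1] at a1
          rw [if_pos c2] at a2
          exact mul_le_mul a1 a2 a4 hlog
        · rw [if_neg c3, mul_zero]
          split_ifs <;> positivity
      · rw [if_neg c2] at a2
        have : nuW Q b p.2 = 0 := le_antisymm a2 a4
        rw [this, mul_zero, zero_mul]
        split_ifs <;> positivity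
    · rw [if_neg c1] at a1
      have : nuW Q b p.1 = 0 := le_antisymm a1 a3
      rw [this, zero_mul, zero_mul]
      split_ifs <;> positivity
  refine e1.trans ?_
  rw [← sum_filter, sum_const, nsmul_eq_mul, mul_comm]
  apply mul_le_mul_of_nonneg_left _ (by positivity)
  set S := ((I ×ˢ I).filter (fun p => p.1 + p.2 = s)).filter (fun p => (Q * p.1 + b).Prime ∧ (Q * p.2 + b).Prime ∧
    χ (Q * p.1 + b) = χ (Q * p.2 + b)) with hS
  have hSm : ∀ p ∈ S, p.1 + p.2 = s ∧ (Q * p.1 + b).Prime ∧ (Q * p.2 + b).Prime ∧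
      χ (Q * p.1 + b) = χ (Q * p.2 + b) ∧ 2 < Q * p.1 + b ∧ 2 < Q * p.2 + b := by
    intro p hp
    rw [hS, mem_filter, mem_filter, mem_product, hI, mem_Ioc, mem_Ioc] at hp
    have g1 : 1 * p.1 ≤ Q * p.1 := Nat.mul_le_mul_right _ hQ
    have g2 : 1 * p.2 ≤ Q * p.2 := Nat.mul_le_mul_right _ hQ
    exact ⟨hp.1.2, hp.2.1, hp.2.2.1, hp.2.2.2, by omega, by omega⟩
  have hmono : ∀ x y : ℕ, x < y → Q * x + b < Q * y + b := by
    intro x y hxy
    have := (Nat.mul_lt_mul_left hQ).2 hxy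
    omega
  have hA : (S.filter (fun p => p.1 < p.2)).card ≤ (mp χ (Q * s + 2 * b)).card := by
    apply card_le_card_of_injOn (fun p : ℕ × ℕ => (Q * p.1 + b, Q * p.2 + b))
    · intro p hp
      rw [mem_coe, mem_filter] at hp
      obtain ⟨h2, h3, h4, h5, h6, h7⟩ := hSm p hp.1
      rw [mem_coe, mp, mem_filter]
      refine ⟨?_, h3, h4, h6, hmono _ _ hp.2, h5⟩
      rw [HasAntidiagonal.mem_antidiagonal, ← h2]
      ring
    · rintro ⟨x, y⟩ _ ⟨x', y'⟩ _ h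
      simp only [Prod.mk.injEq] at h
      have i1 := class_inj Q b hQ h.1
      have i2 := class_inj Q b hQ h.2
      rw [i1, i2]
  have hB : (S.filter (fun p => p.2 < p.1)).card ≤ (mp χ (Q * s + 2 * b)).card := by
    apply card_le_card_of_injOn (fun p : ℕ × ℕ => (Q * p.2 + b, Q * p.1 + b))
    · intro p hp
      rw [mem_coe, mem_filter] at hp
      obtain ⟨h2, h3, h4, h5, h6, h7⟩ := hSm p hp.1
      rw [mem_coe, mp, mem_filter]
      refine ⟨?_, h4, h3, h7, hmono _ _ hp.2, h5.symm⟩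
      rw [HasAntidiagonal.mem_antidiagonal, ← h2]
      ring
    · rintro ⟨x, y⟩ _ ⟨x', y'⟩ _ h
      simp only [Prod.mk.injEq] at h
      have i1 := class_inj Q b hQ h.1
      have i2 := class_inj Q b hQ h.2
      rw [i1, i2]
  have hC : (S.filter (fun p => p.1 = p.2)).card ≤ 1 := by
    rw [card_le_one]
    intro p hp q hq
    rw [mem_filter] at hp hq
    have h2 := (hSm p hp.1).1
    have h3 := (hSm q hq.1).1
    have h4 := hp.2
    have h5 := hq.2
    ext <;> omega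
  have hun : S ⊆ (S.filter (fun p => p.1 < p.2) ∪ S.filter (fun p => p.2 < p.1)) ∪ S.filter (fun p => p.1 = p.2) := by
    intro p hp
    rcases lt_trichotomy p.1 p.2 with h | h | h
    · exact mem_union_left _ (mem_union_left _ (mem_filter.2 ⟨hp, h⟩))
    · exact mem_union_right _ (mem_filter.2 ⟨hp, h⟩)
    · exact mem_union_left _ (mem_union_right _ (mem_filter.2 ⟨hp, h⟩))
  have h3 : S.card ≤ 2 * (mp χ (Q * s + 2 * b)).card + 1 := by
    have k1 := card_le_card hun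
    have k2 := card_union_le (S.filter (fun p => p.1 < p.2) ∪ S.filter (fun p => p.2 < p.1)) (S.filter (fun p => p.1 = p.2))
    have k3 := card_union_le (S.filter (fun p => p.1 < p.2)) (S.filter (fun p => p.2 < p.1))
    omega
  exact_mod_cast h3

lemma Dl_sum (τ : ℕ → ℕ) (hτ : ∀ k, τ k ≤ τ (k + 1)) (N : ℕ) : ∑ k ∈ range N, (Dl τ k : ℝ) = (τ N : ℝ) - τ 0 := by
  have h1 : ∀ k ∈ range N, (Dl τ k : ℝ) = (τ (k + 1) : ℝ) - τ k := by
    intro k _
    unfold Dl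
    rw [Nat.cast_sub (hτ k)]
  rw [sum_congr rfl h1]
  exact sum_range_sub (fun k => (τ k : ℝ)) N

/-- many arguments `k` with many monochromatic representations -/
theorem many_k (R : ℤ[X]) (hd : 2 ≤ R.natDegree) (hl : 0 < R.leadingCoeff) (K : ℕ) (hK : 1 ≤ K) : ∃ w : ℕ, 1 ≤ w ∧
    ∃ κ η : ℝ, 0 < κ ∧ 0 < η ∧ ∀ (m₀ Q' Q x₀ : ℕ) (T : ℤ[X]), Dat R w m₀ Q' Q x₀ T → ∃ N₀ : ℕ, ∀ N : ℕ, N₀ ≤ N →
      ∀ χ : ℕ → Fin K, κ * N ≤ ((range N).filter (fun k => η * tau T N ≤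
        mono χ Q (Ioc (tau T N / 5) (tau T N / 5 + tau T N / 5)) x₀ x₀ (tau T k))).card := by
  classical
  have hK0 : (0 : ℝ) < K := by exact_mod_cast hK
  obtain ⟨w, hw1, hmain⟩ := main_term R hd hl (1 / (8 * (K : ℝ) ^ 2)) (by positivity)
  obtain ⟨κ, hκ, hsmall⟩ := small_sets R hd hl (1 / (32 * K)) (by positivity)
  set η : ℝ := 1 / (36 * 32 * K) with hη
  have hη0 : 0 < η := by positivity
  refine ⟨w, hw1, κ, η, hκ, hη0, fun m₀ Q' Q x₀ T hDat => ?_⟩
  obtain ⟨N1, hN1⟩ := hmain m₀ Q' Q x₀ T hDat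
  obtain ⟨N2, hN2⟩ := hsmall w m₀ Q' Q x₀ T hw1 hDat
  obtain ⟨L3, hL3⟩ := nu_mean Q x₀ hDat.Qpos hDat.cop (1 / 2) (by norm_num)
  refine ⟨max (max N1 N2) (6 * L3 + 30), fun N hN χ => ?_⟩
  have hNN1 : N1 ≤ N := le_trans (le_max_left _ _) (le_trans (le_max_left _ _) hN)
  have hNN2 : N2 ≤ N := le_trans (le_max_right _ _) (le_trans (le_max_left _ _) hN)
  have hNN3 : 6 * L3 + 30 ≤ N := le_trans (le_max_right _ _) hN
  set τ := tau T with hτ
  set X := τ N with hX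
  have hXN : N ≤ X := tau_ge T hDat.nn hDat.c1 N
  set L := X / 5 with hL
  have hL1 : 4 * L < X := by omega
  have hL2 : X ≤ 6 * L := by omega
  have hL3' : L3 ≤ L := by omega
  have hLpos : 0 < L := by omega
  have hL0 : (0 : ℝ) < L := by exact_mod_cast hLpos
  have hX0 : (0 : ℝ) < X := by exact_mod_cast (by omega : 0 < X)
  have hXL : (X : ℝ) ≤ 6 * L := by exact_mod_cast hL2
  by_contra hcon
  rw [not_le] at hcon
  set E := (range N).filter (fun k => η * X ≤ mono χ Q (Ioc L (L + L)) x₀ x₀ (τ k)) with hE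
  have hEsub : E ⊆ range N := filter_subset _ _
  set f : Fin K → ℕ → ℝ := fun c x => nuW Q x₀ x * (if χ (Q * x + x₀) = c then 1 else 0) with hf
  have hf0 : ∀ c x, 0 ≤ f c x := by
    intro c x
    simp only [hf]
    have := nuW_nonneg Q x₀ x
    split_ifs <;> simp [this]
  have hf1 : ∀ c x, f c x ≤ nuW Q x₀ x := by
    intro c x
    simp only [hf]
    have := nuW_nonneg Q x₀ x
    split_ifs <;> simp [this]
  -- the total
  have htot : ∑ c : Fin K, ∑ x ∈ Ioc L (L + L), f c x = ∑ x ∈ Ioc L (L + L), nuW Q x₀ x := by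
    rw [sum_comm]
    apply sum_congr rfl
    intro x _
    simp only [hf]
    rw [← mul_sum, sum_ite_eq univ, if_pos (mem_univ _), mul_one]
  have hmean : (L : ℝ) / 2 ≤ ∑ x ∈ Ioc L (L + L), nuW Q x₀ x := by
    have := (abs_le.1 (hL3 L hL3')).1
    linarith
  have hCS : (∑ c : Fin K, ∑ x ∈ Ioc L (L + L), f c x) ^ 2 ≤ K * ∑ c : Fin K, (∑ x ∈ Ioc L (L + L), f c x) ^ 2 := by
    have := sq_sum_le_card_mul_sum_sq (s := (univ : Finset (Fin K))) (f := fun c => ∑ x ∈ Ioc L (L + L), f c x)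
    simpa using this
  have hlow : (L : ℝ) ^ 2 / (8 * K) ≤ ∑ k ∈ range N, (Dl τ k : ℝ) * mono χ Q (Ioc L (L + L)) x₀ x₀ (τ k) := by
    have h1 : ∀ c ∈ (univ : Finset (Fin K)), (∑ x ∈ Ioc L (L + L), f c x) ^ 2 - 1 / (8 * (K : ℝ) ^ 2) * (L : ℝ) ^ 2 ≤
        ∑ k ∈ range N, (Dl τ k : ℝ) * cv (Ioc L (L + L)) (f c) (f c) (τ k) :=
      fun c _ => hN1 N hNN1 L hL1 hL2 (f c) (hf0 c) (hf1 c)
    have h2 := sum_le_sum h1
    rw [sum_sub_distrib, sum_const, card_univ, Fintype.card_fin, nsmul_eq_mul, sum_comm] at h2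
    have h3 : ∑ k ∈ range N, ∑ c : Fin K, (Dl τ k : ℝ) * cv (Ioc L (L + L)) (f c) (f c) (τ k) =
        ∑ k ∈ range N, (Dl τ k : ℝ) * mono χ Q (Ioc L (L + L)) x₀ x₀ (τ k) := by
      apply sum_congr rfl
      intro k _
      rw [← mul_sum, mono_eq]
    rw [h3] at h2
    refine le_trans ?_ h2
    have h4 : ((L : ℝ) / 2) ^ 2 ≤ K * ∑ c : Fin K, (∑ x ∈ Ioc L (L + L), f c x) ^ 2 := by
      refine le_trans ?_ hCS
      rw [htot]
      exact pow_le_pow_left₀ (by positivity) hmean 2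
    have h5 : (L : ℝ) ^ 2 / (4 * K) ≤ ∑ c : Fin K, (∑ x ∈ Ioc L (L + L), f c x) ^ 2 := by
      rw [div_le_iff₀ (by positivity)]
      calc (L : ℝ) ^ 2 = 4 * ((L : ℝ) / 2) ^ 2 := by ring
        _ ≤ 4 * (K * ∑ c : Fin K, (∑ x ∈ Ioc L (L + L), f c x) ^ 2) := by linarith
        _ = _ := by ring
    have h6 : (K : ℝ) * (1 / (8 * (K : ℝ) ^ 2) * (L : ℝ) ^ 2) = (L : ℝ) ^ 2 / (8 * K) := by
      field_simp
    rw [h6]
    have h7 : (L : ℝ) ^ 2 / (4 * K) = (L : ℝ) ^ 2 / (8 * K) + (L : ℝ) ^ 2 / (8 * K) := by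
      field_simp
      ring
    linarith
  -- the upper bound
  have hup : ∑ k ∈ range N, (Dl τ k : ℝ) * mono χ Q (Ioc L (L + L)) x₀ x₀ (τ k) ≤
      1 / (32 * K) * (L : ℝ) ^ 2 + η * X * X := by
    rw [← sum_filter_add_sum_filter_not (range N) (fun k => η * X ≤ mono χ Q (Ioc L (L + L)) x₀ x₀ (τ k))]
    apply add_le_add
    · rw [← hE]
      refine le_trans (sum_le_sum (fun k _ => mul_le_mul_of_nonneg_left (mono_le_cv χ Q (Ioc L (L + L)) x₀ x₀ (τ k)) (Nat.cast_nonneg _))) ?_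
      exact hN2 N hNN2 L hL1 hL2 (nuW Q x₀) (nuW_nonneg Q x₀) (fun _ => le_rfl) E hEsub hcon.le
    · have h1 : ∀ k ∈ (range N).filter (fun k => ¬ (η * X ≤ mono χ Q (Ioc L (L + L)) x₀ x₀ (τ k))),
          (Dl τ k : ℝ) * mono χ Q (Ioc L (L + L)) x₀ x₀ (τ k) ≤ (Dl τ k : ℝ) * (η * X) := by
        intro k hk
        rw [mem_filter, not_le] at hk
        exact mul_le_mul_of_nonneg_left hk.2.le (Nat.cast_nonneg _)
      refine (sum_le_sum h1).trans ?_
      rw [← sum_mul]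
      have h2 : ∑ k ∈ (range N).filter (fun k => ¬ (η * X ≤ mono χ Q (Ioc L (L + L)) x₀ x₀ (τ k))), (Dl τ k : ℝ) ≤ X := by
        refine (sum_le_sum_of_subset_of_nonneg (filter_subset _ _) (fun _ _ _ => Nat.cast_nonneg _)).trans ?_
        rw [Dl_sum τ (fun k => (tau_lt T hDat.nn hDat.c1 k).le)]
        have : (0 : ℝ) ≤ (τ 0 : ℝ) := Nat.cast_nonneg _
        linarith
      calc _ ≤ (X : ℝ) * (η * X) := mul_le_mul_of_nonneg_right h2 (by positivity)
        _ = _ := by ring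
  have h8 : η * X * X ≤ (L : ℝ) ^ 2 / (32 * K) := by
    calc η * X * X ≤ η * (6 * L) * (6 * L) := by gcongr
      _ = (L : ℝ) ^ 2 / (32 * K) := by rw [hη]; field_simp; ring
  have h9 : (L : ℝ) ^ 2 / (8 * K) ≤ 1 / (32 * K) * (L : ℝ) ^ 2 + (L : ℝ) ^ 2 / (32 * K) := by linarith
  have h10 : 1 / (32 * K) * (L : ℝ) ^ 2 + (L : ℝ) ^ 2 / (32 * K) = (L : ℝ) ^ 2 / (8 * K) / 2 := by
    field_simp
    ring
  rw [h10] at h9
  have h11 : 0 < (L : ℝ) ^ 2 / (8 * K) := by positivity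
  linarith

end Pool.Agent.H566
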