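import Mathlib
import Pool.Agent.H566.KSi

/-!
Many values of a polynomial are sums of two primes of the same colour.
-/

set_option autoImplicit false

namespace Pool.Agent.H566

open Finset Polynomial
open Pool.Agent.H807R2.Dav
open Pool.Agent.H373R2.T7

lemma tau_pow_le (T : ℤ[X]) (hnn : ∀ j, 0 ≤ T.coeff j) (hlead : 0 < T.leadingCoeff) (N : ℕ) :
    N ^ T.natDegree ≤ tau T N := by
  have e : (N : ℤ) ^ T.natDegree ≤ (tau T N : ℤ) := by
    rw [tau_cast T hnn, eval_eq_sum_range]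
    refine le_trans ?_ (single_le_sum (f := fun j => T.coeff j * (N : ℤ) ^ j)
      (fun j _ => mul_nonneg (hnn j) (by positivity)) (mem_range.2 (Nat.lt_succ_self T.natDegree)))
    have h1 : 1 ≤ T.coeff T.natDegree := hlead
    calc (N : ℤ) ^ T.natDegree = 1 * (N : ℤ) ^ T.natDegree := (one_mul _).symm
      _ ≤ _ := mul_le_mul_of_nonneg_right h1 (by positivity)
  exact_mod_cast e

/-- many values with many monochromatic representations -/
theorem many_m (R : ℤ[X]) (hd : 2 ≤ R.natDegree) (hl : 0 < R.leadingCoeff)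
    (hloc : ∀ l : ℕ, l.Prime → ∃ m : ℕ, 2 ∣ R.eval (m : ℤ) ∧ ¬ (l : ℤ) ∣ R.eval (m : ℤ) / 2) (K : ℕ) (hK : 1 ≤ K) :
    ∃ c : ℝ, 0 < c ∧ ∃ M₀ : ℕ, ∀ M : ℕ, M₀ ≤ M → ∀ χ : ℕ → Fin K,
      c * M ≤ ((Icc 1 M).filter (fun m : ℕ => c * (M : ℝ) ^ R.natDegree / Real.log M ^ 2 ≤
        ((mp χ (R.eval (m : ℤ)).toNat).card : ℝ))).card := by
  classical
  obtain ⟨w, hw1, κ, η, hκ, hη, h⟩ := many_k R hd hl K hK
  obtain ⟨m₀, Q', Q, x₀, T, D⟩ := exists_dat R hl (by omega) hloc w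
  obtain ⟨N₀, hN₀⟩ := h m₀ Q' Q x₀ T D
  set d := R.natDegree with hdd
  set t1 := tau T 1 with ht1
  have hQ'pos := D.Q'pos
  have hQpos := D.Qpos
  have hQ'0 : (0 : ℝ) < Q' := by exact_mod_cast hQ'pos
  have hd0 : (0 : ℝ) < (d : ℝ) + 1 := by positivity
  set c : ℝ := min (κ / (2 * Q')) (η / (4 * ((d : ℝ) + 1) ^ 2 * (2 * Q') ^ d)) with hc
  have hc0 : 0 < c := lt_min (by positivity) (by positivity)
  obtain ⟨n1, hn1⟩ := ev_log' 2 (2 * ((d : ℝ) + 1) ^ 2 * (2 * Q') / η)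
  refine ⟨c, hc0, max (max (2 * m₀ + 2 * Q' + 2) (2 * Q' * (N₀ + 10))) (max n1 (Q * t1 + x₀)), fun M hM χ => ?_⟩
  have hM1 : 2 * m₀ + 2 * Q' + 2 ≤ M := le_trans (le_trans (le_max_left _ _) (le_max_left _ _)) hM
  have hM2 : 2 * Q' * (N₀ + 10) ≤ M := le_trans (le_trans (le_max_right _ _) (le_max_left _ _)) hM
  have hM3 : n1 ≤ M := le_trans (le_trans (le_max_left _ _) (le_max_right _ _)) hM
  have hM4 : Q * t1 + x₀ ≤ M := le_trans (le_trans (le_max_right _ _) (le_max_right _ _)) hM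
  set N := (M - m₀) / Q' with hN
  have hNa : Q' * N ≤ M - m₀ := Nat.mul_div_le _ _
  have hNb : M - m₀ < Q' * (N + 1) := by
    rw [hN]
    exact Nat.lt_mul_div_succ _ hQ'pos
  have hNc : Q' * (N + 1) = Q' * N + Q' := by ring
  have hNd : M ≤ 2 * (Q' * N) := by omega
  have hNe : M ≤ 2 * Q' * N := by rw [mul_assoc]; exact hNd
  have hNN₀' : N₀ + 10 ≤ N := by
    by_contra hcon
    rw [not_le] at hcon
    have h1 : 2 * Q' * N < 2 * Q' * (N₀ + 10) := (Nat.mul_lt_mul_left (by omega)).2 hcon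
    omega
  have hNN₀ : N₀ ≤ N := by omega
  have hN1 : 1 ≤ N := by omega
  have hNM : N ≤ M := by
    have : 1 * N ≤ Q' * N := Nat.mul_le_mul_right _ hQ'pos
    omega
  have hMr : (2 : ℝ) ≤ M := by exact_mod_cast (by omega : 2 ≤ M)
  have hM0 : (0 : ℝ) < M := by linarith
  have hlog : 0 < Real.log M := Real.log_pos (by linarith)
  have hNr : (M : ℝ) / (2 * Q') ≤ N := by
    rw [div_le_iff₀ (by positivity)]
    have : (M : ℝ) ≤ 2 * Q' * N := by exact_mod_cast hNe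
    linarith
  set X := tau T N with hX
  have hXle : X ≤ t1 * N ^ d := by
    have := tau_le T D.nn N hN1
    rwa [D.deg] at this
  have hXge : N ^ d ≤ X := by
    have := tau_pow_le T D.nn D.lead N
    rwa [D.deg] at this
  have hXge' : ((M : ℝ) / (2 * Q')) ^ d ≤ X := by
    calc ((M : ℝ) / (2 * Q')) ^ d ≤ (N : ℝ) ^ d := pow_le_pow_left₀ (by positivity) hNr d
      _ ≤ X := by exact_mod_cast hXge
  have hXN : N ≤ X := tau_ge T D.nn D.c1 N
  have hXge1 : (M : ℝ) / (2 * Q') ≤ X := hNr.trans (by exact_mod_cast hXN)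
  have hsize : Q * (X / 5 + X / 5) + x₀ ≤ M ^ (d + 1) := by
    have h1 : X / 5 + X / 5 ≤ X := by omega
    have h2 : N ^ d ≤ M ^ d := Nat.pow_le_pow_left hNM d
    have h3 : 1 ≤ M ^ d := Nat.one_le_pow _ _ (by omega)
    calc Q * (X / 5 + X / 5) + x₀ ≤ Q * X + x₀ := by gcongr
      _ ≤ Q * (t1 * M ^ d) + x₀ * M ^ d := by
          apply Nat.add_le_add
          · exact Nat.mul_le_mul_left _ (hXle.trans (Nat.mul_le_mul_left _ h2))
          · exact Nat.le_mul_of_pos_right _ (by omega)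
      _ = (Q * t1 + x₀) * M ^ d := by ring
      _ ≤ M * M ^ d := Nat.mul_le_mul_right _ hM4
      _ = M ^ (d + 1) := by ring
  have hlogN : Real.log ((M ^ (d + 1) : ℕ) : ℝ) = ((d : ℝ) + 1) * Real.log M := by
    push_cast
    rw [Real.log_pow]
    push_cast
    ring
  have hev := hn1 M hM3
  have hsq : √(M : ℝ) ≤ M := by
    rw [Real.sqrt_le_left hM0.le]
    nlinarith
  have hbig : 2 * (((d : ℝ) + 1) * Real.log M) ^ 2 ≤ η * X := by
    have h1 : 2 * ((d : ℝ) + 1) ^ 2 * (2 * Q') / η * Real.log M ^ 2 ≤ M := hev.trans hsq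
    have h2 : 2 * (((d : ℝ) + 1) * Real.log M) ^ 2 = (2 * ((d : ℝ) + 1) ^ 2 * (2 * Q') / η * Real.log M ^ 2) * (η / (2 * Q')) := by
      field_simp
    rw [h2]
    calc (2 * ((d : ℝ) + 1) ^ 2 * (2 * Q') / η * Real.log M ^ 2) * (η / (2 * Q')) ≤ M * (η / (2 * Q')) := by gcongr
      _ = η * (M / (2 * Q')) := by ring
      _ ≤ η * X := by gcongr
  have hk := hN₀ N hNN₀ χ
  rw [← hX] at hk
  have hcount : ((range N).filter (fun k => η * X ≤ mono χ Q (Ioc (X / 5) (X / 5 + X / 5)) x₀ x₀ (tau T k))).card ≤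
      ((Icc 1 M).filter (fun m : ℕ => c * (M : ℝ) ^ d / Real.log M ^ 2 ≤ ((mp χ (R.eval (m : ℤ)).toNat).card : ℝ))).card := by
    apply card_le_card_of_injOn (fun k => m₀ + Q' * k)
    · intro k hk
      rw [mem_coe, mem_filter, mem_range] at hk
      rw [mem_coe, mem_filter, mem_Icc]
      have hm0 := D.m₀pos
      have hk2 : Q' * k ≤ Q' * N := Nat.mul_le_mul_left _ hk.1.le
      change (1 ≤ m₀ + Q' * k ∧ m₀ + Q' * k ≤ M) ∧ c * (M : ℝ) ^ d / Real.log M ^ 2 ≤
        ((mp χ (R.eval ((m₀ + Q' * k : ℕ) : ℤ)).toNat).card : ℝ)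
      refine ⟨⟨by omega, by omega⟩, ?_⟩
      have he : (R.eval ((m₀ + Q' * k : ℕ) : ℤ)).toNat = Q * tau T k + 2 * x₀ := by
        rw [D.ev k, ← tau_cast T D.nn]
        have : (2 * (x₀ : ℤ) + Q * (tau T k : ℤ)) = ((Q * tau T k + 2 * x₀ : ℕ) : ℤ) := by push_cast; ring
        rw [this]
        rfl
      rw [he]
      have h1 := mono_le_mp χ Q x₀ (X / 5) (tau T k) (M ^ (d + 1)) (by omega) hQpos hsize
      rw [hlogN] at h1
      have h2 := hk.2.trans h1
      set n := (mp χ (Q * tau T k + 2 * x₀)).card with hn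
      have hP : 0 < (((d : ℝ) + 1) * Real.log M) ^ 2 := by positivity
      have h3 : η * X ≤ (((d : ℝ) + 1) * Real.log M) ^ 2 * (4 * n) := by
        have h4 : (2 : ℝ) ≤ 2 * n + 1 := by
          by_contra h5
          rw [not_le] at h5
          have : (((d : ℝ) + 1) * Real.log M) ^ 2 * (2 * (n : ℝ) + 1) < (((d : ℝ) + 1) * Real.log M) ^ 2 * 2 :=
            mul_lt_mul_of_pos_left h5 hP
          linarith
        have h6 : (1 : ℝ) ≤ n := by
          have h7 : (0 : ℝ) < n := by linarith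
          have h8 : 0 < n := by exact_mod_cast h7
          exact_mod_cast h8
        refine h2.trans ?_
        apply mul_le_mul_of_nonneg_left _ hP.le
        linarith
      rw [div_le_iff₀ (by positivity)]
      have h5 : η / (4 * ((d : ℝ) + 1) ^ 2) * X ≤ n * Real.log M ^ 2 := by
        rw [div_mul_eq_mul_div, div_le_iff₀ (by positivity)]
        calc η * X ≤ (((d : ℝ) + 1) * Real.log M) ^ 2 * (4 * n) := h3
          _ = _ := by ring
      refine le_trans ?_ h5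
      calc c * (M : ℝ) ^ d ≤ (η / (4 * ((d : ℝ) + 1) ^ 2 * (2 * Q') ^ d)) * (M : ℝ) ^ d := by
            apply mul_le_mul_of_nonneg_right (min_le_right _ _) (by positivity)
        _ = η / (4 * ((d : ℝ) + 1) ^ 2) * ((M : ℝ) / (2 * Q')) ^ d := by
            rw [div_pow]
            field_simp
        _ ≤ _ := by gcongr
    · intro a _ b _ hab
      simp only at hab
      have h1 : Q' * a = Q' * b := by omega
      exact Nat.eq_of_mul_eq_mul_left hQ'pos h1
  calc c * M ≤ (κ / (2 * Q')) * M := mul_le_mul_of_nonneg_right (min_le_left _ _) hM0.le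
    _ = κ * (M / (2 * Q')) := by ring
    _ ≤ κ * N := by gcongr
    _ ≤ _ := hk
    _ ≤ _ := by exact_mod_cast hcount

end Pool.Agent.H566
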