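import Mathlib

/-! A power of the logarithm is smaller than a power. -/

set_option autoImplicit false

namespace Pool.Agent.H566

lemma log_pow_le' (K : ℕ) (s : ℝ) (hs : 0 < s) (C : ℝ) :
    ∃ x₀ : ℝ, 1 ≤ x₀ ∧ ∀ x : ℝ, x₀ ≤ x → C * Real.log x ^ K ≤ x ^ s := by
  have h := (isLittleO_log_rpow_rpow_atTop (K : ℝ) hs).def (c := 1 / (|C| + 1)) (by positivity)
  obtain ⟨x₀, hx₀⟩ := Filter.eventually_atTop.1 h
  refine ⟨max x₀ 1, le_max_right _ _, fun x hx => ?_⟩
  have h1 := hx₀ x ((le_max_left _ _).trans hx)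
  have hx1 : 1 ≤ x := (le_max_right _ _).trans hx
  have hl : 0 ≤ Real.log x := Real.log_nonneg hx1
  rw [Real.norm_of_nonneg (by positivity), Real.norm_of_nonneg (by positivity), Real.rpow_natCast] at h1
  have hC : 0 < |C| + 1 := by positivity
  have h2 : (|C| + 1) * Real.log x ^ K ≤ x ^ s := by
    have := mul_le_mul_of_nonneg_left h1 hC.le
    calc (|C| + 1) * Real.log x ^ K ≤ (|C| + 1) * (1 / (|C| + 1) * x ^ s) := this
      _ = x ^ s := by field_simp
  have h3 : 0 ≤ Real.log x ^ K := by positivity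
  have h4 : C ≤ |C| + 1 := by have := le_abs_self C; linarith
  nlinarith

end Pool.Agent.H566
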