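import Mathlib
import Pool.Agent.H566.MGk

/-!
The density of the numbers that are sums of two primes of the same colour, in short intervals.
-/

set_option autoImplicit false

namespace Pool.Agent.H566

open Finset
open Pool.Agent.H807R2.Dav
open Pool.Agent.H373R2.T7

lemma final_calc (K W H L e w C' X G φ S Y : ℝ) (hK1 : 1 ≤ K) (hW1 : 1 ≤ W) (hH0 : 0 < H) (he0 : 0 < e) (he1 : e ≤ 1 / 16)
    (hL1 : 1 ≤ L) (hL8 : 8 ≤ L * e) (hX : 0 ≤ X) (hw : 4 / w ≤ 2 * e) (hC' : C' ≤ 2 * e)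
    (hsmall : 16 * e < 1 / K) (hφ : 0 < φ) (htot : 2 * S = W * φ) (hWX : H / 2 * (1 - 5 * e) ≤ W * X)
    (hsum : X * (S * ((1 - 2 / w) ^ 2 * L ^ 2)) ≤ K * (X * (S * ((C' + 2 * e) * L ^ 2)) + Y))
    (havg : 2 * Y ≤ (L ^ 2 + 1) * (φ * G)) : (1 / K - 16 * e) * (H / 2) ≤ G := by
  have hK0 : 0 < K := by linarith
  have hW0 : 0 < W := by linarith
  have hL0 : 0 < L := by linarith
  have hm1 : φ * ((W * X) * ((1 - 2 / w) ^ 2 * L ^ 2)) ≤
      φ * (K * ((W * X) * ((C' + 2 * e) * L ^ 2) + (L ^ 2 + 1) * G)) := by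
    have d1 : φ * ((W * X) * ((1 - 2 / w) ^ 2 * L ^ 2)) = 2 * (X * (S * ((1 - 2 / w) ^ 2 * L ^ 2))) := by
      calc _ = (W * φ) * (X * ((1 - 2 / w) ^ 2 * L ^ 2)) := by ring
        _ = _ := by rw [← htot]; ring
    have d2 : φ * (K * ((W * X) * ((C' + 2 * e) * L ^ 2) + (L ^ 2 + 1) * G)) =
        K * (2 * (X * (S * ((C' + 2 * e) * L ^ 2))) + (L ^ 2 + 1) * (φ * G)) := by
      calc _ = K * ((W * φ) * (X * ((C' + 2 * e) * L ^ 2)) + (L ^ 2 + 1) * (φ * G)) := by ring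
        _ = _ := by rw [← htot]; ring
    rw [d1, d2]
    have d3 : K * (2 * (X * (S * ((C' + 2 * e) * L ^ 2))) + 2 * Y) ≤
        K * (2 * (X * (S * ((C' + 2 * e) * L ^ 2))) + (L ^ 2 + 1) * (φ * G)) :=
      mul_le_mul_of_nonneg_left (by linarith) hK0.le
    refine le_trans ?_ d3
    linarith
  have hm2 := le_of_mul_le_mul_left hm1 hφ
  have hbr : (1 - 2 / w) ^ 2 ≥ 1 - 2 * e := by
    have h1 : (1 - 2 / w) ^ 2 = 1 - 4 / w + (2 / w) ^ 2 := by ring
    rw [h1]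
    have := sq_nonneg (2 / w)
    linarith
  have hm3 : (W * X) * L ^ 2 * (1 / K - 6 * e) ≤ (L ^ 2 + 1) * G := by
    have f1 : K * ((W * X) * L ^ 2 * (1 / K - 6 * e)) ≤ K * ((L ^ 2 + 1) * G) := by
      have f2 : K * ((W * X) * L ^ 2 * (1 / K - 6 * e)) = (W * X) * L ^ 2 * (1 - K * (6 * e)) := by
        field_simp
      have f3 : 1 - K * (6 * e) ≤ (1 - 2 / w) ^ 2 - K * (C' + 2 * e) := by
        have g2 : K * (C' + 2 * e) ≤ K * (4 * e) := mul_le_mul_of_nonneg_left (by linarith) hK0.le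
        have g4 : 2 * e ≤ K * (2 * e) := by nlinarith
        have g5 : K * (6 * e) = K * (4 * e) + K * (2 * e) := by ring
        linarith
      rw [f2]
      have f4 : (W * X) * L ^ 2 * (1 - K * (6 * e)) ≤ (W * X) * L ^ 2 * ((1 - 2 / w) ^ 2 - K * (C' + 2 * e)) :=
        mul_le_mul_of_nonneg_left f3 (by positivity)
      refine f4.trans ?_
      linarith
    exact le_of_mul_le_mul_left f1 hK0
  have hη : 0 < 1 / K - 6 * e := by linarith
  have f1 : (1 - e) * (L ^ 2 + 1) ≤ L ^ 2 := by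
    have f2 : 1 ≤ e * L ^ 2 := by
      have : e * L ^ 2 = (L * e) * L := by ring
      rw [this]
      nlinarith
    nlinarith
  have hm4 : (1 - e) * ((W * X) * (1 / K - 6 * e)) ≤ G := by
    have f3 : 0 ≤ (W * X) * (1 / K - 6 * e) := by positivity
    have f4 : (L ^ 2 + 1) * ((1 - e) * ((W * X) * (1 / K - 6 * e))) ≤ (L ^ 2 + 1) * G := by
      calc (L ^ 2 + 1) * ((1 - e) * ((W * X) * (1 / K - 6 * e))) =
            ((1 - e) * (L ^ 2 + 1)) * ((W * X) * (1 / K - 6 * e)) := by ring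
        _ ≤ L ^ 2 * ((W * X) * (1 / K - 6 * e)) := mul_le_mul_of_nonneg_right f1 f3
        _ = (W * X) * L ^ 2 * (1 / K - 6 * e) := by ring
        _ ≤ _ := hm3
    exact le_of_mul_le_mul_left f4 (by positivity)
  refine le_trans ?_ hm4
  have g1 : 0 ≤ 1 - e := by linarith
  have g2 : (1 - e) * (H / 2 * (1 - 5 * e) * (1 / K - 6 * e)) ≤ (1 - e) * ((W * X) * (1 / K - 6 * e)) :=
    mul_le_mul_of_nonneg_left (mul_le_mul_of_nonneg_right hWX hη.le) g1
  refine le_trans ?_ g2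
  have g3 : (1 - e) * (1 - 5 * e) ≥ 1 - 6 * e := by nlinarith
  have g4 : (1 - 6 * e) * (1 / K - 6 * e) ≤ (1 - e) * (1 - 5 * e) * (1 / K - 6 * e) := mul_le_mul_of_nonneg_right g3 hη.le
  have g5 : 1 / K - 16 * e ≤ (1 - 6 * e) * (1 / K - 6 * e) := by
    have g7 : 1 / K ≤ 1 := by rw [div_le_one hK0]; exact hK1
    have g6 : e * (1 / K) ≤ e * 1 := mul_le_mul_of_nonneg_left g7 he0.le
    nlinarith
  calc (1 / K - 16 * e) * (H / 2) ≤ ((1 - e) * (1 - 5 * e) * (1 / K - 6 * e)) * (H / 2) :=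
        mul_le_mul_of_nonneg_right (g5.trans g4) (by positivity)
    _ = _ := by ring

/-- the windows -/
lemma windows (W L M H : ℕ) (hW : 0 < W) (m1 m2 : ℕ) (hm1 : m1 = M / (2 * W)) (hm2 : m2 = (M + H) / (2 * W)) :
    (∀ X0 ∈ Ioc (m1 + L) (m2 - L - 1), L ≤ X0 ∧ M ≤ 2 * W * X0 ∧ 2 * W * (X0 + L + 1) ≤ M + H) ∧
    (H : ℝ) / (2 * W) - 2 * L - 2 ≤ ((Ioc (m1 + L) (m2 - L - 1)).card : ℝ) := by
  have hWr : (0 : ℝ) < W := by exact_mod_cast hW
  have d1 := Nat.div_add_mod M (2 * W)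
  have d2 := Nat.mod_lt M (show 0 < 2 * W by omega)
  have d3 := Nat.div_mul_le_self (M + H) (2 * W)
  have d4 := Nat.div_add_mod (M + H) (2 * W)
  have d5 := Nat.mod_lt (M + H) (show 0 < 2 * W by omega)
  rw [← hm1] at d1
  rw [← hm2] at d3 d4
  constructor
  · intro X0 hX0
    rw [mem_Ioc] at hX0
    refine ⟨by omega, ?_, ?_⟩
    · have : 2 * W * (m1 + 1) ≤ 2 * W * X0 := Nat.mul_le_mul_left _ (by omega)
      rw [Nat.mul_add] at this
      omega
    · have : 2 * W * (X0 + L + 1) ≤ 2 * W * m2 := Nat.mul_le_mul_left _ (by omega)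
      rw [mul_comm (2 * W) m2] at this
      omega
  · have c1 : m2 ≤ (Ioc (m1 + L) (m2 - L - 1)).card + (m1 + L) + L + 1 := by
      rw [Nat.card_Ioc]
      omega
    have c2 : (m2 : ℝ) ≤ ((Ioc (m1 + L) (m2 - L - 1)).card : ℝ) + ((m1 : ℝ) + L) + L + 1 := by exact_mod_cast c1
    have c3 : (m1 : ℝ) ≤ (M : ℝ) / (2 * W) := by
      rw [le_div_iff₀ (by positivity)]
      have : m1 * (2 * W) ≤ M := by rw [mul_comm]; omega
      exact_mod_cast this
    have c4 : ((M : ℝ) + H) / (2 * W) ≤ (m2 : ℝ) + 1 := by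
      have h3 : M + H ≤ (m2 + 1) * (2 * W) := by
        rw [add_mul, one_mul, mul_comm m2]
        omega
      rw [div_le_iff₀ (by positivity)]
      exact_mod_cast h3
    have c5 : ((M : ℝ) + H) / (2 * W) = M / (2 * W) + H / (2 * W) := by ring
    linarith

theorem mono_density (K : ℕ) (hK : 1 ≤ K) (ε : ℝ) (hε : 0 < ε) (A : ℕ) :
    ∃ c : ℝ, 0 < c ∧ ∃ N0 : ℕ, ∀ N : ℕ, N0 ≤ N → ∀ χ : ℕ → Fin K, ∀ M H : ℕ, M + H ≤ N → N / Real.log N ^ A ≤ (H : ℝ) →
      (1 / (K : ℝ) - ε) * (H / 2) ≤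
        (((Ioc M (M + H)).filter (fun n => Even n ∧ c * H / Real.log N ^ 2 ≤ monoRep χ H n)).card : ℝ) := by
  classical
  have hK0 : (0 : ℝ) < K := by exact_mod_cast hK
  have hK1 : (1 : ℝ) ≤ K := by exact_mod_cast hK
  have hKinv : 1 / (K : ℝ) ≤ 1 := by rw [div_le_one hK0]; exact hK1
  rcases le_or_gt (1 / (K : ℝ)) ε with hbig | hsmall
  · refine ⟨1, one_pos, 0, fun N _ χ M H _ _ => ?_⟩
    have h1 : (1 / (K : ℝ) - ε) * (H / 2) ≤ 0 := mul_nonpos_of_nonpos_of_nonneg (by linarith) (by positivity)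
    exact h1.trans (Nat.cast_nonneg _)
  have hε1 : ε < 1 := lt_of_lt_of_le hsmall hKinv
  obtain ⟨C, hC, hwin⟩ := window
  -- choice of w
  obtain ⟨w, hw⟩ := exists_nat_ge (max 2 (max (32 / ε) ((8 * C / ε) ^ 2)))
  have hw2 : 2 ≤ w := by exact_mod_cast (le_trans (le_max_left _ _) hw)
  have hw0 : (0 : ℝ) < w := by exact_mod_cast (by omega : 0 < w)
  have hw3 : 4 / (w : ℝ) ≤ ε / 8 := by
    have h1 : 32 / ε ≤ w := le_trans (le_trans (le_max_left _ _) (le_max_right _ _)) hw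
    rw [div_le_iff₀ hε] at h1
    rw [div_le_iff₀ hw0]
    linarith
  have hw4 : C / √(w : ℝ) ≤ ε / 8 := by
    have h1 : (8 * C / ε) ^ 2 ≤ w := le_trans (le_trans (le_max_right _ _) (le_max_right _ _)) hw
    have h2 := Real.le_sqrt_of_sq_le h1
    have h3 : 0 < √(w : ℝ) := Real.sqrt_pos.2 hw0
    rw [div_le_iff₀ hε] at h2
    rw [div_le_iff₀ h3]
    linarith
  obtain ⟨N1, h1⟩ := hwin w hw2 (A + 1)
  set W := pmW w with hW
  have hWpos : 0 < W := pmW_pos w
  have hWr : (0 : ℝ) < W := by exact_mod_cast hWpos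
  have hW1 : (1 : ℝ) ≤ W := by exact_mod_cast hWpos
  set e := ε / 16 with he
  have he0 : 0 < e := by positivity
  obtain ⟨n2, h2⟩ := ev_L' (2 * W / e)
  obtain ⟨n3, h3⟩ := ev_log' A (16 * W / (e * e))
  refine ⟨e * e / (2 * W), by positivity, max N1 (max n2 (max n3 3)), fun N hN χ M H hMH hNH => ?_⟩
  have k1 := h1 N (le_trans (le_max_left _ _) hN)
  have k2 := h2 N (le_trans (le_trans (le_max_left _ _) (le_max_right _ _)) hN)
  have k3 := h3 N (le_trans (le_trans (le_trans (le_max_left _ _) (le_max_right _ _)) (le_max_right _ _)) hN)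
  have hN3 : 3 ≤ N := le_trans (le_trans (le_trans (le_max_right _ _) (le_max_right _ _)) (le_max_right _ _)) hN
  have hNpos : (0 : ℝ) < N := by exact_mod_cast (by omega : 0 < N)
  have hN1 : (1 : ℝ) ≤ N := by exact_mod_cast (by omega : 1 ≤ N)
  set LL := Real.log N with hLL
  have hLL0 : 0 < LL := lt_of_lt_of_le (by positivity) k2
  have he1 : e ≤ 1 / 16 := by rw [he]; linarith
  -- H is large
  have hHbig : 16 * W / (e * e) ≤ (H : ℝ) := by
    refine le_trans ?_ hNH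
    rw [le_div_iff₀ (by positivity)]
    refine k3.trans ?_
    rw [Real.sqrt_le_left hNpos.le]
    nlinarith
  have hH0 : (0 : ℝ) < H := lt_of_lt_of_le (by positivity) hHbig
  have hHb2 : 16 * (W : ℝ) ≤ H * (e * e) := by
    rwa [div_le_iff₀ (by positivity)] at hHbig
  have hee : 0 < e * e := by positivity
  set L : ℕ := ⌊e * H / W⌋₊ with hL
  have hLle : (L : ℝ) ≤ e * H / W := Nat.floor_le (by positivity)
  have hLge : e * H / W - 1 ≤ L := by
    have := Nat.lt_floor_add_one (e * H / W)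
    rw [← hL] at this
    linarith
  have hq1 : 16 / e ≤ e * H / W := by
    rw [div_le_div_iff₀ he0 hWr]
    calc 16 * (W : ℝ) ≤ H * (e * e) := hHb2
      _ = e * H * e := by ring
  have h16e : 16 ≤ 16 / e := by
    rw [le_div_iff₀ he0]
    linarith
  have hLge2 : e * H / (2 * W) ≤ L := by
    have : e * H / (2 * W) = e * H / W / 2 := by ring
    rw [this]
    linarith
  have hL8 : 8 / e ≤ L := by
    have h1 : e * H / (2 * W) = e * H / W / 2 := by ring
    have h2 : 8 / e = 16 / e / 2 := by ring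
    rw [h2]
    linarith
  have hL8' : 8 ≤ (L : ℝ) * e := by rwa [div_le_iff₀ he0] at hL8
  have hL0 : (0 : ℝ) < L := lt_of_lt_of_le (by positivity) hL8
  have hL1 : 1 ≤ L := by exact_mod_cast hL0
  have hLlog : (N : ℝ) / LL ^ (A + 1) ≤ L := by
    refine le_trans ?_ hLge2
    have e1 : (N : ℝ) / LL ^ (A + 1) = (N / LL ^ A) / LL := by rw [pow_succ]; field_simp
    rw [e1, div_le_div_iff₀ hLL0 (by positivity)]
    have e2 : 2 * (W : ℝ) ≤ LL * e := by rwa [div_le_iff₀ he0] at k2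
    calc (N : ℝ) / LL ^ A * (2 * W) ≤ H * (LL * e) := by gcongr
      _ = e * H * LL := by ring
  -- the windows
  obtain ⟨h𝒳1, h𝒳card⟩ := windows W L M H hWpos (M / (2 * W)) ((M + H) / (2 * W)) rfl rfl
  set 𝒳 := Ioc (M / (2 * W) + L) ((M + H) / (2 * W) - L - 1) with h𝒳
  set G := (Ioc M (M + H)).filter (fun n => Even n ∧ e * e / (2 * W) * H / LL ^ 2 ≤ monoRep χ H n) with hG
  have hWX : (H : ℝ) / 2 * (1 - 5 * e) ≤ W * 𝒳.card := by
    have c1 : (W : ℝ) * ((H : ℝ) / (2 * W) - 2 * L - 2) ≤ W * 𝒳.card := by gcongr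
    have c2 : (W : ℝ) * ((H : ℝ) / (2 * W) - 2 * L - 2) = H / 2 - 2 * (W * L) - 2 * W := by field_simp
    have c3 : (W : ℝ) * L ≤ e * H := by
      calc (W : ℝ) * L ≤ W * (e * H / W) := by gcongr
        _ = e * H := by field_simp
    have c4 : 2 * (W : ℝ) ≤ H * e / 2 := by
      have : H * (e * e) ≤ H * (e * (1 / 16)) := by gcongr
      linarith
    have c5 : (H : ℝ) / 2 * (1 - 5 * e) = H / 2 - 2 * (e * H) - H * e / 2 := by ring
    rw [c5]
    linarith
  have hWLH : W * (L + 1) ≤ H := by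
    have c3 : (W : ℝ) * L ≤ e * H := by
      calc (W : ℝ) * L ≤ W * (e * H / W) := by gcongr
        _ = e * H := by field_simp
    have c5 : e * H ≤ 1 / 16 * H := by gcongr
    have c6 : H * (e * e) ≤ H * (1 * 1) := by
      have : e ≤ 1 := by linarith
      gcongr
    have c7 : (W : ℝ) * (L + 1) ≤ H := by
      rw [mul_add, mul_one]
      linarith
    exact_mod_cast c7
  have hwX : ∀ X0 ∈ 𝒳, (∑ q ∈ unW w ×ˢ unW w, (ker w q.1 q.2 : ℝ)) * ((1 - 2 / w) ^ 2 * (L : ℝ) ^ 2) ≤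
      K * ((∑ q ∈ unW w ×ˢ unW w, (ker w q.1 q.2 : ℝ)) * ((C / √(w : ℝ) + 2 * e) * (L : ℝ) ^ 2) +
        ∑ q ∈ unW w ×ˢ unW w, (ker w q.1 q.2 : ℝ) *
          ∑ s ∈ (Ioc (2 * X0) (2 * X0 + 2 * L)).filter (fun s => e * L / LL ^ 2 < monoRep χ H (pmW w * s + q.1 + q.2)),
            cv (Ioc X0 (X0 + L)) (fun _ => 1) (fun _ => 1) s) := by
    intro X0 hX0
    obtain ⟨a1, a2, a3⟩ := h𝒳1 X0 hX0
    have g1 : 2 * W * (X0 + L + 1) = 2 * (W * (X0 + L + 1)) := by ring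
    refine k1 K χ X0 L H a1 hLlog ?_ hWLH e he0.le
    omega
  have hsum := sum_le_sum hwX
  rw [sum_const, nsmul_eq_mul, ← mul_sum, sum_add_distrib, sum_const, nsmul_eq_mul] at hsum
  have havg := avg w L hw2 hL1 𝒳 G (fun n hn => (mem_filter.1 hn).2.1) (fun n => e * L / LL ^ 2 < monoRep χ H n) (by
    intro X0 hX0 q hq s hs hPs
    obtain ⟨a1, a2, a3⟩ := h𝒳1 X0 hX0
    rw [mem_product] at hq
    rw [mem_Ioc] at hs
    have u1 : q.1 < W := by
      have := hq.1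
      unfold unW at this
      rw [mem_filter, mem_range] at this
      exact this.1
    have u2 : q.2 < W := by
      have := hq.2
      unfold unW at this
      rw [mem_filter, mem_range] at this
      exact this.1
    have o1 := unW_odd w q.1 hw2 hq.1
    have o2 := unW_odd w q.2 hw2 hq.2
    obtain ⟨V, hV⟩ := pmW_even w hw2
    rw [hG, mem_filter, mem_Ioc]
    refine ⟨⟨?_, ?_⟩, ?_, ?_⟩
    · have : W * (2 * X0 + 1) ≤ W * s := Nat.mul_le_mul_left _ (by omega)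
      have e1 : W * (2 * X0 + 1) = 2 * W * X0 + W := by ring
      rw [← hW]
      omega
    · have : W * s ≤ W * (2 * X0 + 2 * L) := Nat.mul_le_mul_left _ (by omega)
      have e1 : 2 * W * (X0 + L + 1) = W * (2 * X0 + 2 * L) + 2 * W := by ring
      rw [← hW]
      omega
    · rw [Nat.even_iff, hV]
      have : 2 * V * s = 2 * (V * s) := by ring
      omega
    · refine le_trans ?_ hPs.le
      have e1 : e * e / (2 * W) * H = e * (e * H / (2 * W)) := by ring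
      rw [e1]
      gcongr)
  -- assemble
  have htot := ker_total w hw2
  have htot' : 2 * (∑ q ∈ unW w ×ˢ unW w, (ker w q.1 q.2 : ℝ)) = W * W.totient := by
    rw [← hW] at htot
    exact_mod_cast htot
  have hφ : (0 : ℝ) < W.totient := by exact_mod_cast Nat.totient_pos.2 hWpos
  have h16 : ε = 16 * e := by rw [he]; ring
  have hL1' : (1 : ℝ) ≤ L := by exact_mod_cast hL1
  rw [h16]
  exact final_calc K W H L e w (C / √(w : ℝ)) 𝒳.card G.card W.totient _ _ hK1 hW1 hH0 he0 he1 hL1' hL8' (Nat.cast_nonneg _)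
    (by rw [h16] at hw3; linarith) (by rw [h16] at hw4; linarith) (by rw [h16] at hsmall; exact hsmall) hφ htot' hWX hsum havg

end Pool.Agent.H566
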