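import Mathlib
import Pool.Agent.H566.Circle

/-!
Exponential sums over the powers of a sequence twisted by linear phases: a lower bound for the number of the
members in a short arc, and an upper bound for their additive energy.
-/

set_option autoImplicit false

namespace Pool.Agent.H566

open Finset

/-- `e(x) = exp(2 π i x)` -/
noncomputable def ex (x : ℝ) : ℂ := Complex.exp (2 * Real.pi * Complex.I * x)

lemma ex_eq (x : ℝ) : ex x = Complex.exp (((2 * Real.pi * x : ℝ) : ℂ) * Complex.I) := by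
  unfold ex
  congr 1
  push_cast
  ring

lemma norm_ex (x : ℝ) : ‖ex x‖ = 1 := by
  rw [ex_eq]
  exact Complex.norm_exp_ofReal_mul_I _

lemma ex_add (x y : ℝ) : ex (x + y) = ex x * ex y := by
  unfold ex
  rw [← Complex.exp_add]
  congr 1
  push_cast
  ring

lemma ex_zero : ex 0 = 1 := by simp [ex]

lemma ex_neg (x : ℝ) : ex (-x) = (starRingEnd ℂ) (ex x) := by
  rw [ex_eq, ex_eq, ← Complex.exp_conj]
  congr 1
  rw [map_mul, Complex.conj_I, Complex.conj_ofReal]
  push_cast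
  ring

lemma ex_int (k : ℤ) : ex k = 1 := by
  unfold ex
  rw [Complex.exp_eq_one_iff]
  exact ⟨k, by push_cast; ring⟩

lemma ex_add_int (x : ℝ) (k : ℤ) : ex (x + k) = ex x := by
  rw [ex_add, ex_int, mul_one]

lemma ex_nat_mul (n : ℕ) (x : ℝ) : ex (n * x) = ex x ^ n := by
  unfold ex
  rw [← Complex.exp_nat_mul]
  congr 1
  push_cast
  ring

lemma ex_re (x : ℝ) : (ex x).re = Real.cos (2 * Real.pi * x) := by
  rw [ex_eq, Complex.exp_ofReal_mul_I_re]

/-- orthogonality -/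
lemma ortho (M : ℕ) (hM : 1 ≤ M) (v : ℤ) (hv : |v| < M) :
    ∑ j ∈ range M, ex ((j : ℝ) * v / M) = if v = 0 then (M : ℂ) else 0 := by
  have hM0 : (0 : ℝ) < M := by exact_mod_cast hM
  split_ifs with h
  · subst h
    simp [ex_zero]
  · have h1 : ∀ j ∈ range M, ex ((j : ℝ) * v / M) = ex ((v : ℝ) / M) ^ j := by
      intro j _
      rw [← ex_nat_mul]
      congr 1
      ring
    rw [sum_congr rfl h1]
    have hne : ex ((v : ℝ) / M) ≠ 1 := by
      intro h2
      unfold ex at h2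
      rw [Complex.exp_eq_one_iff] at h2
      obtain ⟨n, hn⟩ := h2
      have h3 : ((v : ℝ) / M : ℝ) = n := by
        have h4 : (2 * Real.pi * Complex.I : ℂ) ≠ 0 := Complex.two_pi_I_ne_zero
        have h5 : (2 * Real.pi * Complex.I : ℂ) * (((v : ℝ) / M : ℝ) : ℂ) = (2 * Real.pi * Complex.I) * (n : ℂ) := by
          rw [hn]; ring
        have h6 := mul_left_cancel₀ h4 h5
        exact_mod_cast h6
      rw [div_eq_iff hM0.ne'] at h3
      have h7 : v = n * M := by exact_mod_cast h3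
      rw [h7, abs_mul, Nat.abs_cast] at hv
      have h8 : n ≠ 0 := by
        intro h9
        apply h
        rw [h7, h9]; simp
      have h9 : 1 ≤ |n| := Int.one_le_abs h8
      nlinarith
    rw [geom_sum_eq hne]
    have h2 : ex ((v : ℝ) / M) ^ M = 1 := by
      rw [← ex_nat_mul]
      have : (M : ℝ) * (v / M) = (v : ℝ) := by field_simp
      rw [this]
      exact ex_int v
    rw [h2, sub_self, zero_div]

/-- the finite Fourier formula for weighted additive energies -/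
lemma weighted_energy (X h : ℕ) (w : ℕ → ℝ) (M : ℕ) (hM : h * X < M) :
    ∑ j ∈ range M, ‖∑ n ∈ Icc 1 X, (w n : ℂ) * ex ((j : ℝ) * n / M)‖ ^ (2 * h) =
      M * ∑ q ∈ ((Fintype.piFinset fun _ : Fin h => Icc 1 X) ×ˢ (Fintype.piFinset fun _ : Fin h => Icc 1 X)).filter
        (fun q => ∑ i, q.1 i = ∑ i, q.2 i), (∏ i, w (q.1 i)) * ∏ i, w (q.2 i) := by
  classical
  have hM1 : 1 ≤ M := by omega
  have hpow : ∀ j : ℕ, (∑ n ∈ Icc 1 X, (w n : ℂ) * ex ((j : ℝ) * n / M)) ^ h =
      ∑ v ∈ Fintype.piFinset (fun _ : Fin h => Icc 1 X), (∏ i, (w (v i) : ℂ)) *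
        ex ((j : ℝ) * ((∑ i, v i : ℕ) : ℝ) / M) := by
    intro j
    have h1 : (∑ n ∈ Icc 1 X, (w n : ℂ) * ex ((j : ℝ) * n / M)) ^ h =
        ∏ _i : Fin h, ∑ n ∈ Icc 1 X, (w n : ℂ) * ex ((j : ℝ) * n / M) := by
      rw [prod_const, card_univ, Fintype.card_fin]
    rw [h1, prod_univ_sum]
    refine sum_congr rfl fun v _ => ?_
    rw [prod_mul_distrib]
    congr 1
    have h2 : ∀ s : Finset (Fin h), ∏ i ∈ s, ex ((j : ℝ) * (v i : ℕ) / M) =
        ex ((j : ℝ) * ((∑ i ∈ s, v i : ℕ) : ℝ) / M) := by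
      intro s
      induction s using Finset.induction_on with
      | empty => simp [ex_zero]
      | insert a s ha ih =>
        rw [prod_insert ha, sum_insert ha, ih, ← ex_add]
        congr 1
        push_cast
        ring
    exact h2 univ
  have hterm : ∀ j : ℕ, ((‖∑ n ∈ Icc 1 X, (w n : ℂ) * ex ((j : ℝ) * n / M)‖ ^ (2 * h) : ℝ) : ℂ) =
      ∑ q ∈ (Fintype.piFinset fun _ : Fin h => Icc 1 X) ×ˢ (Fintype.piFinset fun _ : Fin h => Icc 1 X),
        (((∏ i, w (q.1 i)) * ∏ i, w (q.2 i) : ℝ) : ℂ) *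
          ex ((j : ℝ) * (((∑ i, q.1 i : ℕ) : ℤ) - ((∑ i, q.2 i : ℕ) : ℤ) : ℤ) / M) := by
    intro j
    have h1 : ((‖∑ n ∈ Icc 1 X, (w n : ℂ) * ex ((j : ℝ) * n / M)‖ ^ (2 * h) : ℝ) : ℂ) =
        (∑ n ∈ Icc 1 X, (w n : ℂ) * ex ((j : ℝ) * n / M)) ^ h *
          (starRingEnd ℂ) ((∑ n ∈ Icc 1 X, (w n : ℂ) * ex ((j : ℝ) * n / M)) ^ h) := by
      rw [Complex.mul_conj, Complex.normSq_eq_norm_sq, norm_pow]
      push_cast
      ring
    rw [h1, hpow j, map_sum, sum_mul_sum, sum_product]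
    refine sum_congr rfl fun v _ => sum_congr rfl fun v' _ => ?_
    rw [map_mul, ← ex_neg, map_prod]
    have h2 : ∀ i : Fin h, (starRingEnd ℂ) (w (v' i) : ℂ) = (w (v' i) : ℂ) := fun i => Complex.conj_ofReal _
    rw [prod_congr rfl (fun i _ => h2 i)]
    have h3 : ex ((j : ℝ) * (((∑ i, v i : ℕ) : ℤ) - ((∑ i, v' i : ℕ) : ℤ) : ℤ) / M) =
        ex ((j : ℝ) * ((∑ i, v i : ℕ) : ℝ) / M) * ex (-((j : ℝ) * ((∑ i, v' i : ℕ) : ℝ) / M)) := by
      rw [← ex_add]
      congr 1
      push_cast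
      ring
    simp only at h3 ⊢
    rw [h3]
    push_cast
    ring
  have hC : ((∑ j ∈ range M, ‖∑ n ∈ Icc 1 X, (w n : ℂ) * ex ((j : ℝ) * n / M)‖ ^ (2 * h) : ℝ) : ℂ) =
      ((M * ∑ q ∈ ((Fintype.piFinset fun _ : Fin h => Icc 1 X) ×ˢ
        (Fintype.piFinset fun _ : Fin h => Icc 1 X)).filter
        (fun q => ∑ i, q.1 i = ∑ i, q.2 i), (∏ i, w (q.1 i)) * ∏ i, w (q.2 i) : ℝ) : ℂ) := by
    rw [Complex.ofReal_sum, sum_congr rfl (fun j _ => hterm j), sum_comm]
    rw [Complex.ofReal_mul, Complex.ofReal_sum, mul_sum, sum_filter]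
    refine sum_congr rfl fun q hq => ?_
    rw [← mul_sum]
    rw [mem_product, Fintype.mem_piFinset, Fintype.mem_piFinset] at hq
    have hb : ∀ v : Fin h → ℕ, (∀ i, v i ∈ Icc 1 X) → ∑ i, v i ≤ h * X := by
      intro v hv
      calc ∑ i, v i ≤ ∑ _i : Fin h, X := sum_le_sum fun i _ => (mem_Icc.1 (hv i)).2
        _ = h * X := by rw [sum_const, card_univ, Fintype.card_fin, smul_eq_mul]
    have h1 := hb q.1 hq.1
    have h2 := hb q.2 hq.2
    rw [ortho M hM1 _ (by rw [abs_lt]; constructor <;> omega)]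
    by_cases h3 : ∑ i, q.1 i = ∑ i, q.2 i
    · rw [if_pos (by omega), if_pos h3]
      push_cast
      ring
    · rw [if_neg (by omega), if_neg h3, mul_zero]
  exact_mod_cast hC

/-- the number of the solutions without weights -/
lemma energy_trivial (X h : ℕ) (hh : 1 ≤ h) :
    (((Fintype.piFinset fun _ : Fin h => Icc 1 X) ×ˢ (Fintype.piFinset fun _ : Fin h => Icc 1 X)).filter
        (fun q => ∑ i, q.1 i = ∑ i, q.2 i)).card ≤ X ^ (2 * h - 1) := by
  classical
  obtain ⟨k, rfl⟩ : ∃ k, h = k + 1 := ⟨h - 1, by omega⟩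
  have h1 : (((Fintype.piFinset fun _ : Fin (k + 1) => Icc 1 X) ×ˢ
      (Fintype.piFinset fun _ : Fin (k + 1) => Icc 1 X)).filter
        (fun q => ∑ i, q.1 i = ∑ i, q.2 i)).card ≤
      ((Fintype.piFinset fun _ : Fin (k + 1) => Icc 1 X) ×ˢ (Fintype.piFinset fun _ : Fin k => Icc 1 X)).card := by
    refine card_le_card_of_injOn (fun q => (q.1, fun i => q.2 i.succ)) ?_ ?_
    · intro q hq
      have hq' := mem_coe.1 hq
      rw [mem_filter, mem_product, Fintype.mem_piFinset, Fintype.mem_piFinset] at hq'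
      rw [mem_coe, mem_product, Fintype.mem_piFinset, Fintype.mem_piFinset]
      exact ⟨hq'.1.1, fun i => hq'.1.2 _⟩
    · intro q hq q' hq' h
      have hq1 := mem_coe.1 hq
      have hq1' := mem_coe.1 hq'
      rw [mem_filter] at hq1 hq1'
      simp only [Prod.mk.injEq] at h
      have e1 := hq1.2
      have e2 := hq1'.2
      have e3 : ∀ i : Fin k, q.2 i.succ = q'.2 i.succ := fun i => congrFun h.2 i
      rw [h.1] at e1
      rw [Fin.sum_univ_succ (f := q.2)] at e1
      rw [Fin.sum_univ_succ (f := q'.2)] at e2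
      have e4 : ∑ i : Fin k, q.2 i.succ = ∑ i : Fin k, q'.2 i.succ := sum_congr rfl fun i _ => e3 i
      have e5 : q.2 0 = q'.2 0 := by omega
      refine Prod.ext h.1 (funext fun i => ?_)
      refine Fin.cases e5 (fun i => e3 i) i
  refine h1.trans (le_of_eq ?_)
  rw [card_product, Fintype.card_piFinset, Fintype.card_piFinset]
  simp only [Nat.card_Icc, Nat.add_sub_cancel, prod_const, card_univ, Fintype.card_fin]
  rw [← pow_add]
  congr 1
  omega

end Pool.Agent.H566
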