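import Mathlib
import Pool.Agent.H566.NLExp

/-!
The number of the members of a sequence in a short arc, and the additive energy of the set of these members.
-/

set_option autoImplicit false

namespace Pool.Agent.H566

open Finset

/-- the kernel of Dirichlet -/
noncomputable def dk (N : ℕ) (y : ℝ) : ℂ := ∑ j ∈ range N, ex (j * y)

lemma dk_sq (N : ℕ) (y : ℝ) :
    ((‖dk N y‖ ^ 2 : ℝ) : ℂ) = ∑ p ∈ range N, ∑ q ∈ range N, ex ((((p : ℤ) - (q : ℤ) : ℤ) : ℝ) * y) := by
  have h1 : ((‖dk N y‖ ^ 2 : ℝ) : ℂ) = dk N y * (starRingEnd ℂ) (dk N y) := by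
    rw [Complex.mul_conj, Complex.normSq_eq_norm_sq]
  rw [h1]
  unfold dk
  rw [map_sum, sum_mul_sum]
  refine sum_congr rfl fun p _ => sum_congr rfl fun q _ => ?_
  rw [← ex_neg, ← ex_add]
  congr 1
  push_cast
  ring

lemma dk_le (N : ℕ) (y : ℝ) : ‖dk N y‖ ≤ N := by
  unfold dk
  refine (norm_sum_le _ _).trans ?_
  simp [norm_ex]

lemma dk_identity (N : ℕ) (y : ℝ) :
    ‖dk N y‖ ^ 2 * (1 - Real.cos (2 * Real.pi * y)) = 1 - Real.cos (2 * Real.pi * (N * y)) := by
  have h1 : dk N y * (1 - ex y) = 1 - ex (N * y) := by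
    unfold dk
    have h2 : ∀ j ∈ range N, ex ((j : ℝ) * y) = ex y ^ j := fun j _ => ex_nat_mul j y
    rw [sum_congr rfl h2, ex_nat_mul]
    have := geom_sum_mul_neg (ex y) N
    exact this
  have h2 : ∀ x : ℝ, ‖1 - ex x‖ ^ 2 = 2 * (1 - Real.cos (2 * Real.pi * x)) := by
    intro x
    rw [ex_eq, Complex.exp_mul_I, ← Complex.normSq_eq_norm_sq, Complex.normSq_apply]
    rw [← Complex.ofReal_cos, ← Complex.ofReal_sin]
    simp only [Complex.sub_re, Complex.one_re, Complex.add_re, Complex.ofReal_re, Complex.mul_re, Complex.I_re,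
      Complex.ofReal_im, Complex.I_im, Complex.sub_im, Complex.one_im, Complex.add_im, Complex.mul_im]
    have := Real.sin_sq_add_cos_sq (2 * Real.pi * x)
    ring_nf
    ring_nf at this
    linarith
  have h3 := congrArg (fun z => ‖z‖ ^ 2) h1
  simp only [norm_mul, mul_pow, h2] at h3
  linarith

lemma cos_reduce (y : ℝ) : Real.cos (2 * Real.pi * y) = Real.cos (2 * Real.pi * dist1 y) := by
  unfold dist1
  have h1 : 2 * Real.pi * |y - round y| = |2 * Real.pi * (y - round y)| := by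
    rw [abs_mul, abs_of_pos (by positivity : (0 : ℝ) < 2 * Real.pi)]
  rw [h1, Real.cos_abs]
  have h2 : 2 * Real.pi * (y - round y) = 2 * Real.pi * y - (round y : ℤ) * (2 * Real.pi) := by ring
  rw [h2, Real.cos_sub_int_mul_two_pi]

lemma one_sub_cos (x : ℝ) : 1 - Real.cos (2 * Real.pi * x) = 2 * Real.sin (Real.pi * x) ^ 2 := by
  have h := Real.cos_sq' (Real.pi * x)
  have h2 := Real.cos_two_mul (Real.pi * x)
  have h3 : 2 * Real.pi * x = 2 * (Real.pi * x) := by ring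
  rw [h3, h2, h]
  ring

lemma one_sub_cos_ge (δ : ℝ) (h0 : 0 ≤ δ) (h1 : δ ≤ 1 / 2) : 8 * δ ^ 2 ≤ 1 - Real.cos (2 * Real.pi * δ) := by
  rw [one_sub_cos]
  have hpi := Real.pi_pos
  have h := Real.mul_le_sin (x := Real.pi * δ) (by positivity) (by nlinarith)
  have e : 2 / Real.pi * (Real.pi * δ) = 2 * δ := by field_simp
  rw [e] at h
  nlinarith

lemma one_sub_cos_le (δ : ℝ) : 1 - Real.cos (2 * Real.pi * δ) ≤ 20 * δ ^ 2 := by
  have h := Real.one_sub_sq_div_two_le_cos (x := 2 * Real.pi * δ)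
  have hpi : Real.pi ^ 2 ≤ 10 := by
    have := Real.pi_lt_d2
    have := Real.pi_pos
    nlinarith
  have h2 : (2 * Real.pi * δ) ^ 2 / 2 = 2 * Real.pi ^ 2 * δ ^ 2 := by ring
  rw [h2] at h
  have : 0 ≤ δ ^ 2 := by positivity
  nlinarith

/-- the Dirichlet kernel is large near `0` -/
lemma dk_large (N : ℕ) (hN : 1 ≤ N) (y : ℝ) (hy : dist1 y ≤ 1 / (6 * N)) : (1 : ℝ) ≤ 4 / N ^ 2 * ‖dk N y‖ ^ 2 := by
  have hN0 : (0 : ℝ) < N := by exact_mod_cast hN
  have hred : dk N y = dk N (y - round y) := by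
    unfold dk
    refine sum_congr rfl fun j _ => ?_
    have : (j : ℝ) * y = j * (y - round y) + ((j * round y : ℤ) : ℝ) := by push_cast; ring
    rw [this, ex_add_int]
  have hre : (N : ℝ) / 2 ≤ (dk N (y - round y)).re := by
    unfold dk
    rw [Complex.re_sum]
    have h1 : ∀ j ∈ range N, (1 / 2 : ℝ) ≤ (ex ((j : ℝ) * (y - round y))).re := by
      intro j hj
      rw [mem_range] at hj
      rw [ex_re, ← Real.cos_pi_div_three, ← Real.cos_abs (2 * Real.pi * _)]
      have hpi := Real.pi_pos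
      have hjN : (j : ℝ) ≤ N := by exact_mod_cast hj.le
      refine Real.cos_le_cos_of_nonneg_of_le_pi (abs_nonneg _) (by linarith) ?_
      have habs : |2 * Real.pi * ((j : ℝ) * (y - round y))| = 2 * Real.pi * (j * |y - round y|) := by
        rw [abs_mul, abs_of_pos (by positivity : (0 : ℝ) < 2 * Real.pi), abs_mul, Nat.abs_cast]
      rw [habs]
      have h2 : |y - round y| ≤ 1 / (6 * N) := hy
      have h3 : (j : ℝ) * |y - round y| ≤ 1 / 6 := by
        calc (j : ℝ) * |y - round y| ≤ N * (1 / (6 * N)) :=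
              mul_le_mul hjN h2 (abs_nonneg _) hN0.le
          _ = 1 / 6 := by field_simp
      nlinarith
    calc (N : ℝ) / 2 = ∑ _j ∈ range N, (1 / 2 : ℝ) := by rw [sum_const, card_range, nsmul_eq_mul]; ring
      _ ≤ _ := sum_le_sum h1
  rw [hred]
  have h1 : (N : ℝ) / 2 ≤ ‖dk N (y - round y)‖ := hre.trans (Complex.re_le_norm _)
  have h2 : (N : ℝ) ^ 2 / 4 ≤ ‖dk N (y - round y)‖ ^ 2 := by nlinarith
  rw [div_mul_eq_mul_div, le_div_iff₀ (by positivity)]
  linarith

/-- the sums over one residue of the frequencies -/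
lemma sum_freq (Z : ℤ → ℝ) (hZ : ∀ k, 0 ≤ Z k) (hsym : ∀ k, Z (-k) = Z k) (K : ℕ) (B : ℝ)
    (hB : ∑ k ∈ Icc 1 K, Z (k : ℕ) ≤ B) (F : Finset ℕ) (c : ℤ) (hF : ∀ s ∈ F, |c - s| ≤ K) :
    ∑ s ∈ F.filter (fun s : ℕ => c - s ≠ 0), Z (c - s) ≤ 2 * B := by
  classical
  rw [← sum_filter_add_sum_filter_not (F.filter (fun s : ℕ => c - s ≠ 0)) (fun s : ℕ => 0 < c - s)]
  have h1 : ∑ s ∈ (F.filter (fun s : ℕ => c - s ≠ 0)).filter (fun s : ℕ => 0 < c - s), Z (c - s) ≤ B := by
    refine le_trans ?_ hB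
    have e : ∑ s ∈ (F.filter (fun s : ℕ => c - s ≠ 0)).filter (fun s : ℕ => 0 < c - s), Z (c - s) =
        ∑ k ∈ ((F.filter (fun s : ℕ => c - s ≠ 0)).filter (fun s : ℕ => 0 < c - s)).image
          (fun s : ℕ => (c - s).toNat), Z (k : ℕ) := by
      rw [sum_image]
      · refine sum_congr rfl fun s hs => ?_
        rw [mem_filter] at hs
        congr 1
        omega
      · intro s hs s' hs' h
        have h1 := mem_coe.1 hs
        have h2 := mem_coe.1 hs'
        rw [mem_filter] at h1 h2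
        simp only at h
        omega
    rw [e]
    refine sum_le_sum_of_subset_of_nonneg ?_ (fun k _ _ => hZ _)
    intro k hk
    rw [mem_image] at hk
    obtain ⟨s, hs, rfl⟩ := hk
    rw [mem_filter, mem_filter] at hs
    have := hF s hs.1.1
    rw [abs_le] at this
    rw [mem_Icc]
    omega
  have h2 : ∑ s ∈ (F.filter (fun s : ℕ => c - s ≠ 0)).filter (fun s : ℕ => ¬ 0 < c - s), Z (c - s) ≤ B := by
    refine le_trans ?_ hB
    have e : ∑ s ∈ (F.filter (fun s : ℕ => c - s ≠ 0)).filter (fun s : ℕ => ¬ 0 < c - s), Z (c - s) =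
        ∑ k ∈ ((F.filter (fun s : ℕ => c - s ≠ 0)).filter (fun s : ℕ => ¬ 0 < c - s)).image
          (fun s : ℕ => (s - c).toNat), Z (k : ℕ) := by
      rw [sum_image]
      · refine sum_congr rfl fun s hs => ?_
        rw [mem_filter, mem_filter] at hs
        rw [← hsym]
        congr 1
        omega
      · intro s hs s' hs' h
        have h1 := mem_coe.1 hs
        have h2 := mem_coe.1 hs'
        rw [mem_filter, mem_filter] at h1 h2
        simp only at h
        omega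
    rw [e]
    refine sum_le_sum_of_subset_of_nonneg ?_ (fun k _ _ => hZ _)
    intro k hk
    rw [mem_image] at hk
    obtain ⟨s, hs, rfl⟩ := hk
    rw [mem_filter, mem_filter] at hs
    have := hF s hs.1.1
    rw [abs_le] at this
    rw [mem_Icc]
    omega
  linarith

/-- many members in a short arc -/
theorem arc_lower (E : Finset ℕ) (y : ℕ → ℝ) (K : ℕ) (B δ : ℝ) (hδ : 0 < δ) (hδ1 : δ ≤ 1 / 6) (hK : 4 / δ ≤ K)
    (hB : ∑ k ∈ Icc 1 K, ‖∑ n ∈ E, ex ((k : ℝ) * y n)‖ ≤ B) (hB2 : 20 * B ≤ E.card) :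
    δ * E.card ≤ 17 * ((E.filter (fun n => dist1 (y n) ≤ δ)).card : ℝ) := by
  classical
  obtain ⟨Z, hZd⟩ : ∃ Z : ℤ → ℂ, Z = fun k : ℤ => ∑ n ∈ E, ex ((k : ℝ) * y n) := ⟨_, rfl⟩
  have hZ0 : Z 0 = E.card := by rw [hZd]; simp [ex_zero]
  have hZn : ∀ k, ‖Z (-k)‖ = ‖Z k‖ := by
    intro k
    rw [hZd]
    have : ∑ n ∈ E, ex (((-k : ℤ) : ℝ) * y n) = (starRingEnd ℂ) (∑ n ∈ E, ex ((k : ℝ) * y n)) := by
      rw [map_sum]
      refine sum_congr rfl fun n _ => ?_
      rw [← ex_neg]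
      congr 1
      push_cast
      ring
    simp only
    rw [this, Complex.norm_conj]
  have hBZ : ∑ k ∈ Icc 1 K, ‖Z ((k : ℕ) : ℤ)‖ ≤ B := by
    rw [hZd]
    simpa using hB
  have hB0 : 0 ≤ B := le_trans (sum_nonneg fun _ _ => norm_nonneg _) hBZ
  obtain ⟨N, hNd⟩ : ∃ N : ℕ, N = ⌈1 / δ⌉₊ := ⟨_, rfl⟩
  have hN1 : 1 / δ ≤ N := by rw [hNd]; exact Nat.le_ceil _
  have hN2 : (N : ℝ) < 1 / δ + 1 := by rw [hNd]; exact Nat.ceil_lt_add_one (by positivity)
  have hN0 : (0 : ℝ) < N := lt_of_lt_of_le (by positivity) hN1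
  have hNK : 2 * (N : ℝ) ≤ K := by
    have h6 : 6 ≤ 1 / δ := by rw [le_div_iff₀ hδ]; linarith
    have : 4 / δ = 4 * (1 / δ) := by ring
    rw [this] at hK
    linarith
  have hNK' : 2 * N ≤ K := by exact_mod_cast hNK
  have hN1' : 1 ≤ N := by exact_mod_cast (by linarith [hN0] : (0 : ℝ) < N)
  obtain ⟨P, hP⟩ : ∃ P : ℝ, P = E.card := ⟨_, rfl⟩
  -- (i)
  have hi : ∑ n ∈ E, ‖dk N (y n)‖ ^ 2 ≤ N * P + 2 * N * B := by
    have h1 : ((∑ n ∈ E, ‖dk N (y n)‖ ^ 2 : ℝ) : ℂ) = ∑ p ∈ range N, ∑ q ∈ range N, Z ((p : ℤ) - q) := by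
      rw [Complex.ofReal_sum, sum_congr rfl (fun n _ => dk_sq N (y n)), sum_comm]
      refine sum_congr rfl fun p _ => ?_
      rw [sum_comm]
      refine sum_congr rfl fun q _ => ?_
      rw [hZd]
    have h2 : (∑ n ∈ E, ‖dk N (y n)‖ ^ 2 : ℝ) ≤ ∑ p ∈ range N, ∑ q ∈ range N, ‖Z ((p : ℤ) - q)‖ := by
      have h3 : (∑ n ∈ E, ‖dk N (y n)‖ ^ 2 : ℝ) = ‖((∑ n ∈ E, ‖dk N (y n)‖ ^ 2 : ℝ) : ℂ)‖ := by
        rw [Complex.norm_real, Real.norm_of_nonneg (by positivity)]
      rw [h3, h1]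
      exact (norm_sum_le _ _).trans (sum_le_sum fun p _ => norm_sum_le _ _)
    refine h2.trans ?_
    have h4 : ∀ p ∈ range N, ∑ q ∈ range N, ‖Z ((p : ℤ) - q)‖ ≤ P + 2 * B := by
      intro p hp
      rw [mem_range] at hp
      rw [← sum_filter_add_sum_filter_not (range N) (fun q : ℕ => (p : ℤ) - q ≠ 0)]
      have h5 := sum_freq (fun k => ‖Z k‖) (fun _ => norm_nonneg _) hZn K B hBZ (range N) (p : ℤ) (by
        intro s hs
        rw [mem_range] at hs
        rw [abs_le]; constructor <;> omega)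
      have h6 : ∑ q ∈ (range N).filter (fun q : ℕ => ¬ (p : ℤ) - q ≠ 0), ‖Z ((p : ℤ) - q)‖ ≤ P := by
        have h7 : (range N).filter (fun q : ℕ => ¬ (p : ℤ) - q ≠ 0) = {p} := by
          ext q
          rw [mem_filter, mem_range, mem_singleton]
          constructor
          · rintro ⟨-, h⟩; omega
          · rintro rfl; exact ⟨hp, by simp⟩
        rw [h7, sum_singleton, sub_self, hZ0, hP]
        simp
      linarith
    calc ∑ p ∈ range N, ∑ q ∈ range N, ‖Z ((p : ℤ) - q)‖ ≤ ∑ _p ∈ range N, (P + 2 * B) := sum_le_sum h4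
      _ = N * P + 2 * N * B := by rw [sum_const, card_range, nsmul_eq_mul]; ring
  -- (ii)
  have hii : |∑ n ∈ E, ‖dk N (y n)‖ ^ 2 * Real.cos (2 * Real.pi * (N * y n))| ≤ 2 * N * B := by
    have h1 : ∑ n ∈ E, ‖dk N (y n)‖ ^ 2 * Real.cos (2 * Real.pi * (N * y n)) =
        (∑ p ∈ range N, ∑ q ∈ range N, Z ((p : ℤ) + N - q)).re := by
      have h2 : ∀ n ∈ E, ‖dk N (y n)‖ ^ 2 * Real.cos (2 * Real.pi * (N * y n)) =
          (∑ p ∈ range N, ∑ q ∈ range N, ex ((((p : ℤ) + N - (q : ℤ) : ℤ) : ℝ) * y n)).re := by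
        intro n _
        have h3 : ∑ p ∈ range N, ∑ q ∈ range N, ex ((((p : ℤ) + N - (q : ℤ) : ℤ) : ℝ) * y n) =
            ((‖dk N (y n)‖ ^ 2 : ℝ) : ℂ) * ex (N * y n) := by
          rw [dk_sq, sum_mul]
          refine sum_congr rfl fun p _ => ?_
          rw [sum_mul]
          refine sum_congr rfl fun q _ => ?_
          rw [← ex_add]
          congr 1
          push_cast
          ring
        rw [h3, Complex.re_ofReal_mul, ex_re]
      rw [sum_congr rfl h2, ← Complex.re_sum]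
      congr 1
      rw [sum_comm]
      refine sum_congr rfl fun p _ => ?_
      rw [sum_comm]
      refine sum_congr rfl fun q _ => ?_
      rw [hZd]
    rw [h1]
    refine (Complex.abs_re_le_norm _).trans ((norm_sum_le _ _).trans ?_)
    have h4 : ∀ p ∈ range N, ‖∑ q ∈ range N, Z ((p : ℤ) + N - q)‖ ≤ 2 * B := by
      intro p hp
      rw [mem_range] at hp
      refine (norm_sum_le _ _).trans ?_
      have h5 := sum_freq (fun k => ‖Z k‖) (fun _ => norm_nonneg _) hZn K B hBZ (range N) ((p : ℤ) + N) (by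
        intro s hs
        rw [mem_range] at hs
        rw [abs_le]; constructor <;> omega)
      have h6 : (range N).filter (fun q : ℕ => (p : ℤ) + N - q ≠ 0) = range N := by
        ext q
        rw [mem_filter, mem_range]
        constructor
        · intro h; exact h.1
        · intro h; exact ⟨h, by omega⟩
      rw [h6] at h5
      exact h5
    calc ∑ p ∈ range N, ‖∑ q ∈ range N, Z ((p : ℤ) + N - q)‖ ≤ ∑ _p ∈ range N, (2 * B) := sum_le_sum h4
      _ = 2 * N * B := by rw [sum_const, card_range, nsmul_eq_mul]; ring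
  -- (iii)
  have hcount : (N : ℝ) ^ 3 / 2 ≤ ∑ p ∈ range N, ∑ q ∈ range N,
      (((range N).filter (fun r : ℕ => 0 ≤ (p : ℤ) - q + r ∧ (p : ℤ) - q + r < N)).card : ℝ) := by
    have h1 : ∀ p ∈ range N, ∀ q ∈ range N, (N : ℝ) - |(p : ℝ) - q| ≤
        (((range N).filter (fun r : ℕ => 0 ≤ (p : ℤ) - q + r ∧ (p : ℤ) - q + r < N)).card : ℝ) := by
      intro p hp q hq
      rw [mem_range] at hp hq
      have h2 : Ico (q - p) (N - (p - q)) ⊆
          (range N).filter (fun r : ℕ => 0 ≤ (p : ℤ) - q + r ∧ (p : ℤ) - q + r < N) := by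
        intro r hr
        rw [mem_Ico] at hr
        rw [mem_filter, mem_range]
        omega
      have h3 := card_le_card h2
      rw [Nat.card_Ico] at h3
      have h4 : (N : ℤ) - |(p : ℤ) - q| ≤ ((N - (p - q) - (q - p) : ℕ) : ℤ) := by
        rcases le_total p q with h | h
        · rw [abs_of_nonpos (by omega)]; omega
        · rw [abs_of_nonneg (by omega)]; omega
      have h5 : (N : ℤ) - |(p : ℤ) - q| ≤
          (((range N).filter (fun r : ℕ => 0 ≤ (p : ℤ) - q + r ∧ (p : ℤ) - q + r < N)).card : ℤ) := by omega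
      exact_mod_cast h5
    have h2 : ∀ p ∈ range N, ∑ q ∈ range N, |(p : ℝ) - q| ≤ N * N / 2 := by
      intro p hp
      rw [mem_range] at hp
      have h3 : ∑ q ∈ range N, |(p : ℝ) - q| = ∑ q ∈ range N, |(p : ℝ) - ((N - 1 - q : ℕ) : ℝ)| :=
        (sum_range_reflect (fun q : ℕ => |(p : ℝ) - q|) N).symm
      have h4 : ∑ q ∈ range N, (|(p : ℝ) - q| + |(p : ℝ) - ((N - 1 - q : ℕ) : ℝ)|) ≤ ∑ _q ∈ range N, (N : ℝ) := by
        refine sum_le_sum fun q hq => ?_
        rw [mem_range] at hq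
        have h5 : |(p : ℤ) - q| + |(p : ℤ) - ((N - 1 - q : ℕ) : ℤ)| ≤ N := by
          rcases le_total (p : ℤ) q with h | h <;> rcases le_total (p : ℤ) ((N - 1 - q : ℕ) : ℤ) with h' | h'
          · rw [abs_of_nonpos (by omega), abs_of_nonpos (by omega)]; omega
          · rw [abs_of_nonpos (by omega), abs_of_nonneg (by omega)]; omega
          · rw [abs_of_nonneg (by omega), abs_of_nonpos (by omega)]; omega
          · rw [abs_of_nonneg (by omega), abs_of_nonneg (by omega)]; omega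
        exact_mod_cast h5
      rw [sum_add_distrib, ← h3, sum_const, card_range, nsmul_eq_mul] at h4
      linarith
    calc (N : ℝ) ^ 3 / 2 = ∑ p ∈ range N, ((N : ℝ) * N - N * N / 2) := by
          rw [sum_const, card_range, nsmul_eq_mul]; ring
      _ ≤ ∑ p ∈ range N, ∑ q ∈ range N, ((N : ℝ) - |(p : ℝ) - q|) := by
          refine sum_le_sum fun p hp => ?_
          rw [sum_sub_distrib, sum_const, card_range, nsmul_eq_mul]
          linarith [h2 p hp]
      _ ≤ _ := sum_le_sum fun p hp => sum_le_sum fun q hq => h1 p hp q hq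
  have hiii : (N : ℝ) ^ 3 * P / 2 - 2 * N ^ 3 * B ≤ ∑ n ∈ E, ‖dk N (y n)‖ ^ 4 := by
    have h1 : ((∑ n ∈ E, ‖dk N (y n)‖ ^ 4 : ℝ) : ℂ) = ∑ p ∈ range N, ∑ q ∈ range N, ∑ r ∈ range N,
        ∑ s ∈ range N, Z ((p : ℤ) - q + r - s) := by
      have h2 : ∀ n ∈ E, ((‖dk N (y n)‖ ^ 4 : ℝ) : ℂ) = ∑ p ∈ range N, ∑ q ∈ range N, ∑ r ∈ range N,
          ∑ s ∈ range N, ex ((((p : ℤ) - q + r - s : ℤ) : ℝ) * y n) := by
        intro n _
        have h3 : ((‖dk N (y n)‖ ^ 4 : ℝ) : ℂ) = ((‖dk N (y n)‖ ^ 2 : ℝ) : ℂ) * ((‖dk N (y n)‖ ^ 2 : ℝ) : ℂ) := by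
          push_cast; ring
        rw [h3, dk_sq, sum_mul]
        refine sum_congr rfl fun p _ => ?_
        rw [sum_mul]
        refine sum_congr rfl fun q _ => ?_
        rw [mul_sum]
        refine sum_congr rfl fun r _ => ?_
        rw [mul_sum]
        refine sum_congr rfl fun s _ => ?_
        rw [← ex_add]
        congr 1
        push_cast
        ring
      rw [Complex.ofReal_sum, sum_congr rfl h2, sum_comm]
      refine sum_congr rfl fun p _ => ?_
      rw [sum_comm]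
      refine sum_congr rfl fun q _ => ?_
      rw [sum_comm]
      refine sum_congr rfl fun r _ => ?_
      rw [sum_comm]
      refine sum_congr rfl fun s _ => ?_
      rw [hZd]
    have h2 : (∑ n ∈ E, ‖dk N (y n)‖ ^ 4 : ℝ) = ∑ p ∈ range N, ∑ q ∈ range N, ∑ r ∈ range N,
        (∑ s ∈ range N, Z ((p : ℤ) - q + r - s)).re := by
      have h3 := congrArg Complex.re h1
      rw [Complex.ofReal_re] at h3
      rw [h3]
      simp only [Complex.re_sum]
    rw [h2]
    have h3 : ∀ p ∈ range N, ∀ q ∈ range N, ∀ r ∈ range N,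
        (if 0 ≤ (p : ℤ) - q + r ∧ (p : ℤ) - q + r < N then P else 0) - 2 * B ≤
          (∑ s ∈ range N, Z ((p : ℤ) - q + r - s)).re := by
      intro p hp q hq r hr
      rw [mem_range] at hp hq hr
      rw [← sum_filter_add_sum_filter_not (range N) (fun s : ℕ => (p : ℤ) - q + r - s ≠ 0), Complex.add_re]
      have h5 := sum_freq (fun k => ‖Z k‖) (fun _ => norm_nonneg _) hZn K B hBZ (range N) ((p : ℤ) - q + r) (by
        intro s hs
        rw [mem_range] at hs
        rw [abs_le]; constructor <;> omega)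
      have h6 : -(2 * B) ≤ (∑ s ∈ (range N).filter (fun s : ℕ => (p : ℤ) - q + r - s ≠ 0),
          Z ((p : ℤ) - q + r - s)).re := by
        have h7 := (Complex.abs_re_le_norm (∑ s ∈ (range N).filter (fun s : ℕ => (p : ℤ) - q + r - s ≠ 0),
          Z ((p : ℤ) - q + r - s))).trans ((norm_sum_le _ _).trans h5)
        exact (abs_le.1 h7).1
      have h8 : (∑ s ∈ (range N).filter (fun s : ℕ => ¬ (p : ℤ) - q + r - s ≠ 0),
          Z ((p : ℤ) - q + r - s)).re = if 0 ≤ (p : ℤ) - q + r ∧ (p : ℤ) - q + r < N then P else 0 := by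
        have h9 : ∀ s ∈ (range N).filter (fun s : ℕ => ¬ (p : ℤ) - q + r - s ≠ 0),
            Z ((p : ℤ) - q + r - s) = (P : ℂ) := by
          intro s hs
          rw [mem_filter] at hs
          have : (p : ℤ) - q + r - s = 0 := by
            have := hs.2
            push Not at this
            exact this
          rw [this, hZ0, hP]
          simp
        rw [sum_congr rfl h9, sum_const]
        split_ifs with hc
        · have h10 : (range N).filter (fun s : ℕ => ¬ (p : ℤ) - q + r - s ≠ 0) = {((p : ℤ) - q + r).toNat} := by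
            ext s
            rw [mem_filter, mem_range, mem_singleton]
            push Not
            omega
          rw [h10, card_singleton, one_smul, Complex.ofReal_re]
        · have h10 : (range N).filter (fun s : ℕ => ¬ (p : ℤ) - q + r - s ≠ 0) = ∅ := by
            ext s
            rw [mem_filter, mem_range]
            push Not
            simp only [Finset.notMem_empty, iff_false]
            omega
          rw [h10, card_empty, zero_smul, Complex.zero_re]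
      rw [h8]
      linarith
    have h4 : ∑ p ∈ range N, ∑ q ∈ range N, ∑ r ∈ range N,
        ((if 0 ≤ (p : ℤ) - q + r ∧ (p : ℤ) - q + r < N then P else 0) - 2 * B) ≤
        ∑ p ∈ range N, ∑ q ∈ range N, ∑ r ∈ range N, (∑ s ∈ range N, Z ((p : ℤ) - q + r - s)).re :=
      sum_le_sum fun p hp => sum_le_sum fun q hq => sum_le_sum fun r hr => h3 p hp q hq r hr
    refine le_trans ?_ h4
    have h5 : ∑ p ∈ range N, ∑ q ∈ range N, ∑ r ∈ range N,
        ((if 0 ≤ (p : ℤ) - q + r ∧ (p : ℤ) - q + r < N then P else 0) - 2 * B) =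
        P * (∑ p ∈ range N, ∑ q ∈ range N,
          (((range N).filter (fun r : ℕ => 0 ≤ (p : ℤ) - q + r ∧ (p : ℤ) - q + r < N)).card : ℝ)) -
        2 * N ^ 3 * B := by
      simp only [sum_sub_distrib, sum_const, card_range, nsmul_eq_mul]
      rw [mul_sum]
      congr 1
      · refine sum_congr rfl fun p _ => ?_
        rw [mul_sum]
        refine sum_congr rfl fun q _ => ?_
        rw [← sum_filter, sum_const, nsmul_eq_mul]
        ring
      · ring
    rw [h5]
    have hP0 : 0 ≤ P := by rw [hP]; exact Nat.cast_nonneg _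
    have h6 := mul_le_mul_of_nonneg_left hcount hP0
    linarith
  -- the minorant
  have hcosδ := one_sub_cos_ge δ hδ.le (by linarith)
  have hcosδ' := one_sub_cos_le δ
  obtain ⟨κ, hκ⟩ : ∃ κ, κ = 1 - Real.cos (2 * Real.pi * δ) := ⟨_, rfl⟩
  rw [← hκ] at hcosδ hcosδ'
  have hκ0 : 0 ≤ κ := le_trans (by positivity) hcosδ
  have hpt : ∀ n ∈ E, ‖dk N (y n)‖ ^ 4 * κ - ‖dk N (y n)‖ ^ 2 * (1 - Real.cos (2 * Real.pi * (N * y n))) ≤
      if dist1 (y n) ≤ δ then (N : ℝ) ^ 4 * κ else 0 := by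
    intro n _
    have h1 := dk_identity N (y n)
    have h2 : ‖dk N (y n)‖ ^ 4 * κ - ‖dk N (y n)‖ ^ 2 * (1 - Real.cos (2 * Real.pi * (N * y n))) =
        ‖dk N (y n)‖ ^ 4 * (κ - (1 - Real.cos (2 * Real.pi * y n))) := by
      rw [← h1]; ring
    rw [h2]
    have h3 : ‖dk N (y n)‖ ^ 4 ≤ (N : ℝ) ^ 4 := pow_le_pow_left₀ (norm_nonneg _) (dk_le N _) 4
    have h4 : 0 ≤ ‖dk N (y n)‖ ^ 4 := by positivity
    split_ifs with hd
    · have h5 : 0 ≤ 1 - Real.cos (2 * Real.pi * y n) := by linarith [Real.cos_le_one (2 * Real.pi * y n)]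
      calc ‖dk N (y n)‖ ^ 4 * (κ - (1 - Real.cos (2 * Real.pi * y n))) ≤ ‖dk N (y n)‖ ^ 4 * κ :=
            mul_le_mul_of_nonneg_left (by linarith) h4
        _ ≤ _ := mul_le_mul_of_nonneg_right h3 hκ0
    · push Not at hd
      have h5 : Real.cos (2 * Real.pi * y n) ≤ Real.cos (2 * Real.pi * δ) := by
        rw [cos_reduce]
        have hpi := Real.pi_pos
        refine Real.cos_le_cos_of_nonneg_of_le_pi (by positivity) ?_ ?_
        · have := dist1_le_half (y n)
          nlinarith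
        · nlinarith
      have h6 : κ - (1 - Real.cos (2 * Real.pi * y n)) ≤ 0 := by rw [hκ]; linarith
      exact mul_nonpos_of_nonneg_of_nonpos h4 h6
  have hsum := sum_le_sum hpt
  rw [← sum_filter, sum_const, nsmul_eq_mul, sum_sub_distrib, ← sum_mul] at hsum
  have hsplit : ∑ n ∈ E, ‖dk N (y n)‖ ^ 2 * (1 - Real.cos (2 * Real.pi * (N * y n))) =
      ∑ n ∈ E, ‖dk N (y n)‖ ^ 2 - ∑ n ∈ E, ‖dk N (y n)‖ ^ 2 * Real.cos (2 * Real.pi * (N * y n)) := by
    rw [← sum_sub_distrib]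
    exact sum_congr rfl fun n _ => by ring
  rw [hsplit] at hsum
  obtain ⟨S, hS⟩ : ∃ S : ℝ, S = ((E.filter (fun n => dist1 (y n) ≤ δ)).card : ℝ) := ⟨_, rfl⟩
  rw [← hS] at hsum ⊢
  rw [← hP] at hB2 ⊢
  have hS0 : 0 ≤ S := by rw [hS]; exact Nat.cast_nonneg _
  have hii' := (abs_le.1 hii).1
  -- collecting
  have hNδ : 1 ≤ N * δ := by rwa [div_le_iff₀ hδ] at hN1
  have hNδ2 : N * δ ≤ 7 / 6 := by
    have : (N : ℝ) * δ ≤ (1 / δ + 1) * δ := mul_le_mul_of_nonneg_right hN2.le hδ.le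
    have e : (1 / δ + 1) * δ = 1 + δ := by field_simp
    rw [e] at this
    linarith
  have hP0 : 0 ≤ P := by linarith
  have h1 : 8 * N * (P / 2 - 2 * B) ≤ κ * (N ^ 3 * P / 2 - 2 * N ^ 3 * B) := by
    have h2 : 8 * (N : ℝ) ≤ κ * N ^ 3 := by
      have h3 : 8 * δ ^ 2 * N ^ 3 ≤ κ * N ^ 3 := mul_le_mul_of_nonneg_right hcosδ (by positivity)
      have h4 : 8 * δ ^ 2 * (N : ℝ) ^ 3 = 8 * N * (N * δ) ^ 2 := by ring
      have h5 : 1 ≤ ((N : ℝ) * δ) ^ 2 := one_le_pow₀ hNδ
      rw [h4] at h3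
      nlinarith
    have h3 : 0 ≤ P / 2 - 2 * B := by linarith
    calc 8 * N * (P / 2 - 2 * B) ≤ κ * N ^ 3 * (P / 2 - 2 * B) := mul_le_mul_of_nonneg_right h2 h3
      _ = _ := by ring
  have h2 : κ * (N ^ 3 * P / 2 - 2 * N ^ 3 * B) ≤ (∑ n ∈ E, ‖dk N (y n)‖ ^ 4) * κ := by
    rw [mul_comm]
    exact mul_le_mul_of_nonneg_right hiii hκ0
  have h3 : 2 * N * P ≤ S * (N ^ 4 * κ) := by
    have h31 : N * (20 * B) ≤ N * P := mul_le_mul_of_nonneg_left hB2 hN0.le
    linarith
  have h4 : S * (N ^ 4 * κ) ≤ S * (N ^ 4 * (20 * δ ^ 2)) :=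
    mul_le_mul_of_nonneg_left (mul_le_mul_of_nonneg_left hcosδ' (by positivity)) hS0
  have h5 : S * ((N : ℝ) ^ 4 * (20 * δ ^ 2)) = 20 * (N * δ) ^ 2 * N * (N * S) := by ring
  have h6 : ((N : ℝ) * δ) ^ 2 ≤ 49 / 36 := by nlinarith
  have h7 : 2 * N * P ≤ 20 * (49 / 36) * N * (N * S) := by
    refine (h3.trans (h4.trans (le_of_eq h5))).trans ?_
    have h71 : 0 ≤ 20 * ((N : ℝ) * (N * S)) := by positivity
    have h72 := mul_le_mul_of_nonneg_right h6 h71
    linarith
  have h8 : P ≤ 245 / 18 * (N * S) := by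
    have h9 : (2 * N) * P ≤ (2 * N) * (245 / 18 * (N * S)) := by linarith
    exact le_of_mul_le_mul_left h9 (by positivity)
  have h9 : δ * P ≤ 245 / 18 * ((N * δ) * S) := by
    have := mul_le_mul_of_nonneg_left h8 hδ.le
    linarith
  have h10 : (N * δ) * S ≤ 7 / 6 * S := mul_le_mul_of_nonneg_right hNδ2 hS0
  linarith

end Pool.Agent.H566
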