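import Mathlib
import Pool.Agent.H566.NLArc

/-!
The additive energy of the set of the members of a sequence in a short arc.
-/

set_option autoImplicit false

namespace Pool.Agent.H566

open Finset

/-- the weighted exponential sum -/
lemma weighted_sum (X : ℕ) (y : ℕ → ℝ) (K N : ℕ) (B : ℝ) (hN : 1 ≤ N) (hNK : N ≤ K)
    (hB : ∀ t : ℝ, ∑ k ∈ Icc 1 K, ‖∑ n ∈ Icc 1 X, ex ((k : ℝ) * y n + t * n)‖ ≤ B) (t : ℝ) :
    ‖∑ n ∈ Icc 1 X, ((4 / (N : ℝ) ^ 2 * ‖dk N (y n)‖ ^ 2 : ℝ) : ℂ) * ex (t * n)‖ ≤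
      4 / N * (‖∑ n ∈ Icc 1 X, ex (t * n)‖ + 4 * B) := by
  classical
  have hN0 : (0 : ℝ) < N := by exact_mod_cast hN
  obtain ⟨Z, hZd⟩ : ∃ Z : ℝ → ℤ → ℂ, Z = fun (t : ℝ) (k : ℤ) => ∑ n ∈ Icc 1 X, ex ((k : ℝ) * y n + t * n) := ⟨_, rfl⟩
  have hZn : ∀ t k, ‖Z t (-k)‖ = ‖Z (-t) k‖ := by
    intro t k
    rw [hZd]
    have : ∑ n ∈ Icc 1 X, ex (((-k : ℤ) : ℝ) * y n + t * n) =
        (starRingEnd ℂ) (∑ n ∈ Icc 1 X, ex ((k : ℝ) * y n + -t * n)) := by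
      rw [map_sum]
      refine sum_congr rfl fun n _ => ?_
      rw [← ex_neg]
      congr 1
      push_cast
      ring
    simp only
    rw [this, Complex.norm_conj]
  have hBZ : ∀ t : ℝ, ∑ k ∈ Icc 1 K, ‖Z t ((k : ℕ) : ℤ)‖ ≤ B := by
    intro t
    rw [hZd]
    simpa using hB t
  have h1 : ∑ n ∈ Icc 1 X, ((4 / (N : ℝ) ^ 2 * ‖dk N (y n)‖ ^ 2 : ℝ) : ℂ) * ex (t * n) =
      ((4 / (N : ℝ) ^ 2 : ℝ) : ℂ) * ∑ p ∈ range N, ∑ q ∈ range N, Z t ((p : ℤ) - q) := by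
    have h2 : ∀ n ∈ Icc 1 X, ((4 / (N : ℝ) ^ 2 * ‖dk N (y n)‖ ^ 2 : ℝ) : ℂ) * ex (t * n) =
        ((4 / (N : ℝ) ^ 2 : ℝ) : ℂ) * ∑ p ∈ range N, ∑ q ∈ range N,
          ex ((((p : ℤ) - (q : ℤ) : ℤ) : ℝ) * y n + t * n) := by
      intro n _
      rw [Complex.ofReal_mul, dk_sq, mul_assoc, sum_mul]
      congr 1
      refine sum_congr rfl fun p _ => ?_
      rw [sum_mul]
      refine sum_congr rfl fun q _ => ?_
      rw [← ex_add]
    rw [sum_congr rfl h2, ← mul_sum, sum_comm]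
    congr 1
    refine sum_congr rfl fun p _ => ?_
    rw [sum_comm]
    refine sum_congr rfl fun q _ => ?_
    rw [hZd]
  rw [h1, norm_mul, Complex.norm_real, Real.norm_of_nonneg (by positivity)]
  have h3 : ∀ p ∈ range N, ‖∑ q ∈ range N, Z t ((p : ℤ) - q)‖ ≤ ‖∑ n ∈ Icc 1 X, ex (t * n)‖ + 4 * B := by
    intro p hp
    rw [mem_range] at hp
    refine (norm_sum_le _ _).trans ?_
    rw [← sum_filter_add_sum_filter_not (range N) (fun q : ℕ => (p : ℤ) - q ≠ 0)]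
    have h5 := sum_freq (fun k => ‖Z t k‖ + ‖Z (-t) k‖) (fun _ => by positivity) (fun k => by
      simp only [hZn, neg_neg]
      ring) K (2 * B) (by
      rw [sum_add_distrib]
      have := hBZ t
      have := hBZ (-t)
      linarith) (range N) (p : ℤ) (by
      intro s hs
      rw [mem_range] at hs
      rw [abs_le]; constructor <;> omega)
    have h6 : ∑ q ∈ (range N).filter (fun q : ℕ => (p : ℤ) - q ≠ 0), ‖Z t ((p : ℤ) - q)‖ ≤
        ∑ q ∈ (range N).filter (fun q : ℕ => (p : ℤ) - q ≠ 0), (‖Z t ((p : ℤ) - q)‖ + ‖Z (-t) ((p : ℤ) - q)‖) :=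
      sum_le_sum fun q _ => by linarith [norm_nonneg (Z (-t) ((p : ℤ) - q))]
    have h7 : ∑ q ∈ (range N).filter (fun q : ℕ => ¬ (p : ℤ) - q ≠ 0), ‖Z t ((p : ℤ) - q)‖ =
        ‖∑ n ∈ Icc 1 X, ex (t * n)‖ := by
      have h8 : (range N).filter (fun q : ℕ => ¬ (p : ℤ) - q ≠ 0) = {p} := by
        ext q
        rw [mem_filter, mem_range, mem_singleton]
        constructor
        · rintro ⟨-, h⟩; omega
        · rintro rfl; exact ⟨hp, by simp⟩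
      rw [h8, sum_singleton, sub_self, hZd]
      simp
    rw [h7]
    linarith
  have h4 : ‖∑ p ∈ range N, ∑ q ∈ range N, Z t ((p : ℤ) - q)‖ ≤
      N * (‖∑ n ∈ Icc 1 X, ex (t * n)‖ + 4 * B) := by
    refine (norm_sum_le _ _).trans ?_
    calc ∑ p ∈ range N, ‖∑ q ∈ range N, Z t ((p : ℤ) - q)‖ ≤
        ∑ _p ∈ range N, (‖∑ n ∈ Icc 1 X, ex (t * n)‖ + 4 * B) := sum_le_sum h3
      _ = _ := by rw [sum_const, card_range, nsmul_eq_mul]
  calc 4 / (N : ℝ) ^ 2 * ‖∑ p ∈ range N, ∑ q ∈ range N, Z t ((p : ℤ) - q)‖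
      ≤ 4 / (N : ℝ) ^ 2 * (N * (‖∑ n ∈ Icc 1 X, ex (t * n)‖ + 4 * B)) :=
        mul_le_mul_of_nonneg_left h4 (by positivity)
    _ = _ := by field_simp

/-- the additive energy of a set of natural numbers -/
def enSet (h : ℕ) (S : Finset ℕ) : ℕ :=
  (((Fintype.piFinset fun _ : Fin h => S) ×ˢ (Fintype.piFinset fun _ : Fin h => S)).filter
    (fun q => ∑ i, q.1 i = ∑ i, q.2 i)).card

/-- the energy of the members in a short arc -/
theorem arc_energy (X : ℕ) (y : ℕ → ℝ) (K N : ℕ) (B : ℝ) (hN : 1 ≤ N) (hNK : N ≤ K)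
    (hB : ∀ t : ℝ, ∑ k ∈ Icc 1 K, ‖∑ n ∈ Icc 1 X, ex ((k : ℝ) * y n + t * n)‖ ≤ B) (h : ℕ) (hh : 1 ≤ h)
    (S : Finset ℕ) (hS : S ⊆ Icc 1 X) (hSy : ∀ n ∈ S, dist1 (y n) ≤ 1 / (6 * N)) :
    (enSet h S : ℝ) ≤ (4 / N : ℝ) ^ (2 * h) * 2 ^ (2 * h - 1) * ((X : ℝ) ^ (2 * h - 1) + (4 * B) ^ (2 * h)) := by
  classical
  have hN0 : (0 : ℝ) < N := by exact_mod_cast hN
  have hB0 : 0 ≤ B := le_trans (sum_nonneg fun _ _ => norm_nonneg _) (hB 0)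
  obtain ⟨w, hw⟩ : ∃ w : ℕ → ℝ, w = fun n => 4 / (N : ℝ) ^ 2 * ‖dk N (y n)‖ ^ 2 := ⟨_, rfl⟩
  have hw0 : ∀ n, 0 ≤ w n := fun n => by rw [hw]; positivity
  have hw1 : ∀ n ∈ S, 1 ≤ w n := fun n hn => by rw [hw]; exact dk_large N hN (y n) (hSy n hn)
  obtain ⟨M, hM⟩ : ∃ M : ℕ, M = h * X + 1 := ⟨_, rfl⟩
  have hM0 : (0 : ℝ) < M := by rw [hM]; positivity
  have hW := weighted_energy X h w M (by omega)
  have hT := weighted_energy X h (fun _ => 1) M (by omega)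
  -- the energy is at most the weighted count
  have h1 : (enSet h S : ℝ) ≤ ∑ q ∈ ((Fintype.piFinset fun _ : Fin h => Icc 1 X) ×ˢ
      (Fintype.piFinset fun _ : Fin h => Icc 1 X)).filter
        (fun q => ∑ i, q.1 i = ∑ i, q.2 i), (∏ i, w (q.1 i)) * ∏ i, w (q.2 i) := by
    unfold enSet
    rw [card_eq_sum_ones, Nat.cast_sum]
    have hsub : ((Fintype.piFinset fun _ : Fin h => S) ×ˢ (Fintype.piFinset fun _ : Fin h => S)).filter
        (fun q => ∑ i, q.1 i = ∑ i, q.2 i) ⊆ ((Fintype.piFinset fun _ : Fin h => Icc 1 X) ×ˢ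
      (Fintype.piFinset fun _ : Fin h => Icc 1 X)).filter (fun q => ∑ i, q.1 i = ∑ i, q.2 i) := by
      refine filter_subset_filter _ (product_subset_product ?_ ?_) <;>
      exact Fintype.piFinset_subset _ _ fun _ => hS
    refine le_trans ?_ (sum_le_sum_of_subset_of_nonneg hsub fun q _ _ =>
      mul_nonneg (prod_nonneg fun i _ => hw0 _) (prod_nonneg fun i _ => hw0 _))
    refine sum_le_sum fun q hq => ?_
    rw [mem_filter, mem_product, Fintype.mem_piFinset, Fintype.mem_piFinset] at hq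
    have e1 : 1 ≤ ∏ i, w (q.1 i) := by
      have := prod_le_prod (s := univ) (f := fun _ : Fin h => (1 : ℝ)) (g := fun i => w (q.1 i))
        (fun _ _ => zero_le_one) (fun i _ => hw1 _ (hq.1.1 i))
      simpa using this
    have e2 : 1 ≤ ∏ i, w (q.2 i) := by
      have := prod_le_prod (s := univ) (f := fun _ : Fin h => (1 : ℝ)) (g := fun i => w (q.2 i))
        (fun _ _ => zero_le_one) (fun i _ => hw1 _ (hq.1.2 i))
      simpa using this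
    push_cast
    nlinarith
  -- the unweighted count
  have h2 : ∑ j ∈ range M, ‖∑ n ∈ Icc 1 X, ex ((j : ℝ) / M * n)‖ ^ (2 * h) ≤ M * (X : ℝ) ^ (2 * h - 1) := by
    have e1 : ∑ j ∈ range M, ‖∑ n ∈ Icc 1 X, ex ((j : ℝ) / M * n)‖ ^ (2 * h) =
        ∑ j ∈ range M, ‖∑ n ∈ Icc 1 X, (((fun _ => 1 : ℕ → ℝ) n : ℝ) : ℂ) * ex ((j : ℝ) * n / M)‖ ^ (2 * h) := by
      refine sum_congr rfl fun j _ => ?_
      congr 2
      refine sum_congr rfl fun n _ => ?_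
      simp only [Complex.ofReal_one, one_mul]
      congr 1
      ring
    rw [e1, hT]
    refine mul_le_mul_of_nonneg_left ?_ hM0.le
    simp only [prod_const_one, mul_one, sum_const, nsmul_eq_mul]
    exact_mod_cast energy_trivial X h hh
  -- the weighted sums
  have h3 : ∀ j ∈ range M, ‖∑ n ∈ Icc 1 X, (w n : ℂ) * ex ((j : ℝ) * n / M)‖ ^ (2 * h) ≤
      (4 / N : ℝ) ^ (2 * h) * (2 ^ (2 * h - 1) *
        (‖∑ n ∈ Icc 1 X, ex ((j : ℝ) / M * n)‖ ^ (2 * h) + (4 * B) ^ (2 * h))) := by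
    intro j _
    have e1 := weighted_sum X y K N B hN hNK hB ((j : ℝ) / M)
    have e2 : ∑ n ∈ Icc 1 X, (w n : ℂ) * ex ((j : ℝ) * n / M) =
        ∑ n ∈ Icc 1 X, ((4 / (N : ℝ) ^ 2 * ‖dk N (y n)‖ ^ 2 : ℝ) : ℂ) * ex ((j : ℝ) / M * n) := by
      refine sum_congr rfl fun n _ => ?_
      rw [hw]
      congr 2
      ring
    rw [e2]
    calc _ ≤ (4 / N * (‖∑ n ∈ Icc 1 X, ex ((j : ℝ) / M * n)‖ + 4 * B)) ^ (2 * h) :=
          pow_le_pow_left₀ (norm_nonneg _) e1 _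
      _ = (4 / N : ℝ) ^ (2 * h) * (‖∑ n ∈ Icc 1 X, ex ((j : ℝ) / M * n)‖ + 4 * B) ^ (2 * h) := by
          rw [mul_pow]
      _ ≤ _ := mul_le_mul_of_nonneg_left (add_pow_le (norm_nonneg _) (by positivity) _) (by positivity)
  have h4 := sum_le_sum h3
  rw [hW, ← mul_sum, ← mul_sum, sum_add_distrib, sum_const, card_range, nsmul_eq_mul] at h4
  have h5 : (M : ℝ) * (enSet h S : ℝ) ≤ M * ((4 / N : ℝ) ^ (2 * h) * 2 ^ (2 * h - 1) *
      ((X : ℝ) ^ (2 * h - 1) + (4 * B) ^ (2 * h))) := by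
    refine (mul_le_mul_of_nonneg_left h1 hM0.le).trans (h4.trans ?_)
    have h6 : 0 ≤ (4 / N : ℝ) ^ (2 * h) * 2 ^ (2 * h - 1) := by positivity
    have h7 := mul_le_mul_of_nonneg_left h2 h6
    calc (4 / N : ℝ) ^ (2 * h) * (2 ^ (2 * h - 1) * (∑ j ∈ range M, ‖∑ n ∈ Icc 1 X, ex ((j : ℝ) / M * n)‖ ^ (2 * h) +
          M * (4 * B) ^ (2 * h)))
        = (4 / N : ℝ) ^ (2 * h) * 2 ^ (2 * h - 1) *
          (∑ j ∈ range M, ‖∑ n ∈ Icc 1 X, ex ((j : ℝ) / M * n)‖ ^ (2 * h)) +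
          (4 / N : ℝ) ^ (2 * h) * 2 ^ (2 * h - 1) * (M * (4 * B) ^ (2 * h)) := by ring
      _ ≤ (4 / N : ℝ) ^ (2 * h) * 2 ^ (2 * h - 1) * (M * (X : ℝ) ^ (2 * h - 1)) +
          (4 / N : ℝ) ^ (2 * h) * 2 ^ (2 * h - 1) * (M * (4 * B) ^ (2 * h)) := by linarith
      _ = _ := by ring
  exact le_of_mul_le_mul_left h5 hM0

end Pool.Agent.H566
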