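import Pool.Graph.R_seed8.TH935.GF
import Pool.Agent.H566.NLEnergy
import Pool.Agent.H566.LogPow

/-!
Goldbach representations of the even integers `n ≤ X` for which `φ n` is in a short arc modulo one.
-/

set_option autoImplicit false

namespace Pool.Agent.H566

open Finset

/-- an enumeration of a finite set of natural numbers -/
lemma exists_enum (S : Finset ℕ) : ∃ s : ℕ → ℕ, Set.InjOn s (Icc 1 S.card : Finset ℕ) ∧
    (∀ m ∈ Icc 1 S.card, s m ∈ S) ∧ ∀ n ∈ S, ∃ m ∈ Icc 1 S.card, s m = n := by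
  classical
  obtain ⟨e⟩ : Nonempty (Fin S.card ≃ S) := ⟨S.equivFin.symm⟩
  refine ⟨fun m => if h : m - 1 < S.card then (e ⟨m - 1, h⟩ : ℕ) else 0, ?_, ?_, ?_⟩
  · intro a ha b hb h
    have ha' := mem_coe.1 ha
    have hb' := mem_coe.1 hb
    rw [mem_Icc] at ha' hb'
    have h1 : a - 1 < S.card := by omega
    have h2 : b - 1 < S.card := by omega
    simp only [h1, h2, dif_pos] at h
    have h3 := e.injective (Subtype.ext h)
    have h4 := congrArg Fin.val h3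
    simp only at h4
    omega
  · intro m hm
    rw [mem_Icc] at hm
    have h1 : m - 1 < S.card := by omega
    simp only [h1, dif_pos]
    exact (e ⟨m - 1, h1⟩).2
  · intro n hn
    obtain ⟨i, hi⟩ := e.surjective ⟨n, hn⟩
    refine ⟨i.1 + 1, by rw [mem_Icc]; have := i.2; omega, ?_⟩
    have h1 : i.1 + 1 - 1 < S.card := by have := i.2; omega
    simp only [h1, dif_pos]
    have h2 : (⟨i.1 + 1 - 1, h1⟩ : Fin S.card) = i := Fin.ext (by simp)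
    rw [h2, hi]

lemma energy_le_enSet (h : ℕ) (S : Finset ℕ) (s : ℕ → ℕ) (h1 : Set.InjOn s (Icc 1 S.card : Finset ℕ))
    (h2 : ∀ m ∈ Icc 1 S.card, s m ∈ S) : Pool.Agent.H560R3.GB.energy h S.card s ≤ enSet h S := by
  classical
  unfold Pool.Agent.H560R3.GB.energy enSet
  refine card_le_card_of_injOn (fun q => (fun i => s (q.1 i), fun i => s (q.2 i))) ?_ ?_
  · intro q hq
    have hq' := mem_coe.1 hq
    rw [mem_filter, mem_product, Fintype.mem_piFinset, Fintype.mem_piFinset] at hq'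
    rw [mem_coe, mem_filter, mem_product, Fintype.mem_piFinset, Fintype.mem_piFinset]
    exact ⟨⟨fun i => h2 _ (hq'.1.1 i), fun i => h2 _ (hq'.1.2 i)⟩, hq'.2⟩
  · intro q hq q' hq' he
    have a := mem_coe.1 hq
    have b := mem_coe.1 hq'
    rw [mem_filter, mem_product, Fintype.mem_piFinset, Fintype.mem_piFinset] at a b
    simp only [Prod.mk.injEq] at he
    refine Prod.ext (funext fun i => ?_) (funext fun i => ?_)
    · exact h1 (mem_coe.2 (a.1.1 i)) (mem_coe.2 (b.1.1 i)) (congrFun he.1 i)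
    · exact h1 (mem_coe.2 (a.1.2 i)) (mem_coe.2 (b.1.2 i)) (congrFun he.2 i)

lemma ex_half (n : ℕ) : (1 : ℂ) + ex (1 / 2 * (n : ℝ)) = if 2 ∣ n then 2 else 0 := by
  split_ifs with h
  · obtain ⟨m, rfl⟩ := h
    have : (1 / 2 * ((2 * m : ℕ) : ℝ)) = ((m : ℤ) : ℝ) := by push_cast; ring
    rw [this, ex_int]
    norm_num
  · obtain ⟨m, hm⟩ : ∃ m, n = 2 * m + 1 := ⟨n / 2, by omega⟩
    have : (1 / 2 * (n : ℝ)) = 1 / 2 + ((m : ℤ) : ℝ) := by rw [hm]; push_cast; ring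
    rw [this, ex_add_int]
    have h2 : ex (1 / 2) = -1 := by
      unfold ex
      have : (2 * Real.pi * Complex.I * ((1 / 2 : ℝ) : ℂ) : ℂ) = Real.pi * Complex.I := by push_cast; ring
      rw [this, Complex.exp_pi_mul_I]
    rw [h2]
    norm_num

/-- the sums over the even numbers -/
lemma even_sums (X K : ℕ) (y : ℕ → ℝ) (B : ℝ)
    (hB : ∀ t : ℝ, ∑ k ∈ Icc 1 K, ‖∑ n ∈ Icc 1 X, ex ((k : ℝ) * y n + t * n)‖ ≤ B) :
    ∑ k ∈ Icc 1 K, ‖∑ n ∈ (Icc 1 X).filter (fun n => 2 ∣ n), ex ((k : ℝ) * y n)‖ ≤ B := by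
  have h1 : ∀ k ∈ Icc 1 K, ‖∑ n ∈ (Icc 1 X).filter (fun n => 2 ∣ n), ex ((k : ℝ) * y n)‖ ≤
      1 / 2 * ‖∑ n ∈ Icc 1 X, ex ((k : ℝ) * y n + 0 * n)‖ +
      1 / 2 * ‖∑ n ∈ Icc 1 X, ex ((k : ℝ) * y n + 1 / 2 * n)‖ := by
    intro k _
    have e : ∑ n ∈ (Icc 1 X).filter (fun n => 2 ∣ n), ex ((k : ℝ) * y n) =
        (1 / 2 : ℂ) * ∑ n ∈ Icc 1 X, ex ((k : ℝ) * y n + 0 * n) +
        (1 / 2 : ℂ) * ∑ n ∈ Icc 1 X, ex ((k : ℝ) * y n + 1 / 2 * n) := by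
      rw [sum_filter, mul_sum, mul_sum, ← sum_add_distrib]
      refine sum_congr rfl fun n _ => ?_
      have h2 := ex_half n
      rw [zero_mul, add_zero, ex_add]
      have h3 : (1 / 2 : ℂ) * ex ((k : ℝ) * y n) + 1 / 2 * (ex ((k : ℝ) * y n) * ex (1 / 2 * (n : ℝ))) =
          1 / 2 * ex ((k : ℝ) * y n) * (1 + ex (1 / 2 * (n : ℝ))) := by ring
      rw [h3, h2]
      split_ifs
      · ring
      · ring
    rw [e]
    refine (norm_add_le _ _).trans ?_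
    rw [norm_mul, norm_mul]
    norm_num
  refine (sum_le_sum h1).trans ?_
  rw [sum_add_distrib, ← mul_sum, ← mul_sum]
  have := hB 0
  have := hB (1 / 2)
  linarith

lemma card_even (X : ℕ) : ((Icc 1 X).filter (fun n => 2 ∣ n)).card = X / 2 := by
  rw [← Nat.Ioc_filter_dvd_card_eq_div X 2]
  congr 1

open Pool.Agent.W93.PG (WinP) in
open Classical in
/-- the main theorem on short arcs, for the numbers `c n`, `n ∈ E` -/
theorem nonlinear_core (ε η : ℝ) (hε : 0 < ε) (hη : 0 < η) (W U m₀ c : ℕ) (hc1 : 1 ≤ c) (hc2 : c ≤ 2)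
    (P : ℕ → Prop) (hP : ∀ m : ℕ, m₀ ≤ m → 2 ∣ m → WinP η W m → P m) :
    ∃ X₀ : ℕ, ∀ X : ℕ, X₀ ≤ X → ∀ (φ : ℕ → ℝ) (K : ℕ) (E : Finset ℕ), E ⊆ Icc 1 X → (∀ n ∈ E, 2 ∣ c * n) →
      (X : ℝ) / 3 ≤ E.card →
      (∀ (y : ℕ → ℝ) (B : ℝ),
        (∀ t : ℝ, ∑ k ∈ Icc 1 K, ‖∑ n ∈ Icc 1 X, ex ((k : ℝ) * y n + t * n)‖ ≤ B) →
        ∑ k ∈ Icc 1 K, ‖∑ n ∈ E, ex ((k : ℝ) * y n)‖ ≤ B) →
      (∀ t : ℝ, ∑ k ∈ Icc 1 K, ‖∑ n ∈ Icc 1 X, ex ((k : ℝ) * φ n + t * n)‖ ≤ (X : ℝ) ^ (1 - ε)) →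
      ∀ β δ : ℝ, 0 < δ → δ ≤ 1 / 6 → 4 / δ ≤ K →
        δ * X ≤ 51 * ((E.filter (fun n => dist1 (φ n - β) ≤ δ)).card : ℝ) ∧
        ((E.filter (fun n => dist1 (φ n - β) ≤ δ ∧ ¬ P (c * n))).card : ℝ) ≤
          ((E.filter (fun n => dist1 (φ n - β) ≤ δ)).card : ℝ) / Real.log X ^ U := by
  obtain ⟨h, hh⟩ := exists_nat_gt (1 / ε)
  have hh1 : 1 ≤ h := by
    have : (0 : ℝ) < h := lt_trans (by positivity) hh
    exact_mod_cast this
  have hhε : 1 < h * ε := by rwa [div_lt_iff₀ hε] at hh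
  obtain ⟨N₀, hN₀⟩ := Pool.Agent.TH935.GF.fam_win h 2 1 W U m₀ hh1 η hη P hP
  obtain ⟨x₁, hx₁1, hx₁⟩ := log_pow_le' 0 ε hε 60
  obtain ⟨x₂, hx₂⟩ := exists_nat_gt (Real.exp (4896 ^ (2 * h)))
  obtain ⟨x₃, hx₃⟩ := exists_nat_gt (max x₁ ((4 : ℝ) ^ (2 * h)))
  refine ⟨N₀ + x₂ + x₃ + 10, fun X hX φ K E hEX hE2 hEc hEs hφ β δ hδ hδ1 hK => ?_⟩
  have hX10 : (10 : ℝ) ≤ X := by
    have : 10 ≤ X := by omega
    exact_mod_cast this
  have hX0 : (0 : ℝ) < X := by linarith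
  have hXx1 : x₁ ≤ X := by
    have h1 : (x₃ : ℝ) ≤ X := by exact_mod_cast (by omega : x₃ ≤ X)
    have h2 := (le_max_left x₁ ((4 : ℝ) ^ (2 * h))).trans hx₃.le
    linarith
  have hX4 : (4 : ℝ) ^ (2 * h) ≤ X := by
    have h1 : (x₃ : ℝ) ≤ X := by exact_mod_cast (by omega : x₃ ≤ X)
    have h2 := (le_max_right x₁ ((4 : ℝ) ^ (2 * h))).trans hx₃.le
    linarith
  have hlog : (4896 : ℝ) ^ (2 * h) ≤ Real.log X := by
    rw [Real.le_log_iff_exp_le hX0]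
    have h1 : (x₂ : ℝ) ≤ X := by exact_mod_cast (by omega : x₂ ≤ X)
    linarith
  have g1 := hx₁ X hXx1
  rw [pow_zero, mul_one] at g1
  obtain ⟨B, hBd⟩ : ∃ B : ℝ, B = (X : ℝ) ^ (1 - ε) := ⟨_, rfl⟩
  have hB0 : 0 < B := by rw [hBd]; exact Real.rpow_pos_of_pos hX0 _
  have hBX : B * (X : ℝ) ^ ε = X := by
    rw [hBd, ← Real.rpow_add hX0]
    have : 1 - ε + ε = 1 := by ring
    rw [this, Real.rpow_one]
  rw [← hBd] at hφ
  -- the shifted sequence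
  obtain ⟨y, hy⟩ : ∃ y : ℕ → ℝ, y = fun n => φ n - β := ⟨_, rfl⟩
  have hφy : ∀ t : ℝ, ∑ k ∈ Icc 1 K, ‖∑ n ∈ Icc 1 X, ex ((k : ℝ) * y n + t * n)‖ ≤ B := by
    intro t
    refine le_trans (le_of_eq ?_) (hφ t)
    refine sum_congr rfl fun k _ => ?_
    have e : ∑ n ∈ Icc 1 X, ex ((k : ℝ) * y n + t * n) =
        ex (-(k * β)) * ∑ n ∈ Icc 1 X, ex ((k : ℝ) * φ n + t * n) := by
      rw [mul_sum]
      refine sum_congr rfl fun n _ => ?_
      rw [← ex_add, hy]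
      congr 1
      ring
    rw [e, norm_mul, norm_ex, one_mul]
  have hdist : ∀ n, dist1 (φ n - β) = dist1 (y n) := fun n => by rw [hy]
  simp only [hdist]
  have hEB : 20 * B ≤ E.card := by
    have h1 : B * 60 ≤ X := by
      calc B * 60 ≤ B * (X : ℝ) ^ ε := mul_le_mul_of_nonneg_left g1 hB0.le
        _ = X := hBX
    linarith
  have hlow := arc_lower E y K B δ hδ hδ1 hK (hEs y B hφy) hEB
  obtain ⟨S, hS⟩ : ∃ S : Finset ℕ, S = E.filter (fun n => dist1 (y n) ≤ δ) := ⟨_, rfl⟩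
  rw [← hS] at hlow ⊢
  have hSX : δ * X ≤ 51 * (S.card : ℝ) := by
    have := mul_le_mul_of_nonneg_left hEc hδ.le
    linarith
  refine ⟨hSX, ?_⟩
  -- the energy
  obtain ⟨N, hN⟩ : ∃ N : ℕ, N = ⌊1 / (6 * δ)⌋₊ := ⟨_, rfl⟩
  have hN1 : 1 ≤ 1 / (6 * δ) := by rw [le_div_iff₀ (by positivity)]; linarith
  have hN2 : (N : ℝ) ≤ 1 / (6 * δ) := by rw [hN]; exact Nat.floor_le (by positivity)
  have hN3 : 1 / (6 * δ) < N + 1 := by rw [hN]; exact Nat.lt_floor_add_one _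
  have hN4 : 1 ≤ N := by rw [hN]; exact Nat.le_floor (by simpa using hN1)
  have hN0 : (0 : ℝ) < N := by exact_mod_cast hN4
  have hN5 : (1 : ℝ) ≤ N := by exact_mod_cast hN4
  have hNK : N ≤ K := by
    have h1 : (N : ℝ) ≤ K := by
      refine hN2.trans (le_trans ?_ hK)
      rw [div_le_div_iff₀ (by positivity) hδ]
      linarith
    exact_mod_cast h1
  have hen := arc_energy X y K N B hN4 hNK hφy h hh1 S (by rw [hS]; exact (filter_subset _ _).trans hEX) (by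
    intro n hn
    rw [hS, mem_filter] at hn
    refine hn.2.trans ?_
    rw [le_div_iff₀ (by positivity)]
    rw [le_div_iff₀ (by positivity)] at hN2
    linarith)
  -- bounding the energy
  have hen2 : (enSet h S : ℝ) * X ≤ Real.log X ^ 1 * (S.card : ℝ) ^ (2 * h) := by
    have e1 : (4 / N : ℝ) ≤ 48 * δ := by
      rw [div_le_iff₀ hN0]
      rw [div_lt_iff₀ (by positivity)] at hN3
      have : δ ≤ δ * N := by nlinarith
      nlinarith
    have e2 : (4 * B) ^ (2 * h) ≤ (X : ℝ) ^ (2 * h - 1) := by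
      have e3 : (4 * B) ^ (2 * h) * (X : ℝ) ≤ (X : ℝ) ^ (2 * h) := by
        have e4 : B ^ (2 * h) * ((X : ℝ) ^ ε) ^ (2 * h) = (X : ℝ) ^ (2 * h) := by
          rw [← mul_pow, hBX]
        have e5 : (X : ℝ) * X ≤ ((X : ℝ) ^ ε) ^ (2 * h) := by
          rw [← Real.rpow_natCast, ← Real.rpow_mul hX0.le]
          have e6 : (X : ℝ) * X = (X : ℝ) ^ (2 : ℝ) := by
            rw [Real.rpow_two]; ring
          rw [e6]
          refine Real.rpow_le_rpow_of_exponent_le (by linarith) ?_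
          push_cast
          nlinarith
        calc (4 * B) ^ (2 * h) * (X : ℝ) = (4 : ℝ) ^ (2 * h) * X * B ^ (2 * h) := by rw [mul_pow]; ring
          _ ≤ (X * X) * B ^ (2 * h) :=
            mul_le_mul_of_nonneg_right (mul_le_mul_of_nonneg_right hX4 hX0.le) (by positivity)
          _ ≤ ((X : ℝ) ^ ε) ^ (2 * h) * B ^ (2 * h) := mul_le_mul_of_nonneg_right e5 (by positivity)
          _ = (X : ℝ) ^ (2 * h) := by rw [← e4]; ring
      have e7 : (X : ℝ) ^ (2 * h) = (X : ℝ) ^ (2 * h - 1) * X := by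
        rw [← pow_succ]
        congr 1
        omega
      rw [e7] at e3
      exact le_of_mul_le_mul_right e3 hX0
    have e8 : (enSet h S : ℝ) ≤ (48 * δ) ^ (2 * h) * 2 ^ (2 * h - 1) * (2 * (X : ℝ) ^ (2 * h - 1)) := by
      refine hen.trans ?_
      have e9 : (4 / N : ℝ) ^ (2 * h) ≤ (48 * δ) ^ (2 * h) := pow_le_pow_left₀ (by positivity) e1 _
      have e10 : (X : ℝ) ^ (2 * h - 1) + (4 * B) ^ (2 * h) ≤ 2 * (X : ℝ) ^ (2 * h - 1) := by linarith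
      exact mul_le_mul (mul_le_mul_of_nonneg_right e9 (by positivity)) e10 (by positivity) (by positivity)
    have e11 : (48 * δ) ^ (2 * h) * 2 ^ (2 * h - 1) * (2 * (X : ℝ) ^ (2 * h - 1)) * X = (96 * (δ * X)) ^ (2 * h) := by
      have e12 : (2 : ℝ) ^ (2 * h - 1) * 2 = 2 ^ (2 * h) := by
        rw [← pow_succ]; congr 1; omega
      have e13 : (X : ℝ) ^ (2 * h - 1) * X = (X : ℝ) ^ (2 * h) := by
        rw [← pow_succ]; congr 1; omega
      calc _ = (48 * δ) ^ (2 * h) * (2 ^ (2 * h - 1) * 2) * ((X : ℝ) ^ (2 * h - 1) * X) := by ring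
        _ = (48 * δ) ^ (2 * h) * 2 ^ (2 * h) * (X : ℝ) ^ (2 * h) := by rw [e12, e13]
        _ = _ := by rw [← mul_pow, ← mul_pow]; congr 1; ring
    calc (enSet h S : ℝ) * X ≤ (96 * (δ * X)) ^ (2 * h) := by
          rw [← e11]; exact mul_le_mul_of_nonneg_right e8 hX0.le
      _ ≤ (4896 * (S.card : ℝ)) ^ (2 * h) := pow_le_pow_left₀ (by positivity) (by linarith) _
      _ = 4896 ^ (2 * h) * (S.card : ℝ) ^ (2 * h) := by rw [mul_pow]
      _ ≤ Real.log X ^ 1 * (S.card : ℝ) ^ (2 * h) := by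
          rw [pow_one]
          exact mul_le_mul_of_nonneg_right hlog (by positivity)
  obtain ⟨s, hs1, hs2, hs3⟩ := exists_enum S
  have hence : Pool.Agent.H560R3.GB.energy h S.card (fun m => c * s m) = Pool.Agent.H560R3.GB.energy h S.card s := by
    unfold Pool.Agent.H560R3.GB.energy
    congr 1
    refine filter_congr fun q _ => ?_
    rw [← mul_sum, ← mul_sum]
    exact Nat.mul_right_inj (by omega)
  have hmain := hN₀ X (by omega) S.card (fun m => c * s m) (fun m hm => by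
    have := hs2 m hm
    rw [hS, mem_filter] at this
    have h1 := mem_Icc.1 (hEX this.1)
    exact ⟨by nlinarith, hE2 _ this.1⟩) (by
    refine le_trans ?_ hen2
    rw [hence]
    exact mul_le_mul_of_nonneg_right (by exact_mod_cast energy_le_enSet h S s hs1 hs2) hX0.le)
    ((Icc 1 S.card).filter (fun m => ¬ P (c * s m))) (filter_subset _ _) (fun m hm => (mem_filter.1 hm).2)
  refine le_trans ?_ hmain
  have hcard : (E.filter (fun n => dist1 (y n) ≤ δ ∧ ¬ P (c * n))).card ≤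
      ((Icc 1 S.card).filter (fun m => ¬ P (c * s m))).card := by
    have hsub : E.filter (fun n => dist1 (y n) ≤ δ ∧ ¬ P (c * n)) ⊆
        ((Icc 1 S.card).filter (fun m => ¬ P (c * s m))).image s := by
      intro n hn
      rw [mem_filter] at hn
      have hnS : n ∈ S := by rw [hS, mem_filter]; exact ⟨hn.1, hn.2.1⟩
      obtain ⟨m, hm1, hm2⟩ := hs3 n hnS
      rw [mem_image]
      exact ⟨m, mem_filter.2 ⟨hm1, by rw [hm2]; exact hn.2.2⟩, hm2⟩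
    exact (card_le_card hsub).trans card_image_le
  exact_mod_cast hcard

open Pool.Agent.W93.PG (WinP) in
open Classical in
/-- the even integers `n` with `φ n` in a short arc -/
theorem nonlinear_even (ε η : ℝ) (hε : 0 < ε) (hη : 0 < η) (W U m₀ : ℕ) (P : ℕ → Prop)
    (hP : ∀ m : ℕ, m₀ ≤ m → 2 ∣ m → WinP η W m → P m) :
    ∃ X₀ : ℕ, ∀ X : ℕ, X₀ ≤ X → ∀ (φ : ℕ → ℝ) (K : ℕ),
      (∀ t : ℝ, ∑ k ∈ Icc 1 K, ‖∑ n ∈ Icc 1 X, ex ((k : ℝ) * φ n + t * n)‖ ≤ (X : ℝ) ^ (1 - ε)) →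
      ∀ β δ : ℝ, 0 < δ → δ ≤ 1 / 6 → 4 / δ ≤ K →
        δ * X ≤ 51 * (((Icc 1 X).filter (fun n => 2 ∣ n ∧ dist1 (φ n - β) ≤ δ)).card : ℝ) ∧
        (((Icc 1 X).filter (fun n => (2 ∣ n ∧ dist1 (φ n - β) ≤ δ) ∧ ¬ P n)).card : ℝ) ≤
          (((Icc 1 X).filter (fun n => 2 ∣ n ∧ dist1 (φ n - β) ≤ δ)).card : ℝ) / Real.log X ^ U := by
  obtain ⟨X₀, h⟩ := nonlinear_core ε η hε hη W U m₀ 1 le_rfl (by norm_num) P hP
  refine ⟨X₀ + 2, fun X hX φ K hφ β δ hδ hδ1 hK => ?_⟩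
  have h1 := h X (by omega) φ K ((Icc 1 X).filter (fun n => 2 ∣ n)) (filter_subset _ _) (fun n hn => by
    rw [one_mul]; exact (mem_filter.1 hn).2) (by
    rw [card_even]
    have h1 : X ≤ 3 * (X / 2) := by omega
    have h2 : (X : ℝ) ≤ 3 * ((X / 2 : ℕ) : ℝ) := by exact_mod_cast h1
    linarith) (fun y B hB => even_sums X K y B hB) hφ β δ hδ hδ1 hK
  simp only [filter_filter, one_mul] at h1
  refine ⟨h1.1, ?_⟩
  have e : (Icc 1 X).filter (fun n => (2 ∣ n ∧ dist1 (φ n - β) ≤ δ) ∧ ¬ P n) =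
      (Icc 1 X).filter (fun n => 2 ∣ n ∧ dist1 (φ n - β) ≤ δ ∧ ¬ P n) :=
    filter_congr fun n _ => and_assoc
  rw [e]
  exact h1.2

open Pool.Agent.W93.PG (WinP) in
open Classical in
/-- the integers `2 n` with `φ n` in a short arc -/
theorem nonlinear_double (ε η : ℝ) (hε : 0 < ε) (hη : 0 < η) (W U m₀ : ℕ) (P : ℕ → Prop)
    (hP : ∀ m : ℕ, m₀ ≤ m → 2 ∣ m → WinP η W m → P m) :
    ∃ X₀ : ℕ, ∀ X : ℕ, X₀ ≤ X → ∀ (φ : ℕ → ℝ) (K : ℕ),
      (∀ t : ℝ, ∑ k ∈ Icc 1 K, ‖∑ n ∈ Icc 1 X, ex ((k : ℝ) * φ n + t * n)‖ ≤ (X : ℝ) ^ (1 - ε)) →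
      ∀ β δ : ℝ, 0 < δ → δ ≤ 1 / 6 → 4 / δ ≤ K →
        δ * X ≤ 51 * (((Icc 1 X).filter (fun n => dist1 (φ n - β) ≤ δ)).card : ℝ) ∧
        (((Icc 1 X).filter (fun n => dist1 (φ n - β) ≤ δ ∧ ¬ P (2 * n))).card : ℝ) ≤
          (((Icc 1 X).filter (fun n => dist1 (φ n - β) ≤ δ)).card : ℝ) / Real.log X ^ U := by
  obtain ⟨X₀, h⟩ := nonlinear_core ε η hε hη W U m₀ 2 (by norm_num) le_rfl P hP
  refine ⟨X₀, fun X hX φ K hφ β δ hδ hδ1 hK => ?_⟩
  exact h X hX φ K (Icc 1 X) subset_rfl (fun n _ => dvd_mul_right _ _) (by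
    rw [Nat.card_Icc, Nat.add_sub_cancel]
    have : (0 : ℝ) ≤ X := Nat.cast_nonneg _
    linarith) (fun y B hB => by
    have := hB 0
    simpa using this) hφ β δ hδ hδ1 hK

end Pool.Agent.H566
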