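import Mathlib
import Pool.Graph.R_pool_sql_team_seeded_1acbe0a2.Y937.MF.Weyl
import Pool.Graph.R_pool_sql_team_ae5b0c61.Results.MP_208885_nt.Proof
import Pool.Agent.H566.NLExp
import Pool.Agent.H566.LogPow

/-!
Weyl's inequality on average over the multiples of a phase: `∑_{k ≤ K} |∑_{n ≤ X} e(k φ(n) + t n)|` for phases `φ`
of degree `d ≥ 2`.
-/

set_option autoImplicit false

namespace Pool.Agent.H566

open Finset

/-- phases with constant differences of order `d` -/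
def Ph : ℕ → ℝ → (ℕ → ℝ) → Prop
  | 0, α, φ => ∀ n, φ n = α
  | d + 1, α, φ => ∀ h : ℕ, Ph d (h * α) (fun n => φ (n + h) - φ n)

lemma Ph_smul (d : ℕ) : ∀ (α c : ℝ) (φ : ℕ → ℝ), Ph d α φ → Ph d (c * α) (fun n => c * φ n) := by
  induction d with
  | zero =>
    intro α c φ h n
    have h1 : φ n = α := h n
    show c * φ n = c * α
    rw [h1]
  | succ d ih =>
    intro α c φ h k
    have h1 := ih _ c _ (h k)
    have e : (k : ℝ) * (c * α) = c * (k * α) := by ring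
    rw [e]
    have e2 : (fun n => c * φ (n + k) - c * φ n) = fun n => c * (φ (n + k) - φ n) := by
      funext n; ring
    rw [e2]
    exact h1

lemma Ph_const (d : ℕ) (hd : 1 ≤ d) : ∀ (α c : ℝ) (φ : ℕ → ℝ), Ph d α φ → Ph d α (fun n => φ n + c) := by
  obtain ⟨d, rfl⟩ : ∃ e, d = e + 1 := ⟨d - 1, by omega⟩
  intro α c φ h k
  have e2 : (fun n => φ (n + k) + c - (φ n + c)) = fun n => φ (n + k) - φ n := by
    funext n; ring
  rw [e2]
  exact h k

lemma Ph_lin (d : ℕ) (hd : 2 ≤ d) (α t : ℝ) (φ : ℕ → ℝ) (h : Ph d α φ) : Ph d α (fun n => φ n + t * n) := by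
  obtain ⟨d, rfl⟩ : ∃ e, d = e + 1 := ⟨d - 1, by omega⟩
  intro k
  have e2 : (fun n : ℕ => φ (n + k) + t * ((n + k : ℕ) : ℝ) - (φ n + t * n)) = fun n => (φ (n + k) - φ n) + t * k := by
    funext n; push_cast; ring
  rw [e2]
  exact Ph_const d (by omega) _ _ _ (h k)

lemma Ph_shift (d : ℕ) : ∀ (α : ℝ) (φ : ℕ → ℝ), Ph d α φ → Ph d α (fun n => φ (n + 1)) := by
  induction d with
  | zero => intro α φ h n; exact h (n + 1)
  | succ d ih =>
    intro α φ h k
    have h1 := ih _ _ (h k)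
    have e2 : (fun n => φ (n + 1 + k) - φ (n + 1)) = fun n => φ (n + k + 1) - φ (n + 1) := by
      funext n
      congr 2
      omega
    have e3 : (fun n => (fun n => φ (n + 1)) (n + k) - (fun n => φ (n + 1)) n) =
        fun n => φ (n + 1 + k) - φ (n + 1) := by
      funext n
      simp only
      congr 2
      omega
    rw [e3]
    exact h1

/-- the largest linear sum of length at most `N` -/
noncomputable def TT (N : ℕ) (α : ℝ) : ℝ :=
  (range (N + 1)).sup' ⟨0, by simp⟩ (fun M => ‖∑ n ∈ range M, ex (n * α)‖)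

lemma TT_ge (N M : ℕ) (hM : M ≤ N) (α : ℝ) : ‖∑ n ∈ range M, ex (n * α)‖ ≤ TT N α :=
  le_sup' (fun M => ‖∑ n ∈ range M, ex (n * α)‖) (mem_range.2 (by omega))

lemma TT_nonneg (N : ℕ) (α : ℝ) : 0 ≤ TT N α := (norm_nonneg _).trans (TT_ge N 0 (by omega) α)

lemma TT_le (N : ℕ) (α : ℝ) : TT N α ≤ N := by
  unfold TT
  refine sup'_le _ _ fun M hM => ?_
  rw [mem_range] at hM
  refine (norm_sum_le _ _).trans ?_
  simp only [norm_ex, sum_const, card_range, nsmul_eq_mul, mul_one]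
  exact_mod_cast (by omega : M ≤ N)

/-- sums over products of differences -/
noncomputable def SS : ℕ → ℕ → ℝ → ℝ
  | 0, N, α => TT N α
  | d + 1, N, α => ∑ h ∈ Icc 1 N, SS d N (h * α)

lemma SS_nonneg (d N : ℕ) : ∀ α, 0 ≤ SS d N α := by
  induction d with
  | zero => intro α; exact TT_nonneg N α
  | succ d ih => intro α; exact sum_nonneg fun h _ => ih _

lemma phase_linear (α : ℝ) (φ : ℕ → ℝ) (h : Ph 1 α φ) (n : ℕ) : φ n = φ 0 + n * α := by
  have := h n 0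
  simp only [zero_add] at this
  linarith

/-- Weyl's inequality -/
theorem weyl_ineq (d : ℕ) : ∃ C : ℝ, 1 ≤ C ∧ ∀ (N : ℕ), 1 ≤ N → ∀ (M : ℕ), M ≤ N → ∀ (α : ℝ) (φ : ℕ → ℝ),
    Ph (d + 1) α φ →
    ‖∑ n ∈ range M, ex (φ n)‖ ^ (2 ^ d) ≤ C * (N : ℝ) ^ (2 ^ d - (d + 1)) * ((N : ℝ) ^ d + SS d N α) := by
  induction d with
  | zero =>
    refine ⟨1, le_rfl, fun N hN M hM α φ h => ?_⟩
    have h1 : ∑ n ∈ range M, ex (φ n) = ex (φ 0) * ∑ n ∈ range M, ex (n * α) := by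
      rw [mul_sum]
      refine sum_congr rfl fun n _ => ?_
      rw [phase_linear α φ h n, ex_add]
    rw [h1, norm_mul, norm_ex, one_mul]
    have h2 := TT_ge N M hM α
    have h3 : SS 0 N α = TT N α := rfl
    rw [h3]
    simp
    linarith
  | succ d ih =>
    obtain ⟨C, hC, ih⟩ := ih
    refine ⟨2 ^ (2 ^ d) * (1 + 2 ^ (2 ^ d) * C), ?_, fun N hN M hM α φ h => ?_⟩
    · have h1 : (1 : ℝ) ≤ 2 ^ (2 ^ d) := one_le_pow₀ (by norm_num)
      have h2 : (0 : ℝ) ≤ 2 ^ (2 ^ d) * C := by positivity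
      calc (1 : ℝ) ≤ 2 ^ (2 ^ d) * 1 := by linarith
        _ ≤ 2 ^ (2 ^ d) * (1 + 2 ^ (2 ^ d) * C) := mul_le_mul_of_nonneg_left (by linarith) (by positivity)
    have hN0 : (1 : ℝ) ≤ N := by exact_mod_cast hN
    obtain ⟨D, hD⟩ : ∃ D, D = 2 ^ d := ⟨_, rfl⟩
    have hD1 : 1 ≤ D := by rw [hD]; exact Nat.one_le_two_pow
    have hDd : d + 1 ≤ D := by rw [hD]; exact Nat.lt_two_pow_self
    have hv := Pool.Agent.Helper170.Weyl.vdc (fun n => ex (φ n)) (fun n => norm_ex _) M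
    obtain ⟨x, hx⟩ : ∃ x : ℕ → ℝ, x = fun l => ‖∑ n ∈ range (M - l), ex (φ (n + l)) * (starRingEnd ℂ) (ex (φ n))‖ :=
      ⟨_, rfl⟩
    have hx0 : ∀ l, 0 ≤ x l := fun l => by rw [hx]; exact norm_nonneg _
    have hxl : ∀ l ∈ Ico 1 M, x l ^ D ≤ C * (N : ℝ) ^ (D - (d + 1)) * ((N : ℝ) ^ d + SS d N (l * α)) := by
      intro l hl
      have h1 := ih N hN (M - l) (by omega) (l * α) _ (h l)
      rw [← hD] at h1
      refine le_trans (le_of_eq ?_) h1
      rw [hx]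
      simp only
      congr 2
      refine sum_congr rfl fun n _ => ?_
      rw [← ex_neg, ← ex_add]
      congr 1
    obtain ⟨A, hA⟩ : ∃ A, A = ∑ l ∈ Ico 1 M, x l := ⟨_, rfl⟩
    have hA0 : 0 ≤ A := by rw [hA]; exact sum_nonneg fun l _ => hx0 l
    have hv' : ‖∑ n ∈ range M, ex (φ n)‖ ^ 2 ≤ N + 2 * A := by
      have : (M : ℝ) ≤ N := by exact_mod_cast hM
      have h2 : ∑ l ∈ Ico 1 M, ‖∑ n ∈ range (M - l), ex (φ (n + l)) * (starRingEnd ℂ) (ex (φ n))‖ = A := by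
        rw [hA, hx]
      rw [h2] at hv
      linarith
    -- the power mean
    have hAD : A ^ D ≤ (N : ℝ) ^ (D - 1) * ∑ l ∈ Ico 1 M, x l ^ D := by
      obtain ⟨D', rfl⟩ : ∃ D', D = D' + 1 := ⟨D - 1, by omega⟩
      rw [hA, Nat.add_sub_cancel]
      rcases (Ico 1 M).eq_empty_or_nonempty with he | hne
      · rw [he]; simp
      have h1 := pow_sum_div_card_le_sum_pow (s := Ico 1 M) (f := x) (fun l _ => hx0 l) D'
      have hc : (0 : ℝ) < ((Ico 1 M).card : ℝ) := by exact_mod_cast card_pos.2 hne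
      rw [div_le_iff₀ (by positivity)] at h1
      refine h1.trans ?_
      rw [mul_comm]
      refine mul_le_mul_of_nonneg_right ?_ (sum_nonneg fun l _ => pow_nonneg (hx0 l) _)
      refine pow_le_pow_left₀ hc.le ?_ _
      rw [Nat.card_Ico]
      exact_mod_cast (by omega : M - 1 ≤ N)
    have hsum : ∑ l ∈ Ico 1 M, x l ^ D ≤ C * (N : ℝ) ^ (D - (d + 1)) * ((N : ℝ) ^ (d + 1) + SS (d + 1) N α) := by
      refine (sum_le_sum hxl).trans ?_
      rw [← mul_sum, sum_add_distrib]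
      refine mul_le_mul_of_nonneg_left ?_ (by positivity)
      have h1 : ∑ _l ∈ Ico 1 M, (N : ℝ) ^ d ≤ (N : ℝ) ^ (d + 1) := by
        rw [sum_const, Nat.card_Ico, nsmul_eq_mul, pow_succ, mul_comm ((N : ℝ) ^ d)]
        refine mul_le_mul_of_nonneg_right ?_ (by positivity)
        exact_mod_cast (by omega : M - 1 ≤ N)
      have h2 : ∑ l ∈ Ico 1 M, SS d N (l * α) ≤ SS (d + 1) N α := by
        refine sum_le_sum_of_subset_of_nonneg ?_ (fun l _ _ => SS_nonneg d N _)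
        intro l hl
        rw [mem_Ico] at hl
        rw [mem_Icc]
        omega
      linarith
    have hpow : 2 ^ (d + 1) = 2 * D := by rw [hD, pow_succ]; ring
    rw [hpow, pow_mul]
    have hS0 := SS_nonneg (d + 1) N α
    calc (‖∑ n ∈ range M, ex (φ n)‖ ^ 2) ^ D ≤ (N + 2 * A) ^ D := pow_le_pow_left₀ (by positivity) hv' _
      _ ≤ 2 ^ (D - 1) * ((N : ℝ) ^ D + (2 * A) ^ D) := add_pow_le (by positivity) (by positivity) _
      _ ≤ 2 ^ D * ((N : ℝ) ^ D + (2 * A) ^ D) := by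
          refine mul_le_mul_of_nonneg_right ?_ (by positivity)
          exact pow_le_pow_right₀ (by norm_num) (by omega)
      _ = 2 ^ D * ((N : ℝ) ^ D + 2 ^ D * A ^ D) := by rw [mul_pow]
      _ ≤ 2 ^ D * ((N : ℝ) ^ (2 * D - (d + 2)) * ((N : ℝ) ^ (d + 1) + SS (d + 1) N α) +
          2 ^ D * (C * (N : ℝ) ^ (2 * D - (d + 2)) * ((N : ℝ) ^ (d + 1) + SS (d + 1) N α))) := by
          refine mul_le_mul_of_nonneg_left ?_ (by positivity)
          refine add_le_add ?_ (mul_le_mul_of_nonneg_left ?_ (by positivity))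
          · calc (N : ℝ) ^ D ≤ (N : ℝ) ^ (2 * D - (d + 2) + (d + 1)) := pow_le_pow_right₀ hN0 (by omega)
              _ = (N : ℝ) ^ (2 * D - (d + 2)) * (N : ℝ) ^ (d + 1) := pow_add _ _ _
              _ ≤ _ := mul_le_mul_of_nonneg_left (by linarith) (by positivity)
          · refine hAD.trans ((mul_le_mul_of_nonneg_left hsum (by positivity)).trans (le_of_eq ?_))
            have e1 : (N : ℝ) ^ (2 * D - (d + 2)) = (N : ℝ) ^ (D - 1) * (N : ℝ) ^ (D - (d + 1)) := by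
              rw [← pow_add]; congr 1; omega
            rw [e1]
            ring
      _ = _ := by rw [← hD]; ring

/-- sums over products -/
lemma sum_prod_le (K N : ℕ) (τ : ℝ) (g : ℕ → ℝ) (hg : ∀ m, 0 ≤ g m)
    (hτ : ∀ m ∈ Icc 1 (K * N), (m.divisors.card : ℝ) ≤ τ) :
    ∑ k ∈ Icc 1 K, ∑ h ∈ Icc 1 N, g (h * k) ≤ τ * ∑ m ∈ Icc 1 (K * N), g m := by
  classical
  rw [← sum_product', mul_sum]
  have hmap : ∀ z ∈ Icc 1 K ×ˢ Icc 1 N, z.2 * z.1 ∈ Icc 1 (K * N) := by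
    intro z hz
    rw [mem_product, mem_Icc, mem_Icc] at hz
    rw [mem_Icc]
    refine ⟨Nat.mul_pos (by omega) (by omega), ?_⟩
    calc z.2 * z.1 ≤ N * K := Nat.mul_le_mul hz.2.2 hz.1.2
      _ = K * N := mul_comm _ _
  rw [← sum_fiberwise_of_maps_to hmap]
  refine sum_le_sum fun m hm => ?_
  have h1 : ∀ z ∈ (Icc 1 K ×ˢ Icc 1 N).filter (fun z => z.2 * z.1 = m), g (z.2 * z.1) = g m := by
    intro z hz
    rw [(mem_filter.1 hz).2]
  rw [sum_congr rfl h1, sum_const, nsmul_eq_mul]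
  refine mul_le_mul_of_nonneg_right ?_ (hg m)
  refine le_trans ?_ (hτ m hm)
  have h2 : ((Icc 1 K ×ˢ Icc 1 N).filter (fun z => z.2 * z.1 = m)).card ≤ m.divisors.card := by
    refine card_le_card_of_injOn (fun z => z.1) ?_ ?_
    · intro z hz
      have hz' := mem_coe.1 hz
      rw [mem_filter] at hz'
      rw [mem_coe, Nat.mem_divisors]
      rw [mem_Icc] at hm
      exact ⟨⟨z.2, by rw [← hz'.2, mul_comm]⟩, by omega⟩
    · intro z hz w hw h
      have hz' := mem_coe.1 hz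
      have hw' := mem_coe.1 hw
      rw [mem_filter, mem_product, mem_Icc, mem_Icc] at hz' hw'
      simp only at h
      have h3 : z.2 * z.1 = w.2 * z.1 := by rw [hz'.2, h, hw'.2]
      exact Prod.ext h (Nat.eq_of_mul_eq_mul_right (by omega) h3)
  exact_mod_cast h2

lemma sum_SS_le (d N : ℕ) (hN : 1 ≤ N) (τ α : ℝ) : ∀ K : ℕ,
    (∀ m ∈ Icc 1 (K * N ^ d), (m.divisors.card : ℝ) ≤ τ) →
    ∑ k ∈ Icc 1 K, SS d N (k * α) ≤ τ ^ d * ∑ m ∈ Icc 1 (K * N ^ d), TT N (m * α) := by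
  induction d with
  | zero =>
    intro K _
    simp only [pow_zero, mul_one, one_mul]
    exact le_rfl
  | succ d ih =>
    intro K hτ
    have e : K * N ^ (d + 1) = (K * N) * N ^ d := by rw [pow_succ]; ring
    rw [e] at hτ ⊢
    have h1 := ih (K * N) hτ
    rcases Nat.eq_zero_or_pos K with hK | hK
    · subst hK; simp
    have hτ0 : 0 ≤ τ := by
      have h2 := hτ 1 (by rw [mem_Icc]; exact ⟨le_rfl, Nat.mul_pos (Nat.mul_pos hK hN) (Nat.pow_pos hN)⟩)
      exact (Nat.cast_nonneg _).trans h2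
    have h2 : ∑ k ∈ Icc 1 K, SS (d + 1) N (k * α) = ∑ k ∈ Icc 1 K, ∑ h ∈ Icc 1 N, SS d N (((h * k : ℕ) : ℝ) * α) := by
      refine sum_congr rfl fun k _ => ?_
      have : SS (d + 1) N (k * α) = ∑ h ∈ Icc 1 N, SS d N (h * (k * α)) := rfl
      rw [this]
      refine sum_congr rfl fun h _ => ?_
      congr 1
      push_cast
      ring
    rw [h2]
    have h3 := sum_prod_le K N τ (fun m => SS d N ((m : ℝ) * α)) (fun m => SS_nonneg _ _ _) (fun m hm => by
      refine hτ m ?_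
      rw [mem_Icc] at hm ⊢
      refine ⟨hm.1, hm.2.trans ?_⟩
      exact Nat.le_mul_of_pos_right _ (Nat.pow_pos hN))
    refine h3.trans ?_
    calc τ * ∑ m ∈ Icc 1 (K * N), SS d N ((m : ℝ) * α)
        ≤ τ * (τ ^ d * ∑ m ∈ Icc 1 (K * N * N ^ d), TT N (m * α)) := mul_le_mul_of_nonneg_left h1 hτ0
      _ = _ := by ring

/-- the sum of the linear sums -/
lemma sum_TT_le (N M : ℕ) (α : ℝ) (a : ℤ) (q : ℕ) (hq : 1 ≤ q) (ha : IsCoprime a (q : ℤ))
    (h : |α - a / q| ≤ 1 / (q : ℝ) ^ 2) :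
    ∑ m ∈ Icc 1 M, TT N (m * α) ≤ (((M + 1 : ℕ) : ℝ) / q + 1) * (5 * N + 2 * (q * (1 + Real.log q))) := by
  classical
  have hex : ∀ m : ℕ, ∃ L : ℕ, L ≤ N ∧ TT N (m * α) = ‖∑ n ∈ range L, ex (n * (m * α))‖ := by
    intro m
    obtain ⟨L, hL, he⟩ := exists_mem_eq_sup' (s := range (N + 1)) ⟨0, by simp⟩
      (fun M => ‖∑ n ∈ range M, ex (n * (m * α))‖)
    exact ⟨L, by rw [mem_range] at hL; omega, he⟩
  choose L hL1 hL2 using hex
  have hb := Pool.Agent.Y937.MF.total_bound α a q hq ha h L N (fun l => by exact_mod_cast hL1 l) (M + 1)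
  refine le_trans ?_ hb
  have h1 : ∀ m : ℕ, TT N (m * α) = ‖∑ n ∈ range (L m), Pool.Agent.Helper170.Weyl.e ((m : ℝ) * α) ^ n‖ := by
    intro m
    rw [hL2 m]
    congr 1
    refine sum_congr rfl fun n _ => ?_
    exact ex_nat_mul n _
  calc ∑ m ∈ Icc 1 M, TT N (m * α) ≤ ∑ m ∈ range (M + 1), TT N (m * α) := by
        refine sum_le_sum_of_subset_of_nonneg ?_ (fun m _ _ => TT_nonneg _ _)
        intro m hm
        rw [mem_Icc] at hm
        rw [mem_range]
        omega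
    _ = _ := sum_congr rfl fun m _ => h1 m

end Pool.Agent.H566
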