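import Mathlib
import Pool.Agent.H566.WeylK

/-!
The sums `∑_{k ≤ K} |∑_{n ≤ X} e(k φ(n) + t n)|` for phases `φ` of degree `d + 1 ≥ 2` with a good denominator.
-/

set_option autoImplicit false

namespace Pool.Agent.H566

open Finset

/-- a bound for the divisor function -/
lemma tau_bound (d : ℕ) (ε : ℝ) (hε : 0 < ε) : ∃ X₀ : ℝ, 1 ≤ X₀ ∧ ∀ X : ℝ, X₀ ≤ X → ∀ m : ℕ,
    (m : ℝ) ≤ X ^ (d + 1) → (m.divisors.card : ℝ) ≤ X ^ ε := by
  obtain ⟨k, hk⟩ := exists_nat_gt ((d + 1) / (ε / 2))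
  have hk0 : (0 : ℝ) < k := lt_trans (by positivity) hk
  have hk1 : 0 < k := by exact_mod_cast hk0
  have hkε : ((d : ℝ) + 1) / k ≤ ε / 2 := by
    rw [div_lt_iff₀ (by positivity)] at hk
    rw [div_le_iff₀ hk0]
    linarith
  obtain ⟨C, hC1, hC⟩ := Pool.Agent.Results.MP_208885_nt.Proof.div_bound k hk1
  obtain ⟨X₀, hX₀1, hX₀⟩ := log_pow_le' 0 (ε / 2) (by linarith) C
  refine ⟨X₀, hX₀1, fun X hX m hm => ?_⟩
  have hX1 : 1 ≤ X := hX₀1.trans hX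
  have hXpos : 0 < X := by linarith
  have g := hX₀ X hX
  rw [pow_zero, mul_one] at g
  have h1 : ((m.divisors.card : ℝ)) ^ k ≤ (C : ℝ) ^ k * m := by exact_mod_cast hC m
  have h2 : ((m.divisors.card : ℝ)) ^ k ≤ (X ^ (ε / 2) * X ^ (((d : ℝ) + 1) / k)) ^ k := by
    refine h1.trans ?_
    rw [mul_pow]
    refine mul_le_mul (pow_le_pow_left₀ (by positivity) g _) ?_ (by positivity) (by positivity)
    refine hm.trans (le_of_eq ?_)
    rw [← Real.rpow_natCast (X ^ (((d : ℝ) + 1) / k)) k, ← Real.rpow_mul hXpos.le, ← Real.rpow_natCast X (d + 1)]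
    congr 1
    push_cast
    field_simp
  have h3 : (m.divisors.card : ℝ) ≤ X ^ (ε / 2) * X ^ (((d : ℝ) + 1) / k) :=
    le_of_pow_le_pow_left₀ hk1.ne' (by positivity) h2
  refine h3.trans ?_
  rw [← Real.rpow_add hXpos]
  exact Real.rpow_le_rpow_of_exponent_le hX1 (by linarith)

/-- Weyl's inequality on average over multiples -/
theorem weyl_avg (d : ℕ) (hd : 1 ≤ d) (ε : ℝ) (hε : 0 < ε) (hε1 : ε ≤ 1) :
    ∃ X₀ : ℕ, ∀ X : ℕ, X₀ ≤ X → ∀ (α : ℝ) (φ : ℕ → ℝ), Ph (d + 1) α φ → ∀ K : ℕ, 1 ≤ K → K ≤ X →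
      (∃ (a : ℤ) (q : ℕ), 1 ≤ q ∧ IsCoprime a (q : ℤ) ∧ |α - a / q| ≤ 1 / (q : ℝ) ^ 2 ∧
        (X : ℝ) ^ (1 - ε) ≤ q ∧ (q : ℝ) ≤ K * (X : ℝ) ^ d * (X : ℝ) ^ ε) →
      ∀ t : ℝ, ∑ k ∈ Icc 1 K, ‖∑ n ∈ Icc 1 X, ex ((k : ℝ) * φ n + t * n)‖ ≤
        K * (X : ℝ) ^ (1 - 1 / (2 : ℝ) ^ d + 5 * ε) := by
  obtain ⟨C, hC1, hC⟩ := weyl_ineq d
  obtain ⟨x₁, hx₁1, hx₁⟩ := tau_bound d (ε / d) (by positivity)
  obtain ⟨x₂, hx₂1, hx₂⟩ := log_pow_le' 1 ε hε (d + 3)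
  obtain ⟨x₃, hx₃1, hx₃⟩ := log_pow_le' 0 ε hε (22 * C)
  obtain ⟨X₀, hX₀⟩ := exists_nat_gt (max (max x₁ x₂) (max x₃ 3))
  refine ⟨X₀, fun X hX α φ hφ K hK1 hKX hq t => ?_⟩
  have hXr : (X₀ : ℝ) ≤ X := by exact_mod_cast hX
  have hX1' : x₁ ≤ X := ((le_max_left _ _).trans ((le_max_left _ _).trans hX₀.le)).trans hXr
  have hX2' : x₂ ≤ X := ((le_max_right _ _).trans ((le_max_left _ _).trans hX₀.le)).trans hXr
  have hX3' : x₃ ≤ X := ((le_max_left _ _).trans ((le_max_right _ _).trans hX₀.le)).trans hXr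
  have hX3 : (3 : ℝ) ≤ X := ((le_max_right _ _).trans ((le_max_right _ _).trans hX₀.le)).trans hXr
  have hX0 : (0 : ℝ) < X := by linarith
  have hX1 : (1 : ℝ) ≤ X := by linarith
  have hXn : 1 ≤ X := by exact_mod_cast hX1
  have hK0 : (0 : ℝ) < K := by exact_mod_cast hK1
  have hK1r : (1 : ℝ) ≤ K := by exact_mod_cast hK1
  have hKXr : (K : ℝ) ≤ X := by exact_mod_cast hKX
  obtain ⟨D, hD⟩ : ∃ D : ℕ, D = 2 ^ d := ⟨_, rfl⟩
  have hD1 : 1 ≤ D := by rw [hD]; exact Nat.one_le_two_pow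
  have hDd : d + 1 ≤ D := by rw [hD]; exact Nat.lt_two_pow_self
  obtain ⟨a, q, hq1, hcop, happ, hqlo, hqhi⟩ := hq
  have hq0 : (0 : ℝ) < q := by exact_mod_cast hq1
  obtain ⟨P, hP⟩ : ∃ P : ℝ, P = (X : ℝ) ^ ε := ⟨_, rfl⟩
  have hP1 : 1 ≤ P := by rw [hP]; exact Real.one_le_rpow hX1 hε.le
  have hP0 : 0 < P := by linarith
  have g2 := hx₂ X hX2'
  have g3 := hx₃ X hX3'
  rw [pow_one, ← hP] at g2
  rw [pow_zero, mul_one, ← hP] at g3
  rw [← hP] at hqhi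
  -- the individual sums
  obtain ⟨x, hx⟩ : ∃ x : ℕ → ℝ, x = fun k : ℕ => ‖∑ n ∈ Icc 1 X, ex ((k : ℝ) * φ n + t * n)‖ := ⟨_, rfl⟩
  have hx0 : ∀ k, 0 ≤ x k := fun k => by rw [hx]; exact norm_nonneg _
  have hxk : ∀ k ∈ Icc 1 K, x k ^ D ≤ C * (X : ℝ) ^ (D - (d + 1)) * ((X : ℝ) ^ d + SS d X (k * α)) := by
    intro k _
    have h1 : Ph (d + 1) (k * α) (fun n => (k : ℝ) * φ n + t * n) :=
      Ph_lin (d + 1) (by omega) _ _ _ (Ph_smul (d + 1) α k φ hφ)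
    have h2 := Ph_shift _ _ _ h1
    have h3 := hC X hXn X le_rfl _ _ h2
    rw [← hD] at h3
    refine le_trans (le_of_eq ?_) h3
    rw [hx]
    simp only
    congr 2
    rw [range_eq_Ico, sum_Ico_add' (fun n => ex ((k : ℝ) * φ n + t * n)) 0 X 1]
    rfl
  -- the sum of the linear sums
  obtain ⟨M, hM⟩ : ∃ M : ℕ, M = K * X ^ d := ⟨_, rfl⟩
  have hMr : (M : ℝ) = K * (X : ℝ) ^ d := by rw [hM]; push_cast; ring
  have hM1 : (1 : ℝ) ≤ M := by
    rw [hMr]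
    have : (1 : ℝ) ≤ (X : ℝ) ^ d := one_le_pow₀ hX1
    nlinarith
  have hMX : (X : ℝ) ≤ M := by
    rw [hMr]
    have h1 : (X : ℝ) ^ 1 ≤ (X : ℝ) ^ d := pow_le_pow_right₀ hX1 hd
    rw [pow_one] at h1
    have h2 : (0 : ℝ) ≤ (X : ℝ) ^ d := by positivity
    nlinarith
  have hMtop : (M : ℝ) ≤ (X : ℝ) ^ (d + 1) := by
    rw [hMr, pow_succ, mul_comm]
    exact mul_le_mul_of_nonneg_left hKXr (by positivity)
  have htau : ∀ m ∈ Icc 1 (K * X ^ d), (m.divisors.card : ℝ) ≤ (X : ℝ) ^ (ε / d) := by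
    intro m hm
    rw [mem_Icc, ← hM] at hm
    refine hx₁ X hX1' m ?_
    refine le_trans ?_ hMtop
    exact_mod_cast hm.2
  have hSS := sum_SS_le d X hXn ((X : ℝ) ^ (ε / d)) α K htau
  have htaud : ((X : ℝ) ^ (ε / d)) ^ d = P := by
    rw [← Real.rpow_natCast, ← Real.rpow_mul hX0.le, hP]
    congr 1
    have : (d : ℝ) ≠ 0 := by
      have : d ≠ 0 := by omega
      exact_mod_cast this
    field_simp
  rw [htaud, ← hM] at hSS
  have hTT := sum_TT_le X M α a q hq1 hcop happ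
  have hlogq : 1 + Real.log q ≤ P := by
    have h1 : (q : ℝ) ≤ (X : ℝ) ^ (d + 2) := by
      refine hqhi.trans ?_
      rw [← hMr]
      have h2 : P ≤ X := by
        rw [hP]
        calc (X : ℝ) ^ ε ≤ (X : ℝ) ^ (1 : ℝ) := Real.rpow_le_rpow_of_exponent_le hX1 hε1
          _ = X := Real.rpow_one _
      calc (M : ℝ) * P ≤ (X : ℝ) ^ (d + 1) * X := mul_le_mul hMtop h2 hP0.le (by positivity)
        _ = (X : ℝ) ^ (d + 2) := by rw [← pow_succ]
    have h3 : Real.log q ≤ (d + 2) * Real.log X := by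
      have h4 := Real.log_le_log hq0 h1
      rw [Real.log_pow] at h4
      push_cast at h4
      exact h4
    have h5 : 1 ≤ Real.log X := by
      rw [Real.le_log_iff_exp_le hX0]
      have := Real.exp_one_lt_d9
      linarith
    nlinarith
  have hqP : (X : ℝ) ≤ q * P := by
    have h1 : (X : ℝ) ^ (1 - ε) * P = X := by
      rw [hP, ← Real.rpow_add hX0]
      have : 1 - ε + ε = 1 := by ring
      rw [this, Real.rpow_one]
    calc (X : ℝ) = (X : ℝ) ^ (1 - ε) * P := h1.symm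
      _ ≤ q * P := mul_le_mul_of_nonneg_right hqlo hP0.le
  have hTT2 : ∑ m ∈ Icc 1 M, TT X (m * α) ≤ 21 * (M * (P * P)) := by
    refine hTT.trans ?_
    have h1 : (((M + 1 : ℕ) : ℝ) / q + 1) * (5 * X + 2 * (q * (1 + Real.log q))) =
        ((M + 1 : ℕ) : ℝ) * 5 * (X / q) + ((M + 1 : ℕ) : ℝ) * 2 * (1 + Real.log q) + 5 * X +
          2 * (q * (1 + Real.log q)) := by
      field_simp
      ring
    rw [h1]
    have h2 : ((M + 1 : ℕ) : ℝ) ≤ 2 * M := by push_cast; linarith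
    have h3 : (X : ℝ) / q ≤ P := by rw [div_le_iff₀ hq0]; linarith
    have h4 : P ≤ P * P := by nlinarith
    have h5 : (0 : ℝ) ≤ M := by linarith
    have h6 : ((M + 1 : ℕ) : ℝ) * 5 * (X / q) ≤ 10 * (M * (P * P)) := by
      calc ((M + 1 : ℕ) : ℝ) * 5 * (X / q) ≤ (2 * M) * 5 * P :=
            mul_le_mul (by linarith) h3 (by positivity) (by positivity)
        _ = 10 * (M * P) := by ring
        _ ≤ _ := by
          have := mul_le_mul_of_nonneg_left h4 h5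
          linarith
    have h7 : ((M + 1 : ℕ) : ℝ) * 2 * (1 + Real.log q) ≤ 4 * (M * (P * P)) := by
      calc ((M + 1 : ℕ) : ℝ) * 2 * (1 + Real.log q) ≤ ((M + 1 : ℕ) : ℝ) * 2 * P :=
            mul_le_mul_of_nonneg_left hlogq (by positivity)
        _ ≤ (2 * M) * 2 * P := mul_le_mul_of_nonneg_right (by linarith) hP0.le
        _ = 4 * (M * P) := by ring
        _ ≤ _ := by
          have := mul_le_mul_of_nonneg_left h4 h5
          linarith
    have h8 : 5 * (X : ℝ) ≤ 5 * (M * (P * P)) := by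
      have : (M : ℝ) * 1 ≤ M * (P * P) := mul_le_mul_of_nonneg_left (by linarith) h5
      linarith
    have h9 : 2 * (q * (1 + Real.log q)) ≤ 2 * (M * (P * P)) := by
      have h10 : q * (1 + Real.log q) ≤ (M * P) * P := by
        rw [hMr]
        exact (mul_le_mul_of_nonneg_left hlogq hq0.le).trans (mul_le_mul_of_nonneg_right hqhi hP0.le)
      linarith
    linarith
  -- collecting
  have hsumD : ∑ k ∈ Icc 1 K, x k ^ D ≤ K * (X : ℝ) ^ (D - 1) * (P ^ 4) := by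
    refine (sum_le_sum hxk).trans ?_
    rw [← mul_sum, sum_add_distrib, sum_const, Nat.card_Icc, Nat.add_sub_cancel, nsmul_eq_mul]
    have h1 : (K : ℝ) * (X : ℝ) ^ d + ∑ k ∈ Icc 1 K, SS d X (k * α) ≤ 22 * (M * P ^ 3) := by
      have h2 : ∑ k ∈ Icc 1 K, SS d X (k * α) ≤ P * (21 * (M * (P * P))) :=
        hSS.trans (mul_le_mul_of_nonneg_left hTT2 hP0.le)
      have h3 : P * (21 * (M * (P * P))) = 21 * (M * P ^ 3) := by ring
      have h4 : (M : ℝ) * 1 ≤ M * P ^ 3 := mul_le_mul_of_nonneg_left (one_le_pow₀ hP1) (by linarith)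
      rw [← hMr]
      linarith
    calc C * (X : ℝ) ^ (D - (d + 1)) * ((K : ℝ) * (X : ℝ) ^ d + ∑ k ∈ Icc 1 K, SS d X (k * α))
        ≤ C * (X : ℝ) ^ (D - (d + 1)) * (22 * (M * P ^ 3)) := mul_le_mul_of_nonneg_left h1 (by positivity)
      _ = (22 * C) * (K * ((X : ℝ) ^ (D - (d + 1)) * (X : ℝ) ^ d)) * P ^ 3 := by rw [hMr]; ring
      _ = (22 * C) * (K * (X : ℝ) ^ (D - 1)) * P ^ 3 := by
          rw [← pow_add]; congr 4; omega
      _ ≤ P * (K * (X : ℝ) ^ (D - 1)) * P ^ 3 := by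
          refine mul_le_mul_of_nonneg_right (mul_le_mul_of_nonneg_right g3 (by positivity)) (by positivity)
      _ = _ := by ring
  have hmean : (∑ k ∈ Icc 1 K, x k) ^ D ≤ (K : ℝ) ^ (D - 1) * ∑ k ∈ Icc 1 K, x k ^ D := by
    obtain ⟨D', rfl⟩ : ∃ D', D = D' + 1 := ⟨D - 1, by omega⟩
    have h1 := pow_sum_div_card_le_sum_pow (s := Icc 1 K) (f := x) (fun l _ => hx0 l) D'
    rw [Nat.card_Icc, Nat.add_sub_cancel, div_le_iff₀ (by positivity)] at h1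
    rw [Nat.add_sub_cancel, mul_comm]
    exact h1
  have hfin : (∑ k ∈ Icc 1 K, x k) ^ D ≤ (K * (X : ℝ) ^ (1 - 1 / (2 : ℝ) ^ d + 5 * ε)) ^ D := by
    have h1 := hmean.trans (mul_le_mul_of_nonneg_left hsumD (by positivity))
    refine h1.trans ?_
    have hDr : (D : ℝ) = (2 : ℝ) ^ d := by rw [hD]; push_cast; ring
    have hDpos : (0 : ℝ) < D := by rw [hDr]; positivity
    have h2 : ((X : ℝ) ^ (1 - 1 / (2 : ℝ) ^ d + 5 * ε)) ^ D = (X : ℝ) ^ ((D : ℝ) - 1 + 5 * ε * D) := by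
      rw [← Real.rpow_natCast, ← Real.rpow_mul hX0.le, ← hDr]
      congr 1
      field_simp
    rw [mul_pow, h2]
    have h3 : (K : ℝ) ^ D = (K : ℝ) ^ (D - 1) * K := by
      rw [← pow_succ]; congr 1; omega
    rw [h3]
    have h4 : (X : ℝ) ^ (D - 1) * P ^ 4 ≤ (X : ℝ) ^ ((D : ℝ) - 1 + 5 * ε * D) := by
      have h5 : (X : ℝ) ^ (D - 1) = (X : ℝ) ^ ((D : ℝ) - 1) := by
        rw [← Real.rpow_natCast]
        congr 1
        rw [Nat.cast_sub hD1]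
        simp
      have h6 : P ^ 4 = (X : ℝ) ^ (4 * ε) := by
        rw [hP, ← Real.rpow_natCast, ← Real.rpow_mul hX0.le]
        congr 1
        push_cast
        ring
      rw [h5, h6, ← Real.rpow_add hX0]
      refine Real.rpow_le_rpow_of_exponent_le hX1 ?_
      have h7 : (1 : ℝ) ≤ D := by exact_mod_cast hD1
      nlinarith
    calc (K : ℝ) ^ (D - 1) * (K * (X : ℝ) ^ (D - 1) * P ^ 4) =
          (K : ℝ) ^ (D - 1) * K * ((X : ℝ) ^ (D - 1) * P ^ 4) := by ring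
      _ ≤ _ := mul_le_mul_of_nonneg_left h4 (by positivity)
  have := le_of_pow_le_pow_left₀ (by omega : D ≠ 0) (by positivity) hfin
  rw [hx] at this
  exact this

end Pool.Agent.H566
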