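import Mathlib
import Pool.Agent.H566.WeylAvg
import Pool.Agent.H566.Circle

/-!
Real polynomials have no correlations with linear phases.
-/

set_option autoImplicit false

namespace Pool.Agent.H566

open Finset Polynomial

/-- a real polynomial is a polynomial phase -/
lemma Ph_real (d : ℕ) : ∀ (f : ℝ[X]), f.natDegree ≤ d →
    Ph d ((d.factorial : ℝ) * f.coeff d) (fun n => f.eval (n : ℝ)) := by
  induction d with
  | zero =>
    intro f hf n
    have h1 : f = C (f.coeff 0) := eq_C_of_natDegree_le_zero hf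
    rw [h1]; simp
  | succ d ih =>
    intro f hf h
    set g : ℝ[X] := taylor (h : ℝ) f - f with hg
    have hcoef : g.natDegree ≤ d ∧ g.coeff d = (d + 1) * h * f.coeff (d + 1) := by
      have key : ∀ k, (taylor (h : ℝ) f).coeff k = (hasseDeriv k f).eval (h : ℝ) :=
        fun k => taylor_coeff _ _ _
      have hdeg : ∀ k, (hasseDeriv k f).natDegree ≤ f.natDegree - k := natDegree_hasseDeriv_le f
      constructor
      · rw [natDegree_le_iff_coeff_eq_zero]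
        intro N hN
        rw [hg, coeff_sub, key]
        rcases Nat.lt_or_ge N (d + 2) with h2 | h2
        · have h3 : N = d + 1 := by omega
          subst h3
          have h4 : (hasseDeriv (d + 1) f).natDegree ≤ 0 := (hdeg _).trans (by omega)
          rw [eq_C_of_natDegree_le_zero h4, eval_C, hasseDeriv_coeff]
          simp
        · have h4 : f.coeff N = 0 := coeff_eq_zero_of_natDegree_lt (by omega)
          have h5 : hasseDeriv N f = 0 := hasseDeriv_eq_zero_of_lt_natDegree f N (by omega)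
          rw [h4, h5]; simp
      · rw [hg, coeff_sub, key]
        have h4 : (hasseDeriv d f).natDegree ≤ 1 := (hdeg _).trans (by omega)
        rw [eq_X_add_C_of_natDegree_le_one h4]
        simp only [eval_add, eval_mul, eval_C, eval_X, hasseDeriv_coeff]
        have h6 : ((1 + d).choose d : ℝ) = d + 1 := by
          rw [add_comm 1 d, Nat.choose_succ_self_right]; push_cast; ring
        rw [h6]
        simp only [zero_add, Nat.choose_self, Nat.cast_one, one_mul]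
        rw [add_comm 1 d]; ring
    have h1 := ih g hcoef.1
    rw [hcoef.2] at h1
    have e1 : (fun n : ℕ => g.eval (n : ℝ)) =
        fun n : ℕ => f.eval ((n + h : ℕ) : ℝ) - f.eval (n : ℝ) := by
      funext n
      rw [hg, eval_sub, taylor_eval]
      congr 2
      push_cast; ring
    rw [e1] at h1
    have e2 : (((d + 1).factorial : ℕ) : ℝ) * f.coeff (d + 1) = ((d + 1) * d.factorial : ℝ) * f.coeff (d + 1) := by
      rw [Nat.factorial_succ]; push_cast; ring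
    have e3 : (h : ℝ) * ((((d + 1).factorial : ℕ) : ℝ) * f.coeff (d + 1)) =
        (d.factorial : ℝ) * ((d + 1) * h * f.coeff (d + 1)) := by
      rw [e2]; ring
    rw [e3]
    exact h1

/-- polynomials whose leading coefficient is not too close to fractions with small denominators have no
correlations with linear phases -/
theorem poly_hyp (d : ℕ) (hd : 1 ≤ d) (ρ : ℝ) (hρ : 0 < ρ) :
    ∃ X₀ : ℕ, ∀ X : ℕ, X₀ ≤ X → ∀ f : ℝ[X], f.natDegree ≤ d + 1 → ∀ δ : ℝ,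
      (X : ℝ) ^ (ρ - 1 / (2 : ℝ) ^ d) ≤ δ → δ ≤ 1 / 6 →
      (∀ q : ℕ, 1 ≤ q → q ≤ X → δ / (X : ℝ) ^ d < dist1 (f.coeff (d + 1) * q)) →
      ∀ t : ℝ, ∑ k ∈ Icc 1 ⌈4 / δ⌉₊, ‖∑ n ∈ Icc 1 X, ex ((k : ℝ) * f.eval (n : ℝ) + t * n)‖ ≤
        (X : ℝ) ^ (1 - ρ / 2) := by
  obtain ⟨ε, hε⟩ : ∃ ε : ℝ, ε = min (ρ / 16) 1 := ⟨_, rfl⟩
  have hε0 : 0 < ε := by rw [hε]; exact lt_min (by linarith) one_pos
  have hε1 : ε ≤ 1 := by rw [hε]; exact min_le_right _ _
  have hε2 : ε ≤ ρ / 16 := by rw [hε]; exact min_le_left _ _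
  obtain ⟨X₀, hX₀⟩ := weyl_avg d hd ε hε0 hε1
  obtain ⟨x₁, hx₁1, hx₁⟩ := log_pow_le' 0 (ρ / 16) (by linarith) 5
  obtain ⟨x₂, hx₂1, hx₂⟩ := log_pow_le' 0 ε hε0 ((d + 1).factorial : ℝ)
  obtain ⟨x₃, hx₃⟩ := exists_nat_gt (max x₁ x₂)
  refine ⟨X₀ + x₃ + 25, fun X hX f hf δ hδ hδ1 hα t => ?_⟩
  have hXx : (x₃ : ℝ) ≤ X := by exact_mod_cast (by omega : x₃ ≤ X)
  have g1 := hx₁ X (((le_max_left _ _).trans hx₃.le).trans hXx)
  have g2 := hx₂ X (((le_max_right _ _).trans hx₃.le).trans hXx)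
  rw [pow_zero, mul_one] at g1 g2
  have hX25 : (25 : ℝ) ≤ X := by exact_mod_cast (by omega : 25 ≤ X)
  have hX0 : (0 : ℝ) < X := by linarith
  have hX1 : (1 : ℝ) ≤ X := by linarith
  have hδ0 : 0 < δ := lt_of_lt_of_le (Real.rpow_pos_of_pos hX0 _) hδ
  obtain ⟨K, hK⟩ : ∃ K : ℕ, K = ⌈4 / δ⌉₊ := ⟨_, rfl⟩
  rw [← hK]
  have hK1 : 4 / δ ≤ K := by rw [hK]; exact Nat.le_ceil _
  have hK2 : (K : ℝ) < 4 / δ + 1 := by rw [hK]; exact Nat.ceil_lt_add_one (by positivity)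
  have hδi : 6 ≤ 1 / δ := by rw [le_div_iff₀ hδ0]; linarith
  have h4δ : 4 / δ = 4 * (1 / δ) := by ring
  have hK3 : (K : ℝ) ≤ 5 * (1 / δ) := by rw [h4δ] at hK2; linarith
  have hK0 : (0 : ℝ) < K := by rw [h4δ] at hK1; linarith
  have hKn : 1 ≤ K := by exact_mod_cast hK0
  have hδX : 1 / δ ≤ (X : ℝ) ^ (1 / (2 : ℝ) ^ d - ρ) := by
    rw [div_le_iff₀ hδ0]
    calc (1 : ℝ) = (X : ℝ) ^ (1 / (2 : ℝ) ^ d - ρ) * (X : ℝ) ^ (ρ - 1 / (2 : ℝ) ^ d) := by
          rw [← Real.rpow_add hX0]; simp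
      _ ≤ _ := mul_le_mul_of_nonneg_left hδ (Real.rpow_pos_of_pos hX0 _).le
  have h2d : 1 / (2 : ℝ) ^ d ≤ 1 / 2 := by
    have : (2 : ℝ) ^ 1 ≤ 2 ^ d := pow_le_pow_right₀ (by norm_num) hd
    rw [pow_one] at this
    exact one_div_le_one_div_of_le (by norm_num) this
  have hKX : K ≤ X := by
    have h1 : (K : ℝ) ≤ X := by
      have h2 : (X : ℝ) ^ (1 / (2 : ℝ) ^ d - ρ) ≤ (X : ℝ) ^ ((1 : ℝ) / 2) :=
        Real.rpow_le_rpow_of_exponent_le hX1 (by linarith)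
      have h3 : (5 : ℝ) ≤ (X : ℝ) ^ ((1 : ℝ) / 2) := by
        rw [← Real.sqrt_eq_rpow]
        exact Real.le_sqrt_of_sq_le (by linarith)
      have h4 : (X : ℝ) ^ ((1 : ℝ) / 2) * (X : ℝ) ^ ((1 : ℝ) / 2) = X := by
        rw [← Real.rpow_add hX0]; norm_num
      have h5 : 0 < (X : ℝ) ^ ((1 : ℝ) / 2) := Real.rpow_pos_of_pos hX0 _
      nlinarith
    exact_mod_cast h1
  -- the denominator
  obtain ⟨Q, hQ⟩ : ∃ Q : ℕ, Q = K * X ^ d := ⟨_, rfl⟩
  have hXn : 1 ≤ X := by omega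
  have hQ1 : 1 ≤ Q := by rw [hQ]; exact Nat.mul_pos hKn (Nat.pow_pos hXn)
  have hQr : (Q : ℝ) = K * (X : ℝ) ^ d := by rw [hQ]; push_cast; ring
  have hQ0 : (0 : ℝ) < Q := by exact_mod_cast hQ1
  obtain ⟨q, a, hq1, hqQ, hqa, hcop⟩ := dirichlet (((d + 1).factorial : ℝ) * f.coeff (d + 1)) Q hQ1
  have hq0 : (0 : ℝ) < q := by exact_mod_cast hq1
  have hqQ' : (q : ℝ) ≤ Q := by exact_mod_cast hqQ
  have happ : |((d + 1).factorial : ℝ) * f.coeff (d + 1) - a / q| ≤ 1 / (q : ℝ) ^ 2 := by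
    have e1 : ((d + 1).factorial : ℝ) * f.coeff (d + 1) - a / q =
        (((d + 1).factorial : ℝ) * f.coeff (d + 1) * q - a) / q := by field_simp
    rw [e1, abs_div, abs_of_pos hq0, div_le_div_iff₀ hq0 (by positivity)]
    have h1 : |((d + 1).factorial : ℝ) * f.coeff (d + 1) * q - a| * q ≤ 1 := by
      calc |((d + 1).factorial : ℝ) * f.coeff (d + 1) * q - a| * q ≤ 1 / ((Q : ℝ) + 1) * Q :=
            mul_le_mul hqa hqQ' hq0.le (by positivity)
        _ ≤ 1 := by rw [div_mul_eq_mul_div, one_mul, div_le_one (by linarith)]; linarith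
    calc |((d + 1).factorial : ℝ) * f.coeff (d + 1) * q - a| * (q : ℝ) ^ 2
        = |((d + 1).factorial : ℝ) * f.coeff (d + 1) * q - a| * q * q := by ring
      _ ≤ 1 * q := mul_le_mul_of_nonneg_right h1 hq0.le
  have hqlo : (X : ℝ) ^ (1 - ε) ≤ q := by
    by_contra hcon
    push Not at hcon
    have h1 : ((d + 1).factorial * q : ℕ) ≤ X := by
      have h2 : (((d + 1).factorial : ℝ)) * q ≤ X := by
        calc (((d + 1).factorial : ℝ)) * q ≤ (X : ℝ) ^ ε * (X : ℝ) ^ (1 - ε) :=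
              mul_le_mul g2 hcon.le hq0.le (Real.rpow_pos_of_pos hX0 _).le
          _ = X := by
            rw [← Real.rpow_add hX0]
            have : ε + (1 - ε) = 1 := by ring
            rw [this, Real.rpow_one]
      exact_mod_cast h2
    have h3 := hα ((d + 1).factorial * q) (Nat.mul_pos (Nat.factorial_pos _) (by omega)) h1
    have h4 : dist1 (f.coeff (d + 1) * (((d + 1).factorial * q : ℕ) : ℝ)) ≤ 1 / ((Q : ℝ) + 1) := by
      refine (dist1_le _ a).trans (le_trans (le_of_eq ?_) hqa)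
      push_cast
      congr 1
      ring
    have h5 : 1 / ((Q : ℝ) + 1) ≤ δ / (X : ℝ) ^ d := by
      rw [div_le_div_iff₀ (by positivity) (by positivity), one_mul]
      have h6 : 4 ≤ δ * K := by
        rw [div_le_iff₀ hδ0] at hK1; linarith
      have h7 : (0 : ℝ) < (X : ℝ) ^ d := by positivity
      have h8 : δ * (Q + 1) = δ * K * (X : ℝ) ^ d + δ := by rw [hQr]; ring
      rw [h8]
      nlinarith
    linarith
  have hqhi : (q : ℝ) ≤ K * (X : ℝ) ^ d * (X : ℝ) ^ ε := by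
    have h1 : (1 : ℝ) ≤ (X : ℝ) ^ ε := Real.one_le_rpow hX1 hε0.le
    rw [← hQr]
    nlinarith
  have hmain := hX₀ X (by omega) _ _ (Ph_real (d + 1) f hf) K hKn hKX ⟨a, q, hq1, hcop, happ, hqlo, hqhi⟩ t
  refine hmain.trans ?_
  calc (K : ℝ) * (X : ℝ) ^ (1 - 1 / (2 : ℝ) ^ d + 5 * ε)
      ≤ (X : ℝ) ^ (ρ / 16) * (X : ℝ) ^ (1 / (2 : ℝ) ^ d - ρ) * (X : ℝ) ^ (1 - 1 / (2 : ℝ) ^ d + 5 * ε) := by
        refine mul_le_mul_of_nonneg_right (hK3.trans ?_) (Real.rpow_pos_of_pos hX0 _).le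
        exact mul_le_mul g1 hδX (by positivity) (Real.rpow_pos_of_pos hX0 _).le
    _ = (X : ℝ) ^ (ρ / 16 + (1 / (2 : ℝ) ^ d - ρ) + (1 - 1 / (2 : ℝ) ^ d + 5 * ε)) := by
        rw [← Real.rpow_add hX0, ← Real.rpow_add hX0]
    _ ≤ (X : ℝ) ^ (1 - ρ / 2) := Real.rpow_le_rpow_of_exponent_le hX1 (by linarith)

end Pool.Agent.H566
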